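import Pool.Agent.BDC.TWO

/-! # BDC: the ball of `u` is an end ball -/

set_option autoImplicit false

namespace Pool.Agent.BDC

open TWO_ CEN_ in
theorem p_A1ii (hD : T_DISJ) (_hTw : T_TWO) (hi : T_A1i) (hM : T_MERGE) (hP : T_P1C) :
    T_A1ii := by
  classical
  intro V _ G C hG hR hC u v huv b hb hbu x y hx hy
  by_contra hnc
  have hv : ¬ InB G b v := by
    intro hbv
    have h1 := hi V G C hG hR hC u v huv b hb hbu hbv
    obtain ⟨d, hd, hdx⟩ := hC.cover.cov x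
    rw [h1, Finset.mem_singleton] at hd
    exact hx (hd ▸ hdx)
  -- a vertex which is not connected to v
  obtain ⟨x, hx, hnc⟩ : ∃ x, ¬ InB G b x ∧ ¬ Cn G {w | ¬ InB G b w} x v := by
    by_cases h1 : Cn G {w | ¬ InB G b w} x v
    · refine ⟨y, hy, fun h2 => hnc (h1.trans h2.symm)⟩
    · exact ⟨x, hx, h1⟩
  let S : Set V := {s | InB G b s ∧ ∃ p, Cn G {w | ¬ InB G b w} v p ∧ G.Adj s p}
  have hSn : ∀ w, Cn G {w | ¬ InB G b w} x w → ∃ σ s, InB G b σ ∧ s ∈ S ∧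
      G.dist w σ + G.dist σ s + G.dist s v = G.dist w v ∧ 2 * b.2 ≤ G.dist σ s + 1 := by
    intro w hw
    obtain ⟨p, σ, hp, hσ, hpσ, _, h1⟩ := geo2 hG {w | Cn G {w | ¬ InB G b w} x w} _ w v rfl hw hnc
    have hσb : InB G b σ := by
      by_contra hc
      exact hσ (Cn.trans hp (Cn.adj (Cn.right hp) hc hpσ))
    obtain ⟨p', s, hp', hs, hps, _, h2⟩ := geo2 hG {w | Cn G {w | ¬ InB G b w} v w} _ v σ rfl
      (Cn.refl hv) (fun h => (Cn.right h) hσb)
    have hsb : InB G b s := by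
      by_contra hc
      exact hs (Cn.trans hp' (Cn.adj (Cn.right hp') hc hps))
    obtain ⟨b₁, hb₁, hb₁p⟩ := hC.cover.cov p
    obtain ⟨b₂, hb₂, hb₂p⟩ := hC.cover.cov p'
    have hpn : ¬ InB G b p := Cn.right hp
    have hpn' : ¬ InB G b p' := Cn.right hp'
    have n₁ : b ≠ b₁ := by
      rintro rfl
      exact hpn hb₁p
    have n₂ : b ≠ b₂ := by
      rintro rfl
      exact hpn' hb₂p
    have n₃ : b₁ ≠ b₂ := by
      rintro rfl
      exact hnc ((Cn.trans hp (ballOut hD hG hC hb hb₁ n₁ hb₁p hb₂p)).trans (Cn.symm hp'))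
    refine ⟨σ, s, hσb, ⟨hsb, p', hp', hps.symm⟩, ?_,
      hP V G C hG hR hC b hb b₁ hb₁ b₂ hb₂ n₁ n₂ n₃ σ s p p' hσb hsb hb₁p hb₂p hpσ.symm hps.symm⟩
    rw [SimpleGraph.dist_comm (u := v) (v := s), SimpleGraph.dist_comm (u := v) (v := σ),
      SimpleGraph.dist_comm (u := s) (v := σ)] at h2
    omega
  obtain ⟨_, s₀, _, hs₀, _, _⟩ := hSn x (Cn.refl hx)
  obtain ⟨s', hs', hmin⟩ := near S ⟨s₀, hs₀⟩ (fun s => G.dist s v)
  have hd1 : G.dist u v ≤ 2 * b.2 + G.dist s' v := by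
    have h1 : G.dist b.1 u ≤ b.2 := hbu
    have h2 : G.dist b.1 s' ≤ b.2 := hs'.1
    have h3 : G.dist u v ≤ G.dist u b.1 + G.dist b.1 v := hG.dist_triangle
    have h4 : G.dist b.1 v ≤ G.dist b.1 s' + G.dist s' v := hG.dist_triangle
    rw [SimpleGraph.dist_comm (u := u) (v := b.1)] at h3
    omega
  have hKc : ∀ w, Cn G {w | ¬ InB G b w} x w → G.dist b.1 w ≤ b.2 + 1 := by
    intro w hw
    obtain ⟨σ, s, hσ, hs, h1, h2⟩ := hSn w hw
    have h3 : G.dist s' v ≤ G.dist s v := hmin s hs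
    have h4 := huv.2 w
    rw [SimpleGraph.dist_comm (u := v) (v := w)] at h4
    have h5 : G.dist b.1 σ ≤ b.2 := hσ
    have h6 : G.dist b.1 w ≤ G.dist b.1 σ + G.dist σ w := hG.dist_triangle
    rw [SimpleGraph.dist_comm (u := σ) (v := w)] at h6
    omega
  obtain ⟨b₁, hb₁, hb₁x⟩ := hC.cover.cov x
  have n₁ : b ≠ b₁ := by
    rintro rfl
    exact hx hb₁x
  have hcost : cost ({b, b₁} : Finset (V × ℕ)) = b.2 + b₁.2 := Finset.sum_pair n₁
  have hpos := hC.cover.pos b₁ hb₁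
  refine hM V G C {b, b₁} b.1 hC ?_ ?_ ?_
  · intro d hd
    rcases Finset.mem_insert.1 hd with rfl | hd
    · exact hb
    · rw [Finset.mem_singleton] at hd
      rw [hd]
      exact hb₁
  · rw [Finset.card_pair n₁]
  · intro d hd w hw
    rw [hcost]
    rcases Finset.mem_insert.1 hd with rfl | hd
    · have : G.dist d.1 w ≤ d.2 := hw
      omega
    · rw [Finset.mem_singleton] at hd
      subst hd
      have := hKc w (ballOut hD hG hC hb hb₁ n₁ hb₁x hw)
      omega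

end Pool.Agent.BDC
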