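import Pool.Agent.BDC.Targets

/-!
# BDC-A2: an end vertex of a mutually distant pair is not a contact point of its ball
-/

namespace Pool.Agent.BDC

theorem p_A2 (hD : T_DISJ) (hi : T_A1i) (hii : T_A1ii) (hM : T_MERGE) (hU : T_UNIQ)
    (hCL : T_CL) (hL : T_L3) : T_A2 := by
  classical
  intro V _ G C hG hR hC u v hMut b hb hub y hy hadj
  -- `v` is outside the ball
  have hv : ¬ InB G b v := by
    intro hbv
    have h1 := hi V G C hG hR hC u v hMut b hb hub hbv
    obtain ⟨b', hb', hyb'⟩ := hC.cover.cov y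
    rw [h1, Finset.mem_singleton] at hb'
    rw [hb'] at hyb'
    exact hy hyb'
  have hcn : ∀ x y, ¬ InB G b x → ¬ InB G b y → Cn G {w | ¬ InB G b w} x y :=
    fun x y hx hy => hii V G C hG hR hC u v hMut b hb hub x y hx hy
  -- contact points
  set S : Set V := {s | InB G b s ∧ ∃ w, ¬ InB G b w ∧ G.Adj s w} with hS
  have hset : {w | ¬ InB G b w} = {w | b.2 < G.dist b.1 w} := by
    ext w
    simp [InB]
  have hSadj : ∀ s ∈ S, ∀ s' ∈ S, s = s' ∨ G.Adj s s' := by
    rintro s ⟨hs, w, hw, hsw⟩ s' ⟨hs', w', hw', hsw'⟩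
    have h1 : Cn G {w | b.2 < G.dist b.1 w} w w := by
      rw [← hset]; exact hcn w w hw hw
    have h2 : Cn G {w | b.2 < G.dist b.1 w} w w' := by
      rw [← hset]; exact hcn w w' hw hw'
    exact (hL V G hG hR b.1 b.2 w s s' w w' h1 h2 hs hs' hsw hsw').2
  have huS : u ∈ S := ⟨hub, y, hy, hadj⟩
  have hSdist : ∀ s ∈ S, ∀ s' ∈ S, G.dist s s' ≤ 1 := by
    intro s hs s' hs'
    rcases hSadj s hs s' hs' with h | h
    · rw [h]; simp
    · rw [SimpleGraph.dist_eq_one_iff_adj.2 h]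
  -- the last contact point on a geodesic to `v`
  have hlast : ∀ (k : ℕ) (w : V), InB G b w → G.dist w v = k →
      ∃ s ∈ S, G.dist w s + G.dist s v ≤ G.dist w v := by
    intro k
    induction k with
    | zero =>
      intro w hw hk
      exfalso
      by_cases hwv : w = v
      · rw [hwv] at hw; exact hv hw
      · have := dist_pos_of_ne hG hwv
        omega
    | succ k ih =>
      intro w hw hk
      have hwv : w ≠ v := by
        rintro rfl; exact hv hw
      obtain ⟨z, hz1, hz2⟩ := dist_step hG hwv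
      by_cases hz : InB G b z
      · obtain ⟨s, hs, h1⟩ := ih z hz (by omega)
        refine ⟨s, hs, ?_⟩
        have h2 := dist_adj_le hG hz1 s
        omega
      · exact ⟨w, ⟨hw, z, hz, hz1⟩, by simp⟩
  have hclose : ∀ w, InB G b w → ∃ s ∈ S, G.dist w s ≤ 1 := by
    intro w hw
    obtain ⟨s, hs, h1⟩ := hlast _ w hw rfl
    refine ⟨s, hs, ?_⟩
    have h2 : G.dist v w ≤ G.dist u v := hMut.2 w
    have h3 : G.dist w v = G.dist v w := SimpleGraph.dist_comm
    have h4 : G.dist u v ≤ G.dist u s + G.dist s v := hG.dist_triangle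
    have h5 := hSdist u huS s hs
    omega
  -- the ball containing `y`
  obtain ⟨b₂, hb₂, hyb₂⟩ := hC.cover.cov y
  have hne : b ≠ b₂ := by
    rintro rfl; exact hy hyb₂
  have hAdj2 : AdjB G b b₂ := ⟨u, y, hub, hyb₂, hadj⟩
  have hSd : ∀ s ∈ S, G.dist b₂.1 s = b₂.2 + 1 := by
    rintro s ⟨hs, y', hy', hsy'⟩
    obtain ⟨b', hb', hyb'⟩ := hC.cover.cov y'
    have hne' : b ≠ b' := by
      rintro rfl; exact hy' hyb'
    have h1 : b₂ = b' := hU V G C hG hR hC b hb b₂ hb₂ b' hb' hne hne' hAdj2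
      ⟨s, y', hs, hyb', hsy'⟩ y y' hyb₂ hyb' (hcn y y' hy hy')
    subst h1
    have h2 : ¬ InB G b₂ s := fun h => hD V G C hG hC b hb b₂ hb₂ hne s hs h
    have h3 := dist_adj_le hG hsy' b₂.1
    have h4 : G.dist b₂.1 y' ≤ b₂.2 := hyb'
    have h5 : b₂.2 < G.dist b₂.1 s := not_le.1 h2
    have h6 : G.dist s b₂.1 = G.dist b₂.1 s := SimpleGraph.dist_comm
    have h7 : G.dist y' b₂.1 = G.dist b₂.1 y' := SimpleGraph.dist_comm
    omega
  obtain ⟨y₀, hy₀, hy₀S⟩ := hCL V G hG hR b₂.1 b₂.2 S ⟨u, huS⟩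
    (fun s hs s' hs' hss => (hSadj s hs s' hs').resolve_left hss) hSd
  have hr₂ := hC.cover.pos b₂ hb₂
  have hr := hC.cover.pos b hb
  obtain ⟨z, hz1, hz2⟩ := dist_mid hG b₂.1 y₀ 1 (by omega)
  apply hM V G C {b, b₂} z hC
  · intro x hx
    rcases Finset.mem_insert.1 hx with rfl | hx
    · exact hb
    · rw [Finset.mem_singleton] at hx; rw [hx]; exact hb₂
  · rw [Finset.card_pair hne]
  · have hcost : cost ({b, b₂} : Finset (V × ℕ)) = b.2 + b₂.2 := by
      unfold cost
      rw [Finset.sum_pair hne]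
    intro x hx w hw
    rw [hcost]
    rcases Finset.mem_insert.1 hx with rfl | hx
    · obtain ⟨s, hs, h1⟩ := hclose w hw
      have h2 : G.dist z w ≤ G.dist z y₀ + G.dist y₀ w := hG.dist_triangle
      have h3 : G.dist y₀ w ≤ G.dist y₀ s + G.dist s w := hG.dist_triangle
      have h4 : G.dist y₀ s = 1 := SimpleGraph.dist_eq_one_iff_adj.2 (hy₀S s hs)
      have h5 : G.dist s w = G.dist w s := SimpleGraph.dist_comm
      omega
    · rw [Finset.mem_singleton] at hx
      subst hx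
      have h2 : G.dist z w ≤ G.dist z x.1 + G.dist x.1 w := hG.dist_triangle
      have h3 : G.dist z x.1 = G.dist x.1 z := SimpleGraph.dist_comm
      have h4 : G.dist x.1 w ≤ x.2 := hw
      omega

end Pool.Agent.BDC
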