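import Pool.Agent.BDC.SWEEPS

/-!
# BDC: the program computes `gammaB`
-/

namespace Pool.Agent.BDC

open N Prog

namespace ALGx

variable {n : ℕ}

open SWx

lemma ecc_eq {G' G : SimpleGraph (Fin n)} {e : Fin n ≃ Fin n} (h : IsoE G' G e)
    (hc : G.Connected) (x : Fin n) : ecc G' x = ecc G (e x) := by
  unfold ecc
  apply le_antisymm
  · apply Finset.sup_le
    intro y _
    rw [dist_eq h hc]
    exact Finset.le_sup (f := fun u => G.dist (e x) u) (Finset.mem_univ (e y))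
  · apply Finset.sup_le
    intro y _
    have h1 := Finset.le_sup (f := fun u => G'.dist x u) (Finset.mem_univ (e.symm y))
    have h2 : G'.dist x (e.symm y) = G.dist (e x) y := by
      rw [dist_eq h hc, Equiv.apply_symm_apply]
    simp only [h2] at h1
    exact h1

lemma gamma_le {G' G : SimpleGraph (Fin n)} {e : Fin n ≃ Fin n} (h : IsoE G' G e)
    (hc : G.Connected) (f : Fin n → ℕ) (hf : IsDomBroadcast G f) :
    IsDomBroadcast G' (f ∘ e) ∧ ∑ v, (f ∘ e) v = ∑ v, f v := by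
  refine ⟨⟨?_, ?_⟩, ?_⟩
  · intro v
    rw [ecc_eq h hc]
    exact hf.le_ecc (e v)
  · intro u
    obtain ⟨v, h1, h2⟩ := hf.dom (e u)
    refine ⟨e.symm v, by simpa using h1, ?_⟩
    rw [dist_eq h hc]
    simpa using h2
  · exact Equiv.sum_comp e f

lemma gamma_eq {G' G : SimpleGraph (Fin n)} {e : Fin n ≃ Fin n} (h : IsoE G' G e)
    (hc : G.Connected) : gammaB G' = gammaB G := by
  have hs : IsoE G G' e.symm := by
    intro i j
    rw [h]
    simp
  have hc' : G'.Connected := conn h hc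
  unfold gammaB
  congr 1
  ext k
  constructor
  · rintro ⟨f, hf, rfl⟩
    obtain ⟨h1, h2⟩ := gamma_le hs hc' f hf
    exact ⟨_, h1, h2⟩
  · rintro ⟨f, hf, rfl⟩
    obtain ⟨h1, h2⟩ := gamma_le h hc f hf
    exact ⟨_, h1, h2⟩

/-- a covering chain gives a cover by balls -/
lemma cc_cover {G : SimpleGraph (Fin n)} {P : ℕ → ℕ → ℕ → Prop}
    (hP : ∀ l u r, P l u r → 1 ≤ r ∧ ∃ c : Fin n, ∀ w : Fin n, l ≤ (w : ℕ) → (w : ℕ) < u →
      G.dist c w ≤ r) {j c : ℕ} (h : CC P j c) :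
    ∃ C : Finset (Fin n × ℕ), (∀ b ∈ C, 1 ≤ b.2) ∧
      (∀ w : Fin n, (w : ℕ) < j → ∃ b ∈ C, InB G b w) ∧ cost C ≤ c := by
  classical
  induction h with
  | zero => exact ⟨∅, by simp, by intro w hw; omega, by simp [cost]⟩
  | @cons l u j c r _ hp hju ih =>
    obtain ⟨C, h1, h2, h3⟩ := ih
    obtain ⟨hr, x, hx⟩ := hP l u r hp
    refine ⟨insert (x, r) C, ?_, ?_, ?_⟩
    · intro b hb
      rcases Finset.mem_insert.1 hb with rfl | hb
      · exact hr
      · exact h1 b hb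
    · intro w hw
      by_cases hwl : (w : ℕ) < l
      · obtain ⟨b, hb, hbw⟩ := h2 w hwl
        exact ⟨b, Finset.mem_insert_of_mem hb, hbw⟩
      · exact ⟨(x, r), Finset.mem_insert_self _ _, hx w (by omega) (by omega)⟩
    · unfold cost
      by_cases hm : (x, r) ∈ C
      · rw [Finset.insert_eq_of_mem hm]
        unfold cost at h3
        omega
      · rw [Finset.sum_insert hm]
        unfold cost at h3
        simp only
        omega

lemma good_goodN {G : SimpleGraph (Fin n)} {U : Fin n → Prop} (hn : 0 < n) (h : Good G U)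
    (hb : ∀ i j : Fin n, gm G i j = 1 ↔ G.Adj i j) (hg : NGraph n (gm G) (gd G)) :
    GoodN n (gm G) (fun x => ∃ h : x < n, U ⟨x, h⟩) := by
  have key : ∀ (i j : ℕ) (hi : i < n) (hj : j < n),
      gm G i j = 1 ↔ G.Adj ⟨i, hi⟩ ⟨j, hj⟩ := fun i j hi hj => hb ⟨i, hi⟩ ⟨j, hj⟩
  refine ⟨⟨?_, ?_⟩, ⟨hn, h.u0 _ rfl⟩, fun x hx => hx.1, ?_, ?_⟩
  · intro w h0 hw
    obtain ⟨y, hy1, hy2⟩ := h.ex ⟨w, hw⟩ h0
    exact ⟨y, hy1, (key y w y.2 hw).2 hy2⟩
  · intro w y z h1 h2 hyw hzw hne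
    have hw := (hg.dom _ _ h1).2
    have hy := (hg.dom _ _ h1).1
    have hz := (hg.dom _ _ h2).1
    rw [key y z hy hz]
    apply h.clq ⟨w, hw⟩ ⟨y, hy⟩ ⟨z, hz⟩ ((key _ _ hy hw).1 h1) ((key _ _ hz hw).1 h2) hyw hzw
    intro e
    exact hne (by simpa using e)
  · rintro x y ⟨hx, hux⟩ h1 hyx
    have hy := (hg.dom _ _ h1).1
    exact ⟨hy, h.uE ⟨x, hx⟩ ⟨y, hy⟩ hux ((key _ _ hy hx).1 h1) hyx⟩
  · rintro x w ⟨hx, hux⟩ hxw hw
    obtain ⟨y, h1, h2, h3⟩ := h.col ⟨x, hx⟩ ⟨w, hw⟩ hux hxw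
    exact ⟨y, h1, h2, (key y w y.2 hw).2 h3⟩

/-- the chain of pieces gives a chain of sub-pieces -/
lemma chain_sc {P Q : ℕ → ℕ → ℕ → Prop} (hPQ : ∀ l j r, P l j r → Q l j r) {j c : ℕ}
    (h : Chain P j c) : SC Q j c := by
  induction h with
  | nil => exact SC.zero
  | cons _ h2 ih => exact SC.cons ih (hPQ _ _ _ h2)

end ALGx

open SWx ALGx in
/-- the final part of the program computes `gammaB` -/
theorem final_part (tBR : T_BR) (tTABS : T_TABS) (tLDP : T_LDP) (tCHAIN : T_CHAIN)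
    (tCEN : T_CEN) (tCOV : T_COV)
    (n : ℕ) (hn : 2 ≤ n) (A : ℕ → ℕ → ℕ) (σ : Store) (G : SimpleGraph (Fin n))
    (U : Fin n → Prop) (u v : Fin n) (hS : Setting G U u v)
    (hB : Has2 n σ aB (gm G)) (hU : HasP n σ aU (fun x => ∃ h : x < n, U ⟨x, h⟩)) :
    run n A cDp (run n A part3 σ) aS n 0 = gammaB G := by
  classical
  obtain ⟨hg, hgd, hgm⟩ := tBR n G hS.conn
  have hgood := good_goodN (by omega) hS.good hgm hg
  obtain ⟨LZ, UZ, RZ, t1, t2, t3, t4⟩ :=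
    tTABS n A σ (gm G) (gd G) (fun x => ∃ h : x < n, U ⟨x, h⟩) (by omega) hg hgood hB hU
  set τ := run n A part3 σ with hτ
  obtain ⟨d1, d2⟩ := tLDP n A τ (fun x => ∃ h : x < n, U ⟨x, h⟩) (gd G) LZ UZ RZ (by omega) t1
    hgood.u0 hgood.ult (fun p w hp hw hup => ⟨t2 p w hp hw hup, hg.lt p w hp hw⟩)
    (fun p hp => hg.zero p (hgood.ult p hp))
    (fun k p hk hp hup => by
      obtain ⟨e1, e2, e3, e4⟩ := t3 k p hk hp hup
      exact ⟨e1, e2, e3, fun h => ⟨(e4 h).1, (e4 h).2.1, (e4 h).2.2.1, (e4 h).2.2.2.1⟩⟩)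
  have hnt : Nontrivial (Fin n) := Fin.nontrivial_iff_two_le.2 hn
  obtain ⟨hcov, C, hC⟩ := tCOV (Fin n) G hS.conn hnt
  -- completeness
  have hup : run n A cDp τ aS n 0 ≤ gammaB G := by
    apply d2
    refine chain_sc ?_ (tCHAIN n hn G U u v hS C hC)
    rintro l j r ⟨b, rfl, hb⟩
    have hr : 1 ≤ b.2 := hC.cover.pos b hb.mem
    obtain ⟨c, hlc, hcj, hcw, hc⟩ := tCEN n hn G U u v hS C hC b l j hb
    have hj := hb.le
    have hcn : ∀ w, l ≤ w → w < j → gd G c w ≤ b.2 := by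
      intro w h1 h2
      have h3 := hcw ⟨w, by omega⟩ h1 h2
      rw [← hgd] at h3
      exact h3
    by_cases hUc : U c
    · left
      exact ⟨c, ⟨c.2, hUc⟩, hlc, hcj, hj, hr, hcn⟩
    · rcases hc with hc | ⟨q, hq, hlq, hqj, hadj⟩
      · exact absurd hc hUc
      · refine t4 l j c q b.2 hb.ul ?_ hb.lt hj hlc hcj ?_ ⟨q.2, hq⟩ hlq hqj ((hgm c q).2 hadj)
          hr hcn
        · exact hb.uj
        · rintro ⟨_, h⟩
          exact hUc h
  -- the value is below `n`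
  have hlt : gammaB G < n := by
    have h0 : 0 < n := by omega
    let z : Fin n := ⟨0, h0⟩
    obtain ⟨x, _, hx⟩ := Finset.exists_max_image Finset.univ (fun w => G.dist z w)
      ⟨z, Finset.mem_univ _⟩
    have hx1 : 1 ≤ G.dist z x := by
      have := hx ⟨1, by omega⟩ (Finset.mem_univ _)
      have h3 : 0 < G.dist z ⟨1, by omega⟩ := dist_pos_of_ne hS.conn (by
        intro e
        have := congrArg Fin.val e
        simp [z] at this)
      omega
    have h1 : IsCover G {(z, G.dist z x)} := by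
      refine ⟨?_, ?_⟩
      · intro b hb
        rw [Finset.mem_singleton] at hb
        subst hb
        exact hx1
      · intro w
        exact ⟨_, Finset.mem_singleton_self _, hx w (Finset.mem_univ _)⟩
    have h2 := hcov _ h1
    have h3 : cost ({(z, G.dist z x)} : Finset (Fin n × ℕ)) = G.dist z x := by
      simp [cost]
    have h4 := hg.lt z x z.2 x.2
    rw [hgd] at h4
    omega
  -- soundness
  rcases d1 with h | h
  · omega
  · have hP : ∀ l u r, Cov n (fun x => ∃ h : x < n, U ⟨x, h⟩) (gd G) LZ UZ RZ l u r →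
        1 ≤ r ∧ ∃ c : Fin n, ∀ w : Fin n, l ≤ (w : ℕ) → (w : ℕ) < u → G.dist c w ≤ r := by
      rintro l u r (⟨p, ⟨hp, _⟩, _, _, _, hr, hw⟩ | ⟨p, k, hup, hp, hk, hr, rfl, rfl, rfl⟩)
      · refine ⟨hr, ⟨p, hp⟩, fun w h1 h2 => ?_⟩
        have := hw w h1 h2
        have h3 := hgd ⟨p, hp⟩ w
        simp only at h3
        omega
      · obtain ⟨_, _, _, e4⟩ := t3 k p hk hp hup
        obtain ⟨_, _, _, _, c, hc, hcw⟩ := e4 hr
        refine ⟨hr, ⟨c, hc⟩, fun w h1 h2 => ?_⟩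
        have := hcw w h1 h2
        have h3 := hgd ⟨c, hc⟩ w
        simp only at h3
        omega
    obtain ⟨C', hc1, hc2, hc3⟩ := cc_cover hP h
    have h5 := hcov C' ⟨hc1, fun w => hc2 w w.2⟩
    omega

theorem p_ALG (tBR : T_BR) (tSW : T_SWEEPS) (tPREP : T_PREP) (tTABS : T_TABS) (tLDP : T_LDP)
    (tCHAIN : T_CHAIN) (tCEN : T_CEN) (tCOV : T_COV) (tRPO : T_RPO) : T_ALG := by
  intro n G hn hG hch
  obtain ⟨e, G', f, h1, h2, h3, h4⟩ := tSW n G hn hG hch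
  have hI1 : SWx.IsoE G' G e := h1
  have hG' : G'.Connected := SWx.conn hI1 hG
  have hch' : Chordal G' := SWx.chordal hI1 hch
  have hR' : HasRPO G' := tRPO (Fin n) G' hG' hch'
  have h0 : 0 < n := by omega
  obtain ⟨h5, h6⟩ := h2 ⟨0, h0⟩ rfl
  obtain ⟨e2, G2, U, v, g1, g2, g3, g4⟩ :=
    tPREP n (gm G) (run n (gm G) part1 zst) G' ⟨0, h0⟩ f hG' hR' rfl h5 h6 h3 h4
  have hI2 : SWx.IsoE G2 G' e2 := g1
  have hfin := final_part tBR tTABS tLDP tCHAIN tCEN tCOV n hn (gm G) _ G2 U ⟨0, h0⟩ v g2 g3 g4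
  rw [ALGx.gamma_eq hI2 hG', ALGx.gamma_eq hI1 hG] at hfin
  rw [← hfin]
  simp only [program, part1, part3, run_seq]
  simp [ev, upd]

end Pool.Agent.BDC
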