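import Pool.Agent.BDC.TargetsA

/-!
# BDC: the matrix and the distance function of a connected graph on `Fin n`
-/

namespace Pool.Agent.BDC

namespace BR

variable {n : ℕ} {G : SimpleGraph (Fin n)}

lemma gm_eq_one (i j : ℕ) :
    gm G i j = 1 ↔ ∃ (hi : i < n) (hj : j < n), G.Adj ⟨i, hi⟩ ⟨j, hj⟩ := by
  unfold gm
  split_ifs with h
  · exact ⟨fun _ => h, fun _ => rfl⟩
  · exact ⟨fun h' => absurd h' (by norm_num), fun h' => absurd h' h⟩

lemma gm_le (i j : ℕ) : gm G i j ≤ 1 := by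
  unfold gm
  split_ifs <;> omega

lemma gd_eq {i j : ℕ} (hi : i < n) (hj : j < n) :
    gd G i j = G.dist ⟨i, hi⟩ ⟨j, hj⟩ := by
  unfold gd
  rw [dif_pos ⟨hi, hj⟩]

lemma dist_lt (hG : G.Connected) (x y : Fin n) : G.dist x y < n := by
  classical
  obtain ⟨p, hp, hl⟩ := hG.exists_path_of_dist x y
  have h1 := hp.length_lt
  rw [Fintype.card_fin] at h1
  omega

end BR

open BR in
theorem p_BR : T_BR := by
  intro n G hG
  refine ⟨⟨?_, gm_le, ?_, ?_, ?_, ?_, ?_, ?_, ?_, ?_, ?_⟩, fun i j => gd_eq i.2 j.2, fun i j => ?_⟩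
  · intro i j h
    obtain ⟨hi, hj, _⟩ := (gm_eq_one i j).1 h
    exact ⟨hi, hj⟩
  · intro i h
    obtain ⟨hi, hj, h'⟩ := (gm_eq_one i i).1 h
    exact G.irrefl h'
  · intro i j h
    obtain ⟨hi, hj, h'⟩ := (gm_eq_one i j).1 h
    exact (gm_eq_one j i).2 ⟨hj, hi, h'.symm⟩
  · intro i hi
    rw [gd_eq hi hi, SimpleGraph.dist_self]
  · intro i j hi hj h
    rw [gd_eq hi hj] at h
    by_contra hne
    have := hG.pos_dist_of_ne (u := (⟨i, hi⟩ : Fin n)) (v := ⟨j, hj⟩)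
      (fun e => hne (congrArg Fin.val e))
    omega
  · intro i j hi hj
    rw [gd_eq hi hj, gd_eq hj hi, SimpleGraph.dist_comm]
  · intro i j k hi hj hk
    rw [gd_eq hi hk, gd_eq hi hj, gd_eq hj hk]
    exact hG.dist_triangle
  · intro i j h
    obtain ⟨hi, hj, h'⟩ := (gm_eq_one i j).1 h
    rw [gd_eq hi hj]
    exact SimpleGraph.dist_eq_one_iff_adj.2 h'
  · intro i j hi hj hne
    obtain ⟨z, hz1, hz2⟩ := dist_step hG (x := (⟨i, hi⟩ : Fin n)) (y := ⟨j, hj⟩)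
      (fun e => hne (congrArg Fin.val e))
    refine ⟨z, (gm_eq_one i z).2 ⟨hi, z.2, hz1⟩, ?_⟩
    rw [gd_eq z.2 hj, gd_eq hi hj]
    exact hz2
  · intro i j hi hj
    rw [gd_eq hi hj]
    exact dist_lt hG _ _
  · rw [gm_eq_one]
    exact ⟨fun ⟨_, _, h⟩ => h, fun h => ⟨i.2, j.2, h⟩⟩

end Pool.Agent.BDC
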