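import Mathlib

/-!
# BDC: graphs, broadcasts, elimination orders

Definitions and the basic library.
-/

namespace Pool.Agent.BDC

/-! ## Definitions used in the statement of the result -/

section Statement

variable {V : Type*}

/-- A graph is chordal if every cycle of length at least four has a chord: an edge joining two
vertices of the cycle which is not an edge of the cycle. -/
def Chordal (G : SimpleGraph V) : Prop :=
  ∀ (v : V) (c : G.Walk v v), c.IsCycle → 4 ≤ c.length →
    ∃ x ∈ c.support, ∃ y ∈ c.support, G.Adj x y ∧ s(x, y) ∉ c.edges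

/-- The eccentricity of a vertex. -/
noncomputable def ecc [Fintype V] (G : SimpleGraph V) (v : V) : ℕ :=
  Finset.univ.sup fun u => G.dist v u

/-- `f` is a dominating broadcast on `G`. -/
structure IsDomBroadcast [Fintype V] (G : SimpleGraph V) (f : V → ℕ) : Prop where
  le_ecc : ∀ v, f v ≤ ecc G v
  dom : ∀ u, ∃ v, 1 ≤ f v ∧ G.dist u v ≤ f v

/-- The broadcast domination number: the least cost of a dominating broadcast. -/
noncomputable def gammaB [Fintype V] (G : SimpleGraph V) : ℕ :=
  sInf {k | ∃ f : V → ℕ, IsDomBroadcast G f ∧ ∑ v, f v = k}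

end Statement

/-! ## Perfect elimination orders -/

section Order

variable {V : Type*}

/-- `num` numbers the vertices so that the earlier neighbours of each vertex form a clique.
The relation `a` is the adjacency relation. -/
structure PEO (a : V → V → Prop) (num : V → ℕ) : Prop where
  sym : ∀ x y, a x y → a y x
  inj : Function.Injective num
  clq : ∀ w y z, a y w → a z w → num y < num w → num z < num w → y ≠ z → a y z

/-- `y` is an earlier neighbour of `w`. -/
def Er (a : V → V → Prop) (num : V → ℕ) (y w : V) : Prop := a y w ∧ num y < num w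

/-- `Anc a num x w`: `x` can be reached from `w` by moving to earlier neighbours (including
`x = w`); the ancestors of `w` in the elimination tree. -/
inductive Anc (a : V → V → Prop) (num : V → ℕ) (x : V) : V → Prop
  | refl : Anc a num x x
  | step {y w : V} : Er a num y w → Anc a num x y → Anc a num x w

/-- `y` is the first neighbour of `w`. -/
def IsFst (a : V → V → Prop) (num : V → ℕ) (y w : V) : Prop :=
  Er a num y w ∧ ∀ z, Er a num z w → num y ≤ num z

/-- `y` is the last earlier neighbour of `w` (the parent in the elimination tree). -/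
def IsPar (a : V → V → Prop) (num : V → ℕ) (y w : V) : Prop :=
  Er a num y w ∧ ∀ z, Er a num z w → num z ≤ num y

variable {a : V → V → Prop} {num : V → ℕ}

lemma Anc.le {x w : V} (h : Anc a num x w) : num x ≤ num w := by
  induction h with
  | refl => exact le_rfl
  | step h1 _ ih => exact ih.trans h1.2.le

lemma Anc.trans {x y z : V} (h1 : Anc a num x y) (h2 : Anc a num y z) : Anc a num x z := by
  induction h2 with
  | refl => exact h1
  | step h _ ih => exact Anc.step h ih

lemma Er.anc {x y : V} (h : Er a num x y) : Anc a num x y := Anc.step h Anc.refl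

/-- the first step of an ancestor chain -/
lemma Anc.cases' {x w : V} (h : Anc a num x w) : x = w ∨ ∃ y, Er a num y w ∧ Anc a num x y := by
  cases h with
  | refl => exact Or.inl rfl
  | step h1 h2 => exact Or.inr ⟨_, h1, h2⟩

/-- (LA) an earlier neighbour `y` of `w` is an earlier neighbour of every ancestor of `w` after
`y`. -/
lemma PEO.LA (h : PEO a num) {x w : V} (hx : Anc a num x w) :
    ∀ {y : V}, Er a num y w → num y < num x → Er a num y x := by
  induction hx with
  | refl => intro y hy _; exact hy
  | @step z w hz hx ih =>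
    intro y hy hlt
    have hzy : y ≠ z := by
      rintro rfl
      exact absurd hx.le (not_le.2 hlt)
    have h1 : Er a num y z := ⟨h.clq w y z hy.1 hz.1 hy.2 hz.2 hzy, lt_of_lt_of_le hlt hx.le⟩
    exact ih h1 hlt

lemma exists_isFst {w : V} (hw : ∃ y, Er a num y w) : ∃ y, IsFst a num y w := by
  classical
  have hex : ∃ k, ∃ y, Er a num y w ∧ num y = k := by
    obtain ⟨y, hy⟩ := hw
    exact ⟨num y, y, hy, rfl⟩
  obtain ⟨y, hy, hk⟩ := Nat.find_spec hex
  refine ⟨y, hy, fun z hz => ?_⟩
  rw [hk]
  exact Nat.find_min' hex ⟨z, hz, rfl⟩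

lemma exists_isPar {w : V} (hw : ∃ y, Er a num y w) : ∃ y, IsPar a num y w := by
  classical
  have hex : ∃ k, ∃ y, Er a num y w ∧ num w - num y = k := by
    obtain ⟨y, hy⟩ := hw
    exact ⟨_, y, hy, rfl⟩
  obtain ⟨y, hy, hk⟩ := Nat.find_spec hex
  refine ⟨y, hy, fun z hz => ?_⟩
  have h1 := Nat.find_min' hex ⟨z, hz, rfl⟩
  have h2 := hy.2
  have h3 := hz.2
  omega

/-- every strict ancestor of `w` is an ancestor of the parent of `w` -/
lemma PEO.anc_par (h : PEO a num) {x p w : V} (hp : IsPar a num p w) (hx : Anc a num x w)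
    (hne : x ≠ w) : Anc a num x p := by
  rcases hx.cases' with h1 | ⟨y, hy, hxy⟩
  · exact absurd h1 hne
  · by_cases hyp : y = p
    · rw [← hyp]; exact hxy
    · have hlt : num y < num p :=
        lt_of_le_of_ne (hp.2 y hy) (fun e => hyp (h.inj e))
      exact Anc.step ⟨h.clq w y p hy.1 hp.1.1 hy.2 hp.1.2 hyp, hlt⟩ hxy

/-- the ancestors of a vertex form a chain -/
lemma PEO.chain (h : PEO a num) : ∀ (k : ℕ) {x y w : V}, num w ≤ k → Anc a num x w →
    Anc a num y w → num x ≤ num y → Anc a num x y := by
  intro k
  induction k with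
  | zero =>
    intro x y w hk hx hy hxy
    have h1 := hx.le
    have h2 := hy.le
    have : x = y := h.inj (by omega)
    rw [this]; exact Anc.refl
  | succ k ih =>
    intro x y w hk hx hy hxy
    rcases hy.cases' with rfl | ⟨z, hz, hyz⟩
    · exact hx
    · obtain ⟨p, hp⟩ := exists_isPar ⟨z, hz⟩
      have hyw : y ≠ w := by
        rintro rfl
        exact absurd hyz.le (not_le.2 hz.2)
      have hxw : x ≠ w := by
        rintro rfl
        have h1 : num y < num x := lt_of_le_of_lt hyz.le hz.2
        omega
      have h2 : num p < num w := hp.1.2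
      exact ih (by omega) (h.anc_par hp hx hxw) (h.anc_par hp hy hyw) hxy

lemma PEO.chain' (h : PEO a num) {x y w : V} (hx : Anc a num x w) (hy : Anc a num y w)
    (hxy : num x ≤ num y) : Anc a num x y := h.chain (num w) le_rfl hx hy hxy

/-- the neighbours of the descendants of `x` which are not descendants of `x` are the earlier
neighbours of `x` -/
lemma PEO.boundary (h : PEO a num) {x w y : V} (hw : Anc a num x w) (hy : ¬ Anc a num x y)
    (hwy : a w y) : Er a num y x := by
  have hne : w ≠ y := by rintro rfl; exact hy hw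
  have hnum : num w ≠ num y := fun e => hne (h.inj e)
  have hlt : num y < num w := by
    rcases lt_or_gt_of_ne hnum with h1 | h1
    · exact absurd (Anc.step ⟨hwy, h1⟩ hw) hy
    · exact h1
  have hyw : Er a num y w := ⟨h.sym _ _ hwy, hlt⟩
  have hyx : num y < num x := by
    by_contra hc
    exact hy (h.chain' hw hyw.anc (not_lt.1 hc))
  exact h.LA hw hyw hyx

end Order

/-! ## Rooted orders of a connected graph -/

section Rooted

variable {V : Type*}

/-- an elimination order rooted at `c` -/
structure RPO (G : SimpleGraph V) (num : V → ℕ) (c : V) : Prop where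
  peo : PEO G.Adj num
  root : ∀ w, w ≠ c → num c < num w
  ex : ∀ w, w ≠ c → ∃ y, Er G.Adj num y w

lemma dist_step {G : SimpleGraph V} (hG : G.Connected) {x y : V} (h : x ≠ y) :
    ∃ z, G.Adj x z ∧ G.dist z y + 1 = G.dist x y := by
  obtain ⟨p, hp⟩ := hG.exists_walk_length_eq_dist x y
  cases p with
  | nil => exact absurd rfl h
  | @cons _ z _ hxz q =>
    refine ⟨z, hxz, ?_⟩
    have h1 : G.dist z y ≤ q.length := SimpleGraph.dist_le q
    have h2 : G.dist x y ≤ G.dist x z + G.dist z y := hG.dist_triangle
    have h3 : G.dist x z = 1 := SimpleGraph.dist_eq_one_iff_adj.2 hxz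
    simp only [SimpleGraph.Walk.length_cons] at hp
    omega

lemma dist_adj_le {G : SimpleGraph V} (hG : G.Connected) {x y : V} (h : G.Adj x y) (z : V) :
    G.dist x z ≤ G.dist y z + 1 := by
  have h2 : G.dist x z ≤ G.dist x y + G.dist y z := hG.dist_triangle
  have h3 : G.dist x y = 1 := SimpleGraph.dist_eq_one_iff_adj.2 h
  omega

/-- a vertex at a given distance on a geodesic -/
lemma dist_mid {G : SimpleGraph V} (hG : G.Connected) (x y : V) :
    ∀ i, i ≤ G.dist x y → ∃ z, G.dist x z = i ∧ G.dist z y + i = G.dist x y := by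
  intro i
  induction i with
  | zero => intro _; exact ⟨x, by simp, by simp⟩
  | succ i ih =>
    intro hi
    obtain ⟨z, h1, h2⟩ := ih (by omega)
    have hne : z ≠ y := by
      rintro rfl
      simp at h2
      omega
    obtain ⟨w, h3, h4⟩ := dist_step hG hne
    refine ⟨w, ?_, by omega⟩
    have h5 : G.dist x w ≤ G.dist x z + G.dist z w := hG.dist_triangle
    have h6 : G.dist z w = 1 := SimpleGraph.dist_eq_one_iff_adj.2 h3
    have h7 : G.dist x y ≤ G.dist x w + G.dist w y := hG.dist_triangle
    omega

lemma dist_pos_of_ne {G : SimpleGraph V} (hG : G.Connected) {x y : V} (h : x ≠ y) :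
    0 < G.dist x y := hG.pos_dist_of_ne h

/-- along the elimination order the distance from the root is monotone -/
lemma RPO.mono {G : SimpleGraph V} (hG : G.Connected) {num : V → ℕ} {c : V}
    (h : RPO G num c) : ∀ (l : ℕ) {p q : V}, G.dist c q = l → Er G.Adj num p q →
    G.dist c p ≤ l := by
  intro l
  induction l with
  | zero =>
    intro p q hq hpq
    have hcq : c = q := by
      by_contra hne
      have := dist_pos_of_ne hG hne
      omega
    subst hcq
    by_cases hpc : p = c
    · subst hpc; exact absurd hpq.2 (lt_irrefl _)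
    · have := h.root p hpc
      have := hpq.2
      omega
  | succ l ih =>
    intro p q hq hpq
    have hqc : q ≠ c := by
      rintro rfl
      simp at hq
    obtain ⟨q', hq1, hq2⟩ := dist_step hG hqc
    have e3 : G.dist c q' = l := by
      rw [SimpleGraph.dist_comm]
      rw [SimpleGraph.dist_comm] at hq
      omega
    by_cases hq'q : num q' < num q
    · by_cases hpq' : p = q'
      · subst hpq'; omega
      · have hadj : G.Adj p q' := h.peo.clq q p q' hpq.1 hq1.symm hpq.2 hq'q hpq'
        have := dist_adj_le hG hadj c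
        rw [SimpleGraph.dist_comm, SimpleGraph.dist_comm (u := q')] at this
        omega
    · have hne2 : num q' ≠ num q := fun e => hq1.ne (h.peo.inj e).symm
      have := ih e3 ⟨hq1, by omega⟩
      omega

lemma RPO.anc_mono {G : SimpleGraph V} (hG : G.Connected) {num : V → ℕ} {c : V}
    (h : RPO G num c) {x w : V} (hx : Anc G.Adj num x w) : G.dist c x ≤ G.dist c w := by
  induction hx with
  | refl => exact le_rfl
  | step h1 _ ih => exact ih.trans (h.mono hG _ rfl h1)

/-- the distance from the root is computed by the first neighbour -/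
lemma RPO.dist_fst {G : SimpleGraph V} (hG : G.Connected) {num : V → ℕ} {c : V}
    (h : RPO G num c) {f w : V} (hf : IsFst G.Adj num f w) :
    G.dist c w = G.dist c f + 1 := by
  have hwc : w ≠ c := by
    rintro rfl
    by_cases hfc : f = w
    · subst hfc; exact absurd hf.1.2 (lt_irrefl _)
    · have := h.root f hfc
      have := hf.1.2
      omega
  obtain ⟨y, h1, h2⟩ := dist_step hG hwc
  have e1 : G.dist c y + 1 = G.dist c w := by
    rw [SimpleGraph.dist_comm, SimpleGraph.dist_comm (u := c)]; exact h2
  have hle : G.dist c w ≤ G.dist c f + 1 := by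
    have := dist_adj_le hG hf.1.1.symm c
    rwa [SimpleGraph.dist_comm, SimpleGraph.dist_comm (u := f)] at this
  have hge : G.dist c f ≤ G.dist c y := by
    by_cases hyw : num y < num w
    · by_cases hfy : f = y
      · rw [hfy]
      · have h3 : Er G.Adj num y w := ⟨h1.symm, hyw⟩
        have h4 : num f < num y :=
          lt_of_le_of_ne (hf.2 y h3) (fun e => hfy (h.peo.inj e))
        exact h.mono hG _ rfl
          ⟨h.peo.clq w f y hf.1.1 h1.symm hf.1.2 hyw hfy, h4⟩
    · have hne : num y ≠ num w := fun e => h1.ne (h.peo.inj e).symm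
      have := h.mono hG _ rfl (⟨h1, by omega⟩ : Er G.Adj num w y)
      omega
  omega

/-- every vertex descends from the root -/
lemma RPO.anc_root {G : SimpleGraph V} {num : V → ℕ} {c : V} (h : RPO G num c) :
    ∀ (k : ℕ) (w : V), num w ≤ k → Anc G.Adj num c w := by
  intro k
  induction k with
  | zero =>
    intro w hk
    by_cases hwc : w = c
    · rw [hwc]; exact Anc.refl
    · have := h.root w hwc; omega
  | succ k ih =>
    intro w hk
    by_cases hwc : w = c
    · rw [hwc]; exact Anc.refl
    · obtain ⟨y, hy⟩ := h.ex w hwc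
      have := hy.2
      exact Anc.step hy (ih y (by omega))

end Rooted

/-! ## Connection inside a set of vertices -/

section Cn

variable {V : Type*}

/-- `a` and `b` are connected inside `S` -/
def Cn (G : SimpleGraph V) (S : Set V) (a b : V) : Prop :=
  a ∈ S ∧ Relation.ReflTransGen (fun x y => G.Adj x y ∧ y ∈ S) a b

lemma Cn.left {G : SimpleGraph V} {S : Set V} {a b : V} (h : Cn G S a b) : a ∈ S := h.1

lemma Cn.right {G : SimpleGraph V} {S : Set V} {a b : V} (h : Cn G S a b) : b ∈ S := by
  obtain ⟨h1, h2⟩ := h
  induction h2 with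
  | refl => exact h1
  | tail _ h3 _ => exact h3.2

lemma Cn.refl {G : SimpleGraph V} {S : Set V} {a : V} (h : a ∈ S) : Cn G S a a := ⟨h, .refl⟩

lemma Cn.trans {G : SimpleGraph V} {S : Set V} {a b c : V} (h1 : Cn G S a b) (h2 : Cn G S b c) :
    Cn G S a c := ⟨h1.1, h1.2.trans h2.2⟩

lemma Cn.adj {G : SimpleGraph V} {S : Set V} {a b : V} (ha : a ∈ S) (hb : b ∈ S)
    (h : G.Adj a b) : Cn G S a b := ⟨ha, Relation.ReflTransGen.single ⟨h, hb⟩⟩

lemma Cn.symm {G : SimpleGraph V} {S : Set V} {a b : V} (h : Cn G S a b) : Cn G S b a := by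
  obtain ⟨h1, h2⟩ := h
  induction h2 with
  | refl => exact Cn.refl h1
  | @tail b c h3 h4 ih =>
    exact (Cn.adj h4.2 ih.1 h4.1.symm).trans ih

lemma Cn.mono {G : SimpleGraph V} {S T : Set V} (hST : S ⊆ T) {a b : V} (h : Cn G S a b) :
    Cn G T a b := by
  obtain ⟨h1, h2⟩ := h
  refine ⟨hST h1, ?_⟩
  induction h2 with
  | refl => exact .refl
  | tail _ h4 ih => exact ih.tail ⟨h4.1, hST h4.2⟩

/-- (LT) the first vertex of a connected set is an ancestor of all its vertices -/
lemma anc_of_cn {G : SimpleGraph V} {num : V → ℕ} (h : PEO G.Adj num) {S : Set V} {z w : V}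
    (hz : ∀ y, Cn G S z y → num z ≤ num y) (hw : Cn G S z w) : Anc G.Adj num z w := by
  obtain ⟨h1, h2⟩ := hw
  induction h2 with
  | refl => exact Anc.refl
  | @tail b c h3 h4 ih =>
    by_contra hc
    have h5 := h.boundary ih hc h4.1
    have h6 : Cn G S z c := ⟨h1, h3.tail h4⟩
    have := hz c h6
    have := h5.2
    omega

end Cn

end Pool.Agent.BDC
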