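import Pool.Agent.BDC.CE

/-!
# BDC: the compiler, commands
-/

set_option autoImplicit false

namespace Pool.Agent.BDC

namespace CC_

open CE_

/-- the program contains the code `l` at line `q` -/
def At (P : List Instr) (q : ℕ) (l : List Instr) : Prop := ∀ i, i < l.length → P[q + i]? = l[i]?

lemma At.left {P : List Instr} {q : ℕ} {l l' : List Instr} (h : At P q (l ++ l')) : At P q l := by
  intro i hi
  rw [h i (by rw [List.length_append]; omega), List.getElem?_append_left hi]

lemma At.right {P : List Instr} {q : ℕ} {l l' : List Instr} (h : At P q (l ++ l')) :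
    At P (q + l.length) l' := by
  intro i hi
  rw [add_assoc, h (l.length + i) (by rw [List.length_append]; omega),
    List.getElem?_append_right (by omega)]
  congr 1
  omega

lemma At.head {P : List Instr} {q : ℕ} {i : Instr} {l : List Instr} (h : At P q (i :: l)) :
    P[q]? = some i := by
  have := h 0 (by simp)
  simpa using this

lemma At.tail {P : List Instr} {q : ℕ} {i : Instr} {l : List Instr} (h : At P q (i :: l)) :
    At P (q + 1) l := by
  intro j hj
  have := h (j + 1) (by simp [hj])
  rw [add_assoc, add_comm 1 j, this]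
  simp

lemma str_pc {i : Instr} (h : Str i) (s : Cfg) : (exec i s).pc = s.pc + 1 := by
  obtain ⟨h1, h2, h3⟩ := h
  cases i with
  | jump l => exact absurd rfl (h1 l)
  | jz a l => exact absurd rfl (h2 a l)
  | halt => exact absurd rfl h3
  | _ => rfl

lemma runs_zero (P : List Instr) (s : Cfg) : runs P 0 s = s := rfl

lemma runs_succ (P : List Instr) (t : ℕ) (s : Cfg) : runs P (t + 1) s = runs P t (step P s) := rfl

lemma runs_add (P : List Instr) (t t' : ℕ) (s : Cfg) :
    runs P (t + t') s = runs P t' (runs P t s) := by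
  unfold runs
  rw [add_comm, Function.iterate_add_apply]

lemma step_at {P : List Instr} {s : Cfg} {i : Instr} (h : P[s.pc]? = some i) :
    step P s = exec i s := by
  unfold step
  rw [h]

lemma runs_str {P : List Instr} : ∀ (l : List Instr) (s : Cfg), (∀ i ∈ l, Str i) →
    At P s.pc l → ∀ m, m ≤ l.length → runs P m s = exl (l.take m) s := by
  intro l
  induction l with
  | nil =>
    intro s _ _ m hm
    have : m = 0 := by simpa using hm
    subst this
    rfl
  | cons i l ih =>
    intro s hst hat m hm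
    cases m with
    | zero => rfl
    | succ m =>
      rw [runs_succ, step_at hat.head, List.take_succ_cons, exl_cons]
      have hpc := str_pc (hst i List.mem_cons_self) s
      refine ih (exec i s) (fun j hj => hst j (List.mem_cons_of_mem _ hj)) ?_ m ?_
      · rw [hpc]
        exact hat.tail
      · simpa using hm

/-- a segment of the run -/
structure Go (K n : ℕ) (P : List Instr) (s : Cfg) (t : ℕ) (s' : Cfg) : Prop where
  eq : runs P t s = s'
  bd : ∀ t', t' ≤ t → Bnd K n (runs P t' s)

variable {K n : ℕ} {P : List Instr}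

lemma Go.refl {s : Cfg} (h : Bnd K n s) : Go K n P s 0 s :=
  ⟨rfl, fun t' ht' => by rw [Nat.le_zero.1 ht']; exact h⟩

lemma Go.trans {s s' s'' : Cfg} {t t' : ℕ} (h : Go K n P s t s') (h' : Go K n P s' t' s'') :
    Go K n P s (t + t') s'' where
  eq := by rw [runs_add, h.eq, h'.eq]
  bd := fun r hr => by
    by_cases h1 : r ≤ t
    · exact h.bd r h1
    · obtain ⟨r', rfl⟩ : ∃ r', r = t + r' := ⟨r - t, by omega⟩
      rw [runs_add, h.eq]
      exact h'.bd r' (by omega)

lemma Go.one {s s' : Cfg} {i : Instr} (h : P[s.pc]? = some i) (he : exec i s = s')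
    (hb : Bnd K n s) (hb' : Bnd K n s') : Go K n P s 1 s' where
  eq := by
    change step P s = s'
    rw [step_at h, he]
  bd := fun r hr => by
    rcases Nat.le_one_iff_eq_zero_or_eq_one.1 hr with rfl | rfl
    · exact hb
    · change Bnd K n (step P s)
      rw [step_at h, he]
      exact hb'

lemma go_str {l : List Instr} {s : Cfg} {t : ℕ} (h : SLn K n l s t) (hat : At P s.pc l) :
    Go K n P s l.length (exl l s) where
  eq := by rw [runs_str l s h.st hat _ le_rfl, List.take_length]
  bd := fun r hr => by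
    rw [runs_str l s h.st hat r hr]
    exact h.bd r

lemma len_E (e : Ex) : ∀ t, (compE t e).length = (compE 0 e).length := by
  induction e with
  | inp i j ihi ihj =>
    intro t
    simp only [compE, List.length_append]
    rw [ihi t, ihj (t + 1), ihj (0 + 1)]
    rfl
  | rd k i j ihi ihj =>
    intro t
    simp only [compE, List.length_append]
    rw [ihi t, ihj (t + 1), ihj (0 + 1)]
    rfl
  | add a b iha ihb =>
    intro t
    simp only [compE, List.length_append]
    rw [iha t, ihb (t + 1), ihb (0 + 1)]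
    rfl
  | sub a b iha ihb =>
    intro t
    simp only [compE, List.length_append]
    rw [iha t, ihb (t + 1), ihb (0 + 1)]
    rfl
  | _ => intro t; rfl

lemma len_B (p : Bx) : ∀ t, (compB t p).length = (compB 0 p).length := by
  induction p with
  | lt a b =>
    intro t
    simp only [compB, List.length_append]
    rw [len_E a t, len_E b (t + 1), len_E b (0 + 1)]
    rfl
  | eq a b =>
    intro t
    simp only [compB, List.length_append]
    rw [len_E a t, len_E b (t + 1), len_E b (0 + 1)]
    rfl
  | and p q ihp ihq =>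
    intro t
    simp only [compB, List.length_append]
    rw [ihp t, ihq (t + 1), ihq (0 + 1)]
    rfl
  | or p q ihp ihq =>
    intro t
    simp only [compB, List.length_append]
    rw [ihp t, ihq (t + 1), ihq (0 + 1)]
    rfl
  | not p ihp =>
    intro t
    simp only [compB, List.length_append]
    rw [ihp t]
    rfl

/-- the address map is injective -/
lemma addr_inj {c K k k' i i' j j' : ℕ} (hk : k < K) (hk' : k' < K) (hj : j ≤ c) (hj' : j' ≤ c)
    (h : (i * (c + 1) + j) * K + k = (i' * (c + 1) + j') * K + k') : k = k' ∧ i = i' ∧ j = j' := by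
  have h1 : k = k' := by
    have h2 : ((i * (c + 1) + j) * K + k) % K = ((i' * (c + 1) + j') * K + k') % K := by rw [h]
    rw [Nat.add_comm ((i * (c + 1) + j) * K), Nat.add_comm ((i' * (c + 1) + j') * K),
      Nat.add_mul_mod_self_right, Nat.add_mul_mod_self_right, Nat.mod_eq_of_lt hk,
      Nat.mod_eq_of_lt hk'] at h2
    exact h2
  subst h1
  have h3 : (i * (c + 1) + j) * K = (i' * (c + 1) + j') * K := by omega
  have h4 : i * (c + 1) + j = i' * (c + 1) + j' :=
    Nat.eq_of_mul_eq_mul_right (by omega) h3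
  have h5 : j = j' := by
    have h2 : (i * (c + 1) + j) % (c + 1) = (i' * (c + 1) + j') % (c + 1) := by rw [h4]
    rw [Nat.add_comm (i * (c + 1)), Nat.add_comm (i' * (c + 1)),
      Nat.add_mul_mod_self_right, Nat.add_mul_mod_self_right, Nat.mod_eq_of_lt (by omega),
      Nat.mod_eq_of_lt (by omega)] at h2
    exact h2
  subst h5
  have h6 : i * (c + 1) = i' * (c + 1) := by omega
  exact ⟨rfl, Nat.eq_of_mul_eq_mul_right (by omega) h6, rfl⟩

lemma inp_lt {i j : ℕ} (hi : i < n) (hj : j < n) : i * n + j < n * n := by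
  have : (i + 1) * n ≤ n * n := Nat.mul_le_mul_right _ hi
  nlinarith

/-- storing -/
lemma repr_store {A : ℕ → ℕ → ℕ} {σ : Store} {s : Cfg} {a b k i j x : ℕ}
    (h : Repr K n A σ s) (ha : s.reg a = n * n + ((i * (cap n + 1) + j) * K + k))
    (hb : s.reg b = x) (hk : k < K) (hi : i ≤ cap n) (hj : j ≤ cap n) (hx : x ≤ cap n) :
    Repr K n A (upd σ k i j x) (exec (.store a b) s) where
  r0 := h.r0
  r1 := h.r1
  r2 := h.r2
  r3 := h.r3
  r4 := h.r4
  cell := by
    intro k' i' j' hk' hi' hj'
    change Function.update s.mem (s.reg a) (s.reg b) _ = _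
    rw [ha, hb]
    by_cases he : k' = k ∧ i' = i ∧ j' = j
    · obtain ⟨rfl, rfl, rfl⟩ := he
      rw [Function.update_self, upd_same]
    · rw [Function.update_of_ne, h.cell k' i' j' hk' hi' hj']
      · unfold upd
        rw [if_neg he]
      · intro h1
        have h2 := addr_inj hk' hk hj' hj (Nat.add_left_cancel h1)
        exact he h2
  inp := by
    intro i' j' hi' hj'
    change Function.update s.mem (s.reg a) (s.reg b) _ = _
    rw [ha, Function.update_of_ne, h.inp i' j' hi' hj']
    have := inp_lt hi' hj'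
    omega
  bs := by
    intro k' i' j'
    unfold upd
    split_ifs
    · exact hx
    · exact h.bs k' i' j'
  bA := h.bA
  bm := by
    intro y
    refine ⟨(h.bm y).1, ?_⟩
    change Function.update s.mem (s.reg a) (s.reg b) y ≤ _
    by_cases hy : y = s.reg a
    · subst hy
      rw [Function.update_self]
      exact (h.bm b).1
    · rw [Function.update_of_ne hy]
      exact (h.bm y).2

/-- the correctness statement for one command -/
def Ok (c : Cm) (K T : ℕ) : Prop := ∀ (n : ℕ) (A : ℕ → ℕ → ℕ) (σ : Store)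
    (f q : ℕ) (P : List Instr) (s : Cfg), 5 ≤ f → Repr K n A σ s → s.pc = q →
    At P q (compC f q c) → ∃ t s', t ≤ T * (n + 2) ^ ldepth c ∧ Go K n P s t s' ∧
      Repr K n A (run n A c σ) s' ∧ s'.pc = q + (compC f q c).length ∧
      ∀ r, r < f → s'.reg r = s.reg r

theorem ok_put (k : ℕ) (i j e : Ex) (K : ℕ) (hids : ∀ k' ∈ idsC (.put k i j e), k' < K) :
    ∃ T, Ok (.put k i j e) K T := by
  have hkK : k < K := hids k (by simp [idsC])
  have hi : ∀ k ∈ idsE i, k < K := fun k h => hids k (by simp [idsC, h])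
  have hj : ∀ k ∈ idsE j, k < K := fun k h => hids k (by simp [idsC, h])
  have he : ∀ k ∈ idsE e, k < K := fun k h => hids k (by simp [idsC, h])
  refine ⟨(compE 0 i).length + (compE 0 j).length + (compE 0 e).length + 7, ?_⟩
  intro n A σ f q P s hf hs hq hat
  have h1 := ce A σ i f s hf hi hs
  have h2 := ce A σ j (f + 1) _ (by omega) hj (h1.2.repr hf hs)
  obtain ⟨g1, g2, g3, g4⟩ := bin hf hs h1 h2
  have h3 := ce A σ e (f + 2) _ (by omega) he g4
  have hei := ev_le hs.bs hs.bA i
  have hej := ev_le hs.bs hs.bA j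
  have hee := ev_le hs.bs hs.bA e
  set s2 := exl (compE f i ++ compE (f + 1) j) s with hs2
  have g5 := h3.2.repr (by omega) g4
  have g6 : (exl (compE (f + 2) e) s2).reg f = ev n A σ i := by
    rw [h3.2.pres f (by omega), g1]
  have g7 : (exl (compE (f + 2) e) s2).reg (f + 1) = ev n A σ j := by
    rw [h3.2.pres (f + 1) (by omega), g2]
  set s3 := exl (compE (f + 2) e) s2 with hs3
  obtain ⟨a1, a2, a3⟩ := t_adr hf g5 g6 g7 hei hej hkK
  set s4 := exl (adr f k) s3 with hs4
  have hcode : compC f q (.put k i j e) =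
      ((compE f i ++ compE (f + 1) j) ++ compE (f + 2) e ++ adr f k) ++ [.store f (f + 2)] := by
    simp only [compC, adr, List.append_assoc, List.cons_append, List.nil_append]
  have h5 := (g3.append h3.2 (by omega)).append (t' := f) (l' := adr f k)
    (by rw [exl_append, ← hs2, ← hs3]; exact a3) le_rfl
  have he4 : exl ((compE f i ++ compE (f + 1) j) ++ compE (f + 2) e ++ adr f k) s = s4 := by
    rw [exl_append, exl_append]
  rw [hcode] at hat ⊢
  have go1 := go_str h5 (by rw [hq]; exact hat.left)
  rw [he4] at go1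
  have hpc4 : s4.pc = q + ((compE f i ++ compE (f + 1) j) ++ compE (f + 2) e ++
      adr f k).length := by
    rw [← he4, h5.pc, hq]
  have hr4 : Repr K n A σ s4 := a3.repr hf g5
  have hv : s4.reg (f + 2) = ev n A σ e := by
    rw [a2 (f + 2) (by omega) (by omega), h3.1]
  have hrs := repr_store (b := f + 2) hr4 a1 hv hkK hei hej hee
  have go2 : Go K n P s4 1 (exec (.store f (f + 2)) s4) :=
    Go.one (by rw [hpc4]; exact hat.right.head) rfl hr4.bm hrs.bm
  refine ⟨_, _, ?_, go1.trans go2, hrs, ?_, ?_⟩
  · simp only [List.length_append, adr, List.length_cons, List.length_nil, ldepth, pow_zero,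
      mul_one]
    rw [len_E i f, len_E j (f + 1), len_E e (f + 2)]
  · change s4.pc + 1 = _
    rw [hpc4, List.length_append (bs := [_]), List.length_singleton, add_assoc]
  · intro r hr
    change s4.reg r = s.reg r
    rw [← he4, h5.pres r hr]

theorem ok_seq (a b : Cm) (K : ℕ) (iha : ∃ T, Ok a K T) (ihb : ∃ T, Ok b K T) :
    ∃ T, Ok (.seq a b) K T := by
  obtain ⟨Ta, ha⟩ := iha
  obtain ⟨Tb, hb⟩ := ihb
  refine ⟨Ta + Tb, ?_⟩
  intro n A σ f q P s hf hs hq hat
  change At P q (compC f q a ++ compC f (q + (compC f q a).length) b) at hat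
  obtain ⟨t1, s1, ht1, go1, hr1, hpc1, hreg1⟩ := ha n A σ f q P s hf hs hq hat.left
  obtain ⟨t2, s2, ht2, go2, hr2, hpc2, hreg2⟩ := hb n A _ f _ P s1 hf hr1 hpc1 hat.right
  refine ⟨t1 + t2, s2, ?_, go1.trans go2, hr2, ?_, ?_⟩
  · have h1 : (n + 2) ^ ldepth a ≤ (n + 2) ^ ldepth (.seq a b) :=
      Nat.pow_le_pow_right (by omega) (le_max_left _ _)
    have h2 : (n + 2) ^ ldepth b ≤ (n + 2) ^ ldepth (.seq a b) :=
      Nat.pow_le_pow_right (by omega) (le_max_right _ _)
    rw [add_mul]
    exact add_le_add (ht1.trans (Nat.mul_le_mul_left _ h1)) (ht2.trans (Nat.mul_le_mul_left _ h2))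
  · rw [hpc2]
    change _ = q + (compC f q a ++ compC f (q + (compC f q a).length) b).length
    rw [List.length_append, add_assoc]
  · intro r hr
    rw [hreg2 r hr, hreg1 r hr]

lemma bnd_pc {s : Cfg} (h : Bnd K n s) (pc : ℕ) : Bnd K n ⟨pc, s.reg, s.mem⟩ := h

lemma repr_pc {A : ℕ → ℕ → ℕ} {σ : Store} {s : Cfg} (h : Repr K n A σ s) (pc : ℕ) :
    Repr K n A σ ⟨pc, s.reg, s.mem⟩ :=
  repr_of h (fun _ _ => rfl) rfl h.bm

theorem ok_ite (p : Bx) (a b : Cm) (K : ℕ) (hids : ∀ k' ∈ idsB p, k' < K)
    (iha : ∃ T, Ok a K T) (ihb : ∃ T, Ok b K T) :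
    ∃ T, Ok (.ite p a b) K T := by
  obtain ⟨Ta, ha⟩ := iha
  obtain ⟨Tb, hb⟩ := ihb
  refine ⟨(compB 0 p).length + 2 + Ta + Tb, ?_⟩
  intro n A σ f q P s hf hs hq hat
  set B := compB f p with hB
  set L := compC f (q + B.length + 1) a with hL
  set q' := q + B.length + 1 + L.length + 1 with hq'
  set R := compC f q' b with hR
  have hcode : compC f q (.ite p a b) = B ++ (Instr.jz f q' ::
      (L ++ (Instr.jump (q' + R.length) :: R))) := by
    simp only [compC, ← hB, ← hL, ← hq', ← hR, List.append_assoc, List.cons_append,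
      List.nil_append]
  rw [hcode] at hat ⊢
  have hlen : (B ++ (Instr.jz f q' :: (L ++ (Instr.jump (q' + R.length) :: R)))).length =
      B.length + 1 + L.length + 1 + R.length := by
    simp only [List.length_append, List.length_cons]
    omega
  obtain ⟨h1, h2⟩ := cb A σ p f s hf hids hs
  have go1 := go_str h2 (by rw [hq]; exact hat.left)
  set s1 := exl (compB f p) s with hs1
  have hpc1 : s1.pc = q + B.length := by rw [h2.pc, hq]
  have hr1 : Repr K n A σ s1 := h2.repr hf hs
  have hjz := hat.right.head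
  have hatL := hat.right.tail.left
  have hjump := hat.right.tail.right.head
  have hatR := hat.right.tail.right.tail
  have hpowa : (n + 2) ^ ldepth a ≤ (n + 2) ^ ldepth (.ite p a b) :=
    Nat.pow_le_pow_right (by omega) (le_max_left _ _)
  have hpowb : (n + 2) ^ ldepth b ≤ (n + 2) ^ ldepth (.ite p a b) :=
    Nat.pow_le_pow_right (by omega) (le_max_right _ _)
  have hpow1 : 1 ≤ (n + 2) ^ ldepth (.ite p a b) := Nat.one_le_pow _ _ (by omega)
  have hlenB : (compB f p).length = (compB 0 p).length := len_B p f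
  by_cases hp : tst n A σ p
  · rw [if_pos hp] at h1
    have go2 : Go K n P s1 1 ⟨q + B.length + 1, s1.reg, s1.mem⟩ := by
      refine Go.one (by rw [hpc1]; exact hjz) ?_ hr1.bm (bnd_pc hr1.bm _)
      change Cfg.mk (if s1.reg f = 0 then q' else s1.pc + 1) s1.reg s1.mem = _
      rw [if_neg (by rw [h1]; exact one_ne_zero), hpc1]
    obtain ⟨t3, s3, ht3, go3, hr3, hpc3, hreg3⟩ := ha n A σ f (q + B.length + 1) P
      ⟨q + B.length + 1, s1.reg, s1.mem⟩ hf (repr_pc hr1 _) rfl hatL
    have hb3 := hr3.bm
    have go4 : Go K n P s3 1 ⟨q' + R.length, s3.reg, s3.mem⟩ :=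
      Go.one (by rw [hpc3]; exact hjump) rfl hb3 (bnd_pc hb3 _)
    refine ⟨_, _, ?_, ((go1.trans go2).trans go3).trans go4, ?_, ?_, ?_⟩
    · have h3 : t3 ≤ Ta * (n + 2) ^ ldepth (.ite p a b) := ht3.trans (Nat.mul_le_mul_left _ hpowa)
      have h4 : ((compB 0 p).length + 2) ≤ ((compB 0 p).length + 2) *
          (n + 2) ^ ldepth (.ite p a b) := Nat.le_mul_of_pos_right _ hpow1
      have h5 : ((compB 0 p).length + 2 + Ta + Tb) * (n + 2) ^ ldepth (.ite p a b) =
        ((compB 0 p).length + 2) * (n + 2) ^ ldepth (.ite p a b) +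
        Ta * (n + 2) ^ ldepth (.ite p a b) + Tb * (n + 2) ^ ldepth (.ite p a b) := by ring
      rw [h5]
      omega
    · rw [run_ite_pos hp]
      exact repr_pc hr3 _
    · change q' + R.length = _
      rw [hlen]
      omega
    · intro r hr
      change s3.reg r = s.reg r
      rw [hreg3 r hr]
      exact h2.pres r hr
  · rw [if_neg hp] at h1
    have go2 : Go K n P s1 1 ⟨q', s1.reg, s1.mem⟩ := by
      refine Go.one (by rw [hpc1]; exact hjz) ?_ hr1.bm (bnd_pc hr1.bm _)
      change Cfg.mk (if s1.reg f = 0 then q' else s1.pc + 1) s1.reg s1.mem = _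
      rw [if_pos h1]
    obtain ⟨t3, s3, ht3, go3, hr3, hpc3, hreg3⟩ := hb n A σ f q' P
      ⟨q', s1.reg, s1.mem⟩ hf (repr_pc hr1 _) rfl hatR
    refine ⟨_, _, ?_, (go1.trans go2).trans go3, ?_, ?_, ?_⟩
    · have h3 : t3 ≤ Tb * (n + 2) ^ ldepth (.ite p a b) := ht3.trans (Nat.mul_le_mul_left _ hpowb)
      have h4 : ((compB 0 p).length + 2) ≤ ((compB 0 p).length + 2) *
          (n + 2) ^ ldepth (.ite p a b) := Nat.le_mul_of_pos_right _ hpow1
      have h5 : ((compB 0 p).length + 2 + Ta + Tb) * (n + 2) ^ ldepth (.ite p a b) =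
        ((compB 0 p).length + 2) * (n + 2) ^ ldepth (.ite p a b) +
        Ta * (n + 2) ^ ldepth (.ite p a b) + Tb * (n + 2) ^ ldepth (.ite p a b) := by ring
      rw [h5]
      omega
    · rw [run_ite_neg hp]
      exact hr3
    · rw [hpc3, hlen]
      change q' + R.length = _
      omega
    · intro r hr
      rw [hreg3 r hr]
      exact h2.pres r hr

theorem ok_loop (k : ℕ) (e : Ex) (a : Cm) (K : ℕ) (hkK : k < K) (hids : ∀ k' ∈ idsE e, k' < K)
    (iha : ∃ T, Ok a K T) : ∃ T, Ok (.loop k e a) K T := by
  obtain ⟨Ta, ha⟩ := iha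
  refine ⟨(compE 0 e).length + 35 + 4 * Ta, ?_⟩
  intro n A σ f q P s hf hs hq hat
  set E := compE (f + 1) e with hE
  set q' := q + E.length + 1 with hq'
  set Bd := compC (f + 2) (q' + 5) a with hBd
  have hcode : compC f q (.loop k e a) = E ++ (Instr.const f 0 ::
      (Instr.sub (f + 2) (f + 1) f :: Instr.jz (f + 2) (q' + 5 + Bd.length + 3) ::
        Instr.const (f + 2) k :: Instr.add (f + 2) (f + 2) 2 :: Instr.store (f + 2) f ::
      (Bd ++ [Instr.const (f + 2) 1, Instr.add f f (f + 2), Instr.jump q']))) := by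
    simp only [compC, ← hE, ← hq', ← hBd, List.append_assoc, List.cons_append,
      List.nil_append]
  rw [hcode] at hat ⊢
  have hlen : (E ++ (Instr.const f 0 ::
      (Instr.sub (f + 2) (f + 1) f :: Instr.jz (f + 2) (q' + 5 + Bd.length + 3) ::
        Instr.const (f + 2) k :: Instr.add (f + 2) (f + 2) 2 :: Instr.store (f + 2) f ::
      (Bd ++ [Instr.const (f + 2) 1, Instr.add f f (f + 2), Instr.jump q'])))).length =
      E.length + 1 + 5 + Bd.length + 3 := by
    simp only [List.length_append, List.length_cons, List.length_nil]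
    omega
  obtain ⟨h1, h2⟩ := ce A σ e (f + 1) s (by omega) hids hs
  have go1 := go_str h2 (by rw [hq]; exact hat.left)
  set s1 := exl (compE (f + 1) e) s with hs1
  have hpc1 : s1.pc = q + E.length := by rw [h2.pc, hq]
  have hr1 : Repr K n A σ s1 := h2.repr (by omega) hs
  have hem := ev_le hs.bs hs.bA e
  set m := ev n A σ e with hm
  have i0 := hat.right.head
  have t0 := hat.right.tail
  have i1 := t0.head
  have i2 := t0.tail.head
  have i3 := t0.tail.tail.head
  have i4 := t0.tail.tail.tail.head
  have i5 := t0.tail.tail.tail.tail.head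
  have t1 := t0.tail.tail.tail.tail.tail
  have hatB : At P (q' + 5) Bd := t1.left
  have t2 := t1.right
  have j1 := t2.head
  have j2 := t2.tail.head
  have j3 := t2.tail.tail.head
  -- start of the loop
  set s2 : Cfg := ⟨q', Function.update s1.reg f 0, s1.mem⟩ with hs2
  have hb2 : Bnd K n s2 := bnd_reg hr1.bm (Nat.zero_le _)
  have go2 : Go K n P s1 1 s2 := by
    refine Go.one (by rw [hpc1]; exact i0) ?_ hr1.bm hb2
    change Cfg.mk (s1.pc + 1) _ _ = _
    rw [hpc1]
  have hr2 : Repr K n A σ s2 :=
    repr_of hr1 (fun r hr => Function.update_of_ne (by omega) _ _) rfl hb2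
  -- the iterations
  have key : ∀ i, i ≤ m → ∃ t s', t ≤ i * (8 + Ta * (n + 2) ^ ldepth a) ∧ Go K n P s2 t s' ∧
      Repr K n A (iter n A k a σ i) s' ∧ s'.pc = q' ∧ s'.reg f = i ∧ s'.reg (f + 1) = m ∧
      ∀ r, r < f → s'.reg r = s.reg r := by
    intro i
    induction i with
    | zero =>
      intro _
      refine ⟨0, s2, by omega, Go.refl hb2, hr2, rfl, Function.update_self _ _ _, ?_, ?_⟩
      · change Function.update s1.reg f 0 (f + 1) = m
        rw [Function.update_of_ne (by omega), h1]
      · intro r hr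
        change Function.update s1.reg f 0 r = _
        rw [Function.update_of_ne (by omega)]
        exact h2.pres r (by omega)
    | succ i ih =>
      intro him
      obtain ⟨t, s3, ht, go3, hr3, hpc3, hf3, hf3', hreg3⟩ := ih (by omega)
      -- sub
      set s4 : Cfg := ⟨q' + 1, Function.update s3.reg (f + 2) (m - i), s3.mem⟩ with hs4
      have hb4 : Bnd K n s4 := bnd_reg hr3.bm (small_le (by omega))
      have go4 : Go K n P s3 1 s4 := by
        refine Go.one (by rw [hpc3]; exact i1) ?_ hr3.bm hb4
        change Cfg.mk (s3.pc + 1) (Function.update s3.reg (f + 2) (s3.reg (f + 1) - s3.reg f))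
          s3.mem = _
        rw [hpc3, hf3, hf3']
      -- jz
      set s5 : Cfg := ⟨q' + 2, s4.reg, s4.mem⟩ with hs5
      have go5 : Go K n P s4 1 s5 := by
        refine Go.one i2 ?_ hb4 (bnd_pc hb4 _)
        change Cfg.mk (if s4.reg (f + 2) = 0 then _ else q' + 1 + 1) s4.reg s4.mem = _
        rw [if_neg]
        change Function.update s3.reg (f + 2) (m - i) (f + 2) ≠ 0
        rw [Function.update_self]
        omega
      -- const
      set s6 : Cfg := ⟨q' + 3, Function.update s5.reg (f + 2) k, s5.mem⟩ with hs6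
      have hkb : k ≤ bnd K n := by
        have h9 := addr_le (n := n) (Nat.zero_le (cap n)) (Nat.zero_le (cap n)) hkK
        omega
      have hb6 : Bnd K n s6 := bnd_reg (s := s5) (bnd_pc hb4 _) hkb
      have go6 : Go K n P s5 1 s6 := Go.one i3 rfl (bnd_pc hb4 _) hb6
      -- add
      set s7 : Cfg := ⟨q' + 4, Function.update s6.reg (f + 2) (k + n * n), s6.mem⟩ with hs7
      have hb7 : Bnd K n s7 := by
        refine bnd_reg hb6 ?_
        have h9 := addr_le (n := n) (Nat.zero_le (cap n)) (Nat.zero_le (cap n)) hkK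
        omega
      have go7 : Go K n P s6 1 s7 := by
        refine Go.one i4 ?_ hb6 hb7
        change Cfg.mk (q' + 4) (Function.update s6.reg (f + 2) (s6.reg (f + 2) + s6.reg 2))
          s6.mem = _
        have e1 : s6.reg (f + 2) = k := Function.update_self _ _ _
        have e2 : s6.reg 2 = n * n := by
          change Function.update (Function.update s3.reg (f + 2) (m - i)) (f + 2) k 2 = _
          rw [Function.update_of_ne (by omega), Function.update_of_ne (by omega), hr3.r2]
        rw [e1, e2]
      have hreg7 : ∀ r, r < f + 2 → s7.reg r = s3.reg r := by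
        intro r hr
        change Function.update (Function.update (Function.update s3.reg (f + 2) (m - i)) (f + 2) k)
          (f + 2) (k + n * n) r = _
        rw [Function.update_of_ne (by omega), Function.update_of_ne (by omega),
          Function.update_of_ne (by omega)]
      have hr7 : Repr K n A (iter n A k a σ i) s7 :=
        repr_of hr3 (fun r hr => hreg7 r (by omega)) rfl hb7
      -- store
      have ha7 : s7.reg (f + 2) = n * n + ((0 * (cap n + 1) + 0) * K + k) := by
        change Function.update _ _ _ _ = _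
        rw [Function.update_self]
        ring
      have hv7 : s7.reg f = i := by rw [hreg7 f (by omega), hf3]
      have hr8 := repr_store (b := f) hr7 ha7 hv7 hkK (Nat.zero_le _) (Nat.zero_le _)
        (by omega)
      have go8 : Go K n P s7 1 (exec (.store (f + 2) f) s7) :=
        Go.one i5 rfl hb7 hr8.bm
      set s8 := exec (.store (f + 2) f) s7 with hs8
      have hreg8 : ∀ r, r < f + 2 → s8.reg r = s3.reg r := hreg7
      -- the body
      obtain ⟨t9, s9, ht9, go9, hr9, hpc9, hreg9⟩ := ha n A _ (f + 2) (q' + 5) P s8 (by omega)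
        hr8 rfl hatB
      have hf9 : s9.reg f = i := by rw [hreg9 f (by omega), hreg8 f (by omega), hf3]
      have hf9' : s9.reg (f + 1) = m := by
        rw [hreg9 (f + 1) (by omega), hreg8 (f + 1) (by omega), hf3']
      -- const
      set s10 : Cfg := ⟨q' + 5 + Bd.length + 1, Function.update s9.reg (f + 2) 1, s9.mem⟩ with hs10
      have hb10 : Bnd K n s10 := bnd_reg hr9.bm (small_le (by omega))
      have go10 : Go K n P s9 1 s10 := by
        refine Go.one (by rw [hpc9]; exact j1) ?_ hr9.bm hb10
        change Cfg.mk (s9.pc + 1) _ _ = _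
        rw [hpc9]
      -- add
      set s11 : Cfg := ⟨q' + 5 + Bd.length + 2, Function.update s10.reg f (i + 1), s10.mem⟩
        with hs11
      have hb11 : Bnd K n s11 := bnd_reg hb10 (small_le (by omega))
      have go11 : Go K n P s10 1 s11 := by
        refine Go.one j2 ?_ hb10 hb11
        change Cfg.mk (q' + 5 + Bd.length + 2) (Function.update s10.reg f
          (s10.reg f + s10.reg (f + 2))) s10.mem = _
        have e1 : s10.reg (f + 2) = 1 := Function.update_self _ _ _
        have e2 : s10.reg f = i := by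
          change Function.update s9.reg (f + 2) 1 f = _
          rw [Function.update_of_ne (by omega), hf9]
        rw [e1, e2]
      -- jump
      set s12 : Cfg := ⟨q', s11.reg, s11.mem⟩ with hs12
      have go12 : Go K n P s11 1 s12 := Go.one j3 rfl hb11 (bnd_pc hb11 _)
      refine ⟨_, s12, ?_, ((((((((go3.trans go4).trans go5).trans go6).trans go7).trans
        go8).trans go9).trans go10).trans go11).trans go12, ?_, rfl, ?_, ?_, ?_⟩
      · have : (i + 1) * (8 + Ta * (n + 2) ^ ldepth a) =
          i * (8 + Ta * (n + 2) ^ ldepth a) + (8 + Ta * (n + 2) ^ ldepth a) := by ring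
        rw [this]
        omega
      · rw [iter_succ]
        refine repr_of hr9 (fun r hr => ?_) rfl (bnd_pc hb11 _)
        change Function.update (Function.update s9.reg (f + 2) 1) f (i + 1) r = _
        rw [Function.update_of_ne (by omega), Function.update_of_ne (by omega)]
      · exact Function.update_self _ _ _
      · change Function.update (Function.update s9.reg (f + 2) 1) f (i + 1) (f + 1) = _
        rw [Function.update_of_ne (by omega), Function.update_of_ne (by omega), hf9']
      · intro r hr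
        change Function.update (Function.update s9.reg (f + 2) 1) f (i + 1) r = _
        rw [Function.update_of_ne (by omega), Function.update_of_ne (by omega),
          hreg9 r (by omega), hreg8 r (by omega), hreg3 r hr]
  obtain ⟨t, s3, ht, go3, hr3, hpc3, hf3, hf3', hreg3⟩ := key m le_rfl
  set s4 : Cfg := ⟨q' + 1, Function.update s3.reg (f + 2) 0, s3.mem⟩ with hs4
  have hb4 : Bnd K n s4 := bnd_reg hr3.bm (Nat.zero_le _)
  have go4 : Go K n P s3 1 s4 := by
    refine Go.one (by rw [hpc3]; exact i1) ?_ hr3.bm hb4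
    change Cfg.mk (s3.pc + 1) (Function.update s3.reg (f + 2) (s3.reg (f + 1) - s3.reg f))
      s3.mem = _
    rw [hpc3, hf3, hf3', Nat.sub_self]
  set s5 : Cfg := ⟨q' + 5 + Bd.length + 3, s4.reg, s4.mem⟩ with hs5
  have go5 : Go K n P s4 1 s5 := by
    refine Go.one i2 ?_ hb4 (bnd_pc hb4 _)
    change Cfg.mk (if s4.reg (f + 2) = 0 then _ else q' + 1 + 1) s4.reg s4.mem = _
    rw [if_pos]
    exact Function.update_self _ _ _
  refine ⟨_, s5, ?_, (((go1.trans go2).trans go3).trans go4).trans go5, ?_, ?_, ?_⟩
  · have hlenE : E.length = (compE 0 e).length := len_E e (f + 1)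
    have hpow1 : 1 ≤ (n + 2) ^ ldepth a := Nat.one_le_pow _ _ (by omega)
    have hcap : m ≤ 4 * (n + 2) := hem
    have h6 : t ≤ (4 * (n + 2)) * (8 + Ta * (n + 2) ^ ldepth a) :=
      ht.trans (Nat.mul_le_mul_right _ hcap)
    have h7 : ldepth (.loop k e a) = ldepth a + 1 := rfl
    rw [h7, pow_succ]
    change (compE (f + 1) e).length + 1 + t + 1 + 1 ≤ _
    rw [len_E e (f + 1)]
    have h8 : (compE 0 e).length + 3 ≤ ((compE 0 e).length + 3) * ((n + 2) ^ ldepth a * (n + 2)) :=
      Nat.le_mul_of_pos_right _ (by positivity)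
    have h9 : (4 * (n + 2)) * (8 + Ta * (n + 2) ^ ldepth a) ≤
        (32 + 4 * Ta) * ((n + 2) ^ ldepth a * (n + 2)) := by
      have h10 : (4 * (n + 2)) * (8 + Ta * (n + 2) ^ ldepth a) =
        32 * (n + 2) + 4 * Ta * ((n + 2) ^ ldepth a * (n + 2)) := by ring
      have h11 : 32 * (n + 2) ≤ 32 * ((n + 2) ^ ldepth a * (n + 2)) :=
        Nat.mul_le_mul_left _ (Nat.le_mul_of_pos_left _ hpow1)
      rw [h10, add_mul]
      exact add_le_add_left h11 _
    have h12 : ((compE 0 e).length + 35 + 4 * Ta) * ((n + 2) ^ ldepth a * (n + 2)) =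
      ((compE 0 e).length + 3) * ((n + 2) ^ ldepth a * (n + 2)) +
      (32 + 4 * Ta) * ((n + 2) ^ ldepth a * (n + 2)) := by ring
    rw [h12]
    omega
  · rw [run_loop]
    exact repr_of hr3 (fun r hr => Function.update_of_ne (by omega) _ _) rfl hb4
  · change q' + 5 + Bd.length + 3 = _
    rw [hlen]
    omega
  · intro r hr
    change Function.update s3.reg (f + 2) 0 r = _
    rw [Function.update_of_ne (by omega), hreg3 r hr]

theorem ok_all (c : Cm) (K : ℕ) : (∀ k ∈ idsC c, k < K) → ∃ T, Ok c K T := by
  induction c with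
  | skip =>
    intro _
    refine ⟨0, ?_⟩
    intro n A σ f q P s hf hs hq _
    exact ⟨0, s, Nat.zero_le _, Go.refl hs.bm, hs, hq, fun _ _ => rfl⟩
  | put k i j e => exact ok_put k i j e K
  | seq a b iha ihb =>
    intro h
    exact ok_seq a b K (iha fun k hk => h k (by simp [idsC, hk]))
      (ihb fun k hk => h k (by simp [idsC, hk]))
  | ite p a b iha ihb =>
    intro h
    exact ok_ite p a b K (fun k hk => h k (by simp [idsC, hk]))
      (iha fun k hk => h k (by simp [idsC, hk])) (ihb fun k hk => h k (by simp [idsC, hk]))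
  | loop k e a iha =>
    intro h
    exact ok_loop k e a K (h k (by simp [idsC])) (fun k hk => h k (by simp [idsC, hk]))
      (iha fun k hk => h k (by simp [idsC, hk]))

end CC_

open CC_ in
theorem p_CC (_h1 : T_CE) (_h2 : T_CB) : T_CC := by
  intro c K hK
  obtain ⟨T, hT⟩ := ok_all c K hK
  refine ⟨T, ?_⟩
  intro n A σ f q P s _ hf hs hq hat
  obtain ⟨t, s', ht, go, hr, hpc, hreg⟩ := hT n A σ f q P s hf hs hq hat
  refine ⟨t, ht, ?_, ?_, ?_, go.bd⟩
  · rw [go.eq]
    exact hr
  · rw [go.eq]
    exact hpc
  · rw [go.eq]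
    exact hreg

end Pool.Agent.BDC
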