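import Pool.Agent.BDC.Comp

/-!
# BDC: the compiler, expressions and conditions
-/

set_option autoImplicit false

namespace Pool.Agent.BDC

namespace CE_

/-- straight-line instructions -/
def Str (i : Instr) : Prop := (∀ l, i ≠ .jump l) ∧ (∀ a l, i ≠ .jz a l) ∧ i ≠ .halt

lemma exl_nil (s : Cfg) : exl [] s = s := rfl

lemma exl_cons (i : Instr) (l : List Instr) (s : Cfg) : exl (i :: l) s = exl l (exec i s) := rfl

lemma exl_append (l l' : List Instr) (s : Cfg) : exl (l ++ l') s = exl l' (exl l s) := by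
  unfold exl
  rw [List.foldl_append]

/-- straight-line code which computes in the registers from `t` on -/
structure SLn (K n : ℕ) (l : List Instr) (s : Cfg) (t : ℕ) : Prop where
  pres : ∀ r, r < t → (exl l s).reg r = s.reg r
  mem : (exl l s).mem = s.mem
  pc : (exl l s).pc = s.pc + l.length
  bd : ∀ m, Bnd K n (exl (l.take m) s)
  st : ∀ i ∈ l, Str i

variable {K n : ℕ}

lemma SLn.bd0 {l : List Instr} {s : Cfg} {t : ℕ} (h : SLn K n l s t) : Bnd K n s := h.bd 0

lemma SLn.bd1 {l : List Instr} {s : Cfg} {t : ℕ} (h : SLn K n l s t) : Bnd K n (exl l s) := by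
  have := h.bd l.length
  rwa [List.take_length] at this

lemma SLn.nil {s : Cfg} (t : ℕ) (h : Bnd K n s) : SLn K n [] s t :=
  ⟨fun _ _ => rfl, rfl, rfl, fun m => by rw [List.take_nil]; exact h, fun i hi => by simp at hi⟩

lemma SLn.append {l l' : List Instr} {s : Cfg} {t t' : ℕ} (h : SLn K n l s t)
    (h' : SLn K n l' (exl l s) t') (ht : t ≤ t') : SLn K n (l ++ l') s t where
  pres := fun r hr => by rw [exl_append, h'.pres r (by omega), h.pres r hr]
  mem := by rw [exl_append, h'.mem, h.mem]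
  pc := by rw [exl_append, h'.pc, h.pc, List.length_append, add_assoc]
  bd := fun m => by
    rw [List.take_append, exl_append]
    by_cases hm : m ≤ l.length
    · rw [Nat.sub_eq_zero_of_le hm, List.take_zero]
      exact h.bd m
    · rw [List.take_of_length_le (not_le.1 hm).le]
      exact h'.bd _
  st := fun i hi => (List.mem_append.1 hi).elim (h.st i) (h'.st i)

lemma SLn.mono {l : List Instr} {s : Cfg} {t t' : ℕ} (h : SLn K n l s t) (ht : t' ≤ t) :
    SLn K n l s t' :=
  ⟨fun r hr => h.pres r (by omega), h.mem, h.pc, h.bd, h.st⟩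

lemma SLn.cons {i : Instr} {l : List Instr} {s : Cfg} {t : ℕ} (hb : Bnd K n s)
    (hpc : (exec i s).pc = s.pc + 1) (hmem : (exec i s).mem = s.mem)
    (hreg : ∀ r, r < t → (exec i s).reg r = s.reg r) (hst : Str i)
    (h : SLn K n l (exec i s) t) : SLn K n (i :: l) s t where
  pres := fun r hr => by rw [exl_cons, h.pres r hr, hreg r hr]
  mem := by rw [exl_cons, h.mem, hmem]
  pc := by rw [exl_cons, h.pc, hpc, List.length_cons]; omega
  bd := fun m => by
    cases m with
    | zero => exact hb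
    | succ m => exact h.bd m
  st := fun j hj => (List.mem_cons.1 hj).elim (fun e => e ▸ hst) (h.st j)

lemma bnd_reg {s : Cfg} (hb : Bnd K n s) {a v pc : ℕ} (hv : v ≤ bnd K n) :
    Bnd K n ⟨pc, Function.update s.reg a v, s.mem⟩ := by
  intro x
  refine ⟨?_, (hb x).2⟩
  change Function.update s.reg a v x ≤ _
  by_cases hx : x = a
  · subst hx
    rw [Function.update_self]
    exact hv
  · rw [Function.update_of_ne hx]
    exact (hb x).1

lemma cons_const {l : List Instr} {s : Cfg} {t a k : ℕ} (ha : t ≤ a) (hb : Bnd K n s)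
    (hv : k ≤ bnd K n)
    (h : Bnd K n (exec (.const a k) s) → SLn K n l (exec (.const a k) s) t) :
    SLn K n (.const a k :: l) s t :=
  SLn.cons hb rfl rfl (fun r hr => Function.update_of_ne (by omega) _ _)
    ⟨by simp, by simp, by simp⟩ (h (bnd_reg hb hv))

lemma cons_move {l : List Instr} {s : Cfg} {t a b : ℕ} (ha : t ≤ a) (hb : Bnd K n s)
    (h : Bnd K n (exec (.move a b) s) → SLn K n l (exec (.move a b) s) t) :
    SLn K n (.move a b :: l) s t :=
  SLn.cons hb rfl rfl (fun r hr => Function.update_of_ne (by omega) _ _)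
    ⟨by simp, by simp, by simp⟩ (h (bnd_reg hb (hb b).1))

lemma cons_add {l : List Instr} {s : Cfg} {t a b c : ℕ} (ha : t ≤ a) (hb : Bnd K n s)
    (hv : s.reg b + s.reg c ≤ bnd K n)
    (h : Bnd K n (exec (.add a b c) s) → SLn K n l (exec (.add a b c) s) t) :
    SLn K n (.add a b c :: l) s t :=
  SLn.cons hb rfl rfl (fun r hr => Function.update_of_ne (by omega) _ _)
    ⟨by simp, by simp, by simp⟩ (h (bnd_reg hb hv))

lemma cons_mul {l : List Instr} {s : Cfg} {t a b c : ℕ} (ha : t ≤ a) (hb : Bnd K n s)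
    (hv : s.reg b * s.reg c ≤ bnd K n)
    (h : Bnd K n (exec (.mul a b c) s) → SLn K n l (exec (.mul a b c) s) t) :
    SLn K n (.mul a b c :: l) s t :=
  SLn.cons hb rfl rfl (fun r hr => Function.update_of_ne (by omega) _ _)
    ⟨by simp, by simp, by simp⟩ (h (bnd_reg hb hv))

lemma cons_sub {l : List Instr} {s : Cfg} {t a b c : ℕ} (ha : t ≤ a) (hb : Bnd K n s)
    (h : Bnd K n (exec (.sub a b c) s) → SLn K n l (exec (.sub a b c) s) t) :
    SLn K n (.sub a b c :: l) s t :=
  SLn.cons hb rfl rfl (fun r hr => Function.update_of_ne (by omega) _ _)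
    ⟨by simp, by simp, by simp⟩ (h (bnd_reg hb ((Nat.sub_le _ _).trans (hb b).1)))

lemma cons_load {l : List Instr} {s : Cfg} {t a b : ℕ} (ha : t ≤ a) (hb : Bnd K n s)
    (h : Bnd K n (exec (.load a b) s) → SLn K n l (exec (.load a b) s) t) :
    SLn K n (.load a b :: l) s t :=
  SLn.cons hb rfl rfl (fun r hr => Function.update_of_ne (by omega) _ _)
    ⟨by simp, by simp, by simp⟩ (h (bnd_reg hb (hb _).2))

/-- only the registers below `5`, the memory and the bound matter -/
lemma repr_of {A : ℕ → ℕ → ℕ} {σ : Store} {s s' : Cfg} (h : Repr K n A σ s)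
    (hr : ∀ r, r < 5 → s'.reg r = s.reg r) (hm : s'.mem = s.mem) (hb : Bnd K n s') :
    Repr K n A σ s' where
  r0 := by rw [hr 0 (by omega), h.r0]
  r1 := by rw [hr 1 (by omega), h.r1]
  r2 := by rw [hr 2 (by omega), h.r2]
  r3 := by rw [hr 3 (by omega), h.r3]
  r4 := by rw [hr 4 (by omega), h.r4]
  cell := by rw [hm]; exact h.cell
  inp := by rw [hm]; exact h.inp
  bs := h.bs
  bA := h.bA
  bm := hb

lemma SLn.repr {A : ℕ → ℕ → ℕ} {σ : Store} {l : List Instr} {s : Cfg} {t : ℕ}
    (h : SLn K n l s t) (ht : 5 ≤ t) (hs : Repr K n A σ s) : Repr K n A σ (exl l s) :=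
  repr_of hs (fun r hr => h.pres r (by omega)) h.mem h.bd1

lemma ev_le {A : ℕ → ℕ → ℕ} {σ : Store} (hσ : Bdd n σ) (hA : ∀ i j, A i j ≤ 1) (e : Ex) :
    ev n A σ e ≤ cap n := by
  induction e with
  | c0 => exact Nat.zero_le _
  | c1 => simp only [ev, cap]; omega
  | c2 => simp only [ev, cap]; omega
  | n => simp only [ev, cap]; omega
  | inp i j _ _ =>
    simp only [ev]
    split_ifs
    · have := hA (ev n A σ i) (ev n A σ j)
      simp only [cap]; omega
    · exact Nat.zero_le _
  | rd k i j _ _ => exact hσ _ _ _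
  | add a b _ _ => exact min_le_right _ _
  | sub a b iha _ => exact (Nat.sub_le _ _).trans iha

lemma n_le_cap : n ≤ cap n := by simp only [cap]; omega

lemma bnd_mul_le {x y : ℕ} (hx : x ≤ cap n) (hy : y ≤ cap n + 1) : x * y ≤ bnd K n := by
  have h1 : x * y ≤ cap n * (cap n + 1) := Nat.mul_le_mul hx hy
  refine h1.trans ?_
  unfold bnd
  nlinarith [Nat.zero_le (cap n), Nat.zero_le K, Nat.zero_le (K * (cap n + 2) * (cap n + 2))]

lemma addr_le {i j k : ℕ} (hi : i ≤ cap n) (hj : j ≤ cap n) (hk : k < K) :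
    (i * (cap n + 1) + j) * K + k + n * n ≤ bnd K n := by
  have h0 : n ≤ cap n := n_le_cap
  have h1 : i * (cap n + 1) ≤ cap n * (cap n + 1) := Nat.mul_le_mul_right _ hi
  have h2 : i * (cap n + 1) + j ≤ cap n * (cap n + 2) := by nlinarith
  have h3 : (i * (cap n + 1) + j) * K ≤ cap n * (cap n + 2) * K := Nat.mul_le_mul_right _ h2
  have h4 : n * n ≤ cap n * cap n := Nat.mul_le_mul h0 h0
  unfold bnd
  nlinarith [Nat.zero_le (K * cap n)]

lemma small_le {x : ℕ} (hx : x ≤ 2 * cap n + 2) : x ≤ bnd K n := by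
  refine hx.trans ?_
  unfold bnd
  nlinarith [Nat.zero_le (cap n), Nat.zero_le K, Nat.zero_le (K * (cap n + 2) * (cap n + 2))]

/-- a binary operation -/
lemma bin {A : ℕ → ℕ → ℕ} {σ : Store} {la lb : List Instr} {s : Cfg} {t va vb : ℕ}
    (ht : 5 ≤ t) (hs : Repr K n A σ s) (ha : (exl la s).reg t = va ∧ SLn K n la s t)
    (hb : (exl lb (exl la s)).reg (t + 1) = vb ∧ SLn K n lb (exl la s) (t + 1)) :
    (exl (la ++ lb) s).reg t = va ∧ (exl (la ++ lb) s).reg (t + 1) = vb ∧
      SLn K n (la ++ lb) s t ∧ Repr K n A σ (exl (la ++ lb) s) := by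
  have h1 := ha.2.append hb.2 (Nat.le_succ t)
  refine ⟨?_, ?_, h1, h1.repr ht hs⟩
  · rw [exl_append, hb.2.pres t (Nat.lt_succ_self t), ha.1]
  · rw [exl_append, hb.1]

lemma tail {la lb : List Instr} {s : Cfg} {t v : ℕ} (ha : SLn K n la s t)
    (hb : (exl lb (exl la s)).reg t = v ∧ SLn K n lb (exl la s) t) :
    (exl (la ++ lb) s).reg t = v ∧ SLn K n (la ++ lb) s t := by
  refine ⟨?_, ha.append hb.2 le_rfl⟩
  rw [exl_append, hb.1]

lemma t_add {A : ℕ → ℕ → ℕ} {σ : Store} {s : Cfg} {t va vb : ℕ} (ht : 5 ≤ t)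
    (hs : Repr K n A σ s) (ha : s.reg t = va) (hb : s.reg (t + 1) = vb) (hva : va ≤ cap n)
    (hvb : vb ≤ cap n) :
    (exl [.add t t (t + 1), .sub (t + 1) t 1, .sub t t (t + 1)] s).reg t = min (va + vb) (cap n) ∧
      SLn K n [.add t t (t + 1), .sub (t + 1) t 1, .sub t t (t + 1)] s t := by
  obtain ⟨u, rfl⟩ : ∃ u, t = u + 5 := ⟨t - 5, by omega⟩
  have h1 := hs.r1
  constructor
  · simp [exl, exec, Function.update_apply, ha, hb, h1]
    omega
  · refine cons_add le_rfl hs.bm ?_ fun b1 => cons_sub (by omega) b1 fun b2 =>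
      cons_sub le_rfl b2 fun b3 => SLn.nil _ b3
    rw [ha, hb]
    exact small_le (by omega)

lemma t_sub {A : ℕ → ℕ → ℕ} {σ : Store} {s : Cfg} {t va vb : ℕ} (_ht : 5 ≤ t)
    (hs : Repr K n A σ s) (ha : s.reg t = va) (hb : s.reg (t + 1) = vb) :
    (exl [.sub t t (t + 1)] s).reg t = va - vb ∧ SLn K n [.sub t t (t + 1)] s t := by
  constructor
  · simp [exl, exec, ha, hb]
  · exact cons_sub le_rfl hs.bm fun b1 => SLn.nil _ b1

/-- the code for the address of a cell -/
def adr (t k : ℕ) : List Instr :=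
  [.mul t t 3, .add t t (t + 1), .mul t t 4, .const (t + 1) k, .add t t (t + 1), .add t t 2]

lemma t_adr {A : ℕ → ℕ → ℕ} {σ : Store} {s : Cfg} {t vi vj k : ℕ} (ht : 5 ≤ t)
    (hs : Repr K n A σ s) (ha : s.reg t = vi) (hb : s.reg (t + 1) = vj) (hvi : vi ≤ cap n)
    (hvj : vj ≤ cap n) (hk : k < K) :
    (exl (adr t k) s).reg t = n * n + ((vi * (cap n + 1) + vj) * K + k) ∧
      (∀ r, r ≠ t → r ≠ t + 1 → (exl (adr t k) s).reg r = s.reg r) ∧
      SLn K n (adr t k) s t := by
  obtain ⟨u, rfl⟩ : ∃ u, t = u + 5 := ⟨t - 5, by omega⟩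
  have h2 := hs.r2
  have h3 := hs.r3
  have h4 := hs.r4
  have ad := addr_le hvi hvj hk
  refine ⟨?_, ?_, ?_⟩
  · simp [adr, exl, exec, Function.update_apply, ha, hb, h2, h3, h4]
    ring
  · intro r h5 h6
    simp [adr, exl, exec, Function.update_apply, h5, h6]
  · refine cons_mul le_rfl hs.bm ?_ fun b1 => cons_add le_rfl b1 ?_ fun b2 =>
      cons_mul le_rfl b2 ?_ fun b3 => cons_const (by omega) b3 ?_ fun b4 =>
      cons_add le_rfl b4 ?_ fun b5 => cons_add le_rfl b5 ?_ fun b6 => SLn.nil _ b6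
    · rw [ha, h3]
      exact bnd_mul_le hvi le_rfl
    · simp only [exec, Function.update_apply, ha, hb, h3, h4, h2]
      simp
      have : vi * (cap n + 1) + vj ≤ (vi * (cap n + 1) + vj) * K :=
        Nat.le_mul_of_pos_right _ (by omega)
      omega
    · simp only [exec, Function.update_apply, ha, hb, h3, h4, h2]
      simp
      omega
    · omega
    · simp only [exec, Function.update_apply, ha, hb, h3, h4, h2]
      simp
      omega
    · simp only [exec, Function.update_apply, ha, hb, h3, h4, h2]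
      simp
      omega

lemma t_inp {A : ℕ → ℕ → ℕ} {σ : Store} {s : Cfg} {t vi vj : ℕ} (ht : 5 ≤ t)
    (hs : Repr K n A σ s) (ha : s.reg t = vi) (hb : s.reg (t + 1) = vj) (hvi : vi ≤ cap n)
    (hvj : vj ≤ cap n) :
    (exl [ .sub (t + 2) 0 t, .const (t + 3) 1, .sub (t + 2) (t + 3) (t + 2),
        .sub (t + 2) (t + 3) (t + 2),
        .sub (t + 4) 0 (t + 1), .sub (t + 4) (t + 3) (t + 4), .sub (t + 4) (t + 3) (t + 4),
        .mul t t 0, .add t t (t + 1), .load t t, .mul t t (t + 2), .mul t t (t + 4)] s).reg t =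
        (if vi < n ∧ vj < n then A vi vj else 0) ∧
      SLn K n [ .sub (t + 2) 0 t, .const (t + 3) 1, .sub (t + 2) (t + 3) (t + 2),
        .sub (t + 2) (t + 3) (t + 2),
        .sub (t + 4) 0 (t + 1), .sub (t + 4) (t + 3) (t + 4), .sub (t + 4) (t + 3) (t + 4),
        .mul t t 0, .add t t (t + 1), .load t t, .mul t t (t + 2), .mul t t (t + 4)] s t := by
  obtain ⟨u, rfl⟩ : ∃ u, t = u + 5 := ⟨t - 5, by omega⟩
  have h0 := hs.r0
  have hn := n_le_cap (n := n)
  constructor
  · simp only [exl, exec, Function.update_apply, List.foldl_cons, List.foldl_nil]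
    simp [ha, hb, h0]
    by_cases h1 : vi < n
    · by_cases h2 : vj < n
      · rw [if_pos ⟨h1, h2⟩, hs.inp _ _ h1 h2]
        have e1 : 1 - (1 - (n - vi)) = 1 := by omega
        have e2 : 1 - (1 - (n - vj)) = 1 := by omega
        rw [e1, e2]
        ring
      · rw [if_neg (fun h => h2 h.2)]
        have e2 : 1 - (1 - (n - vj)) = 0 := by omega
        rw [e2, mul_zero]
    · rw [if_neg (fun h => h1 h.1)]
      have e1 : 1 - (1 - (n - vi)) = 0 := by omega
      rw [e1, mul_zero, zero_mul]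
  · have hone : 1 ≤ bnd K n := small_le (by omega)
    refine cons_sub (by omega) hs.bm fun b1 => cons_const (by omega) b1 hone fun b2 =>
      cons_sub (by omega) b2 fun b3 => cons_sub (by omega) b3 fun b4 =>
      cons_sub (by omega) b4 fun b5 => cons_sub (by omega) b5 fun b6 =>
      cons_sub (by omega) b6 fun b7 => cons_mul le_rfl b7 ?_ fun b8 =>
      cons_add le_rfl b8 ?_ fun b9 => cons_load le_rfl b9 fun b10 =>
      cons_mul le_rfl b10 ?_ fun b11 => cons_mul le_rfl b11 ?_ fun b12 => SLn.nil _ b12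
    · simp only [exec, Function.update_apply]
      simp [ha, h0]
      exact bnd_mul_le hvi (by omega)
    · simp only [exec, Function.update_apply]
      simp [ha, hb, h0]
      have h1 : vi * n ≤ cap n * cap n := Nat.mul_le_mul hvi hn
      unfold bnd
      nlinarith [Nat.zero_le (cap n), Nat.zero_le K, Nat.zero_le (K * (cap n + 2) * (cap n + 2))]
    · simp only [exec, Function.update_apply]
      simp
      exact (Nat.mul_le_mul_left _ (show _ ≤ 1 by omega)).trans (by rw [mul_one]; exact (hs.bm _).2)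
    · simp only [exec, Function.update_apply]
      simp
      refine (Nat.mul_le_mul_left _ (show _ ≤ 1 by omega)).trans ?_
      rw [mul_one]
      exact (Nat.mul_le_mul_left _ (show _ ≤ 1 by omega)).trans (by rw [mul_one]; exact (hs.bm _).2)

theorem ce (A : ℕ → ℕ → ℕ) (σ : Store) (e : Ex) : ∀ (t : ℕ) (s : Cfg), 5 ≤ t →
    (∀ k ∈ idsE e, k < K) → Repr K n A σ s →
    (exl (compE t e) s).reg t = ev n A σ e ∧ SLn K n (compE t e) s t := by
  induction e with
  | c0 =>
    intro t s ht _ hs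
    exact ⟨by simp [compE, exl, exec, ev],
      cons_const le_rfl hs.bm (Nat.zero_le _) fun b => SLn.nil _ b⟩
  | c1 =>
    intro t s ht _ hs
    exact ⟨by simp [compE, exl, exec, ev],
      cons_const le_rfl hs.bm (small_le (by omega)) fun b => SLn.nil _ b⟩
  | c2 =>
    intro t s ht _ hs
    exact ⟨by simp [compE, exl, exec, ev],
      cons_const le_rfl hs.bm (small_le (by omega)) fun b => SLn.nil _ b⟩
  | n =>
    intro t s ht _ hs
    exact ⟨by simp [compE, exl, exec, ev, hs.r0], cons_move le_rfl hs.bm fun b => SLn.nil _ b⟩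
  | inp i j ihi ihj =>
    intro t s ht hk hs
    have hki : ∀ k ∈ idsE i, k < K := fun k h => hk k (by simp [idsE, h])
    have hkj : ∀ k ∈ idsE j, k < K := fun k h => hk k (by simp [idsE, h])
    have h1 := ihi t s ht hki hs
    have h2 := ihj (t + 1) _ (by omega) hkj (h1.2.repr ht hs)
    obtain ⟨g1, g2, g3, g4⟩ := bin ht hs h1 h2
    exact tail g3 (t_inp ht g4 g1 g2 (ev_le hs.bs hs.bA _) (ev_le hs.bs hs.bA _))
  | rd k i j ihi ihj =>
    intro t s ht hk hs
    have hki : ∀ k ∈ idsE i, k < K := fun k h => hk k (by simp [idsE, h])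
    have hkj : ∀ k ∈ idsE j, k < K := fun k h => hk k (by simp [idsE, h])
    have hkK : k < K := hk k (by simp [idsE])
    have h1 := ihi t s ht hki hs
    have h2 := ihj (t + 1) _ (by omega) hkj (h1.2.repr ht hs)
    obtain ⟨g1, g2, g3, g4⟩ := bin ht hs h1 h2
    have hei := ev_le hs.bs hs.bA i
    have hej := ev_le hs.bs hs.bA j
    obtain ⟨a1, _, a3⟩ := t_adr ht g4 g1 g2 hei hej hkK
    refine tail g3 (lb := adr t k ++ [.load t t]) (tail a3 ⟨?_, ?_⟩)
    · have g5 := a3.repr ht g4
      change (Function.update _ t _) t = _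
      rw [Function.update_self, a1]
      exact g5.cell k _ _ hkK hei hej
    · exact cons_load le_rfl a3.bd1 fun b => SLn.nil _ b
  | add a b iha ihb =>
    intro t s ht hk hs
    have hki : ∀ k ∈ idsE a, k < K := fun k h => hk k (by simp [idsE, h])
    have hkj : ∀ k ∈ idsE b, k < K := fun k h => hk k (by simp [idsE, h])
    have h1 := iha t s ht hki hs
    have h2 := ihb (t + 1) _ (by omega) hkj (h1.2.repr ht hs)
    obtain ⟨g1, g2, g3, g4⟩ := bin ht hs h1 h2
    exact tail g3 (t_add ht g4 g1 g2 (ev_le hs.bs hs.bA _) (ev_le hs.bs hs.bA _))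
  | sub a b iha ihb =>
    intro t s ht hk hs
    have hki : ∀ k ∈ idsE a, k < K := fun k h => hk k (by simp [idsE, h])
    have hkj : ∀ k ∈ idsE b, k < K := fun k h => hk k (by simp [idsE, h])
    have h1 := iha t s ht hki hs
    have h2 := ihb (t + 1) _ (by omega) hkj (h1.2.repr ht hs)
    obtain ⟨g1, g2, g3, g4⟩ := bin ht hs h1 h2
    exact tail g3 (t_sub ht g4 g1 g2)

lemma x_lt {s : Cfg} {t va vb : ℕ} (ha : s.reg t = va) (hb : s.reg (t + 1) = vb) :
    (exl [.sub t (t + 1) t, .const (t + 1) 1, .sub t (t + 1) t, .sub t (t + 1) t] s).reg t =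
      if va < vb then 1 else 0 := by
  simp [exl, exec, ha, hb]
  split_ifs <;> omega

lemma x_eq {s : Cfg} {t va vb : ℕ} (ha : s.reg t = va) (hb : s.reg (t + 1) = vb) :
    (exl [.sub (t + 2) t (t + 1), .sub t (t + 1) t, .add t t (t + 2), .const (t + 1) 1,
        .sub t (t + 1) t] s).reg t =
      if va = vb then 1 else 0 := by
  simp [exl, exec, ha, hb]
  split_ifs <;> omega

lemma x_and {s : Cfg} {t : ℕ} {p q : Prop} [Decidable p] [Decidable q]
    (ha : s.reg t = if p then 1 else 0) (hb : s.reg (t + 1) = if q then 1 else 0) :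
    (exl [.mul t t (t + 1)] s).reg t = if (p ∧ q) then 1 else 0 := by
  simp only [exl, exec, List.foldl_cons, List.foldl_nil, Function.update_self, ha, hb]
  by_cases hp : p <;> by_cases hq : q <;> simp [hp, hq]

lemma x_or {s : Cfg} {t : ℕ} {p q : Prop} [Decidable p] [Decidable q]
    (ha : s.reg t = if p then 1 else 0) (hb : s.reg (t + 1) = if q then 1 else 0) :
    (exl [.add t t (t + 1), .const (t + 1) 1, .sub t (t + 1) t, .sub t (t + 1) t] s).reg t =
      if (p ∨ q) then 1 else 0 := by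
  simp [exl, exec, ha, hb]
  by_cases hp : p <;> by_cases hq : q <;> simp [hp, hq]

lemma x_not {s : Cfg} {t : ℕ} {p : Prop} [Decidable p]
    (ha : s.reg t = if p then 1 else 0) :
    (exl [.const (t + 1) 1, .sub t (t + 1) t] s).reg t = if (¬ p) then 1 else 0 := by
  simp [exl, exec, ha]
  by_cases hp : p <;> simp [hp]

theorem cb (A : ℕ → ℕ → ℕ) (σ : Store) (p : Bx) : ∀ (t : ℕ) (s : Cfg), 5 ≤ t →
    (∀ k ∈ idsB p, k < K) → Repr K n A σ s →
    (exl (compB t p) s).reg t = (if tst n A σ p then 1 else 0) ∧ SLn K n (compB t p) s t := by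
  have hone : 1 ≤ bnd K n := small_le (by omega)
  have htwo : 2 ≤ bnd K n := small_le (by omega)
  induction p with
  | lt a b =>
    intro t s ht hk hs
    have hka : ∀ k ∈ idsE a, k < K := fun k h => hk k (by simp [idsB, h])
    have hkb : ∀ k ∈ idsE b, k < K := fun k h => hk k (by simp [idsB, h])
    have h1 := ce A σ a t s ht hka hs
    have h2 := ce A σ b (t + 1) _ (by omega) hkb (h1.2.repr ht hs)
    obtain ⟨g1, g2, g3, g4⟩ := bin ht hs h1 h2
    refine tail g3 ⟨x_lt g1 g2, ?_⟩
    exact cons_sub le_rfl g4.bm fun b1 => cons_const (by omega) b1 hone fun b2 =>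
        cons_sub le_rfl b2 fun b3 => cons_sub le_rfl b3 fun b4 => SLn.nil _ b4
  | eq a b =>
    intro t s ht hk hs
    have hka : ∀ k ∈ idsE a, k < K := fun k h => hk k (by simp [idsB, h])
    have hkb : ∀ k ∈ idsE b, k < K := fun k h => hk k (by simp [idsB, h])
    have h1 := ce A σ a t s ht hka hs
    have h2 := ce A σ b (t + 1) _ (by omega) hkb (h1.2.repr ht hs)
    obtain ⟨g1, g2, g3, g4⟩ := bin ht hs h1 h2
    have hea := ev_le hs.bs hs.bA a
    have heb := ev_le hs.bs hs.bA b
    refine tail g3 ⟨x_eq g1 g2, ?_⟩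
    generalize exl (compE t a ++ compE (t + 1) b) s = s' at g1 g2 g4 ⊢
    refine cons_sub (by omega) g4.bm fun b1 => cons_sub le_rfl b1 fun b2 =>
        cons_add le_rfl b2 ?_ fun b3 => cons_const (by omega) b3 hone fun b4 =>
        cons_sub le_rfl b4 fun b5 => SLn.nil _ b5
    simp only [exec, Function.update_apply]
    simp [g1, g2]
    exact small_le (by omega)
  | and p q ihp ihq =>
    intro t s ht hk hs
    have hka : ∀ k ∈ idsB p, k < K := fun k h => hk k (by simp [idsB, h])
    have hkb : ∀ k ∈ idsB q, k < K := fun k h => hk k (by simp [idsB, h])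
    have h1 := ihp t s ht hka hs
    have h2 := ihq (t + 1) _ (by omega) hkb (h1.2.repr ht hs)
    obtain ⟨g1, g2, g3, g4⟩ := bin ht hs h1 h2
    refine tail g3 ⟨x_and g1 g2, ?_⟩
    refine cons_mul le_rfl g4.bm ?_ fun b1 => SLn.nil _ b1
    rw [g1, g2]
    split_ifs <;> omega
  | or p q ihp ihq =>
    intro t s ht hk hs
    have hka : ∀ k ∈ idsB p, k < K := fun k h => hk k (by simp [idsB, h])
    have hkb : ∀ k ∈ idsB q, k < K := fun k h => hk k (by simp [idsB, h])
    have h1 := ihp t s ht hka hs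
    have h2 := ihq (t + 1) _ (by omega) hkb (h1.2.repr ht hs)
    obtain ⟨g1, g2, g3, g4⟩ := bin ht hs h1 h2
    refine tail g3 ⟨x_or g1 g2, ?_⟩
    refine cons_add le_rfl g4.bm ?_ fun b1 => cons_const (by omega) b1 hone fun b2 =>
        cons_sub le_rfl b2 fun b3 => cons_sub le_rfl b3 fun b4 => SLn.nil _ b4
    rw [g1, g2]
    split_ifs <;> omega
  | not p ihp =>
    intro t s ht hk hs
    have hka : ∀ k ∈ idsB p, k < K := fun k h => hk k (by simp [idsB, h])
    have h1 := ihp t s ht hka hs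
    refine tail h1.2 ⟨x_not h1.1, ?_⟩
    exact cons_const (by omega) h1.2.bd1 hone fun b1 => cons_sub le_rfl b1 fun b2 =>
        SLn.nil _ b2

end CE_

theorem p_CE : T_CE := by
  intro K n A σ e t s _ ht hk hs
  obtain ⟨h1, h2⟩ := CE_.ce A σ e t s ht hk hs
  exact ⟨h1, h2.pres, h2.mem, h2.pc, h2.bd, h2.st⟩

theorem p_CB : T_CB := by
  intro K n A σ p t s _ ht hk hs
  obtain ⟨h1, h2⟩ := CE_.cb A σ p t s ht hk hs
  exact ⟨fun h => by rw [h1, if_pos h], fun h => by rw [h1, if_neg h], h2.pres, h2.mem, h2.pc,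
    h2.bd, h2.st⟩

end Pool.Agent.BDC
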