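import Pool.Agent.BDC.CHAIN

/-! # BDC: the centres can be chosen on the path or next to it -/

set_option autoImplicit false

namespace Pool.Agent.BDC

namespace CEN_

/-- a geodesic which leaves `T`, both ends of the exit edge -/
lemma geo2 {V : Type} {G : SimpleGraph V} (hG : G.Connected) (T : Set V) :
    ∀ (k : ℕ) (a t : V), G.dist a t = k → a ∈ T → t ∉ T →
      ∃ p q, p ∈ T ∧ q ∉ T ∧ G.Adj p q ∧ G.dist a p + 1 = G.dist a q ∧
        G.dist a q + G.dist q t = G.dist a t := by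
  intro k
  induction k with
  | zero =>
    intro a t hk ha ht
    have : a = t := by
      by_contra hne
      have := dist_pos_of_ne hG hne
      omega
    subst this
    exact absurd ha ht
  | succ k ih =>
    intro a t hk ha ht
    have hne : a ≠ t := by
      rintro rfl
      exact ht ha
    obtain ⟨a', h1, h2⟩ := dist_step hG hne
    have h3 : G.dist a a' = 1 := SimpleGraph.dist_eq_one_iff_adj.2 h1
    by_cases ha' : a' ∈ T
    · obtain ⟨p, q, hp, hq, hpq, h4, h4'⟩ := ih a' t (by omega) ha' ht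
      have h5 : G.dist a q ≤ G.dist a a' + G.dist a' q := hG.dist_triangle
      have h6 : G.dist a t ≤ G.dist a q + G.dist q t := hG.dist_triangle
      have h7 : G.dist a p ≤ G.dist a a' + G.dist a' p := hG.dist_triangle
      have h8 : G.dist a q ≤ G.dist a p + G.dist p q := hG.dist_triangle
      have h9 : G.dist p q = 1 := SimpleGraph.dist_eq_one_iff_adj.2 hpq
      exact ⟨p, q, hp, hq, hpq, by omega, by omega⟩
    · exact ⟨a, a', ha, ha', h1, by rw [SimpleGraph.dist_self]; omega, by omega⟩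

lemma eq_of_dist {V : Type} {G : SimpleGraph V} (hG : G.Connected) {x y : V}
    (h : G.dist x y = 0) : x = y := by
  by_contra hne
  have := dist_pos_of_ne hG hne
  omega

lemma near {V : Type} [Finite V] (Q : Set V) (hQ : Q.Nonempty) (f : V → ℕ) :
    ∃ q ∈ Q, ∀ q' ∈ Q, f q ≤ f q' :=
  Set.exists_min_image Q f (Set.toFinite Q) hQ

end CEN_

open CEN_ CHAIN_ in
theorem p_CEN (h0 : T_P0) (hCL : T_CL) (hD : T_DISJ) (hP : T_P1C) : T_CEN := by
  intro n hn G U u v hs C hC b l j hb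
  classical
  have hG := hs.conn
  have hR := hs.rpo
  have hg := hs.good
  have hpos := hC.cover.pos b hb.mem
  obtain ⟨c, r⟩ := b
  change 1 ≤ r at hpos
  have hball : ∀ w : Fin n, G.dist c w ≤ r ↔ l ≤ (w : ℕ) ∧ (w : ℕ) < j := hb.ball
  change ∃ c : Fin n, l ≤ (c : ℕ) ∧ (c : ℕ) < j ∧
        (∀ w : Fin n, l ≤ (w : ℕ) → (w : ℕ) < j → G.dist c w ≤ r) ∧
        (U c ∨ ∃ q : Fin n, U q ∧ l ≤ (q : ℕ) ∧ (q : ℕ) < j ∧ G.Adj c q)
  have hcin : l ≤ (c : ℕ) ∧ (c : ℕ) < j := (hball c).1 (by rw [SimpleGraph.dist_self]; omega)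
  by_cases hUc : U c
  · exact ⟨c, hcin.1, hcin.2, fun w h1 h2 => (hball w).2 ⟨h1, h2⟩, Or.inl hUc⟩
  -- the branch
  obtain ⟨hln, hUL⟩ := hb.ul
  set L : Fin n := ⟨l, hln⟩ with hLdef
  have hLv : (L : ℕ) = l := rfl
  have hpe := peo hg
  obtain ⟨κ, ⟨hκc, hκU⟩, hκm⟩ := Set.exists_min_image
    {x : Fin n | Anc G.Adj (fun w : Fin n => (w : ℕ)) x c ∧ ¬ U x} (fun w => (w : ℕ))
    (Set.toFinite _) ⟨c, Anc.refl, hUc⟩
  have hLc : Anc G.Adj (fun w : Fin n => (w : ℕ)) L c := desc hg hUL _ c rfl hcin.1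
  have hκL : l < (κ : ℕ) := by
    by_contra hc
    have h1 : (κ : ℕ) ≤ (L : ℕ) := by
      rw [hLv]
      omega
    exact hκU (uAnc hg (hpe.chain' hκc hLc h1) hUL)
  have hκcle : (κ : ℕ) ≤ (c : ℕ) := hκc.le
  let T : Set (Fin n) := {w | Anc G.Adj (fun w : Fin n => (w : ℕ)) κ w}
  let Q : Set (Fin n) := {q | Er G.Adj (fun w : Fin n => (w : ℕ)) q κ}
  have hTin : ∀ w ∈ T, l ≤ (w : ℕ) ∧ (w : ℕ) < j := by
    intro w hw
    have h1 : (κ : ℕ) ≤ (w : ℕ) := Anc.le hw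
    refine ⟨by omega, ?_⟩
    rcases hb.uj with h2 | ⟨hj, hUJ⟩
    · rw [h2]
      exact w.2
    · by_contra hc
      have h3 : Anc G.Adj (fun w : Fin n => (w : ℕ)) ⟨j, hj⟩ w := desc hg hUJ _ w rfl (not_lt.1 hc)
      have h4 : (κ : ℕ) ≤ j := by omega
      exact hκU (uAnc hg (hpe.chain' hw h3 h4) hUJ)
  have hTU : ∀ w, U w → w ∉ T := fun w hw hwT => hκU (uAnc hg hwT hw)
  have hQU : ∀ q ∈ Q, U q := by
    intro q hq
    by_contra hc
    have h1 := hκm q ⟨Anc.trans (Er.anc hq) hκc, hc⟩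
    have h2 := hq.2
    exact absurd h2 (not_lt.2 h1)
  have hQne : Q.Nonempty := by
    obtain ⟨y, hy1, hy2⟩ := hg.ex κ (by omega)
    exact ⟨y, hy2, hy1⟩
  have hQcl : ∀ x ∈ Q, ∀ y ∈ Q, x ≠ y → G.Adj x y := fun x hx y hy hxy =>
    hpe.clq κ x y hx.1 hy.1 hx.2 hy.2 hxy
  have hQd : ∀ x ∈ Q, ∀ y ∈ Q, G.dist x y ≤ 1 := by
    intro x hx y hy
    by_cases hxy : x = y
    · rw [hxy, SimpleGraph.dist_self]
      omega
    · rw [SimpleGraph.dist_eq_one_iff_adj.2 (hQcl x hx y hy hxy)]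
  have hpass : ∀ a t : Fin n, a ∈ T → t ∉ T → ∃ q ∈ Q, G.dist a q + G.dist q t = G.dist a t := by
    intro a t ha ht
    obtain ⟨p, q, hp, hq, hpq, _, hd⟩ := geo2 hG T _ a t rfl ha ht
    exact ⟨q, hpe.boundary hp hq hpq, hd⟩
  have hcT : c ∈ T := hκc
  obtain ⟨q₀, hq₀, hq₀m⟩ := near Q hQne (fun q => G.dist c q)
  have hx1 : 1 ≤ G.dist c q₀ := by
    by_contra hc
    have := eq_of_dist hG (show G.dist c q₀ = 0 by omega)
    exact hUc (this ▸ hQU q₀ hq₀)
  -- the end ball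
  have END : ∀ e e' : Fin n, U e → U e' → l ≤ (e : ℕ) → (e : ℕ) < j →
      (∀ w, G.dist w e' ≤ G.dist e e') →
      ∃ c : Fin n, l ≤ (c : ℕ) ∧ (c : ℕ) < j ∧
        (∀ w : Fin n, l ≤ (w : ℕ) → (w : ℕ) < j → G.dist c w ≤ r) ∧
        (U c ∨ ∃ q : Fin n, U q ∧ l ≤ (q : ℕ) ∧ (q : ℕ) < j ∧ G.Adj c q) := by
    intro e e' hUe hUe' hel hej hfar
    obtain ⟨q₁, hq₁, hq₁m⟩ := near Q hQne (fun q => G.dist e q)
    obtain ⟨q₂, hq₂, hq₂m⟩ := near Q hQne (fun q => G.dist e' q)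
    have key : ∀ (x : ℕ) (c' : Fin n), c' ∈ T →
        (∀ w : Fin n, l ≤ (w : ℕ) → (w : ℕ) < j → G.dist c' w ≤ r) →
        (∀ q ∈ Q, x + 1 ≤ G.dist c' q) → (∃ q ∈ Q, G.dist c' q = x + 1 ∧ l ≤ (q : ℕ) ∧
          (q : ℕ) < j) →
        ∃ c : Fin n, l ≤ (c : ℕ) ∧ (c : ℕ) < j ∧
        (∀ w : Fin n, l ≤ (w : ℕ) → (w : ℕ) < j → G.dist c w ≤ r) ∧
        (U c ∨ ∃ q : Fin n, U q ∧ l ≤ (q : ℕ) ∧ (q : ℕ) < j ∧ G.Adj c q) := by
      intro x
      induction x with
      | zero =>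
        rintro c' hc'T hc'b _ ⟨q, hq, hq1, hq2, hq3⟩
        exact ⟨c', (hTin c' hc'T).1, (hTin c' hc'T).2, hc'b,
          Or.inr ⟨q, hQU q hq, hq2, hq3, SimpleGraph.dist_eq_one_iff_adj.1 hq1⟩⟩
      | succ x ih =>
        rintro c' hc'T hc'b hmin ⟨q, hq, hq1, hq2, hq3⟩
        -- the clique of nearest vertices
        obtain ⟨y₁, hy1, hy2⟩ := hCL _ G hG hR c' (x + 1) {p | p ∈ Q ∧ G.dist c' p = x + 1 + 1}
          ⟨q, hq, hq1⟩ (fun a ha a' ha' h => hQcl a ha.1 a' ha'.1 h) (fun a ha => ha.2)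
        obtain ⟨y, hy3, hy4⟩ := dist_mid hG c' y₁ 1 (by omega)
        have hyadj : G.Adj c' y := SimpleGraph.dist_eq_one_iff_adj.1 hy3
        have hyq : ∀ p ∈ Q, G.dist c' p = x + 1 + 1 → G.dist y p = x + 1 := by
          intro p hp hpd
          have h1 : G.dist y p ≤ G.dist y y₁ + G.dist y₁ p := hG.dist_triangle
          have h2 : G.dist y₁ p = 1 := SimpleGraph.dist_eq_one_iff_adj.2 (hy2 p ⟨hp, hpd⟩)
          have h3 : G.dist c' p ≤ G.dist c' y + G.dist y p := hG.dist_triangle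
          omega
        have hyQ : ∀ p ∈ Q, x + 1 ≤ G.dist y p := by
          intro p hp
          have h1 := hmin p hp
          have h3 : G.dist c' p ≤ G.dist c' y + G.dist y p := hG.dist_triangle
          omega
        have hyT : y ∈ T := by
          by_contra hc
          have h1 : y ∈ Q := hpe.boundary hc'T hc hyadj
          have := hyQ y h1
          rw [SimpleGraph.dist_self] at this
          omega
        refine ih y hyT ?_ hyQ ⟨q, hq, hyq q hq hq1, hq2, hq3⟩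
        intro w hw1 hw2
        have hdw := hc'b w hw1 hw2
        by_cases hwT : w ∈ T
        · -- P0
          obtain ⟨q₃, hq₃, hq₃d⟩ := hpass w e' hwT (hTU e' hUe')
          obtain ⟨q₄, hq₄, hq₄d⟩ := hpass c' e hc'T (hTU e hUe)
          have g1 := hfar w
          have g2 : G.dist e e' ≤ G.dist e q₁ + G.dist q₁ e' := hG.dist_triangle
          have g3 : G.dist q₁ e' ≤ G.dist q₁ q₂ + G.dist q₂ e' := hG.dist_triangle
          have g4 := hQd q₁ hq₁ q₂ hq₂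
          have g5 : G.dist e' q₂ ≤ G.dist e' q₃ := hq₂m q₃ hq₃
          rw [SimpleGraph.dist_comm (u := e'), SimpleGraph.dist_comm (u := e')] at g5
          have g6 : G.dist e q₁ ≤ G.dist e q₄ := hq₁m q₄ hq₄
          rw [SimpleGraph.dist_comm (u := e) (v := q₄)] at g6
          have g7 := hc'b e hel hej
          have g8 := hmin q₄ hq₄
          have g9 : G.dist w q ≤ G.dist w q₃ + G.dist q₃ q := hG.dist_triangle
          have g10 := hQd q₃ hq₃ q hq
          have g11 := hyq q hq hq1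
          have h1 : G.dist c' y + G.dist y q = G.dist c' q := by omega
          have h2 : G.dist w c' = G.dist c' w := SimpleGraph.dist_comm
          have h3 : G.dist w y = G.dist y w := SimpleGraph.dist_comm
          rcases h0 _ G hG hR c' q w y h1 with h4 | h4
          · omega
          · omega
        · obtain ⟨q₅, hq₅, hq₅d⟩ := hpass c' w hc'T hwT
          have h1 : G.dist y w ≤ G.dist y q₅ + G.dist q₅ w := hG.dist_triangle
          have h2 := hmin q₅ hq₅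
          rcases eq_or_lt_of_le h2 with h3 | h3
          · have := hyq q₅ hq₅ h3.symm
            omega
          · have h4 : G.dist y q₅ ≤ G.dist y q + G.dist q q₅ := hG.dist_triangle
            have h5 := hQd q hq q₅ hq₅
            have h6 := hyq q hq hq1
            omega
    obtain ⟨q₆, hq₆, hq₆d⟩ := hpass c e hcT (hTU e hUe)
    have h1 := (hball e).2 ⟨hel, hej⟩
    have h2 : G.dist c q₀ ≤ G.dist c q₆ := hq₀m q₆ hq₆
    have h3 := (hball q₀).1 (by omega)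
    refine key (G.dist c q₀ - 1) c hcT (fun w h1 h2 => (hball w).2 ⟨h1, h2⟩) ?_
      ⟨q₀, hq₀, by omega, h3.1, h3.2⟩
    intro q hq
    have h4 : G.dist c q₀ ≤ G.dist c q := hq₀m q hq
    omega
  rcases Nat.eq_zero_or_pos l with hl0 | hl0
  · -- l = 0
    refine END u v (hg.u0 u hs.hu) hs.uv (by omega) (by rw [hs.hu]; have := hb.lt; omega) ?_
    intro w
    rw [SimpleGraph.dist_comm]
    exact hs.mutd.2 w
  rcases hb.uj with hjn | ⟨hj, hUJ⟩
  · refine END v u hs.uv (hg.u0 u hs.hu) (hs.max L hUL) (by rw [hjn]; exact v.2) ?_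
    intro w
    rw [SimpleGraph.dist_comm, SimpleGraph.dist_comm (u := v)]
    exact hs.mutd.1 w
  · -- a middle ball
    have hlj := hb.lt
    obtain ⟨y₀, hy1, hy2⟩ := hg.ex L hl0
    have hy1' : (y₀ : ℕ) < l := hy1
    set J : Fin n := ⟨j, hj⟩ with hJdef
    have hJv : (J : ℕ) = j := rfl
    obtain ⟨s, hs1, hs2, hs3⟩ := hg.col L J hUL hlj
    have hs1' : l ≤ (s : ℕ) := hs1
    have hs2' : (s : ℕ) < j := hs2
    have hUs : U s := hg.uE J s hUJ hs3 hs2
    obtain ⟨b₁, hb₁, hb₁y⟩ := hC.cover.cov y₀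
    obtain ⟨b₂, hb₂, hb₂J⟩ := hC.cover.cov J
    have hLin : G.dist c L ≤ r := (hball L).2 ⟨le_rfl, hlj⟩
    have hsin : G.dist c s ≤ r := (hball s).2 ⟨hs1', hs2'⟩
    have hyout : ¬ G.dist c y₀ ≤ r := fun h => by
      have := (hball y₀).1 h
      omega
    have hJout : ¬ G.dist c J ≤ r := fun h => by
      have := (hball J).1 h
      omega
    have hne1 : (c, r) ≠ b₁ := by
      rintro rfl
      exact hyout hb₁y
    have hne2 : (c, r) ≠ b₂ := by
      rintro rfl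
      exact hJout hb₂J
    have hdis : ∀ w, InB G b₁ w → ¬ (l ≤ (w : ℕ) ∧ (w : ℕ) < j) := by
      intro w hw hw2
      exact hD _ G C hG hC (c, r) hb.mem b₁ hb₁ hne1 w ((hball w).2 hw2) hw
    have hne3 : b₁ ≠ b₂ := by
      intro he
      have hJ1 : InB G b₁ J := he ▸ hb₂J
      have hJ1' : G.dist b₁.1 J ≤ b₁.2 := hJ1
      have hy1'' : G.dist b₁.1 y₀ ≤ b₁.2 := hb₁y
      by_cases hc1 : (b₁.1 : ℕ) < l
      · obtain ⟨p, q, hp, hq, hpq, h1, h2⟩ := geo2 hG {w : Fin n | (w : ℕ) < l} _ b₁.1 J rfl hc1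
          (by
            change ¬ ((J : ℕ) < l)
            omega)
        have hp' : (p : ℕ) < l := hp
        have hq' : ¬ (q : ℕ) < l := hq
        have hqb : G.dist b₁.1 q ≤ b₁.2 := by omega
        have h3 := hdis q hqb
        exact hb.sep p q hp' (by omega) hpq
      · obtain ⟨p, q, hp, hq, hpq, h1, h2⟩ := geo2 hG {w : Fin n | l ≤ (w : ℕ)} _ b₁.1 y₀ rfl
          (not_lt.1 hc1)
          (by
            change ¬ (l ≤ (y₀ : ℕ))
            omega)
        have hp' : l ≤ (p : ℕ) := hp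
        have hq' : ¬ l ≤ (q : ℕ) := hq
        have hpb : G.dist b₁.1 p ≤ b₁.2 := by omega
        have h3 := hdis p hpb
        exact hb.sep q p (by omega) (by omega) hpq.symm
    have hPc := hP _ G C hG hR hC (c, r) hb.mem b₁ hb₁ b₂ hb₂ hne1 hne2 hne3 L s y₀ J hLin hsin
      hb₁y hb₂J hy2.symm hs3
    change 2 * r ≤ G.dist L s + 1 at hPc
    obtain ⟨q₁, hq₁, hq₁d⟩ := hpass c L hcT (hTU L hUL)
    obtain ⟨q₂, hq₂, hq₂d⟩ := hpass c s hcT (hTU s hUs)
    have g1 : G.dist c q₀ ≤ G.dist c q₁ := hq₀m q₁ hq₁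
    have g2 : G.dist c q₀ ≤ G.dist c q₂ := hq₀m q₂ hq₂
    have g3 : G.dist L s ≤ G.dist L q₁ + G.dist q₁ s := hG.dist_triangle
    have g4 : G.dist q₁ s ≤ G.dist q₁ q₂ + G.dist q₂ s := hG.dist_triangle
    have g5 := hQd q₁ hq₁ q₂ hq₂
    rw [SimpleGraph.dist_comm (u := L) (v := q₁)] at g3
    have hx : G.dist c q₀ = 1 := by omega
    have hq₀in := (hball q₀).1 (by omega)
    exact ⟨c, hcin.1, hcin.2, fun w h1 h2 => (hball w).2 ⟨h1, h2⟩,
      Or.inr ⟨q₀, hQU q₀ hq₀, hq₀in.1, hq₀in.2, SimpleGraph.dist_eq_one_iff_adj.1 hx⟩⟩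

end Pool.Agent.BDC
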