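import Pool.Agent.BDC.Targets

/-! # BDC: the balls of a minimal cover form a chain of intervals -/

set_option autoImplicit false

namespace Pool.Agent.BDC

namespace CHAIN_

/-- a walk which leaves a set has an edge leaving it -/
lemma exit {V : Type} {G : SimpleGraph V} {S : Set V} {a c : V} (h : Cn G S a c) (T : Set V)
    (ha : a ∈ T) (hc : c ∉ T) : ∃ p q, p ∈ T ∧ q ∉ T ∧ G.Adj p q ∧ p ∈ S ∧ q ∈ S := by
  obtain ⟨h1, h2⟩ := h
  induction h2 with
  | refl => exact absurd ha hc
  | @tail b c h3 h4 ih =>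
    by_cases hb : b ∈ T
    · exact ⟨b, c, hb, hc, h4.1, Cn.right ⟨h1, h3⟩, h4.2⟩
    · exact ih hb

/-- a geodesic which leaves `T` -/
lemma geo {V : Type} {G : SimpleGraph V} (hG : G.Connected) (T : Set V) :
    ∀ (k : ℕ) (a t : V), G.dist a t = k → a ∈ T → t ∉ T →
      ∃ p q, p ∈ T ∧ q ∉ T ∧ G.Adj p q ∧ G.dist a q + G.dist q t = G.dist a t := by
  intro k
  induction k with
  | zero =>
    intro a t hk ha ht
    have : a = t := by
      by_contra hne
      have := dist_pos_of_ne hG hne
      omega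
    subst this
    exact absurd ha ht
  | succ k ih =>
    intro a t hk ha ht
    have hne : a ≠ t := by
      rintro rfl
      exact ht ha
    obtain ⟨a', h1, h2⟩ := dist_step hG hne
    have h3 : G.dist a a' = 1 := SimpleGraph.dist_eq_one_iff_adj.2 h1
    by_cases ha' : a' ∈ T
    · obtain ⟨p, q, hp, hq, hpq, h4⟩ := ih a' t (by omega) ha' ht
      refine ⟨p, q, hp, hq, hpq, ?_⟩
      have h5 : G.dist a q ≤ G.dist a a' + G.dist a' q := hG.dist_triangle
      have h6 : G.dist a t ≤ G.dist a q + G.dist q t := hG.dist_triangle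
      omega
    · exact ⟨a, a', ha, ha', h1, by omega⟩

section

variable {n : ℕ} {G : SimpleGraph (Fin n)} {U : Fin n → Prop}

lemma peo (h : Good G U) : PEO G.Adj (fun w : Fin n => (w : ℕ)) where
  sym := fun _ _ h1 => h1.symm
  inj := Fin.val_injective
  clq := fun w y z h1 h2 h3 h4 h5 => h.clq w y z h1 h2 h3 h4 h5

lemma desc (h : Good G U) {x : Fin n} (hx : U x) : ∀ (k : ℕ) (w : Fin n), (w : ℕ) = k → x ≤ w →
    Anc G.Adj (fun w : Fin n => (w : ℕ)) x w := by
  intro k
  induction k using Nat.strong_induction_on with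
  | _ k ih =>
    intro w hk hw
    rcases eq_or_lt_of_le hw with rfl | hlt
    · exact Anc.refl
    · obtain ⟨y, h1, h2, h3⟩ := h.col x w hx hlt
      exact Anc.step ⟨h3, h2⟩ (ih y (by rw [← hk]; exact h2) y rfl h1)

lemma cnT (h : Good G U) {x : Fin n} (hx : U x) : ∀ (k : ℕ) (w : Fin n), (w : ℕ) = k → x ≤ w →
    Cn G {w | x ≤ w} x w := by
  intro k
  induction k using Nat.strong_induction_on with
  | _ k ih =>
    intro w hk hw
    rcases eq_or_lt_of_le hw with rfl | hlt
    · exact Cn.refl (le_refl x)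
    · obtain ⟨y, h1, h2, h3⟩ := h.col x w hx hlt
      exact (ih y (by rw [← hk]; exact h2) y rfl h1).trans (Cn.adj h1 hw h3)

lemma uAnc (h : Good G U) {x w : Fin n} (hx : Anc G.Adj (fun w : Fin n => (w : ℕ)) x w)
    (hw : U w) : U x := by
  induction hx with
  | refl => exact hw
  | step h1 _ ih => exact ih (h.uE _ _ hw h1.1 h1.2)

/-- the earlier neighbours of the first vertex of a branch -/
lemma bdry (h : Good G U) {z p q : Fin n} (hz : U z) (hp : z ≤ p) (hq : q < z)
    (hpq : G.Adj p q) : G.Adj q z := by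
  have h1 := desc h hz _ p rfl hp
  have h2 : ¬ Anc G.Adj (fun w : Fin n => (w : ℕ)) z q := by
    intro h3
    have := h3.le
    exact absurd hq (not_lt.2 this)
  exact ((peo h).boundary h1 h2 hpq).1

end

/-- the invariant -/
structure Inv {n : ℕ} (G : SimpleGraph (Fin n)) (U : Fin n → Prop) (C : Finset (Fin n × ℕ))
    (l : ℕ) (D : Finset (Fin n × ℕ)) : Prop where
  le : l ≤ n
  ul : l = n ∨ ∃ h : l < n, U ⟨l, h⟩
  sub : D ⊆ C
  cov : ∀ w : Fin n, (w : ℕ) < l ↔ ∃ b ∈ D, InB G b w
  chain : Chain (fun l j r => ∃ b, b.2 = r ∧ BPiece G U C b l j) l (cost D)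
  last : l = 0 ∨ ∃ b ∈ D, ∀ x y : Fin n, (x : ℕ) < l → ¬ InB G b x → l ≤ (y : ℕ) → ¬ G.Adj x y

lemma next (hD : T_DISJ) (hU : T_UNIQ) (hTw : T_TWO) (hi : T_A1i) (hii : T_A1ii)
    (h2 : T_A2) (hP : T_P1C) (hL : T_L3)
    {n : ℕ} {G : SimpleGraph (Fin n)} {U : Fin n → Prop} {u v : Fin n} (hs : Setting G U u v)
    {C : Finset (Fin n × ℕ)} (hC : MinCover G C) {l : ℕ} {D : Finset (Fin n × ℕ)}
    (hI : Inv G U C l D) (hln : l < n) : ∃ j, l < j ∧ ∃ D', Inv G U C j D' := by
  classical
  have hG := hs.conn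
  have hR := hs.rpo
  have hg := hs.good
  have hUL : U ⟨l, hln⟩ := by
    rcases hI.ul with h | ⟨_, h⟩
    · omega
    · exact h
  set L : Fin n := ⟨l, hln⟩ with hLdef
  have hLv : (L : ℕ) = l := rfl
  obtain ⟨b', hb'C, hb'L⟩ := hC.cover.cov L
  have hb'pos := hC.cover.pos b' hb'C
  -- balls outside `D` lie above `l`
  have F2 : ∀ b'' ∈ C, b'' ∉ D → ∀ w, InB G b'' w → l ≤ (w : ℕ) := by
    intro b'' hb''C hb''D w hw
    by_contra hlt
    obtain ⟨d, hd, hdw⟩ := (hI.cov w).1 (not_le.1 hlt)
    by_cases he : b'' = d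
    · exact hb''D (he ▸ hd)
    · exact hD _ G C hG hC b'' hb''C d (hI.sub hd) he w hw hdw
  have F1 : ∀ b'' w, InB G b'' w → l ≤ (w : ℕ) → b'' ∉ D := by
    intro b'' w hw hlw hb''
    have := (hI.cov w).2 ⟨b'', hb'', hw⟩
    omega
  have hb'D : b' ∉ D := F1 b' L hb'L le_rfl
  have F3 : ∀ w, InB G b' w → l ≤ (w : ℕ) := F2 b' hb'C hb'D
  -- vertices above `l` with a neighbour below `l` lie in `b'`
  have X : ∀ p q : Fin n, l ≤ (p : ℕ) → (q : ℕ) < l → G.Adj p q → InB G b' p := by
    intro p q hp hq hpq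
    rcases hI.last with h0 | ⟨b, hb, hsep⟩
    · omega
    obtain ⟨b'', hb''C, hb''p⟩ := hC.cover.cov p
    have hb''D : b'' ∉ D := F1 b'' p hb''p hp
    have hbq : InB G b q := by
      by_contra hc
      exact hsep q p hq hc hp hpq.symm
    obtain ⟨y, hy1, hy2⟩ := hg.ex L (by rw [hLv]; omega)
    have hby : InB G b y := by
      by_contra hc
      exact hsep y L hy1 hc le_rfl hy2
    have hne1 : b ≠ b' := fun e => hb'D (e ▸ hb)
    have hne2 : b ≠ b'' := fun e => hb''D (e ▸ hb)
    have hcn : Cn G {w | ¬ InB G b w} L p := by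
      refine Cn.mono ?_ (cnT hg hUL _ p rfl hp)
      intro w hw hbw
      exact F1 b w hbw hw hb
    have := hU _ G C hG hR hC b (hI.sub hb) b' hb'C b'' hb''C hne1 hne2 ⟨y, L, hby, hb'L, hy2⟩
      ⟨q, p, hbq, hb''p, hpq.symm⟩ L p hb'L hb''p hcn
    rw [this]
    exact hb''p
  have hLv' : l ≤ (v : ℕ) := hs.max L hUL
  have hl0 : 0 < l → ∃ y : Fin n, (y : ℕ) < l ∧ G.Adj y L := by
    intro h0
    obtain ⟨y, hy1, hy2⟩ := hg.ex L h0
    exact ⟨y, hy1, hy2⟩
  by_cases hv : InB G b' v
  · -- the last ball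
    have hall : ∀ w : Fin n, l ≤ (w : ℕ) → InB G b' w := by
      intro w hw
      rcases Nat.eq_zero_or_pos l with h0 | h0
      · have hLu : L = u := Fin.ext (by rw [hs.hu, hLv, h0])
        have hCb := hi _ G C hG hR hC u v hs.mutd b' hb'C (hLu ▸ hb'L) hv
        obtain ⟨d, hd, hdw⟩ := hC.cover.cov w
        rw [hCb, Finset.mem_singleton] at hd
        rw [← hd]
        exact hdw
      · obtain ⟨y, hy1, hy2⟩ := hl0 h0
        by_contra hc
        have hyb : ¬ InB G b' y := fun h => by
          have := F3 y h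
          omega
        have hmut : Mut G v u := by
          refine ⟨fun w => ?_, fun w => ?_⟩
          · rw [SimpleGraph.dist_comm (u := v) (v := u)]
            exact hs.mutd.2 w
          · rw [SimpleGraph.dist_comm (u := v) (v := u)]
            exact hs.mutd.1 w
        have hcn := hii _ G C hG hR hC v u hmut b' hb'C hv w y hc hyb
        obtain ⟨p, q, hp, hq, hpq, hpS, _⟩ := exit hcn {w : Fin n | l ≤ (w : ℕ)} hw
          (by
            change ¬ (l ≤ (y : ℕ))
            omega)
        exact hpS (X p q hp (not_le.1 hq) hpq)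
    refine ⟨n, hln, insert b' D, ?_⟩
    have hbp : BPiece G U C b' l n :=
      { mem := hb'C
        lt := hln
        le := le_rfl
        ball := fun w => ⟨fun h => ⟨F3 w h, w.2⟩, fun h => hall w h.1⟩
        ul := ⟨hln, hUL⟩
        uj := Or.inl rfl
        sep := fun x y _ hy => absurd y.2 (not_lt.2 hy) }
    refine ⟨le_rfl, Or.inl rfl, ?_, ?_, ?_, Or.inr ⟨b', Finset.mem_insert_self _ _, ?_⟩⟩
    · exact Finset.insert_subset hb'C hI.sub
    · intro w
      refine ⟨fun _ => ?_, fun _ => w.2⟩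
      by_cases hw : (w : ℕ) < l
      · obtain ⟨d, hd, hdw⟩ := (hI.cov w).1 hw
        exact ⟨d, Finset.mem_insert_of_mem hd, hdw⟩
      · exact ⟨b', Finset.mem_insert_self _ _, hall w (not_lt.1 hw)⟩
    · have : cost (insert b' D) = cost D + b'.2 := by
        unfold cost
        rw [Finset.sum_insert hb'D, add_comm]
      rw [this]
      exact Chain.cons hI.chain ⟨b', rfl, hbp⟩
    · intro x y _ _ hy
      exact absurd y.2 (not_lt.2 hy)
  · -- the component of `v`
    let K : Fin n → Prop := fun w => Cn G {w | ¬ InB G b' w} v w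
    have hKv : K v := Cn.refl hv
    have hKnb : ∀ w, K w → ¬ InB G b' w := fun w hw => hw.right
    have hKcl : ∀ w w', K w → G.Adj w w' → ¬ InB G b' w' → K w' := fun w w' hw h hn =>
      hw.trans (Cn.adj hw.right hn h)
    have hKl : ∀ w, K w → l < (w : ℕ) := by
      intro w hw
      have h1 : l ≤ (w : ℕ) := by
        by_contra hc
        obtain ⟨p, q, hp, hq, hpq, hpS, _⟩ := exit hw {w : Fin n | l ≤ (w : ℕ)} hLv' hc
        exact hpS (X p q hp (not_le.1 hq) hpq)
      rcases eq_or_lt_of_le h1 with h3 | h3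
      · exfalso
        have : w = L := Fin.ext h3.symm
        exact hKnb w hw (this ▸ hb'L)
      · exact h3
    obtain ⟨z, hzK, hzmin⟩ : ∃ z, K z ∧ ∀ w, K w → z ≤ w := by
      obtain ⟨z, hz⟩ := (Set.toFinite {w | K w}).exists_minimal ⟨v, hKv⟩
      refine ⟨z, hz.1, fun w hw => ?_⟩
      rcases le_total z w with h | h
      · exact h
      · exact hz.2 hw h
    have hzl : l < (z : ℕ) := hKl z hzK
    have hzv : Anc G.Adj (fun w : Fin n => (w : ℕ)) z v := by
      refine anc_of_cn (S := {w | ¬ InB G b' w}) (peo hg) ?_ hzK.symm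
      intro y hy
      exact hzmin y (hzK.trans hy)
    have hUz : U z := uAnc hg hzv hs.uv
    have hEz : ∀ y, y < z → G.Adj y z → InB G b' y := by
      intro y hy hyz
      by_contra hc
      exact absurd hy (not_lt.2 (hzmin y (hKcl z y hzK hyz.symm hc)))
    -- vertices of the ball with a neighbour in `K`
    have hset : {w : Fin n | b'.2 < G.dist b'.1 w} = {w | ¬ InB G b' w} := by
      ext w
      exact (not_le (a := G.dist b'.1 w) (b := b'.2)).symm
    have hSd : ∀ s k, InB G b' s → K k → G.Adj s k → G.dist b'.1 s = b'.2 := by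
      intro s k hs1 hk hsk
      have h1 : Cn G {w : Fin n | b'.2 < G.dist b'.1 w} v k := by
        rw [hset]
        exact hk
      exact (hL _ G hG hR b'.1 b'.2 v s s k k h1 h1 hs1 hs1 hsk hsk).1
    -- (ii)
    have hT : ∀ w, z ≤ w → K w := by
      intro w hw
      by_contra hwK
      obtain ⟨k, s, hk, hsK, hks, _, hsz⟩ := exit (cnT hg hUz _ w rfl hw) {w | K w} hzK hwK
      have hsb : InB G b' s := by
        by_contra hc
        exact hsK (hKcl k s hk hks hc)
      have hds := hSd s k hsb hk hks.symm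
      have hc' : z ≤ b'.1 := by
        by_contra hc
        obtain ⟨p, q, hp, hq, hpq, hd⟩ := geo hG {w : Fin n | z ≤ w} _ s b'.1 rfl hsz hc
        have hq' : q < z := not_le.1 hq
        have h3 := bdry hg hUz hp hq' hpq
        have h4 := hSd q z (hEz q hq' h3) hzK h3
        rw [SimpleGraph.dist_comm (u := q), SimpleGraph.dist_comm (u := s) (v := b'.1)] at hd
        have h5 : G.dist s q = 0 := by omega
        have h6 : s = q := by
          by_contra hne
          have := dist_pos_of_ne hG hne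
          omega
        exact hq (h6 ▸ hsz)
      have hLz : G.Adj L z := by
        obtain ⟨p, q, hp, hq, hpq, hd⟩ := geo hG {w : Fin n | z ≤ w} _ b'.1 L rfl hc'
          (by
            change ¬ (z ≤ L)
            exact not_le.2 hzl)
        have hq' : q < z := not_le.1 hq
        have h3 := bdry hg hUz hp hq' hpq
        have h4 := hSd q z (hEz q hq' h3) hzK h3
        have h7 : G.dist b'.1 L ≤ b'.2 := hb'L
        have h5 : G.dist q L = 0 := by omega
        have h6 : q = L := by
          by_contra hne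
          have := dist_pos_of_ne hG hne
          omega
        rw [← h6]
        exact h3
      rcases Nat.eq_zero_or_pos l with h0 | h0
      · have hLu : L = u := Fin.ext (by rw [hs.hu, hLv, h0])
        exact h2 _ G C hG hR hC u v hs.mutd b' hb'C (hLu ▸ hb'L) z (hKnb z hzK) (hLu ▸ hLz)
      · rcases hI.last with h00 | ⟨b, hb, hsep⟩
        · omega
        obtain ⟨y, hy1, hy2⟩ := hl0 h0
        have hby : InB G b y := by
          by_contra hc
          exact hsep y L hy1 hc le_rfl hy2
        obtain ⟨b'', hb''C, hb''z⟩ := hC.cover.cov z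
        have hb''D : b'' ∉ D := F1 b'' z hb''z hzl.le
        have hne1 : b' ≠ b := fun e => hb'D (e ▸ hb)
        have hne2 : b' ≠ b'' := fun e => hKnb z hzK (e ▸ hb''z)
        have hne3 : b ≠ b'' := fun e => hb''D (e ▸ hb)
        have := hP _ G C hG hR hC b' hb'C b (hI.sub hb) b'' hb''C hne1 hne2 hne3 L L y z hb'L hb'L
          hby hb''z hy2.symm hLz
        rw [SimpleGraph.dist_self] at this
        omega
    -- (iii)
    have hball : ∀ w : Fin n, InB G b' w ↔ l ≤ (w : ℕ) ∧ (w : ℕ) < (z : ℕ) := by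
      intro w
      constructor
      · intro hw
        refine ⟨F3 w hw, ?_⟩
        by_contra hc
        exact hKnb w (hT w (not_lt.1 hc)) hw
      · rintro ⟨hw1, hw2⟩
        by_contra hc
        rcases Nat.eq_zero_or_pos l with h0 | h0
        · have hLu : L = u := Fin.ext (by rw [hs.hu, hLv, h0])
          have := hii _ G C hG hR hC u v hs.mutd b' hb'C (hLu ▸ hb'L) v w hv hc
          exact absurd hw2 (not_lt.2 (hzmin w this))
        · obtain ⟨y, hy1, hy2⟩ := hl0 h0
          have hyb : ¬ InB G b' y := fun h => by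
            have := F3 y h
            omega
          rcases hTw _ G C hG hR hC b' hb'C v w y hv hc hyb with h3 | h3 | h3
          · exact absurd hw2 (not_lt.2 (hzmin w h3))
          · have := hKl y h3
            omega
          · obtain ⟨p, q, hp, hq, hpq, hpS, _⟩ := exit h3 {w : Fin n | l ≤ (w : ℕ)} hw1
              (by
                change ¬ (l ≤ (y : ℕ))
                omega)
            exact hpS (X p q hp (not_le.1 hq) hpq)
    have hsepz : ∀ x y : Fin n, (x : ℕ) < l → (z : ℕ) ≤ (y : ℕ) → ¬ G.Adj x y := by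
      intro x y hx hy hxy
      exact hKnb y (hT y hy) (X y x (by omega) hx hxy.symm)
    refine ⟨z, hzl, insert b' D, ?_⟩
    have hbp : BPiece G U C b' l z :=
      { mem := hb'C
        lt := hzl
        le := z.2.le
        ball := hball
        ul := ⟨hln, hUL⟩
        uj := Or.inr ⟨z.2, hUz⟩
        sep := hsepz }
    refine ⟨z.2.le, Or.inr ⟨z.2, hUz⟩, ?_, ?_, ?_, Or.inr ⟨b', Finset.mem_insert_self _ _, ?_⟩⟩
    · exact Finset.insert_subset hb'C hI.sub
    · intro w
      constructor
      · intro hw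
        by_cases hw' : (w : ℕ) < l
        · obtain ⟨d, hd, hdw⟩ := (hI.cov w).1 hw'
          exact ⟨d, Finset.mem_insert_of_mem hd, hdw⟩
        · exact ⟨b', Finset.mem_insert_self _ _, (hball w).2 ⟨not_lt.1 hw', hw⟩⟩
      · rintro ⟨d, hd, hdw⟩
        rcases Finset.mem_insert.1 hd with rfl | hd
        · exact ((hball w).1 hdw).2
        · have := (hI.cov w).2 ⟨d, hd, hdw⟩
          omega
    · have : cost (insert b' D) = cost D + b'.2 := by
        unfold cost
        rw [Finset.sum_insert hb'D, add_comm]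
      rw [this]
      exact Chain.cons hI.chain ⟨b', rfl, hbp⟩
    · intro x y hx hxb hy
      refine hsepz x y ?_ hy
      by_contra hc
      exact hxb ((hball x).2 ⟨not_lt.1 hc, hx⟩)

end CHAIN_

theorem p_CHAIN (hD : T_DISJ) (hU : T_UNIQ) (hTw : T_TWO) (hi : T_A1i) (hii : T_A1ii)
    (h2 : T_A2) (hP : T_P1C) (hL : T_L3) : T_CHAIN := by
  intro n hn G U u v hs C hC
  have h0 : CHAIN_.Inv G U C 0 ∅ := by
    refine ⟨Nat.zero_le _, Or.inr ⟨by omega, hs.good.u0 _ rfl⟩, Finset.empty_subset _, ?_, ?_,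
      Or.inl rfl⟩
    · intro w
      constructor
      · intro h
        exact absurd h (Nat.not_lt_zero _)
      · rintro ⟨b, hb, _⟩
        exact absurd hb (Finset.notMem_empty _)
    · exact Chain.nil
  have key : ∀ k l D, n - l = k → CHAIN_.Inv G U C l D → ∃ D', CHAIN_.Inv G U C n D' := by
    intro k
    induction k using Nat.strong_induction_on with
    | _ k ih =>
      intro l D hk hI
      rcases eq_or_lt_of_le hI.le with h | h
      · exact ⟨D, h ▸ hI⟩
      · obtain ⟨j, hj, D', hI'⟩ := CHAIN_.next hD hU hTw hi hii h2 hP hL hs hC hI h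
        have := hI'.le
        exact ih (n - j) (by omega) j D' rfl hI'
  obtain ⟨D, hI⟩ := key n 0 ∅ (by omega) h0
  have hDC : D = C := by
    apply Finset.Subset.antisymm hI.sub
    intro b hb
    obtain ⟨d, hd, hdb⟩ := (hI.cov b.1).1 b.1.2
    have hbb : InB G b b.1 := by
      change G.dist b.1 b.1 ≤ b.2
      rw [SimpleGraph.dist_self]
      exact Nat.zero_le _
    by_cases he : b = d
    · rw [he]
      exact hd
    · exact absurd (hD _ G C hs.conn hC b hb d (hI.sub hd) he b.1 hbb hdb) id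
  have := hI.chain
  rw [hDC, hC.cost_eq] at this
  exact this

end Pool.Agent.BDC
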