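import Pool.Agent.BDC.Targets

/-!
BDC-CL: the clique lemma and the boundary lemma (blueprint M4).
-/

namespace Pool.Agent.BDC

theorem p_CL : T_CL := by
  intro V _ G hG hR c k K hKne hK hd
  classical
  obtain ⟨num, h⟩ := hR c
  -- the latest vertex of `K`
  have hfin : K.Finite := Set.toFinite K
  obtain ⟨w, hwK, hw⟩ := hfin.exists_maximalFor num K hKne
  have hwmax : ∀ x ∈ K, num x ≤ num w := by
    intro x hx
    by_contra hc
    push Not at hc
    exact absurd (hw hx hc.le) (not_le.2 hc)
  have hwc : w ≠ c := by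
    rintro rfl
    have := hd w hwK
    simp at this
  obtain ⟨y, hy⟩ := exists_isFst (h.ex w hwc)
  have hyd := h.dist_fst hG hy
  have hdw := hd w hwK
  refine ⟨y, by omega, fun x hx => ?_⟩
  by_cases hxw : x = w
  · rw [hxw]; exact hy.1.1
  · have hadj : G.Adj x w := hK x hx w hwK hxw
    have hlt : num x < num w :=
      lt_of_le_of_ne (hwmax x hx) (fun e => hxw (h.peo.inj e))
    have hne : y ≠ x := by
      rintro rfl
      have := hd y hx
      omega
    exact h.peo.clq w y x hy.1.1 hadj hy.1.2 hlt hne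

theorem p_L3 : T_L3 := by
  intro V _ G hG hR c r x y y' w w' hw hw' hy hy' hyw hyw'
  classical
  obtain ⟨num, h⟩ := hR c
  -- the first vertex of the component
  have hne : ({v | Cn G {v | r < G.dist c v} x v} : Set V).Nonempty := ⟨w, hw⟩
  obtain ⟨z, hz, hzmin⟩ := (Set.toFinite _).exists_minimalFor num
    ({v | Cn G {v | r < G.dist c v} x v} : Set V) hne
  have hz' : Cn G {v | r < G.dist c v} x z := hz
  have hzle : ∀ v, Cn G {v | r < G.dist c v} z v → num z ≤ num v := by
    intro v hv
    by_contra hc
    push Not at hc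
    exact absurd (hzmin (hz'.trans hv) hc.le) (not_le.2 hc)
  have hrz : r < G.dist c z := hz'.right
  have key : ∀ y w, Cn G {v | r < G.dist c v} x w → G.dist c y ≤ r → G.Adj y w →
      Er G.Adj num y z ∧ G.dist c y = r := by
    intro y w hw hy hyw
    have hzw : Anc G.Adj num z w := anc_of_cn h.peo hzle (hz'.symm.trans hw)
    have hrw : r < G.dist c w := hw.right
    have hnum : num y ≠ num w := fun e => hyw.ne (h.peo.inj e)
    have hlt : num y < num w := by
      rcases lt_or_gt_of_ne hnum with h1 | h1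
      · exact h1
      · exfalso
        have := h.mono hG _ rfl (⟨hyw.symm, h1⟩ : Er G.Adj num w y)
        omega
    have hyw' : Er G.Adj num y w := ⟨hyw, hlt⟩
    refine ⟨?_, ?_⟩
    · apply h.peo.LA hzw hyw'
      by_contra hc
      push Not at hc
      have := h.anc_mono hG (h.peo.chain' hzw hyw'.anc hc)
      omega
    · have := dist_adj_le hG hyw.symm c
      rw [SimpleGraph.dist_comm, SimpleGraph.dist_comm (u := y)] at this
      omega
  obtain ⟨h1, h2⟩ := key y w hw hy hyw
  obtain ⟨h3, h4⟩ := key y' w' hw' hy' hyw'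
  refine ⟨h2, ?_⟩
  by_cases he : y = y'
  · exact Or.inl he
  · exact Or.inr (h.peo.clq z y y' h1.1 h3.1 h1.2 h3.2 he)

end Pool.Agent.BDC
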