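import Pool.Agent.BDC.CC

/-!
# BDC: the compiler theorem
-/

set_option autoImplicit false

namespace Pool.Agent.BDC

namespace COMP_

open CE_ CC_

/-- the first instructions -/
def pro (K : ℕ) : List Instr := [
    .const 5 2, .add 5 5 0, .add 5 5 5, .add 1 5 5,
    .mul 2 0 0,
    .const 5 1, .add 3 1 5,
    .const 4 K]

/-- the last instructions -/
def epi (out : ℕ) : List Instr := [.const 5 out, .add 5 5 2, .load 0 5]

lemma compP_eq (K out : ℕ) (c : Cm) :
    compP K out c = pro K ++ (compC 5 8 c ++ (epi out ++ [.halt])) := by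
  simp [compP, pro, epi]

lemma init_bnd {K n : ℕ} {A : ℕ → ℕ → ℕ} (hA : ∀ i j, A i j ≤ 1) : Bnd K n (initCfg n A) := by
  intro x
  constructor
  · change (if x = 0 then n else 0) ≤ _
    split_ifs
    · exact small_le (by have := n_le_cap (n := n); omega)
    · exact Nat.zero_le _
  · change (if x < n * n then A (x / n) (x % n) else 0) ≤ _
    split_ifs
    · exact (hA _ _).trans (small_le (by omega))
    · exact Nat.zero_le _

lemma K_le {K n : ℕ} : K ≤ bnd K n := by
  unfold bnd
  nlinarith [Nat.zero_le (cap n), Nat.zero_le K, Nat.zero_le (K * (cap n + 2) * (cap n + 2)),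
    Nat.zero_le (K * cap n), Nat.zero_le (K * cap n * cap n)]

lemma pro_sln {K n : ℕ} {A : ℕ → ℕ → ℕ} (hA : ∀ i j, A i j ≤ 1) :
    SLn K n (pro K) (initCfg n A) 1 := by
  have hb := init_bnd (K := K) (n := n) hA
  have hcap : cap n = 4 * (n + 2) := rfl
  have hs : ∀ x, x ≤ 2 * cap n + 2 → x ≤ bnd K n := fun x => small_le
  refine cons_const (by omega) hb (hs _ (by omega)) fun b1 => cons_add (by omega) b1 ?_ fun b2 =>
    cons_add (by omega) b2 ?_ fun b3 => cons_add (by omega) b3 ?_ fun b4 =>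
    cons_mul (by omega) b4 ?_ fun b5 => cons_const (by omega) b5 (hs _ (by omega)) fun b6 =>
    cons_add (by omega) b6 ?_ fun b7 => cons_const (by omega) b7 K_le fun b8 => SLn.nil _ b8
  · simp [exec, initCfg]
    exact hs _ (by omega)
  · simp [exec, initCfg]
    exact hs _ (by omega)
  · simp [exec, initCfg]
    exact hs _ (by omega)
  · simp [exec, initCfg]
    exact bnd_mul_le n_le_cap (by have := n_le_cap (n := n); omega)
  · simp [exec, initCfg]
    exact hs _ (by omega)

lemma pro_repr {K n : ℕ} {A : ℕ → ℕ → ℕ} (hn : 1 ≤ n) (hA : ∀ i j, A i j ≤ 1) :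
    Repr K n A zst (exl (pro K) (initCfg n A)) where
  r0 := by
    simp [pro, exl, exec, initCfg]
  r1 := by
    simp [pro, exl, exec, initCfg, cap]
    omega
  r2 := by
    simp [pro, exl, exec, initCfg]
  r3 := by
    simp [pro, exl, exec, initCfg, cap]
    omega
  r4 := by
    simp [pro, exl, exec, initCfg]
  cell := by
    intro k i j _ _ _
    rw [(pro_sln hA).mem]
    change (if _ < n * n then _ else 0) = 0
    rw [if_neg (by omega)]
  inp := by
    intro i j hi hj
    rw [(pro_sln hA).mem]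
    change (if i * n + j < n * n then A ((i * n + j) / n) ((i * n + j) % n) else 0) = A i j
    rw [if_pos (inp_lt hi hj)]
    congr 1
    · rw [Nat.add_comm, Nat.add_mul_div_right _ _ (by omega), Nat.div_eq_of_lt hj, zero_add]
    · rw [Nat.add_comm, Nat.add_mul_mod_self_right, Nat.mod_eq_of_lt hj]
  bs := fun _ _ _ => Nat.zero_le _
  bA := hA
  bm := (pro_sln hA).bd1

lemma bnd_le {K n : ℕ} (hn : 1 ≤ n) : bnd K n ≤ 196 * (K + 3) * n ^ 2 := by
  have h1 : cap n + 2 ≤ 14 * n := by
    unfold cap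
    omega
  unfold bnd
  calc (K + 3) * (cap n + 2) * (cap n + 2) ≤ (K + 3) * (14 * n) * (14 * n) := by gcongr
    _ = 196 * (K + 3) * n ^ 2 := by ring

end COMP_

open CE_ CC_ COMP_ in
theorem p_COMP (h : T_CC) : T_COMP := by
  intro c out K hK hout hd
  obtain ⟨T, hT⟩ := h c K hK
  refine ⟨196 * (K + 3) + 9 * T + 11, ?_⟩
  intro n hn A hA
  have hP := compP_eq K out c
  set P := compP K out c with hPdef
  have hat : At P 0 (pro K ++ (compC 5 8 c ++ (epi out ++ [.halt]))) := by
    intro i _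
    rw [← hP, zero_add]
  set s0 := initCfg n A with hs0
  have h1 := pro_sln (K := K) (n := n) hA
  rw [← hs0] at h1
  have hr1 := pro_repr (K := K) hn hA
  rw [← hs0] at hr1
  have go1 := go_str h1 (P := P) hat.left
  set s1 := exl (pro K) s0 with hs1
  have hpc1 : s1.pc = 8 := h1.pc
  have hat2 : At P 8 (compC 5 8 c ++ (epi out ++ [.halt])) := hat.right
  obtain ⟨t2, ht2, hr2, hpc2, _, hb2⟩ := hT n A zst 5 8 P s1 hn le_rfl hr1 hpc1
    (fun i hi => hat2.left i hi)
  have go2 : Go K n P s1 t2 (runs P t2 s1) := ⟨rfl, hb2⟩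
  set s2 := runs P t2 s1 with hs2
  have hat3 := hat2.right
  have h3 : SLn K n (epi out) s2 0 := by
    refine cons_const (by omega) hr2.bm ?_ fun b1 => cons_add (by omega) b1 ?_ fun b2 =>
      cons_load (by omega) b2 fun b3 => SLn.nil _ b3
    · have h9 := addr_le (n := n) (Nat.zero_le (cap n)) (Nat.zero_le (cap n)) hout
      omega
    · have h9 := addr_le (n := n) (Nat.zero_le (cap n)) (Nat.zero_le (cap n)) hout
      simp [exec, hr2.r2]
      omega
  have go3 := go_str h3 (P := P) (by rw [hpc2]; exact hat3.left)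
  set s3 := exl (epi out) s2 with hs3
  have hreg : s3.reg 0 = run n A c zst out 0 0 := by
    have e1 := hr2.cell out 0 0 hout (Nat.zero_le _) (Nat.zero_le _)
    have e2 : s3.reg 0 = s2.mem (out + n * n) := by
      simp [hs3, epi, exl, exec, hr2.r2]
    rw [e2, ← e1]
    congr 1
    ring
  have hpc3 : s3.pc = 8 + (compC 5 8 c).length + (epi out).length := by
    rw [h3.pc, hpc2]
  have hhalt : P[s3.pc]? = some Instr.halt := by
    rw [hpc3]
    exact hat3.right.head
  have go := (go1.trans go2).trans go3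
  have hsq : 1 ≤ n ^ 2 := Nat.one_le_pow _ _ hn
  have hbn := bnd_le (K := K) hn
  have hB : bnd K n ≤ (196 * (K + 3) + 9 * T + 11) * n ^ 2 := by
    refine hbn.trans (Nat.mul_le_mul_right _ ?_)
    omega
  refine ⟨(pro K).length + t2 + (epi out).length, ?_, ?_, ?_, ?_⟩
  · have e1 : (n + 2) ^ ldepth c ≤ (n + 2) ^ 2 := Nat.pow_le_pow_right (by omega) hd
    have e2 : (n + 2) ^ 2 ≤ 9 * n ^ 2 := by nlinarith
    have e3 : t2 ≤ T * (9 * n ^ 2) := ht2.trans (Nat.mul_le_mul_left _ (e1.trans e2))
    change 8 + t2 + 3 ≤ _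
    nlinarith [Nat.zero_le (K * n ^ 2), Nat.zero_le (T * n ^ 2)]
  · rw [go.eq]
    exact Or.inr hhalt
  · rw [go.eq]
    exact hreg
  · intro t' ht' x
    have := go.bd t' ht' x
    exact ⟨this.1.trans hB, this.2.trans hB⟩

end Pool.Agent.BDC
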