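import Pool.Agent.BDC.Targets

/-!
# BDC: covers and the broadcast number; replacing balls
-/

namespace Pool.Agent.BDC

namespace COV

variable {V : Type} [Fintype V]

lemma dist_le_ecc (G : SimpleGraph V) (u v : V) : G.dist v u ≤ ecc G v := by
  unfold ecc
  exact Finset.le_sup (f := fun u => G.dist v u) (Finset.mem_univ u)

lemma one_le_ecc {G : SimpleGraph V} (hG : G.Connected) (hV : Nontrivial V) (v : V) :
    1 ≤ ecc G v := by
  obtain ⟨w, hw⟩ := exists_ne v
  have h1 := dist_pos_of_ne hG hw.symm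
  have h2 := dist_le_ecc G w v
  omega

/-- a cover gives a dominating broadcast -/
lemma cover_le {G : SimpleGraph V} (hG : G.Connected) (hV : Nontrivial V)
    {C : Finset (V × ℕ)} (hC : IsCover G C) : gammaB G ≤ cost C := by
  classical
  set g : V → ℕ := fun v => (C.filter fun b => b.1 = v).sup Prod.snd with hg
  set f : V → ℕ := fun v => min (ecc G v) (g v) with hf
  have hdom : IsDomBroadcast G f := by
    refine ⟨fun v => min_le_left _ _, fun u => ?_⟩
    obtain ⟨b, hb, hbu⟩ := hC.cov u
    have hbu' : G.dist b.1 u ≤ b.2 := hbu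
    have h1 : b.2 ≤ g b.1 := by
      rw [hg]
      exact Finset.le_sup (f := Prod.snd) (Finset.mem_filter.2 ⟨hb, rfl⟩)
    have h2 := hC.pos b hb
    have h3 := one_le_ecc hG hV b.1
    have h4 := dist_le_ecc G u b.1
    refine ⟨b.1, ?_, ?_⟩
    · exact le_min h3 (h2.trans h1)
    · rw [SimpleGraph.dist_comm]
      exact le_min h4 (hbu'.trans h1)
  have hsum : ∑ v, f v ≤ cost C := by
    have h1 : ∑ v, f v ≤ ∑ v, ∑ b ∈ C.filter (fun b => b.1 = v), b.2 := by
      refine Finset.sum_le_sum fun v _ => ?_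
      refine (min_le_right _ _).trans ?_
      rw [hg]
      refine Finset.sup_le fun b hb => ?_
      exact Finset.single_le_sum (f := fun b : V × ℕ => b.2) (fun _ _ => Nat.zero_le _) hb
    have h2 : ∑ v, ∑ b ∈ C.filter (fun b => b.1 = v), b.2 = cost C := by
      unfold cost
      exact Finset.sum_fiberwise C (fun b : V × ℕ => b.1) (fun b => b.2)
    omega
  refine le_trans ?_ hsum
  unfold gammaB
  exact Nat.sInf_le ⟨f, hdom, rfl⟩

/-- there is a cover whose cost is the broadcast number -/
lemma exists_cover {G : SimpleGraph V} (hG : G.Connected) (hV : Nontrivial V) :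
    ∃ C : Finset (V × ℕ), IsCover G C ∧ cost C = gammaB G := by
  classical
  have hne : {k | ∃ f : V → ℕ, IsDomBroadcast G f ∧ ∑ v, f v = k}.Nonempty := by
    refine ⟨_, ecc G, ⟨fun v => le_rfl, fun u => ⟨u, one_le_ecc hG hV u, ?_⟩⟩, rfl⟩
    simp
  obtain ⟨f, hf, hs⟩ := Nat.sInf_mem hne
  refine ⟨(Finset.univ.filter fun v => 1 ≤ f v).image fun v => (v, f v), ⟨?_, ?_⟩, ?_⟩
  · intro b hb
    rw [Finset.mem_image] at hb
    obtain ⟨v, hv, rfl⟩ := hb
    exact (Finset.mem_filter.1 hv).2
  · intro w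
    obtain ⟨v, hv1, hv2⟩ := hf.dom w
    refine ⟨(v, f v), Finset.mem_image.2 ⟨v, Finset.mem_filter.2 ⟨Finset.mem_univ _, hv1⟩, rfl⟩,
      ?_⟩
    show G.dist v w ≤ f v
    rw [SimpleGraph.dist_comm]
    exact hv2
  · unfold cost
    rw [Finset.sum_image (fun a _ b _ hab => congrArg Prod.fst hab)]
    have h1 : ∑ v ∈ Finset.univ.filter (fun v => 1 ≤ f v), f v = ∑ v, f v := by
      rw [Finset.sum_filter]
      refine Finset.sum_congr rfl fun v _ => ?_
      split_ifs with h
      · rfl
      · omega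
    show ∑ v ∈ Finset.univ.filter (fun v => 1 ≤ f v), f v = gammaB G
    rw [h1, hs]
    rfl

end COV

theorem p_COV : T_COV := by
  classical
  intro V _ G hG hV
  refine ⟨fun C hC => COV.cover_le hG hV hC, ?_⟩
  have hex : ∃ k, ∃ C : Finset (V × ℕ), IsCover G C ∧ cost C = gammaB G ∧ C.card = k := by
    obtain ⟨C, h1, h2⟩ := COV.exists_cover hG hV
    exact ⟨_, C, h1, h2, rfl⟩
  obtain ⟨C, h1, h2, h3⟩ := Nat.find_spec hex
  refine ⟨C, h1, h2, fun C' hC' hcost => ?_⟩
  have h4 := COV.cover_le hG hV hC'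
  rw [h3]
  exact Nat.find_min' hex ⟨C', hC', by omega, rfl⟩

theorem p_MERGE : T_MERGE := by
  classical
  intro V _ G C T m hC hT h2 hm
  have hTne : T.Nonempty := Finset.card_pos.1 (by omega)
  have hcostT : 1 ≤ cost T := by
    obtain ⟨b, hb⟩ := hTne
    have h1 := hC.cover.pos b (hT hb)
    have h3 : b.2 ≤ cost T :=
      Finset.single_le_sum (f := fun b : V × ℕ => b.2) (fun _ _ => Nat.zero_le _) hb
    omega
  have hcov : IsCover G (insert (m, cost T) (C \ T)) := by
    refine ⟨?_, ?_⟩
    · intro b hb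
      rw [Finset.mem_insert, Finset.mem_sdiff] at hb
      rcases hb with rfl | ⟨hb, _⟩
      · exact hcostT
      · exact hC.cover.pos b hb
    · intro w
      obtain ⟨b, hb, hw⟩ := hC.cover.cov w
      by_cases hbT : b ∈ T
      · exact ⟨(m, cost T), Finset.mem_insert_self _ _, hm b hbT w hw⟩
      · exact ⟨b, Finset.mem_insert_of_mem (Finset.mem_sdiff.2 ⟨hb, hbT⟩), hw⟩
  have hsplit : cost (C \ T) + cost T = cost C := by
    unfold cost
    exact Finset.sum_sdiff hT
  have hcost : cost (insert (m, cost T) (C \ T)) ≤ cost C := by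
    by_cases hmem : (m, cost T) ∈ C \ T
    · rw [Finset.insert_eq_of_mem hmem]
      omega
    · have : cost (insert (m, cost T) (C \ T)) = cost T + cost (C \ T) := by
        show ∑ b ∈ insert (m, cost T) (C \ T), b.2 = _
        rw [Finset.sum_insert hmem]
        rfl
      omega
  have h5 := hC.min _ hcov hcost
  have h6 : (insert (m, cost T) (C \ T)).card ≤ (C \ T).card + 1 := Finset.card_insert_le _ _
  have h7 : (C \ T).card + T.card = C.card := Finset.card_sdiff_add_card_eq_card hT
  omega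

end Pool.Agent.BDC
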