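import Pool.Agent.BDC.LBase

/-!
# BDC: the compiler from the loop language to the random access machine

Registers: `0`: `n`; `1`: `cap n`; `2`: `n * n` (start of the array region of the memory);
`3`: `cap n + 1` (row length); `4`: `K` (number of arrays); the others are temporary.
Cell `(i, j)` of array `k < K` is memory cell `n * n + ((i * (cap n + 1) + j) * K + k)`.
-/

namespace Pool.Agent.BDC

/-- code for an expression: the value goes to register `t`; registers `≥ t` are used -/
def compE (t : ℕ) : Ex → List Instr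
  | .c0 => [.const t 0]
  | .c1 => [.const t 1]
  | .c2 => [.const t 2]
  | .n => [.move t 0]
  | .inp i j => compE t i ++ compE (t + 1) j ++
      [ -- t+2 := 1 if reg t < n else 0
        .sub (t + 2) 0 t, .const (t + 3) 1, .sub (t + 2) (t + 3) (t + 2),
        .sub (t + 2) (t + 3) (t + 2),
        -- t+4 := 1 if reg (t+1) < n else 0
        .sub (t + 4) 0 (t + 1), .sub (t + 4) (t + 3) (t + 4), .sub (t + 4) (t + 3) (t + 4),
        .mul t t 0, .add t t (t + 1), .load t t, .mul t t (t + 2), .mul t t (t + 4)]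
  | .rd k i j => compE t i ++ compE (t + 1) j ++
      [.mul t t 3, .add t t (t + 1), .mul t t 4, .const (t + 1) k, .add t t (t + 1),
        .add t t 2, .load t t]
  | .add a b => compE t a ++ compE (t + 1) b ++
      [.add t t (t + 1), .sub (t + 1) t 1, .sub t t (t + 1)]
  | .sub a b => compE t a ++ compE (t + 1) b ++ [.sub t t (t + 1)]

/-- code for a condition: register `t` gets `1` (true) or `0` (false) -/
def compB (t : ℕ) : Bx → List Instr
  | .lt a b => compE t a ++ compE (t + 1) b ++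
      [.sub t (t + 1) t, .const (t + 1) 1, .sub t (t + 1) t, .sub t (t + 1) t]
  | .eq a b => compE t a ++ compE (t + 1) b ++
      [.sub (t + 2) t (t + 1), .sub t (t + 1) t, .add t t (t + 2), .const (t + 1) 1,
        .sub t (t + 1) t]
  | .and p q => compB t p ++ compB (t + 1) q ++ [.mul t t (t + 1)]
  | .or p q => compB t p ++ compB (t + 1) q ++
      [.add t t (t + 1), .const (t + 1) 1, .sub t (t + 1) t, .sub t (t + 1) t]
  | .not p => compB t p ++ [.const (t + 1) 1, .sub t (t + 1) t]

/-- code for a command, to be placed at line `q`; registers `≥ f` are used -/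
def compC (f q : ℕ) : Cm → List Instr
  | .skip => []
  | .put k i j e => compE f i ++ compE (f + 1) j ++ compE (f + 2) e ++
      [.mul f f 3, .add f f (f + 1), .mul f f 4, .const (f + 1) k, .add f f (f + 1),
        .add f f 2, .store f (f + 2)]
  | .seq a b => compC f q a ++ compC f (q + (compC f q a).length) b
  | .ite p a b =>
      let B := compB f p
      let L := compC f (q + B.length + 1) a
      let q' := q + B.length + 1 + L.length + 1
      let R := compC f q' b
      B ++ [.jz f q'] ++ L ++ [.jump (q' + R.length)] ++ R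
  | .loop k e a =>
      let E := compE (f + 1) e
      let q' := q + E.length + 1
      let Bd := compC (f + 2) (q' + 5) a
      E ++ [.const f 0,
        -- line q'
        .sub (f + 2) (f + 1) f, .jz (f + 2) (q' + 5 + Bd.length + 3),
        .const (f + 2) k, .add (f + 2) (f + 2) 2, .store (f + 2) f] ++
      Bd ++ [.const (f + 2) 1, .add f f (f + 2), .jump q']

/-- the whole machine program for command `c`, output in cell `(0,0)` of array `out`, `K` arrays -/
def compP (K out : ℕ) (c : Cm) : List Instr :=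
  let pre : List Instr := [
    .const 5 2, .add 5 5 0, .add 5 5 5, .add 1 5 5,   -- reg 1 := 4 * (n + 2)
    .mul 2 0 0,
    .const 5 1, .add 3 1 5,
    .const 4 K]
  pre ++ compC 5 pre.length c ++ [.const 5 out, .add 5 5 2, .load 0 5, .halt]

/-- the array numbers used by an expression -/
def idsE : Ex → List ℕ
  | .rd k i j => k :: (idsE i ++ idsE j)
  | .inp i j => idsE i ++ idsE j
  | .add a b => idsE a ++ idsE b
  | .sub a b => idsE a ++ idsE b
  | _ => []

def idsB : Bx → List ℕ
  | .lt a b => idsE a ++ idsE b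
  | .eq a b => idsE a ++ idsE b
  | .and p q => idsB p ++ idsB q
  | .or p q => idsB p ++ idsB q
  | .not p => idsB p

def idsC : Cm → List ℕ
  | .skip => []
  | .put k i j e => k :: (idsE i ++ idsE j ++ idsE e)
  | .seq a b => idsC a ++ idsC b
  | .ite p a b => idsB p ++ idsC a ++ idsC b
  | .loop k e a => k :: (idsE e ++ idsC a)

/-- execution of straight-line code -/
def exl (l : List Instr) (s : Cfg) : Cfg := l.foldl (fun s i => exec i s) s

/-- a bound for all numbers -/
def bnd (K n : ℕ) : ℕ := (K + 3) * (cap n + 2) * (cap n + 2)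

/-- all numbers are bounded -/
def Bnd (K n : ℕ) (s : Cfg) : Prop := ∀ x, s.reg x ≤ bnd K n ∧ s.mem x ≤ bnd K n

/-- the configuration `s` represents the store `σ` -/
structure Repr (K n : ℕ) (A : ℕ → ℕ → ℕ) (σ : Store) (s : Cfg) : Prop where
  r0 : s.reg 0 = n
  r1 : s.reg 1 = cap n
  r2 : s.reg 2 = n * n
  r3 : s.reg 3 = cap n + 1
  r4 : s.reg 4 = K
  cell : ∀ k i j, k < K → i ≤ cap n → j ≤ cap n →
    s.mem (n * n + ((i * (cap n + 1) + j) * K + k)) = σ k i j
  inp : ∀ i j, i < n → j < n → s.mem (i * n + j) = A i j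
  bs : Bdd n σ
  bA : ∀ i j, A i j ≤ 1
  bm : Bnd K n s

/-- expressions are compiled correctly -/
def T_CE : Prop :=
  ∀ (K n : ℕ) (A : ℕ → ℕ → ℕ) (σ : Store) (e : Ex) (t : ℕ) (s : Cfg), 1 ≤ n → 5 ≤ t →
    (∀ k ∈ idsE e, k < K) → Repr K n A σ s →
    (exl (compE t e) s).reg t = ev n A σ e ∧ (∀ r, r < t → (exl (compE t e) s).reg r = s.reg r) ∧
    (exl (compE t e) s).mem = s.mem ∧ (exl (compE t e) s).pc = s.pc + (compE t e).length ∧
    (∀ m, Bnd K n (exl ((compE t e).take m) s)) ∧
    (∀ i ∈ compE t e, (∀ l, i ≠ .jump l) ∧ (∀ a l, i ≠ .jz a l) ∧ i ≠ .halt)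

/-- conditions are compiled correctly -/
def T_CB : Prop :=
  ∀ (K n : ℕ) (A : ℕ → ℕ → ℕ) (σ : Store) (p : Bx) (t : ℕ) (s : Cfg), 1 ≤ n → 5 ≤ t →
    (∀ k ∈ idsB p, k < K) → Repr K n A σ s →
    (tst n A σ p → (exl (compB t p) s).reg t = 1) ∧
    (¬ tst n A σ p → (exl (compB t p) s).reg t = 0) ∧
    (∀ r, r < t → (exl (compB t p) s).reg r = s.reg r) ∧
    (exl (compB t p) s).mem = s.mem ∧ (exl (compB t p) s).pc = s.pc + (compB t p).length ∧
    (∀ m, Bnd K n (exl ((compB t p).take m) s)) ∧
    (∀ i ∈ compB t p, (∀ l, i ≠ .jump l) ∧ (∀ a l, i ≠ .jz a l) ∧ i ≠ .halt)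

/-- commands are compiled correctly -/
def T_CC : Prop :=
  ∀ (c : Cm) (K : ℕ), (∀ k ∈ idsC c, k < K) → ∃ T : ℕ, ∀ (n : ℕ) (A : ℕ → ℕ → ℕ) (σ : Store)
    (f q : ℕ) (P : List Instr) (s : Cfg), 1 ≤ n → 5 ≤ f → Repr K n A σ s → s.pc = q →
    (∀ i, i < (compC f q c).length → P[q + i]? = (compC f q c)[i]?) →
    ∃ t, t ≤ T * (n + 2) ^ ldepth c ∧
      Repr K n A (run n A c σ) (runs P t s) ∧ (runs P t s).pc = q + (compC f q c).length ∧
      (∀ r, r < f → (runs P t s).reg r = s.reg r) ∧
      ∀ t', t' ≤ t → Bnd K n (runs P t' s)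

/-- **the compiler theorem** -/
def T_COMP : Prop :=
  ∀ (c : Cm) (out K : ℕ), (∀ k ∈ idsC c, k < K) → out < K → ldepth c ≤ 2 →
    ∃ C : ℕ, ∀ n, 1 ≤ n → ∀ A : ℕ → ℕ → ℕ, (∀ i j, A i j ≤ 1) →
      ∃ t, t ≤ C * n ^ 2 ∧
        Halted (compP K out c) (runs (compP K out c) t (initCfg n A)) ∧
        (runs (compP K out c) t (initCfg n A)).reg 0 = run n A c zst out 0 0 ∧
        ∀ t', t' ≤ t → ∀ x,
          (runs (compP K out c) t' (initCfg n A)).reg x ≤ C * n ^ 2 ∧
          (runs (compP K out c) t' (initCfg n A)).mem x ≤ C * n ^ 2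

end Pool.Agent.BDC
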