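import Pool.Agent.BDC.Targets

/-!
# BDC-DISJ: the balls of a minimal cover are disjoint, and no ball touches three others
-/

namespace Pool.Agent.BDC

/-- a vertex within distance `t` of `x` towards `y` -/
lemma disj_move {V : Type} {G : SimpleGraph V} (hG : G.Connected) (x y : V) (t : ℕ) :
    ∃ m, G.dist x m ≤ t ∧ G.dist m y ≤ G.dist x y - t := by
  obtain ⟨z, h1, h2⟩ := dist_mid hG x y (min t (G.dist x y)) (min_le_right _ _)
  refine ⟨z, by omega, by omega⟩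

theorem p_DISJ (h : T_MERGE) : T_DISJ := by
  classical
  intro V _ G C hG hC b hb b' hb' hne w hw hw'
  have hD : G.dist b.1 b'.1 ≤ b.2 + b'.2 := by
    have h1 : G.dist b.1 b'.1 ≤ G.dist b.1 w + G.dist w b'.1 := hG.dist_triangle
    have h2 : G.dist b.1 w ≤ b.2 := hw
    have h3 : G.dist b'.1 w ≤ b'.2 := hw'
    rw [SimpleGraph.dist_comm] at h3
    omega
  obtain ⟨m, hm1, hm2⟩ := disj_move hG b.1 b'.1 b'.2
  have hcost : cost ({b, b'} : Finset (V × ℕ)) = b.2 + b'.2 := by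
    simp [cost, Finset.sum_pair hne]
  refine h V G C {b, b'} m hC ?_ ?_ ?_
  · intro x hx
    simp only [Finset.mem_insert, Finset.mem_singleton] at hx
    rcases hx with rfl | rfl
    · exact hb
    · exact hb'
  · rw [Finset.card_pair hne]
  · intro x hx y hy
    have hy' : G.dist x.1 y ≤ x.2 := hy
    have ht : G.dist m y ≤ G.dist m x.1 + G.dist x.1 y := hG.dist_triangle
    rw [hcost]
    simp only [Finset.mem_insert, Finset.mem_singleton] at hx
    rcases hx with rfl | rfl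
    · rw [SimpleGraph.dist_comm] at hm1
      omega
    · omega

lemma star_aux (h : T_MERGE) {V : Type} [Fintype V] {G : SimpleGraph V} {C : Finset (V × ℕ)}
    (hG : G.Connected) (hC : MinCover G C) {b b₁ b₂ b₃ : V × ℕ} (hb : b ∈ C) (hb₁ : b₁ ∈ C)
    (hb₂ : b₂ ∈ C) (hb₃ : b₃ ∈ C) (n1 : b ≠ b₁) (n2 : b ≠ b₂) (n3 : b ≠ b₃) (n12 : b₁ ≠ b₂)
    (n13 : b₁ ≠ b₃) (n23 : b₂ ≠ b₃) (h1 : AdjB G b b₁) (h2 : AdjB G b b₂) (h3 : AdjB G b b₃)
    (h21 : b₂.2 ≤ b₁.2) (h31 : b₃.2 ≤ b₁.2) : False := by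
  classical
  have hdist : ∀ b', AdjB G b b' → G.dist b.1 b'.1 ≤ b.2 + b'.2 + 1 := by
    rintro b' ⟨x, y, hx, hy, hxy⟩
    have e1 : G.dist b.1 b'.1 ≤ G.dist b.1 x + G.dist x b'.1 := hG.dist_triangle
    have e2 : G.dist x b'.1 ≤ G.dist x y + G.dist y b'.1 := hG.dist_triangle
    have e3 : G.dist x y = 1 := SimpleGraph.dist_eq_one_iff_adj.2 hxy
    have e4 : G.dist b.1 x ≤ b.2 := hx
    have e5 : G.dist b'.1 y ≤ b'.2 := hy
    rw [SimpleGraph.dist_comm] at e5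
    omega
  have d1 := hdist _ h1
  have d2 := hdist _ h2
  have d3 := hdist _ h3
  have p1 := hC.cover.pos _ hb₁
  have p2 := hC.cover.pos _ hb₂
  have p3 := hC.cover.pos _ hb₃
  have hcost : cost ({b, b₁, b₂, b₃} : Finset (V × ℕ)) = b.2 + (b₁.2 + (b₂.2 + b₃.2)) := by
    unfold cost
    rw [Finset.sum_insert (by simp [n1, n2, n3]), Finset.sum_insert (by simp [n12, n13]),
      Finset.sum_pair n23]
  have hcard : 2 ≤ ({b, b₁, b₂, b₃} : Finset (V × ℕ)).card := by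
    rw [Finset.card_insert_of_notMem (by simp [n1, n2, n3]),
      Finset.card_insert_of_notMem (by simp [n12, n13])]
    omega
  have hsub : ({b, b₁, b₂, b₃} : Finset (V × ℕ)) ⊆ C := by
    intro x hx
    simp only [Finset.mem_insert, Finset.mem_singleton] at hx
    rcases hx with rfl | rfl | rfl | rfl <;> assumption
  obtain ⟨m, hm1, hm2⟩ := disj_move hG b.1 b₁.1 (b₁.2 + 1 - b₂.2 - b₃.2)
  refine h V G C {b, b₁, b₂, b₃} m hC hsub hcard ?_
  intro x hx y hy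
  have hy' : G.dist x.1 y ≤ x.2 := hy
  have ht : G.dist m y ≤ G.dist m x.1 + G.dist x.1 y := hG.dist_triangle
  have ht2 : G.dist m x.1 ≤ G.dist m b.1 + G.dist b.1 x.1 := hG.dist_triangle
  rw [SimpleGraph.dist_comm] at hm1
  rw [hcost]
  simp only [Finset.mem_insert, Finset.mem_singleton] at hx
  rcases hx with rfl | rfl | rfl | rfl
  · omega
  · omega
  · omega
  · omega

theorem p_STAR (h : T_MERGE) : T_STAR := by
  classical
  intro V _ G C hG hC b hb b₁ hb₁ b₂ hb₂ b₃ hb₃ n1 n2 n3 n12 n13 n23 h1 h2 h3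
  by_cases c1 : b₂.2 ≤ b₁.2 ∧ b₃.2 ≤ b₁.2
  · exact star_aux h hG hC hb hb₁ hb₂ hb₃ n1 n2 n3 n12 n13 n23 h1 h2 h3 c1.1 c1.2
  · by_cases c2 : b₁.2 ≤ b₂.2 ∧ b₃.2 ≤ b₂.2
    · exact star_aux h hG hC hb hb₂ hb₁ hb₃ n2 n1 n3 n12.symm n23 n13 h2 h1 h3 c2.1 c2.2
    · exact star_aux h hG hC hb hb₃ hb₁ hb₂ n3 n1 n2 n13.symm n23.symm n12 h3 h1 h2
        (by omega) (by omega)

end Pool.Agent.BDC
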