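import Pool.Agent.BDC.Targets

/-!
BDC-FAR: after six sweeps the pair is mutually distant (blueprint M6).
-/

namespace Pool.Agent.BDC

theorem p_FAR (h0 : T_P0) : T_FAR := by
  intro V _ G hG hR a hecc hback
  -- all distances are at most `e 1 + 3`
  have hall : ∀ p q : V, G.dist p q ≤ G.dist (a 1) (a 2) + 3 := by
    intro p q
    obtain ⟨z, hz1, hz2⟩ := dist_mid hG p q (G.dist p q / 2) (by omega)
    have hz : G.dist p z + G.dist z q = G.dist p q := by omega
    have e1 : ∀ k ≤ 5, G.dist (a k) z + G.dist p q / 2 ≤ G.dist (a k) (a (k + 1)) + 1 := by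
      intro k hk
      have hp := hecc k hk p
      have hq := hecc k hk q
      rcases h0 V G hG hR p q (a k) z hz with h1 | h1 <;> omega
    have h1 := e1 0 (by omega)
    have h2 := e1 1 (by omega)
    have h3 : G.dist (a 0) (a 1) ≤ G.dist (a 0) z + G.dist z (a 1) := hG.dist_triangle
    rw [SimpleGraph.dist_comm (u := z)] at h3
    simp only [zero_add] at h1
    have h4 : (1 : ℕ) + 1 = 2 := rfl
    rw [h4] at h2
    omega
  have hmono : ∀ k ≤ 4, G.dist (a k) (a (k + 1)) ≤ G.dist (a (k + 1)) (a (k + 2)) := by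
    intro k hk
    have := hecc (k + 1) (by omega) (a k)
    rwa [SimpleGraph.dist_comm] at this
  have hprop : ∀ k ≤ 3, G.dist (a (k + 1)) (a (k + 2)) ≤ G.dist (a k) (a (k + 1)) →
      G.dist (a (k + 2)) (a (k + 3)) ≤ G.dist (a (k + 1)) (a (k + 2)) := by
    intro k hk h1
    have h2 : a (k + 2) = a k := by
      apply hback k (by omega)
      rw [SimpleGraph.dist_comm (v := a k)]
      exact h1
    have h3 := hecc k (by omega) (a (k + 3))
    rw [h2]
    have h4 := hmono k (by omega)
    rw [h2] at h4 h1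
    omega
  -- the last two eccentricities are equal
  have hlast : G.dist (a 5) (a 6) ≤ G.dist (a 4) (a 5) := by
    by_contra hc
    have h4 : ¬ G.dist (a 4) (a 5) ≤ G.dist (a 3) (a 4) := fun h => hc (hprop 3 (by omega) h)
    have h3 : ¬ G.dist (a 3) (a 4) ≤ G.dist (a 2) (a 3) := fun h => h4 (hprop 2 (by omega) h)
    have h2 : ¬ G.dist (a 2) (a 3) ≤ G.dist (a 1) (a 2) := fun h => h3 (hprop 1 (by omega) h)
    have h5 := hall (a 5) (a 6)
    omega
  have h64 : a 6 = a 4 := by
    apply hback 4 (by omega)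
    rw [SimpleGraph.dist_comm (v := a 4)]
    exact hlast
  refine ⟨hecc 5 (by omega), fun w => ?_⟩
  rw [h64]
  have := hecc 4 (by omega) w
  rwa [SimpleGraph.dist_comm (v := a (4 + 1))] at this

end Pool.Agent.BDC
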