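import Pool.Agent.BDC.LBase

/-!
# BDC: the first stage (an example of a loop verification)
-/

namespace Pool.Agent.BDC

open N Prog

theorem l_init (n : ℕ) (A : ℕ → ℕ → ℕ) (σ : Store) :
    (∀ i j, i < n → j < n → run n A cInit σ aA i j = A i j) ∧ run n A cInit σ vCur 0 0 = 0 := by
  unfold cInit
  rw [run_seq]
  constructor
  · -- the last command does not change `aA`
    rw [run_frame _ _ aA (by decide)]
    -- outer loop
    refine loop_post (Q := fun τ => ∀ i j, i < n → j < n → τ aA i j = A i j)
      (fun m τ => ∀ i j, i < m → j < n → τ aA i j = A i j) ?_ ?_ (fun τ _ h => h)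
    · intro i j hi; omega
    · intro m hm τ _ ih
      replace hm : m < n := hm
      -- inner loop
      refine loop_post (Q := fun τ => ∀ i j, i < m + 1 → j < n → τ aA i j = A i j)
        (fun l τ => (∀ i j, i < m → j < n → τ aA i j = A i j) ∧
          (∀ j, j < l → τ aA m j = A m j)) ?_ ?_ ?_
      · refine ⟨?_, ?_⟩
        · intro i j hi hj; simpa [upd] using ih i j hi hj
        · intro j hj; omega
      · intro l hl τ' hf ih'
        replace hl : l < n := hl
        have h3 : τ' vI 0 0 = m := by rw [hf vI (by decide)]; simp
        obtain ⟨h1, h2⟩ := ih'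
        refine ⟨?_, ?_⟩
        · intro i j hi hj
          have : i ≠ m := by omega
          simpa [ev, upd, h3, this] using h1 i j hi hj
        · intro j hj
          by_cases hjl : j = l
          · subst hjl; simp [ev, upd, h3, hm, hl]
          · simpa [ev, upd, h3, hjl] using h2 j (by omega)
      · rintro τ' _ ⟨h1, h2⟩ i j hi hj
        by_cases him : i = m
        · subst him; exact h2 j hj
        · exact h1 i j (by omega) hj
  · simp [ev, upd]

end Pool.Agent.BDC
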