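import Pool.Agent.BDC.Prog

/-!
# BDC: reasoning about the loop language

* `run_frame`: a command does not change the arrays outside `mods`.
* `loop_rule`: the rule for loops (the frame is included).
* `ldep_program`: the loops of the program are nested at most twice.
-/

namespace Pool.Agent.BDC

variable {n : ℕ} {A : ℕ → ℕ → ℕ}

@[simp] lemma upd_same (σ : Store) (k i j x : ℕ) : upd σ k i j x k i j = x := by simp [upd]

lemma upd_ne {σ : Store} {k k' : ℕ} (h : k' ≠ k) (i j x : ℕ) : upd σ k i j x k' = σ k' := by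
  funext i' j'
  simp [upd, h]

lemma upd_ne' {σ : Store} {k i j i' j' : ℕ} (h : ¬ (i' = i ∧ j' = j)) (x : ℕ) (k' : ℕ) :
    upd σ k i j x k' i' j' = σ k' i' j' := by
  simp only [upd]
  rw [if_neg]
  rintro ⟨_, h1, h2⟩
  exact h ⟨h1, h2⟩

/-- execution of `m` iterations -/
def iter (n : ℕ) (A : ℕ → ℕ → ℕ) (k : ℕ) (a : Cm) (σ : Store) (m : ℕ) : Store :=
  Nat.rec σ (fun i τ => run n A a (upd τ k 0 0 i)) m

@[simp] lemma iter_zero (k : ℕ) (a : Cm) (σ : Store) : iter n A k a σ 0 = σ := rfl

lemma iter_succ (k : ℕ) (a : Cm) (σ : Store) (m : ℕ) :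
    iter n A k a σ (m + 1) = run n A a (upd (iter n A k a σ m) k 0 0 m) := rfl

@[simp] lemma run_skip (σ : Store) : run n A .skip σ = σ := rfl

@[simp] lemma run_put (k : ℕ) (i j e : Ex) (σ : Store) :
    run n A (.put k i j e) σ = upd σ k (ev n A σ i) (ev n A σ j) (ev n A σ e) := rfl

@[simp] lemma run_seq (a b : Cm) (σ : Store) :
    run n A (.seq a b) σ = run n A b (run n A a σ) := rfl

lemma run_ite (p : Bx) (a b : Cm) (σ : Store) :
    run n A (.ite p a b) σ = if tst n A σ p then run n A a σ else run n A b σ := rfl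

lemma run_ite_pos {p : Bx} {a b : Cm} {σ : Store} (h : tst n A σ p) :
    run n A (.ite p a b) σ = run n A a σ := if_pos h

lemma run_ite_neg {p : Bx} {a b : Cm} {σ : Store} (h : ¬ tst n A σ p) :
    run n A (.ite p a b) σ = run n A b σ := if_neg h

lemma run_loop (k : ℕ) (e : Ex) (a : Cm) (σ : Store) :
    run n A (.loop k e a) σ = iter n A k a σ (ev n A σ e) := rfl

/-- a command only changes the arrays in `mods` -/
lemma run_frame (c : Cm) : ∀ (σ : Store) (k : ℕ), k ∉ mods c → run n A c σ k = σ k := by
  induction c with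
  | skip => intro σ k _; rfl
  | put k' i j e =>
    intro σ k hk
    simp only [mods, List.mem_singleton] at hk
    exact upd_ne hk _ _ _
  | seq a b iha ihb =>
    intro σ k hk
    simp only [mods, List.mem_append, not_or] at hk
    rw [run_seq, ihb _ _ hk.2, iha _ _ hk.1]
  | ite p a b iha ihb =>
    intro σ k hk
    simp only [mods, List.mem_append, not_or] at hk
    rw [run_ite]
    split_ifs
    · exact iha _ _ hk.1
    · exact ihb _ _ hk.2
  | loop k' e a iha =>
    intro σ k hk
    simp only [mods, List.mem_cons, not_or] at hk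
    rw [run_loop]
    generalize ev n A σ e = m
    induction m with
    | zero => rfl
    | succ m ih =>
      rw [iter_succ, iha _ _ hk.2, upd_ne hk.1, ih]

lemma iter_frame (k : ℕ) (a : Cm) (σ : Store) (m k' : ℕ) (hk : k' ∉ k :: mods a) :
    iter n A k a σ m k' = σ k' := by
  simp only [List.mem_cons, not_or] at hk
  induction m with
  | zero => rfl
  | succ m ih => rw [iter_succ, run_frame a _ _ hk.2, upd_ne hk.1, ih]

/-- **The rule for loops.**  `I i τ`: the invariant before iteration `i`.  In the step one may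
use that arrays not in `k :: mods a` have their initial value. -/
theorem loop_rule {k : ℕ} {e : Ex} {a : Cm} {σ : Store} (I : ℕ → Store → Prop) (h0 : I 0 σ)
    (hs : ∀ i, i < ev n A σ e → ∀ τ : Store, (∀ k', k' ∉ k :: mods a → τ k' = σ k') → I i τ →
      I (i + 1) (run n A a (upd τ k 0 0 i))) :
    I (ev n A σ e) (run n A (.loop k e a) σ) := by
  rw [run_loop]
  have key : ∀ m, m ≤ ev n A σ e → I m (iter n A k a σ m) := by
    intro m
    induction m with
    | zero => intro _; exact h0
    | succ m ih =>
      intro hm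
      rw [iter_succ]
      exact hs m (by omega) _ (fun k' hk' => iter_frame k a σ m k' hk') (ih (by omega))
  exact key _ le_rfl

/-- The rule for loops, with a postcondition. -/
theorem loop_post {k : ℕ} {e : Ex} {a : Cm} {σ : Store} {Q : Store → Prop}
    (I : ℕ → Store → Prop) (h0 : I 0 σ)
    (hs : ∀ i, i < ev n A σ e → ∀ τ : Store, (∀ k', k' ∉ k :: mods a → τ k' = σ k') → I i τ →
      I (i + 1) (run n A a (upd τ k 0 0 i)))
    (hq : ∀ τ : Store, (∀ k', k' ∉ k :: mods a → τ k' = σ k') → I (ev n A σ e) τ → Q τ) :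
    Q (run n A (.loop k e a) σ) :=
  hq _ (fun k' hk' => by rw [run_loop]; exact iter_frame k a σ _ k' hk') (loop_rule I h0 hs)

/-- all cells of the store are at most `cap n` -/
def Bdd (n : ℕ) (σ : Store) : Prop := ∀ k i j, σ k i j ≤ cap n

lemma ldepth_program : ldepth Prog.program ≤ 2 := by decide

end Pool.Agent.BDC
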