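import Pool.Agent.BDC.TargetsL

/-!
# BDC: the stage `cDep` (depth, height of the columns, reference vertices)
-/

namespace Pool.Agent.BDC

open N Prog

namespace LDEP

variable {n : ℕ} {A : ℕ → ℕ → ℕ}

def c1 : Cm := .loop vW .n (
    Cm.ite (Bx.eq (r1 aU (s vW)) .c1) (Cm.seq (w1 aDep (s vW) .c0) (w1 aG (s vW) (s vW))) (
    Cm.ite (Bx.eq (r1 aU (r1 aFst (s vW))) .c1) (Cm.seq (w1 aDep (s vW) .c1) (w1 aG (s vW) (s vW)))
      (Cm.seq (w1 aDep (s vW) (Ex.add (r1 aDep (r1 aFst (s vW))) .c1))
       (w1 aG (s vW) (r1 aG (r1 aFst (s vW)))))))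

def c2 : Cm := .loop vW .n (Cm.seq (w1 aPs (s vW) .c0)
    (.loop vX .n (whn (Bx.and (Bx.eq (r1 aU (s vX)) .c1) (Bx.eq (r2 aB (s vW) (s vX)) .c1))
      (w1 aPs (s vW) (Ex.add (r1 aPs (s vW)) .c1)))))

def c3 : Cm := .loop vW .n (Cm.seq (w1 aH (s vW) .c0) (w1 aWo (s vW) .c0))

def c4 : Cm := .loop vW .n (whn (Bx.lt (r1 aH (r1 aPos (s vW))) (r1 aDep (s vW)))
    (w1 aH (r1 aPos (s vW)) (r1 aDep (s vW))))

def c5 : Cm := .loop vW .n (whn (Bx.and (Bx.eq (r1 aU (s vW)) .c0)
      (Bx.and (Bx.eq (r1 aDep (s vW)) (r1 aH (r1 aPos (s vW))))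
      (Bx.or (Bx.eq (r1 aWo (r1 aPos (s vW))) .c0)
       (Bx.lt (r1 aPs (r1 aG (s vW))) (r1 aPs (r1 aG (r1 aWo (r1 aPos (s vW)))))))))
    (w1 aWo (r1 aPos (s vW)) (s vW)))

theorem cDep_eq : cDep = (Cm.seq c1 (Cm.seq c2 (Cm.seq c3 (Cm.seq c4 c5)))) := rfl

theorem l1 (σ : Store) (U : ℕ → Prop) (fst dep g : ℕ → ℕ) (hU : HasP n σ aU U)
    (hF : Has1 n σ aFst fst) (hR : RecDep n U fst dep g) (hU0 : U 0) :
    Has1 n (run n A c1 σ) aDep dep ∧ Has1 n (run n A c1 σ) aG g := by
  unfold c1
  refine loop_post (Q := fun τ => Has1 n τ aDep dep ∧ Has1 n τ aG g)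
    (fun m τ => ∀ i, i < m → τ aDep i 0 = dep i ∧ τ aG i 0 = g i) ?_ ?_ ?_
  · intro i hi; omega
  · intro m hm τ hf ih
    replace hm : m < n := hm
    have hτU : τ aU m 0 = σ aU m 0 := by rw [hf aU (by decide)]
    have hτF : τ aFst m 0 = fst m := by rw [hf aFst (by decide)]; exact hF m hm
    rw [run_ite]
    by_cases h1 : U m
    · have e1 : τ aU m 0 = 1 := by rw [hτU]; exact (hU m hm).1 h1
      have ht : tst n A (upd τ vW 0 0 m) (Bx.eq (r1 aU (s vW)) .c1) := by
        simp [tst, ev, upd, e1]
      rw [if_pos ht]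
      obtain ⟨hd, hg⟩ := hR.onU m hm h1
      intro i hi
      by_cases him : i = m
      · subst him
        simp [ev, upd, hd, hg]
      · have := ih i (by omega)
        simpa [ev, upd, him] using this
    · have e1 : τ aU m 0 = 0 := by rw [hτU]; exact (hU m hm).2 h1
      have ht : ¬ tst n A (upd τ vW 0 0 m) (Bx.eq (r1 aU (s vW)) .c1) := by
        simp [tst, ev, upd, e1]
      rw [if_neg ht, run_ite]
      have hm0 : 0 < m := by
        rcases Nat.eq_zero_or_pos m with h0 | h0
        · subst h0; exact absurd hU0 h1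
        · exact h0
      have hfl := hR.flt m hm0 hm
      have hτUF : τ aU (fst m) 0 = σ aU (fst m) 0 := by rw [hf aU (by decide)]
      by_cases h2 : U (fst m)
      · have e2 : τ aU (fst m) 0 = 1 := by rw [hτUF]; exact (hU _ (by omega)).1 h2
        have ht2 : tst n A (upd τ vW 0 0 m) (Bx.eq (r1 aU (r1 aFst (s vW))) .c1) := by
          simp [tst, ev, upd, hτF, e2]
        rw [if_pos ht2]
        obtain ⟨hd, hg⟩ := hR.one m hm h1 h2
        intro i hi
        by_cases him : i = m
        · subst him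
          simp [ev, upd, hd, hg]
        · have := ih i (by omega)
          simpa [ev, upd, him] using this
      · have e2 : τ aU (fst m) 0 = 0 := by rw [hτUF]; exact (hU _ (by omega)).2 h2
        have ht2 : ¬ tst n A (upd τ vW 0 0 m) (Bx.eq (r1 aU (r1 aFst (s vW))) .c1) := by
          simp [tst, ev, upd, hτF, e2]
        rw [if_neg ht2]
        obtain ⟨hd, hg⟩ := hR.stp m hm h1 h2
        have hle := hR.le m hm
        have hfm : fst m ≠ m := by omega
        obtain ⟨i1, i2⟩ := ih (fst m) hfl
        intro i hi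
        by_cases him : i = m
        · subst him
          have hcap : min (dep (fst i) + 1) (cap n) = dep (fst i) + 1 := by
            apply min_eq_left
            unfold cap
            omega
          simp [ev, upd, hτF, i1, i2, hcap, hd, hg]
        · have := ih i (by omega)
          simpa [ev, upd, him] using this
  · intro τ _ h
    exact ⟨fun i hi => (h i hi).1, fun i hi => (h i hi).2⟩

/-- the number of path neighbours below `l` -/
noncomputable def cnt (l : ℕ) (b : ℕ → ℕ → ℕ) (U : ℕ → Prop) (w : ℕ) : ℕ := by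
  classical exact ((Finset.range l).filter fun x => U x ∧ b w x = 1).card

theorem cnt_le (l : ℕ) (b : ℕ → ℕ → ℕ) (U : ℕ → Prop) (w : ℕ) : cnt l b U w ≤ l := by
  classical
  unfold cnt
  refine (Finset.card_filter_le _ _).trans ?_
  simp

theorem cnt_succ_pos (l : ℕ) (b : ℕ → ℕ → ℕ) (U : ℕ → Prop) (w : ℕ) (h : U l ∧ b w l = 1) :
    cnt (l + 1) b U w = cnt l b U w + 1 := by
  classical
  unfold cnt
  rw [Finset.range_add_one, Finset.filter_insert, if_pos h, Finset.card_insert_of_notMem]
  simp

theorem cnt_succ_neg (l : ℕ) (b : ℕ → ℕ → ℕ) (U : ℕ → Prop) (w : ℕ) (h : ¬ (U l ∧ b w l = 1)) :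
    cnt (l + 1) b U w = cnt l b U w := by
  classical
  unfold cnt
  rw [Finset.range_add_one, Finset.filter_insert, if_neg h]

theorem l2 (σ : Store) (U : ℕ → Prop) (b : ℕ → ℕ → ℕ) (hU : HasP n σ aU U)
    (hB : Has2 n σ aB b) : Has1 n (run n A c2 σ) aPs (psize n b U) := by
  unfold c2
  refine loop_post (Q := fun τ => Has1 n τ aPs (psize n b U))
    (fun m τ => ∀ i, i < m → τ aPs i 0 = psize n b U i) ?_ ?_ (fun τ _ h => h)
  · intro i hi; omega
  · intro m hm τ hf ih
    replace hm : m < n := hm
    rw [run_seq]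
    refine loop_post (Q := fun τ => ∀ i, i < m + 1 → τ aPs i 0 = psize n b U i)
      (fun l τ => (∀ i, i < m → τ aPs i 0 = psize n b U i) ∧ τ aPs m 0 = cnt l b U m) ?_ ?_ ?_
    · refine ⟨?_, ?_⟩
      · intro i hi
        have : i ≠ m := by omega
        simpa [ev, upd, this] using ih i hi
      · simp [ev, upd, cnt]
    · intro l hl τ' hf' ih'
      replace hl : l < n := hl
      obtain ⟨h1, h2⟩ := ih'
      have hW : τ' vW 0 0 = m := by
        rw [hf' vW (by decide)]; simp [ev, upd]
      have hU' : τ' aU l 0 = σ aU l 0 := by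
        rw [hf' aU (by decide)]
        simp only [run_put, upd]
        simp
        rw [hf aU (by decide)]
      have hB' : τ' aB m l = b m l := by
        rw [hf' aB (by decide)]
        simp only [run_put, upd]
        simp
        rw [hf aB (by decide)]
        exact hB m l hm hl
      rw [run_ite]
      by_cases h3 : U l ∧ b m l = 1
      · have e1 : τ' aU l 0 = 1 := by rw [hU']; exact (hU l hl).1 h3.1
        have ht : tst n A (upd τ' vX 0 0 l)
            (Bx.and (Bx.eq (r1 aU (s vX)) .c1) (Bx.eq (r2 aB (s vW) (s vX)) .c1)) := by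
          simp [tst, ev, upd, e1, hW, hB', h3.2]
        rw [if_pos ht]
        have hcap : min (cnt l b U m + 1) (cap n) = cnt l b U m + 1 := by
          apply min_eq_left
          have := cnt_le l b U m
          unfold cap
          omega
        refine ⟨?_, ?_⟩
        · intro i hi
          have : i ≠ m := by omega
          simpa [ev, upd, hW, this] using h1 i hi
        · rw [cnt_succ_pos l b U m h3]
          simp [ev, upd, hW, h2, hcap]
      · have ht : ¬ tst n A (upd τ' vX 0 0 l)
            (Bx.and (Bx.eq (r1 aU (s vX)) .c1) (Bx.eq (r2 aB (s vW) (s vX)) .c1)) := by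
          intro ht
          apply h3
          simp [tst, ev, upd, hW, hB'] at ht
          refine ⟨?_, ht.2⟩
          by_contra hUl
          have := (hU l hl).2 hUl
          rw [hU', this] at ht
          exact absurd ht.1 (by norm_num)
        rw [if_neg ht]
        refine ⟨?_, ?_⟩
        · intro i hi
          simpa [ev, upd] using h1 i hi
        · rw [cnt_succ_neg l b U m h3]
          simpa [ev, upd] using h2
    · rintro τ' _ ⟨h1, h2⟩ i hi
      by_cases him : i = m
      · subst him; exact h2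
      · exact h1 i (by omega)

theorem l3 (σ : Store) : (∀ i, i < n → run n A c3 σ aH i 0 = 0) ∧
    (∀ i, i < n → run n A c3 σ aWo i 0 = 0) := by
  unfold c3
  refine loop_post (Q := fun τ => (∀ i, i < n → τ aH i 0 = 0) ∧ (∀ i, i < n → τ aWo i 0 = 0))
    (fun m τ => ∀ i, i < m → τ aH i 0 = 0 ∧ τ aWo i 0 = 0) ?_ ?_ ?_
  · intro i hi; omega
  · intro m hm τ hf ih i hi
    by_cases him : i = m
    · subst him
      simp [ev, upd]
    · have := ih i (by omega)
      simpa [ev, upd, him] using this
  · intro τ _ h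
    exact ⟨fun i hi => (h i hi).1, fun i hi => (h i hi).2⟩

theorem l4 (σ : Store) (pos dep : ℕ → ℕ) (hP : Has1 n σ aPos pos) (hD : Has1 n σ aDep dep)
    (hpos : ∀ w, w < n → pos w < n) (h0 : ∀ i, i < n → σ aH i 0 = 0) :
    ∀ p, p < n → IsH n pos dep p (run n A c4 σ aH p 0) := by
  unfold c4
  refine loop_post (Q := fun τ => ∀ p, p < n → IsH n pos dep p (τ aH p 0))
    (fun m τ => ∀ p, p < n → (∀ w, w < m → pos w = p → dep w ≤ τ aH p 0) ∧
      (τ aH p 0 = 0 ∨ ∃ w, w < m ∧ pos w = p ∧ dep w = τ aH p 0)) ?_ ?_ ?_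
  · intro p hp
    exact ⟨fun w hw => by omega, Or.inl (h0 p hp)⟩
  · intro m hm τ hf ih
    replace hm : m < n := hm
    have e1 : τ aPos m 0 = pos m := by rw [hf aPos (by decide)]; exact hP m hm
    have e2 : τ aDep m 0 = dep m := by rw [hf aDep (by decide)]; exact hD m hm
    rw [run_ite]
    by_cases h1 : τ aH (pos m) 0 < dep m
    · have ht : tst n A (upd τ vW 0 0 m) (Bx.lt (r1 aH (r1 aPos (s vW))) (r1 aDep (s vW))) := by
        simp [tst, ev, upd, e1, e2, h1]
      rw [if_pos ht]
      have hval : ∀ p, run n A (w1 aH (r1 aPos (s vW)) (r1 aDep (s vW))) (upd τ vW 0 0 m) aH p 0 =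
          if p = pos m then dep m else τ aH p 0 := by
        intro p
        simp [ev, upd, e1, e2]
      intro p hp
      rw [hval]
      by_cases hpm : p = pos m
      · rw [if_pos hpm]
        refine ⟨?_, Or.inr ⟨m, by omega, hpm.symm, rfl⟩⟩
        intro w hw hwp
        by_cases hwm : w = m
        · subst hwm; exact le_rfl
        · have := (ih p hp).1 w (by omega) hwp
          rw [hpm] at this
          omega
      · rw [if_neg hpm]
        obtain ⟨i1, i2⟩ := ih p hp
        refine ⟨?_, ?_⟩
        · intro w hw hwp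
          by_cases hwm : w = m
          · subst hwm; exact absurd hwp.symm hpm
          · exact i1 w (by omega) hwp
        · rcases i2 with i2 | ⟨w, hw, hwp, hwd⟩
          · exact Or.inl i2
          · exact Or.inr ⟨w, by omega, hwp, hwd⟩
    · have ht : ¬ tst n A (upd τ vW 0 0 m) (Bx.lt (r1 aH (r1 aPos (s vW))) (r1 aDep (s vW))) := by
        intro ht
        apply h1
        simpa [tst, ev, upd, e1, e2] using ht
      rw [if_neg ht]
      have hval : ∀ p, run n A Cm.skip (upd τ vW 0 0 m) aH p 0 = τ aH p 0 := by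
        intro p
        simp [upd]
      intro p hp
      rw [hval]
      obtain ⟨i1, i2⟩ := ih p hp
      refine ⟨?_, ?_⟩
      · intro w hw hwp
        by_cases hwm : w = m
        · subst hwm
          rw [← hwp]
          omega
        · exact i1 w (by omega) hwp
      · rcases i2 with i2 | ⟨w, hw, hwp, hwd⟩
        · exact Or.inl i2
        · exact Or.inr ⟨w, by omega, hwp, hwd⟩
  · intro τ _ h p hp
    exact h p hp

theorem l5 (σ : Store) (U : ℕ → Prop) (b : ℕ → ℕ → ℕ) (pos dep g H : ℕ → ℕ)
    (hU : HasP n σ aU U) (hU0 : U 0) (hP : Has1 n σ aPos pos) (hD : Has1 n σ aDep dep)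
    (hG : Has1 n σ aG g) (hS : Has1 n σ aPs (psize n b U)) (hH : Has1 n σ aH H)
    (hpos : ∀ w, w < n → pos w < n) (hg : ∀ w, w < n → g w < n)
    (h0 : ∀ i, i < n → σ aWo i 0 = 0) :
    ∀ p, p < n → ((run n A c5 σ aWo p 0 = 0 ∧ ∀ w, w < n → ¬ U w → pos w = p → dep w ≠ H p) ∨
      (run n A c5 σ aWo p 0 < n ∧ ¬ U (run n A c5 σ aWo p 0) ∧ pos (run n A c5 σ aWo p 0) = p ∧
        dep (run n A c5 σ aWo p 0) = H p ∧
        ∀ w, w < n → ¬ U w → pos w = p → dep w = H p →
          psize n b U (g (run n A c5 σ aWo p 0)) ≤ psize n b U (g w))) := by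
  unfold c5
  refine loop_post (Q := fun τ => ∀ p, p < n →
      ((τ aWo p 0 = 0 ∧ ∀ w, w < n → ¬ U w → pos w = p → dep w ≠ H p) ∨
      (τ aWo p 0 < n ∧ ¬ U (τ aWo p 0) ∧ pos (τ aWo p 0) = p ∧
        dep (τ aWo p 0) = H p ∧
        ∀ w, w < n → ¬ U w → pos w = p → dep w = H p →
          psize n b U (g (τ aWo p 0)) ≤ psize n b U (g w))))
    (fun m τ => ∀ p, p < n →
      ((τ aWo p 0 = 0 ∧ ∀ w, w < m → ¬ U w → pos w = p → dep w ≠ H p) ∨
      (τ aWo p 0 < n ∧ ¬ U (τ aWo p 0) ∧ pos (τ aWo p 0) = p ∧
        dep (τ aWo p 0) = H p ∧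
        ∀ w, w < m → ¬ U w → pos w = p → dep w = H p →
          psize n b U (g (τ aWo p 0)) ≤ psize n b U (g w)))) ?_ ?_ ?_
  · intro p hp
    exact Or.inl ⟨h0 p hp, fun w hw => by omega⟩
  · intro m hm τ hf ih
    replace hm : m < n := hm
    have e1 : τ aPos m 0 = pos m := by rw [hf aPos (by decide)]; exact hP m hm
    have e2 : τ aDep m 0 = dep m := by rw [hf aDep (by decide)]; exact hD m hm
    have e3 : τ aG m 0 = g m := by rw [hf aG (by decide)]; exact hG m hm
    have e4 : ∀ x, x < n → τ aPs x 0 = psize n b U x := by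
      intro x hx; rw [hf aPs (by decide)]; exact hS x hx
    have e5 : ∀ x, x < n → τ aH x 0 = H x := by
      intro x hx; rw [hf aH (by decide)]; exact hH x hx
    have e6 : ∀ x, x < n → τ aG x 0 = g x := by
      intro x hx; rw [hf aG (by decide)]; exact hG x hx
    have e7 : τ aU m 0 = σ aU m 0 := by rw [hf aU (by decide)]
    have hpm := hpos m hm
    have hgm := hg m hm
    rw [run_ite]
    -- the meaning of the test
    have htst : tst n A (upd τ vW 0 0 m) (Bx.and (Bx.eq (r1 aU (s vW)) .c0)
      (Bx.and (Bx.eq (r1 aDep (s vW)) (r1 aH (r1 aPos (s vW))))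
      (Bx.or (Bx.eq (r1 aWo (r1 aPos (s vW))) .c0)
       (Bx.lt (r1 aPs (r1 aG (s vW))) (r1 aPs (r1 aG (r1 aWo (r1 aPos (s vW))))))))) ↔
        (σ aU m 0 = 0 ∧ dep m = H (pos m) ∧ (τ aWo (pos m) 0 = 0 ∨
          psize n b U (g m) < τ aPs (τ aG (τ aWo (pos m) 0) 0) 0)) := by
      simp [tst, ev, upd, e1, e2, e3, e4 _ hgm, e5 _ hpm, e7]
    by_cases h1 : σ aU m 0 = 0 ∧ dep m = H (pos m) ∧ (τ aWo (pos m) 0 = 0 ∨
          psize n b U (g m) < τ aPs (τ aG (τ aWo (pos m) 0) 0) 0)
    · rw [if_pos (htst.2 h1)]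
      have hval : ∀ p, run n A (w1 aWo (r1 aPos (s vW)) (s vW)) (upd τ vW 0 0 m) aWo p 0 =
          if p = pos m then m else τ aWo p 0 := by
        intro p
        simp [ev, upd, e1]
      have hUm : ¬ U m := by
        intro hUm
        have := (hU m hm).1 hUm
        rw [this] at h1
        exact absurd h1.1 (by norm_num)
      intro p hp
      rw [hval]
      by_cases hpm' : p = pos m
      · rw [if_pos hpm']
        refine Or.inr ⟨hm, hUm, hpm'.symm, by rw [hpm']; exact h1.2.1, ?_⟩
        intro w hw hUw hwp hwd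
        by_cases hwm : w = m
        · subst hwm; exact le_rfl
        · rcases ih p hp with ⟨i1, i2⟩ | ⟨i1, i2, i3, i4, i5⟩
          · exact absurd hwd (i2 w (by omega) hUw hwp)
          · have hlt : psize n b U (g m) < psize n b U (g (τ aWo p 0)) := by
              rcases h1.2.2 with h2 | h2
              · rw [← hpm'] at h2
                rw [h2] at i2
                exact absurd hU0 i2
              · rw [← hpm'] at h2
                rw [e6 _ i1, e4 _ (hg _ i1)] at h2
                exact h2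
            have := i5 w (by omega) hUw hwp hwd
            omega
      · rw [if_neg hpm']
        rcases ih p hp with ⟨i1, i2⟩ | ⟨i1, i2, i3, i4, i5⟩
        · refine Or.inl ⟨i1, ?_⟩
          intro w hw hUw hwp
          by_cases hwm : w = m
          · subst hwm; exact absurd hwp.symm hpm'
          · exact i2 w (by omega) hUw hwp
        · refine Or.inr ⟨i1, i2, i3, i4, ?_⟩
          intro w hw hUw hwp
          by_cases hwm : w = m
          · subst hwm; exact absurd hwp.symm hpm'
          · exact i5 w (by omega) hUw hwp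
    · rw [if_neg (fun h => h1 (htst.1 h))]
      have hval : ∀ p, run n A Cm.skip (upd τ vW 0 0 m) aWo p 0 = τ aWo p 0 := by
        intro p
        simp [upd]
      intro p hp
      rw [hval]
      rcases ih p hp with ⟨i1, i2⟩ | ⟨i1, i2, i3, i4, i5⟩
      · refine Or.inl ⟨i1, ?_⟩
        intro w hw hUw hwp
        by_cases hwm : w = m
        · subst hwm
          intro hwd
          apply h1
          refine ⟨(hU w hm).2 hUw, by rw [hwd, hwp], Or.inl (by rw [hwp]; exact i1)⟩
        · exact i2 w (by omega) hUw hwp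
      · refine Or.inr ⟨i1, i2, i3, i4, ?_⟩
        intro w hw hUw hwp hwd
        by_cases hwm : w = m
        · subst hwm
          by_contra hlt
          apply h1
          refine ⟨(hU w hm).2 hUw, by rw [hwd, hwp], Or.inr ?_⟩
          rw [hwp, e6 _ i1, e4 _ (hg _ i1)]
          omega
        · exact i5 w (by omega) hUw hwp hwd
  · intro τ _ h p hp
    exact h p hp

end LDEP

open LDEP

theorem p_LDEP : T_LDEP := by
  intro n A σ b U fst pos dep g hn hB hU hU0 hF hP hpos hposU hR
  rw [cDep_eq]
  simp only [run_seq]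
  set σ1 := run n A c1 σ with hσ1
  set σ2 := run n A c2 σ1 with hσ2
  set σ3 := run n A c3 σ2 with hσ3
  set σ4 := run n A c4 σ3 with hσ4
  set σ5 := run n A c5 σ4 with hσ5
  -- frames
  have f1 : ∀ k, k ≠ vW → k ≠ aDep → k ≠ aG → σ1 k = σ k := by
    intro k h1 h2 h3
    exact run_frame _ _ _ (by
      simp only [c1, mods, List.mem_cons, List.mem_append, List.not_mem_nil, or_false]
      tauto)
  have f2 : ∀ k, k ≠ vW → k ≠ aPs → k ≠ vX → σ2 k = σ1 k := by
    intro k h1 h2 h3
    exact run_frame _ _ _ (by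
      simp only [c2, mods, List.mem_cons, List.mem_append, List.not_mem_nil, or_false]
      tauto)
  have f3 : ∀ k, k ≠ vW → k ≠ aH → k ≠ aWo → σ3 k = σ2 k := by
    intro k h1 h2 h3
    exact run_frame _ _ _ (by
      simp only [c3, mods, List.mem_cons, List.mem_append, List.not_mem_nil, or_false]
      tauto)
  have f4 : ∀ k, k ≠ vW → k ≠ aH → σ4 k = σ3 k := by
    intro k h1 h2
    exact run_frame _ _ _ (by
      simp only [c4, mods, List.mem_cons, List.mem_append, List.not_mem_nil, or_false]
      tauto)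
  have f5 : ∀ k, k ≠ vW → k ≠ aWo → σ5 k = σ4 k := by
    intro k h1 h2
    exact run_frame _ _ _ (by
      simp only [c5, mods, List.mem_cons, List.mem_append, List.not_mem_nil, or_false]
      tauto)
  have hposn : ∀ w, w < n → pos w < n := fun w hw => lt_of_le_of_lt (hpos w hw).2 hw
  have hgn : ∀ w, w < n → g w < n := by
    intro w
    induction w using Nat.strong_induction_on with
    | _ w ih =>
      intro hw
      by_cases h1 : U w
      · rw [(hR.onU w hw h1).2]; exact hw
      · by_cases h2 : U (fst w)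
        · rw [(hR.one w hw h1 h2).2]; exact hw
        · rw [(hR.stp w hw h1 h2).2]
          have hw0 : 0 < w := by
            rcases Nat.eq_zero_or_pos w with h0 | h0
            · subst h0; exact absurd hU0 h1
            · exact h0
          have := hR.flt w hw0 hw
          exact ih _ this (by omega)
  obtain ⟨d1, g1⟩ := l1 (A := A) σ U fst dep g hU hF hR hU0
  rw [← hσ1] at d1 g1
  have u1 : HasP n σ1 aU U := by
    intro i hi; rw [f1 aU (by decide) (by decide) (by decide)]; exact hU i hi
  have b1 : Has2 n σ1 aB b := by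
    intro i j hi hj; rw [f1 aB (by decide) (by decide) (by decide)]; exact hB i j hi hj
  have ps2 := l2 (A := A) σ1 U b u1 b1
  rw [← hσ2] at ps2
  have d2 : Has1 n σ2 aDep dep := by
    intro i hi; rw [f2 aDep (by decide) (by decide) (by decide)]; exact d1 i hi
  have g2 : Has1 n σ2 aG g := by
    intro i hi; rw [f2 aG (by decide) (by decide) (by decide)]; exact g1 i hi
  obtain ⟨h3, w3⟩ := l3 (n := n) (A := A) σ2
  rw [← hσ3] at h3 w3
  have d3 : Has1 n σ3 aDep dep := by
    intro i hi; rw [f3 aDep (by decide) (by decide) (by decide)]; exact d2 i hi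
  have g3 : Has1 n σ3 aG g := by
    intro i hi; rw [f3 aG (by decide) (by decide) (by decide)]; exact g2 i hi
  have p3 : Has1 n σ3 aPos pos := by
    intro i hi
    rw [f3 aPos (by decide) (by decide) (by decide), f2 aPos (by decide) (by decide) (by decide),
      f1 aPos (by decide) (by decide) (by decide)]
    exact hP i hi
  have ih4 := l4 (A := A) σ3 pos dep p3 d3 hposn h3
  rw [← hσ4] at ih4
  have d4 : Has1 n σ4 aDep dep := by
    intro i hi; rw [f4 aDep (by decide) (by decide)]; exact d3 i hi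
  have g4 : Has1 n σ4 aG g := by
    intro i hi; rw [f4 aG (by decide) (by decide)]; exact g3 i hi
  have p4 : Has1 n σ4 aPos pos := by
    intro i hi; rw [f4 aPos (by decide) (by decide)]; exact p3 i hi
  have ps4 : Has1 n σ4 aPs (psize n b U) := by
    intro i hi
    rw [f4 aPs (by decide) (by decide), f3 aPs (by decide) (by decide) (by decide)]
    exact ps2 i hi
  have u4 : HasP n σ4 aU U := by
    intro i hi
    rw [f4 aU (by decide) (by decide), f3 aU (by decide) (by decide) (by decide),
      f2 aU (by decide) (by decide) (by decide)]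
    exact u1 i hi
  have w4 : ∀ i, i < n → σ4 aWo i 0 = 0 := by
    intro i hi; rw [f4 aWo (by decide) (by decide)]; exact w3 i hi
  have h5 := l5 (A := A) σ4 U b pos dep g (fun p => σ4 aH p 0) u4 hU0 p4 d4 g4 ps4
    (fun i _ => rfl) hposn hgn w4
  rw [← hσ5] at h5
  refine ⟨?_, ?_, ?_⟩
  · intro i hi; rw [f5 aDep (by decide) (by decide)]; exact d4 i hi
  · intro i hi; rw [f5 aG (by decide) (by decide)]; exact g4 i hi
  · intro p hp hUp
    have hHp : σ5 aH p 0 = σ4 aH p 0 := by rw [f5 aH (by decide) (by decide)]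
    rw [hHp]
    have hIs := ih4 p hp
    refine ⟨hIs, ?_⟩
    rcases h5 p hp with ⟨i1, i2⟩ | hr
    · left
      refine ⟨i1, ?_⟩
      intro w hw hwp
      by_contra hUw
      -- the column has positive height
      have hdw : 1 ≤ dep w := by
        by_cases h2 : U (fst w)
        · rw [(hR.one w hw hUw h2).1]
        · rw [(hR.stp w hw hUw h2).1]; omega
      have h1 := hIs.1 w hw hwp
      rcases hIs.2 with h0 | ⟨x, hx, hxp, hxd⟩
      · omega
      · have hUx : ¬ U x := by
          intro hUx
          have := (hR.onU x hx hUx).1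
          omega
        exact i2 x hx hUx hxp hxd
    · right
      exact hr

end Pool.Agent.BDC
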