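import Pool.Agent.BDC.TargetsL

/-!
# BDC: verification of the stage `cDin`
-/

namespace Pool.Agent.BDC

open N Prog

namespace LDIN

variable {n : ℕ} {A : ℕ → ℕ → ℕ}

/-- the body of the inner loop -/
def bdy : Cm :=
  Cm.ite (Bx.lt (s vW) (s vY)) (w2 aDin (s vY) (s vW) .n) (
    Cm.ite (Bx.eq (s vW) (s vY)) (w2 aDin (s vY) (s vW) .c0) (
    Cm.ite (Bx.eq (r2 aB (s vY) (s vW)) .c1) (w2 aDin (s vY) (s vW) .c1) (
    Cm.ite (Bx.or (Bx.lt (r1 aPar (s vW)) (s vY)) (Bx.eq (r2 aDin (s vY) (r1 aPar (s vW))) .n))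
      (w2 aDin (s vY) (s vW) .n) (
    Cm.ite (Bx.lt (r1 aFst (s vW)) (s vY)) (w2 aDin (s vY) (s vW) .c2)
      (w2 aDin (s vY) (s vW) (Ex.add (r2 aDin (s vY) (r1 aFst (s vW))) .c1))))))

lemma run_bdy (τ : Store) (b : ℕ → ℕ → ℕ) (fst par : ℕ → ℕ) (din : ℕ → ℕ → ℕ) (m l : ℕ)
    (hY : τ vY 0 0 = m) (hW : τ vW 0 0 = l) (hm : m < n) (hl : l < n)
    (hB : Has2 n τ aB b) (hF : Has1 n τ aFst fst) (hP : Has1 n τ aPar par)
    (hD : ∀ w, w < l → τ aDin m w = din m w) (R : RecDin n b fst par din) :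
    run n A bdy τ = upd τ aDin m l (din m l) := by
  have eY : ev n A τ (s vY) = m := hY
  have eW : ev n A τ (s vW) = l := hW
  have eF : ev n A τ (r1 aFst (s vW)) = fst l := by
    show τ aFst (ev n A τ (s vW)) 0 = _
    rw [eW]; exact hF l hl
  have eP : ev n A τ (r1 aPar (s vW)) = par l := by
    show τ aPar (ev n A τ (s vW)) 0 = _
    rw [eW]; exact hP l hl
  have eB : ev n A τ (r2 aB (s vY) (s vW)) = b m l := by
    show τ aB (ev n A τ (s vY)) (ev n A τ (s vW)) = _
    rw [eW, eY]; exact hB m l hm hl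
  have put : ∀ e : Ex, run n A (w2 aDin (s vY) (s vW) e) τ = upd τ aDin m l (ev n A τ e) := by
    intro e
    rw [run_put, eY, eW]
  unfold bdy
  rw [run_ite]
  by_cases h1 : l < m
  · rw [if_pos (show tst n A τ (Bx.lt (s vW) (s vY)) by show _ < _; rw [eW, eY]; exact h1), put]
    rw [R.lt m l hm h1]; rfl
  rw [if_neg (show ¬ tst n A τ (Bx.lt (s vW) (s vY)) by show ¬ (_ < _); rw [eW, eY]; exact h1), run_ite]
  by_cases h2 : l = m
  · rw [if_pos (show tst n A τ (Bx.eq (s vW) (s vY)) by show _ = _; rw [eW, eY]; exact h2), put, h2,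
      R.same m hm]; rfl
  rw [if_neg (show ¬ tst n A τ (Bx.eq (s vW) (s vY)) by show ¬ (_ = _); rw [eW, eY]; exact h2), run_ite]
  have hml : m < l := by omega
  by_cases h3 : b m l = 1
  · rw [if_pos (show tst n A τ (Bx.eq (r2 aB (s vY) (s vW)) .c1) by show _ = _; rw [eB]; exact h3), put,
      R.adj m l hml hl h3]; rfl
  rw [if_neg (show ¬ tst n A τ (Bx.eq (r2 aB (s vY) (s vW)) .c1) by show ¬ (_ = _); rw [eB]; exact h3),
    run_ite]
  have hpl : par l < l := R.plt l (by omega) hl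
  have hfl : fst l < l := R.flt l (by omega) hl
  have eDP : ev n A τ (r2 aDin (s vY) (r1 aPar (s vW))) = din m (par l) := by
    show τ aDin (ev n A τ (s vY)) (ev n A τ (r1 aPar (s vW))) = _
    rw [eY, eP]; exact hD _ hpl
  have eDF : ev n A τ (r2 aDin (s vY) (r1 aFst (s vW))) = din m (fst l) := by
    show τ aDin (ev n A τ (s vY)) (ev n A τ (r1 aFst (s vW))) = _
    rw [eY, eF]; exact hD _ hfl
  have ht : tst n A τ (Bx.or (Bx.lt (r1 aPar (s vW)) (s vY)) (Bx.eq (r2 aDin (s vY) (r1 aPar (s vW))) .n)) ↔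
      (par l < m ∨ din m (par l) = n) := by
    show (_ < _ ∨ _ = _) ↔ _
    rw [eP, eY, eDP]; rfl
  by_cases h4 : par l < m ∨ din m (par l) = n
  · rw [if_pos (ht.2 h4), put, R.out m l hml hl h3 h4]; rfl
  rw [if_neg (fun h => h4 (ht.1 h)), run_ite]
  by_cases h5 : fst l < m
  · rw [if_pos (show tst n A τ (Bx.lt (r1 aFst (s vW)) (s vY)) by show _ < _; rw [eF, eY]; exact h5), put,
      R.two m l hml hl h3 h4 h5]; rfl
  rw [if_neg (show ¬ tst n A τ (Bx.lt (r1 aFst (s vW)) (s vY)) by show ¬ (_ < _); rw [eF, eY]; exact h5),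
    put, R.stp m l hml hl h3 h4 h5]
  congr 1
  show min (ev n A τ (r2 aDin (s vY) (r1 aFst (s vW))) + 1) (cap n) = _
  rw [eDF]
  have := R.le m (fst l) hm (by omega)
  unfold cap
  omega

lemma loop1 (σ : Store) (b : ℕ → ℕ → ℕ) (fst par : ℕ → ℕ) (din : ℕ → ℕ → ℕ)
    (hB : Has2 n σ aB b) (hF : Has1 n σ aFst fst) (hP : Has1 n σ aPar par)
    (R : RecDin n b fst par din) :
    Has2 n (run n A (.loop vY .n (.loop vW .n bdy)) σ) aDin din := by
  refine loop_post (Q := fun τ => Has2 n τ aDin din)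
    (fun m τ => ∀ y w, y < m → w < n → τ aDin y w = din y w) ?_ ?_ (fun τ _ h y w hy hw => h y w hy hw)
  · intro y w hy; omega
  · intro m hm τ hfr ih
    replace hm : m < n := hm
    refine loop_post (Q := fun τ => ∀ y w, y < m + 1 → w < n → τ aDin y w = din y w)
      (fun l τ => (∀ y w, y < m → w < n → τ aDin y w = din y w) ∧
        (∀ w, w < l → τ aDin m w = din m w)) ?_ ?_ ?_
    · refine ⟨?_, ?_⟩
      · intro y w hy hw; simpa [upd] using ih y w hy hw
      · intro w hw; omega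
    · intro l hl τ' hf ih'
      replace hl : l < n := hl
      obtain ⟨h1, h2⟩ := ih'
      have e1 : τ' vY 0 0 = m := by rw [hf vY (by decide)]; simp
      have fB : τ' aB = σ aB := by
        rw [hf aB (by decide), upd_ne (by decide)]; exact hfr aB (by decide)
      have fF : τ' aFst = σ aFst := by
        rw [hf aFst (by decide), upd_ne (by decide)]; exact hfr aFst (by decide)
      have fP : τ' aPar = σ aPar := by
        rw [hf aPar (by decide), upd_ne (by decide)]; exact hfr aPar (by decide)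
      have key := run_bdy (n := n) (A := A) (upd τ' vW 0 0 l) b fst par din m l
        (by rw [upd_ne (by decide)]; exact e1) (by simp) hm hl
        (by intro i j hi hj; rw [upd_ne (by decide), fB]; exact hB i j hi hj)
        (by intro i hi; rw [upd_ne (by decide), fF]; exact hF i hi)
        (by intro i hi; rw [upd_ne (by decide), fP]; exact hP i hi)
        (by intro w hw; rw [upd_ne (by decide)]; exact h2 w hw) R
      rw [key]
      refine ⟨?_, ?_⟩
      · intro y w hy hw
        rw [upd_ne' (by omega), upd_ne (by decide)]; exact h1 y w hy hw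
      · intro w hw
        by_cases hwl : w = l
        · subst hwl; simp
        · rw [upd_ne' (by omega), upd_ne (by decide)]; exact h2 w (by omega)
    · rintro τ' _ ⟨h1, h2⟩ y w hy hw
      by_cases hym : y = m
      · subst hym; exact h2 w hw
      · exact h1 y w (by omega) hw

/-- the body of the second loop -/
def bdy2 : Cm :=
  whn (Bx.and (Bx.lt (r2 aDin (s vY) (s vW)) .n) (Bx.lt (r1 aEc (s vY)) (r2 aDin (s vY) (s vW))))
      (w1 aEc (s vY) (r2 aDin (s vY) (s vW)))

lemma loop2 (σ : Store) (din : ℕ → ℕ → ℕ) (hD : Has2 n σ aDin din) :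
    ∀ y, y < n →
      (∀ w, w < n → din y w < n →
        din y w ≤ run n A (.loop vY .n (Cm.seq (w1 aEc (s vY) .c0) (.loop vW .n bdy2))) σ aEc y 0) ∧
      (run n A (.loop vY .n (Cm.seq (w1 aEc (s vY) .c0) (.loop vW .n bdy2))) σ aEc y 0 = 0 ∨
        ∃ w, w < n ∧ din y w < n ∧
          run n A (.loop vY .n (Cm.seq (w1 aEc (s vY) .c0) (.loop vW .n bdy2))) σ aEc y 0 = din y w) := by
  refine loop_post (Q := fun τ => ∀ y, y < n →
      (∀ w, w < n → din y w < n → din y w ≤ τ aEc y 0) ∧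
      (τ aEc y 0 = 0 ∨ ∃ w, w < n ∧ din y w < n ∧ τ aEc y 0 = din y w))
    (fun m τ => ∀ y, y < m →
      (∀ w, w < n → din y w < n → din y w ≤ τ aEc y 0) ∧
      (τ aEc y 0 = 0 ∨ ∃ w, w < n ∧ din y w < n ∧ τ aEc y 0 = din y w)) ?_ ?_
    (fun τ _ h y hy => h y hy)
  · intro y hy; omega
  · intro m hm τ hfr ih
    replace hm : m < n := hm
    rw [run_seq]
    have hrun : run n A (w1 aEc (s vY) .c0) (upd τ vY 0 0 m) = upd (upd τ vY 0 0 m) aEc m 0 0 := by
      rw [run_put]
      have : ev n A (upd τ vY 0 0 m) (s vY) = m := by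
        show upd τ vY 0 0 m vY 0 0 = m; simp
      rw [this]; rfl
    rw [hrun]
    refine loop_post (Q := fun τ => ∀ y, y < m + 1 →
        (∀ w, w < n → din y w < n → din y w ≤ τ aEc y 0) ∧
        (τ aEc y 0 = 0 ∨ ∃ w, w < n ∧ din y w < n ∧ τ aEc y 0 = din y w))
      (fun l τ => (∀ y, y < m →
        (∀ w, w < n → din y w < n → din y w ≤ τ aEc y 0) ∧
        (τ aEc y 0 = 0 ∨ ∃ w, w < n ∧ din y w < n ∧ τ aEc y 0 = din y w)) ∧
        (∀ w, w < l → din m w < n → din m w ≤ τ aEc m 0) ∧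
        (τ aEc m 0 = 0 ∨ ∃ w, w < n ∧ din m w < n ∧ τ aEc m 0 = din m w)) ?_ ?_ ?_
    · refine ⟨?_, ?_, ?_⟩
      · intro y hy
        have : upd (upd τ vY 0 0 m) aEc m 0 0 aEc y 0 = τ aEc y 0 := by
          rw [upd_ne' (by omega), upd_ne (by decide)]
        rw [this]; exact ih y hy
      · intro w hw; omega
      · left; simp
    · intro l hl τ' hf ih'
      replace hl : l < n := hl
      obtain ⟨h1, h2, h3⟩ := ih'
      have e1 : (upd τ' vW 0 0 l) vY 0 0 = m := by
        rw [upd_ne (by decide), hf vY (by decide), upd_ne (by decide)]; simp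
      have eY : ev n A (upd τ' vW 0 0 l) (s vY) = m := e1
      have eW : ev n A (upd τ' vW 0 0 l) (s vW) = l := by
        show (upd τ' vW 0 0 l) vW 0 0 = l; simp
      have fD : τ' aDin = σ aDin := by
        rw [hf aDin (by decide), upd_ne (by decide), upd_ne (by decide)]; exact hfr aDin (by decide)
      have eD : ev n A (upd τ' vW 0 0 l) (r2 aDin (s vY) (s vW)) = din m l := by
        show (upd τ' vW 0 0 l) aDin (ev n A (upd τ' vW 0 0 l) (s vY))
          (ev n A (upd τ' vW 0 0 l) (s vW)) = _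
        rw [eY, eW, upd_ne (by decide), fD]; exact hD m l hm hl
      have eE : ev n A (upd τ' vW 0 0 l) (r1 aEc (s vY)) = τ' aEc m 0 := by
        show (upd τ' vW 0 0 l) aEc (ev n A (upd τ' vW 0 0 l) (s vY)) 0 = _
        rw [eY, upd_ne (by decide)]
      have ht : tst n A (upd τ' vW 0 0 l)
          (Bx.and (Bx.lt (r2 aDin (s vY) (s vW)) .n) (Bx.lt (r1 aEc (s vY)) (r2 aDin (s vY) (s vW)))) ↔
          (din m l < n ∧ τ' aEc m 0 < din m l) := by
        show (_ < _ ∧ _ < _) ↔ _
        rw [eD, eE]; rfl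
      unfold bdy2
      rw [run_ite]
      by_cases hc : din m l < n ∧ τ' aEc m 0 < din m l
      · rw [if_pos (ht.2 hc), run_put, eY, eD]
        show (∀ y, y < m → _) ∧ _ ∧ _
        have g : ∀ y, y < m → upd (upd τ' vW 0 0 l) aEc m (ev n A (upd τ' vW 0 0 l) .c0) (din m l)
            aEc y 0 = τ' aEc y 0 := by
          intro y hy
          rw [upd_ne' (by omega), upd_ne (by decide)]
        have g2 : upd (upd τ' vW 0 0 l) aEc m (ev n A (upd τ' vW 0 0 l) .c0) (din m l) aEc m 0
            = din m l := by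
          show upd (upd τ' vW 0 0 l) aEc m 0 (din m l) aEc m 0 = din m l
          simp
        refine ⟨?_, ?_, ?_⟩
        · intro y hy; rw [g y hy]; exact h1 y hy
        · intro w hw hwn
          rw [g2]
          by_cases hwl : w = l
          · rw [hwl]
          · have := h2 w (by omega) hwn; omega
        · rw [g2]; right; exact ⟨l, hl, hc.1, rfl⟩
      · rw [if_neg (fun h => hc (ht.1 h)), run_skip]
        have g : (upd τ' vW 0 0 l) aEc = τ' aEc := upd_ne (by decide) _ _ _
        rw [g]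
        refine ⟨h1, ?_, h3⟩
        intro w hw hwn
        by_cases hwl : w = l
        · subst hwl
          by_contra hcon
          exact hc ⟨hwn, by omega⟩
        · exact h2 w (by omega) hwn
    · rintro τ' _ ⟨h1, h2, h3⟩ y hy
      by_cases hym : y = m
      · subst hym; exact ⟨fun w hw => h2 w hw, h3⟩
      · exact h1 y (by omega)

end LDIN

theorem p_LDIN : T_LDIN := by
  intro n A σ b fst par din hn hB hF hP R
  have h1 := LDIN.loop1 (n := n) (A := A) σ b fst par din hB hF hP R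
  have h2 := LDIN.loop2 (n := n) (A := A) _ din h1
  have e : run n A cDin σ = run n A (.loop vY .n (Cm.seq (w1 aEc (s vY) .c0) (.loop vW .n LDIN.bdy2)))
      (run n A (.loop vY .n (.loop vW .n LDIN.bdy)) σ) := rfl
  rw [e]
  refine ⟨?_, h2⟩
  intro i j hi hj
  rw [run_frame _ _ aDin (by decide)]
  exact h1 i j hi hj

end Pool.Agent.BDC
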