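import Pool.Agent.BDC.TargetsL

/-!
# BDC: verification of the dynamic program
-/

namespace Pool.Agent.BDC

open N Prog

namespace LDP

/-! ## The pure part -/

lemma cc_down {P : ℕ → ℕ → ℕ → Prop} {u c j : ℕ} (h : CC P u c) (hj : j ≤ u) : CC P j c := by
  cases h with
  | zero =>
    have : j = 0 := by omega
    subst this
    exact CC.zero
  | cons h1 h2 h3 => exact CC.cons h1 h2 (le_trans hj h3)

/-- the table `S` is sound -/
structure Good (n : ℕ) (P : ℕ → ℕ → ℕ → Prop) (S : ℕ → ℕ) : Prop where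
  le : ∀ j, j ≤ n → S j ≤ n
  zero : S 0 = 0
  cc : ∀ j, j ≤ n → S j = n ∨ CC P j (S j)

/-- `D j` is the minimum of `S` on `[j, n]` -/
structure Suf (n : ℕ) (S D : ℕ → ℕ) : Prop where
  up : ∀ j u, j ≤ u → u ≤ n → D j ≤ S u
  ex : ∀ j, j ≤ n → ∃ u, j ≤ u ∧ u ≤ n ∧ S u ≤ D j

lemma Suf.mono {n : ℕ} {S D : ℕ → ℕ} (h : Suf n S D) {j j' : ℕ} (h1 : j ≤ j') (h2 : j' ≤ n) :
    D j ≤ D j' := by
  obtain ⟨u, hu1, hu2, hu3⟩ := h.ex j' h2
  exact (h.up j u (by omega) hu2).trans hu3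

lemma Suf.le {n : ℕ} {P : ℕ → ℕ → ℕ → Prop} {S D : ℕ → ℕ} (h : Suf n S D) (g : Good n P S)
    {j : ℕ} (h1 : j ≤ n) : D j ≤ n := (h.up j n h1 le_rfl).trans (g.le n le_rfl)

lemma Suf.cc {n : ℕ} {P : ℕ → ℕ → ℕ → Prop} {S D : ℕ → ℕ} (h : Suf n S D) (g : Good n P S)
    {j : ℕ} (h1 : j ≤ n) (h2 : D j < n) : CC P j (D j) := by
  obtain ⟨u, hu1, hu2, hu3⟩ := h.ex j h1
  have h4 := h.up j u hu1 hu2
  have h5 : S u = D j := by omega
  rcases g.cc u hu2 with h6 | h6
  · omega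
  · rw [h5] at h6
    exact cc_down h6 hu1

/-- one record step keeps the table sound -/
lemma Good.upd {n : ℕ} {P : ℕ → ℕ → ℕ → Prop} {S S1 D : ℕ → ℕ} (h : Suf n S1 D)
    (g1 : Good n P S1) (g : Good n P S) {l u q : ℕ}
    (hl : l ≤ n) (hP : P l u q) (hlt : D l + q < S u) :
    Good n P (fun j => if j = u then D l + q else S j) := by
  refine ⟨?_, ?_, ?_⟩
  · intro j hj
    split_ifs with h1
    · subst h1
      have := g.le j hj
      omega
    · exact g.le j hj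
  · split_ifs with h1
    · subst h1
      have := g.zero
      omega
    · exact g.zero
  · intro j hj
    split_ifs with h1
    · subst h1
      right
      have := g.le j hj
      exact CC.cons (h.cc g1 hl (by omega)) hP le_rfl
    · exact g.cc j hj

/-- sub-piece with centre `p` -/
def Pc (n : ℕ) (ds LZ UZ RZ : ℕ → ℕ → ℕ) (p l j r : ℕ) : Prop :=
  l ≤ p ∧ p < j ∧ j ≤ n ∧ ((1 ≤ r ∧ ∀ w, l ≤ w → w < j → ds p w ≤ r) ∨
    (∃ k, k < 2 ∧ 0 < r ∧ RZ k p = r ∧ LZ k p ≤ l ∧ j ≤ UZ k p))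

/-- completeness with respect to the centres below `m` -/
def Compl (n : ℕ) (U : ℕ → Prop) (ds LZ UZ RZ : ℕ → ℕ → ℕ) (m : ℕ) (D : ℕ → ℕ) : Prop :=
  ∀ p, p < m → U p → ∀ l j r c, Pc n ds LZ UZ RZ p l j r →
    SC (Sub n U ds LZ UZ RZ) l c → D j ≤ c + r

lemma Compl.le {n : ℕ} {U : ℕ → Prop} {ds LZ UZ RZ : ℕ → ℕ → ℕ} {m : ℕ} {D : ℕ → ℕ}
    (hZ : ∀ k p, k < 2 → p < n → U p → 0 < RZ k p → UZ k p ≤ n)
    (h : Compl n U ds LZ UZ RZ m D) (h0 : D 0 = 0) {j c : ℕ} (hj : j ≤ m)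
    (hc : SC (Sub n U ds LZ UZ RZ) j c) : D j ≤ c := by
  cases hc with
  | zero => omega
  | @cons l _ c r h1 h2 =>
    rcases h2 with ⟨p, h3, h4, h5, h6, h7, h8⟩ | ⟨p, k, h3, h4, h5, h6, h7, h8, h9, h10, h11⟩
    · exact h p (by omega) h3 l j r c ⟨h4, h5, h6, Or.inl ⟨h7, h8⟩⟩ h1
    · have := hZ k p h5 h4 h3 (by omega)
      exact h p (by omega) h3 l j r c ⟨h9, h10, by omega, Or.inr ⟨k, h5, h6, h7, h8, h11⟩⟩ h1

/-- the pure step of the completeness proof -/
lemma Compl.step {n : ℕ} {U : ℕ → Prop} {ds LZ UZ RZ : ℕ → ℕ → ℕ} {m : ℕ} {S D S' D' : ℕ → ℕ}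
    {P : ℕ → ℕ → ℕ → Prop}
    (hZ : ∀ k p, k < 2 → p < n → U p → 0 < RZ k p → UZ k p ≤ n)
    (h : Compl n U ds LZ UZ RZ m D) (hm : m < n) (g : Good n P S) (s : Suf n S D)
    (hS : ∀ j, j ≤ n → S' j ≤ S j) (s' : Suf n S' D')
    (h1 : ∀ r, 1 ≤ r → r ≤ n → ∃ l0 u0, l0 ≤ m ∧ m < u0 ∧ u0 ≤ n ∧
      (l0 = 0 ∨ r < ds m (l0 - 1)) ∧ (u0 = n ∨ r < ds m u0) ∧ S' u0 ≤ D l0 + r)
    (h2 : ∀ k, k < 2 → 0 < RZ k m → S' (UZ k m) ≤ D (LZ k m) + RZ k m) :
    Compl n U ds LZ UZ RZ (m + 1) D' := by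
  have hD0 : D 0 = 0 := by
    have := s.up 0 0 le_rfl (by omega)
    have := g.zero
    omega
  intro p hp hU l j r c hpc hc
  by_cases hpm : p < m
  · have h3 := h p hpm hU l j r c hpc hc
    obtain ⟨u, hu1, hu2, hu3⟩ := s.ex j hpc.2.2.1
    have h4 := s'.up j u hu1 hu2
    have h5 := hS u hu2
    omega
  · have : p = m := by omega
    subst this
    obtain ⟨a1, a2, a3, a4⟩ := hpc
    have hDl : D l ≤ c := h.le hZ hD0 a1 hc
    rcases a4 with ⟨a5, a6⟩ | ⟨k, a5, a6, a7, a8, a9⟩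
    · by_cases hr : r ≤ n
      · obtain ⟨l0, u0, b1, b2, b3, b4, b5, b6⟩ := h1 r a5 hr
        have c1 : l0 ≤ l := by
          by_contra hcon
          rcases b4 with b4 | b4
          · omega
          · have := a6 (l0 - 1) (by omega) (by omega)
            omega
        have c2 : j ≤ u0 := by
          by_contra hcon
          rcases b5 with b5 | b5
          · omega
          · have := a6 u0 (by omega) (by omega)
            omega
        have c3 := s'.up j u0 c2 b3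
        have c4 := s.mono c1 (by omega)
        omega
      · have c3 := s'.up j n a3 le_rfl
        have c4 := hS n le_rfl
        have c5 := g.le n le_rfl
        omega
    · have c0 := h2 k a5 (by omega)
      have c1 := s'.up j (UZ k p) a9 (hZ k p a5 hm hU (by omega))
      have c2 := s.mono a8 (by omega)
      omega

/-! ## Record step -/

/-- the effect of a record step -/
lemma run_cRec {n : ℕ} {A : ℕ → ℕ → ℕ} {l u e : Ex} {σ : Store} {lv uv q : ℕ}
    (hl : ev n A σ l = lv) (hu : ev n A σ u = uv) (hq : ev n A σ e = q)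
    (hb : σ aD lv 0 + q ≤ cap n) :
    run n A (cRec l u e) σ =
      if σ aD lv 0 + q < σ aS uv 0 then Pool.Agent.BDC.upd σ aS uv 0 (σ aD lv 0 + q) else σ := by
  have h1 : ev n A σ (Ex.add (r1 aD l) e) = σ aD lv 0 + q := by
    simp only [ev, hl, hq]
    exact min_eq_left hb
  have h2 : ev n A σ (r1 aS u) = σ aS uv 0 := by simp only [ev, hu]
  unfold cRec
  rw [run_ite]
  have h3 : tst n A σ (Bx.lt (Ex.add (r1 aD l) e) (r1 aS u)) ↔ σ aD lv 0 + q < σ aS uv 0 := by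
    show ev n A σ (Ex.add (r1 aD l) e) < ev n A σ (r1 aS u) ↔ _
    rw [h1, h2]
  by_cases h4 : σ aD lv 0 + q < σ aS uv 0
  · rw [if_pos (h3.2 h4), if_pos h4, run_put, h1]
    simp only [ev, hu]
  · rw [if_neg (fun h => h4 (h3.1 h)), if_neg h4]
    rfl

/-- summary of a record step -/
lemma rec_spec {n : ℕ} {A : ℕ → ℕ → ℕ} {P : ℕ → ℕ → ℕ → Prop} {l u e : Ex} {σ : Store}
    {lv uv q : ℕ} {S1 D : ℕ → ℕ}
    (hl : ev n A σ l = lv) (hu : ev n A σ u = uv) (hq : ev n A σ e = q)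
    (hb : D lv + q ≤ cap n) (hD : ∀ j, σ aD j 0 = D j) (s : Suf n S1 D) (g1 : Good n P S1)
    (g : Good n P (fun j => σ aS j 0)) (hln : lv ≤ n) (hP : P lv uv q) :
    Good n P (fun j => run n A (cRec l u e) σ aS j 0) ∧
    (∀ j, run n A (cRec l u e) σ aS j 0 ≤ σ aS j 0) ∧
    run n A (cRec l u e) σ aS uv 0 ≤ D lv + q ∧
    (∀ k, k ≠ aS → run n A (cRec l u e) σ k = σ k) := by
  rw [run_cRec hl hu hq (by rw [hD]; exact hb), hD]
  by_cases h : D lv + q < σ aS uv 0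
  · rw [if_pos h]
    have h1 : ∀ j, Pool.Agent.BDC.upd σ aS uv 0 (D lv + q) aS j 0 =
        if j = uv then D lv + q else σ aS j 0 := by
      intro j
      simp [Pool.Agent.BDC.upd]
    refine ⟨?_, ?_, ?_, ?_⟩
    · simp only [h1]
      exact Good.upd s g1 g hln hP h
    · intro j
      rw [h1]
      split_ifs with h2
      · subst h2; omega
      · exact le_rfl
    · rw [h1, if_pos rfl]
    · intro k hk
      exact upd_ne hk _ _ _
  · rw [if_neg h]
    exact ⟨g, fun j => le_rfl, by omega, fun k _ => rfl⟩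

/-! ## The pointer loop -/

/-- the body of the pointer loop -/
abbrev cPtr : Cm :=
  Cm.ite (Bx.and (Bx.lt .c0 (s vL)) (Bx.not (Bx.lt (s vQ) (r2 aDs (s vP) (Ex.sub (s vL) .c1)))))
    (w0 vL (Ex.sub (s vL) .c1))
    (Cm.ite (Bx.and (Bx.lt (s vU) .n) (Bx.not (Bx.lt (s vQ) (r2 aDs (s vP) (s vU)))))
      (w0 vU (Ex.add (s vU) .c1))
      (Cm.seq (cRec (s vL) (s vU) (s vQ)) (w0 vQ (Ex.add (s vQ) .c1))))

/-- the invariant of the pointer loop -/
def PI (n p : ℕ) (P : ℕ → ℕ → ℕ → Prop) (dp : ℕ → ℕ) (S0 D : ℕ → ℕ) (t : ℕ) (τ : Store) : Prop :=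
  ∃ l u q, τ vL 0 0 = l ∧ τ vU 0 0 = u ∧ τ vQ 0 0 = q ∧ l ≤ p ∧ p < u ∧ u ≤ n ∧ 1 ≤ q ∧
    u + q = t + 2 + l ∧ (∀ w, l ≤ w → w < u → dp w ≤ q) ∧ Good n P (fun j => τ aS j 0) ∧
    (∀ j, j ≤ n → τ aS j 0 ≤ S0 j) ∧
    ∀ r, 1 ≤ r → r < q → ∃ l0 u0, l0 ≤ p ∧ p < u0 ∧ u0 ≤ n ∧ (l0 = 0 ∨ r < dp (l0 - 1)) ∧
      (u0 = n ∨ r < dp u0) ∧ τ aS u0 0 ≤ D l0 + r

lemma ptr_step {n : ℕ} {A : ℕ → ℕ → ℕ} {P : ℕ → ℕ → ℕ → Prop} {dp S0 D : ℕ → ℕ} {p t : ℕ}
    {τ : Store} (hp : τ vP 0 0 = p) (hD : ∀ j, τ aD j 0 = D j)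
    (hds : ∀ w, w < n → τ aDs p w = dp w) (ht : t < 2 * n) (s0 : Suf n S0 D) (g0 : Good n P S0)
    (hP : ∀ l u r, l ≤ p → p < u → u ≤ n → 1 ≤ r → (∀ w, l ≤ w → w < u → dp w ≤ r) → P l u r)
    (h : PI n p P dp S0 D t τ) :
    PI n p P dp S0 D (t + 1) (run n A cPtr τ) := by
  obtain ⟨l, u, q, hl, hu, hq, a1, a2, a3, a4, a5, a6, a7, a8, a9⟩ := h
  have c1 : tst n A τ (Bx.and (Bx.lt .c0 (s vL)) (Bx.not (Bx.lt (s vQ) (r2 aDs (s vP) (Ex.sub (s vL) .c1))))) ↔
      (0 < l ∧ dp (l - 1) ≤ q) := by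
    by_cases h0 : 0 < l
    · simp only [tst, ev, hl, hq, hp, hds (l - 1) (by omega)]
      omega
    · simp only [tst, ev, hl]
      tauto
  have c2 : tst n A τ (Bx.and (Bx.lt (s vU) .n) (Bx.not (Bx.lt (s vQ) (r2 aDs (s vP) (s vU))))) ↔
      (u < n ∧ dp u ≤ q) := by
    by_cases h0 : u < n
    · simp only [tst, ev, hu, hq, hp, hds u h0]
      omega
    · simp only [tst, ev, hu]
      tauto
  unfold cPtr
  by_cases h1 : 0 < l ∧ dp (l - 1) ≤ q
  · rw [run_ite_pos (c1.2 h1), run_put]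
    simp only [ev, hl]
    refine ⟨l - 1, u, q, ?_, ?_, ?_, by omega, a2, a3, a4, by omega, ?_, ?_, ?_, ?_⟩
    · simp [Pool.Agent.BDC.upd]
    · simpa [Pool.Agent.BDC.upd] using hu
    · simpa [Pool.Agent.BDC.upd] using hq
    · intro w hw1 hw2
      by_cases hw : w = l - 1
      · rw [hw]; exact h1.2
      · exact a6 w (by omega) hw2
    · simpa [Pool.Agent.BDC.upd] using a7
    · simpa [Pool.Agent.BDC.upd] using a8
    · simpa [Pool.Agent.BDC.upd] using a9
  · rw [run_ite_neg (fun h => h1 (c1.1 h))]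
    by_cases h2 : u < n ∧ dp u ≤ q
    · rw [run_ite_pos (c2.2 h2), run_put]
      simp only [ev, hu]
      rw [min_eq_left (by unfold cap; omega)]
      refine ⟨l, u + 1, q, ?_, ?_, ?_, a1, by omega, by omega, a4, by omega, ?_, ?_, ?_, ?_⟩
      · simpa [Pool.Agent.BDC.upd] using hl
      · simp [Pool.Agent.BDC.upd]
      · simpa [Pool.Agent.BDC.upd] using hq
      · intro w hw1 hw2
        by_cases hw : w = u
        · rw [hw]; exact h2.2
        · exact a6 w hw1 (by omega)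
      · simpa [Pool.Agent.BDC.upd] using a7
      · simpa [Pool.Agent.BDC.upd] using a8
      · simpa [Pool.Agent.BDC.upd] using a9
    · rw [run_ite_neg (fun h => h2 (c2.1 h)), run_seq, run_put]
      have hDl : D l ≤ n := s0.le g0 (by omega)
      obtain ⟨b1, b2, b3, b4⟩ := rec_spec (A := A) (l := s vL) (u := s vU) (e := s vQ) (σ := τ)
        (lv := l) (uv := u) (q := q) (S1 := S0) (D := D) (by simp only [ev, hl])
        (by simp only [ev, hu]) (by simp only [ev, hq]) (by unfold cap; omega) hD s0 g0 a7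
        (by omega) (hP l u q a1 a2 a3 a4 a6)
      set τ' := run n A (cRec (s vL) (s vU) (s vQ)) τ with hτ'
      have d1 : τ' vL 0 0 = l := by rw [b4 vL (by decide)]; exact hl
      have d2 : τ' vU 0 0 = u := by rw [b4 vU (by decide)]; exact hu
      have d3 : τ' vQ 0 0 = q := by rw [b4 vQ (by decide)]; exact hq
      simp only [ev, d3]
      rw [min_eq_left (by unfold cap; omega)]
      refine ⟨l, u, q + 1, ?_, ?_, ?_, a1, a2, a3, by omega, by omega, ?_, ?_, ?_, ?_⟩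
      · simpa [Pool.Agent.BDC.upd] using d1
      · simpa [Pool.Agent.BDC.upd] using d2
      · simp [Pool.Agent.BDC.upd]
      · intro w hw1 hw2
        have := a6 w hw1 hw2
        omega
      · simpa [Pool.Agent.BDC.upd] using b1
      · intro j hj
        have e1 := b2 j
        have e2 := a8 j hj
        have e3 : Pool.Agent.BDC.upd τ' vQ 0 0 (q + 1) aS j 0 = τ' aS j 0 := by
          simp [Pool.Agent.BDC.upd]
        rw [e3]
        omega
      · intro r hr1 hr2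
        by_cases hr : r = q
        · subst hr
          refine ⟨l, u, a1, a2, a3, by omega, by omega, ?_⟩
          have e3 : Pool.Agent.BDC.upd τ' vQ 0 0 (r + 1) aS u 0 = τ' aS u 0 := by
            simp [Pool.Agent.BDC.upd]
          rw [e3]
          exact b3
        · obtain ⟨l0, u0, f1, f2, f3, f4, f5, f6⟩ := a9 r hr1 (by omega)
          refine ⟨l0, u0, f1, f2, f3, f4, f5, ?_⟩
          have e1 := b2 u0
          have e3 : Pool.Agent.BDC.upd τ' vQ 0 0 (q + 1) aS u0 0 = τ' aS u0 0 := by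
            simp [Pool.Agent.BDC.upd]
          rw [e3]
          omega

lemma ptr_spec {n : ℕ} {A : ℕ → ℕ → ℕ} {P : ℕ → ℕ → ℕ → Prop} {dp D : ℕ → ℕ} {p : ℕ}
    {σ : Store} (hp : σ vP 0 0 = p) (hpn : p < n) (hD : ∀ j, σ aD j 0 = D j)
    (hds : ∀ w, w < n → σ aDs p w = dp w) (hdp : dp p = 0)
    (s0 : Suf n (fun j => σ aS j 0) D) (g0 : Good n P (fun j => σ aS j 0))
    (hP : ∀ l u r, l ≤ p → p < u → u ≤ n → 1 ≤ r → (∀ w, l ≤ w → w < u → dp w ≤ r) → P l u r)
    (hL : σ vL 0 0 = p) (hU : σ vU 0 0 = p + 1) (hQ : σ vQ 0 0 = 1) :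
    Good n P (fun j => run n A (.loop vT (Ex.add .n .n) cPtr) σ aS j 0) ∧
    (∀ j, j ≤ n → run n A (.loop vT (Ex.add .n .n) cPtr) σ aS j 0 ≤ σ aS j 0) ∧
    ∀ r, 1 ≤ r → r ≤ n → ∃ l0 u0, l0 ≤ p ∧ p < u0 ∧ u0 ≤ n ∧ (l0 = 0 ∨ r < dp (l0 - 1)) ∧
      (u0 = n ∨ r < dp u0) ∧ run n A (.loop vT (Ex.add .n .n) cPtr) σ aS u0 0 ≤ D l0 + r := by
  have hev : ev n A σ (Ex.add .n .n) = 2 * n := by
    simp only [ev]
    rw [min_eq_left (by unfold cap; omega)]
    omega
  refine loop_post (Q := fun τ => Good n P (fun j => τ aS j 0) ∧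
    (∀ j, j ≤ n → τ aS j 0 ≤ σ aS j 0) ∧
    ∀ r, 1 ≤ r → r ≤ n → ∃ l0 u0, l0 ≤ p ∧ p < u0 ∧ u0 ≤ n ∧ (l0 = 0 ∨ r < dp (l0 - 1)) ∧
      (u0 = n ∨ r < dp u0) ∧ τ aS u0 0 ≤ D l0 + r)
    (fun t τ => PI n p P dp (fun j => σ aS j 0) D t τ) ?_ ?_ ?_
  · refine ⟨p, p + 1, 1, hL, hU, hQ, le_rfl, by omega, by omega, le_rfl, by omega, ?_, g0,
      fun j _ => le_rfl, ?_⟩
    · intro w h1 h2
      have : w = p := by omega
      rw [this, hdp]
      omega
    · intro r h1 h2; omega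
  · intro t ht τ hf h
    rw [hev] at ht
    refine ptr_step ?_ ?_ ?_ ht s0 g0 hP ?_
    · rw [upd_ne (by decide), hf vP (by decide)]; exact hp
    · intro j; rw [upd_ne (by decide), hf aD (by decide)]; exact hD j
    · intro w hw; rw [upd_ne (by decide), hf aDs (by decide)]; exact hds w hw
    · simpa [PI, Pool.Agent.BDC.upd] using h
  · rintro τ hf ⟨l, u, q, hl, hu, hq, a1, a2, a3, a4, a5, a6, a7, a8, a9⟩
    rw [hev] at a5
    exact ⟨a7, a8, fun r h1 h2 => a9 r h1 (by omega)⟩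

/-! ## The suffix minima -/

/-- the body of the last loop -/
abbrev cMin : Cm :=
  Cm.seq (w0 vJ (Ex.sub .n (s vI)))
  (Cm.seq (whn (Bx.lt (r1 aS (s vJ)) (s vM)) (w0 vM (r1 aS (s vJ))))
  (w1 aD (s vJ) (s vM)))

lemma min_spec {n : ℕ} {A : ℕ → ℕ → ℕ} {P : ℕ → ℕ → ℕ → Prop} {σ : Store}
    (g : Good n P (fun j => σ aS j 0)) (hM : σ vM 0 0 = n) :
    Suf n (fun j => σ aS j 0) (fun j => run n A (.loop vI (Ex.add .n .c1) cMin) σ aD j 0) := by
  have hev : ev n A σ (Ex.add .n .c1) = n + 1 := by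
    simp only [ev]
    rw [min_eq_left (by unfold cap; omega)]
  refine loop_post (Q := fun τ => Suf n (fun j => σ aS j 0) (fun j => τ aD j 0))
    (fun i τ => (∀ u, n < u + i → u ≤ n → τ vM 0 0 ≤ σ aS u 0) ∧
      (τ vM 0 0 = n ∨ ∃ u, n < u + i ∧ u ≤ n ∧ σ aS u 0 ≤ τ vM 0 0) ∧
      (∀ j u, n < j + i → j ≤ u → u ≤ n → τ aD j 0 ≤ σ aS u 0) ∧
      (∀ j, n < j + i → j ≤ n → ∃ u, j ≤ u ∧ u ≤ n ∧ σ aS u 0 ≤ τ aD j 0)) ?_ ?_ ?_
  · refine ⟨?_, Or.inl hM, ?_, ?_⟩
    · intro u h1 h2; omega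
    · intro j u h1 h2 h3; omega
    · intro j h1 h2; omega
  · intro i hi τ hf h
    rw [hev] at hi
    obtain ⟨a1, a2, a3, a4⟩ := h
    have hS : τ aS = σ aS := hf aS (by decide)
    have hgn : σ aS (n - i) 0 ≤ n := g.le (n - i) (by omega)
    -- the new minimum
    have key : run n A cMin (upd τ vI 0 0 i) =
        upd (if σ aS (n - i) 0 < τ vM 0 0 then
            upd (upd (upd τ vI 0 0 i) vJ 0 0 (n - i)) vM 0 0 (σ aS (n - i) 0)
          else upd (upd τ vI 0 0 i) vJ 0 0 (n - i)) aD (n - i) 0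
          (min (σ aS (n - i) 0) (τ vM 0 0)) := by
      unfold cMin
      rw [run_seq, run_put, run_seq, run_ite]
      have e0 : ev n A (upd τ vI 0 0 i) (Ex.sub .n (s vI)) = n - i := by
        simp [ev, Pool.Agent.BDC.upd]
      rw [e0]
      have e00 : ev n A (upd τ vI 0 0 i) .c0 = 0 := rfl
      rw [e00]
      set τ1 := upd (upd τ vI 0 0 i) vJ 0 0 (n - i) with hτ1
      have e1 : tst n A τ1 (Bx.lt (r1 aS (s vJ)) (s vM)) ↔ σ aS (n - i) 0 < τ vM 0 0 := by
        simp [tst, ev, hτ1, Pool.Agent.BDC.upd, ← hS]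
      have e2 : τ1 vJ 0 0 = n - i := by simp [hτ1]
      have e3 : τ1 aS = σ aS := by
        rw [← hS, hτ1, upd_ne (by decide), upd_ne (by decide)]
      have e4 : τ1 vM 0 0 = τ vM 0 0 := by
        rw [hτ1, upd_ne (by decide), upd_ne (by decide)]
      by_cases h1 : σ aS (n - i) 0 < τ vM 0 0
      · rw [if_pos (e1.2 h1), if_pos h1, run_put, run_put]
        have e5 : ev n A τ1 (r1 aS (s vJ)) = σ aS (n - i) 0 := by
          simp only [ev, e2, e3]
        rw [e5]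
        have e6 : ev n A τ1 .c0 = 0 := rfl
        rw [e6]
        set τ2 := upd τ1 vM 0 0 (σ aS (n - i) 0) with hτ2
        have e7 : ev n A τ2 (s vJ) = n - i := by
          simp only [ev, hτ2]
          rw [upd_ne (by decide)]
          exact e2
        have e8 : ev n A τ2 (s vM) = σ aS (n - i) 0 := by
          simp only [ev, hτ2, upd_same]
        have e9 : ev n A τ2 .c0 = 0 := rfl
        rw [e7, e8, e9, min_eq_left h1.le]
      · rw [if_neg (fun h => h1 (e1.1 h)), if_neg h1, run_skip, run_put]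
        have e7 : ev n A τ1 (s vJ) = n - i := by
          simp only [ev, e2]
        have e8 : ev n A τ1 (s vM) = τ vM 0 0 := by
          simp only [ev, e4]
        have e9 : ev n A τ1 .c0 = 0 := rfl
        rw [e7, e8, e9, min_eq_right (by omega)]
    rw [key]
    set μ := min (σ aS (n - i) 0) (τ vM 0 0) with hμ
    set τ3 := upd (if σ aS (n - i) 0 < τ vM 0 0 then
            upd (upd (upd τ vI 0 0 i) vJ 0 0 (n - i)) vM 0 0 (σ aS (n - i) 0)
          else upd (upd τ vI 0 0 i) vJ 0 0 (n - i)) aD (n - i) 0 μ with hτ3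
    have f1 : τ3 vM 0 0 = μ := by
      rw [hτ3, upd_ne (by decide)]
      by_cases h1 : σ aS (n - i) 0 < τ vM 0 0
      · rw [if_pos h1, upd_same, hμ, min_eq_left h1.le]
      · rw [if_neg h1, upd_ne (by decide), upd_ne (by decide), hμ, min_eq_right (by omega)]
    have f2 : ∀ j, τ3 aD j 0 = if j = n - i then μ else τ aD j 0 := by
      intro j
      rw [hτ3]
      by_cases h1 : σ aS (n - i) 0 < τ vM 0 0
      · rw [if_pos h1]; simp [Pool.Agent.BDC.upd]
      · rw [if_neg h1]; simp [Pool.Agent.BDC.upd]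
    have f3 : μ ≤ σ aS (n - i) 0 := min_le_left _ _
    have f4 : μ ≤ τ vM 0 0 := min_le_right _ _
    have f5 : ∃ u, n - i ≤ u ∧ u ≤ n ∧ σ aS u 0 ≤ μ := by
      by_cases h1 : σ aS (n - i) 0 < τ vM 0 0
      · exact ⟨n - i, le_rfl, by omega, by rw [hμ, min_eq_left h1.le]⟩
      · have hμ2 : μ = τ vM 0 0 := by rw [hμ, min_eq_right (by omega)]
        rcases a2 with a2 | ⟨u, b1, b2, b3⟩
        · exact ⟨n - i, le_rfl, by omega, by rw [hμ2, a2]; exact hgn⟩
        · exact ⟨u, by omega, b2, by rw [hμ2]; exact b3⟩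
    refine ⟨?_, ?_, ?_, ?_⟩
    · intro u h1 h2
      rw [f1]
      by_cases h3 : u = n - i
      · rw [h3]; exact f3
      · exact f4.trans (a1 u (by omega) h2)
    · right
      obtain ⟨u, b1, b2, b3⟩ := f5
      exact ⟨u, by omega, b2, by rw [f1]; exact b3⟩
    · intro j u h1 h2 h3
      rw [f2]
      split_ifs with h4
      · subst h4
        by_cases h5 : u = n - i
        · rw [h5]; exact f3
        · exact f4.trans (a1 u (by omega) h3)
      · exact a3 j u (by omega) h2 h3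
    · intro j h1 h2
      rw [f2]
      split_ifs with h4
      · subst h4
        exact f5
      · exact a4 j (by omega) h2
  · intro τ hf h
    rw [hev] at h
    exact ⟨fun j u h1 h2 => h.2.2.1 j u (by omega) h1 h2, fun j h1 => h.2.2.2 j (by omega) h1⟩

/-! ## The candidates -/

/-- record the interval of the candidate `kE` -/
abbrev cCand (kE : Ex) : Cm :=
  whn (Bx.lt .c0 (r2 aRZ kE (s vP))) (
      cRec (r2 aLZ kE (s vP)) (r2 aUZ kE (s vP)) (r2 aRZ kE (s vP)))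

lemma cand_spec {n : ℕ} {A : ℕ → ℕ → ℕ} {P : ℕ → ℕ → ℕ → Prop} {D S1 : ℕ → ℕ} {p k : ℕ}
    {kE : Ex} {σ : Store} {lz uz rz : ℕ} (hk : ∀ τ, ev n A τ kE = k) (hp : σ vP 0 0 = p)
    (hD : ∀ j, σ aD j 0 = D j) (s1 : Suf n S1 D) (g1 : Good n P S1)
    (g : Good n P (fun j => σ aS j 0))
    (hlz : σ aLZ k p = lz) (huz : σ aUZ k p = uz) (hrz : σ aRZ k p = rz)
    (hP : 0 < rz → P lz uz rz) (hln : 0 < rz → lz ≤ n ∧ rz ≤ n) :
    Good n P (fun j => run n A (cCand kE) σ aS j 0) ∧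
    (∀ j, run n A (cCand kE) σ aS j 0 ≤ σ aS j 0) ∧
    (0 < rz → run n A (cCand kE) σ aS uz 0 ≤ D lz + rz) ∧
    (∀ k, k ≠ aS → run n A (cCand kE) σ k = σ k) := by
  have h1 : ev n A σ (r2 aRZ kE (s vP)) = rz := by simp only [ev, hk, hp, hrz]
  have h2 : ev n A σ (r2 aLZ kE (s vP)) = lz := by simp only [ev, hk, hp, hlz]
  have h3 : ev n A σ (r2 aUZ kE (s vP)) = uz := by simp only [ev, hk, hp, huz]
  have h4 : tst n A σ (Bx.lt .c0 (r2 aRZ kE (s vP))) ↔ 0 < rz := by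
    show ev n A σ .c0 < ev n A σ (r2 aRZ kE (s vP)) ↔ _
    rw [h1]
    rfl
  unfold cCand
  rw [run_ite]
  by_cases h : 0 < rz
  · rw [if_pos (h4.2 h)]
    have hDl : D lz ≤ n := s1.le g1 (hln h).1
    have := (hln h).2
    obtain ⟨b1, b2, b3, b4⟩ := rec_spec h2 h3 h1 (by unfold cap; omega) hD s1 g1 g (hln h).1 (hP h)
    exact ⟨b1, b2, fun _ => b3, b4⟩
  · rw [if_neg (fun h' => h (h4.1 h'))]
    exact ⟨g, fun j => le_rfl, fun h' => absurd h' h, fun k _ => rfl⟩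

/-! ## The body of the main loop -/

/-- the body for a path vertex -/
abbrev cBody : Cm :=
  Cm.seq (w0 vL (s vP)) (Cm.seq (w0 vU (Ex.add (s vP) .c1)) (Cm.seq (w0 vQ .c1)
  (Cm.seq (.loop vT (Ex.add .n .n) cPtr) (Cm.seq (cCand .c0) (Cm.seq (cCand .c1) (Cm.seq (w0 vM .n)
  (.loop vI (Ex.add .n .c1) cMin)))))))

lemma body_spec {n : ℕ} {A : ℕ → ℕ → ℕ} {P : ℕ → ℕ → ℕ → Prop} {dp D : ℕ → ℕ} {p : ℕ}
    {lz uz rz : ℕ → ℕ}
    {σ : Store} (hp : σ vP 0 0 = p) (hpn : p < n) (hD : ∀ j, σ aD j 0 = D j)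
    (hds : ∀ w, w < n → σ aDs p w = dp w) (hdp : dp p = 0)
    (s0 : Suf n (fun j => σ aS j 0) D) (g0 : Good n P (fun j => σ aS j 0))
    (hP : ∀ l u r, l ≤ p → p < u → u ≤ n → 1 ≤ r → (∀ w, l ≤ w → w < u → dp w ≤ r) → P l u r)
    (hlz : ∀ k, k < 2 → σ aLZ k p = lz k) (huz : ∀ k, k < 2 → σ aUZ k p = uz k)
    (hrz : ∀ k, k < 2 → σ aRZ k p = rz k)
    (hP2 : ∀ k, k < 2 → 0 < rz k → P (lz k) (uz k) (rz k) ∧ lz k ≤ n ∧ uz k ≤ n ∧ rz k ≤ n) :
    Good n P (fun j => run n A cBody σ aS j 0) ∧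
    Suf n (fun j => run n A cBody σ aS j 0) (fun j => run n A cBody σ aD j 0) ∧
    (∀ j, j ≤ n → run n A cBody σ aS j 0 ≤ σ aS j 0) ∧
    (∀ r, 1 ≤ r → r ≤ n → ∃ l0 u0, l0 ≤ p ∧ p < u0 ∧ u0 ≤ n ∧ (l0 = 0 ∨ r < dp (l0 - 1)) ∧
      (u0 = n ∨ r < dp u0) ∧ run n A cBody σ aS u0 0 ≤ D l0 + r) ∧
    (∀ k, k < 2 → 0 < rz k → run n A cBody σ aS (uz k) 0 ≤ D (lz k) + rz k) := by
  unfold cBody
  rw [run_seq, run_put, run_seq, run_put, run_seq, run_put, run_seq, run_seq, run_seq, run_seq,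
    run_put]
  -- the initialisation
  have e0 : ∀ τ, ev n A τ .c0 = 0 := fun _ => rfl
  have e1 : ∀ τ, ev n A τ .c1 = 1 := fun _ => rfl
  have en : ∀ τ, ev n A τ .n = n := fun _ => rfl
  have e2 : ev n A σ (s vP) = p := by simp only [ev, hp]
  simp only [e0, e1, en, e2]
  have e3 : ev n A (upd σ vL 0 0 p) (Ex.add (s vP) .c1) = p + 1 := by
    have : upd σ vL 0 0 p vP 0 0 = p := by rw [upd_ne (by decide)]; exact hp
    simp only [ev, this]
    exact min_eq_left (by unfold cap; omega)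
  rw [e3]
  set σ1 := upd (upd (upd σ vL 0 0 p) vU 0 0 (p + 1)) vQ 0 0 1 with hσ1
  have fr : ∀ k, k ≠ vL → k ≠ vU → k ≠ vQ → σ1 k = σ k := by
    intro k h1 h2 h3
    rw [hσ1, upd_ne h3, upd_ne h2, upd_ne h1]
  have fS : σ1 aS = σ aS := fr aS (by decide) (by decide) (by decide)
  obtain ⟨a1, a2, a3⟩ := ptr_spec (A := A) (P := P) (dp := dp) (D := D) (p := p) (σ := σ1)
    (by rw [fr vP (by decide) (by decide) (by decide)]; exact hp) hpn
    (by intro j; rw [fr aD (by decide) (by decide) (by decide)]; exact hD j)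
    (by intro w hw; rw [fr aDs (by decide) (by decide) (by decide)]; exact hds w hw) hdp
    (by rw [fS]; exact s0) (by rw [fS]; exact g0) hP
    (by rw [hσ1, upd_ne (by decide), upd_ne (by decide), upd_same])
    (by rw [hσ1, upd_ne (by decide), upd_same])
    (by rw [hσ1, upd_same])
  set σ2 := run n A (.loop vT (Ex.add .n .n) cPtr) σ1 with hσ2
  have fr2 : ∀ k, k ∉ mods (.loop vT (Ex.add .n .n) cPtr) → σ2 k = σ1 k := fun k hk =>
    run_frame _ _ _ hk
  have hfr2 : ∀ k, k ≠ vL → k ≠ vU → k ≠ vQ → k ∉ mods (.loop vT (Ex.add .n .n) cPtr) →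
      σ2 k = σ k := fun k h1 h2 h3 h4 => (fr2 k h4).trans (fr k h1 h2 h3)
  have g2 : σ2 vP 0 0 = p := by
    rw [hfr2 vP (by decide) (by decide) (by decide) (by decide)]; exact hp
  have g3 : ∀ j, σ2 aD j 0 = D j := by
    intro j; rw [hfr2 aD (by decide) (by decide) (by decide) (by decide)]; exact hD j
  obtain ⟨b1, b2, b3, b4⟩ := cand_spec (A := A) (P := P) (D := D) (S1 := fun j => σ aS j 0)
    (p := p) (k := 0) (kE := .c0) (σ := σ2) (lz := lz 0) (uz := uz 0) (rz := rz 0)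
    e0 g2 g3 s0 g0 a1
    (by rw [hfr2 aLZ (by decide) (by decide) (by decide) (by decide)]; exact hlz 0 (by omega))
    (by rw [hfr2 aUZ (by decide) (by decide) (by decide) (by decide)]; exact huz 0 (by omega))
    (by rw [hfr2 aRZ (by decide) (by decide) (by decide) (by decide)]; exact hrz 0 (by omega))
    (fun h => (hP2 0 (by omega) h).1)
    (fun h => ⟨(hP2 0 (by omega) h).2.1, (hP2 0 (by omega) h).2.2.2⟩)
  set σ3 := run n A (cCand .c0) σ2 with hσ3
  obtain ⟨c1, c2, c3, c4⟩ := cand_spec (A := A) (P := P) (D := D) (S1 := fun j => σ aS j 0)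
    (p := p) (k := 1) (kE := .c1) (σ := σ3) (lz := lz 1) (uz := uz 1) (rz := rz 1)
    e1 (by rw [b4 vP (by decide)]; exact g2) (by intro j; rw [b4 aD (by decide)]; exact g3 j)
    s0 g0 b1
    (by rw [b4 aLZ (by decide), hfr2 aLZ (by decide) (by decide) (by decide) (by decide)]
        exact hlz 1 (by omega))
    (by rw [b4 aUZ (by decide), hfr2 aUZ (by decide) (by decide) (by decide) (by decide)]
        exact huz 1 (by omega))
    (by rw [b4 aRZ (by decide), hfr2 aRZ (by decide) (by decide) (by decide) (by decide)]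
        exact hrz 1 (by omega))
    (fun h => (hP2 1 (by omega) h).1)
    (fun h => ⟨(hP2 1 (by omega) h).2.1, (hP2 1 (by omega) h).2.2.2⟩)
  set σ4 := run n A (cCand .c1) σ3 with hσ4
  have fS5 : upd σ4 vM 0 0 n aS = σ4 aS := upd_ne (by decide) _ _ _
  have m1 := min_spec (n := n) (A := A) (P := P) (σ := upd σ4 vM 0 0 n)
    (by rw [fS5]; exact c1) (by rw [upd_same])
  rw [fS5] at m1
  have fS6 : run n A (.loop vI (Ex.add .n .c1) cMin) (upd σ4 vM 0 0 n) aS = σ4 aS := by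
    rw [run_frame _ _ aS (by decide), fS5]
  rw [fS6]
  have t1 : ∀ j, j ≤ n → σ4 aS j 0 ≤ σ2 aS j 0 := fun j _ => (c2 j).trans (b2 j)
  refine ⟨c1, m1, ?_, ?_, ?_⟩
  · intro j hj
    have h1 := t1 j hj
    have h2 := a2 j hj
    rw [fS] at h2
    exact h1.trans h2
  · intro r h1 h2
    obtain ⟨l0, u0, d1, d2, d3, d4, d5, d6⟩ := a3 r h1 h2
    exact ⟨l0, u0, d1, d2, d3, d4, d5, (t1 u0 d3).trans d6⟩
  · intro k hk hr
    have : k = 0 ∨ k = 1 := by omega
    rcases this with rfl | rfl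
    · exact (c2 _).trans (b3 hr)
    · exact c3 hr

/-- the initialisation of the tables -/
lemma init_spec {n : ℕ} {A : ℕ → ℕ → ℕ} {σ : Store} (hn : 1 ≤ n) :
    ∀ j, j ≤ n →
      run n A (.loop vJ (Ex.add .n .c1) (Cm.seq (w1 aS (s vJ) .n) (w1 aD (s vJ) .n))) σ aS j 0 = n ∧
      run n A (.loop vJ (Ex.add .n .c1) (Cm.seq (w1 aS (s vJ) .n) (w1 aD (s vJ) .n))) σ aD j 0 = n := by
  have hev : ev n A σ (Ex.add .n .c1) = n + 1 := by
    simp only [ev]
    rw [min_eq_left (by unfold cap; omega)]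
  refine loop_post (Q := fun τ => ∀ j, j ≤ n → τ aS j 0 = n ∧ τ aD j 0 = n)
    (fun i τ => ∀ j, j < i → τ aS j 0 = n ∧ τ aD j 0 = n) ?_ ?_ ?_
  · intro j hj; omega
  · intro i hi τ hf h j hj
    by_cases h1 : j = i
    · subst h1
      simp [ev, Pool.Agent.BDC.upd]
    · have := h j (by omega)
      simpa [ev, Pool.Agent.BDC.upd, h1] using this
  · intro τ hf h j hj
    rw [hev] at h
    exact h j (by omega)

end LDP

open LDP in
theorem p_LDP : T_LDP := by
  intro n A σ U ds LZ UZ RZ hn hU hU0 hUn hds hdd hZ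
  set P := Cov n U ds LZ UZ RZ with hPdef
  have hZn : ∀ k p, k < 2 → p < n → U p → 0 < RZ k p → UZ k p ≤ n :=
    fun k p h1 h2 h3 h4 => ((hZ k p h1 h2 h3).2.2.2 h4).2.2.1
  have main : Good n P (fun j => run n A cDp σ aS j 0) ∧
      Suf n (fun j => run n A cDp σ aS j 0) (fun j => run n A cDp σ aD j 0) ∧
      Compl n U ds LZ UZ RZ n (fun j => run n A cDp σ aD j 0) := by
    unfold cDp
    rw [run_seq, run_seq, run_seq, run_put, run_put]
    set σ1 := run n A (.loop vJ (Ex.add .n .c1) (Cm.seq (w1 aS (s vJ) .n) (w1 aD (s vJ) .n))) σ with hσ1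
    have i1 := init_spec (n := n) (A := A) (σ := σ) hn
    rw [← hσ1] at i1
    have fr1 : ∀ k, k ≠ vJ → k ≠ aS → k ≠ aD → σ1 k = σ k := by
      intro k h1 h2 h3
      rw [hσ1]
      refine run_frame _ _ _ ?_
      simp only [mods, List.cons_append, List.nil_append, List.mem_cons, List.not_mem_nil,
        or_false, not_or]
      exact ⟨h1, h2, h3⟩
    simp only [ev]
    set σ2 := upd (upd σ1 aS 0 0 0) aD 0 0 0 with hσ2
    have fr2 : ∀ k, k ≠ vJ → k ≠ aS → k ≠ aD → σ2 k = σ k := by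
      intro k h1 h2 h3
      rw [hσ2, upd_ne h3, upd_ne h2, fr1 k h1 h2 h3]
    have i2 : ∀ j, j ≤ n → σ2 aS j 0 = (if j = 0 then 0 else n) ∧
        σ2 aD j 0 = (if j = 0 then 0 else n) := by
      intro j hj
      rw [hσ2]
      by_cases h0 : j = 0
      · subst h0; simp [Pool.Agent.BDC.upd]
      · simpa [Pool.Agent.BDC.upd, h0] using i1 j hj
    refine loop_post (Q := fun τ => Good n P (fun j => τ aS j 0) ∧
        Suf n (fun j => τ aS j 0) (fun j => τ aD j 0) ∧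
        Compl n U ds LZ UZ RZ n (fun j => τ aD j 0))
      (fun m τ => Good n P (fun j => τ aS j 0) ∧
        Suf n (fun j => τ aS j 0) (fun j => τ aD j 0) ∧
        Compl n U ds LZ UZ RZ m (fun j => τ aD j 0)) ?_ ?_ (fun τ _ h => h)
    · refine ⟨⟨?_, ?_, ?_⟩, ⟨?_, ?_⟩, ?_⟩
      · intro j hj
        rw [(i2 j hj).1]
        split_ifs <;> omega
      · rw [(i2 0 (by omega)).1, if_pos rfl]
      · intro j hj
        rw [(i2 j hj).1]
        split_ifs with h0
        · right; rw [h0]; exact CC.zero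
        · left; rfl
      · intro j u h1 h2
        rw [(i2 j (by omega)).2, (i2 u h2).1]
        split_ifs <;> omega
      · intro j hj
        refine ⟨j, le_rfl, hj, ?_⟩
        rw [(i2 j hj).2, (i2 j hj).1]
      · intro p hp; omega
    · intro m hm τ hf h
      replace hm : m < n := hm
      obtain ⟨g, sf, cm⟩ := h
      set τ1 := upd τ vP 0 0 m with hτ1
      have q1 : ∀ k, k ≠ vP → τ1 k = τ k := fun k hk => upd_ne hk _ _ _
      have q2 : τ1 vP 0 0 = m := by rw [hτ1, upd_same]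
      have ftU : τ1 aU m 0 = σ aU m 0 := by
        rw [q1 aU (by decide), hf aU (by decide), fr2 aU (by decide) (by decide) (by decide)]
      have c1 : tst n A τ1 (Bx.eq (r1 aU (s vP)) .c1) ↔ σ aU m 0 = 1 := by
        show ev n A τ1 (r1 aU (s vP)) = 1 ↔ _
        have : ev n A τ1 (r1 aU (s vP)) = τ1 aU m 0 := by simp only [ev, q2]
        rw [this, ftU]
      rw [run_ite]
      by_cases hUm : U m
      · rw [if_pos (c1.2 ((hU m hm).1 hUm))]
        have gS : τ1 aS = τ aS := q1 aS (by decide)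
        have gD : τ1 aD = τ aD := q1 aD (by decide)
        have fz : ∀ k', k' ∈ [aDs, aLZ, aUZ, aRZ] → τ1 k' = σ k' := by
          intro k' hk'
          simp only [List.mem_cons, List.not_mem_nil, or_false] at hk'
          rcases hk' with rfl | rfl | rfl | rfl
          · rw [q1 aDs (by decide), hf aDs (by decide), fr2 aDs (by decide) (by decide) (by decide)]
          · rw [q1 aLZ (by decide), hf aLZ (by decide), fr2 aLZ (by decide) (by decide) (by decide)]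
          · rw [q1 aUZ (by decide), hf aUZ (by decide), fr2 aUZ (by decide) (by decide) (by decide)]
          · rw [q1 aRZ (by decide), hf aRZ (by decide), fr2 aRZ (by decide) (by decide) (by decide)]
        obtain ⟨b1, b2, b3, b4, b5⟩ := body_spec (A := A) (P := P) (dp := ds m)
          (D := fun j => τ aD j 0) (p := m) (σ := τ1) (lz := fun k => LZ k m)
          (uz := fun k => UZ k m) (rz := fun k => RZ k m) q2 hm (by intro j; rw [gD])
          (by intro w hw; rw [fz aDs (by simp)]; exact (hds m w hm hw hUm).1) (hdd m hUm)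
          (by rw [gS]; exact sf) (by rw [gS]; exact g)
          (by
            intro l u r h1 h2 h3 h4 h5
            exact Or.inl ⟨m, hUm, h1, h2, h3, h4, h5⟩)
          (by intro k hk; rw [fz aLZ (by simp)]; exact (hZ k m hk hm hUm).1)
          (by intro k hk; rw [fz aUZ (by simp)]; exact (hZ k m hk hm hUm).2.1)
          (by intro k hk; rw [fz aRZ (by simp)]; exact (hZ k m hk hm hUm).2.2.1)
          (by
            intro k hk hr
            have h4 := (hZ k m hk hm hUm).2.2.2 hr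
            exact ⟨Or.inr ⟨m, k, hUm, hm, hk, hr, rfl, rfl, rfl⟩, by omega, h4.2.2.1, h4.2.2.2⟩)
        refine ⟨b1, b2, ?_⟩
        refine Compl.step (S := fun j => τ aS j 0) (P := P) hZn cm hm g sf ?_ b2 b4 b5
        intro j hj
        have := b3 j hj
        rw [gS] at this
        exact this
      · have h0 : σ aU m 0 = 0 := (hU m hm).2 hUm
        rw [if_neg (fun h => by have := c1.1 h; omega), run_skip]
        have gS : τ1 aS = τ aS := q1 aS (by decide)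
        have gD : τ1 aD = τ aD := q1 aD (by decide)
        rw [gS, gD]
        refine ⟨g, sf, ?_⟩
        intro p hp hUp
        have : p ≠ m := by rintro rfl; exact hUm hUp
        exact cm p (by omega) hUp
  obtain ⟨g, sf, cm⟩ := main
  refine ⟨g.cc n le_rfl, ?_⟩
  intro c hc
  have h0 : run n A cDp σ aD 0 0 = 0 := by
    have h1 := sf.up 0 0 le_rfl (by omega)
    have h2 := g.zero
    omega
  have h1 := cm.le hZn h0 le_rfl hc
  obtain ⟨u, hu1, hu2, hu3⟩ := sf.ex n le_rfl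
  have : u = n := by omega
  subst this
  exact hu3.trans h1

end Pool.Agent.BDC
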