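import Pool.Agent.BDC.TargetsL

/-!
# BDC: verification of `cDs` (distances from the path vertices)
-/

namespace Pool.Agent.BDC

open N Prog

theorem p_LDS : T_LDS := by
  intro n A σ b U fst ys d hn hB hU hU0 hF hY hR
  unfold cDs
  refine loop_post (Q := fun τ => ∀ p w, U p → p < n → w < n → τ aDs p w = d p w)
    (fun m τ => ∀ p w, p < m → U p → w < n → τ aDs p w = d p w) ?_ ?_
    (fun τ _ h p w hp hpn hw => h p w hpn hp hw)
  · intro p w hp; omega
  · intro p hp τ hf ih
    replace hp : p < n := hp
    have tU : ∀ w, τ aU w 0 = σ aU w 0 := fun w => by rw [hf aU (by decide)]
    have tB : ∀ w x, τ aB w x = σ aB w x := fun w x => by rw [hf aB (by decide)]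
    have tF : ∀ w, τ aFst w 0 = σ aFst w 0 := fun w => by rw [hf aFst (by decide)]
    have tY : ∀ w, τ aYs w 0 = σ aYs w 0 := fun w => by rw [hf aYs (by decide)]
    by_cases hUp : U p
    · have hc : tst n A (upd τ vP 0 0 p) (Bx.eq (r1 aU (s vP)) .c1) := by
        have := (hU p hp).1 hUp
        simp [tst, ev, upd, tU, this]
      rw [run_ite_pos hc]
      refine loop_post (Q := fun τ => ∀ p' w, p' < p + 1 → U p' → w < n → τ aDs p' w = d p' w)
        (fun l τ => (∀ p' w, p' < p → U p' → w < n → τ aDs p' w = d p' w) ∧
          (∀ w, w < l → τ aDs p w = d p w)) ?_ ?_ ?_
      · refine ⟨?_, ?_⟩
        · intro p' w h1 h2 h3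
          simpa [upd] using ih p' w h1 h2 h3
        · intro w hw; omega
      · intro w hw τ' hf' ih'
        replace hw : w < n := hw
        obtain ⟨h1, h2⟩ := ih'
        have eP : τ' vP 0 0 = p := by rw [hf' vP (by decide)]; simp
        have eU : ∀ w, τ' aU w 0 = σ aU w 0 := fun w => by
          rw [hf' aU (by decide), upd_ne (by decide), tU]
        have eB : ∀ w x, τ' aB w x = σ aB w x := fun w x => by
          rw [hf' aB (by decide), upd_ne (by decide), tB]
        have eF : ∀ w, τ' aFst w 0 = σ aFst w 0 := fun w => by
          rw [hf' aFst (by decide), upd_ne (by decide), tF]
        have eY : ∀ w, τ' aYs w 0 = σ aYs w 0 := fun w => by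
          rw [hf' aYs (by decide), upd_ne (by decide), tY]
        -- it suffices to know the new value
        have key : ∀ τ'' : Store, τ'' = upd (upd τ' vW 0 0 w) aDs p w (d p w) →
            (∀ p' w, p' < p → U p' → w < n → τ'' aDs p' w = d p' w) ∧
              (∀ w', w' < w + 1 → τ'' aDs p w' = d p w') := by
          rintro τ'' rfl
          refine ⟨?_, ?_⟩
          · intro p' w' hp' hU' hw'
            have : p' ≠ p := by omega
            simpa [upd, this] using h1 p' w' hp' hU' hw'
          · intro w' hw'
            by_cases hww : w' = w
            · subst hww; simp [upd]
            · simpa [upd, hww] using h2 w' (by omega)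
        apply key
        have gB : σ aB p w = b p w := hB p w hp hw
        have gF : σ aFst w 0 = fst w := hF w hw
        have gY : σ aYs w 0 = ys w := hY w hw
        have gU := hU w hw
        rw [run_ite]
        split_ifs with c1
        · have e : w = p := by simpa [tst, ev, upd, eP] using c1
          subst e
          have := hR.same w hUp hp
          simp [ev, upd, eP, this]
        · have n1 : w ≠ p := by
            intro e; apply c1; simp [tst, ev, upd, eP, e]
          rw [run_ite]
          split_ifs with c2
          · have e : b p w = 1 := by
              have := c2
              simp only [tst, ev, upd_same] at this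
              rw [upd_ne (by decide), upd_ne (by decide), eP, eB, gB] at this
              exact this
            have := hR.adj p w hUp hp hw n1 e
            simp [ev, upd, eP, this]
          · have n2 : b p w ≠ 1 := by
              intro e; apply c2
              simp only [tst, ev, upd_same]
              rw [upd_ne (by decide), upd_ne (by decide), eP, eB, gB]
              exact e
            rw [run_ite]
            split_ifs with c3
            · have e3 : p < w := by simpa [tst, ev, upd, eP] using c3
              have f1 : fst w < w := hR.flt w (by omega) hw
              rw [run_ite]
              split_ifs with c4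
              · have e4 : fst w < p := by simpa [tst, ev, upd, eP, eF, gF] using c4
                have := hR.up2 p w hUp hp hw e3 n2 e4
                simp [ev, upd, eP, this]
              · have e4 : ¬ fst w < p := by
                  intro e; apply c4; simpa [tst, ev, upd, eP, eF, gF] using e
                have e5 := hR.up1 p w hUp hp hw e3 n2 e4
                have e6 := h2 (fst w) f1
                have e7 := hR.le p (fst w) hp (by omega)
                have e8 : min (d p (fst w) + 1) (cap n) = d p w := by
                  rw [e5]; unfold cap; omega
                simp [ev, upd, eP, eF, gF, e6, e8]
            · have e3 : w < p := by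
                have : ¬ p < w := by
                  intro e; apply c3; simpa [tst, ev, upd, eP] using e
                omega
              rw [run_ite]
              split_ifs with c4
              · have e4 : U w := by
                  by_contra hUw
                  have := gU.2 hUw
                  simp [tst, ev, upd, eU, this] at c4
                have e5 := hR.dnU p w hUp hp e3 n2 e4
                have e6 := h1 w p e3 e4 hp
                simp [ev, upd, eP, e5, e6]
              · have e4 : ¬ U w := by
                  intro hUw
                  have := gU.1 hUw
                  apply c4
                  simp [tst, ev, upd, eU, this]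
                have hw0 : 0 < w := by
                  rcases Nat.eq_zero_or_pos w with e | e
                  · subst e; exact absurd hU0 e4
                  · exact e
                have f1 : fst w < w := hR.flt w hw0 hw
                have gUf := hU (fst w) (by omega)
                rw [run_ite]
                split_ifs with c5
                · have e5 : U (fst w) := by
                    by_contra hUw
                    have := gUf.2 hUw
                    simp [tst, ev, upd, eU, eF, gF, this] at c5
                  have f2 : ys w < w := hR.ylt w hw e4 e5
                  have e6 := hR.dn1 p w hUp hp e3 n2 e4 e5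
                  have e7 := h2 (ys w) f2
                  have e8 := hR.le p (ys w) hp (by omega)
                  have e9 : min (d p (ys w) + 1) (cap n) = d p w := by
                    rw [e6]; unfold cap; omega
                  simp [ev, upd, eP, eY, gY, e7, e9]
                · have e5 : ¬ U (fst w) := by
                    intro hUw
                    have := gUf.1 hUw
                    apply c5
                    simp [tst, ev, upd, eU, eF, gF, this]
                  have e6 := hR.dn2 p w hUp hp e3 n2 e4 e5
                  have e7 := h2 (fst w) f1
                  have e8 := hR.le p (fst w) hp (by omega)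
                  have e9 : min (d p (fst w) + 1) (cap n) = d p w := by
                    rw [e6]; unfold cap; omega
                  simp [ev, upd, eP, eF, gF, e7, e9]
      · rintro τ' _ ⟨h1, h2⟩ p' w hp' hU' hw
        by_cases hpp : p' = p
        · subst hpp; exact h2 w hw
        · exact h1 p' w (by omega) hU' hw
    · have hc : ¬ tst n A (upd τ vP 0 0 p) (Bx.eq (r1 aU (s vP)) .c1) := by
        have := (hU p hp).2 hUp
        simp [tst, ev, upd, tU, this]
      rw [run_ite_neg hc]
      intro p' w hp' hU' hw
      have : p' ≠ p := by
        rintro rfl; exact hUp hU'
      have := ih p' w (by omega) hU' hw
      simpa [upd] using this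

end Pool.Agent.BDC
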