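import Pool.Agent.BDC.TargetsL

/-!
# BDC: verification of the renumbering and of the search for a vertex of largest level
-/

namespace Pool.Agent.BDC

open N Prog

namespace LFAR

variable {n : ℕ} {A : ℕ → ℕ → ℕ}

/-- a double loop which fills a table -/
lemma dbl (σ : Store) (k : ℕ) (e : Ex) (f : ℕ → ℕ → ℕ) (h1 : k ≠ vI) (h2 : k ≠ vJ)
    (h : ∀ τ : Store, (∀ k', k' ≠ vI → k' ≠ vJ → k' ≠ k → τ k' = σ k') → ∀ i j, i < n → j < n →
      τ vI 0 0 = i → τ vJ 0 0 = j → ev n A τ e = f i j) :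
    ∀ i j, i < n → j < n →
      run n A (.loop vI .n (.loop vJ .n (w2 k (s vI) (s vJ) e))) σ k i j = f i j := by
  simp only [vI, vJ] at h1 h2 h
  refine loop_post (Q := fun τ => ∀ i j, i < n → j < n → τ k i j = f i j)
    (fun m τ => ∀ i j, i < m → j < n → τ k i j = f i j) ?_ ?_ (fun τ _ h => h)
  · intro i j hi; omega
  · intro m hm τ hτ ih
    replace hm : m < n := hm
    refine loop_post (Q := fun τ => ∀ i j, i < m + 1 → j < n → τ k i j = f i j)
      (fun l τ => (∀ i j, i < m → j < n → τ k i j = f i j) ∧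
        (∀ j, j < l → τ k m j = f m j)) ?_ ?_ ?_
    · refine ⟨?_, ?_⟩
      · intro i j hi hj; simpa [upd, h1] using ih i j hi hj
      · intro j hj; omega
    · intro l hl τ' hf ih'
      replace hl : l < n := hl
      have h3 : τ' vI 0 0 = m := by rw [hf vI (by simp [mods, Ne.symm h1])]; simp
      obtain ⟨h4, h5⟩ := ih'
      have h6 : ev n A (upd τ' vJ 0 0 l) e = f m l := by
        refine h _ ?_ m l hm hl ?_ ?_
        · intro k' hk1 hk2 hk3
          rw [upd_ne hk2, hf k' (by simp [mods, hk2, hk3]), upd_ne hk1,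
            hτ k' (by simp [mods, hk1, hk2, hk3])]
        · simpa [upd] using h3
        · simp [upd]
      simp only [vJ] at h6
      refine ⟨?_, ?_⟩
      · intro i j hi hj
        have h7 : i ≠ m := by omega
        simp only [vI] at h3
        simpa [ev, upd, h3, h7, h1, h2] using h4 i j hi hj
      · intro j hj
        simp only [vI] at h3
        by_cases hjl : j = l
        · subst hjl
          simpa [ev, upd, h3] using h6
        · simpa [ev, upd, h3, hjl, h1, h2] using h5 j (by omega)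
    · rintro τ' _ ⟨h4, h5⟩ i j hi hj
      by_cases him : i = m
      · subst him; exact h5 j hj
      · exact h4 i j (by omega) hj

end LFAR

open LFAR

theorem p_LREN : T_LREN := by
  intro n A σ a ord ha hord ho
  unfold cRen
  rw [run_seq]
  set σ₁ := run n A (.loop vI .n (.loop vJ .n (
    w2 aB (s vI) (s vJ) (r2 aA (r1 aOrd (s vI)) (r1 aOrd (s vJ)))))) σ with hσ₁
  have h1 : ∀ i j, i < n → j < n → σ₁ aB i j = a (ord i) (ord j) := by
    refine dbl σ aB _ (fun i j => a (ord i) (ord j)) (by simp) (by simp) ?_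
    intro τ hτ i j hi hj h3 h4
    have h5 : τ aOrd = σ aOrd := hτ _ (by simp) (by simp) (by simp)
    have h6 : τ aA = σ aA := hτ _ (by simp) (by simp) (by simp)
    simp only [ev]
    rw [h3, h4, h5, h6, ho i hi, ho j hj]
    exact ha _ _ (hord i hi) (hord j hj)
  refine dbl σ₁ aA _ _ (by simp) (by simp) ?_
  intro τ hτ i j hi hj h3 h4
  have h6 : τ aB = σ₁ aB := hτ _ (by simp) (by simp) (by simp)
  simp only [ev]
  rw [h3, h4, h6, h1 i j hi hj]

namespace LFAR

variable {n : ℕ} {A : ℕ → ℕ → ℕ}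

/-- the command computing first neighbours -/
def c1st : Cm :=
  .loop vW .n (Cm.seq (w1 aF1 (s vW) .c0)
    (.loop vJ .n (Cm.seq (w0 vX (Ex.sub (Ex.sub .n .c1) (s vJ)))
      (whn (Bx.eq (r2 aA (s vW) (s vX)) .c1) (w1 aF1 (s vW) (s vX))))))

lemma l_first (σ : Store) (a : ℕ → ℕ → ℕ) (fst : ℕ → ℕ) (ha : Has2 n σ aA a)
    (hf : ∀ w, 0 < w → w < n → fst w < w ∧ a w (fst w) = 1 ∧ ∀ j, j < n → a w j = 1 → fst w ≤ j) :
    ∀ w, 0 < w → w < n → run n A c1st σ aF1 w 0 = fst w := by
  unfold c1st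
  refine loop_post (Q := fun τ => ∀ w, 0 < w → w < n → τ aF1 w 0 = fst w)
    (fun m τ => ∀ w, 0 < w → w < m → τ aF1 w 0 = fst w) ?_ ?_ (fun τ _ h => h)
  · intro w _ hw; omega
  · intro m hm τ hτ ih
    replace hm : m < n := hm
    have hA : τ aA = σ aA := hτ _ (by decide)
    rw [run_seq]
    refine loop_post (Q := fun τ => ∀ w, 0 < w → w < m + 1 → τ aF1 w 0 = fst w)
      (fun l τ => (∀ w, 0 < w → w < m → τ aF1 w 0 = fst w) ∧
        (((∀ x, n - l ≤ x → x < n → a m x ≠ 1) ∧ τ aF1 m 0 = 0) ∨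
         (n - l ≤ τ aF1 m 0 ∧ τ aF1 m 0 < n ∧ a m (τ aF1 m 0) = 1 ∧
          ∀ x, n - l ≤ x → x < n → a m x = 1 → τ aF1 m 0 ≤ x))) ?_ ?_ ?_
    · refine ⟨?_, Or.inl ⟨?_, ?_⟩⟩
      · intro w hw0 hw
        have hne : w ≠ m := by omega
        simpa [ev, upd, hne] using ih w hw0 hw
      · intro x hx1 hx2; omega
      · simp [ev, upd]
    · intro l hl τ' hf' ih'
      replace hl : l < n := hl
      obtain ⟨h4, h5⟩ := ih'
      have hW : τ' vW 0 0 = m := by
        rw [hf' vW (by decide)]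
        simp [ev, upd]
      have hA' : τ' aA = σ aA := by
        rw [hf' aA (by decide), run_put, upd_ne (by decide), upd_ne (by decide), hA]
      simp only [vW, aA] at hW hA'
      have haA : ∀ x, x < n → τ' 20 m x = a m x := fun x hx => by
        rw [hA']; exact ha m x hm hx
      have hx : n - 1 - l < n := by omega
      have h6 : n - (l + 1) = n - 1 - l := by omega
      rw [run_seq]
      by_cases hc : a m (n - 1 - l) = 1
      · -- new value
        have e1 : ∀ w, (run n A (whn (Bx.eq (r2 aA (s vW) (s vX)) .c1) (w1 aF1 (s vW) (s vX)))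
            (run n A (w0 vX (Ex.sub (Ex.sub .n .c1) (s vJ))) (upd τ' vJ 0 0 l))) aF1 w 0 =
            if w = m then n - 1 - l else τ' aF1 w 0 := by
          intro w
          rw [run_ite_pos]
          · simp [ev, upd, hW]
          · simp [ev, tst, upd, hW, haA _ hx, hc]
        refine ⟨?_, Or.inr ?_⟩
        · intro w hw0 hw
          rw [e1, if_neg (by omega)]
          exact h4 w hw0 hw
        · rw [e1, if_pos rfl]
          refine ⟨by omega, hx, hc, fun x h7 h8 h9 => by omega⟩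
      · have e1 : ∀ w, (run n A (whn (Bx.eq (r2 aA (s vW) (s vX)) .c1) (w1 aF1 (s vW) (s vX)))
            (run n A (w0 vX (Ex.sub (Ex.sub .n .c1) (s vJ))) (upd τ' vJ 0 0 l))) aF1 w 0 = τ' aF1 w 0 := by
          intro w
          rw [run_ite_neg]
          · simp [ev, upd]
          · simp [ev, tst, upd, hW, haA _ hx, hc]
        refine ⟨?_, ?_⟩
        · intro w hw0 hw
          rw [e1]
          exact h4 w hw0 hw
        · rw [e1]
          rcases h5 with ⟨h7, h8⟩ | ⟨h7, h8, h9, h10⟩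
          · refine Or.inl ⟨fun x hx1 hx2 => ?_, h8⟩
            by_cases hxe : x = n - 1 - l
            · rw [hxe]; exact hc
            · exact h7 x (by omega) hx2
          · refine Or.inr ⟨by omega, h8, h9, fun x hx1 hx2 hx3 => ?_⟩
            by_cases hxe : x = n - 1 - l
            · rw [hxe] at hx3; exact absurd hx3 hc
            · exact h10 x (by omega) hx2 hx3
    · intro τ' _ ⟨h4, h5⟩ w hw0 hw
      replace h5 : ((∀ x, n - n ≤ x → x < n → a m x ≠ 1) ∧ τ' aF1 m 0 = 0) ∨
         (n - n ≤ τ' aF1 m 0 ∧ τ' aF1 m 0 < n ∧ a m (τ' aF1 m 0) = 1 ∧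
          ∀ x, n - n ≤ x → x < n → a m x = 1 → τ' aF1 m 0 ≤ x) := h5
      by_cases hwm : w = m
      · subst hwm
        obtain ⟨h6, h7, h8⟩ := hf w hw0 hm
        rcases h5 with ⟨h9, _⟩ | ⟨_, h10, h11, h12⟩
        · exact absurd h7 (h9 _ (by omega) (by omega))
        · exact le_antisymm (h12 _ (by omega) (by omega) h7) (h8 _ h10 h11)
      · exact h4 w hw0 (by omega)

/-- the command computing levels -/
def c2nd : Cm :=
  .loop vW .n (whn (Bx.lt .c0 (s vW)) (w1 aLev (s vW) (Ex.add (r1 aLev (r1 aF1 (s vW))) .c1)))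

lemma lev_le {fst lev : ℕ → ℕ} (hf : ∀ w, 0 < w → w < n → fst w < w) (h0 : lev 0 = 0)
    (hl : ∀ w, 0 < w → w < n → lev w = lev (fst w) + 1) : ∀ w, w < n → lev w ≤ w := by
  intro w
  induction w using Nat.strong_induction_on with
  | _ w ih =>
    intro hw
    rcases Nat.eq_zero_or_pos w with rfl | hw0
    · omega
    · have h1 := hf w hw0 hw
      have h2 := ih (fst w) h1 (by omega)
      rw [hl w hw0 hw]
      omega

lemma l_lev (σ : Store) (fst lev : ℕ → ℕ)
    (hf : ∀ w, 0 < w → w < n → fst w < w) (h0 : lev 0 = 0)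
    (hl : ∀ w, 0 < w → w < n → lev w = lev (fst w) + 1)
    (hF : ∀ w, 0 < w → w < n → σ aF1 w 0 = fst w) (hL : σ aLev 0 0 = 0) :
    ∀ w, w < n → run n A c2nd σ aLev w 0 = lev w := by
  unfold c2nd
  refine loop_post (Q := fun τ => ∀ w, w < n → τ aLev w 0 = lev w)
    (fun m τ => τ aLev 0 0 = 0 ∧ ∀ w, w < m → τ aLev w 0 = lev w) ?_ ?_ (fun τ _ h => h.2)
  · exact ⟨hL, fun w hw => by omega⟩
  · intro m hm τ hτ ih
    replace hm : m < n := hm
    obtain ⟨ih0, ih⟩ := ih
    have hF1 : τ aF1 = σ aF1 := hτ _ (by decide)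
    rcases Nat.eq_zero_or_pos m with rfl | hm0
    · rw [run_ite_neg (by simp [ev, tst, upd])]
      rw [run_skip]
      refine ⟨by simpa [upd] using ih0, fun w hw => ?_⟩
      have : w = 0 := by omega
      subst this
      simpa [upd, h0] using ih0
    · have h1 := hf m hm0 hm
      have h2 := lev_le hf h0 hl (fst m) (by omega)
      have e1 : ∀ w, (run n A (whn (Bx.lt .c0 (s vW)) (w1 aLev (s vW) (Ex.add (r1 aLev (r1 aF1 (s vW))) .c1)))
          (upd τ vW 0 0 m)) aLev w 0 = if w = m then lev m else τ aLev w 0 := by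
        intro w
        rw [run_ite_pos (by simpa [ev, tst, upd] using hm0)]
        have h3 : τ aF1 m 0 = fst m := by rw [hF1]; exact hF m hm0 hm
        have h4 : τ aLev (fst m) 0 = lev (fst m) := ih _ h1
        simp only [aF1, aLev] at h3 h4
        by_cases hw : w = m
        · subst hw
          simp only [if_true, run_put]
          simp [ev, upd, h3, h4, cap, hl w hm0 hm]
          omega
        · simp [ev, upd, hw]
      refine ⟨?_, fun w hw => ?_⟩
      · rw [e1, if_neg (by omega)]; exact ih0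
      · rw [e1]
        by_cases hwm : w = m
        · rw [if_pos hwm, hwm]
        · rw [if_neg hwm]; exact ih w (by omega)

/-- the last loop -/
def c3rd : Cm :=
  .loop vW .n (whn (Bx.lt (r1 aLev (s vCur)) (r1 aLev (s vW))) (w0 vCur (s vW)))

lemma l_max (σ : Store) (lev : ℕ → ℕ) (old : ℕ) (hL : ∀ w, w < n → σ aLev w 0 = lev w)
    (hc : σ vCur 0 0 = old) (ho : old < n) :
    run n A c3rd σ vCur 0 0 < n ∧
    (∀ w, w < n → lev w ≤ lev (run n A c3rd σ vCur 0 0)) ∧
    (lev (run n A c3rd σ vCur 0 0) ≤ lev old → run n A c3rd σ vCur 0 0 = old) := by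
  unfold c3rd
  refine loop_post (Q := fun τ => τ vCur 0 0 < n ∧ (∀ w, w < n → lev w ≤ lev (τ vCur 0 0)) ∧
      (lev (τ vCur 0 0) ≤ lev old → τ vCur 0 0 = old))
    (fun m τ => τ vCur 0 0 < n ∧ (∀ w, w < m → lev w ≤ lev (τ vCur 0 0)) ∧
      (lev (τ vCur 0 0) ≤ lev old → τ vCur 0 0 = old) ∧ lev old ≤ lev (τ vCur 0 0)) ?_ ?_
      (fun τ _ h => ⟨h.1, h.2.1, h.2.2.1⟩)
  · rw [hc]
    exact ⟨ho, fun w hw => by omega, fun _ => rfl, le_rfl⟩
  · intro m hm τ hτ ih
    replace hm : m < n := hm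
    obtain ⟨h1, h2, h3, h4⟩ := ih
    have hL' : τ aLev = σ aLev := hτ _ (by decide)
    have h5 : τ aLev m 0 = lev m := by rw [hL']; exact hL m hm
    have h6 : τ aLev (τ vCur 0 0) 0 = lev (τ vCur 0 0) := by rw [hL']; exact hL _ h1
    simp only [aLev, vCur] at h1 h2 h3 h4 h5 h6
    by_cases hlt : lev (τ 0 0 0) < lev m
    · have e1 : (run n A (whn (Bx.lt (r1 aLev (s vCur)) (r1 aLev (s vW))) (w0 vCur (s vW)))
          (upd τ vW 0 0 m)) vCur 0 0 = m := by
        rw [run_ite_pos (by simpa [ev, tst, upd, h5, h6] using hlt)]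
        simp [ev, upd]
      rw [e1]
      refine ⟨hm, fun w hw => ?_, fun h => by omega, by omega⟩
      by_cases hwm : w = m
      · rw [hwm]
      · have := h2 w (by omega); omega
    · have e1 : (run n A (whn (Bx.lt (r1 aLev (s vCur)) (r1 aLev (s vW))) (w0 vCur (s vW)))
          (upd τ vW 0 0 m)) vCur 0 0 = τ vCur 0 0 := by
        rw [run_ite_neg (by simpa [ev, tst, upd, h5, h6] using hlt)]
        simp [upd]
      rw [e1]
      simp only [vCur]
      refine ⟨h1, fun w hw => ?_, h3, h4⟩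
      by_cases hwm : w = m
      · rw [hwm]; omega
      · exact h2 w (by omega)

end LFAR

theorem p_LFAR : T_LFAR := by
  intro n A σ a fst lev old hn ha hf h0 hl hold ho
  have e0 : cFar = (Cm.seq c1st (Cm.seq (w1 aLev .c0 .c0) (Cm.seq c2nd (Cm.seq (w0 vCur (r1 aNum .c0)) c3rd)))) := rfl
  rw [e0, run_seq, run_seq, run_seq, run_seq]
  set σ₁ := run n A c1st σ with h1
  set σ₂ := run n A (w1 aLev .c0 .c0) σ₁ with h2
  set σ₃ := run n A c2nd σ₂ with h3
  set σ₄ := run n A (w0 vCur (r1 aNum .c0)) σ₃ with h4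
  have hF1 : ∀ w, 0 < w → w < n → σ₂ aF1 w 0 = fst w := by
    intro w hw0 hw
    rw [h2, run_put, upd_ne (by decide)]
    exact l_first σ a fst ha hf w hw0 hw
  have hL2 : σ₂ aLev 0 0 = 0 := by rw [h2]; simp [ev, upd]
  have hL3 : ∀ w, w < n → σ₃ aLev w 0 = lev w :=
    l_lev σ₂ fst lev (fun w a b => (hf w a b).1) h0 hl hF1 hL2
  have hL4 : ∀ w, w < n → σ₄ aLev w 0 = lev w := by
    intro w hw
    rw [h4, run_put, upd_ne (by decide)]
    exact hL3 w hw
  have hc : σ₄ vCur 0 0 = old := by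
    have h5 : σ₃ aNum = σ aNum := by
      rw [h3, run_frame _ _ _ (by decide), h2, run_frame _ _ _ (by decide), h1,
        run_frame _ _ _ (by decide)]
    rw [h4, run_put]
    have h6 : ev n A σ₃ (r1 aNum .c0) = old := by
      simp only [ev]; rw [h5, hold]
    rw [h6]
    simp [ev, upd]
  exact l_max σ₄ lev old hL4 hc ho

end Pool.Agent.BDC
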