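import Pool.Agent.BDC.TargetsL

/-!
# BDC: verification of the stage `cHits`
-/

set_option autoImplicit false

namespace Pool.Agent.BDC

open N Prog

namespace LHIT

variable {n : ℕ} {A : ℕ → ℕ → ℕ}

/-- the arrays read by the stage -/
structure Env (n : ℕ) (σ : Store) (b : ℕ → ℕ → ℕ) (U : ℕ → Prop) (pos dep g h : ℕ → ℕ)
    (Z : ℕ → ℕ → ℕ) : Prop where
  hb : Has2 n σ aB b
  hU : HasP n σ aU U
  hpos : Has1 n σ aPos pos
  hdep : Has1 n σ aDep dep
  hg : Has1 n σ aG g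
  hh : ∀ p, p < n → U p → σ aH p 0 = h p
  hZ : ∀ k p, k < 2 → p < n → U p → σ aZ k p = Z k p

lemma Env.congr {σ τ : Store} {b : ℕ → ℕ → ℕ} {U : ℕ → Prop} {pos dep g h : ℕ → ℕ}
    {Z : ℕ → ℕ → ℕ} (hE : Env n σ b U pos dep g h Z)
    (hτ : ∀ k, k ∈ [21, 32, 35, 41, 42, 44, 46] → τ k = σ k) : Env n τ b U pos dep g h Z where
  hb := by
    intro i j hi hj
    rw [hτ 21 (by decide)]
    exact hE.hb i j hi hj
  hU := by
    intro i hi
    rw [hτ 32 (by decide)]
    exact hE.hU i hi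
  hpos := by
    intro i hi
    rw [hτ 35 (by decide)]
    exact hE.hpos i hi
  hdep := by
    intro i hi
    rw [hτ 41 (by decide)]
    exact hE.hdep i hi
  hg := by
    intro i hi
    rw [hτ 42 (by decide)]
    exact hE.hg i hi
  hh := by
    intro p hp hU
    rw [hτ 44 (by decide)]
    exact hE.hh p hp hU
  hZ := by
    intro k p hk hp hU
    rw [hτ 46 (by decide)]
    exact hE.hZ k p hk hp hU

/-- the search loop -/
def sB (c : Bx) (a : Cm) : Cm :=
  .loop vI .n (Cm.seq a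
    (whn (Bx.and c (Bx.and (Bx.eq (r1 aU (s vX)) .c1) (Bx.lt (r1 aDep (s vW)) (r1 aH (s vX))))) (w0 vP (s vX))))

/-- the hit loop -/
def hB (out : ℕ) : Cm :=
  .loop vX .n (whn (Bx.and (Bx.eq (r1 aU (s vX)) .c1) (Bx.and (Bx.eq (r2 aB (s vZ) (s vX)) .c1)
    (Bx.eq (r2 aB (r1 aG (s vW)) (s vX)) .c1))) (w1 out (s vW) (s vP)))

section

variable {b : ℕ → ℕ → ℕ} {U : ℕ → Prop} {pos dep g h : ℕ → ℕ} {Z : ℕ → ℕ → ℕ}
  {c : Bx} {a : Cm} {f : ℕ → ℕ} {Cc : ℕ → ℕ → Prop}

lemma search (ha : ∀ τ, run n A a τ = upd τ vX 0 0 (f (τ vI 0 0))) (hma : mods a = [vX])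
    (hc : ∀ τ w, Has1 n τ aPos pos → w < n → τ vW 0 0 = w → (tst n A τ c ↔ Cc w (τ vX 0 0)))
    (hf : ∀ I, I < n → f I < n) (hs : ∀ x, x < n → ∃ I, I < n ∧ f I = x)
    (τ : Store) (hE : Env n τ b U pos dep g h Z) (w : ℕ) (hw : w < n) (hW : τ vW 0 0 = w)
    (hP : τ vP 0 0 = n) :
    (∀ k, k ∉ [vI, vX, vP] → run n A (sB c a) τ k = τ k) ∧
    ((run n A (sB c a) τ vP 0 0 = n ∧ ∀ x, x < n → ¬ (Cc w x ∧ U x ∧ dep w < h x)) ∨
      ∃ I, I < n ∧ run n A (sB c a) τ vP 0 0 = f I ∧ (Cc w (f I) ∧ U (f I) ∧ dep w < h (f I)) ∧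
        ∀ I', I < I' → I' < n → ¬ (Cc w (f I') ∧ U (f I') ∧ dep w < h (f I'))) := by
  have hmods : mods (Cm.seq a (whn (Bx.and c (Bx.and (Bx.eq (r1 aU (s vX)) .c1) (Bx.lt (r1 aDep (s vW)) (r1 aH (s vX)))))
      (w0 vP (s vX)))) = [vX, vP] := by
    simp [mods, hma]
  constructor
  · intro k hk
    apply run_frame
    unfold sB
    change k ∉ vI :: mods _
    rw [hmods]
    exact hk
  · unfold sB
    refine loop_post (Q := fun τ' => (τ' vP 0 0 = n ∧ ∀ x, x < n → ¬ (Cc w x ∧ U x ∧ dep w < h x)) ∨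
      ∃ I, I < n ∧ τ' vP 0 0 = f I ∧ (Cc w (f I) ∧ U (f I) ∧ dep w < h (f I)) ∧
        ∀ I', I < I' → I' < n → ¬ (Cc w (f I') ∧ U (f I') ∧ dep w < h (f I')))
      (fun m τ' => (τ' vP 0 0 = n ∧ ∀ I, I < m → ¬ (Cc w (f I) ∧ U (f I) ∧ dep w < h (f I))) ∨
      ∃ I, I < m ∧ τ' vP 0 0 = f I ∧ (Cc w (f I) ∧ U (f I) ∧ dep w < h (f I)) ∧
        ∀ I', I < I' → I' < m → ¬ (Cc w (f I') ∧ U (f I') ∧ dep w < h (f I'))) ?_ ?_ ?_
    · exact Or.inl ⟨hP, fun I hI => absurd hI (Nat.not_lt_zero _)⟩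
    · intro m hm τ' hfr ih
      replace hm : m < n := hm
      rw [hmods] at hfr
      have hE' : Env n τ' b U pos dep g h Z := hE.congr fun k hk => hfr k (by
        fin_cases hk <;> decide)
      have hW' : τ' vW 0 0 = w := by rw [hfr vW (by decide), hW]
      set τ1 : Store := upd (upd τ' vI 0 0 m) vX 0 0 (f m) with hτ1
      have e1 : run n A a (upd τ' vI 0 0 m) = τ1 := by
        rw [ha, upd_same]
      have hfr1 : ∀ k, k ≠ vI → k ≠ vX → τ1 k = τ' k := by
        intro k h1 h2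
        rw [hτ1, upd_ne h2, upd_ne h1]
      have hE1 : Env n τ1 b U pos dep g h Z := hE'.congr fun k hk =>
        hfr1 k (by fin_cases hk <;> decide) (by fin_cases hk <;> decide)
      have hW1 : τ1 vW 0 0 = w := by rw [hfr1 vW (by decide) (by decide), hW']
      have hX1 : τ1 vX 0 0 = f m := by rw [hτ1, upd_same]
      have hP1 : τ1 vP 0 0 = τ' vP 0 0 := by rw [hfr1 vP (by decide) (by decide)]
      have hfm := hf m hm
      have htst : tst n A τ1 (Bx.and c (Bx.and (Bx.eq (r1 aU (s vX)) .c1) (Bx.lt (r1 aDep (s vW)) (r1 aH (s vX))))) ↔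
          (Cc w (f m) ∧ U (f m) ∧ dep w < h (f m)) := by
        have k1 := hc τ1 w hE1.hpos hw hW1
        rw [hX1] at k1
        have k2 : τ1 32 (f m) 0 = 1 ↔ U (f m) := by
          have := hE1.hU (f m) hfm
          constructor
          · intro h1
            by_contra h2
            have h3 := this.2 h2
            simp only [aU] at h3
            omega
          · exact this.1
        simp only [tst, ev, vX, vW, aU, aDep, aH] at hX1 hW1 ⊢
        rw [k1, hX1, hW1, k2]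
        have k3 := hE1.hdep w hw
        simp only [aDep] at k3
        rw [k3]
        constructor
        · rintro ⟨h1, h2, h3⟩
          have k4 := hE1.hh (f m) hfm h2
          simp only [aH] at k4
          rw [k4] at h3
          exact ⟨h1, h2, h3⟩
        · rintro ⟨h1, h2, h3⟩
          have k4 := hE1.hh (f m) hfm h2
          simp only [aH] at k4
          rw [k4]
          exact ⟨h1, h2, h3⟩
      rw [run_seq, e1]
      by_cases ht : Cc w (f m) ∧ U (f m) ∧ dep w < h (f m)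
      · rw [run_ite_pos (htst.2 ht)]
        refine Or.inr ⟨m, Nat.lt_succ_self m, ?_, ht, fun I' h1 h2 => by omega⟩
        rw [run_put]
        simp only [ev]
        rw [upd_same]
        exact hX1
      · rw [run_ite_neg (fun hh => ht (htst.1 hh)), run_skip, hP1]
        rcases ih with ⟨h1, h2⟩ | ⟨I, h1, h2, h3, h4⟩
        · refine Or.inl ⟨h1, fun I hI => ?_⟩
          rcases Nat.lt_succ_iff_lt_or_eq.1 hI with h5 | h5
          · exact h2 I h5
          · rw [h5]; exact ht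
        · refine Or.inr ⟨I, by omega, h2, h3, fun I' h5 h6 => ?_⟩
          rcases Nat.lt_succ_iff_lt_or_eq.1 h6 with h7 | h7
          · exact h4 I' h5 h7
          · rw [h7]; exact ht
    · intro τ' _ ih
      change (τ' vP 0 0 = n ∧ ∀ I, I < n → _) ∨ (∃ I, I < n ∧ _) at ih
      rcases ih with ⟨h1, h2⟩ | h1
      · left
        refine ⟨h1, fun x hx => ?_⟩
        obtain ⟨I, hI, rfl⟩ := hs x hx
        exact h2 I hI
      · exact Or.inr h1

/-- the hit loop: if there is a common neighbour the value of `vP` is recorded -/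
lemma hit {out : ℕ} (hout : out = 47 ∨ out = 48) (τ : Store)
    (hE : Env n τ b U pos dep g h Z) (w : ℕ) (hw : w < n) (hgw : g w < n) (hW : τ vW 0 0 = w)
    (z : ℕ) (hz : z < n) (hZ0 : τ vZ 0 0 = z) :
    (∀ i, i ≠ w → run n A (hB out) τ out i 0 = τ out i 0) ∧
    ((∃ x, x < n ∧ U x ∧ b z x = 1 ∧ b (g w) x = 1) →
      run n A (hB out) τ out w 0 = τ vP 0 0) ∧
    ((¬ ∃ x, x < n ∧ U x ∧ b z x = 1 ∧ b (g w) x = 1) →
      run n A (hB out) τ out w 0 = τ out w 0) := by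
  unfold hB
  have ho : ∀ k, k ∈ [21, 32, 35, 41, 42, 44, 46, 3, 5, 7, 8] → k ≠ out := by
    intro k hk
    rcases hout with h1 | h1 <;> subst h1 <;> fin_cases hk <;> decide
  refine loop_post (Q := fun τ' => (∀ i, i ≠ w → τ' out i 0 = τ out i 0) ∧
    ((∃ x, x < n ∧ U x ∧ b z x = 1 ∧ b (g w) x = 1) → τ' out w 0 = τ vP 0 0) ∧
    ((¬ ∃ x, x < n ∧ U x ∧ b z x = 1 ∧ b (g w) x = 1) → τ' out w 0 = τ out w 0))
    (fun m τ' => (∀ i, i ≠ w → τ' out i 0 = τ out i 0) ∧
    ((∃ x, x < m ∧ U x ∧ b z x = 1 ∧ b (g w) x = 1) → τ' out w 0 = τ vP 0 0) ∧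
    ((¬ ∃ x, x < m ∧ U x ∧ b z x = 1 ∧ b (g w) x = 1) → τ' out w 0 = τ out w 0)) ?_ ?_ ?_
  · exact ⟨fun _ _ => rfl, fun ⟨x, hx, _⟩ => absurd hx (Nat.not_lt_zero _), fun _ => rfl⟩
  · intro m hm τ' hfr ih
    replace hm : m < n := hm
    have hfr' : ∀ k, k ∈ [21, 32, 35, 41, 42, 44, 46, 5, 7, 8] → τ' k = τ k := by
      intro k hk
      apply hfr
      simp only [mods, List.append_nil, List.mem_cons, List.not_mem_nil, or_false, not_or]
      refine ⟨by fin_cases hk <;> decide, ho k (by fin_cases hk <;> decide)⟩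
    set τ1 : Store := upd τ' vX 0 0 m with hτ1
    have hfr1 : ∀ k, k ≠ vX → τ1 k = τ' k := fun k h1 => by rw [hτ1, upd_ne h1]
    have hE1 : Env n τ1 b U pos dep g h Z := hE.congr fun k hk => by
      rw [hfr1 k (by fin_cases hk <;> decide), hfr' k (by fin_cases hk <;> decide)]
    have hW1 : τ1 vW 0 0 = w := by rw [hfr1 vW (by decide), hfr' vW (by decide), hW]
    have hZ1 : τ1 vZ 0 0 = z := by rw [hfr1 vZ (by decide), hfr' vZ (by decide), hZ0]
    have hP1 : τ1 vP 0 0 = τ vP 0 0 := by rw [hfr1 vP (by decide), hfr' vP (by decide)]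
    have hX1 : τ1 vX 0 0 = m := by rw [hτ1, upd_same]
    have ho1 : τ1 out = τ' out := hfr1 out (fun hh => ho 3 (by decide) hh.symm)
    have htst : tst n A τ1 (Bx.and (Bx.eq (r1 aU (s vX)) .c1) (Bx.and (Bx.eq (r2 aB (s vZ) (s vX)) .c1)
        (Bx.eq (r2 aB (r1 aG (s vW)) (s vX)) .c1))) ↔ (U m ∧ b z m = 1 ∧ b (g w) m = 1) := by
      have k2 : τ1 32 m 0 = 1 ↔ U m := by
        have := hE1.hU m hm
        constructor
        · intro h1
          by_contra h2
          have h3 := this.2 h2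
          simp only [aU] at h3
          omega
        · exact this.1
      simp only [tst, ev, vX, vW, vZ, aU, aB, aG] at hX1 hW1 hZ1 ⊢
      have k3 := hE1.hg w hw
      have k4 := hE1.hb z m hz hm
      have k5 := hE1.hb (g w) m hgw hm
      simp only [aG, aB] at k3 k4 k5
      rw [hX1, hW1, hZ1, k2, k3, k4, k5]
    obtain ⟨ih1, ih2, ih3⟩ := ih
    by_cases ht : U m ∧ b z m = 1 ∧ b (g w) m = 1
    · rw [run_ite_pos (htst.2 ht), run_put]
      have e1 : ev n A τ1 (s vW) = w := hW1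
      have e2 : ev n A τ1 (s vP) = τ vP 0 0 := hP1
      have e3 : ev n A τ1 .c0 = 0 := rfl
      rw [e1, e2, e3]
      refine ⟨fun i hi => ?_, fun _ => upd_same _ _ _ _ _, fun hh => ?_⟩
      · rw [upd_ne' (fun hh => hi hh.1), ho1, ih1 i hi]
      · exact absurd ⟨m, Nat.lt_succ_self m, ht⟩ hh
    · rw [run_ite_neg (fun hh => ht (htst.1 hh)), run_skip, ho1]
      refine ⟨ih1, ?_, ?_⟩
      · rintro ⟨x, hx, hx2⟩
        rcases Nat.lt_succ_iff_lt_or_eq.1 hx with h5 | h5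
        · exact ih2 ⟨x, h5, hx2⟩
        · rw [h5] at hx2; exact absurd hx2 ht
      · intro hh
        exact ih3 fun ⟨x, hx, hx2⟩ => hh ⟨x, by omega, hx2⟩
  · intro τ' _ ih
    exact ih

/-- the recorded relation -/
def HitG (n : ℕ) (b : ℕ → ℕ → ℕ) (U : ℕ → Prop) (dep g h : ℕ → ℕ) (Z : ℕ → ℕ → ℕ) (f : ℕ → ℕ)
    (Cc : ℕ → ℕ → Prop) (w p : ℕ) : Prop :=
  (∃ I, I < n ∧ f I = p ∧ (Cc w (f I) ∧ U (f I) ∧ dep w < h (f I)) ∧
    ∀ I', I < I' → I' < n → ¬ (Cc w (f I') ∧ U (f I') ∧ dep w < h (f I'))) ∧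
  h p ≤ dep w + 2 ∧ 0 < Z (h p - dep w - 1) p ∧
    ∃ x, x < n ∧ U x ∧ b (Z (h p - dep w - 1) p) x = 1 ∧ b (g w) x = 1

/-- the body of the outer loop -/
def bd (c : Bx) (out : ℕ) (a : Cm) : Cm :=
  Cm.seq (w1 out (s vW) .n)
    (whn (Bx.eq (r1 aU (s vW)) .c0) (
      Cm.seq (w0 vP .n)
      (Cm.seq (sB c a)
      (whn (Bx.and (Bx.lt (s vP) .n) (Bx.not (Bx.lt (Ex.add (r1 aDep (s vW)) .c2) (r1 aH (s vP))))) (
        Cm.seq (w0 vZ (r2 aZ (Ex.sub (Ex.sub (r1 aH (s vP)) (r1 aDep (s vW))) .c1) (s vP)))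
        (whn (Bx.lt .c0 (s vZ)) (hB out)))))))

lemma cHit_eq (c : Bx) (out : ℕ) (a b' : Cm) :
    cHit c out a b' = (Cm.seq (.loop vW .n (bd c out a)) b') := rfl

lemma mods_bd (c : Bx) (out : ℕ) (a : Cm) (hma : mods a = [vX]) :
    mods (bd c out a) = [out, vP, vI, vX, vP, vZ, vX, out] := by
  simp [bd, sB, hB, mods, hma]

lemma body {out : ℕ} (hout : out = 47 ∨ out = 48)
    (ha : ∀ τ, run n A a τ = upd τ vX 0 0 (f (τ vI 0 0))) (hma : mods a = [vX])
    (hc : ∀ τ w, Has1 n τ aPos pos → w < n → τ vW 0 0 = w → (tst n A τ c ↔ Cc w (τ vX 0 0)))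
    (hf : ∀ I, I < n → f I < n) (hs : ∀ x, x < n → ∃ I, I < n ∧ f I = x)
    (hZn : ∀ k p, k < 2 → p < n → U p → Z k p < n)
    (τ : Store) (hE : Env n τ b U pos dep g h Z) (w : ℕ) (hw : w < n) (hgw : g w < n)
    (hdw : dep w ≤ n) (hW : τ vW 0 0 = w) :
    (∀ i, i ≠ w → run n A (bd c out a) τ out i 0 = τ out i 0) ∧
    (¬ U w → ∀ p, p < n → (run n A (bd c out a) τ out w 0 = p ↔
      HitG n b U dep g h Z f Cc w p)) := by
  have ho : ∀ k, k ∈ [21, 32, 35, 41, 42, 44, 46, 1, 3, 5, 7, 8] → k ≠ out := by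
    intro k hk
    rcases hout with h1 | h1 <;> subst h1 <;> fin_cases hk <;> decide
  unfold bd
  rw [run_seq, run_put]
  have e1 : ev n A τ (s vW) = w := hW
  have e2 : ev n A τ .n = n := rfl
  have e3 : ∀ τ' : Store, ev n A τ' .c0 = 0 := fun _ => rfl
  rw [e1, e2, e3]
  set τ1 : Store := upd τ out w 0 n with hτ1
  have hfr1 : ∀ k, k ≠ out → τ1 k = τ k := fun k h1 => by rw [hτ1, upd_ne h1]
  have hE1 : Env n τ1 b U pos dep g h Z := hE.congr fun k hk =>
    hfr1 k (ho k (by fin_cases hk <;> decide))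
  have hW1 : τ1 vW 0 0 = w := by rw [hfr1 vW (ho vW (by decide)), hW]
  have ho1 : τ1 out w 0 = n := by rw [hτ1, upd_same]
  have ho1' : ∀ i, i ≠ w → τ1 out i 0 = τ out i 0 := fun i hi => by
    rw [hτ1, upd_ne' (fun hh => hi hh.1)]
  by_cases hUw : U w
  · have ht : ¬ tst n A τ1 (Bx.eq (r1 aU (s vW)) .c0) := by
      have h1 := (hE1.hU w hw).1 hUw
      simp only [tst, ev, vW, aU] at hW1 h1 ⊢
      rw [hW1, h1]
      decide
    rw [run_ite_neg ht, run_skip]
    exact ⟨ho1', fun hh => absurd hUw hh⟩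
  have ht : tst n A τ1 (Bx.eq (r1 aU (s vW)) .c0) := by
    have h1 := (hE1.hU w hw).2 hUw
    simp only [tst, ev, vW, aU] at hW1 h1 ⊢
    rw [hW1, h1]
  rw [run_ite_pos ht, run_seq, run_put]
  have e4 : ev n A τ1 .n = n := rfl
  rw [e4, e3]
  set τ2 : Store := upd τ1 vP 0 0 n with hτ2
  have hfr2 : ∀ k, k ≠ vP → τ2 k = τ1 k := fun k h1 => by rw [hτ2, upd_ne h1]
  have hE2 : Env n τ2 b U pos dep g h Z := hE1.congr fun k hk =>
    hfr2 k (by fin_cases hk <;> decide)
  have hW2 : τ2 vW 0 0 = w := by rw [hfr2 vW (by decide), hW1]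
  have hP2 : τ2 vP 0 0 = n := by rw [hτ2, upd_same]
  have ho2 : τ2 out = τ1 out := hfr2 out (fun hh => ho vP (by decide) hh.symm)
  rw [run_seq]
  obtain ⟨hfr3, hse⟩ := search (A := A) ha hma hc hf hs τ2 hE2 w hw hW2 hP2
  set τ3 : Store := run n A (sB c a) τ2 with hτ3
  have hE3 : Env n τ3 b U pos dep g h Z := hE2.congr fun k hk =>
    hfr3 k (by fin_cases hk <;> decide)
  have hW3 : τ3 vW 0 0 = w := by rw [hfr3 vW (by decide), hW2]
  have ho3 : τ3 out = τ2 out := by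
    apply hfr3
    simp only [List.mem_cons, List.not_mem_nil, or_false, not_or]
    exact ⟨fun hh => ho vI (by decide) hh.symm, fun hh => ho vX (by decide) hh.symm,
      fun hh => ho vP (by decide) hh.symm⟩
  have ho3w : τ3 out w 0 = n := by rw [ho3, ho2, ho1]
  have ho3i : ∀ i, i ≠ w → τ3 out i 0 = τ out i 0 := fun i hi => by rw [ho3, ho2, ho1' i hi]
  rcases hse with ⟨hse1, hse2⟩ | ⟨I, hI, hse1, hse2, hse3⟩
  · -- no candidate
    have ht3 : ¬ tst n A τ3 (Bx.and (Bx.lt (s vP) .n)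
        (Bx.not (Bx.lt (Ex.add (r1 aDep (s vW)) .c2) (r1 aH (s vP))))) := by
      rintro ⟨h1, -⟩
      simp only [tst, ev, vP] at h1 hse1
      omega
    rw [run_ite_neg ht3, run_skip]
    refine ⟨ho3i, fun _ p hp => ?_⟩
    rw [ho3w]
    constructor
    · intro hh; omega
    · rintro ⟨⟨I, hI, h1, h2, -⟩, -⟩
      exact absurd h2 (hse2 (f I) (hf I hI))
  · have huniq : ∀ p, HitG n b U dep g h Z f Cc w p → p = f I := by
      rintro p ⟨⟨J, hJ, h1, h2, h3⟩, -⟩
      rcases Nat.lt_trichotomy I J with h4 | h4 | h4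
      · exact absurd h2 (hse3 J h4 hJ)
      · rw [h4, h1]
      · exact absurd hse2 (h3 I h4 hI)
    have hfI := hf I hI
    have hHI := hE3.hh (f I) hfI hse2.2.1
    have hDw := hE3.hdep w hw
    have hcap : min (dep w + 2) (cap n) = dep w + 2 := by
      apply min_eq_left
      unfold cap
      omega
    have htst : tst n A τ3 (Bx.and (Bx.lt (s vP) .n)
        (Bx.not (Bx.lt (Ex.add (r1 aDep (s vW)) .c2) (r1 aH (s vP))))) ↔ h (f I) ≤ dep w + 2 := by
      simp only [tst, ev, vP, vW, aDep, aH] at hse1 hW3 hHI hDw ⊢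
      rw [hse1, hW3, hHI, hDw, hcap]
      constructor
      · rintro ⟨-, h1⟩; omega
      · intro h1; exact ⟨hfI, by omega⟩
    by_cases hle : h (f I) ≤ dep w + 2
    · rw [run_ite_pos (htst.2 hle), run_seq, run_put, e3]
      have hk2 : h (f I) - dep w - 1 < 2 := by omega
      have e5 : ev n A τ3 (r2 aZ (Ex.sub (Ex.sub (r1 aH (s vP)) (r1 aDep (s vW))) .c1) (s vP)) =
          Z (h (f I) - dep w - 1) (f I) := by
        have h1 := hE3.hZ _ (f I) hk2 hfI hse2.2.1
        simp only [ev, vP, vW, aDep, aH, aZ] at hse1 hW3 hHI hDw h1 ⊢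
        rw [hse1, hW3, hHI, hDw, h1]
      rw [e5]
      set z := Z (h (f I) - dep w - 1) (f I) with hz
      have hzn : z < n := hZn _ (f I) hk2 hfI hse2.2.1
      set τ4 : Store := upd τ3 vZ 0 0 z with hτ4
      have hfr4 : ∀ k, k ≠ vZ → τ4 k = τ3 k := fun k h1 => by rw [hτ4, upd_ne h1]
      have hE4 : Env n τ4 b U pos dep g h Z := hE3.congr fun k hk =>
        hfr4 k (by fin_cases hk <;> decide)
      have hW4 : τ4 vW 0 0 = w := by rw [hfr4 vW (by decide), hW3]
      have hZ4 : τ4 vZ 0 0 = z := by rw [hτ4, upd_same]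
      have hP4 : τ4 vP 0 0 = f I := by rw [hfr4 vP (by decide), hse1]
      have ho4 : τ4 out = τ3 out := hfr4 out (fun hh => ho vZ (by decide) hh.symm)
      have htz : tst n A τ4 (Bx.lt .c0 (s vZ)) ↔ 0 < z := by
        simp only [tst, ev, vZ] at hZ4 ⊢
        rw [hZ4]
      by_cases hz0 : 0 < z
      · rw [run_ite_pos (htz.2 hz0)]
        obtain ⟨k1, k2, k3⟩ := hit (A := A) hout τ4 hE4 w hw hgw hW4 z hzn hZ4
        refine ⟨fun i hi => ?_, fun _ p hp => ?_⟩
        · rw [k1 i hi, ho4, ho3i i hi]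
        · by_cases hx : ∃ x, x < n ∧ U x ∧ b z x = 1 ∧ b (g w) x = 1
          · rw [k2 hx, hP4]
            constructor
            · intro h1
              subst h1
              exact ⟨⟨I, hI, rfl, hse2, hse3⟩, hle, hz0, hx⟩
            · intro h1
              exact (huniq p h1).symm
          · rw [k3 hx, ho4, ho3w]
            constructor
            · intro h1; omega
            · intro h1
              have h2 := huniq p h1
              subst h2
              exact absurd h1.2.2.2 hx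
      · rw [run_ite_neg (fun hh => hz0 (htz.1 hh)), run_skip]
        refine ⟨fun i hi => ?_, fun _ p hp => ?_⟩
        · rw [ho4, ho3i i hi]
        · rw [ho4, ho3w]
          constructor
          · intro h1; omega
          · intro h1
            have h2 := huniq p h1
            subst h2
            exact absurd h1.2.2.1 hz0
    · rw [run_ite_neg (fun hh => hle (htst.1 hh)), run_skip]
      refine ⟨ho3i, fun _ p hp => ?_⟩
      rw [ho3w]
      constructor
      · intro h1; omega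
      · intro h1
        have h2 := huniq p h1
        subst h2
        exact absurd h1.2.1 hle

lemma stage {out : ℕ} (hout : out = 47 ∨ out = 48)
    (ha : ∀ τ, run n A a τ = upd τ vX 0 0 (f (τ vI 0 0))) (hma : mods a = [vX])
    (hc : ∀ τ w, Has1 n τ aPos pos → w < n → τ vW 0 0 = w → (tst n A τ c ↔ Cc w (τ vX 0 0)))
    (hf : ∀ I, I < n → f I < n) (hs : ∀ x, x < n → ∃ I, I < n ∧ f I = x)
    (hZn : ∀ k p, k < 2 → p < n → U p → Z k p < n) (hg : ∀ w, w < n → g w < n)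
    (hd : ∀ w, w < n → dep w ≤ n)
    (σ : Store) (hE : Env n σ b U pos dep g h Z) :
    (∀ k, k ∉ [vW, out, vP, vI, vX, vZ] → run n A (cHit c out a .skip) σ k = σ k) ∧
    ∀ w, w < n → ¬ U w → ∀ p, p < n → (run n A (cHit c out a .skip) σ out w 0 = p ↔
      HitG n b U dep g h Z f Cc w p) := by
  have ho : ∀ k, k ∈ [21, 32, 35, 41, 42, 44, 46, 1, 3, 5, 7, 8] → k ≠ out := by
    intro k hk
    rcases hout with h1 | h1 <;> subst h1 <;> fin_cases hk <;> decide
  rw [cHit_eq, run_seq, run_skip]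
  constructor
  · intro k hk
    apply run_frame
    change k ∉ vW :: mods (bd c out a)
    rw [mods_bd c out a hma]
    simp only [List.mem_cons, List.not_mem_nil, or_false, not_or] at hk ⊢
    obtain ⟨h1, h2, h3, h4, h5, h6⟩ := hk
    exact ⟨h1, h2, h3, h4, h5, h3, h6, h5, h2⟩
  · refine loop_post (Q := fun τ => ∀ w, w < n → ¬ U w → ∀ p, p < n → (τ out w 0 = p ↔
      HitG n b U dep g h Z f Cc w p))
      (fun m τ => ∀ w, w < m → ¬ U w → ∀ p, p < n → (τ out w 0 = p ↔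
      HitG n b U dep g h Z f Cc w p)) ?_ ?_ (fun τ _ hh => hh)
    · intro w hw
      exact absurd hw (Nat.not_lt_zero _)
    · intro m hm τ hfr ih
      replace hm : m < n := hm
      rw [mods_bd c out a hma] at hfr
      have hfr' : ∀ k, k ∈ [21, 32, 35, 41, 42, 44, 46] → τ k = σ k := by
        intro k hk
        apply hfr
        have h1 := ho k (by fin_cases hk <;> decide)
        simp only [List.mem_cons, List.not_mem_nil, or_false, not_or]
        refine ⟨?_, h1, ?_, ?_, ?_, ?_, ?_, ?_, h1⟩ <;> (fin_cases hk <;> decide)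
      have hE1 : Env n (upd τ vW 0 0 m) b U pos dep g h Z := hE.congr fun k hk => by
        rw [upd_ne (by fin_cases hk <;> decide), hfr' k hk]
      obtain ⟨k1, k2⟩ := body (A := A) hout ha hma hc hf hs hZn (upd τ vW 0 0 m) hE1 m hm
        (hg m hm) (hd m hm) (upd_same _ _ _ _ _)
      intro w hw hUw p hp
      rcases Nat.lt_succ_iff_lt_or_eq.1 hw with h5 | h5
      · rw [k1 w (by omega), upd_ne (fun hh => ho vW (by decide) hh.symm)]
        exact ih w h5 hUw p hp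
      · subst h5
        exact k2 hUw p hp

end

end LHIT

open LHIT

theorem p_LHIT : T_LHIT := by
  intro n A σ b U pos dep g h Z hn hb hU hU0 hpos hdep hg hgn hdn hh hZ w hw hUw p hp
  have hE : Env n σ b U pos dep g h Z := ⟨hb, hU, hpos, hdep, hg, fun p hp hUp => (hh p hp hUp).1,
    fun k p hk hp hUp => (hZ k p hk hp hUp).1⟩
  have hZn : ∀ k p, k < 2 → p < n → U p → Z k p < n := fun k p hk hp hUp => (hZ k p hk hp hUp).2
  unfold cHits
  rw [run_seq]
  obtain ⟨k1, k2⟩ := stage (A := A) (out := aHR) (c := (Bx.lt (s vW) (s vX)))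
    (a := w0 vX (Ex.sub (Ex.sub .n .c1) (s vI))) (f := fun I => n - 1 - I) (Cc := fun w x => w < x)
    (Or.inl rfl) (fun τ => rfl) rfl
    (fun τ w _ _ hW => by
      simp only [tst, ev, vW, vX] at hW ⊢
      rw [hW]) (fun I hI => by omega) (fun x hx => ⟨n - 1 - x, by omega, by omega⟩) hZn hgn
    (fun w hw => (hdn w hw).1) σ hE
  set τ : Store := run n A (cHit (Bx.lt (s vW) (s vX)) aHR (w0 vX (Ex.sub (Ex.sub .n .c1) (s vI))) .skip) σ with hτ
  have hE' : Env n τ b U pos dep g h Z := hE.congr fun k hk => k1 k (by fin_cases hk <;> decide)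
  obtain ⟨k3, k4⟩ := stage (A := A) (out := aHL) (c := (Bx.lt (s vX) (r1 aPos (s vW))))
    (a := w0 vX (s vI)) (f := fun I => I) (Cc := fun w x => x < pos w)
    (Or.inr rfl) (fun τ => rfl) rfl
    (fun τ w hp hw hW => by
      have h1 := hp w hw
      simp only [tst, ev, vW, vX, aPos] at hW h1 ⊢
      rw [hW, h1]) (fun I hI => hI) (fun x hx => ⟨x, hx, rfl⟩) hZn hgn
    (fun w hw => (hdn w hw).1) τ hE'
  constructor
  · rw [k3 aHR (by decide), k2 w hw hUw p hp]
    constructor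
    · rintro ⟨⟨I, hI, h1, h2, h3⟩, h4, h5, h6⟩
      subst h1
      refine ⟨h2.2.1, hp, h2.1, h2.2.2, ?_, h4, h5, h6⟩
      intro x hx1 hx2 hx3
      by_contra hx4
      have hx3' : x < n - 1 - I := hx3
      refine h3 (n - 1 - x) (by omega) (by omega) ?_
      have : n - 1 - (n - 1 - x) = x := by omega
      simp only [this]
      exact ⟨hx2, hx1, by omega⟩
    · rintro ⟨h1, h2, h3, h4, h5, h6, h7, h8⟩
      refine ⟨⟨n - 1 - p, by omega, ?_, ?_, ?_⟩, h6, h7, h8⟩
      · change n - 1 - (n - 1 - p) = p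
        omega
      · have : n - 1 - (n - 1 - p) = p := by omega
        simp only [this]
        exact ⟨h3, h1, h4⟩
      · rintro I' hI1 hI2 ⟨h9, h10, h11⟩
        have h12 : h (n - 1 - I') ≤ dep w := h5 (n - 1 - I') h10 h9 (by omega)
        have h13 : dep w < h (n - 1 - I') := h11
        omega
  · rw [k4 w hw hUw p hp]
    constructor
    · rintro ⟨⟨I, hI, h1, h2, h3⟩, h4, h5, h6⟩
      subst h1
      refine ⟨h2.2.1, hp, h2.1, h2.2.2, ?_, h4, h5, h6⟩
      intro x hx1 hx2 hx3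
      by_contra hx4
      have := (hdn w hw).2
      have h12 : dep w < h x := by omega
      exact h3 x hx3 (by omega) ⟨hx2, hx1, h12⟩
    · rintro ⟨h1, h2, h3, h4, h5, h6, h7, h8⟩
      refine ⟨⟨p, hp, rfl, ⟨h3, h1, h4⟩, ?_⟩, h6, h7, h8⟩
      rintro I' hI1 hI2 ⟨h9, h10, h11⟩
      have h12 : h I' ≤ dep w := h5 I' h10 h9 hI1
      have h13 : dep w < h I' := h11
      omega

end Pool.Agent.BDC
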