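import Pool.Agent.BDC.TargetsL

/-!
# BDC: LIV, the intervals of the candidates
-/

namespace Pool.Agent.BDC

open N Prog

namespace LIV

/-- the inner loop of `cIv` -/
def innr : Cm :=
  .loop vI .n (
    Cm.seq (whn (Bx.and (Bx.lt .c0 (s vL)) (tb (Ex.sub (s vL) .c1))) (w0 vL (Ex.sub (s vL) .c1)))
    (whn (Bx.and (Bx.lt (s vU) .n) (Bx.or (Bx.eq (r1 aPos (s vU)) (s vP)) (tb (s vU)))) (w0 vU (Ex.add (s vU) .c1))))

/-- the arrays written by `cIv` -/
def mm : List ℕ := [vP, vZ, vR, vL, vU, vI, aRZ, aLZ, aUZ]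

variable {n : ℕ} {A : ℕ → ℕ → ℕ} {σ : Store} {b : ℕ → ℕ → ℕ} {U : ℕ → Prop}
  {fst ys pos dep HR HL : ℕ → ℕ} {ds : ℕ → ℕ → ℕ}

/-- the contents of the arrays used by the tests -/
structure Env (n : ℕ) (σ : Store) (b : ℕ → ℕ → ℕ) (U : ℕ → Prop)
    (fst ys pos dep HR HL : ℕ → ℕ) (ds : ℕ → ℕ → ℕ) : Prop where
  hB : Has2 n σ aB b
  hU : HasP n σ aU U
  hFst : Has1 n σ aFst fst
  hYs : Has1 n σ aYs ys
  hPos : Has1 n σ aPos pos
  hDep : Has1 n σ aDep dep
  hHRL : ∀ w, w < n → ¬ U w → σ aHR w 0 = HR w ∧ σ aHL w 0 = HL w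
  hdep : ∀ w, w < n → dep w ≤ n
  hDs : ∀ p w, p < n → w < n → U p → σ aDs p w = ds p w

lemma Env.congr (h : Env n σ b U fst ys pos dep HR HL ds) {τ : Store}
    (hf : ∀ k', k' ∉ mm → τ k' = σ k') : Env n τ b U fst ys pos dep HR HL ds where
  hB := by intro i j hi hj; rw [hf aB (by decide)]; exact h.hB i j hi hj
  hU := by intro i hi; rw [hf aU (by decide)]; exact h.hU i hi
  hFst := by intro i hi; rw [hf aFst (by decide)]; exact h.hFst i hi
  hYs := by intro i hi; rw [hf aYs (by decide)]; exact h.hYs i hi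
  hPos := by intro i hi; rw [hf aPos (by decide)]; exact h.hPos i hi
  hDep := by intro i hi; rw [hf aDep (by decide)]; exact h.hDep i hi
  hHRL := by
    intro w hw hwU; rw [hf aHR (by decide), hf aHL (by decide)]; exact h.hHRL w hw hwU
  hdep := h.hdep
  hDs := by intro p w hp hw hpU; rw [hf aDs (by decide)]; exact h.hDs p w hp hw hpU

/-- the meaning of the test -/
lemma tb_iff (h : Env n σ b U fst ys pos dep HR HL ds) (wE : Ex) {w p z r : ℕ}
    (hw : ev n A σ wE = w) (hwn : w < n) (hz : σ vZ 0 0 = z) (hzn : z < n)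
    (hp : σ vP 0 0 = p) (hr : σ vR 0 0 = r) (hf1 : fst z < n) (hf2 : U (fst z)) (hy1 : ys z < n)
    (hy2 : U (ys z)) :
    tst n A σ (tb wE) ↔ Tst b U fst ys dep HR HL ds p z r w := by
  have e1 : σ aFst z 0 = fst z := h.hFst z hzn
  have e2 : σ aYs z 0 = ys z := h.hYs z hzn
  have e3 : σ aDs (fst z) w = ds (fst z) w := h.hDs _ _ hf1 hwn hf2
  have e4 : σ aDs (ys z) w = ds (ys z) w := h.hDs _ _ hy1 hwn hy2
  have e5 : σ aB z w = b z w := h.hB z w hzn hwn
  have e6 : σ aDep w 0 = dep w := h.hDep w hwn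
  have e7 := h.hdep w hwn
  have e8 : min (dep w + 1) (cap n) = dep w + 1 := by
    apply min_eq_left; unfold cap; omega
  have e9 := h.hU w hwn
  unfold Tst
  simp only [tb, tst, ev, hw, hz, hp, hr, e1, e2, e3, e4, e5, e6, e8]
  by_cases hU : U w
  · have := e9.1 hU
    simp only [this, hU, not_true_eq_false, false_and, one_ne_zero]
  · have h0 := e9.2 hU
    obtain ⟨h1, h2⟩ := h.hHRL w hwn hU
    simp only [h0, h1, h2, hU, not_false_eq_true, true_and]

/-- the result of the inner loop -/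
lemma innr_spec (h : Env n σ b U fst ys pos dep HR HL ds) {p z r : ℕ} (hpn : p < n)
    (hz : σ vZ 0 0 = z) (hzn : z < n)
    (hp : σ vP 0 0 = p) (hr : σ vR 0 0 = r) (hf1 : fst z < n) (hf2 : U (fst z)) (hy1 : ys z < n)
    (hy2 : U (ys z)) (hL : σ vL 0 0 = p) (hUu : σ vU 0 0 = p + 1) :
    ∃ l u, run n A innr σ vL 0 0 = l ∧ run n A innr σ vU 0 0 = u ∧
      l ≤ p ∧ p < u ∧ u ≤ n ∧
      (∀ w, l ≤ w → w < p → Tst b U fst ys dep HR HL ds p z r w) ∧
      (∀ w, p < w → w < u → pos w = p ∨ Tst b U fst ys dep HR HL ds p z r w) ∧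
      (l = 0 ∨ ¬ Tst b U fst ys dep HR HL ds p z r (l - 1)) ∧
      (u = n ∨ ¬ (pos u = p ∨ Tst b U fst ys dep HR HL ds p z r u)) := by
  unfold innr
  refine loop_post (Q := fun τ => ∃ l u, τ vL 0 0 = l ∧ τ vU 0 0 = u ∧
      l ≤ p ∧ p < u ∧ u ≤ n ∧
      (∀ w, l ≤ w → w < p → Tst b U fst ys dep HR HL ds p z r w) ∧
      (∀ w, p < w → w < u → pos w = p ∨ Tst b U fst ys dep HR HL ds p z r w) ∧
      (l = 0 ∨ ¬ Tst b U fst ys dep HR HL ds p z r (l - 1)) ∧
      (u = n ∨ ¬ (pos u = p ∨ Tst b U fst ys dep HR HL ds p z r u)))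
    (fun i τ => ∃ l u, τ vL 0 0 = l ∧ τ vU 0 0 = u ∧
      l ≤ p ∧ p < u ∧ u ≤ n ∧
      (∀ w, l ≤ w → w < p → Tst b U fst ys dep HR HL ds p z r w) ∧
      (∀ w, p < w → w < u → pos w = p ∨ Tst b U fst ys dep HR HL ds p z r w) ∧
      (l + i = p ∨ (l = 0 ∨ ¬ Tst b U fst ys dep HR HL ds p z r (l - 1))) ∧
      (u = p + 1 + i ∨ (u = n ∨ ¬ (pos u = p ∨ Tst b U fst ys dep HR HL ds p z r u)))) ?_ ?_ ?_
  · exact ⟨p, p + 1, hL, hUu, le_rfl, Nat.lt_succ_self p, hpn, fun w h1 h2 => by omega,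
      fun w h1 h2 => by omega, Or.inl rfl, Or.inl rfl⟩
  · intro i hi τ hf ⟨l, u, hl, hu, h1, h2, h3, h4, h5, h6, h7⟩
    -- the environment is unchanged
    have hfr : ∀ (τ' : Store), (∀ k', k' ∉ [vI, vL, vU] → τ' k' = τ k') →
        Env n τ' b U fst ys pos dep HR HL ds ∧ τ' vZ 0 0 = z ∧ τ' vP 0 0 = p ∧ τ' vR 0 0 = r := by
      intro τ' hτ'
      have hτσ : ∀ k', k' ∉ [vI, vL, vU] → τ' k' = σ k' := by
        intro k' hk'
        rw [hτ' k' hk']
        apply hf
        simp only [mods, List.mem_cons, List.mem_append, List.not_mem_nil, or_false,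
          not_or] at hk' ⊢
        tauto
      refine ⟨h.congr ?_, ?_, ?_, ?_⟩
      · intro k' hk'
        apply hτσ
        simp only [mm, List.mem_cons, List.not_mem_nil, or_false, not_or] at hk' ⊢
        tauto
      · rw [hτσ vZ (by decide)]; exact hz
      · rw [hτσ vP (by decide)]; exact hp
      · rw [hτσ vR (by decide)]; exact hr
    rw [run_seq]
    -- first command
    set τ₀ := upd τ vI 0 0 i with hτ₀
    have hl0 : τ₀ vL 0 0 = l := by simpa [hτ₀, upd] using hl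
    have hu0 : τ₀ vU 0 0 = u := by simpa [hτ₀, upd] using hu
    obtain ⟨hE0, hz0, hp0, hr0⟩ := hfr τ₀ (fun k' hk' => upd_ne (by
      simp only [List.mem_cons, not_or] at hk'; exact hk'.1) _ _ _)
    set c1 : Cm := whn (Bx.and (Bx.lt .c0 (s vL)) (tb (Ex.sub (s vL) .c1))) (w0 vL (Ex.sub (s vL) .c1)) with hc1
    have hstep1 : ∃ l', run n A c1 τ₀ vL 0 0 = l' ∧ l' ≤ p ∧
        (∀ w, l' ≤ w → w < p → Tst b U fst ys dep HR HL ds p z r w) ∧
        (l' + (i + 1) = p ∨ (l' = 0 ∨ ¬ Tst b U fst ys dep HR HL ds p z r (l' - 1))) := by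
      by_cases hl00 : l = 0
      · refine ⟨0, ?_, Nat.zero_le _, ?_, Or.inr (Or.inl rfl)⟩
        · rw [hc1, run_ite_neg, run_skip, hl0, hl00]
          simp [tst, ev, hl0, hl00]
        · rw [← hl00]; exact h4
      · have hw : ev n A τ₀ (Ex.sub (s vL) .c1) = l - 1 := by simp [ev, hl0]
        have hiff := tb_iff (A := A) hE0 (Ex.sub (s vL) .c1) hw (by omega) hz0 hzn hp0 hr0 hf1 hf2 hy1 hy2
        by_cases hT : Tst b U fst ys dep HR HL ds p z r (l - 1)
        · refine ⟨l - 1, ?_, by omega, ?_, ?_⟩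
          · rw [hc1, run_ite_pos, run_put]
            · simp [ev, upd, hl0]
            · refine ⟨?_, hiff.mpr hT⟩
              show ev n A τ₀ .c0 < ev n A τ₀ (s vL)
              simp [ev, hl0]; omega
          · intro w hw1 hw2
            by_cases hwl : w = l - 1
            · subst hwl; exact hT
            · exact h4 w (by omega) hw2
          · rcases h6 with h6 | h6 | h6
            · left; omega
            · exact absurd h6 hl00
            · exact absurd hT h6
        · refine ⟨l, ?_, h1, h4, Or.inr (Or.inr hT)⟩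
          rw [hc1, run_ite_neg, run_skip, hl0]
          exact fun hcon => hT (hiff.mp hcon.2)
    obtain ⟨l', hl', h1', h4', h6'⟩ := hstep1
    set τ₁ := run n A c1 τ₀ with hτ₁
    have hmod1 : ∀ k', k' ∉ [vI, vL] → τ₁ k' = τ k' := by
      intro k' hk'
      simp only [List.mem_cons, List.not_mem_nil, or_false, not_or] at hk'
      rw [hτ₁, run_frame _ _ k' (by simp only [hc1, mods, List.mem_append, List.mem_cons,
        List.not_mem_nil, or_false]; exact hk'.2), hτ₀, upd_ne hk'.1]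
    have hu1 : τ₁ vU 0 0 = u := by rw [hmod1 vU (by decide)]; exact hu
    obtain ⟨hE1, hz1, hp1, hr1⟩ := hfr τ₁ (fun k' hk' => hmod1 k' (by
      simp only [List.mem_cons, List.not_mem_nil, or_false, not_or] at hk' ⊢
      exact ⟨hk'.1, hk'.2.1⟩))
    set c2 : Cm := whn (Bx.and (Bx.lt (s vU) .n) (Bx.or (Bx.eq (r1 aPos (s vU)) (s vP)) (tb (s vU))))
      (w0 vU (Ex.add (s vU) .c1)) with hc2
    have hL2 : run n A c2 τ₁ vL 0 0 = l' := by
      rw [run_frame _ _ vL (by decide)]; exact hl'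
    have hstep2 : ∃ u', run n A c2 τ₁ vU 0 0 = u' ∧ p < u' ∧ u' ≤ n ∧
        (∀ w, p < w → w < u' → pos w = p ∨ Tst b U fst ys dep HR HL ds p z r w) ∧
        (u' = p + 1 + (i + 1) ∨ (u' = n ∨
          ¬ (pos u' = p ∨ Tst b U fst ys dep HR HL ds p z r u'))) := by
      by_cases hun : u = n
      · refine ⟨n, ?_, hpn, le_rfl, ?_, Or.inr (Or.inl rfl)⟩
        · rw [hc2, run_ite_neg, run_skip, hu1, hun]
          rintro ⟨hcon, _⟩
          have : ev n A τ₁ (s vU) < ev n A τ₁ .n := hcon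
          simp only [ev, hu1, hun] at this
          omega
        · rw [← hun]; exact h5
      · have hun' : u < n := by omega
        have hw : ev n A τ₁ (s vU) = u := by simp [ev, hu1]
        have hiff := tb_iff (A := A) hE1 (s vU) hw hun' hz1 hzn hp1 hr1 hf1 hf2 hy1 hy2
        have hposu : tst n A τ₁ (Bx.eq (r1 aPos (s vU)) (s vP)) ↔ pos u = p := by
          show ev n A τ₁ (r1 aPos (s vU)) = ev n A τ₁ (s vP) ↔ _
          simp only [ev, hu1, hp1, hE1.hPos u hun']
        by_cases hT : pos u = p ∨ Tst b U fst ys dep HR HL ds p z r u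
        · refine ⟨u + 1, ?_, by omega, by omega, ?_, ?_⟩
          · rw [hc2, run_ite_pos, run_put]
            · have : min (u + 1) (cap n) = u + 1 := by
                apply min_eq_left; unfold cap; omega
              simp [ev, upd, hu1, this]
            · refine ⟨?_, ?_⟩
              · show ev n A τ₁ (s vU) < ev n A τ₁ .n
                simp only [ev, hu1]; exact hun'
              · rcases hT with hT | hT
                · exact Or.inl (hposu.mpr hT)
                · exact Or.inr (hiff.mpr hT)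
          · intro w hw1 hw2
            by_cases hwl : w = u
            · subst hwl; exact hT
            · exact h5 w hw1 (by omega)
          · rcases h7 with h7 | h7 | h7
            · left; omega
            · exact absurd h7 hun
            · exact absurd hT h7
        · refine ⟨u, ?_, h2, h3, h5, Or.inr (Or.inr hT)⟩
          rw [hc2, run_ite_neg, run_skip, hu1]
          rintro ⟨_, hcon⟩
          apply hT
          rcases hcon with hcon | hcon
          · exact Or.inl (hposu.mp hcon)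
          · exact Or.inr (hiff.mp hcon)
    obtain ⟨u', hu', h2', h3', h5', h7'⟩ := hstep2
    exact ⟨l', u', hL2, hu', h1', h2', h3', h4', h5', h6', h7'⟩
  · intro τ _ ⟨l, u, hl, hu, h1, h2, h3, h4, h5, h6, h7⟩
    refine ⟨l, u, hl, hu, h1, h2, h3, h4, h5, ?_, ?_⟩
    · rcases h6 with h6 | h6
      · simp only [ev] at h6; omega
      · exact h6
    · rcases h7 with h7 | h7
      · simp only [ev] at h7; omega
      · exact h7

end LIV

open LIV in
theorem p_LIV : T_LIV := by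
  intro n A σ b U fst ys pos dep h HR HL Z okp ds k kE hk hn hB hU hFst hYs hPos hDep hHRL hdep
    hH hZ hDs hc
  have hEnv : Env n σ b U fst ys pos dep HR HL ds :=
    ⟨hB, hU, hFst, hYs, hPos, hDep, hHRL, hdep, hDs⟩
  have hkE : ∀ τ : Store, ev n A τ kE = k := by
    intro τ
    rcases hk with ⟨rfl, rfl⟩ | ⟨rfl, rfl⟩ <;> rfl
  -- the property of one row
  let Row : ℕ → Store → Prop := fun p τ =>
      (¬ (0 < Z k p ∧ 0 < h p - k ∧ okp k p = 1) → τ aRZ k p = 0) ∧
      ((0 < Z k p ∧ 0 < h p - k ∧ okp k p = 1) → τ aRZ k p = h p - k ∧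
        τ aLZ k p ≤ p ∧ p < τ aUZ k p ∧ τ aUZ k p ≤ n ∧
        (∀ w, τ aLZ k p ≤ w → w < p →
          Tst b U fst ys dep HR HL ds p (Z k p) (h p - k) w) ∧
        (∀ w, p < w → w < τ aUZ k p →
          pos w = p ∨ Tst b U fst ys dep HR HL ds p (Z k p) (h p - k) w) ∧
        (τ aLZ k p = 0 ∨
          ¬ Tst b U fst ys dep HR HL ds p (Z k p) (h p - k) (τ aLZ k p - 1)) ∧
        (τ aUZ k p = n ∨
          ¬ (pos (τ aUZ k p) = p ∨
            Tst b U fst ys dep HR HL ds p (Z k p) (h p - k) (τ aUZ k p))))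
  have hRow : ∀ p (τ τ' : Store), τ' aRZ k p = τ aRZ k p → τ' aLZ k p = τ aLZ k p →
      τ' aUZ k p = τ aUZ k p → Row p τ → Row p τ' := by
    intro p τ τ' h1 h2 h3 hR
    simp only [Row, h1, h2, h3] at hR ⊢
    exact hR
  show (∀ p, p < n → U p → Row p (run n A (cIv kE) σ)) ∧
    ∀ k' p, k' ≠ k → run n A (cIv kE) σ aRZ k' p = σ aRZ k' p ∧
      run n A (cIv kE) σ aLZ k' p = σ aLZ k' p ∧ run n A (cIv kE) σ aUZ k' p = σ aUZ k' p
  unfold cIv
  refine loop_post (Q := fun τ => (∀ p, p < n → U p → Row p τ) ∧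
      ∀ k' p, k' ≠ k → τ aRZ k' p = σ aRZ k' p ∧ τ aLZ k' p = σ aLZ k' p ∧
        τ aUZ k' p = σ aUZ k' p)
    (fun m τ => (∀ p, p < m → U p → Row p τ) ∧
      ∀ k' p, k' ≠ k → τ aRZ k' p = σ aRZ k' p ∧ τ aLZ k' p = σ aLZ k' p ∧
        τ aUZ k' p = σ aUZ k' p) ?_ ?_ (fun τ _ h => h)
  · exact ⟨fun p hp => by omega, fun k' p _ => ⟨rfl, rfl, rfl⟩⟩
  · intro m hm τ hf ⟨hI1, hI2⟩
    replace hm : m < n := hm
    have hfσ : ∀ k', k' ∉ mm → τ k' = σ k' := by
      intro k' hk'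
      apply hf
      simp only [mm, List.mem_cons, List.not_mem_nil, or_false, not_or] at hk'
      simp only [mods, List.mem_cons, List.mem_append, List.not_mem_nil, or_false, not_or]
      tauto
    rw [run_seq, run_seq, run_seq]
    set τ₃ := run n A (w0 vR (Ex.sub (r1 aH (s vP)) kE)) (run n A (w0 vZ (r2 aZ kE (s vP)))
      (run n A (w2 aRZ kE (s vP) .c0) (upd τ vP 0 0 m))) with hτ₃
    have hmod3 : ∀ k', k' ∉ [vP, vZ, vR, aRZ] → τ₃ k' = τ k' := by
      intro k' hk'
      simp only [List.mem_cons, List.not_mem_nil, or_false, not_or] at hk'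
      rw [hτ₃, run_put, run_put, run_put, upd_ne hk'.2.2.1, upd_ne hk'.2.1, upd_ne hk'.2.2.2,
        upd_ne hk'.1]
    have hvP : τ₃ vP 0 0 = m := by simp [hτ₃, upd]
    have hvZ : τ₃ vZ 0 0 = τ aZ k m := by simp [hτ₃, upd, ev, hkE]
    have hvR : τ₃ vR 0 0 = τ aH m 0 - k := by simp [hτ₃, upd, ev, hkE]
    have hRZ : ∀ i j, ¬ (i = k ∧ j = m) → τ₃ aRZ i j = τ aRZ i j := by
      intro i j hij
      simp only [hτ₃, run_put, upd, ev, hkE]
      simp [hij]
    have hRZ0 : τ₃ aRZ k m = 0 := by simp [hτ₃, upd, ev, hkE]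
    have hf3 : ∀ k', k' ∉ mm → τ₃ k' = σ k' := by
      intro k' hk'
      rw [hmod3 k', hfσ k' hk']
      simp only [mm, List.mem_cons, List.not_mem_nil, or_false, not_or] at hk' ⊢
      tauto
    have haU : τ₃ aU m 0 = σ aU m 0 := by rw [hf3 aU (by decide)]
    have haZ : τ aZ k m = σ aZ k m := by rw [hfσ aZ (by decide)]
    have haH : τ aH m 0 = σ aH m 0 := by rw [hfσ aH (by decide)]
    have haO : τ₃ aOkp k m = σ aOkp k m := by rw [hf3 aOkp (by decide)]
    have hcond : tst n A τ₃ (Bx.and (Bx.eq (r1 aU (s vP)) .c1) (Bx.and (Bx.lt .c0 (s vZ)) (Bx.and (Bx.lt .c0 (s vR))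
        (Bx.eq (r2 aOkp kE (s vP)) .c1)))) ↔ (U m ∧ 0 < Z k m ∧ 0 < h m - k ∧ okp k m = 1) := by
      simp only [tst, ev, hvP, hvZ, hvR, haU, haZ, haH, haO, hkE]
      by_cases hUm : U m
      · obtain ⟨e1, e2, e3⟩ := hZ m hm hUm
        rw [(hU m hm).1 hUm, e1, e3, (hH m hm hUm).1]
        simp [hUm]
      · rw [(hU m hm).2 hUm]
        simp [hUm]
    -- old rows
    have hold3 : ∀ p, p < m → τ₃ aRZ k p = τ aRZ k p ∧ τ₃ aLZ k p = τ aLZ k p ∧
        τ₃ aUZ k p = τ aUZ k p := by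
      intro p hp
      refine ⟨hRZ k p (by omega), ?_, ?_⟩
      · rw [hmod3 aLZ (by decide)]
      · rw [hmod3 aUZ (by decide)]
    have hoth3 : ∀ k' p, k' ≠ k → τ₃ aRZ k' p = σ aRZ k' p ∧ τ₃ aLZ k' p = σ aLZ k' p ∧
        τ₃ aUZ k' p = σ aUZ k' p := by
      intro k' p hk'
      obtain ⟨h1, h2, h3⟩ := hI2 k' p hk'
      refine ⟨?_, ?_, ?_⟩
      · rw [hRZ k' p (fun h => hk' h.1)]; exact h1
      · rw [hmod3 aLZ (by decide)]; exact h2
      · rw [hmod3 aUZ (by decide)]; exact h3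
    by_cases hC : U m ∧ 0 < Z k m ∧ 0 < h m - k ∧ okp k m = 1
    · rw [run_ite_pos (hcond.mpr hC)]
      obtain ⟨hUm, hC1, hC2, hC3⟩ := hC
      obtain ⟨e1, e2, e3⟩ := hZ m hm hUm
      obtain ⟨e4, e5⟩ := hH m hm hUm
      rw [run_seq, run_seq, run_seq, run_seq, run_seq]
      set τ₄ := run n A (w0 vU (Ex.add (s vP) .c1)) (run n A (w0 vL (s vP)) τ₃) with hτ₄
      have hmod4 : ∀ k', k' ∉ [vL, vU] → τ₄ k' = τ₃ k' := by
        intro k' hk'
        simp only [List.mem_cons, List.not_mem_nil, or_false, not_or] at hk'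
        rw [hτ₄, run_put, run_put, upd_ne hk'.2, upd_ne hk'.1]
      have hcap : min (m + 1) (cap n) = m + 1 := by
        apply min_eq_left; unfold cap; omega
      have hL4 : τ₄ vL 0 0 = m := by
        simp only [hτ₄, run_put, upd, ev]
        simp [hvP]
      have hU4 : τ₄ vU 0 0 = m + 1 := by
        simp only [hτ₄, run_put, upd, ev]
        simp [hvP, hcap]
      have hf4 : ∀ k', k' ∉ mm → τ₄ k' = σ k' := by
        intro k' hk'
        rw [hmod4 k', hf3 k' hk']
        simp only [mm, List.mem_cons, List.not_mem_nil, or_false, not_or] at hk' ⊢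
        tauto
      obtain ⟨hc1, hc2, hc3, hc4⟩ := hc m hm hUm hC1
      have hP4 : τ₄ vP 0 0 = m := by rw [hmod4 vP (by decide)]; exact hvP
      have hR4 : τ₄ vR 0 0 = h m - k := by rw [hmod4 vR (by decide), hvR, haH, e4]
      obtain ⟨l, u, hl, hu, h1, h2, h3, h4, h5, h6, h7⟩ := innr_spec (A := A) (hEnv.congr hf4)
        (z := Z k m) (r := h m - k) hm
        (by rw [hmod4 vZ (by decide), hvZ, haZ, e1]) e2
        hP4 hR4 hc1 hc2 hc3 hc4 hL4 hU4
      set τ₅ := run n A innr τ₄ with hτ₅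
      have hmod5 : ∀ k', k' ∉ [vI, vL, vU] → τ₅ k' = τ₄ k' := by
        intro k' hk'
        rw [hτ₅, run_frame _ _ k']
        simp only [List.mem_cons, List.not_mem_nil, or_false, not_or] at hk'
        simp only [innr, mods, List.mem_cons, List.mem_append, List.not_mem_nil, or_false, not_or]
        tauto
      have hP5 : τ₅ vP 0 0 = m := by rw [hmod5 vP (by decide)]; exact hP4
      have hR5 : τ₅ vR 0 0 = h m - k := by rw [hmod5 vR (by decide)]; exact hR4
      set τ₆ := run n A (w2 aRZ kE (s vP) (s vR))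
          (run n A (w2 aUZ kE (s vP) (s vU)) (run n A (w2 aLZ kE (s vP) (s vL)) τ₅)) with hτ₆
      have hLm : τ₆ aLZ k m = l := by
        simp only [hτ₆, run_put, upd, ev, hkE]
        simp [hP5, hl]
      have hUm6 : τ₆ aUZ k m = u := by
        simp only [hτ₆, run_put, upd, ev, hkE]
        simp [hP5, hu]
      have hRm : τ₆ aRZ k m = h m - k := by
        simp only [hτ₆, run_put, upd, ev, hkE]
        simp [hP5, hR5]
      have hLo : ∀ i j, ¬ (i = k ∧ j = m) → τ₆ aLZ i j = τ₃ aLZ i j := by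
        intro i j hij
        have : τ₆ aLZ i j = τ₅ aLZ i j := by
          simp only [hτ₆, run_put, upd, ev, hkE]
          simp [hP5, hij]
        rw [this, hmod5 aLZ (by decide), hmod4 aLZ (by decide)]
      have hUo : ∀ i j, ¬ (i = k ∧ j = m) → τ₆ aUZ i j = τ₃ aUZ i j := by
        intro i j hij
        have : τ₆ aUZ i j = τ₅ aUZ i j := by
          simp only [hτ₆, run_put, upd, ev, hkE]
          simp [hP5, hij]
        rw [this, hmod5 aUZ (by decide), hmod4 aUZ (by decide)]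
      have hRo : ∀ i j, ¬ (i = k ∧ j = m) → τ₆ aRZ i j = τ₃ aRZ i j := by
        intro i j hij
        have : τ₆ aRZ i j = τ₅ aRZ i j := by
          simp only [hτ₆, run_put, upd, ev, hkE]
          simp [hP5, hij]
        rw [this, hmod5 aRZ (by decide), hmod4 aRZ (by decide)]
      show (∀ p, p < m + 1 → U p → Row p τ₆) ∧
        ∀ k' p, k' ≠ k → τ₆ aRZ k' p = σ aRZ k' p ∧ τ₆ aLZ k' p = σ aLZ k' p ∧
          τ₆ aUZ k' p = σ aUZ k' p
      refine ⟨?_, ?_⟩
      · intro p hp hUp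
        by_cases hpm : p = m
        · subst hpm
          refine ⟨fun hcon => absurd ⟨hC1, hC2, hC3⟩ hcon, fun _ => ?_⟩
          rw [hLm, hUm6, hRm]
          exact ⟨rfl, h1, h2, h3, h4, h5, h6, h7⟩
        · have hpm' : p < m := by omega
          obtain ⟨o1, o2, o3⟩ := hold3 p hpm'
          refine hRow p τ τ₆ ?_ ?_ ?_ (hI1 p hpm' hUp)
          · rw [hRo k p (by omega), o1]
          · rw [hLo k p (by omega), o2]
          · rw [hUo k p (by omega), o3]
      · intro k' p hk'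
        obtain ⟨o1, o2, o3⟩ := hoth3 k' p hk'
        refine ⟨?_, ?_, ?_⟩
        · rw [hRo k' p (fun h => hk' h.1), o1]
        · rw [hLo k' p (fun h => hk' h.1), o2]
        · rw [hUo k' p (fun h => hk' h.1), o3]
    · rw [run_ite_neg (fun hcon => hC (hcond.mp hcon)), run_skip]
      refine ⟨?_, hoth3⟩
      intro p hp hUp
      by_cases hpm : p = m
      · subst hpm
        simp only [Row]
        exact ⟨fun _ => hRZ0, fun hcon => absurd ⟨hUp, hcon⟩ hC⟩
      · have hpm' : p < m := by omega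
        obtain ⟨o1, o2, o3⟩ := hold3 p hpm'
        exact hRow p τ τ₃ o1 o2 o3 (hI1 p hpm' hUp)

end Pool.Agent.BDC
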