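import Pool.Agent.BDC.TargetsL

/-!
# BDC: verification of the maximum cardinality search (`T_LMCS`)
-/

namespace Pool.Agent.BDC

open N Prog

namespace LMCS

/-- the search for an unvisited vertex of maximal weight -/
def cFind : Cm := .loop vX .n (
  whn (Bx.and (Bx.eq (r1 aVis (s vX)) .c0) (Bx.lt (s vM) (Ex.add (r1 aWt (s vX)) .c1)))
    (Cm.seq (w0 vM (Ex.add (r1 aWt (s vX)) .c1)) (w0 vY (s vX))))

/-- the update of the weights -/
def cAdd : Cm := .loop vX .n (w1 aWt (s vX) (Ex.add (r1 aWt (s vX)) (r2 aA (s vY) (s vX))))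

/-- the body of the main loop -/
def cBody : Cm :=
  Cm.seq (w0 vM .c0) (Cm.seq (w0 vY .c0) (Cm.seq cFind
    (Cm.seq (w1 aVis (s vY) .c1) (Cm.seq (w1 aOrd (s vI) (s vY)) (Cm.seq (w1 aNum (s vY) (s vI)) cAdd)))))

/-- the initialisation -/
def cPre : Cm :=
  Cm.seq (.loop vX .n (Cm.seq (w1 aVis (s vX) .c0) (w1 aWt (s vX) .c0))) (w1 aWt (s vCur) .c1)

lemma run_cMcs (n : ℕ) (A : ℕ → ℕ → ℕ) (σ : Store) :
    run n A cMcs σ = run n A (.loop vI .n cBody) (run n A cPre σ) := rfl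

lemma l_find (n : ℕ) (A : ℕ → ℕ → ℕ) (τ : Store) (hM : τ vM 0 0 = 0)
    (hb : ∀ x, x < n → τ aWt x 0 + 1 ≤ cap n) (hex : ∃ x, x < n ∧ τ aVis x 0 = 0) :
    run n A cFind τ vY 0 0 < n ∧ τ aVis (run n A cFind τ vY 0 0) 0 = 0 ∧
      ∀ y, y < n → τ aVis y 0 = 0 → τ aWt y 0 ≤ τ aWt (run n A cFind τ vY 0 0) 0 := by
  unfold cFind
  refine loop_post (Q := fun ρ => ρ vY 0 0 < n ∧ τ aVis (ρ vY 0 0) 0 = 0 ∧
      ∀ y, y < n → τ aVis y 0 = 0 → τ aWt y 0 ≤ τ aWt (ρ vY 0 0) 0)
    (fun x ρ => (ρ vM 0 0 = 0 ∧ ∀ y, y < x → τ aVis y 0 ≠ 0) ∨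
      (ρ vY 0 0 < x ∧ τ aVis (ρ vY 0 0) 0 = 0 ∧ ρ vM 0 0 = τ aWt (ρ vY 0 0) 0 + 1 ∧
        ∀ y, y < x → τ aVis y 0 = 0 → τ aWt y 0 ≤ τ aWt (ρ vY 0 0) 0)) ?_ ?_ ?_
  · left
    exact ⟨hM, fun y hy => by omega⟩
  · intro x hx ρ hf ih
    replace hx : x < n := hx
    have hV : ρ aVis = τ aVis := hf aVis (by decide)
    have hW : ρ aWt = τ aWt := hf aWt (by decide)
    have hbx := hb x hx
    by_cases hv : τ aVis x 0 = 0
    · by_cases hm : ρ vM 0 0 < τ aWt x 0 + 1
      · rw [run_ite_pos (by simp [tst, ev, upd, hV, hW, hv, hm, min_eq_left hbx])]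
        right
        have hY : run n A (Cm.seq (w0 vM (Ex.add (r1 aWt (s vX)) .c1)) (w0 vY (s vX)))
            (upd ρ vX 0 0 x) vY 0 0 = x := by simp [ev, upd]
        have hM' : run n A (Cm.seq (w0 vM (Ex.add (r1 aWt (s vX)) .c1)) (w0 vY (s vX)))
            (upd ρ vX 0 0 x) vM 0 0 = τ aWt x 0 + 1 := by
          simp [ev, upd, hW, min_eq_left hbx]
        rw [hY, hM']
        refine ⟨by omega, hv, rfl, ?_⟩
        intro y hy hvy
        rcases ih with ⟨_, h2⟩ | ⟨_, _, h3, h4⟩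
        · by_cases hyx : y = x
          · subst hyx; exact le_rfl
          · exact absurd hvy (h2 y (by omega))
        · by_cases hyx : y = x
          · subst hyx; exact le_rfl
          · have := h4 y (by omega) hvy
            omega
      · have hm2 : ¬ ρ 6 0 0 < τ 23 x 0 + 1 := hm
        rw [run_ite_neg (by simp [tst, ev, upd, hV, hW, hv, min_eq_left hbx]; omega)]
        have hY : run n A .skip (upd ρ vX 0 0 x) vY 0 0 = ρ vY 0 0 := by simp [upd]
        have hM' : run n A .skip (upd ρ vX 0 0 x) vM 0 0 = ρ vM 0 0 := by simp [upd]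
        rw [hY, hM']
        rcases ih with ⟨h1, _⟩ | ⟨h1, h2, h3, h4⟩
        · omega
        · right
          refine ⟨by omega, h2, h3, ?_⟩
          intro y hy hvy
          by_cases hyx : y = x
          · subst hyx; omega
          · exact h4 y (by omega) hvy
    · rw [run_ite_neg (by simp [tst, ev, upd, hV, hv])]
      have hY : run n A .skip (upd ρ vX 0 0 x) vY 0 0 = ρ vY 0 0 := by simp [upd]
      have hM' : run n A .skip (upd ρ vX 0 0 x) vM 0 0 = ρ vM 0 0 := by simp [upd]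
      rw [hY, hM']
      rcases ih with ⟨h1, h2⟩ | ⟨h1, h2, h3, h4⟩
      · left
        refine ⟨h1, fun y hy => ?_⟩
        by_cases hyx : y = x
        · subst hyx; exact hv
        · exact h2 y (by omega)
      · right
        refine ⟨by omega, h2, h3, ?_⟩
        intro y hy hvy
        by_cases hyx : y = x
        · subst hyx; exact absurd hvy hv
        · exact h4 y (by omega) hvy
  · intro ρ _ h
    replace h : (ρ vM 0 0 = 0 ∧ ∀ y, y < n → τ aVis y 0 ≠ 0) ∨
      (ρ vY 0 0 < n ∧ τ aVis (ρ vY 0 0) 0 = 0 ∧ ρ vM 0 0 = τ aWt (ρ vY 0 0) 0 + 1 ∧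
        ∀ y, y < n → τ aVis y 0 = 0 → τ aWt y 0 ≤ τ aWt (ρ vY 0 0) 0) := h
    rcases h with ⟨_, h2⟩ | ⟨h1, h2, _, h4⟩
    · obtain ⟨x, hx, hv⟩ := hex
      exact absurd hv (h2 x hx)
    · exact ⟨h1, h2, h4⟩

lemma l_add (n : ℕ) (A : ℕ → ℕ → ℕ) (τ : Store)
    (hb : ∀ x, x < n → τ aWt x 0 + τ aA (τ vY 0 0) x ≤ cap n) :
    ∀ x, x < n → run n A cAdd τ aWt x 0 = τ aWt x 0 + τ aA (τ vY 0 0) x := by
  unfold cAdd
  refine loop_post (Q := fun ρ => ∀ x, x < n → ρ aWt x 0 = τ aWt x 0 + τ aA (τ vY 0 0) x)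
    (fun m ρ => (∀ x, x < m → ρ aWt x 0 = τ aWt x 0 + τ aA (τ vY 0 0) x) ∧
      ∀ x, m ≤ x → ρ aWt x 0 = τ aWt x 0) ?_ ?_ ?_
  · exact ⟨fun x hx => by omega, fun x _ => rfl⟩
  · intro m hm ρ hf ih
    replace hm : m < n := hm
    obtain ⟨h1, h2⟩ := ih
    have hA : ρ aA = τ aA := hf aA (by decide)
    have hY : ρ vY = τ vY := hf vY (by decide)
    have hval : ev n A (upd ρ vX 0 0 m) (Ex.add (r1 aWt (s vX)) (r2 aA (s vY) (s vX))) =
        τ aWt m 0 + τ aA (τ vY 0 0) m := by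
      have := h2 m le_rfl
      simp [ev, upd, hA, hY, this, min_eq_left (hb m hm)]
    have hrun : ∀ x, run n A (w1 aWt (s vX) (Ex.add (r1 aWt (s vX)) (r2 aA (s vY) (s vX))))
        (upd ρ vX 0 0 m) aWt x 0 = if x = m then τ aWt m 0 + τ aA (τ vY 0 0) m else ρ aWt x 0 := by
      intro x
      rw [run_put, hval]
      simp [ev, upd]
    refine ⟨?_, ?_⟩
    · intro x hx
      rw [hrun]
      by_cases hxm : x = m
      · rw [if_pos hxm, hxm]
      · rw [if_neg hxm]; exact h1 x (by omega)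
    · intro x hx
      rw [hrun, if_neg (by omega)]
      exact h2 x (by omega)
  · intro ρ _ h
    exact h.1

/-- The invariant of the main loop. -/
structure Inv (n : ℕ) (a : ℕ → ℕ → ℕ) (cur i : ℕ) (τ : Store) : Prop where
  lt : ∀ k, k < i → τ aOrd k 0 < n
  inj : ∀ k k', k < i → k' < i → τ aOrd k 0 = τ aOrd k' 0 → k = k'
  zero : 0 < i → τ aOrd 0 0 = cur
  num : ∀ k, k < i → τ aNum (τ aOrd k 0) 0 = k
  vis : ∀ x, x < n → (τ aVis x 0 = 0 ↔ ∀ k, k < i → τ aOrd k 0 ≠ x)
  wt : ∀ x, x < n → τ aWt x 0 = ∑ k ∈ Finset.range i, a (τ aOrd k 0) x + (if x = cur then 1 else 0)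
  mcs : ∀ j x, 1 ≤ j → j < i → x < n → (∀ k, k < j → τ aOrd k 0 ≠ x) →
    ∑ k ∈ Finset.range j, a (τ aOrd k 0) x ≤ ∑ k ∈ Finset.range j, a (τ aOrd k 0) (τ aOrd j 0)

lemma sum_le (a : ℕ → ℕ → ℕ) (ha : ∀ i j, a i j ≤ 1) (o : ℕ → ℕ) (i x : ℕ) :
    ∑ k ∈ Finset.range i, a (o k) x ≤ i := by
  calc ∑ k ∈ Finset.range i, a (o k) x ≤ ∑ k ∈ Finset.range i, 1 :=
        Finset.sum_le_sum fun k _ => ha _ _
    _ = i := by simp

lemma exists_unvis (n i : ℕ) (hi : i < n) (o : ℕ → ℕ) : ∃ x, x < n ∧ ∀ k, k < i → o k ≠ x := by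
  by_contra h
  push Not at h
  have hsub : Finset.range n ⊆ (Finset.range i).image o := by
    intro x hx
    obtain ⟨k, hk, hkx⟩ := h x (Finset.mem_range.1 hx)
    exact Finset.mem_image.2 ⟨k, Finset.mem_range.2 hk, hkx⟩
  have h1 := Finset.card_le_card hsub
  have h2 := Finset.card_image_le (s := Finset.range i) (f := o)
  simp only [Finset.card_range] at h1 h2
  omega

lemma l_pre (n : ℕ) (A : ℕ → ℕ → ℕ) (σ : Store) (a : ℕ → ℕ → ℕ) (cur : ℕ)
    (hcur : cur < n) (hc : σ vCur 0 0 = cur) :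
    Inv n a cur 0 (run n A cPre σ) := by
  have hpre : (∀ x, x < n →
      run n A (.loop vX .n (Cm.seq (w1 aVis (s vX) .c0) (w1 aWt (s vX) .c0))) σ aVis x 0 = 0 ∧
      run n A (.loop vX .n (Cm.seq (w1 aVis (s vX) .c0) (w1 aWt (s vX) .c0))) σ aWt x 0 = 0) := by
    refine loop_post (Q := fun ρ => ∀ x, x < n → ρ aVis x 0 = 0 ∧ ρ aWt x 0 = 0)
      (fun m ρ => ∀ x, x < m → ρ aVis x 0 = 0 ∧ ρ aWt x 0 = 0) ?_ ?_ (fun τ _ h => h)
    · intro x hx; omega
    · intro m hm ρ _ ih x hx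
      by_cases hxm : x = m
      · subst hxm; simp [ev, upd]
      · have := ih x (by omega)
        simpa [ev, upd, hxm] using this
  have hc' : run n A (.loop vX .n (Cm.seq (w1 aVis (s vX) .c0) (w1 aWt (s vX) .c0))) σ vCur 0 0 = cur := by
    rw [run_frame _ _ vCur (by decide), hc]
  have hV : ∀ x, x < n → run n A cPre σ aVis x 0 = 0 := by
    intro x hx
    unfold cPre
    rw [run_seq, run_put, upd_ne (by decide)]
    exact (hpre x hx).1
  have hW : ∀ x, x < n → run n A cPre σ aWt x 0 = if x = cur then 1 else 0 := by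
    intro x hx
    unfold cPre
    rw [run_seq, run_put]
    have e1 : ev n A (run n A (.loop vX .n (Cm.seq (w1 aVis (s vX) .c0) (w1 aWt (s vX) .c0))) σ)
        (s vCur) = cur := hc'
    rw [e1]
    by_cases hxc : x = cur
    · subst hxc; simp [ev, upd]
    · have := (hpre x hx).2
      simp only [ev, upd, hxc, false_and, and_false, if_false]
      simpa using this
  refine ⟨?_, ?_, ?_, ?_, ?_, ?_, ?_⟩
  · intro k hk; omega
  · intro k k' hk; omega
  · intro h; omega
  · intro k hk; omega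
  · intro x hx
    exact ⟨fun _ k hk => by omega, fun _ => hV x hx⟩
  · intro x hx
    rw [hW x hx]; simp
  · intro j x _ hj; omega

lemma l_body (n : ℕ) (A : ℕ → ℕ → ℕ) (a : ℕ → ℕ → ℕ) (cur i : ℕ) (τ : Store)
    (hcur : cur < n) (hi : i < n) (hA : Has2 n τ aA a) (ha : ∀ i j, a i j ≤ 1)
    (h : Inv n a cur i τ) : Inv n a cur (i + 1) (run n A cBody (upd τ vI 0 0 i)) := by
  -- the store before the search
  set τ1 : Store := upd (upd (upd τ vI 0 0 i) vM 0 0 0) vY 0 0 0 with hτ1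
  have fr1 : ∀ k, k ≠ vI → k ≠ vM → k ≠ vY → τ1 k = τ k := by
    intro k h1 h2 h3
    rw [hτ1, upd_ne h3, upd_ne h2, upd_ne h1]
  have hI1 : τ1 vI 0 0 = i := by simp [hτ1, upd]
  have hM1 : τ1 vM 0 0 = 0 := by simp [hτ1, upd]
  have hW1 : τ1 aWt = τ aWt := fr1 _ (by decide) (by decide) (by decide)
  have hV1 : τ1 aVis = τ aVis := fr1 _ (by decide) (by decide) (by decide)
  have hwt : ∀ x, x < n → τ aWt x 0 ≤ i + 1 := by
    intro x hx
    rw [h.wt x hx]
    have := sum_le a ha (fun k => τ aOrd k 0) i x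
    split_ifs <;> omega
  have hcap : cap n = 4 * (n + 2) := rfl
  obtain ⟨hy1, hy2, hy3⟩ := l_find n A τ1 hM1
    (by intro x hx; rw [hW1]; have := hwt x hx; omega)
    (by
      obtain ⟨x, hx, hx'⟩ := exists_unvis n i hi (fun k => τ aOrd k 0)
      exact ⟨x, hx, by rw [hV1]; exact (h.vis x hx).2 hx'⟩)
  set τ2 : Store := run n A cFind τ1 with hτ2
  set y : ℕ := τ2 vY 0 0 with hy
  rw [hV1] at hy2 hy3
  rw [hW1] at hy3
  have fr2 : ∀ k, k ∉ mods cFind → τ2 k = τ1 k := fun k hk => run_frame cFind τ1 k hk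
  have hI2 : τ2 vI 0 0 = i := by rw [fr2 vI (by decide), hI1]
  -- the store after the three assignments
  set τ3 : Store := upd (upd (upd τ2 aVis y 0 1) aOrd i 0 y) aNum y 0 i with hτ3
  have hrun : run n A cBody (upd τ vI 0 0 i) = run n A cAdd τ3 := by
    have e1 : run n A cBody (upd τ vI 0 0 i) =
      run n A (Cm.seq (w1 aVis (s vY) .c1) (Cm.seq (w1 aOrd (s vI) (s vY)) (Cm.seq (w1 aNum (s vY) (s vI)) cAdd))) τ2 :=
        rfl
    rw [e1]
    have e2 : ev n A τ2 (s vY) = y := rfl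
    simp only [run_seq, run_put]
    congr 1
    rw [hτ3]
    have e3 : ∀ ρ : Store, ρ vY 0 0 = y → ev n A ρ (s vY) = y := fun ρ h => h
    have e4 : ∀ ρ : Store, ρ vI 0 0 = i → ev n A ρ (s vI) = i := fun ρ h => h
    rw [e3 τ2 rfl, e4 (upd τ2 aVis y (ev n A τ2 .c0) (ev n A τ2 .c1)) (by
      rw [upd_ne (by decide)]; exact hI2), e3 (upd τ2 aVis y (ev n A τ2 .c0) (ev n A τ2 .c1)) (by
      rw [upd_ne (by decide)])]
    rw [e3 _ (by rw [upd_ne (by decide), upd_ne (by decide)]),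
      e4 _ (by rw [upd_ne (by decide), upd_ne (by decide)]; exact hI2)]
    rfl
  have fr3 : ∀ k, k ≠ aVis → k ≠ aOrd → k ≠ aNum → τ3 k = τ2 k := by
    intro k h1 h2 h3
    rw [hτ3, upd_ne h3, upd_ne h2, upd_ne h1]
  have fr03 : ∀ k, k ∉ mods cFind → k ≠ aVis → k ≠ aOrd → k ≠ aNum → k ≠ vI → k ≠ vM → k ≠ vY →
      τ3 k = τ k := by
    intro k h1 h2 h3 h4 h5 h6 h7
    rw [fr3 k h2 h3 h4, fr2 k h1, fr1 k h5 h6 h7]
  have hW3 : τ3 aWt = τ aWt :=
    fr03 _ (by decide) (by decide) (by decide) (by decide) (by decide) (by decide) (by decide)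
  have hA3 : τ3 aA = τ aA :=
    fr03 _ (by decide) (by decide) (by decide) (by decide) (by decide) (by decide) (by decide)
  have hY3 : τ3 vY 0 0 = y := by rw [fr3 vY (by decide) (by decide) (by decide)]
  have hadd := l_add n A τ3 (by
    intro x hx
    rw [hW3, hA3, hY3, hA y x hy1 hx]
    have := hwt x hx
    have := ha y x
    omega)
  rw [hrun]
  have fr4 : ∀ k, k ∉ mods cAdd → run n A cAdd τ3 k = τ3 k := fun k hk => run_frame cAdd τ3 k hk
  have hO : ∀ k, run n A cAdd τ3 aOrd k 0 = if k = i then y else τ aOrd k 0 := by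
    intro k
    rw [fr4 aOrd (by decide), hτ3, upd_ne (by decide)]
    have e : upd τ2 aVis y 0 1 aOrd = τ aOrd := by
      rw [upd_ne (by decide), fr2 aOrd (by decide), fr1 aOrd (by decide) (by decide) (by decide)]
    by_cases hk : k = i
    · subst hk; simp
    · rw [if_neg hk, upd_ne' (by simp [hk]), e]
  have hN : ∀ x, run n A cAdd τ3 aNum x 0 = if x = y then i else τ aNum x 0 := by
    intro x
    rw [fr4 aNum (by decide), hτ3]
    have e : upd (upd τ2 aVis y 0 1) aOrd i 0 y aNum = τ aNum := by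
      rw [upd_ne (by decide), upd_ne (by decide), fr2 aNum (by decide),
        fr1 aNum (by decide) (by decide) (by decide)]
    by_cases hx : x = y
    · subst hx; simp
    · rw [if_neg hx, upd_ne' (by simp [hx]), e]
  have hV : ∀ x, run n A cAdd τ3 aVis x 0 = if x = y then 1 else τ aVis x 0 := by
    intro x
    rw [fr4 aVis (by decide), hτ3, upd_ne (by decide), upd_ne (by decide)]
    have e : τ2 aVis = τ aVis := by
      rw [fr2 aVis (by decide), fr1 aVis (by decide) (by decide) (by decide)]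
    by_cases hx : x = y
    · subst hx; simp
    · rw [if_neg hx, upd_ne' (by simp [hx]), e]
  have hynew : ∀ k, k < i → τ aOrd k 0 ≠ y := (h.vis y hy1).1 hy2
  have hOlt : ∀ k, k < i → run n A cAdd τ3 aOrd k 0 = τ aOrd k 0 := by
    intro k hk
    rw [hO, if_neg (by omega)]
  have hOi : run n A cAdd τ3 aOrd i 0 = y := by rw [hO, if_pos rfl]
  have hsum : ∀ j x, j ≤ i → ∑ k ∈ Finset.range j, a (run n A cAdd τ3 aOrd k 0) x =
      ∑ k ∈ Finset.range j, a (τ aOrd k 0) x := by
    intro j x hj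
    refine Finset.sum_congr rfl fun k hk => ?_
    rw [hOlt k (by have := Finset.mem_range.1 hk; omega)]
  refine ⟨?_, ?_, ?_, ?_, ?_, ?_, ?_⟩
  · intro k hk
    by_cases hki : k = i
    · subst hki; rw [hOi]; exact hy1
    · rw [hOlt k (by omega)]; exact h.lt k (by omega)
  · intro k k' hk hk' he
    by_cases hki : k = i
    · by_cases hki' : k' = i
      · rw [hki, hki']
      · rw [hki, hOi, hOlt k' (by omega)] at he
        exact absurd he.symm (hynew k' (by omega))
    · by_cases hki' : k' = i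
      · rw [hki', hOi, hOlt k (by omega)] at he
        exact absurd he (hynew k (by omega))
      · rw [hOlt k (by omega), hOlt k' (by omega)] at he
        exact h.inj k k' (by omega) (by omega) he
  · intro _
    by_cases hi0 : i = 0
    · subst hi0
      rw [hOi]
      by_contra hne
      have h1 := hy3 cur hcur ((h.vis cur hcur).2 (fun k hk => by omega))
      rw [h.wt cur hcur, h.wt y hy1, if_pos rfl, if_neg hne] at h1
      simp at h1
    · rw [hOlt 0 (by omega)]
      exact h.zero (by omega)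
  · intro k hk
    by_cases hki : k = i
    · subst hki; rw [hOi, hN, if_pos rfl]
    · rw [hOlt k (by omega), hN, if_neg (hynew k (by omega))]
      exact h.num k (by omega)
  · intro x hx
    rw [hV]
    by_cases hxy : x = y
    · subst hxy
      rw [if_pos rfl]
      constructor
      · intro h1; omega
      · intro h1; exact absurd hOi (h1 i (by omega))
    · rw [if_neg hxy, h.vis x hx]
      constructor
      · intro h1 k hk
        by_cases hki : k = i
        · subst hki; rw [hOi]; exact fun e => hxy e.symm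
        · rw [hOlt k (by omega)]; exact h1 k (by omega)
      · intro h1 k hk
        have := h1 k (by omega)
        rwa [hOlt k hk] at this
  · intro x hx
    rw [hadd x hx, hW3, hA3, hY3, hA y x hy1 hx, h.wt x hx, Finset.sum_range_succ, hOi,
      hsum i x le_rfl]
    omega
  · intro j x hj1 hj hx hk
    rw [hsum j x (by omega), hsum j _ (by omega)]
    by_cases hji : j = i
    · subst hji
      rw [hOi]
      have hx' : ∀ k, k < j → τ aOrd k 0 ≠ x := by
        intro k hk'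
        have := hk k hk'
        rwa [hOlt k hk'] at this
      have h1 := hy3 x hx ((h.vis x hx).2 hx')
      have hcur0 : τ aOrd 0 0 = cur := h.zero (by omega)
      rw [h.wt x hx, h.wt y hy1, if_neg (by
        intro e; exact hx' 0 (by omega) (by rw [hcur0, e])), if_neg (by
        intro e; exact hynew 0 (by omega) (by rw [hcur0, e]))] at h1
      omega
    · rw [hOlt j (by omega)]
      refine h.mcs j x hj1 (by omega) hx ?_
      intro k hk'
      have := hk k hk'
      rwa [hOlt k (by omega)] at this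

end LMCS

open LMCS in
theorem p_LMCS : T_LMCS := by
  intro n A σ a cur hn hcur hc hA ha
  have hmain : Inv n a cur n (run n A cMcs σ) := by
    rw [run_cMcs]
    refine loop_post (Q := fun ρ => Inv n a cur n ρ) (fun i ρ => Inv n a cur i ρ)
      (l_pre n A σ a cur hcur hc) ?_ (fun τ _ h => h)
    intro i hi τ hf ih
    replace hi : i < n := hi
    refine l_body n A a cur i τ hcur hi ?_ ha ih
    intro x y hx hy
    rw [hf aA (by decide)]
    have : run n A cPre σ aA = σ aA := run_frame cPre σ aA (by decide)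
    rw [this]
    exact hA x y hx hy
  refine ⟨fun i => run n A cMcs σ aOrd i 0, hmain.lt, fun i j hi hj => hmain.inj i j hi hj,
    hmain.zero (by omega), fun i _ => rfl, hmain.num, ?_⟩
  intro i x h1 h2 hx hk
  exact hmain.mcs i x h1 h2 hx hk

end Pool.Agent.BDC
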