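import Pool.Agent.BDC.TargetsL

/-!
# BDC: the columns covered by their candidates
-/

namespace Pool.Agent.BDC

open N Prog

namespace LOK

/-- cell `(k, w)` of `aOk` is the truth value of `Q` -/
def Tv (τ : Store) (k w : ℕ) (Q : Prop) : Prop :=
  (Q → τ aOk k w = 1) ∧ (¬ Q → τ aOk k w = 0)

lemma Tv.congr {τ : Store} {k w : ℕ} {Q Q' : Prop} (h : Tv τ k w Q) (h' : Q ↔ Q') :
    Tv τ k w Q' := ⟨fun q => h.1 (h'.mpr q), fun q => h.2 (fun q' => q (h'.mp q'))⟩

variable {n : ℕ} {A : ℕ → ℕ → ℕ}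

/-- the condition of the inner loop -/
def cond : Bx := Bx.and (Bx.lt (s vY) (s vZ)) (Bx.and (Bx.eq (r2 aB (s vZ) (s vY)) .c1)
          (Bx.or (Bx.and (Bx.eq (r1 aU (s vY)) .c1) (Bx.lt (r2 aDs (s vY) (s vW)) (s vR)))
           (Bx.and (Bx.eq (r1 aU (s vY)) .c0) (Bx.lt (r2 aDin (s vY) (s vW)) (s vR)))))

/-- the body of the first loop -/
def body (k : Ex) : Cm :=
  Cm.seq (w2 aOk k (s vW) .c0)
    (Cm.seq (w0 vZ (r2 aZ k (r1 aPos (s vW)))) (Cm.seq (w0 vR (Ex.sub (r1 aH (r1 aPos (s vW))) k))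
    (whn (Bx.lt .c0 (s vZ)) (
      Cm.seq (whn (Bx.not (Bx.lt (s vR) (r2 aDin (s vZ) (s vW)))) (w2 aOk k (s vW) .c1))
      (.loop vY .n (whn cond (w2 aOk k (s vW) .c1)))))))

lemma cOk_eq (k : Ex) : cOk k = (Cm.seq (.loop vW .n (body k))
  (Cm.seq (.loop vW .n (w2 aOkp k (s vW) .c1))
  (.loop vW .n (whn (Bx.eq (r2 aOk k (s vW)) .c0) (w2 aOkp k (r1 aPos (s vW)) .c0))))) := rfl

lemma ev_k {k : ℕ} {kE : Ex} (hk : (k = 0 ∧ kE = .c0) ∨ (k = 1 ∧ kE = .c1)) (σ : Store) :
    ev n A σ kE = k := by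
  rcases hk with ⟨rfl, rfl⟩ | ⟨rfl, rfl⟩ <;> rfl

/-- the inner loop -/
lemma inner (σ : Store) (b : ℕ → ℕ → ℕ) (U : ℕ → Prop) (ds din : ℕ → ℕ → ℕ) (k : ℕ) (kE : Ex)
    (hk : (k = 0 ∧ kE = .c0) ∨ (k = 1 ∧ kE = .c1)) (hb : Has2 n σ aB b) (hU : HasP n σ aU U)
    (hds : ∀ p w, p < n → w < n → U p → σ aDs p w = ds p w) (hdin : Has2 n σ aDin din)
    (w z r : ℕ) (hw : w < n) (hz : z < n) (hsw : σ vW 0 0 = w) (hsz : σ vZ 0 0 = z)
    (hsr : σ vR 0 0 = r) (Q : Prop) (hQ : Tv σ k w Q) :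
    Tv (run n A (.loop vY .n (whn cond (w2 aOk kE (s vW) .c1))) σ) k w
      (Q ∨ ∃ y, y < z ∧ b z y = 1 ∧ ((U y ∧ ds y w < r) ∨ (¬ U y ∧ din y w < r))) ∧
    ∀ w', w' ≠ w →
      run n A (.loop vY .n (whn cond (w2 aOk kE (s vW) .c1))) σ aOk k w' = σ aOk k w' := by
  refine loop_post (Q := fun τ => Tv τ k w
      (Q ∨ ∃ y, y < z ∧ b z y = 1 ∧ ((U y ∧ ds y w < r) ∨ (¬ U y ∧ din y w < r))) ∧
    ∀ w', w' ≠ w → τ aOk k w' = σ aOk k w')
    (fun m τ => Tv τ k w
      (Q ∨ ∃ y, y < m ∧ y < z ∧ b z y = 1 ∧ ((U y ∧ ds y w < r) ∨ (¬ U y ∧ din y w < r))) ∧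
      ∀ w', w' ≠ w → τ aOk k w' = σ aOk k w') ?_ ?_ ?_
  · refine ⟨hQ.congr ?_, fun _ _ => rfl⟩
    constructor
    · exact Or.inl
    · rintro (h | ⟨y, h, _⟩)
      · exact h
      · omega
  · intro m hm τ hf ih
    replace hm : m < n := hm
    obtain ⟨ih1, ih2⟩ := ih
    have fW : τ vW = σ vW := hf vW (by simp [mods])
    have fZ : τ vZ = σ vZ := hf vZ (by simp [mods])
    have fR : τ vR = σ vR := hf vR (by simp [mods])
    have fB : τ aB = σ aB := hf aB (by simp [mods])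
    have fU : τ aU = σ aU := hf aU (by simp [mods])
    have fDs : τ aDs = σ aDs := hf aDs (by simp [mods])
    have fDin : τ aDin = σ aDin := hf aDin (by simp [mods])
    set τ' := upd τ vY 0 0 m with hτ'
    have gk : ∀ k', k' ≠ vY → τ' k' = τ k' := fun k' h => upd_ne h _ _ _
    have gY : τ' vY 0 0 = m := upd_same _ _ _ _ _
    have gW : τ' vW 0 0 = w := by rw [gk vW (by decide), fW, hsw]
    have gZ : τ' vZ 0 0 = z := by rw [gk vZ (by decide), fZ, hsz]
    have gR : τ' vR 0 0 = r := by rw [gk vR (by decide), fR, hsr]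
    have gOk : τ' aOk = τ aOk := gk aOk (by decide)
    have hcond : tst n A τ' cond ↔
        (m < z ∧ b z m = 1 ∧ ((U m ∧ ds m w < r) ∨ (¬ U m ∧ din m w < r))) := by
      have e1 : τ' aB z m = b z m := by rw [gk aB (by decide), fB, hb z m hz hm]
      have e2 : τ' aDin m w = din m w := by rw [gk aDin (by decide), fDin, hdin m w hm hw]
      have e3 : τ' aU m 0 = σ aU m 0 := by rw [gk aU (by decide), fU]
      have e4 : τ' aDs m w = σ aDs m w := by rw [gk aDs (by decide), fDs]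
      have hUm := hU m hm
      simp only [cond, tst, ev, gY, gW, gZ, gR, e1, e2, e3, e4]
      by_cases hu : U m
      · rw [hUm.1 hu, hds m w hm hw hu]; simp [hu]
      · rw [hUm.2 hu]; simp [hu]
    rw [run_ite]
    split_ifs with hc
    · -- condition true
      rw [hcond] at hc
      rw [run_put, ev_k hk]
      have e5 : ev n A τ' (s vW) = w := gW
      have e6 : ev n A τ' .c1 = 1 := rfl
      rw [e5, e6]
      refine ⟨⟨fun _ => upd_same _ _ _ _ _, fun h => ?_⟩, fun w' hw' => ?_⟩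
      · exact absurd (Or.inr ⟨m, by omega, hc⟩) h
      · rw [upd_ne' (by tauto), gOk]; exact ih2 w' hw'
    · rw [hcond] at hc
      rw [run_skip]
      refine ⟨?_, fun w' hw' => by rw [gOk]; exact ih2 w' hw'⟩
      have : Tv τ' k w (Q ∨ ∃ y, y < m ∧ y < z ∧ b z y = 1 ∧
          ((U y ∧ ds y w < r) ∨ (¬ U y ∧ din y w < r))) := by
        refine ⟨fun h => ?_, fun h => ?_⟩
        · rw [gOk]; exact ih1.1 h
        · rw [gOk]; exact ih1.2 h
      refine this.congr ?_
      constructor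
      · rintro (h | ⟨y, h1, h2⟩)
        · exact Or.inl h
        · exact Or.inr ⟨y, by omega, h2⟩
      · rintro (h | ⟨y, h1, h2⟩)
        · exact Or.inl h
        · by_cases hy : y = m
          · subst hy; exact absurd h2 hc
          · exact Or.inr ⟨y, by omega, h2⟩
  · rintro τ _ ⟨h1, h2⟩
    refine ⟨h1.congr ?_, h2⟩
    constructor
    · rintro (h | ⟨y, h1, h2⟩)
      · exact Or.inl h
      · exact Or.inr ⟨y, h2⟩
    · rintro (h | ⟨y, h1, h2⟩)
      · exact Or.inl h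
      · exact Or.inr ⟨y, show y < n by omega, h1, h2⟩

/-- the body of the first loop -/
lemma body_spec (σ : Store) (b : ℕ → ℕ → ℕ) (U : ℕ → Prop) (pos h : ℕ → ℕ)
    (Z ds din : ℕ → ℕ → ℕ) (k : ℕ) (kE : Ex)
    (hk : (k = 0 ∧ kE = .c0) ∨ (k = 1 ∧ kE = .c1)) (hb : Has2 n σ aB b) (hU : HasP n σ aU U)
    (hpos : Has1 n σ aPos pos) (hposU : ∀ w, w < n → U (pos w) ∧ pos w < n)
    (hh : ∀ p, p < n → U p → σ aH p 0 = h p ∧ h p ≤ n)
    (hZ : ∀ p, p < n → U p → σ aZ k p = Z k p ∧ Z k p < n)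
    (hds : ∀ p w, p < n → w < n → U p → σ aDs p w = ds p w) (hdin : Has2 n σ aDin din)
    (w : ℕ) (hw : w < n) (hsw : σ vW 0 0 = w) :
    Tv (run n A (body kE) σ) k w (OkC b U ds din (Z k (pos w)) (h (pos w) - k) w) ∧
    ∀ w', w' ≠ w → run n A (body kE) σ aOk k w' = σ aOk k w' := by
  obtain ⟨hpU, hpn⟩ := hposU w hw
  obtain ⟨hZe, hZn⟩ := hZ _ hpn hpU
  obtain ⟨hHe, _⟩ := hh _ hpn hpU
  set z := Z k (pos w) with hz
  set r := h (pos w) - k with hr
  -- the store after the initialisation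
  set σ1 := upd σ aOk k w 0 with hσ1
  set σ2 := upd σ1 vZ 0 0 z with hσ2
  set σ3 := upd σ2 vR 0 0 r with hσ3
  have e1 : run n A (body kE) σ = run n A (whn (Bx.lt .c0 (s vZ)) (
      Cm.seq (whn (Bx.not (Bx.lt (s vR) (r2 aDin (s vZ) (s vW)))) (w2 aOk kE (s vW) .c1))
      (.loop vY .n (whn cond (w2 aOk kE (s vW) .c1))))) σ3 := by
    unfold body
    rw [run_seq, run_seq, run_seq]
    have a1 : run n A (w2 aOk kE (s vW) .c0) σ = σ1 := by
      rw [run_put, ev_k hk]
      have : ev n A σ (s vW) = w := hsw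
      rw [this]; rfl
    have g1 : ∀ k', k' ≠ aOk → σ1 k' = σ k' := fun k' h => upd_ne h _ _ _
    have a2 : run n A (w0 vZ (r2 aZ kE (r1 aPos (s vW)))) σ1 = σ2 := by
      rw [run_put]
      have e2 : ev n A σ1 (r2 aZ kE (r1 aPos (s vW))) = z := by
        simp only [ev, ev_k hk]
        rw [g1 vW (by decide), g1 aPos (by decide), g1 aZ (by decide), hsw, hpos w hw, hZe]
      rw [e2]; rfl
    have g2 : ∀ k', k' ≠ aOk → k' ≠ vZ → σ2 k' = σ k' := fun k' h h' => by
      rw [← g1 k' h]; exact upd_ne h' _ _ _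
    have a3 : run n A (w0 vR (Ex.sub (r1 aH (r1 aPos (s vW))) kE)) σ2 = σ3 := by
      rw [run_put]
      have e3 : ev n A σ2 (Ex.sub (r1 aH (r1 aPos (s vW))) kE) = r := by
        simp only [ev, ev_k hk]
        rw [g2 vW (by decide) (by decide), g2 aPos (by decide) (by decide),
          g2 aH (by decide) (by decide), hsw, hpos w hw, hHe]
      rw [e3]; rfl
    rw [a1, a2, a3]
  rw [e1]
  have g3 : ∀ k', k' ≠ aOk → k' ≠ vZ → k' ≠ vR → σ3 k' = σ k' := fun k' h1 h2 h3 => by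
    rw [hσ3, upd_ne h3, hσ2, upd_ne h2, hσ1, upd_ne h1]
  have s3Z : σ3 vZ 0 0 = z := by rw [hσ3, upd_ne (by decide), hσ2]; exact upd_same _ _ _ _ _
  have s3R : σ3 vR 0 0 = r := upd_same _ _ _ _ _
  have s3W : σ3 vW 0 0 = w := by rw [g3 vW (by decide) (by decide) (by decide), hsw]
  have s3Ok : σ3 aOk = σ1 aOk := by rw [hσ3, upd_ne (by decide), hσ2, upd_ne (by decide)]
  have s3k : σ3 aOk k w = 0 := by rw [s3Ok]; exact upd_same _ _ _ _ _
  have s3o : ∀ w', w' ≠ w → σ3 aOk k w' = σ aOk k w' := fun w' hw' => by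
    rw [s3Ok]; exact upd_ne' (by tauto) _ _
  rw [run_ite]
  have ez : tst n A σ3 (Bx.lt .c0 (s vZ)) ↔ 0 < z := by
    simp only [tst, ev, s3Z]
  split_ifs with hc
  · rw [ez] at hc
    rw [run_seq]
    set σ4 := run n A (whn (Bx.not (Bx.lt (s vR) (r2 aDin (s vZ) (s vW)))) (w2 aOk kE (s vW) .c1)) σ3
      with hσ4
    have f4 : ∀ k', k' ≠ aOk → σ4 k' = σ3 k' := fun k' h => run_frame _ _ _ (by
      simp [mods]; exact h)
    have edin : σ3 aDin z w = din z w := by
      rw [g3 aDin (by decide) (by decide) (by decide)]; exact hdin z w hZn hw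
    have t4 : Tv σ4 k w (din z w ≤ r) ∧ ∀ w', w' ≠ w → σ4 aOk k w' = σ3 aOk k w' := by
      have ec : tst n A σ3 (Bx.not (Bx.lt (s vR) (r2 aDin (s vZ) (s vW)))) ↔ din z w ≤ r := by
        simp only [tst, ev, s3Z, s3R, s3W, edin, not_lt]
      rw [hσ4, run_ite]
      split_ifs with hc2
      · rw [ec] at hc2
        rw [run_put, ev_k hk]
        have e5 : ev n A σ3 (s vW) = w := s3W
        have e6 : ev n A σ3 .c1 = 1 := rfl
        rw [e5, e6]
        exact ⟨⟨fun _ => upd_same _ _ _ _ _, fun h => absurd hc2 h⟩,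
          fun w' hw' => upd_ne' (by tauto) _ _⟩
      · rw [ec] at hc2
        exact ⟨⟨fun h => absurd h hc2, fun _ => s3k⟩, fun _ _ => rfl⟩
    obtain ⟨t1, t2⟩ := t4
    have hb4 : Has2 n σ4 aB b := fun i j hi hj => by
      rw [f4 aB (by decide), g3 aB (by decide) (by decide) (by decide)]; exact hb i j hi hj
    have hU4 : HasP n σ4 aU U := fun i hi => by
      rw [f4 aU (by decide), g3 aU (by decide) (by decide) (by decide)]; exact hU i hi
    have hds4 : ∀ p w, p < n → w < n → U p → σ4 aDs p w = ds p w := fun p w h1 h2 h3 => by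
      rw [f4 aDs (by decide), g3 aDs (by decide) (by decide) (by decide)]; exact hds p w h1 h2 h3
    have hdin4 : Has2 n σ4 aDin din := fun i j hi hj => by
      rw [f4 aDin (by decide), g3 aDin (by decide) (by decide) (by decide)]; exact hdin i j hi hj
    have := inner (A := A) σ4 b U ds din k kE hk hb4 hU4 hds4 hdin4 w z r hw hZn
      (by rw [f4 vW (by decide)]; exact s3W) (by rw [f4 vZ (by decide)]; exact s3Z)
      (by rw [f4 vR (by decide)]; exact s3R) _ t1
    obtain ⟨u1, u2⟩ := this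
    refine ⟨u1.congr ?_, fun w' hw' => by rw [u2 w' hw', t2 w' hw', s3o w' hw']⟩
    unfold OkC
    constructor
    · intro h; exact ⟨hc, h⟩
    · rintro ⟨_, h⟩; exact h
  · rw [ez] at hc
    rw [run_skip]
    refine ⟨⟨fun h => absurd h.1 hc, fun _ => s3k⟩, s3o⟩

end LOK

open LOK in
theorem p_LOK : T_LOK := by
  intro n A σ b U pos h Z ds din k kE hk hn hb hU hpos hposU hh hZ hds hdin
  rw [cOk_eq, run_seq, run_seq]
  set σ1 := run n A (.loop vW .n (body kE)) σ with hσ1
  set σ2 := run n A (.loop vW .n (w2 aOkp kE (s vW) .c1)) σ1 with hσ2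
  have hmods : ∀ k', k' ∉ [vW, aOk, vZ, vR, vY] → k' ∉ mods (.loop vW .n (body kE)) := by
    intro k' hk'
    simp only [List.mem_cons, List.not_mem_nil, or_false, not_or] at hk'
    simp [body, mods]
    tauto
  -- stage 1
  have h1 : ∀ w, w < n → Tv σ1 k w (OkC b U ds din (Z k (pos w)) (h (pos w) - k) w) := by
    rw [hσ1]
    refine loop_post (Q := fun τ => ∀ w, w < n →
      Tv τ k w (OkC b U ds din (Z k (pos w)) (h (pos w) - k) w))
      (fun m τ => ∀ w, w < m → Tv τ k w (OkC b U ds din (Z k (pos w)) (h (pos w) - k) w))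
      ?_ ?_ (fun τ _ h => h)
    · intro w hw; omega
    · intro m hm τ hf ih
      replace hm : m < n := hm
      have ff : ∀ k', k' ∉ [vW, aOk, vZ, vR, vY] → upd τ vW 0 0 m k' = σ k' := by
        intro k' hk'
        rw [upd_ne (by simp only [List.mem_cons, not_or] at hk'; exact hk'.1)]
        exact hf k' (hmods k' hk')
      have hb' : Has2 n (upd τ vW 0 0 m) aB b := fun i j hi hj => by
        rw [ff aB (by decide)]; exact hb i j hi hj
      have hU' : HasP n (upd τ vW 0 0 m) aU U := fun i hi => by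
        rw [ff aU (by decide)]; exact hU i hi
      have hpos' : Has1 n (upd τ vW 0 0 m) aPos pos := fun i hi => by
        rw [ff aPos (by decide)]; exact hpos i hi
      have hh' : ∀ p, p < n → U p → upd τ vW 0 0 m aH p 0 = h p ∧ h p ≤ n := fun p h1 h2 => by
        rw [ff aH (by decide)]; exact hh p h1 h2
      have hZ' : ∀ p, p < n → U p → upd τ vW 0 0 m aZ k p = Z k p ∧ Z k p < n :=
        fun p h1 h2 => by rw [ff aZ (by decide)]; exact hZ p h1 h2
      have hds' : ∀ p w, p < n → w < n → U p → upd τ vW 0 0 m aDs p w = ds p w :=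
        fun p w h1 h2 h3 => by rw [ff aDs (by decide)]; exact hds p w h1 h2 h3
      have hdin' : Has2 n (upd τ vW 0 0 m) aDin din := fun i j hi hj => by
        rw [ff aDin (by decide)]; exact hdin i j hi hj
      have key := body_spec (A := A) (upd τ vW 0 0 m) b U pos h Z ds din k kE hk hb' hU' hpos'
        hposU hh' hZ' hds' hdin' m hm (upd_same _ _ _ _ _)
      obtain ⟨k1, k2⟩ := key
      intro w hw
      by_cases hwm : w = m
      · subst hwm; exact k1
      · have e := k2 w hwm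
        have e2 : upd τ vW 0 0 m aOk = τ aOk := upd_ne (by decide) _ _ _
        rw [e2] at e
        have := ih w (by omega)
        exact ⟨fun q => by rw [e]; exact this.1 q, fun q => by rw [e]; exact this.2 q⟩
  have f1 : ∀ k', k' ∉ [vW, aOk, vZ, vR, vY] → σ1 k' = σ k' := fun k' hk' =>
    run_frame _ _ _ (hmods k' hk')
  -- stage 2
  have h2 : (∀ w, w < n → σ2 aOkp k w = 1) ∧ ∀ k' w, k' ≠ k → σ2 aOkp k' w = σ1 aOkp k' w := by
    rw [hσ2]
    refine loop_post (Q := fun τ => (∀ w, w < n → τ aOkp k w = 1) ∧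
        ∀ k' w, k' ≠ k → τ aOkp k' w = σ1 aOkp k' w)
      (fun m τ => (∀ w, w < m → τ aOkp k w = 1) ∧ ∀ k' w, k' ≠ k → τ aOkp k' w = σ1 aOkp k' w)
      ?_ ?_ (fun τ _ h => h)
    · exact ⟨fun w hw => by omega, fun _ _ _ => rfl⟩
    · intro m hm τ hf ih
      obtain ⟨i1, i2⟩ := ih
      rw [run_put, ev_k hk]
      have e5 : ev n A (upd τ vW 0 0 m) (s vW) = m := upd_same _ _ _ _ _
      have e6 : ev n A (upd τ vW 0 0 m) .c1 = 1 := rfl
      have e2 : upd τ vW 0 0 m aOkp = τ aOkp := upd_ne (by decide) _ _ _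
      rw [e5, e6]
      refine ⟨fun w hw => ?_, fun k' w hk' => ?_⟩
      · by_cases hwm : w = m
        · subst hwm; exact upd_same _ _ _ _ _
        · rw [upd_ne' (by tauto), e2]; exact i1 w (by omega)
      · rw [upd_ne' (by tauto), e2]; exact i2 k' w hk'
  have f2 : ∀ k', k' ∉ [vW, aOkp] → σ2 k' = σ1 k' := fun k' hk' =>
    run_frame _ _ _ (by simpa [mods] using hk')
  obtain ⟨h2a, h2b⟩ := h2
  -- stage 3
  have h3 : (∀ p, p < n → ((∀ w, w < n → pos w = p → OkC b U ds din (Z k p) (h p - k) w) →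
        run n A (.loop vW .n (whn (Bx.eq (r2 aOk kE (s vW)) .c0) (w2 aOkp kE (r1 aPos (s vW)) .c0)))
          σ2 aOkp k p = 1) ∧
      ((∃ w, w < n ∧ pos w = p ∧ ¬ OkC b U ds din (Z k p) (h p - k) w) →
        run n A (.loop vW .n (whn (Bx.eq (r2 aOk kE (s vW)) .c0) (w2 aOkp kE (r1 aPos (s vW)) .c0)))
          σ2 aOkp k p = 0)) ∧
      ∀ k' p, k' ≠ k →
        run n A (.loop vW .n (whn (Bx.eq (r2 aOk kE (s vW)) .c0) (w2 aOkp kE (r1 aPos (s vW)) .c0)))
          σ2 aOkp k' p = σ2 aOkp k' p := by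
    refine loop_post (Q := fun τ => (∀ p, p < n →
        ((∀ w, w < n → pos w = p → OkC b U ds din (Z k p) (h p - k) w) → τ aOkp k p = 1) ∧
        ((∃ w, w < n ∧ pos w = p ∧ ¬ OkC b U ds din (Z k p) (h p - k) w) → τ aOkp k p = 0)) ∧
        ∀ k' p, k' ≠ k → τ aOkp k' p = σ2 aOkp k' p)
      (fun m τ => (∀ p, p < n →
        ((∀ w, w < m → pos w = p → OkC b U ds din (Z k p) (h p - k) w) → τ aOkp k p = 1) ∧
        ((∃ w, w < m ∧ pos w = p ∧ ¬ OkC b U ds din (Z k p) (h p - k) w) → τ aOkp k p = 0)) ∧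
        ∀ k' p, k' ≠ k → τ aOkp k' p = σ2 aOkp k' p) ?_ ?_ (fun τ _ h => h)
    · refine ⟨fun p hp => ⟨fun _ => h2a p hp, ?_⟩, fun _ _ _ => rfl⟩
      rintro ⟨w, hw, _⟩; omega
    · intro m hm τ hf ih
      replace hm : m < n := hm
      obtain ⟨i1, i2⟩ := ih
      have eok : upd τ vW 0 0 m aOk = σ1 aOk := by
        rw [upd_ne (by decide), hf aOk (by simp [mods]), f2 aOk (by decide)]
      have epos : upd τ vW 0 0 m aPos m 0 = pos m := by
        rw [upd_ne (by decide), hf aPos (by simp [mods]), f2 aPos (by decide),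
          f1 aPos (by decide)]
        exact hpos m hm
      have eokp : upd τ vW 0 0 m aOkp = τ aOkp := upd_ne (by decide) _ _ _
      have eW : upd τ vW 0 0 m vW 0 0 = m := upd_same _ _ _ _ _
      have hT := h1 m hm
      have hc : tst n A (upd τ vW 0 0 m) (Bx.eq (r2 aOk kE (s vW)) .c0) ↔
          ¬ OkC b U ds din (Z k (pos m)) (h (pos m) - k) m := by
        simp only [tst, ev, ev_k hk, eW, eok]
        constructor
        · intro h0 hq
          have := hT.1 hq
          omega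
        · exact hT.2
      rw [run_ite]
      split_ifs with hcc
      · rw [hc] at hcc
        rw [run_put, ev_k hk]
        have e5 : ev n A (upd τ vW 0 0 m) (r1 aPos (s vW)) = pos m := by
          simp only [ev, eW, epos]
        have e6 : ev n A (upd τ vW 0 0 m) .c0 = 0 := rfl
        rw [e5, e6]
        refine ⟨fun p hp => ?_, fun k' w hk' => ?_⟩
        · by_cases hpm : p = pos m
          · subst hpm
            refine ⟨fun hall => ?_, fun _ => upd_same _ _ _ _ _⟩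
            exact absurd (hall m (by omega) rfl) hcc
          · rw [upd_ne' (by tauto), eokp]
            refine ⟨fun hall => (i1 p hp).1 fun w hw hwp => hall w (by omega) hwp, ?_⟩
            rintro ⟨w, hw, hwp, hnot⟩
            refine (i1 p hp).2 ⟨w, ?_, hwp, hnot⟩
            have : w ≠ m := by rintro rfl; exact hpm hwp.symm
            omega
        · rw [upd_ne' (by tauto), eokp]; exact i2 k' w hk'
      · rw [hc, not_not] at hcc
        rw [run_skip, eokp]
        refine ⟨fun p hp => ⟨fun hall => (i1 p hp).1 fun w hw hwp => hall w (by omega) hwp, ?_⟩,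
          i2⟩
        rintro ⟨w, hw, hwp, hnot⟩
        refine (i1 p hp).2 ⟨w, ?_, hwp, hnot⟩
        have : w ≠ m := by
          rintro rfl
          subst hwp
          exact hnot hcc
        omega
  obtain ⟨h3a, h3b⟩ := h3
  refine ⟨fun p hp hpU => ?_, fun k' p hk' => ?_⟩
  · constructor
    · intro hone w hw hwp
      by_contra hcon
      have := (h3a p hp).2 ⟨w, hw, hwp, hcon⟩
      omega
    · intro hall
      exact (h3a p hp).1 hall
  · rw [h3b k' p hk', h2b k' p hk', f1 aOkp (by decide)]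

end Pool.Agent.BDC
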