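import Pool.Agent.BDC.TargetsL

/-!
# BDC: the path stage
-/

namespace Pool.Agent.BDC

open N Prog

namespace LPATH

/-- parents -/
def c1 : Cm :=
  .loop vW .n (Cm.seq (w1 aPar1 (s vW) .c0)
    (.loop vJ .n (whn (Bx.and (Bx.lt (s vJ) (s vW)) (Bx.eq (r2 aA (s vW) (s vJ)) .c1))
      (w1 aPar1 (s vW) (s vJ)))))

def c2 : Cm := .loop vW .n (w1 aOnp (s vW) .c0)

def c3 : Cm := w1 aOnp (s vCur) .c1

def c4 : Cm :=
  .loop vI .n (Cm.seq (w0 vW (Ex.sub (Ex.sub .n .c1) (s vI)))
    (whn (Bx.eq (r1 aOnp (s vW)) .c1) (w1 aOnp (r1 aPar1 (s vW)) .c1)))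

def c5 : Cm :=
  .loop vW .n (Cm.ite (Bx.eq (r1 aOnp (s vW)) .c1) (w1 aPos1 (s vW) (s vW))
    (w1 aPos1 (s vW) (r1 aPos1 (r1 aPar1 (s vW)))))

lemma cPath_eq : cPath = (Cm.seq c1 (Cm.seq c2 (Cm.seq c3 (Cm.seq c4 c5)))) := rfl

variable {n : ℕ} {A : ℕ → ℕ → ℕ}

lemma r1spec {σ : Store} {a : ℕ → ℕ → ℕ} {par : ℕ → ℕ} (hA : Has2 n σ aA a)
    (hp : ∀ w, 0 < w → w < n → par w < w ∧ a w (par w) = 1 ∧ ∀ j, j < w → a w j = 1 → j ≤ par w)
    (h0 : par 0 = 0) : Has1 n (run n A c1 σ) aPar1 par := by
  refine loop_post (Q := fun τ => ∀ i, i < n → τ aPar1 i 0 = par i)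
    (fun m τ => ∀ i, i < m → τ aPar1 i 0 = par i) ?_ ?_ (fun τ _ h => h)
  · intro i hi; omega
  · intro m hm τ hf ih
    replace hm : m < n := hm
    have hA' : Has2 n τ aA a := fun i j hi hj => by rw [hf aA (by decide)]; exact hA i j hi hj
    refine loop_post (Q := fun τ => ∀ i, i < m + 1 → τ aPar1 i 0 = par i)
      (fun l τ => (∀ i, i < m → τ aPar1 i 0 = par i) ∧
        (τ aPar1 m 0 < m → a m (τ aPar1 m 0) = 1 ∨ τ aPar1 m 0 = 0) ∧ (τ aPar1 m 0 ≤ m) ∧
        (∀ j, j < l → j < m → a m j = 1 → j ≤ τ aPar1 m 0) ∧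
        (0 < m → τ aPar1 m 0 < m ∧ (τ aPar1 m 0 = 0 ∨ a m (τ aPar1 m 0) = 1))) ?_ ?_ ?_
    · refine ⟨?_, ?_, ?_, ?_, ?_⟩
      · intro i hi
        have : i ≠ m := by omega
        simpa [ev, upd, this] using ih i hi
      · intro _; right; simp [ev, upd]
      · simp [ev, upd]
      · intro j hj; omega
      · intro h; simp [ev, upd, h]
    · intro l hl τ' hf' ih'
      replace hl : l < n := hl
      have h3 : τ' vW 0 0 = m := by rw [hf' vW (by decide)]; simp [ev, upd]
      have hA2 : τ' aA m l = a m l := by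
        rw [hf' aA (by decide)]
        have := hA' m l hm hl
        simpa [ev, upd] using this
      obtain ⟨i1, i2, i3, i4, i5⟩ := ih'
      rw [run_ite]
      by_cases hc : l < m ∧ a m l = 1
      · rw [if_pos (by simpa [tst, ev, upd, h3, hA2] using hc)]
        refine ⟨?_, ?_, ?_, ?_, ?_⟩
        · intro i hi
          have : i ≠ m := by omega
          simpa [ev, upd, h3, this] using i1 i hi
        · intro _; left; simpa [ev, upd, h3] using hc.2
        · simpa [ev, upd, h3] using hc.1.le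
        · intro j hj _ _
          have : j ≤ l := by omega
          simpa [ev, upd, h3] using this
        · intro _
          exact ⟨by simpa [ev, upd, h3] using hc.1, Or.inr (by simpa [ev, upd, h3] using hc.2)⟩
      · rw [if_neg (by simpa [tst, ev, upd, h3, hA2] using hc), run_skip]
        refine ⟨?_, ?_, ?_, ?_, ?_⟩
        · intro i hi; simpa [upd] using i1 i hi
        · simpa [upd] using i2
        · simpa [upd] using i3
        · intro j hj hjm haj
          rcases Nat.lt_succ_iff_lt_or_eq.1 hj with h | rfl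
          · simpa [upd] using i4 j h hjm haj
          · exact absurd ⟨hjm, haj⟩ hc
        · simpa [upd] using i5
    · rintro τ' _ ⟨i1, i2, i3, i4, i5⟩ i hi
      by_cases him : i = m
      · subst him
        rcases Nat.eq_zero_or_pos i with rfl | hpos
        · rw [h0]; omega
        · obtain ⟨p1, p2, p3⟩ := hp i hpos hm
          obtain ⟨q1, q2⟩ := i5 hpos
          have hle : par i ≤ τ' aPar1 i 0 := i4 (par i) (show par i < n by omega) p1 p2
          rcases q2 with q2 | q2
          · omega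
          · exact le_antisymm (p3 _ q1 q2) hle
      · exact i1 i (by omega)

lemma r2spec {σ : Store} : ∀ i, i < n → run n A c2 σ aOnp i 0 = 0 := by
  refine loop_post (Q := fun τ => ∀ i, i < n → τ aOnp i 0 = 0)
    (fun m τ => ∀ i, i < m → τ aOnp i 0 = 0) ?_ ?_ (fun τ _ h => h)
  · intro i hi; omega
  · intro m hm τ hf ih i hi
    by_cases him : i = m
    · subst him; simp [ev, upd]
    · simpa [ev, upd, him] using ih i (by omega)

lemma par_le {par : ℕ → ℕ} (hp : ∀ w, 0 < w → w < n → par w < w) (h0 : par 0 = 0) {w : ℕ}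
    (hw : w < n) : par w ≤ w := by
  rcases Nat.eq_zero_or_pos w with rfl | h
  · exact h0.le
  · exact (hp w h hw).le

lemma iter_lt {par : ℕ → ℕ} (hp : ∀ w, 0 < w → w < n → par w < w) (h0 : par 0 = 0) {v : ℕ}
    (hv : v < n) (k : ℕ) : par^[k] v < n := by
  induction k with
  | zero => exact hv
  | succ k ih =>
    rw [Function.iterate_succ_apply']
    exact lt_of_le_of_lt (par_le hp h0 ih) ih

lemma zero_on {par : ℕ → ℕ} (hp : ∀ w, 0 < w → w < n → par w < w) (h0 : par 0 = 0) {v : ℕ}
    (hv : v < n) : ∃ k, par^[k] v = 0 := by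
  have key : ∀ k, par^[k] v = 0 ∨ par^[k] v + k ≤ v := by
    intro k
    induction k with
    | zero => right; simp
    | succ k ih =>
      rw [Function.iterate_succ_apply']
      rcases ih with h | h
      · left; rw [h, h0]
      · rcases Nat.eq_zero_or_pos (par^[k] v) with h' | h'
        · left; rw [h', h0]
        · right
          have := hp _ h' (iter_lt hp h0 hv k)
          omega
  rcases key (v + 1) with h | h
  · exact ⟨_, h⟩
  · omega

lemma r4spec {σ : Store} {par : ℕ → ℕ} {v : ℕ} (hp : ∀ w, 0 < w → w < n → par w < w)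
    (h0 : par 0 = 0) (hv : v < n) (hpar : Has1 n σ aPar1 par)
    (hon : ∀ i, i < n → σ aOnp i 0 = if i = v then 1 else 0) :
    HasP n (run n A c4 σ) aOnp (fun w => ∃ k, par^[k] v = w) := by
  refine loop_post (Q := fun τ => HasP n τ aOnp (fun w => ∃ k, par^[k] v = w))
    (fun m τ => (∀ x, x < n → (τ aOnp x 0 = 0 ∨ τ aOnp x 0 = 1) ∧
        (τ aOnp x 0 = 1 → ∃ k, par^[k] v = x)) ∧ τ aOnp v 0 = 1 ∧
        ∀ x, x < n → n ≤ x + m → τ aOnp x 0 = 1 → τ aOnp (par x) 0 = 1) ?_ ?_ ?_
  · refine ⟨?_, ?_, ?_⟩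
    · intro x hx
      rw [hon x hx]
      by_cases hxv : x = v
      · subst hxv; simp; exact ⟨0, rfl⟩
      · simp [hxv]
    · rw [hon v hv]; simp
    · intro x hx hx2; omega
  · intro m hm τ hf ih
    replace hm : m < n := hm
    obtain ⟨i1, i2, i3⟩ := ih
    have hpar' : ∀ i, i < n → τ aPar1 i 0 = par i := fun i hi => by
      rw [hf aPar1 (by decide)]; exact hpar i hi
    set w := n - 1 - m with hw
    have hwn : w < n := by omega
    have hpw : par w ≤ w := par_le hp h0 hwn
    rw [run_seq, run_ite]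
    have hval : ∀ k i j, k ≠ vW → k ≠ vI →
        run n A (w0 vW (Ex.sub (Ex.sub .n .c1) (s vI))) (upd τ vI 0 0 m) k i j = τ k i j := by
      intro k i j h1 h2
      have h1' : k ≠ 5 := h1
      have h2' : k ≠ 1 := h2
      simp [ev, upd, h1', h2']
    have hvW : run n A (w0 vW (Ex.sub (Ex.sub .n .c1) (s vI))) (upd τ vI 0 0 m) vW 0 0 = w := by
      simp [ev, upd, hw]
    set τ1 := run n A (w0 vW (Ex.sub (Ex.sub .n .c1) (s vI))) (upd τ vI 0 0 m) with hτ1
    have e1 : ∀ i, τ1 aOnp i 0 = τ aOnp i 0 := fun i => hval _ _ _ (by decide) (by decide)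
    have e2 : ∀ i, i < n → τ1 aPar1 i 0 = par i := fun i hi => by
      rw [hval _ _ _ (by decide) (by decide)]; exact hpar' i hi
    have htst : tst n A τ1 (Bx.eq (r1 aOnp (s vW)) .c1) ↔ τ aOnp w 0 = 1 := by
      have : ev n A τ1 (s vW) = w := hvW
      change τ1 aOnp (ev n A τ1 (s vW)) 0 = 1 ↔ _
      rw [this, e1]
    by_cases hc : τ aOnp w 0 = 1
    · rw [if_pos (htst.2 hc)]
      have hput : ∀ x, run n A (w1 aOnp (r1 aPar1 (s vW)) .c1) τ1 aOnp x 0 =
          if x = par w then 1 else τ aOnp x 0 := by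
        intro x
        have h5 : ev n A τ1 (r1 aPar1 (s vW)) = par w := by
          change τ1 aPar1 (ev n A τ1 (s vW)) 0 = _
          have : ev n A τ1 (s vW) = w := hvW
          rw [this, e2 w hwn]
        rw [run_put, h5]
        by_cases hx : x = par w
        · subst hx; simp [ev, upd]
        · rw [if_neg hx, upd_ne' (fun h => hx h.1), e1]
      refine ⟨?_, ?_, ?_⟩
      · intro x hx
        rw [hput]
        by_cases hxp : x = par w
        · rw [if_pos hxp]
          refine ⟨Or.inr rfl, fun _ => ?_⟩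
          obtain ⟨k, hk⟩ := (i1 w hwn).2 hc
          exact ⟨k + 1, by rw [Function.iterate_succ_apply', hk, hxp]⟩
        · rw [if_neg hxp]; exact i1 x hx
      · rw [hput]; split_ifs
        · rfl
        · exact i2
      · intro x hx hxm h1
        rw [hput] at h1 ⊢
        by_cases hxw : x = w
        · subst hxw; simp
        · have hxw' : w < x := by omega
          rw [if_neg (by omega)] at h1
          split_ifs
          · rfl
          · exact i3 x hx (by omega) h1
    · rw [if_neg (fun h => hc (htst.1 h)), run_skip]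
      refine ⟨?_, ?_, ?_⟩
      · intro x hx; rw [e1]; exact i1 x hx
      · rw [e1]; exact i2
      · intro x hx hxm h1
        rw [e1] at h1 ⊢
        by_cases hxw : x = w
        · subst hxw; exact absurd h1 hc
        · exact i3 x hx (by omega) h1
  · rintro τ - ⟨i1, i2, i3⟩ x hx
    have hall : ∀ k, τ aOnp (par^[k] v) 0 = 1 := by
      intro k
      induction k with
      | zero => exact i2
      | succ k ih =>
        rw [Function.iterate_succ_apply']
        exact i3 _ (iter_lt hp h0 hv k) (by change n ≤ _ + n; omega) ih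
    constructor
    · rintro ⟨k, rfl⟩; exact hall k
    · intro hk
      rcases (i1 x hx).1 with h | h
      · exact h
      · exact absurd ((i1 x hx).2 h) hk

lemma r5spec {σ : Store} {par pos : ℕ → ℕ} {v : ℕ} (hp : ∀ w, 0 < w → w < n → par w < w)
    (h0 : par 0 = 0) (hv : v < n) (hpar : Has1 n σ aPar1 par)
    (hon : HasP n σ aOnp (fun w => ∃ k, par^[k] v = w))
    (hpos1 : ∀ w, w < n → (∃ k, par^[k] v = w) → pos w = w)
    (hpos2 : ∀ w, w < n → (¬ ∃ k, par^[k] v = w) → pos w = pos (par w)) :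
    Has1 n (run n A c5 σ) aPos1 pos := by
  refine loop_post (Q := fun τ => ∀ i, i < n → τ aPos1 i 0 = pos i)
    (fun m τ => ∀ i, i < m → τ aPos1 i 0 = pos i) ?_ ?_ (fun τ _ h => h)
  · intro i hi; omega
  · intro m hm τ hf ih
    replace hm : m < n := hm
    have hpar' : τ aPar1 m 0 = par m := by rw [hf aPar1 (by decide)]; exact hpar m hm
    have hon' : ((∃ k, par^[k] v = m) → τ aOnp m 0 = 1) ∧
        ((¬ ∃ k, par^[k] v = m) → τ aOnp m 0 = 0) := by
      rw [hf aOnp (by decide)]; exact hon m hm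
    rw [run_ite]
    by_cases hc : ∃ k, par^[k] v = m
    · rw [if_pos (by simpa [tst, ev, upd] using hon'.1 hc)]
      intro i hi
      by_cases him : i = m
      · subst him; simpa [ev, upd] using (hpos1 i hm hc).symm
      · simpa [ev, upd, him] using ih i (by omega)
    · have h7 : τ 29 m 0 = 0 := hon'.2 hc
      rw [if_neg (by simp [tst, ev, upd, h7])]
      have hm0 : 0 < m := by
        rcases Nat.eq_zero_or_pos m with rfl | h
        · exact absurd (zero_on hp h0 hv) hc
        · exact h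
      have hpm := hp m hm0 hm
      intro i hi
      by_cases him : i = m
      · subst him
        have h1 := ih (par i) hpm
        have h2 := hpos2 i hm hc
        simp [ev, upd, hpar', h1, h2]
      · simpa [ev, upd, him] using ih i (by omega)

end LPATH

open LPATH in
theorem p_LPATH : T_LPATH := by
  intro n A σ a par pos v hn hv hcur hA hp h0 hpos1 hpos2
  have hp' : ∀ w, 0 < w → w < n → par w < w := fun w h1 h2 => (hp w h1 h2).1
  rw [cPath_eq, run_seq, run_seq, run_seq, run_seq]
  have e1 : Has1 n (run n A c1 σ) aPar1 par := r1spec hA hp h0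
  have e1c : run n A c1 σ vCur 0 0 = v := by rw [run_frame c1 _ vCur (by decide)]; exact hcur
  set σ1 := run n A c1 σ
  have e2 : ∀ i, i < n → run n A c2 σ1 aOnp i 0 = 0 := r2spec
  have e2c : run n A c2 σ1 vCur 0 0 = v := by rw [run_frame c2 _ vCur (by decide)]; exact e1c
  have e2p : Has1 n (run n A c2 σ1) aPar1 par := fun i hi => by
    rw [run_frame c2 _ aPar1 (by decide)]; exact e1 i hi
  set σ2 := run n A c2 σ1
  have e3p : Has1 n (run n A c3 σ2) aPar1 par := fun i hi => by
    rw [run_frame c3 _ aPar1 (by decide)]; exact e2p i hi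
  have e3 : ∀ i, i < n → run n A c3 σ2 aOnp i 0 = if i = v then 1 else 0 := by
    intro i hi
    have : ev n A σ2 (s vCur) = v := e2c
    unfold c3
    rw [run_put, this]
    by_cases hiv : i = v
    · subst hiv; simp [ev, upd]
    · rw [if_neg hiv, upd_ne' (fun h => hiv h.1)]; exact e2 i hi
  set σ3 := run n A c3 σ2
  have e4 : HasP n (run n A c4 σ3) aOnp (fun w => ∃ k, par^[k] v = w) :=
    r4spec hp' h0 hv e3p e3
  have e4p : Has1 n (run n A c4 σ3) aPar1 par := fun i hi => by
    rw [run_frame c4 _ aPar1 (by decide)]; exact e3p i hi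
  set σ4 := run n A c4 σ3
  refine ⟨?_, r5spec hp' h0 hv e4p e4 hpos1 hpos2⟩
  intro i hi
  rw [run_frame c5 _ aOnp (by decide)]
  exact e4 i hi

end Pool.Agent.BDC
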