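import Pool.Agent.BDC.TargetsL

/-!
# BDC: columns, last neighbours on the path
-/

namespace Pool.Agent.BDC

open Prog

namespace LPOS

/-- the columns -/
def P1 : Cm := .loop vW .n (.seq (.ite (.eq (.rd aU (.rd vW .c0 .c0) .c0) .c1)
  (.put vM .c0 .c0 (.rd vW .c0 .c0)) .skip) (.put aPos (.rd vW .c0 .c0) .c0 (.rd vM .c0 .c0)))

/-- the last neighbours -/
def P2 : Cm := .loop vW .n (.seq (.put aRt (.rd vW .c0 .c0) .c0 (.rd vW .c0 .c0))
  (.loop vX .n (.ite (.and (.lt (.rd vW .c0 .c0) (.rd vX .c0 .c0))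
    (.and (.eq (.rd aU (.rd vX .c0 .c0) .c0) .c1)
      (.eq (.rd aB (.rd vW .c0 .c0) (.rd vX .c0 .c0)) .c1)))
    (.put aRt (.rd vW .c0 .c0) .c0 (.rd vX .c0 .c0)) .skip)))

/-- the best neighbours -/
def P3 : Cm := .loop vW .n (.seq (.put aYs (.rd vW .c0 .c0) .c0 (.rd aFst (.rd vW .c0 .c0) .c0))
  (.loop vX .n (.ite (.and (.eq (.rd aU (.rd vX .c0 .c0) .c0) .c1)
    (.and (.eq (.rd aB (.rd vW .c0 .c0) (.rd vX .c0 .c0)) .c1)
      (.lt (.rd aRt (.rd aYs (.rd vW .c0 .c0) .c0) .c0) (.rd aRt (.rd vX .c0 .c0) .c0))))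
    (.put aYs (.rd vW .c0 .c0) .c0 (.rd vX .c0 .c0)) .skip)))

theorem cPos_eq : cPos = .seq (.put vM .c0 .c0 .c0) (.seq P1 (.seq P2 P3)) := rfl

theorem l1 (n : ℕ) (A : ℕ → ℕ → ℕ) (σ : Store) (U : ℕ → Prop) (hU : HasP n σ aU U) (h0 : U 0)
    (hM : σ vM 0 0 = 0) :
    ∀ w, w < n → U (run n A P1 σ aPos w 0) ∧ run n A P1 σ aPos w 0 ≤ w ∧
      ∀ x, U x → x ≤ w → x ≤ run n A P1 σ aPos w 0 := by
  unfold P1
  refine loop_post (Q := fun τ => ∀ w, w < n → U (τ aPos w 0) ∧ τ aPos w 0 ≤ w ∧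
      ∀ x, U x → x ≤ w → x ≤ τ aPos w 0)
    (fun m τ => U (τ vM 0 0) ∧ (τ vM 0 0 < m ∨ τ vM 0 0 = 0) ∧
      (∀ x, U x → x < m → x ≤ τ vM 0 0) ∧
      ∀ w, w < m → U (τ aPos w 0) ∧ τ aPos w 0 ≤ w ∧ ∀ x, U x → x ≤ w → x ≤ τ aPos w 0)
    ?_ ?_ ?_
  · refine ⟨by rw [hM]; exact h0, Or.inr hM, ?_, ?_⟩
    · intro x _ hx; omega
    · intro w hw; omega
  · intro m hm τ hf ih
    replace hm : m < n := hm
    obtain ⟨i1, i2, i3, i4⟩ := ih
    have hUτ : ∀ i, τ aU i 0 = σ aU i 0 := fun i => by rw [hf aU (by decide)]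
    have hUm := hU m hm
    rw [← hUτ m] at hUm
    by_cases hu : U m
    · have e1 := hUm.1 hu
      rw [run_seq, run_ite_pos (by simp [tst, ev, upd, e1])]
      refine ⟨?_, ?_, ?_, ?_⟩
      · simpa [ev, upd] using hu
      · left; simp [ev, upd]
      · intro x _ hx
        simp [ev, upd]; omega
      · intro w hw
        by_cases hwm : w = m
        · subst hwm
          refine ⟨by simpa [ev, upd] using hu, by simp [ev, upd], ?_⟩
          intro x _ hx
          simpa [ev, upd] using hx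
        · have := i4 w (by omega)
          simpa [ev, upd, hwm] using this
    · have e1 := hUm.2 hu
      rw [run_seq, run_ite_neg (by simp [tst, ev, upd, e1])]
      refine ⟨?_, ?_, ?_, ?_⟩
      · simpa [ev, upd] using i1
      · have : τ vM 0 0 < m + 1 ∨ τ vM 0 0 = 0 := by omega
        simpa [ev, upd] using this
      · intro x hx hxm
        have hxm' : x ≠ m := fun h => hu (h ▸ hx)
        have := i3 x hx (by omega)
        simpa [ev, upd] using this
      · intro w hw
        by_cases hwm : w = m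
        · subst hwm
          refine ⟨by simpa [ev, upd] using i1, ?_, ?_⟩
          · have : τ vM 0 0 ≤ w := by omega
            simpa [ev, upd] using this
          · intro x hx hxw
            have hxm' : x ≠ w := fun h => hu (h ▸ hx)
            have := i3 x hx (by omega)
            simpa [ev, upd] using this
        · have := i4 w (by omega)
          simpa [ev, upd, hwm] using this
  · intro τ _ h
    exact h.2.2.2

/-- the property of the last neighbour, up to `l` -/
def B (n : ℕ) (b : ℕ → ℕ → ℕ) (U : ℕ → Prop) (l w r : ℕ) : Prop :=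
  r < n ∧ (r = w ∨ (w < r ∧ U r ∧ b w r = 1)) ∧ ∀ x, x < l → w < x → U x → b w x = 1 → x ≤ r

theorem l2 (n : ℕ) (A : ℕ → ℕ → ℕ) (σ : Store) (b : ℕ → ℕ → ℕ) (U : ℕ → Prop)
    (hB : Has2 n σ aB b) (hU : HasP n σ aU U) :
    ∀ w, w < n → B n b U n w (run n A P2 σ aRt w 0) := by
  unfold P2
  refine loop_post (Q := fun τ => ∀ w, w < n → B n b U n w (τ aRt w 0))
    (fun m τ => ∀ w, w < m → B n b U n w (τ aRt w 0)) ?_ ?_ (fun τ _ h => h)
  · intro w hw; omega
  · intro m hm τ hf ih
    replace hm : m < n := hm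
    rw [run_seq]
    have hUτ : ∀ i, τ aU i 0 = σ aU i 0 := fun i => by rw [hf aU (by decide)]
    have hBτ : ∀ i j, τ aB i j = σ aB i j := fun i j => by rw [hf aB (by decide)]
    refine loop_post (Q := fun τ' => ∀ w, w < m + 1 → B n b U n w (τ' aRt w 0))
      (fun l τ' => (∀ w, w < m → B n b U n w (τ' aRt w 0)) ∧ B n b U l m (τ' aRt m 0)) ?_ ?_ ?_
    · refine ⟨?_, ?_⟩
      · intro w hw
        have hwm : w ≠ m := by omega
        simpa [ev, upd, hwm] using ih w hw
      · have : B n b U 0 m m := ⟨hm, Or.inl rfl, fun x hx => by omega⟩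
        simpa [ev, upd] using this
    · intro l hl τ' hf' ih'
      replace hl : l < n := hl
      obtain ⟨i1, i2⟩ := ih'
      have hW : τ' vW 0 0 = m := by rw [hf' vW (by decide)]; simp [ev, upd]
      have hU' : ∀ i, τ' aU i 0 = σ aU i 0 := fun i => by
        rw [hf' aU (by decide), ← hUτ i]; simp [ev, upd]
      have hB' : ∀ i j, τ' aB i j = σ aB i j := fun i j => by
        rw [hf' aB (by decide), ← hBτ i j]; simp [ev, upd]
      have hUl := hU l hl
      have hBl := hB m l hm hl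
      by_cases hc : m < l ∧ U l ∧ b m l = 1
      · obtain ⟨c1, c2, c3⟩ := hc
        have e1 := hUl.1 c2
        rw [run_ite_pos (by simp [tst, ev, upd, hW, hU', hB', c1, e1, hBl, c3])]
        refine ⟨?_, ?_⟩
        · intro w hw
          have hwm : w ≠ m := by omega
          simpa [ev, upd, hW, hwm] using i1 w hw
        · have : B n b U (l + 1) m l := ⟨hl, Or.inr ⟨c1, c2, c3⟩, fun x hx _ _ _ => by omega⟩
          simpa [ev, upd, hW] using this
      · have hnt : ¬ tst n A (upd τ' vX 0 0 l) (.and (.lt (.rd vW .c0 .c0) (.rd vX .c0 .c0))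
            (.and (.eq (.rd aU (.rd vX .c0 .c0) .c0) .c1)
            (.eq (.rd aB (.rd vW .c0 .c0) (.rd vX .c0 .c0)) .c1))) := by
          rintro ⟨h1, h2, h3⟩
          apply hc
          have h1' : m < l := by simpa [tst, ev, upd, hW] using h1
          have h2' : σ aU l 0 = 1 := by simpa [tst, ev, upd, hU'] using h2
          have h3' : σ aB m l = 1 := by simpa [tst, ev, upd, hW, hB'] using h3
          refine ⟨h1', ?_, by rw [← hBl]; exact h3'⟩
          by_contra hu
          rw [hUl.2 hu] at h2'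
          exact absurd h2' (by decide)
        rw [run_ite_neg hnt]
        refine ⟨?_, ?_⟩
        · intro w hw
          simpa [ev, upd] using i1 w hw
        · obtain ⟨j1, j2, j3⟩ := i2
          have : B n b U (l + 1) m (τ' aRt m 0) := by
            refine ⟨j1, j2, fun x hx hmx hUx hbx => ?_⟩
            have : x ≠ l := by
              rintro rfl
              exact hc ⟨hmx, hUx, hbx⟩
            exact j3 x (by omega) hmx hUx hbx
          simpa [ev, upd] using this
    · rintro τ' _ ⟨h1, h2⟩ w hw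
      by_cases hwm : w = m
      · subst hwm; exact h2
      · exact h1 w (by omega)

/-- the property of the best neighbour, up to `l` -/
def C (n : ℕ) (b : ℕ → ℕ → ℕ) (U : ℕ → Prop) (f rt : ℕ → ℕ) (l w y : ℕ) : Prop :=
  y < n ∧ (U (f w) → b w (f w) = 1 → U y ∧ b w y = 1 ∧
    ∀ x, x < l → U x → b w x = 1 → rt x ≤ rt y)

theorem l3 (n : ℕ) (A : ℕ → ℕ → ℕ) (σ : Store) (b : ℕ → ℕ → ℕ) (U : ℕ → Prop) (f : ℕ → ℕ)
    (hB : Has2 n σ aB b) (hU : HasP n σ aU U) (hF : Has1 n σ aFst f) (hfn : ∀ w, w < n → f w < n) :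
    ∀ w, w < n → C n b U f (fun x => σ aRt x 0) n w (run n A P3 σ aYs w 0) := by
  unfold P3
  refine loop_post (Q := fun τ => ∀ w, w < n → C n b U f (fun x => σ aRt x 0) n w (τ aYs w 0))
    (fun m τ => ∀ w, w < m → C n b U f (fun x => σ aRt x 0) n w (τ aYs w 0)) ?_ ?_ (fun τ _ h => h)
  · intro w hw; omega
  · intro m hm τ hf ih
    replace hm : m < n := hm
    rw [run_seq]
    have hUτ : ∀ i, τ aU i 0 = σ aU i 0 := fun i => by rw [hf aU (by decide)]
    have hRτ : ∀ i, τ aRt i 0 = σ aRt i 0 := fun i => by rw [hf aRt (by decide)]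
    have hFτ : ∀ i, τ aFst i 0 = σ aFst i 0 := fun i => by rw [hf aFst (by decide)]
    have hBτ : ∀ i j, τ aB i j = σ aB i j := fun i j => by rw [hf aB (by decide)]
    refine loop_post (Q := fun τ' => ∀ w, w < m + 1 →
        C n b U f (fun x => σ aRt x 0) n w (τ' aYs w 0))
      (fun l τ' => (∀ w, w < m → C n b U f (fun x => σ aRt x 0) n w (τ' aYs w 0)) ∧
        C n b U f (fun x => σ aRt x 0) l m (τ' aYs m 0)) ?_ ?_ ?_
    · refine ⟨?_, ?_⟩
      · intro w hw
        have hwm : w ≠ m := by omega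
        simpa [ev, upd, hwm] using ih w hw
      · have : C n b U f (fun x => σ aRt x 0) 0 m (f m) :=
          ⟨hfn m hm, fun h1 h2 => ⟨h1, h2, fun x hx => by omega⟩⟩
        simpa [ev, upd, hFτ, hF m hm] using this
    · intro l hl τ' hf' ih'
      replace hl : l < n := hl
      obtain ⟨i1, i2⟩ := ih'
      have hW : τ' vW 0 0 = m := by rw [hf' vW (by decide)]; simp [ev, upd]
      have hU' : ∀ i, τ' aU i 0 = σ aU i 0 := fun i => by
        rw [hf' aU (by decide), ← hUτ i]; simp [ev, upd]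
      have hR' : ∀ i, τ' aRt i 0 = σ aRt i 0 := fun i => by
        rw [hf' aRt (by decide), ← hRτ i]; simp [ev, upd]
      have hB' : ∀ i j, τ' aB i j = σ aB i j := fun i j => by
        rw [hf' aB (by decide), ← hBτ i j]; simp [ev, upd]
      have hUl := hU l hl
      have hBl := hB m l hm hl
      by_cases hc : U l ∧ b m l = 1 ∧ σ aRt (τ' aYs m 0) 0 < σ aRt l 0
      · obtain ⟨c1, c2, c3⟩ := hc
        have e1 := hUl.1 c1
        rw [run_ite_pos (by simp [tst, ev, upd, hW, hU', hB', hR', e1, hBl, c2, c3])]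
        refine ⟨?_, ?_⟩
        · intro w hw
          have hwm : w ≠ m := by omega
          simpa [ev, upd, hW, hwm] using i1 w hw
        · have : C n b U f (fun x => σ aRt x 0) (l + 1) m l := by
            refine ⟨hl, fun h1 h2 => ⟨c1, c2, fun x hx hUx hbx => ?_⟩⟩
            by_cases hxl : x = l
            · subst hxl; exact le_rfl
            · exact ((i2.2 h1 h2).2.2 x (by omega) hUx hbx).trans c3.le
          simpa [ev, upd, hW] using this
      · have hnt : ¬ tst n A (upd τ' vX 0 0 l) (.and (.eq (.rd aU (.rd vX .c0 .c0) .c0) .c1)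
            (.and (.eq (.rd aB (.rd vW .c0 .c0) (.rd vX .c0 .c0)) .c1)
            (.lt (.rd aRt (.rd aYs (.rd vW .c0 .c0) .c0) .c0) (.rd aRt (.rd vX .c0 .c0) .c0)))) := by
          rintro ⟨h2, h3, h1⟩
          apply hc
          have h1' : σ aRt (τ' aYs m 0) 0 < σ aRt l 0 := by
            simpa [tst, ev, upd, hW, hR'] using h1
          have h2' : σ aU l 0 = 1 := by simpa [tst, ev, upd, hU'] using h2
          have h3' : σ aB m l = 1 := by simpa [tst, ev, upd, hW, hB'] using h3
          refine ⟨?_, by rw [← hBl]; exact h3', h1'⟩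
          by_contra hu
          rw [hUl.2 hu] at h2'
          exact absurd h2' (by decide)
        rw [run_ite_neg hnt]
        refine ⟨?_, ?_⟩
        · intro w hw
          simpa [ev, upd] using i1 w hw
        · obtain ⟨j1, j2⟩ := i2
          have : C n b U f (fun x => σ aRt x 0) (l + 1) m (τ' aYs m 0) := by
            refine ⟨j1, fun h1 h2 => ?_⟩
            obtain ⟨k1, k2, k3⟩ := j2 h1 h2
            refine ⟨k1, k2, fun x hx hUx hbx => ?_⟩
            by_cases hxl : x = l
            · subst hxl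
              by_contra hlt
              exact hc ⟨hUx, hbx, not_le.mp hlt⟩
            · exact k3 x (by omega) hUx hbx
          simpa [ev, upd] using this
    · rintro τ' _ ⟨h1, h2⟩ w hw
      by_cases hwm : w = m
      · subst hwm; exact h2
      · exact h1 w (by omega)

end LPOS

open LPOS in
theorem p_LPOS : T_LPOS := by
  intro n A σ b U f _ hB hU h0 hF hfn
  rw [cPos_eq, run_seq, run_seq, run_seq]
  set σ0 := run n A (.put vM .c0 .c0 .c0) σ with hσ0
  set σ1 := run n A P1 σ0 with hσ1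
  set σ2 := run n A P2 σ1 with hσ2
  have f01 : ∀ k, k ≠ vM → σ0 k = σ k := fun k hk => upd_ne hk _ _ _
  have f1 : ∀ k, k ∉ mods P1 → σ1 k = σ0 k := fun k hk => run_frame _ _ k hk
  have f2 : ∀ k, k ∉ mods P2 → σ2 k = σ1 k := fun k hk => run_frame _ _ k hk
  have f3 : ∀ k, k ∉ mods P3 → run n A P3 σ2 k = σ2 k := fun k hk => run_frame _ _ k hk
  have hU0 : HasP n σ0 aU U := by
    intro i hi; rw [f01 aU (by decide)]; exact hU i hi
  have hU1 : HasP n σ1 aU U := by
    intro i hi; rw [f1 aU (by decide)]; exact hU0 i hi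
  have hU2 : HasP n σ2 aU U := by
    intro i hi; rw [f2 aU (by decide)]; exact hU1 i hi
  have hB1 : Has2 n σ1 aB b := by
    intro i j hi hj; rw [f1 aB (by decide), f01 aB (by decide)]; exact hB i j hi hj
  have hB2 : Has2 n σ2 aB b := by
    intro i j hi hj; rw [f2 aB (by decide)]; exact hB1 i j hi hj
  have hF2 : Has1 n σ2 aFst f := by
    intro i hi; rw [f2 aFst (by decide), f1 aFst (by decide), f01 aFst (by decide)]; exact hF i hi
  have hM0 : σ0 vM 0 0 = 0 := by simp [hσ0, ev]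
  have e1 : run n A P3 σ2 aPos = σ1 aPos := by rw [f3 aPos (by decide), f2 aPos (by decide)]
  have e2 : run n A P3 σ2 aRt = σ2 aRt := f3 aRt (by decide)
  rw [e1, e2]
  refine ⟨l1 n A σ0 U hU0 h0 hM0, ?_, ?_⟩
  · intro w hw
    obtain ⟨h1, h2, h3⟩ := l2 n A σ1 b U hB1 hU1 w hw
    exact ⟨h1, h2, h3⟩
  · intro w hw
    obtain ⟨h1, h2⟩ := l3 n A σ2 b U f hB2 hU2 hF2 hfn w hw
    exact ⟨h1, h2⟩

end Pool.Agent.BDC
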