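import Pool.Agent.BDC.TargetsL

/-!
# BDC: the stages `cRank` and `cFst`
-/

namespace Pool.Agent.BDC

open N Prog

variable {n : ℕ} {A : ℕ → ℕ → ℕ}

/-! ## The ranks -/

/-- the condition of the rank -/
def rkc (pos : ℕ → ℕ) (w x : ℕ) : Prop := pos x < pos w ∨ (pos x = pos w ∧ x < w)

noncomputable instance (pos : ℕ → ℕ) (w : ℕ) : DecidablePred (rkc pos w) :=
  fun _ => Classical.propDecidable _

/-- partial count -/
noncomputable def rkn (pos : ℕ → ℕ) (w l : ℕ) : ℕ := ((Finset.range l).filter (rkc pos w)).card

lemma rkn_le (pos : ℕ → ℕ) (w l : ℕ) : rkn pos w l ≤ l := by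
  unfold rkn
  exact (Finset.card_filter_le _ _).trans (by simp)

lemma rkn_eq (n : ℕ) (pos : ℕ → ℕ) (w : ℕ) : rkn pos w n = rank n pos w := by
  unfold rkn rank
  congr 1
  ext x
  simp [rkc]

lemma rkn_succ (pos : ℕ → ℕ) (w l : ℕ) :
    rkn pos w (l + 1) = rkn pos w l + (if rkc pos w l then 1 else 0) := by
  unfold rkn
  rw [Finset.range_add_one, Finset.filter_insert]
  split_ifs with h
  · rw [Finset.card_insert_of_notMem (by simp)]
  · rfl

def cRank1 : Cm :=
  .loop vW .n (Cm.seq (w1 aRk (s vW) .c0)
    (.loop vX .n (whn (Bx.or (Bx.lt (r1 aPos1 (s vX)) (r1 aPos1 (s vW)))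
        (Bx.and (Bx.eq (r1 aPos1 (s vX)) (r1 aPos1 (s vW))) (Bx.lt (s vX) (s vW))))
      (w1 aRk (s vW) (Ex.add (r1 aRk (s vW)) .c1)))))

def cRank2 : Cm := .loop vW .n (w1 aU (r1 aRk (s vW)) (r1 aOnp (s vW)))

def cRank3 : Cm :=
  .loop vI .n (.loop vJ .n (
    w2 aB (r1 aRk (s vI)) (r1 aRk (s vJ)) (r2 aA (s vI) (s vJ))))

lemma run_cRank (σ : Store) :
    run n A cRank σ = run n A cRank3 (run n A cRank2 (run n A cRank1 σ)) := rfl

lemma l_rank1 (σ : Store) (pos : ℕ → ℕ) (hp : Has1 n σ aPos1 pos) :
    Has1 n (run n A cRank1 σ) aRk (rank n pos) := by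
  unfold cRank1
  refine loop_post (Q := fun τ => Has1 n τ aRk (rank n pos))
    (fun m τ => ∀ i, i < m → τ aRk i 0 = rank n pos i) ?_ ?_ (fun τ _ h => h)
  · intro i hi; omega
  · intro m hm τ hτ ih
    replace hm : m < n := hm
    rw [run_seq]
    refine loop_post (Q := fun τ => ∀ i, i < m + 1 → τ aRk i 0 = rank n pos i)
      (fun l τ => (∀ i, i < m → τ aRk i 0 = rank n pos i) ∧ τ aRk m 0 = rkn pos m l) ?_ ?_ ?_
    · refine ⟨?_, ?_⟩
      · intro i hi
        have : i ≠ m := by omega
        simpa [ev, upd, this] using ih i hi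
      · simp [ev, upd, rkn]
    · intro l hl τ' hf ih'
      replace hl : l < n := hl
      have h3 : τ' vW 0 0 = m := by rw [hf vW (by decide)]; simp [upd]
      have hpos : ∀ i, i < n → τ' aPos1 i 0 = pos i := by
        intro i hi
        rw [hf aPos1 (by decide), run_frame _ _ aPos1 (by decide), upd_ne (by decide),
          hτ aPos1 (by decide)]
        exact hp i hi
      obtain ⟨h1, h2⟩ := ih'
      have hb := rkn_le pos m l
      have hcap : rkn pos m l + 1 ≤ cap n := by unfold cap; omega
      have ht : tst n A (upd τ' vX 0 0 l) (Bx.or (Bx.lt (r1 aPos1 (s vX)) (r1 aPos1 (s vW)))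
          (Bx.and (Bx.eq (r1 aPos1 (s vX)) (r1 aPos1 (s vW))) (Bx.lt (s vX) (s vW)))) ↔ rkc pos m l := by
        unfold rkc
        simp [tst, ev, upd, h3, hpos m hm, hpos l hl]
      rw [rkn_succ]
      by_cases hc : rkc pos m l
      · rw [run_ite_pos (ht.mpr hc), if_pos hc]
        refine ⟨?_, ?_⟩
        · intro i hi
          have : i ≠ m := by omega
          simpa [ev, upd, h3, this] using h1 i hi
        · simp [ev, upd, h3, h2, hcap]
      · rw [run_ite_neg (fun h => hc (ht.mp h)), if_neg hc]
        refine ⟨?_, ?_⟩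
        · intro i hi
          simpa [upd] using h1 i hi
        · simpa [upd] using h2
    · rintro τ' _ ⟨h1, h2⟩ i hi
      by_cases him : i = m
      · subst him
        rw [h2]
        exact rkn_eq n pos i
      · exact h1 i (by omega)

lemma l_rank2 (σ : Store) (r o : ℕ → ℕ) (hr : Has1 n σ aRk r) (ho : Has1 n σ aOnp o)
    (hinj : ∀ i j, i < n → j < n → r i = r j → i = j) :
    ∀ w, w < n → run n A cRank2 σ aU (r w) 0 = o w := by
  unfold cRank2
  refine loop_post (Q := fun τ => ∀ w, w < n → τ aU (r w) 0 = o w)
    (fun m τ => ∀ i, i < m → τ aU (r i) 0 = o i) ?_ ?_ (fun τ _ h => h)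
  · intro i hi; omega
  · intro m hm τ hτ ih i hi
    replace hm : m < n := hm
    have h1 : τ aRk m 0 = r m := by rw [hτ aRk (by decide)]; exact hr m hm
    have h2 : τ aOnp m 0 = o m := by rw [hτ aOnp (by decide)]; exact ho m hm
    by_cases him : i = m
    · subst him
      simp [ev, upd, h1, h2]
    · have h3 : r i ≠ r m := fun h => him (hinj i m (by omega) hm h)
      simpa [ev, upd, h1, h3] using ih i (by omega)

lemma l_rank3 (σ : Store) (r : ℕ → ℕ) (a : ℕ → ℕ → ℕ) (hr : Has1 n σ aRk r)
    (ha : Has2 n σ aA a) (hinj : ∀ i j, i < n → j < n → r i = r j → i = j) :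
    ∀ i j, i < n → j < n → run n A cRank3 σ aB (r i) (r j) = a i j := by
  unfold cRank3
  refine loop_post (Q := fun τ => ∀ i j, i < n → j < n → τ aB (r i) (r j) = a i j)
    (fun m τ => ∀ i j, i < m → j < n → τ aB (r i) (r j) = a i j) ?_ ?_ (fun τ _ h => h)
  · intro i j hi; omega
  · intro m hm τ hτ ih
    replace hm : m < n := hm
    refine loop_post (Q := fun τ => ∀ i j, i < m + 1 → j < n → τ aB (r i) (r j) = a i j)
      (fun l τ => (∀ i j, i < m → j < n → τ aB (r i) (r j) = a i j) ∧
        ∀ j, j < l → τ aB (r m) (r j) = a m j) ?_ ?_ ?_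
    · refine ⟨?_, ?_⟩
      · intro i j hi hj
        simpa [upd] using ih i j hi hj
      · intro j hj; omega
    · intro l hl τ' hf ih'
      replace hl : l < n := hl
      obtain ⟨h1, h2⟩ := ih'
      have h3 : τ' vI 0 0 = m := by rw [hf vI (by decide)]; simp [upd]
      have h4 : ∀ i, i < n → τ' aRk i 0 = r i := by
        intro i hi
        rw [hf aRk (by decide), upd_ne (by decide), hτ aRk (by decide)]
        exact hr i hi
      have h5 : τ' aA m l = a m l := by
        rw [hf aA (by decide), upd_ne (by decide), hτ aA (by decide)]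
        exact ha m l hm hl
      refine ⟨?_, ?_⟩
      · intro i j hi hj
        have h6 : r i ≠ r m := fun h => by
          have := hinj i m (by omega) hm h
          omega
        simpa [ev, upd, h3, h4 m hm, h4 l hl, h6] using h1 i j hi hj
      · intro j hj
        by_cases hjl : j = l
        · subst hjl
          simp [ev, upd, h3, h4 m hm, h4 j hl, h5]
        · have h6 : r j ≠ r l := fun h => hjl (hinj j l (by omega) hl h)
          simpa [ev, upd, h3, h4 m hm, h4 l hl, h6] using h2 j (by omega)
    · rintro τ' _ ⟨h1, h2⟩ i j hi hj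
      by_cases him : i = m
      · subst him; exact h2 j hj
      · exact h1 i j (by omega) hj

theorem p_LRANK : T_LRANK := by
  intro n A σ a pos o ha hp ho hinj
  have h1 := l_rank1 (A := A) σ pos hp
  rw [run_cRank]
  refine ⟨?_, ?_⟩
  · intro w hw
    rw [run_frame cRank3 _ aU (by decide)]
    refine l_rank2 (run n A cRank1 σ) (rank n pos) o h1 ?_ hinj w hw
    intro i hi
    rw [run_frame cRank1 _ aOnp (by decide)]
    exact ho i hi
  · refine l_rank3 _ (rank n pos) a ?_ ?_ hinj
    · intro i hi
      rw [run_frame cRank2 _ aRk (by decide)]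
      exact h1 i hi
    · intro i j hi hj
      rw [run_frame cRank2 _ aA (by decide), run_frame cRank1 _ aA (by decide)]
      exact ha i j hi hj

/-! ## First neighbours and last earlier neighbours -/

/-- invariant of the inner loop for the vertex `w`, before iteration `l`: `f` is the least
neighbour `≥ n - l` (if there is one), `p` the last neighbour `< min l w` -/
structure FInv (n : ℕ) (b : ℕ → ℕ → ℕ) (w l f p : ℕ) : Prop where
  flt : f < n
  f0 : (∃ j, j < n ∧ n ≤ j + l ∧ b w j = 1) → b w f = 1 ∧ n ≤ f + l ∧
    ∀ j, j < n → n ≤ j + l → b w j = 1 → f ≤ j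
  p0 : (∃ j, j < l ∧ j < w ∧ b w j = 1) → b w p = 1 ∧ p < w ∧
    ∀ j, j < l → j < w → b w j = 1 → j ≤ p

theorem p_LFST : T_LFST := by
  intro n A σ b hn hb
  have key : ∀ w, w < n → FInv n b w n (run n A cFst σ aFst w 0) (run n A cFst σ aPar w 0) := by
    unfold cFst
    refine loop_post (Q := fun τ => ∀ w, w < n → FInv n b w n (τ aFst w 0) (τ aPar w 0))
      (fun m τ => ∀ w, w < m → FInv n b w n (τ aFst w 0) (τ aPar w 0)) ?_ ?_ (fun τ _ h => h)
    · intro i hi; omega
    · intro m hm τ hτ ih
      replace hm : m < n := hm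
      rw [run_seq, run_seq]
      refine loop_post
        (Q := fun τ => ∀ w, w < m + 1 → FInv n b w n (τ aFst w 0) (τ aPar w 0))
        (fun l τ => (∀ w, w < m → FInv n b w n (τ aFst w 0) (τ aPar w 0)) ∧
          FInv n b m l (τ aFst m 0) (τ aPar m 0)) ?_ ?_ ?_
      · refine ⟨?_, ?_⟩
        · intro i hi
          have : i ≠ m := by omega
          simpa [ev, upd, this] using ih i hi
        · simp only [ev, upd, run_put]
          refine ⟨by simp; omega, ?_, ?_⟩
          · rintro ⟨j, hj, hj', -⟩; omega
          · rintro ⟨j, hj, -⟩; omega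
      · intro l hl τ' hf ih'
        replace hl : l < n := hl
        have h3 : τ' vW 0 0 = m := by rw [hf vW (by decide)]; simp [upd]
        have hB : ∀ j, j < n → τ' aB m j = b m j := by
          intro j hj
          rw [hf aB (by decide), run_frame _ _ aB (by decide), run_frame _ _ aB (by decide),
            upd_ne (by decide), hτ aB (by decide)]
          exact hb m j hm hj
        obtain ⟨h1, h2⟩ := ih'
        have hx : n - 1 - l < n := by omega
        -- the state after the assignment to `vX`
        set τ1 : Store := run n A (w0 vX (Ex.sub (Ex.sub .n .c1) (s vJ))) (upd τ' vJ 0 0 l) with hτ1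
        have e1 : ∀ k i j, k ≠ vX → k ≠ vJ → τ1 k i j = τ' k i j := by
          intro k i j hk hk'
          rw [hτ1, run_put, upd_ne hk, upd_ne hk']
        have e2 : τ1 vX 0 0 = n - 1 - l := by
          rw [hτ1]; simp [ev, upd]
        have e3 : τ1 vJ 0 0 = l := by
          rw [hτ1]; simp [upd]
        have e4 : τ1 vW 0 0 = m := by rw [e1 _ _ _ (by decide) (by decide)]; exact h3
        set τ2 : Store := run n A
          (whn (Bx.eq (r2 aB (s vW) (s vX)) .c1) (w1 aFst (s vW) (s vX))) τ1 with hτ2
        have t1 : tst n A τ1 (Bx.eq (r2 aB (s vW) (s vX)) .c1) ↔ b m (n - 1 - l) = 1 := by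
          simp only [tst, ev, e2, e4]
          rw [e1 _ _ _ (by decide) (by decide), hB _ hx]
        have f1 : ∀ k i j, k ≠ aFst → τ2 k i j = τ1 k i j := by
          intro k i j hk
          rw [hτ2, run_frame _ _ k (by simpa [mods] using hk)]
        have f2 : ∀ i, i ≠ m → τ2 aFst i 0 = τ1 aFst i 0 := by
          intro i hi
          rw [hτ2, run_ite]
          split_ifs
          · simp [ev, upd, e4, hi]
          · rfl
        have f3 : τ2 aFst m 0 = if b m (n - 1 - l) = 1 then n - 1 - l else τ' aFst m 0 := by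
          rw [hτ2, run_ite]
          by_cases hc : b m (n - 1 - l) = 1
          · rw [if_pos (t1.mpr hc), if_pos hc]
            simp [ev, upd, e4, e2]
          · rw [if_neg (fun h => hc (t1.mp h)), if_neg hc, run_skip,
              e1 _ _ _ (by decide) (by decide)]
        have t2 : tst n A τ2 (Bx.and (Bx.lt (s vJ) (s vW)) (Bx.eq (r2 aB (s vW) (s vJ)) .c1)) ↔
            l < m ∧ b m l = 1 := by
          simp only [tst, ev]
          rw [f1 vJ _ _ (by decide), f1 vW _ _ (by decide), e3, e4, f1 aB _ _ (by decide),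
            e1 _ _ _ (by decide) (by decide), hB l hl]
        have g : run n A (w0 vX (Ex.sub (Ex.sub .n .c1) (s vJ))) (upd τ' vJ 0 0 l) = τ1 := rfl
        show (∀ w, w < m → FInv n b w n
            (run n A (whn (Bx.and (Bx.lt (s vJ) (s vW)) (Bx.eq (r2 aB (s vW) (s vJ)) .c1))
              (w1 aPar (s vW) (s vJ))) τ2 aFst w 0)
            (run n A (whn (Bx.and (Bx.lt (s vJ) (s vW)) (Bx.eq (r2 aB (s vW) (s vJ)) .c1))
              (w1 aPar (s vW) (s vJ))) τ2 aPar w 0)) ∧
          FInv n b m (l + 1)
            (run n A (whn (Bx.and (Bx.lt (s vJ) (s vW)) (Bx.eq (r2 aB (s vW) (s vJ)) .c1))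
              (w1 aPar (s vW) (s vJ))) τ2 aFst m 0)
            (run n A (whn (Bx.and (Bx.lt (s vJ) (s vW)) (Bx.eq (r2 aB (s vW) (s vJ)) .c1))
              (w1 aPar (s vW) (s vJ))) τ2 aPar m 0)
        set τ3 : Store := run n A (whn (Bx.and (Bx.lt (s vJ) (s vW)) (Bx.eq (r2 aB (s vW) (s vJ)) .c1))
              (w1 aPar (s vW) (s vJ))) τ2 with hτ3
        have k1 : ∀ i, τ3 aFst i 0 = τ2 aFst i 0 := by
          intro i
          rw [hτ3, run_frame _ _ aFst (by decide)]
        have k2 : ∀ i, i ≠ m → τ3 aPar i 0 = τ' aPar i 0 := by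
          intro i hi
          rw [hτ3, run_ite]
          split_ifs
          · simp only [run_put, ev]
            rw [upd_ne' (by rw [f1 vW _ _ (by decide), e4]; tauto), f1 aPar _ _ (by decide),
              e1 _ _ _ (by decide) (by decide)]
          · rw [run_skip, f1 aPar _ _ (by decide), e1 _ _ _ (by decide) (by decide)]
        have k3 : τ3 aPar m 0 = if l < m ∧ b m l = 1 then l else τ' aPar m 0 := by
          rw [hτ3, run_ite]
          by_cases hc : l < m ∧ b m l = 1
          · rw [if_pos (t2.mpr hc), if_pos hc]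
            simp only [run_put, ev]
            rw [f1 vW _ _ (by decide), e4, upd_same, f1 vJ _ _ (by decide), e3]
          · rw [if_neg (fun h => hc (t2.mp h)), if_neg hc, run_skip, f1 aPar _ _ (by decide),
              e1 _ _ _ (by decide) (by decide)]
        refine ⟨?_, ?_⟩
        · intro w hw
          have hne : w ≠ m := by omega
          rw [k1, f2 w hne, e1 _ _ _ (by decide) (by decide), k2 w hne]
          exact h1 w hw
        · rw [k1, f3, k3]
          obtain ⟨a1, a2, a3⟩ := h2
          refine ⟨?_, ?_, ?_⟩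
          · split_ifs
            · exact hx
            · exact a1
          · rintro ⟨j, hj, hj', hj''⟩
            by_cases hc : b m (n - 1 - l) = 1
            · rw [if_pos hc]
              refine ⟨hc, by omega, ?_⟩
              intro i hi hi' hi''
              omega
            · rw [if_neg hc]
              have hjl : n ≤ j + l := by
                by_contra hlt
                have : j = n - 1 - l := by omega
                subst this
                exact hc hj''
              obtain ⟨c1, c2, c3⟩ := a2 ⟨j, hj, hjl, hj''⟩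
              refine ⟨c1, by omega, ?_⟩
              intro i hi hi' hi''
              by_cases hil : n ≤ i + l
              · exact c3 i hi hil hi''
              · have : i = n - 1 - l := by omega
                subst this
                exact absurd hi'' hc
          · rintro ⟨j, hj, hj', hj''⟩
            by_cases hc : l < m ∧ b m l = 1
            · rw [if_pos hc]
              exact ⟨hc.2, hc.1, fun i hi _ _ => by omega⟩
            · rw [if_neg hc]
              have hjl : j < l := by
                by_contra hlt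
                have : j = l := by omega
                subst this
                exact hc ⟨hj', hj''⟩
              obtain ⟨c1, c2, c3⟩ := a3 ⟨j, hjl, hj', hj''⟩
              refine ⟨c1, c2, ?_⟩
              intro i hi hi' hi''
              by_cases hil : i < l
              · exact c3 i hil hi' hi''
              · have : i = l := by omega
                subst this
                exact absurd ⟨hi', hi''⟩ hc
      · rintro τ' _ ⟨h1, h2⟩ w hw
        by_cases hwm : w = m
        · subst hwm; exact h2
        · exact h1 w (by omega)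
  refine ⟨fun w hw => (key w hw).flt, ?_⟩
  rintro w hw0 hw ⟨j, hj, hj'⟩
  have h := key w hw
  obtain ⟨c1, c2, c3⟩ := h.f0 ⟨j, by omega, by omega, hj'⟩
  obtain ⟨d1, d2, d3⟩ := h.p0 ⟨j, by omega, hj, hj'⟩
  have := c3 j (by omega) (by omega) hj'
  refine ⟨⟨by omega, c1, fun i hi hi' => c3 i hi (by omega) hi'⟩, ⟨d2, d1, fun i hi hi' =>
    d3 i (by omega) hi hi'⟩⟩

end Pool.Agent.BDC
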