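import Pool.Agent.BDC.TargetsL

/-!
# BDC: the candidate centres
-/

namespace Pool.Agent.BDC

open N Prog

namespace LZ

/-- the inner test -/
theorem tst_iff (n : ℕ) (A : ℕ → ℕ → ℕ) (U : ℕ → Prop) (din : ℕ → ℕ → ℕ)
    (dep ec : ℕ → ℕ) (k : ℕ) (kE : Ex) (hk : k ≤ 1) (hkE : ∀ τ, ev n A τ kE = k)
    (τ : Store) (p hp o z : ℕ) (hz : z < n) (ho : o < n)
    (hU : HasP n τ aU U) (hdin : Has2 n τ aDin din) (hdep : Has1 n τ aDep dep)
    (hec : Has1 n τ aEc ec) (hecn : ∀ x, x < n → ec x ≤ n)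
    (hH : τ aH p 0 = hp) (hWo : τ aWo p 0 = o) (hP : τ vP 0 0 = p) (hZ : τ vZ 0 0 = z) :
    tst n A τ (Bx.and (Bx.eq (r1 aU (s vZ)) .c0) (Bx.and (Bx.lt (r2 aDin (s vZ) (r1 aWo (s vP))) .n)
            (Bx.and (Bx.eq (r1 aDep (s vZ)) .c1) (Bx.not (Bx.lt (r1 aH (s vP)) (Ex.add (r1 aEc (s vZ)) kE)))))) ↔
      QZ n U din dep ec k hp o z := by
  have h1 := hU z hz
  have h2 := hdin z o hz ho
  have h3 := hdep z hz
  have h4 := hec z hz
  have h5 := hecn z hz
  simp only [Prog.aU, Prog.aDin, Prog.aDep, Prog.aEc, Prog.aH, Prog.aWo, Prog.vP, Prog.vZ] at *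
  simp only [tst, ev, hkE, hP, hZ, hWo, hH, h2, h3, h4]
  have h6 : min (ec z + k) (cap n) = ec z + k := by
    rw [min_eq_left]; unfold cap; omega
  rw [h6]
  unfold QZ
  constructor
  · rintro ⟨a1, a2, a3, a4⟩
    refine ⟨fun hu => ?_, a2, a3, by omega⟩
    rw [h1.1 hu] at a1
    exact one_ne_zero a1
  · rintro ⟨a1, a2, a3, a4⟩
    exact ⟨h1.2 a1, a2, a3, by omega⟩

theorem main (n : ℕ) (A : ℕ → ℕ → ℕ) (σ : Store) (U : ℕ → Prop) (din : ℕ → ℕ → ℕ)
    (dep ec h wo : ℕ → ℕ) (k : ℕ) (kE : Ex) (hk : k ≤ 1) (hkE : ∀ τ, ev n A τ kE = k)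
    (hU : HasP n σ aU U) (hU0 : U 0) (hdin : Has2 n σ aDin din) (hdep : Has1 n σ aDep dep)
    (hec : Has1 n σ aEc ec) (hecn : ∀ x, x < n → ec x ≤ n)
    (hh : ∀ p, p < n → U p → σ aH p 0 = h p ∧ σ aWo p 0 = wo p ∧ wo p < n ∧ h p ≤ n) :
    (∀ p, p < n → U p → IsZ n U din dep ec k (h p) (wo p) (run n A (cZ kE) σ aZ k p)) ∧
    ∀ k' p, k' ≠ k → run n A (cZ kE) σ aZ k' p = σ aZ k' p := by
  unfold cZ
  refine loop_post (Q := fun τ => (∀ p, p < n → U p → IsZ n U din dep ec k (h p) (wo p)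
      (τ aZ k p)) ∧ ∀ k' p, k' ≠ k → τ aZ k' p = σ aZ k' p)
    (fun m τ => (∀ p, p < m → U p → IsZ n U din dep ec k (h p) (wo p) (τ aZ k p)) ∧
      ∀ k' p, k' ≠ k → τ aZ k' p = σ aZ k' p) ?_ ?_ (fun τ _ hτ => hτ)
  · exact ⟨fun p hp => absurd hp (Nat.not_lt_zero p), fun _ _ _ => rfl⟩
  · intro m hm τ hf ih
    replace hm : m < n := hm
    obtain ⟨ih1, ih2⟩ := ih
    -- the arrays which are not changed
    have fU : τ aU = σ aU := hf aU (by simp [mods])
    have fDin : τ aDin = σ aDin := hf aDin (by simp [mods])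
    have fDep : τ aDep = σ aDep := hf aDep (by simp [mods])
    have fEc : τ aEc = σ aEc := hf aEc (by simp [mods])
    have fH : τ aH = σ aH := hf aH (by simp [mods])
    have fWo : τ aWo = σ aWo := hf aWo (by simp [mods])
    rw [run_seq]
    set τ1 : Store := run n A (w2 aZ kE (s vP) .c0) (upd τ vP 0 0 m) with hτ1
    have e1 : τ1 = upd (upd τ vP 0 0 m) aZ k m 0 := by
      rw [hτ1]
      simp only [run_put, hkE]
      simp [ev, upd]
    have gP : τ1 vP 0 0 = m := by rw [e1]; simp [upd]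
    have gU : τ1 aU = σ aU := by rw [e1, upd_ne (by decide), upd_ne (by decide), fU]
    have gDin : τ1 aDin = σ aDin := by rw [e1, upd_ne (by decide), upd_ne (by decide), fDin]
    have gDep : τ1 aDep = σ aDep := by rw [e1, upd_ne (by decide), upd_ne (by decide), fDep]
    have gEc : τ1 aEc = σ aEc := by rw [e1, upd_ne (by decide), upd_ne (by decide), fEc]
    have gH : τ1 aH = σ aH := by rw [e1, upd_ne (by decide), upd_ne (by decide), fH]
    have gWo : τ1 aWo = σ aWo := by rw [e1, upd_ne (by decide), upd_ne (by decide), fWo]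
    have gZm : τ1 aZ k m = 0 := by rw [e1]; simp [upd]
    have gZ : ∀ k' p, ¬ (k' = k ∧ p = m) → τ1 aZ k' p = τ aZ k' p := by
      intro k' p hkp
      rw [e1, upd_ne' hkp, upd_ne (by decide)]
    -- reduction to the cell `(k, m)`
    have red : ∀ ρ : Store, (∀ k' p, ¬ (k' = k ∧ p = m) → ρ aZ k' p = τ1 aZ k' p) →
        (U m → IsZ n U din dep ec k (h m) (wo m) (ρ aZ k m)) →
        (∀ p, p < m + 1 → U p → IsZ n U din dep ec k (h p) (wo p) (ρ aZ k p)) ∧
          ∀ k' p, k' ≠ k → ρ aZ k' p = σ aZ k' p := by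
      intro ρ hρ1 hρ2
      refine ⟨fun p hp hUp => ?_, fun k' p hk' => ?_⟩
      · rcases Nat.lt_or_ge p m with hpm | hpm
        · have hne : ¬ (k = k ∧ p = m) := by omega
          rw [hρ1 k p hne, gZ k p hne]
          exact ih1 p hpm hUp
        · have : p = m := by omega
          subst this
          exact hρ2 hUp
      · have hne : ¬ (k' = k ∧ p = m) := fun hc => hk' hc.1
        rw [hρ1 k' p hne, gZ k' p hne]
        exact ih2 k' p hk'
    have hc : tst n A τ1 (Bx.and (Bx.eq (r1 aU (s vP)) .c1) (Bx.lt .c0 (r1 aWo (s vP)))) ↔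
        σ aU m 0 = 1 ∧ 0 < σ aWo m 0 := by
      simp only [tst, ev, gP, gU, gWo]
    by_cases hcond : σ aU m 0 = 1 ∧ 0 < σ aWo m 0
    · rw [run_ite_pos (hc.2 hcond)]
      have hUm : U m := by
        by_contra hnU
        have := (hU m hm).2 hnU
        rw [this] at hcond
        exact absurd hcond.1 (by decide)
      obtain ⟨hm1, hm2, hm3, hm4⟩ := hh m hm hUm
      have hwo : 0 < wo m := by rw [← hm2]; exact hcond.2
      refine loop_post (Q := fun ρ => (∀ p, p < m + 1 → U p → IsZ n U din dep ec k (h p) (wo p)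
          (ρ aZ k p)) ∧ ∀ k' p, k' ≠ k → ρ aZ k' p = σ aZ k' p)
        (fun l ρ => (∀ k' p, ¬ (k' = k ∧ p = m) → ρ aZ k' p = τ1 aZ k' p) ∧
          ((ρ aZ k m = 0 ∧ ∀ x, n ≤ x + l → x < n → ¬ QZ n U din dep ec k (h m) (wo m) x) ∨
           (n ≤ ρ aZ k m + l ∧ ρ aZ k m < n ∧ QZ n U din dep ec k (h m) (wo m) (ρ aZ k m) ∧
            ∀ x, n ≤ x + l → x < n → QZ n U din dep ec k (h m) (wo m) x → ρ aZ k m ≤ x)))
        ?_ ?_ ?_
      · exact ⟨fun _ _ _ => rfl, Or.inl ⟨gZm, fun x hx1 hx2 => by omega⟩⟩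
      · intro l hl ρ hfρ ihρ
        replace hl : l < n := hl
        obtain ⟨j1, j2⟩ := ihρ
        have rP : ρ vP 0 0 = m := by rw [hfρ vP (by simp [mods]), gP]
        have rU : ρ aU = σ aU := by rw [hfρ aU (by simp [mods]), gU]
        have rDin : ρ aDin = σ aDin := by rw [hfρ aDin (by simp [mods]), gDin]
        have rDep : ρ aDep = σ aDep := by rw [hfρ aDep (by simp [mods]), gDep]
        have rEc : ρ aEc = σ aEc := by rw [hfρ aEc (by simp [mods]), gEc]
        have rH : ρ aH = σ aH := by rw [hfρ aH (by simp [mods]), gH]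
        have rWo : ρ aWo = σ aWo := by rw [hfρ aWo (by simp [mods]), gWo]
        rw [run_seq]
        set ρ1 : Store := run n A (w0 vZ (Ex.sub (Ex.sub .n .c1) (s vI))) (upd ρ vI 0 0 l) with hρ1
        set z := n - 1 - l with hz
        have hzn : z < n := by omega
        have d1 : ρ1 = upd (upd ρ vI 0 0 l) vZ 0 0 z := by
          rw [hρ1]
          simp [ev, upd, hz]
        have sZv : ρ1 vZ 0 0 = z := by rw [d1]; simp [upd]
        have sP : ρ1 vP 0 0 = m := by rw [d1, upd_ne (by decide), upd_ne (by decide), rP]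
        have sU : ρ1 aU = σ aU := by rw [d1, upd_ne (by decide), upd_ne (by decide), rU]
        have sDin : ρ1 aDin = σ aDin := by rw [d1, upd_ne (by decide), upd_ne (by decide), rDin]
        have sDep : ρ1 aDep = σ aDep := by rw [d1, upd_ne (by decide), upd_ne (by decide), rDep]
        have sEc : ρ1 aEc = σ aEc := by rw [d1, upd_ne (by decide), upd_ne (by decide), rEc]
        have sH : ρ1 aH = σ aH := by rw [d1, upd_ne (by decide), upd_ne (by decide), rH]
        have sWo : ρ1 aWo = σ aWo := by rw [d1, upd_ne (by decide), upd_ne (by decide), rWo]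
        have sZ : ρ1 aZ = ρ aZ := by rw [d1, upd_ne (by decide), upd_ne (by decide)]
        have htst := tst_iff n A U din dep ec k kE hk hkE ρ1 m (h m) (wo m) z hzn hm3
          (fun i hi => by rw [sU]; exact hU i hi) (fun i j hi hj => by rw [sDin]; exact hdin i j hi hj)
          (fun i hi => by rw [sDep]; exact hdep i hi) (fun i hi => by rw [sEc]; exact hec i hi)
          hecn (by rw [sH]; exact hm1) (by rw [sWo]; exact hm2) sP sZv
        by_cases hQ : QZ n U din dep ec k (h m) (wo m) z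
        · rw [run_ite_pos (htst.2 hQ)]
          have d2 : run n A (w2 aZ kE (s vP) (s vZ)) ρ1 = upd ρ1 aZ k m z := by
            simp only [run_put, hkE]
            simp only [ev, sP, sZv]
          rw [d2]
          refine ⟨fun k' p hkp => ?_, Or.inr ?_⟩
          · rw [upd_ne' hkp, sZ]
            exact j1 k' p hkp
          · rw [upd_same]
            refine ⟨by omega, hzn, hQ, fun x hx1 hx2 _ => ?_⟩
            omega
        · rw [run_ite_neg (fun hc' => hQ (htst.1 hc')), run_skip, sZ]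
          refine ⟨j1, ?_⟩
          rcases j2 with ⟨b1, b2⟩ | ⟨b1, b2, b3, b4⟩
          · refine Or.inl ⟨b1, fun x hx1 hx2 => ?_⟩
            rcases Nat.lt_or_ge x (n - l) with hxl | hxl
            · have : x = z := by omega
              rw [this]; exact hQ
            · exact b2 x (by omega) hx2
          · refine Or.inr ⟨by omega, b2, b3, fun x hx1 hx2 hx3 => ?_⟩
            rcases Nat.lt_or_ge x (n - l) with hxl | hxl
            · exfalso
              have : x = z := by omega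
              rw [this] at hx3; exact hQ hx3
            · exact b4 x (by omega) hx2 hx3
      · rintro ρ - ⟨j1, j2⟩
        refine red ρ j1 fun _ => ?_
        rcases j2 with ⟨b1, b2⟩ | ⟨b1, b2, b3, b4⟩
        · refine Or.inl ⟨b1, Or.inr fun x hx => b2 x ?_ hx⟩
          show n ≤ x + n
          omega
        · refine Or.inr ⟨hwo, b2, b3, fun x hx hQx => b4 x ?_ hx hQx⟩
          show n ≤ x + n
          omega
    · rw [run_ite_neg (fun hc' => hcond (hc.1 hc')), run_skip]
      refine red τ1 (fun _ _ _ => rfl) fun hUm => ?_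
      rw [gZm]
      obtain ⟨hm1, hm2, hm3, hm4⟩ := hh m hm hUm
      have h1 := (hU m hm).1 hUm
      have h2 : wo m = 0 := by
        rw [← hm2]
        by_contra hne
        exact hcond ⟨h1, Nat.pos_of_ne_zero hne⟩
      exact Or.inl ⟨rfl, Or.inl h2⟩

end LZ

theorem p_LZ : T_LZ := by
  intro n A σ U din dep ec h wo k kE hk _ hU hU0 hdin hdep hec hecn hh
  refine LZ.main n A σ U din dep ec h wo k kE ?_ ?_ hU hU0 hdin hdep hec hecn hh
  · rcases hk with ⟨rfl, _⟩ | ⟨rfl, _⟩ <;> omega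
  · rcases hk with ⟨rfl, rfl⟩ | ⟨rfl, rfl⟩ <;> intro τ <;> rfl

end Pool.Agent.BDC
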