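import Mathlib

/-!
# BDC: a random access machine and a small loop language

Part 1: the machine (used in the statement of the result).
Part 2: the loop language (a tool).
-/

namespace Pool.Agent.BDC

/-! ## The machine -/

/-- Instructions of the random access machine.  A register is addressed directly, by a number
written in the program; memory cells are addressed indirectly, by the content of a register. -/
inductive Instr where
  /-- `reg a := k` -/
  | const (a k : ℕ)
  /-- `reg a := reg b` -/
  | move (a b : ℕ)
  /-- `reg a := reg b + reg c` -/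
  | add (a b c : ℕ)
  /-- `reg a := reg b - reg c` (`0` if negative) -/
  | sub (a b c : ℕ)
  /-- `reg a := reg b * reg c` -/
  | mul (a b c : ℕ)
  /-- `reg a := mem (reg b)` -/
  | load (a b : ℕ)
  /-- `mem (reg a) := reg b` -/
  | store (a b : ℕ)
  /-- go to line `l` -/
  | jump (l : ℕ)
  /-- go to line `l` if `reg a = 0`, to the next line otherwise -/
  | jz (a l : ℕ)
  /-- stop -/
  | halt

/-- A configuration: the program counter, the registers and the memory. -/
@[ext] structure Cfg where
  pc : ℕ
  reg : ℕ → ℕ
  mem : ℕ → ℕ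

/-- Execute one instruction. -/
def exec : Instr → Cfg → Cfg
  | .const a k, s => ⟨s.pc + 1, Function.update s.reg a k, s.mem⟩
  | .move a b, s => ⟨s.pc + 1, Function.update s.reg a (s.reg b), s.mem⟩
  | .add a b c, s => ⟨s.pc + 1, Function.update s.reg a (s.reg b + s.reg c), s.mem⟩
  | .sub a b c, s => ⟨s.pc + 1, Function.update s.reg a (s.reg b - s.reg c), s.mem⟩
  | .mul a b c, s => ⟨s.pc + 1, Function.update s.reg a (s.reg b * s.reg c), s.mem⟩
  | .load a b, s => ⟨s.pc + 1, Function.update s.reg a (s.mem (s.reg b)), s.mem⟩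
  | .store a b, s => ⟨s.pc + 1, s.reg, Function.update s.mem (s.reg a) (s.reg b)⟩
  | .jump l, s => ⟨l, s.reg, s.mem⟩
  | .jz a l, s => ⟨if s.reg a = 0 then l else s.pc + 1, s.reg, s.mem⟩
  | .halt, s => s

/-- One step of the machine: execute the instruction at the program counter (nothing happens
outside the program, and at `halt`). -/
def step (P : List Instr) (s : Cfg) : Cfg :=
  match P[s.pc]? with
  | none => s
  | some i => exec i s

/-- The machine has stopped: the program counter points to `halt` or outside the program. -/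
def Halted (P : List Instr) (s : Cfg) : Prop :=
  P[s.pc]? = none ∨ P[s.pc]? = some Instr.halt

/-- The configuration after `t` steps. -/
def runs (P : List Instr) (t : ℕ) (s : Cfg) : Cfg := (step P)^[t] s

/-- The initial configuration on the input `(n, A)`, where `A` is an `n × n` matrix: line `0`,
the number `n` in register `0`, zero in all other registers, the entry `A i j` in memory cell
`i * n + j` for `i, j < n`, zero in all other memory cells. -/
def initCfg (n : ℕ) (A : ℕ → ℕ → ℕ) : Cfg where
  pc := 0
  reg := fun a => if a = 0 then n else 0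
  mem := fun x => if x < n * n then A (x / n) (x % n) else 0

/-! ## The loop language -/

/-- The store of the loop language: two-dimensional arrays of natural numbers, numbered by the
first argument.  A scalar variable is the cell `(0,0)` of an array. -/
abbrev Store := ℕ → ℕ → ℕ → ℕ

/-- Numbers in the loop language are kept below this bound. -/
def cap (n : ℕ) : ℕ := 4 * (n + 2)

/-- Expressions. -/
inductive Ex where
  | c0 | c1 | c2
  /-- the size of the input -/
  | n
  /-- an entry of the input matrix -/
  | inp (i j : Ex)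
  /-- a cell of array `k` -/
  | rd (k : ℕ) (i j : Ex)
  | add (a b : Ex)
  | sub (a b : Ex)

/-- Conditions. -/
inductive Bx where
  | lt (a b : Ex)
  | eq (a b : Ex)
  | and (p q : Bx)
  | or (p q : Bx)
  | not (p : Bx)

/-- Commands. -/
inductive Cm where
  | skip
  /-- `array k (i, j) := e` -/
  | put (k : ℕ) (i j e : Ex)
  | seq (a b : Cm)
  | ite (p : Bx) (a b : Cm)
  /-- `for k := 0 to e - 1 do a`; the loop variable is the scalar `k`. -/
  | loop (k : ℕ) (e : Ex) (a : Cm)

/-- Value of an expression. -/
def ev (n : ℕ) (A : ℕ → ℕ → ℕ) (σ : Store) : Ex → ℕ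
  | .c0 => 0
  | .c1 => 1
  | .c2 => 2
  | .n => n
  | .inp i j => if ev n A σ i < n ∧ ev n A σ j < n then A (ev n A σ i) (ev n A σ j) else 0
  | .rd k i j => σ k (ev n A σ i) (ev n A σ j)
  | .add a b => min (ev n A σ a + ev n A σ b) (cap n)
  | .sub a b => ev n A σ a - ev n A σ b

/-- Truth of a condition. -/
def tst (n : ℕ) (A : ℕ → ℕ → ℕ) (σ : Store) : Bx → Prop
  | .lt a b => ev n A σ a < ev n A σ b
  | .eq a b => ev n A σ a = ev n A σ b
  | .and p q => tst n A σ p ∧ tst n A σ q
  | .or p q => tst n A σ p ∨ tst n A σ q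
  | .not p => ¬ tst n A σ p

instance tstDec (n : ℕ) (A : ℕ → ℕ → ℕ) (σ : Store) : (p : Bx) → Decidable (tst n A σ p)
  | .lt a b => inferInstanceAs (Decidable (ev n A σ a < ev n A σ b))
  | .eq a b => inferInstanceAs (Decidable (ev n A σ a = ev n A σ b))
  | .and p q =>
    haveI := tstDec n A σ p; haveI := tstDec n A σ q
    inferInstanceAs (Decidable (tst n A σ p ∧ tst n A σ q))
  | .or p q =>
    haveI := tstDec n A σ p; haveI := tstDec n A σ q
    inferInstanceAs (Decidable (tst n A σ p ∨ tst n A σ q))
  | .not p =>
    haveI := tstDec n A σ p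
    inferInstanceAs (Decidable (¬ tst n A σ p))

/-- Write `x` into the cell `(i, j)` of array `k`. -/
def upd (σ : Store) (k i j x : ℕ) : Store :=
  fun k' i' j' => if k' = k ∧ i' = i ∧ j' = j then x else σ k' i' j'

/-- Execution of a command. -/
def run (n : ℕ) (A : ℕ → ℕ → ℕ) : Cm → Store → Store
  | .skip, σ => σ
  | .put k i j e, σ => upd σ k (ev n A σ i) (ev n A σ j) (ev n A σ e)
  | .seq a b, σ => run n A b (run n A a σ)
  | .ite p a b, σ => if tst n A σ p then run n A a σ else run n A b σ
  | .loop k e a, σ => Nat.rec σ (fun i τ => run n A a (upd τ k 0 0 i)) (ev n A σ e)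

/-- The arrays a command can write to. -/
def mods : Cm → List ℕ
  | .skip => []
  | .put k _ _ _ => [k]
  | .seq a b => mods a ++ mods b
  | .ite _ a b => mods a ++ mods b
  | .loop k _ a => k :: mods a

/-- Loop nesting depth. -/
def ldepth : Cm → ℕ
  | .skip => 0
  | .put _ _ _ _ => 0
  | .seq a b => max (ldepth a) (ldepth b)
  | .ite _ a b => max (ldepth a) (ldepth b)
  | .loop _ _ a => ldepth a + 1

/-- The empty store. -/
def zst : Store := fun _ _ _ => 0

/-! ## Notation -/

namespace N


/-- scalar -/
abbrev s (k : ℕ) : Ex := Ex.rd k .c0 .c0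
/-- cell of a one-dimensional array -/
abbrev r1 (k : ℕ) (i : Ex) : Ex := Ex.rd k i .c0
/-- cell of a two-dimensional array -/
abbrev r2 (k : ℕ) (i j : Ex) : Ex := Ex.rd k i j
/-- `x := e` -/
abbrev w0 (k : ℕ) (e : Ex) : Cm := Cm.put k .c0 .c0 e
/-- `a[i] := e` -/
abbrev w1 (k : ℕ) (i e : Ex) : Cm := Cm.put k i .c0 e
/-- `a[i][j] := e` -/
abbrev w2 (k : ℕ) (i j e : Ex) : Cm := Cm.put k i j e
/-- `if p then a` -/
abbrev whn (p : Bx) (a : Cm) : Cm := Cm.ite p a .skip

end N

end Pool.Agent.BDC
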