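import Pool.Agent.BDC.Targets

/-!
# BDC: maximum cardinality search (M1)
-/

namespace Pool.Agent.BDC

namespace MCS

variable {V : Type}

/-- the walk `p 0, …, p n` -/
def wk (G : SimpleGraph V) (p : ℕ → V) :
    (n : ℕ) → (∀ j < n, G.Adj (p j) (p (j + 1))) → G.Walk (p 0) (p n)
  | 0, _ => SimpleGraph.Walk.nil
  | n + 1, h => (wk G p n (fun j hj => h j (by omega))).concat (h n (by omega))

lemma wk_length (G : SimpleGraph V) (p : ℕ → V) :
    ∀ (n : ℕ) (h : ∀ j < n, G.Adj (p j) (p (j + 1))), (wk G p n h).length = n := by
  intro n
  induction n with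
  | zero => intro h; rfl
  | succ n ih =>
    intro h
    rw [wk, SimpleGraph.Walk.length_concat, ih]

lemma wk_support (G : SimpleGraph V) (p : ℕ → V) :
    ∀ (n : ℕ) (h : ∀ j < n, G.Adj (p j) (p (j + 1))) (v : V),
      v ∈ (wk G p n h).support ↔ ∃ j ≤ n, v = p j := by
  intro n
  induction n with
  | zero =>
    intro h v
    rw [wk, SimpleGraph.Walk.mem_support_nil_iff]
    constructor
    · intro hv; exact ⟨0, le_rfl, hv⟩
    · rintro ⟨j, hj, hv⟩
      have : j = 0 := by omega
      rw [hv, this]
  | succ n ih =>
    intro h v
    rw [wk, SimpleGraph.Walk.support_concat, List.mem_append, ih,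
      List.mem_singleton]
    constructor
    · rintro (⟨j, hj, hv⟩ | hv)
      · exact ⟨j, by omega, hv⟩
      · exact ⟨n + 1, le_rfl, hv⟩
    · rintro ⟨j, hj, hv⟩
      by_cases h1 : j ≤ n
      · exact Or.inl ⟨j, h1, hv⟩
      · have : j = n + 1 := by omega
        exact Or.inr (by rw [hv, this])

lemma wk_edges (G : SimpleGraph V) (p : ℕ → V) :
    ∀ (n : ℕ) (h : ∀ j < n, G.Adj (p j) (p (j + 1))) (e : Sym2 V),
      e ∈ (wk G p n h).edges ↔ ∃ j < n, e = s(p j, p (j + 1)) := by
  intro n
  induction n with
  | zero =>
    intro h e
    rw [wk, SimpleGraph.Walk.edges_nil]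
    constructor
    · intro he; simp at he
    · rintro ⟨j, hj, _⟩; omega
  | succ n ih =>
    intro h e
    rw [wk, SimpleGraph.Walk.edges_concat, List.concat_eq_append, List.mem_append, ih,
      List.mem_singleton]
    constructor
    · rintro (⟨j, hj, hv⟩ | hv)
      · exact ⟨j, by omega, hv⟩
      · exact ⟨n, by omega, hv⟩
    · rintro ⟨j, hj, hv⟩
      by_cases h1 : j < n
      · exact Or.inl ⟨j, h1, hv⟩
      · have : j = n := by omega
        exact Or.inr (by rw [hv, this])

lemma wk_isPath (G : SimpleGraph V) (p : ℕ → V) :
    ∀ (n : ℕ) (h : ∀ j < n, G.Adj (p j) (p (j + 1))),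
      (∀ i ≤ n, ∀ j ≤ n, p i = p j → i = j) → (wk G p n h).IsPath := by
  intro n
  induction n with
  | zero => intro h _; exact SimpleGraph.Walk.IsPath.nil
  | succ n ih =>
    intro h hinj
    rw [wk, SimpleGraph.Walk.concat_isPath_iff]
    refine ⟨ih _ (fun i hi j hj => hinj i (by omega) j (by omega)), ?_⟩
    rw [wk_support]
    rintro ⟨j, hj, hv⟩
    have := hinj (n + 1) le_rfl j (by omega) hv
    omega

/-- no chordless cycle of length at least four -/
lemma no_cycle {G : SimpleGraph V} (hC : Chordal G) (p : ℕ → V) (n : ℕ) (hn : 3 ≤ n)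
    (hadj : ∀ j < n, G.Adj (p j) (p (j + 1))) (hcl : G.Adj (p n) (p 0))
    (hinj : ∀ i ≤ n, ∀ j ≤ n, p i = p j → i = j)
    (hno : ∀ i j, i < j → j ≤ n → G.Adj (p i) (p j) → j = i + 1 ∨ (i = 0 ∧ j = n)) : False := by
  have hcyc : (SimpleGraph.Walk.cons hcl (wk G p n hadj)).IsCycle := by
    rw [SimpleGraph.Walk.cons_isCycle_iff]
    refine ⟨wk_isPath G p n hadj hinj, ?_⟩
    rw [wk_edges]
    rintro ⟨j, hj, he⟩
    rw [Sym2.eq_iff] at he
    rcases he with ⟨h1, h2⟩ | ⟨h1, h2⟩
    · have := hinj n le_rfl j (by omega) h1
      omega
    · have := hinj n le_rfl (j + 1) (by omega) h1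
      have := hinj 0 (by omega) j (by omega) h2
      omega
  obtain ⟨x, hx, y, hy, hxy, hne⟩ := hC _ _ hcyc (by
    rw [SimpleGraph.Walk.length_cons, wk_length]; omega)
  rw [SimpleGraph.Walk.support_cons, List.mem_cons, wk_support] at hx hy
  have hx' : ∃ i ≤ n, x = p i := by
    rcases hx with h | h
    · exact ⟨n, le_rfl, h⟩
    · exact h
  have hy' : ∃ i ≤ n, y = p i := by
    rcases hy with h | h
    · exact ⟨n, le_rfl, h⟩
    · exact h
  obtain ⟨i, hi, rfl⟩ := hx'
  obtain ⟨j, hj, rfl⟩ := hy'
  apply hne
  rw [SimpleGraph.Walk.edges_cons, List.mem_cons, wk_edges]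
  have key : ∀ i j, i < j → j ≤ n → G.Adj (p i) (p j) →
      s(p i, p j) = s(p n, p 0) ∨ ∃ l < n, s(p i, p j) = s(p l, p (l + 1)) := by
    intro i j hij hj h
    rcases hno i j hij hj h with h1 | ⟨h1, h2⟩
    · exact Or.inr ⟨i, by omega, by rw [h1]⟩
    · exact Or.inl (by rw [h1, h2]; exact Sym2.eq_swap)
  rcases lt_trichotomy i j with h | h | h
  · exact key i j h hj hxy
  · rw [h] at hxy; exact absurd hxy (G.loopless.irrefl _)
  · have := key j i h hi hxy.symm
    rwa [Sym2.eq_swap (a := p j)] at this

/-- an induced path whose interior vertices are later than its ends -/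
structure Bad (G : SimpleGraph V) (num : V → ℕ) (p : ℕ → V) (k : ℕ) : Prop where
  two : 2 ≤ k
  adj : ∀ j < k, G.Adj (p j) (p (j + 1))
  inj : ∀ i ≤ k, ∀ j ≤ k, p i = p j → i = j
  ind : ∀ i j, i < j → j ≤ k → G.Adj (p i) (p j) → j = i + 1
  lx : ∀ i, 0 < i → i < k → num (p 0) < num (p i)
  ly : ∀ i, 0 < i → i < k → num (p k) < num (p i)

lemma Bad.rev {G : SimpleGraph V} {num : V → ℕ} {p : ℕ → V} {k : ℕ} (h : Bad G num p k) :
    Bad G num (fun i => p (k - i)) k where
  two := h.two
  adj := by
    intro j hj
    have h1 := h.adj (k - (j + 1)) (by omega)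
    have h2 : k - (j + 1) + 1 = k - j := by omega
    rw [h2] at h1
    exact h1.symm
  inj := by
    intro i hi j hj hij
    have := h.inj (k - i) (by omega) (k - j) (by omega) hij
    omega
  ind := by
    intro i j hij hj hadj
    have := h.ind (k - j) (k - i) (by omega) (by omega) hadj.symm
    omega
  lx := by
    intro i h1 h2
    have := h.ly (k - i) (by omega) (by omega)
    simpa using this
  ly := by
    intro i h1 h2
    have := h.lx (k - i) (by omega) (by omega)
    simpa using this

lemma main [Fintype V] {G : SimpleGraph V} {num : V → ℕ} {c : V} (hC : Chordal G)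
    (hinj : Function.Injective num) (hroot : ∀ w, w ≠ c → num c < num w)
    (hmax : ∀ w x, w ≠ c → num w ≤ num x → cnt G num x (num w) ≤ cnt G num w (num w)) :
    ∀ (M : ℕ) (p : ℕ → V) (k : ℕ), Bad G num p k → num (p 0) < M → num (p k) < M → False := by
  classical
  intro M
  induction M with
  | zero => intro p k _ h; omega
  | succ M ih =>
    have main1 : ∀ (p : ℕ → V) (k : ℕ), Bad G num p k → num (p 0) < num (p k) →
        num (p k) < M + 1 → False := by
      intro p k hb hlt hM
      have hk := hb.two
      have hyc : p k ≠ c := by
        intro h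
        have h1 : p 0 ≠ c := by
          intro h2
          have := hb.inj 0 (by omega) k le_rfl (by rw [h, h2])
          omega
        have := hroot _ h1
        rw [h] at hlt
        omega
      have hp1 := hb.ly 1 (by omega) (by omega)
      have hcnt := hmax (p k) (p 1) hyc (by omega)
      have hxy : ¬ G.Adj (p 0) (p k) := by
        intro h
        have := hb.ind 0 k (by omega) le_rfl h
        omega
      obtain ⟨z, hz1, hz2, hz3⟩ : ∃ z, G.Adj z (p k) ∧ num z < num (p k) ∧ ¬ G.Adj z (p 1) := by
        by_contra hall
        push Not at hall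
        have hss : (Finset.univ.filter fun y => G.Adj y (p k) ∧ num y < num (p k)) ⊂
            (Finset.univ.filter fun y => G.Adj y (p 1) ∧ num y < num (p k)) := by
          rw [Finset.ssubset_iff_of_subset]
          · refine ⟨p 0, ?_, ?_⟩
            · simp only [Finset.mem_filter, Finset.mem_univ, true_and]
              exact ⟨hb.adj 0 (by omega), hlt⟩
            · simp only [Finset.mem_filter, Finset.mem_univ, true_and]
              exact fun h => hxy h.1
          · intro y hy
            simp only [Finset.mem_filter, Finset.mem_univ, true_and] at hy ⊢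
            exact ⟨hall y hy.1 hy.2, hy.2⟩
        have := Finset.card_lt_card hss
        unfold cnt at hcnt
        have e1 : (Finset.univ.filter fun y => G.Adj y (p k) ∧ num y < num (p k)).card <
          (Finset.univ.filter fun y => G.Adj y (p 1) ∧ num y < num (p k)).card := this
        convert absurd hcnt (not_le.2 e1)
      -- the least index adjacent to z
      have hex : ∃ i, 1 ≤ i ∧ G.Adj (p i) z := ⟨k, by omega, hz1.symm⟩
      have hfind := Nat.find_spec hex
      have hfmin := fun i => Nat.find_min hex (m := i)
      have hik : Nat.find hex ≤ k := Nat.find_min' hex ⟨by omega, hz1.symm⟩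
      set i := Nat.find hex with hi
      have hi2 : 2 ≤ i := by
        by_contra hcon
        have : i = 1 := by have := hfind.1; omega
        rw [this] at hfind
        exact hz3 hfind.2.symm
      have hnadj : ∀ j, 1 ≤ j → j < i → ¬ G.Adj (p j) z := by
        intro j h1 h2 h3
        exact hfmin j h2 ⟨h1, h3⟩
      have hzp : ∀ j ≤ k, p j ≠ z := by
        intro j hj h
        by_cases h0 : j = 0
        · rw [h0] at h
          rw [← h] at hz1
          exact hxy hz1
        · by_cases h1 : j = k
          · rw [h1] at h; rw [h] at hz2; omega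
          · have := hb.ly j (by omega) (by omega)
            rw [h] at this
            omega
      let q : ℕ → V := fun j => if j ≤ i then p j else z
      have hq1 : ∀ j ≤ i, q j = p j := fun j hj => if_pos hj
      have hq2 : q (i + 1) = z := if_neg (by omega)
      have hqadj : ∀ j < i + 1, G.Adj (q j) (q (j + 1)) := by
        intro j hj
        by_cases h1 : j < i
        · rw [hq1 j (by omega), hq1 (j + 1) (by omega)]
          exact hb.adj j (by omega)
        · have : j = i := by omega
          rw [this, hq2, hq1 i le_rfl]
          exact hfind.2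
      have hqinj : ∀ a ≤ i + 1, ∀ b ≤ i + 1, q a = q b → a = b := by
        intro a ha b hb' hab
        by_cases h1 : a ≤ i
        · by_cases h2 : b ≤ i
          · rw [hq1 a h1, hq1 b h2] at hab
            exact hb.inj a (by omega) b (by omega) hab
          · have : b = i + 1 := by omega
            rw [this, hq2, hq1 a h1] at hab
            exact absurd hab (hzp a (by omega))
        · have h3 : a = i + 1 := by omega
          by_cases h2 : b ≤ i
          · rw [h3, hq2, hq1 b h2] at hab
            exact absurd hab.symm (hzp b (by omega))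
          · omega
      have hqind : ∀ a b, a < b → b ≤ i + 1 → G.Adj (q a) (q b) →
          b = a + 1 ∨ (a = 0 ∧ b = i + 1) := by
        intro a b hab hb' hadj
        by_cases h2 : b ≤ i
        · rw [hq1 a (by omega), hq1 b h2] at hadj
          exact Or.inl (hb.ind a b hab (by omega) hadj)
        · have h3 : b = i + 1 := by omega
          rw [h3, hq2, hq1 a (by omega)] at hadj
          by_cases h0 : a = 0
          · exact Or.inr ⟨h0, h3⟩
          · left
            by_contra hcon
            exact hnadj a (by omega) (by omega) hadj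
      by_cases hxz : G.Adj (p 0) z
      · -- a chordless cycle
        refine no_cycle hC q (i + 1) (by omega) hqadj ?_ hqinj hqind
        rw [hq2, hq1 0 (by omega)]
        exact hxz.symm
      · -- a smaller bad path
        have hbq : Bad G num q (i + 1) :=
          { two := by omega
            adj := hqadj
            inj := hqinj
            ind := by
              intro a b hab hb' hadj
              rcases hqind a b hab hb' hadj with h | ⟨h1, h2⟩
              · exact h
              · exfalso
                rw [h1, h2, hq2, hq1 0 (by omega)] at hadj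
                exact hxz hadj
            lx := by
              intro j h1 h2
              rw [hq1 0 (by omega), hq1 j (by omega)]
              by_cases h3 : j = k
              · rw [h3]; exact hlt
              · exact hb.lx j h1 (by omega)
            ly := by
              intro j h1 h2
              rw [hq2, hq1 j (by omega)]
              by_cases h3 : j = k
              · rw [h3]; exact hz2
              · exact lt_trans hz2 (hb.ly j h1 (by omega)) }
        refine ih q (i + 1) hbq ?_ ?_
        · rw [hq1 0 (by omega)]; omega
        · rw [hq2]; omega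
    intro p k hb h1 h2
    rcases lt_trichotomy (num (p 0)) (num (p k)) with h | h | h
    · exact main1 p k hb h h2
    · have := hb.inj 0 (by omega) k le_rfl (hinj h)
      have := hb.two
      omega
    · refine main1 _ k hb.rev ?_ ?_
      · simpa using h
      · simpa using h1

end MCS

open MCS

theorem p_MCS : T_MCS := by
  classical
  intro V _ G num c hG hC hinj hroot hmax
  have hM := main hC hinj hroot hmax
  refine ⟨⟨fun x y h => h.symm, hinj, ?_⟩, hroot, ?_⟩
  · intro w y z hyw hzw h1 h2 hyz
    by_contra hne
    let p : ℕ → V := fun i => if i = 0 then y else if i = 1 then w else z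
    have p0 : p 0 = y := rfl
    have p1 : p 1 = w := rfl
    have p2 : p 2 = z := rfl
    refine hM (max (num y) (num z) + 1) p 2 ?_ (by rw [p0]; omega) (by rw [p2]; omega)
    refine ⟨le_rfl, ?_, ?_, ?_, ?_, ?_⟩
    · intro j hj
      interval_cases j
      · rw [p0, p1]; exact hyw
      · rw [p1, p2]; exact hzw.symm
    · have hyw' : y ≠ w := hyw.ne
      have hzw' : z ≠ w := hzw.ne
      intro i hi j hj hij
      interval_cases i <;> interval_cases j <;> first | rfl | skip
      · exact absurd hij hyw'
      · exact absurd hij hyz
      · exact absurd hij.symm hyw'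
      · exact absurd hij.symm hzw'
      · exact absurd hij.symm hyz
      · exact absurd hij hzw'
    · intro i j hij hj hadj
      by_contra hcon
      have e1 : i = 0 := by omega
      have e2 : j = 2 := by omega
      rw [e1, e2, p0, p2] at hadj
      exact hne hadj
    · intro i h3 h4
      have : i = 1 := by omega
      rw [this, p0, p1]; exact h1
    · intro i h3 h4
      have : i = 1 := by omega
      rw [this, p2, p1]; exact h2
  · intro w hwc
    by_contra hno
    push Not at hno
    have hc0 : cnt G num w (num w) = 0 := by
      unfold cnt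
      rw [Finset.card_eq_zero, Finset.filter_eq_empty_iff]
      intro y _ hy
      exact hno y hy
    have hc : ∀ x, num w ≤ num x → ∀ y, G.Adj y x → ¬ num y < num w := by
      intro x hx y hyx hlt
      have h1 := hmax w x hwc hx
      rw [hc0] at h1
      have h2 : cnt G num x (num w) = 0 := by omega
      unfold cnt at h2
      rw [Finset.card_eq_zero, Finset.filter_eq_empty_iff] at h2
      exact h2 (Finset.mem_univ y) ⟨hyx, hlt⟩
    have hwalk : ∀ (a b : V), G.Walk a b → num a < num w → num b < num w := by
      intro a b q
      induction q with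
      | nil => exact fun h => h
      | cons h _ ih =>
        intro hlt
        apply ih
        by_contra hcon
        exact hc _ (not_lt.1 hcon) _ h hlt
    obtain ⟨q⟩ := hG.preconnected c w
    have := hwalk c w q (hroot w hwc)
    omega

end Pool.Agent.BDC
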