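import Pool.Agent.BDC.Targets

/-!
BDC-P0: the distance lemma (blueprint M3).
-/

namespace Pool.Agent.BDC

namespace P0_

variable {V : Type} {G : SimpleGraph V} {num : V → ℕ} {c x : V}

/-- `z` is reached from `x` by a geodesic of length `i` along which `num` decreases -/
inductive Desc (G : SimpleGraph V) (num : V → ℕ) (x : V) : ℕ → V → Prop
  | zero : Desc G num x 0 x
  | succ {i : ℕ} {w w' : V} : Desc G num x i w → Er G.Adj num w' w → G.dist x w' = i + 1 →
      Desc G num x (i + 1) w'

/-- first alternative (index shifted by one) -/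
def SS (G : SimpleGraph V) (num : V → ℕ) (c x : V) (i : ℕ) (z : V) : Prop :=
  ∃ f, G.dist c f + i = G.dist c x ∧ G.dist x f ≤ i ∧ Er G.Adj num z f

/-- second alternative (index shifted by one) -/
def TT (G : SimpleGraph V) (num : V → ℕ) (c x : V) (i : ℕ) (z : V) : Prop :=
  ∃ f, G.dist c f + i = G.dist c x ∧ G.dist x f ≤ i ∧ Er G.Adj num f z

lemma dist_adj_right (hG : G.Connected) {y z : V} (h : G.Adj y z) (x : V) :
    G.dist x z ≤ G.dist x y + 1 := by
  have := dist_adj_le hG h.symm x
  rwa [SimpleGraph.dist_comm, SimpleGraph.dist_comm (u := y)] at this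

/-- two earlier neighbours of the same vertex have distance at most one -/
lemma two_er (hG : G.Connected) (h : RPO G num c) {f g z : V} (hf : Er G.Adj num f z)
    (hg : Er G.Adj num g z) (x : V) : G.dist x g ≤ G.dist x f + 1 := by
  by_cases hfg : f = g
  · rw [hfg]; omega
  · exact dist_adj_right hG (h.peo.clq z f g hf.1 hg.1 hf.2 hg.2 hfg) x

lemma desc_dist {i : ℕ} {z : V} (hd : Desc G num x i z) : G.dist x z = i := by
  cases hd with
  | zero => simp
  | succ _ _ h => exact h

lemma desc_ST (hG : G.Connected) (h : RPO G num c) : ∀ (i : ℕ) {z : V},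
    Desc G num x (i + 1) z → SS G num c x i z ∨ TT G num c x i z := by
  intro i
  induction i with
  | zero =>
    intro z hd
    cases hd with
    | @succ _ w _ hd' he hdist =>
      cases hd' with
      | zero => exact Or.inl ⟨x, by omega, by simp, he⟩
  | succ k ih =>
    intro z hd
    cases hd with
    | @succ _ w _ hd' he hdist =>
      rcases ih hd' with ⟨f, hf1, hf2, hf3⟩ | ⟨f, hf1, hf2, hf3⟩
      · obtain ⟨f1, hf1'⟩ := exists_isFst ⟨w, hf3⟩
        have e1 := h.dist_fst hG hf1'
        have e2 := dist_adj_right hG hf1'.1.1.symm x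
        have e3 : G.dist c f1 + (k + 1) = G.dist c x := by omega
        have e4 : G.dist x f1 ≤ k + 1 := by omega
        by_cases hw : f1 = w
        · left
          refine ⟨f1, e3, e4, ?_⟩
          rw [hw]; exact he
        · have hlt : num f1 < num w :=
            lt_of_le_of_ne (hf1'.2 w hf3) (fun e => hw (h.peo.inj e))
          have hadj : G.Adj f1 w := h.peo.clq f f1 w hf1'.1.1 hf3.1 hf1'.1.2 hf3.2 hw
          have hne : z ≠ f1 := by
            rintro rfl
            omega
          have hadj2 : G.Adj z f1 := h.peo.clq w z f1 he.1 hadj he.2 hlt hne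
          have hnum : num z ≠ num f1 := fun e => hne (h.peo.inj e)
          rcases lt_or_gt_of_ne hnum with h1 | h1
          · exact Or.inl ⟨f1, e3, e4, hadj2, h1⟩
          · exact Or.inr ⟨f1, e3, e4, hadj2.symm, h1⟩
      · exfalso
        have := two_er hG h hf3 he x
        omega

/-- going back from `z` to `x` -/
lemma desc_of_prev (hG : G.Connected) (h : RPO G num c) : ∀ (i : ℕ) {z w : V},
    G.dist x z = i + 1 → G.dist x w = i → G.Adj w z → num z < num w →
    Desc G num x (i + 1) z := by
  intro i
  induction i with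
  | zero =>
    intro z w hz hw hadj hlt
    have hxw : x = w := by
      by_contra hne
      have := dist_pos_of_ne hG hne
      omega
    subst hxw
    exact Desc.succ Desc.zero ⟨hadj.symm, hlt⟩ hz
  | succ i ih =>
    intro z w hz hw hadj hlt
    have hne : w ≠ x := by
      rintro rfl
      simp at hw
    obtain ⟨w', h1, h2⟩ := dist_step hG hne
    have h3 : G.dist x w' = i := by
      rw [SimpleGraph.dist_comm]
      rw [SimpleGraph.dist_comm] at hw
      omega
    have hnum : num w ≠ num w' := fun e => h1.ne (h.peo.inj e)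
    have hlt2 : num w < num w' := by
      rcases lt_or_gt_of_ne hnum with h4 | h4
      · exact h4
      · exfalso
        have := two_er hG h (⟨h1.symm, h4⟩ : Er G.Adj num w' w) ⟨hadj.symm, hlt⟩ x
        omega
    exact Desc.succ (ih hw h3 h1.symm hlt2) ⟨hadj.symm, hlt⟩ hz

lemma SS_le (hG : G.Connected) (h : RPO G num c) {i : ℕ} {z : V} (hs : SS G num c x i z) :
    G.dist c z + (i + 1) ≤ G.dist c x + 1 := by
  obtain ⟨f, hf1, -, hf3⟩ := hs
  have := h.mono hG _ rfl hf3
  omega

/-- the main case: `z` is interior and its predecessor towards `x` is later -/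
lemma main_case (hG : G.Connected) (h : RPO G num c) {y z w w₂ : V} {i j : ℕ}
    (hx : G.dist x z = i + 1) (hy : G.dist y z = j + 1) (hxy : G.dist x y = i + 1 + (j + 1))
    (hw : G.dist x w = i) (hwz : G.Adj w z) (hlt : num z < num w)
    (hw₂ : G.dist y w₂ = j) (hw₂z : G.Adj w₂ z) :
    G.dist c z + (i + 1) ≤ G.dist c x + 1 ∨ G.dist c z + (j + 1) ≤ G.dist c y + 1 := by
  have hd := desc_of_prev hG h i hx hw hwz hlt
  have hxw₂ : i + 2 ≤ G.dist x w₂ := by
    have h1 : G.dist x y ≤ G.dist x w₂ + G.dist w₂ y := hG.dist_triangle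
    rw [SimpleGraph.dist_comm (u := w₂)] at h1
    omega
  have hnum : num z ≠ num w₂ := fun e => hw₂z.ne (h.peo.inj e).symm
  rcases desc_ST hG h i hd with hS | hT
  · exact Or.inl (SS_le hG h hS)
  · obtain ⟨f, hf1, hf2, hf3⟩ := hT
    rcases lt_or_gt_of_ne hnum with h4 | h4
    · have hd2 := desc_of_prev hG h j hy hw₂ hw₂z h4
      rcases desc_ST hG h j hd2 with hS | hT
      · exact Or.inr (SS_le hG h hS)
      · exfalso
        obtain ⟨g, hg1, hg2, hg3⟩ := hT
        have h5 := two_er hG h hf3 hg3 x
        have h6 : G.dist x y ≤ G.dist x g + G.dist g y := hG.dist_triangle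
        rw [SimpleGraph.dist_comm (u := g)] at h6
        omega
    · exfalso
      have := two_er hG h hf3 (⟨hw₂z, h4⟩ : Er G.Adj num w₂ z) x
      omega

end P0_

open P0_ in
theorem p_P0 : T_P0 := by
  intro V _ G hG hR x y c z hz
  obtain ⟨num, h⟩ := hR c
  by_cases hzx : z = x
  · subst hzx; left; simp
  by_cases hzy : z = y
  · subst hzy; right; simp
  obtain ⟨w, hw1, hw2⟩ := dist_step hG hzx
  obtain ⟨w₂, hw₂1, hw₂2⟩ := dist_step hG hzy
  have e1 : G.dist x w + 1 = G.dist x z := by
    rw [SimpleGraph.dist_comm, SimpleGraph.dist_comm (u := x)]; exact hw2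
  have e2 : G.dist y w₂ + 1 = G.dist y z := by
    rw [SimpleGraph.dist_comm, SimpleGraph.dist_comm (u := y)]; exact hw₂2
  have e3 : G.dist z y = G.dist y z := SimpleGraph.dist_comm
  have hnum : num z ≠ num w := fun e => hw1.ne (h.peo.inj e)
  have hnum₂ : num z ≠ num w₂ := fun e => hw₂1.ne (h.peo.inj e)
  rcases lt_or_gt_of_ne hnum with h4 | h4
  · have := main_case hG h (x := x) (y := y) (z := z) (w := w) (w₂ := w₂) (i := G.dist x w)
      (j := G.dist y w₂) e1.symm e2.symm (by omega) rfl hw1.symm h4 rfl hw₂1.symm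
    rcases this with h5 | h5
    · left; omega
    · right; omega
  · -- the predecessor is earlier, so the successor is later
    have h6 : num z < num w₂ := by
      rcases lt_or_gt_of_ne hnum₂ with h5 | h5
      · exact h5
      · exfalso
        have h7 := two_er hG h (⟨hw1.symm, h4⟩ : Er G.Adj num w z) ⟨hw₂1.symm, h5⟩ x
        have h8 : G.dist x y ≤ G.dist x w₂ + G.dist w₂ y := hG.dist_triangle
        rw [SimpleGraph.dist_comm (u := w₂)] at h8
        omega
    have e4 : G.dist y x = G.dist x y := SimpleGraph.dist_comm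
    have := main_case hG h (x := y) (y := x) (z := z) (w := w₂) (w₂ := w) (i := G.dist y w₂)
      (j := G.dist x w) e2.symm e1.symm (by omega) rfl hw₂1.symm h6 rfl hw1.symm
    rcases this with h5 | h5
    · right; omega
    · left; omega

end Pool.Agent.BDC
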