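import Pool.Agent.BDC.Targets

/-!
BDC-P1: a good centre for three balls (blueprint M5).
-/

namespace Pool.Agent.BDC

namespace P1_

variable {V : Type} {G : SimpleGraph V}

/-- move `m` towards `c` -/
lemma move (hG : G.Connected) (m c : V) (t : ℕ) :
    ∃ m', G.dist m' m ≤ t ∧ G.dist m' c = G.dist m c - t := by
  obtain ⟨z, h1, h2⟩ := dist_mid hG m c (min t (G.dist m c)) (min_le_right _ _)
  refine ⟨z, ?_, ?_⟩
  · rw [SimpleGraph.dist_comm]; omega
  · omega

lemma finish (hG : G.Connected) {m c p q : V} {t A B k : ℕ} (h1 : G.dist m p + t ≤ A)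
    (h2 : G.dist m q + t ≤ B) (h3 : G.dist m c ≤ t + k) :
    ∃ m', G.dist m' p ≤ A ∧ G.dist m' q ≤ B ∧ G.dist m' c ≤ k := by
  obtain ⟨m', h4, h5⟩ := move hG m c t
  have h6 : G.dist m' p ≤ G.dist m' m + G.dist m p := hG.dist_triangle
  have h7 : G.dist m' q ≤ G.dist m' m + G.dist m q := hG.dist_triangle
  exact ⟨m', by omega, by omega, by omega⟩

end P1_

open P1_ in
theorem p_P1 (h0 : T_P0) (h1 : T_CL) : T_P1 := by
  intro V _ G hG hR c cm cp r rm rp hr hrm hrp hcm hcp hD
  have t1 : G.dist c cm ≤ G.dist c cp + G.dist cp cm := hG.dist_triangle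
  have t2 : G.dist c cp ≤ G.dist c cm + G.dist cm cp := hG.dist_triangle
  rw [SimpleGraph.dist_comm (u := cp)] at t1
  -- the basic step
  have step : ∀ i t : ℕ, i ≤ G.dist cm cp → i + t ≤ r + rp →
      (G.dist cm cp - i) + t ≤ r + rm → r + rm + 2 ≤ t + (rm + rp) + i →
      r + rp + 2 ≤ t + (rm + rp) + (G.dist cm cp - i) →
      ∃ m, G.dist m cm ≤ r + rp ∧ G.dist m cp ≤ r + rm ∧ G.dist m c ≤ rm + rp := by
    intro i t hi h2 h3 h4 h5
    obtain ⟨z, hz1, hz2⟩ := dist_mid hG cm cp i hi
    have e1 : G.dist z cm = i := by rw [SimpleGraph.dist_comm]; exact hz1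
    have e2 : G.dist z c = G.dist c z := SimpleGraph.dist_comm
    refine finish hG (m := z) (t := t) (by omega) (by omega) ?_
    rcases h0 V G hG hR cm cp c z (by omega) with h6 | h6 <;> omega
  obtain ⟨s, hs⟩ : ∃ s, G.dist cm cp + s = rm + 2 * r + rp := ⟨_, Nat.add_sub_of_le hD⟩
  rcases Nat.even_or_odd' s with ⟨t, ht | ht⟩
  · exact step (r + rp - t) t (by omega) (by omega) (by omega) (by omega) (by omega)
  · by_cases h2 : 2 ≤ rm
    · exact step (r + rp - t) t (by omega) (by omega) (by omega) (by omega) (by omega)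
    · by_cases h3 : 2 ≤ rp
      · exact step (r + rp - t - 1) t (by omega) (by omega) (by omega) (by omega) (by omega)
      · have e1 : rm = 1 := by omega
        have e2 : rp = 1 := by omega
        subst e1 e2
        -- two consecutive vertices on the geodesic
        obtain ⟨m₂, ha, hb⟩ := dist_mid hG cm cp (r - t) (by omega)
        have hne : m₂ ≠ cp := by
          rintro rfl
          simp at hb
          omega
        obtain ⟨m₁, hadj, hc⟩ := dist_step hG hne
        have hm₁ : G.dist cm m₁ = r - t + 1 := by
          have h4 : G.dist cm cp ≤ G.dist cm m₁ + G.dist m₁ cp := hG.dist_triangle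
          have h5 : G.dist cm m₁ ≤ G.dist cm m₂ + G.dist m₂ m₁ := hG.dist_triangle
          have h6 : G.dist m₂ m₁ = 1 := SimpleGraph.dist_eq_one_iff_adj.2 hadj
          omega
        have c1 : G.dist m₂ cm = r - t := by rw [SimpleGraph.dist_comm]; exact ha
        have c2 : G.dist m₁ cm = r - t + 1 := by rw [SimpleGraph.dist_comm]; exact hm₁
        have c3 : G.dist m₂ c = G.dist c m₂ := SimpleGraph.dist_comm
        have c4 : G.dist m₁ c = G.dist c m₁ := SimpleGraph.dist_comm
        have p2 := h0 V G hG hR cm cp c m₂ (by omega)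
        have p1 := h0 V G hG hR cm cp c m₁ (by omega)
        by_cases h4 : G.dist c m₂ ≤ t + 2
        · exact finish hG (m := m₂) (t := t) (by omega) (by omega) (by omega)
        · by_cases h5 : G.dist c m₁ ≤ t + 2
          · exact finish hG (m := m₁) (t := t) (by omega) (by omega) (by omega)
          · obtain ⟨y, hy1, hy2⟩ := h1 V G hG hR c (t + 2) {m₁, m₂} ⟨m₁, by simp⟩ (by
              intro x hx y hy hxy
              simp only [Set.mem_insert_iff, Set.mem_singleton_iff] at hx hy
              rcases hx with rfl | rfl <;> rcases hy with rfl | rfl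
              · exact absurd rfl hxy
              · exact hadj.symm
              · exact hadj
              · exact absurd rfl hxy) (by
              intro x hx
              simp only [Set.mem_insert_iff, Set.mem_singleton_iff] at hx
              rcases hx with rfl | rfl <;> omega)
            have a1 := dist_adj_le hG (hy2 m₂ (by simp)) cm
            have a2 := dist_adj_le hG (hy2 m₁ (by simp)) cp
            have a3 : G.dist y c = G.dist c y := SimpleGraph.dist_comm
            exact finish hG (m := y) (t := t) (by omega) (by omega) (by omega)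

end Pool.Agent.BDC
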