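import Pool.Agent.BDC.Targets

/-!
# BDC: middle balls are wide
-/

namespace Pool.Agent.BDC

namespace P1C

/-- two disjoint balls have centres far apart -/
lemma far_of_disj {V : Type} [Fintype V] {G : SimpleGraph V} (hG : G.Connected)
    {b b' : V × ℕ} (hd : ∀ w, InB G b w → InB G b' w → False) :
    b.2 + b'.2 + 1 ≤ G.dist b.1 b'.1 := by
  by_contra hc
  have hle : G.dist b.1 b'.1 ≤ b.2 + b'.2 := by omega
  obtain ⟨z, h1, h2⟩ := dist_mid hG b.1 b'.1 (min b.2 (G.dist b.1 b'.1)) (min_le_right _ _)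
  refine hd z ?_ ?_
  · show G.dist b.1 z ≤ b.2
    omega
  · show G.dist b'.1 z ≤ b'.2
    rw [SimpleGraph.dist_comm]
    omega

end P1C

theorem p_P1C (h : T_MERGE) (hD : T_DISJ) (h1 : T_P1) : T_P1C := by
  classical
  intro V _ G C hG hR hC b hb b₁ hb₁ b₂ hb₂ hne1 hne2 hne12 x y x' y' hx hy hx' hy' hxx hyy
  have hx0 : G.dist b.1 x ≤ b.2 := hx
  have hy0 : G.dist b.1 y ≤ b.2 := hy
  have hx1 : G.dist b₁.1 x' ≤ b₁.2 := hx'
  have hy1 : G.dist b₂.1 y' ≤ b₂.2 := hy'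
  have e1 : G.dist x x' = 1 := SimpleGraph.dist_eq_one_iff_adj.2 hxx
  have e2 : G.dist y y' = 1 := SimpleGraph.dist_eq_one_iff_adj.2 hyy
  have f1 := P1C.far_of_disj hG (fun w => hD V G C hG hC b hb b₁ hb₁ hne1 w)
  have f2 := P1C.far_of_disj hG (fun w => hD V G C hG hC b hb b₂ hb₂ hne2 w)
  have p0 := hC.cover.pos b hb
  have p1 := hC.cover.pos b₁ hb₁
  have p2 := hC.cover.pos b₂ hb₂
  have t1 : G.dist b.1 b₁.1 ≤ G.dist b.1 x + G.dist x b₁.1 := hG.dist_triangle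
  have t2 : G.dist x b₁.1 ≤ G.dist x x' + G.dist x' b₁.1 := hG.dist_triangle
  have t3 : G.dist x' b₁.1 = G.dist b₁.1 x' := SimpleGraph.dist_comm
  have t4 : G.dist b.1 b₂.1 ≤ G.dist b.1 y + G.dist y b₂.1 := hG.dist_triangle
  have t5 : G.dist y b₂.1 ≤ G.dist y y' + G.dist y' b₂.1 := hG.dist_triangle
  have t6 : G.dist y' b₂.1 = G.dist b₂.1 y' := SimpleGraph.dist_comm
  have t7 : G.dist b₁.1 b₂.1 ≤ G.dist b₁.1 x' + G.dist x' b₂.1 := hG.dist_triangle
  have t8 : G.dist x' b₂.1 ≤ G.dist x' x + G.dist x b₂.1 := hG.dist_triangle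
  have t9 : G.dist x b₂.1 ≤ G.dist x y + G.dist y b₂.1 := hG.dist_triangle
  have t10 : G.dist x' x = G.dist x x' := SimpleGraph.dist_comm
  by_contra hcon
  have hsmall : G.dist b₁.1 b₂.1 ≤ b₁.2 + 2 * b.2 + b₂.2 := by omega
  obtain ⟨m, m1, m2, m3⟩ := h1 V G hG hR b.1 b₁.1 b₂.1 b.2 b₁.2 b₂.2 p0 p1 p2 (by omega)
    (by omega) hsmall
  have hcost : cost ({b, b₁, b₂} : Finset (V × ℕ)) = b.2 + (b₁.2 + b₂.2) := by
    unfold cost
    rw [Finset.sum_insert (by simp [hne1, hne2]), Finset.sum_insert (by simp [hne12]),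
      Finset.sum_singleton]
  refine h V G C ({b, b₁, b₂} : Finset (V × ℕ)) m hC ?_ ?_ ?_
  · intro z hz
    simp only [Finset.mem_insert, Finset.mem_singleton] at hz
    rcases hz with rfl | rfl | rfl <;> assumption
  · rw [Finset.card_insert_of_notMem (by simp [hne1, hne2]),
      Finset.card_insert_of_notMem (by simp [hne12]), Finset.card_singleton]
    omega
  · intro z hz w hw
    have hw' : G.dist z.1 w ≤ z.2 := hw
    have tt : G.dist m w ≤ G.dist m z.1 + G.dist z.1 w := hG.dist_triangle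
    rw [hcost]
    simp only [Finset.mem_insert, Finset.mem_singleton] at hz
    rcases hz with rfl | rfl | rfl <;> omega

end Pool.Agent.BDC
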