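import Pool.Agent.BDC.TargetsA

/-!
# BDC: path and renumbering (assembly)
-/

namespace Pool.Agent.BDC

open N Prog

namespace PREPaux

/-- distances grow at most under a homomorphism -/
lemma dist_hom {V W : Type} {G : SimpleGraph V} {H : SimpleGraph W} (hG : G.Connected)
    (f : G →g H) (x y : V) : H.dist (f x) (f y) ≤ G.dist x y := by
  obtain ⟨p, hp⟩ := hG.exists_walk_length_eq_dist x y
  have h := SimpleGraph.dist_le (p.map f)
  rw [SimpleGraph.Walk.length_map] at h
  omega

lemma dist_iso {V W : Type} {G : SimpleGraph V} {H : SimpleGraph W} (hG : G.Connected)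
    (hH : H.Connected) (f : G ≃g H) (x y : V) : H.dist (f x) (f y) = G.dist x y := by
  apply le_antisymm
  · exact dist_hom hG f.toHom x y
  · have h := dist_hom hH f.symm.toHom (f x) (f y)
    simpa using h

lemma gm_eq_one {n : ℕ} {G : SimpleGraph (Fin n)} {i j : ℕ} :
    gm G i j = 1 ↔ ∃ (hi : i < n) (hj : j < n), G.Adj ⟨i, hi⟩ ⟨j, hj⟩ := by
  unfold gm
  split_ifs with h <;> simp [h]

lemma gm_le_one {n : ℕ} {G : SimpleGraph (Fin n)} {i j : ℕ} : gm G i j ≤ 1 := by
  unfold gm
  split_ifs <;> simp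

lemma gm_fin {n : ℕ} {G : SimpleGraph (Fin n)} {i j : Fin n} :
    gm G i j = 1 ↔ G.Adj i j := by
  rw [gm_eq_one]
  constructor
  · rintro ⟨_, _, h⟩; exact h
  · intro h; exact ⟨i.2, j.2, h⟩

lemma gm_congr {n m : ℕ} {G : SimpleGraph (Fin n)} {H : SimpleGraph (Fin m)} {i j i' j' : ℕ}
    (h : gm G i j = 1 ↔ gm H i' j' = 1) : gm G i j = gm H i' j' := by
  have h1 := gm_le_one (G := G) (i := i) (j := j)
  have h2 := gm_le_one (G := H) (i := i') (j := j')
  by_cases h3 : gm G i j = 1
  · rw [h3, h.1 h3]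
  · have h4 : gm H i' j' ≠ 1 := fun h5 => h3 (h.2 h5)
    omega

/-- the parent function -/
lemma exists_par (n : ℕ) (b : ℕ → ℕ → ℕ) (hb : ∀ w, 0 < w → w < n → ∃ y, y < w ∧ b w y = 1) :
    ∃ par : ℕ → ℕ, par 0 = 0 ∧ ∀ w, 0 < w → w < n → par w < w ∧ b w (par w) = 1 ∧
      ∀ j, j < w → b w j = 1 → j ≤ par w := by
  classical
  have key : ∀ w, ∃ p, (w = 0 → p = 0) ∧ (0 < w → w < n → p < w ∧ b w p = 1 ∧
      ∀ j, j < w → b w j = 1 → j ≤ p) := by
    intro w
    by_cases h : 0 < w ∧ w < n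
    · obtain ⟨y, hy, hy'⟩ := hb w h.1 h.2
      let S := (Finset.range w).filter fun j => b w j = 1
      have hS : S.Nonempty := ⟨y, by simp [S, hy, hy']⟩
      have h1 := S.max'_mem hS
      simp only [S, Finset.mem_filter, Finset.mem_range] at h1
      refine ⟨S.max' hS, fun h0 => by omega, fun _ _ => ⟨h1.1, h1.2, fun j hj hj' => ?_⟩⟩
      exact S.le_max' j (by simp [S, hj, hj'])
    · exact ⟨0, fun _ => rfl, fun h1 h2 => absurd ⟨h1, h2⟩ h⟩
  choose par h0 h1 using key
  exact ⟨par, h0 0 rfl, h1⟩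

/-- the columns -/
lemma exists_pos (par : ℕ → ℕ) (P : ℕ → Prop) :
    ∃ pos : ℕ → ℕ, (∀ w, P w → pos w = w) ∧ ∀ w, ¬ P w → pos w = pos (par w) := by
  classical
  refine ⟨fun w => if h : ∃ m, P (par^[m] w) then par^[Nat.find h] w else 0, ?_, ?_⟩
  · intro w hw
    have h : ∃ m, P (par^[m] w) := ⟨0, hw⟩
    have h0 : Nat.find h = 0 := (Nat.find_eq_zero h).2 hw
    simp only [dif_pos h, h0, Function.iterate_zero, id]
  · intro w hw
    by_cases h : ∃ m, P (par^[m] (par w))
    · have h' : ∃ m, P (par^[m] w) := by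
        obtain ⟨m, hm⟩ := h
        exact ⟨m + 1, by simpa [Function.iterate_succ_apply] using hm⟩
      have hf : Nat.find h' = Nat.find h + 1 := by
        rw [Nat.find_eq_iff]
        refine ⟨by simpa [Function.iterate_succ_apply] using Nat.find_spec h, ?_⟩
        intro k hk hP
        cases k with
        | zero => exact hw hP
        | succ k =>
          rw [Function.iterate_succ_apply] at hP
          exact Nat.find_min h (by omega) hP
      simp only [dif_pos h, dif_pos h', hf, Function.iterate_succ_apply]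
    · have h' : ¬ ∃ m, P (par^[m] w) := by
        rintro ⟨m, hm⟩
        cases m with
        | zero => exact hw hm
        | succ m =>
          rw [Function.iterate_succ_apply] at hm
          exact h ⟨m, hm⟩
      simp only [dif_neg h, dif_neg h']

end PREPaux

open PREPaux in
theorem p_PREP (h1 : T_LPATH) (h2 : T_LRANK) (h3 : T_REORD) : T_PREP := by
  intro n A σ G u f hG hR hu hrpo hmut hA hf
  classical
  have hn : 1 ≤ n := by have := u.2; omega
  set b := gm G with hb
  have bsym : ∀ i j, b i j = 1 → b j i = 1 := by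
    intro i j h
    rw [hb, gm_eq_one] at h ⊢
    obtain ⟨hi, hj, h⟩ := h
    exact ⟨hj, hi, h.symm⟩
  have bdom : ∀ i j, b i j = 1 → i < n ∧ j < n := by
    intro i j h
    rw [hb, gm_eq_one] at h
    obtain ⟨hi, hj, h⟩ := h
    exact ⟨hi, hj⟩
  have birr : ∀ i, b i i ≠ 1 := by
    intro i h
    rw [hb, gm_eq_one] at h
    obtain ⟨hi, hj, h⟩ := h
    exact G.irrefl h
  have hord : NatOrd n b := by
    constructor
    · intro w hw hwn
      have hne : (⟨w, hwn⟩ : Fin n) ≠ u := by
        intro h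
        have := congrArg (fun x : Fin n => (x : ℕ)) h
        simp only at this
        omega
      obtain ⟨y, hy1, hy2⟩ := hrpo.ex ⟨w, hwn⟩ hne
      refine ⟨y, hy2, ?_⟩
      rw [hb, gm_eq_one]
      exact ⟨y.2, hwn, hy1⟩
    · intro w y z hy hz hyw hzw hyz
      rw [hb, gm_eq_one] at hy hz ⊢
      obtain ⟨hi, hj, hy⟩ := hy
      obtain ⟨hi', _, hz⟩ := hz
      refine ⟨hi, hi', ?_⟩
      exact hrpo.peo.clq ⟨w, hj⟩ ⟨y, hi⟩ ⟨z, hi'⟩ hy hz hyw hzw
        (fun h => hyz (congrArg (fun x : Fin n => (x : ℕ)) h))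
  obtain ⟨par, par0, hpar⟩ := exists_par n b (fun w hw hwn => by
    obtain ⟨y, hy, hy'⟩ := hord.ex w hw hwn
    exact ⟨y, hy, bsym _ _ hy'⟩)
  set v : ℕ := (f : ℕ) with hv
  have hvn : v < n := f.2
  obtain ⟨pos, pos1, pos2⟩ := exists_pos par (fun w => ∃ k, par^[k] v = w)
  obtain ⟨L1, L2⟩ := h1 n A σ b par pos v hn hvn hf hA hpar par0 (fun w _ h => pos1 w h)
    (fun w _ h => pos2 w h)
  obtain ⟨rlt, rinj, r0, hre⟩ := h3 n b par pos v hn hvn bdom birr bsym hord hpar par0
    (fun w _ h => pos1 w h) (fun w _ h => pos2 w h)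
  set σ' := run n A cPath σ with hσ'
  have hA' : Has2 n σ' aA b := by
    intro i j hi hj
    rw [hσ', run_frame _ _ aA (by decide)]
    exact hA i j hi hj
  let o : ℕ → ℕ := fun w => if ∃ k, par^[k] v = w then 1 else 0
  have ho : Has1 n σ' aOnp o := by
    intro i hi
    by_cases h : ∃ k, par^[k] v = i
    · simp only [o, if_pos h]
      exact (L1 i hi).1 h
    · simp only [o, if_neg h]
      exact (L1 i hi).2 h
  obtain ⟨R1, R2⟩ := h2 n A σ' b pos o hA' L2 ho rinj
  -- the renumbering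
  let rk : Fin n → Fin n := fun w => ⟨rank n pos w, rlt w w.2⟩
  have hrk : Function.Injective rk := by
    intro i j hij
    have := congrArg (fun x : Fin n => (x : ℕ)) hij
    exact Fin.ext (rinj i j i.2 j.2 this)
  let e' : Fin n ≃ Fin n := Equiv.ofBijective rk (Finite.injective_iff_bijective.1 hrk)
  have he' : ∀ w, e' w = rk w := fun w => rfl
  let e : Fin n ≃ Fin n := e'.symm
  have hes : ∀ w : Fin n, ((e.symm w : Fin n) : ℕ) = rank n pos w := fun w => rfl
  have hre' : ∀ w : Fin n, rank n pos (e w) = w := by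
    intro w
    have h := hes (e w)
    rw [e.symm_apply_apply] at h
    exact h.symm
  let G' : SimpleGraph (Fin n) := G.comap e
  have hG'adj : ∀ i j, G'.Adj i j ↔ G.Adj (e i) (e j) := fun i j => Iff.rfl
  let iso : G' ≃g G := { toEquiv := e, map_rel_iff' := Iff.rfl }
  have hiso : ∀ x, iso x = e x := fun x => rfl
  have hG' : G'.Connected := iso.connected_iff.2 hG
  have hdist : ∀ x y, G'.dist x y = G.dist (e x) (e y) := fun x y =>
    (dist_iso hG' hG iso x y).symm
  let U : Fin n → Prop := fun x => ∃ k, par^[k] v = e x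
  have hgm : ∀ i j, i < n → j < n → gm G' (rank n pos i) (rank n pos j) = b i j := by
    intro i j hi hj
    rw [hb]
    apply gm_congr
    have h1 : rank n pos i = ((e.symm ⟨i, hi⟩ : Fin n) : ℕ) := (hes ⟨i, hi⟩).symm
    have h2 : rank n pos j = ((e.symm ⟨j, hj⟩ : Fin n) : ℕ) := (hes ⟨j, hj⟩).symm
    rw [h1, h2, gm_fin, hG'adj, e.apply_symm_apply, e.apply_symm_apply]
    rw [← gm_fin]
  have hU : ∀ w, w < n → ((∃ h : rank n pos w < n, U ⟨rank n pos w, h⟩) ↔
      ∃ k, par^[k] v = w) := by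
    intro w hw
    have h1 : ∀ h : rank n pos w < n, e ⟨rank n pos w, h⟩ = ⟨w, hw⟩ := by
      intro h
      rw [← Equiv.eq_symm_apply]
      exact Fin.ext (hes ⟨w, hw⟩).symm
    constructor
    · rintro ⟨h, k, hk⟩
      rw [h1 h] at hk
      exact ⟨k, hk⟩
    · rintro ⟨k, hk⟩
      refine ⟨rlt w hw, k, ?_⟩
      rw [h1]
      exact hk
  obtain ⟨good, uv, max⟩ := hre (gm G') (fun x => ∃ h : x < n, U ⟨x, h⟩) hgm
    (fun i j h => by
      rw [gm_eq_one] at h
      obtain ⟨hi, hj, _⟩ := h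
      exact ⟨hi, hj⟩) hU (fun x h => h.1)
  have heu : e u = u := by
    rw [← Equiv.eq_symm_apply]
    apply Fin.ext
    rw [hes, hu, r0]
  refine ⟨e, G', U, e.symm f, hG'adj, ?_, ?_, ?_⟩
  · refine ⟨hG', ?_, ?_, hu, ?_, ?_, ?_⟩
    · -- elimination orders of the renumbered graph
      intro c
      obtain ⟨num, hnum⟩ := hR (e c)
      refine ⟨fun x => num (e x), ⟨⟨?_, ?_, ?_⟩, ?_, ?_⟩⟩
      · intro x y h; exact h.symm
      · intro x y h; exact e.injective (hnum.peo.inj h)
      · intro w y z hy hz hyw hzw hyz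
        exact hnum.peo.clq (e w) (e y) (e z) hy hz hyw hzw (fun h => hyz (e.injective h))
      · intro w hw
        exact hnum.root (e w) (fun h => hw (e.injective h))
      · intro w hw
        obtain ⟨y, hy1, hy2⟩ := hnum.ex (e w) (fun h => hw (e.injective h))
        refine ⟨e.symm y, ?_, ?_⟩
        · rw [hG'adj, e.apply_symm_apply]; exact hy1
        · simpa using hy2
    · constructor
      · intro w hw
        obtain ⟨y, hy, hyw⟩ := good.ord.ex w hw w.2
        rw [gm_eq_one] at hyw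
        obtain ⟨hi, hj, h⟩ := hyw
        exact ⟨⟨y, hi⟩, hy, h⟩
      · intro w y z hy hz hyw hzw hyz
        have := good.ord.clq w y z (gm_fin.2 hy) (gm_fin.2 hz) hyw hzw
          (fun h => hyz (Fin.ext h))
        exact gm_fin.1 this
      · intro w hw
        obtain ⟨h, hh⟩ := good.u0
        have : w = ⟨0, h⟩ := Fin.ext hw
        rw [this]; exact hh
      · intro x y hx hy hyx
        obtain ⟨h, hh⟩ := good.uE x y ⟨x.2, hx⟩ (gm_fin.2 hy) hyx
        exact hh
      · intro x w hx hxw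
        obtain ⟨y, hxy, hyw, hy⟩ := good.col x w ⟨x.2, hx⟩ hxw w.2
        rw [gm_eq_one] at hy
        obtain ⟨hi, hj, h⟩ := hy
        exact ⟨⟨y, hi⟩, hxy, hyw, h⟩
    · obtain ⟨h, hh⟩ := uv
      have : e.symm f = ⟨rank n pos v, h⟩ := Fin.ext (hes f)
      rw [this]; exact hh
    · intro x hx
      have := max x ⟨x.2, hx⟩
      rw [Fin.le_def, hes]
      exact this
    · constructor
      · intro w
        rw [hdist, hdist, heu, e.apply_symm_apply]
        exact hmut.1 _
      · intro w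
        rw [hdist, hdist, heu, e.apply_symm_apply]
        exact hmut.2 _
  · intro i j hi hj
    have h := R2 (e ⟨i, hi⟩) (e ⟨j, hj⟩) (e ⟨i, hi⟩).2 (e ⟨j, hj⟩).2
    rw [hre', hre'] at h
    rw [run_seq, ← hσ', h, ← hgm _ _ (e ⟨i, hi⟩).2 (e ⟨j, hj⟩).2, hre', hre']
  · intro i hi
    have h := R1 (e ⟨i, hi⟩) (e ⟨i, hi⟩).2
    rw [hre'] at h
    rw [run_seq, ← hσ']
    simp only at h
    constructor
    · rintro ⟨_, hh⟩
      rw [h]
      simp only [o]
      rw [if_pos hh]
    · intro hh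
      rw [h]
      simp only [o]
      rw [if_neg]
      intro hk
      exact hh ⟨hi, hk⟩

end Pool.Agent.BDC
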