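import Pool.Agent.BDC.TargetsN

/-!
# BDC: the renumbering by `(pos, ·)` of a natural elimination order
-/

namespace Pool.Agent.BDC

namespace REORD

/-- the lexicographic order by `(pos, ·)` -/
def R (pos : ℕ → ℕ) (x y : ℕ) : Prop := pos x < pos y ∨ (pos x = pos y ∧ x < y)

theorem R_irrefl (pos : ℕ → ℕ) (x : ℕ) : ¬ R pos x x := by
  unfold R; omega

theorem R_trans {pos : ℕ → ℕ} {x y z : ℕ} (h1 : R pos x y) (h2 : R pos y z) : R pos x z := by
  unfold R at *; omega

theorem R_tri (pos : ℕ → ℕ) (x y : ℕ) : R pos x y ∨ x = y ∨ R pos y x := by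
  unfold R; omega

theorem rank_lt {n : ℕ} {pos : ℕ → ℕ} {x y : ℕ} (hx : x < n) (h : R pos x y) :
    rank n pos x < rank n pos y := by
  classical
  unfold rank
  refine Finset.card_lt_card ⟨fun z hz => ?_, fun hsub => ?_⟩
  · rw [Finset.mem_filter] at hz ⊢
    exact ⟨hz.1, R_trans (pos := pos) hz.2 h⟩
  · have h1 : x ∈ (Finset.range n).filter fun z => pos z < pos y ∨ (pos z = pos y ∧ z < y) :=
      Finset.mem_filter.2 ⟨Finset.mem_range.2 hx, h⟩
    have h2 := hsub h1
    rw [Finset.mem_filter] at h2
    exact R_irrefl pos x h2.2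

theorem rank_lt_iff {n : ℕ} {pos : ℕ → ℕ} {x y : ℕ} (hx : x < n) (hy : y < n) :
    rank n pos x < rank n pos y ↔ R pos x y := by
  constructor
  · intro h
    rcases R_tri pos x y with h1 | rfl | h1
    · exact h1
    · omega
    · have := rank_lt hy h1
      omega
  · exact rank_lt hx

theorem rank_inj {n : ℕ} {pos : ℕ → ℕ} {x y : ℕ} (hx : x < n) (hy : y < n)
    (h : rank n pos x = rank n pos y) : x = y := by
  rcases R_tri pos x y with h1 | h1 | h1
  · have := rank_lt hx h1
    omega
  · exact h1
  · have := rank_lt hy h1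
    omega

theorem rank_lt_n {n : ℕ} {pos : ℕ → ℕ} {x : ℕ} (hx : x < n) : rank n pos x < n := by
  classical
  unfold rank
  have h : ((Finset.range n).filter fun z => pos z < pos x ∨ (pos z = pos x ∧ z < x)) ⊂
      Finset.range n := by
    refine ⟨Finset.filter_subset _ _, fun hsub => ?_⟩
    have h2 := hsub (Finset.mem_range.2 hx)
    rw [Finset.mem_filter] at h2
    exact R_irrefl pos x h2.2
  simpa using Finset.card_lt_card h

theorem rank_surj {n : ℕ} {pos : ℕ → ℕ} {w : ℕ} (hw : w < n) : ∃ x, x < n ∧ rank n pos x = w := by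
  have h := Finset.surj_on_of_inj_on_of_card_le (s := Finset.range n) (t := Finset.range n)
    (fun x _ => rank n pos x) (fun x hx => Finset.mem_range.2 (rank_lt_n (Finset.mem_range.1 hx)))
    (fun x y hx hy hxy => rank_inj (Finset.mem_range.1 hx) (Finset.mem_range.1 hy) hxy) le_rfl
    w (Finset.mem_range.2 hw)
  obtain ⟨x, hx, hxw⟩ := h
  exact ⟨x, Finset.mem_range.1 hx, hxw.symm⟩

section Main

variable {n : ℕ} {b : ℕ → ℕ → ℕ} {par pos : ℕ → ℕ} {v : ℕ}

/-- iterates of `par` decrease -/
theorem it_le (hp : ∀ w, 0 < w → w < n → par w < w) (h0 : par 0 = 0) (k : ℕ) :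
    ∀ w, w < n → par^[k] w ≤ w ∧ par^[k] w < n := by
  induction k with
  | zero => intro w hw; exact ⟨le_rfl, hw⟩
  | succ k ih =>
    intro w hw
    rw [Function.iterate_succ_apply]
    have h1 : par w ≤ w := by
      rcases Nat.eq_zero_or_pos w with h | h
      · rw [h, h0]
      · exact (hp w h hw).le
    obtain ⟨h2, h3⟩ := ih (par w) (by omega)
    exact ⟨h2.trans h1, h3⟩

theorem it_zero (hp : ∀ w, 0 < w → w < n → par w < w) (h0 : par 0 = 0) :
    ∀ w, w < n → ∃ k, par^[k] w = 0 := by
  intro w
  induction w using Nat.strong_induction_on with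
  | _ w ih =>
    intro hw
    rcases Nat.eq_zero_or_pos w with h | h
    · exact ⟨0, h⟩
    · have h1 := hp w h hw
      obtain ⟨k, hk⟩ := ih (par w) h1 (by omega)
      exact ⟨k + 1, by rw [Function.iterate_succ_apply]; exact hk⟩

end Main

end REORD

open REORD

theorem p_REORD : T_REORD := by
  intro n b par pos v hn hv hdom hirr hsym hord hpar hpar0 hposP hposN
  have hplt : ∀ w, 0 < w → w < n → par w < w := fun w h1 h2 => (hpar w h1 h2).1
  have hzeroP : ∃ k, par^[k] v = 0 := it_zero hplt hpar0 v hv
  have hpos0 : pos 0 = 0 := hposP 0 (by omega) hzeroP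
  -- the path is closed under `par`
  have hPpar : ∀ w, (∃ k, par^[k] v = w) → ∃ k, par^[k] v = par w := by
    rintro w ⟨k, hk⟩
    exact ⟨k + 1, by rw [Function.iterate_succ_apply', hk]⟩
  have hparn : ∀ w, w < n → par w < n := by
    intro w hw
    rcases Nat.eq_zero_or_pos w with h | h
    · rw [h, hpar0]; omega
    · have := hplt w h hw; omega
  -- `pos` along `par`
  have hposle : ∀ w, w < n → pos (par w) ≤ pos w := by
    intro w hw
    by_cases hP : ∃ k, par^[k] v = w
    · rw [hposP w hw hP, hposP (par w) (hparn w hw) (hPpar w hP)]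
      rcases Nat.eq_zero_or_pos w with h | h
      · rw [h, hpar0]
      · exact (hplt w h hw).le
    · rw [hposN w hw hP]
  have hposself : ∀ w, w < n → pos w ≤ w := by
    intro w
    induction w using Nat.strong_induction_on with
    | _ w ih =>
      intro hw
      by_cases hP : ∃ k, par^[k] v = w
      · rw [hposP w hw hP]
      · have hw0 : 0 < w := by
          rcases Nat.eq_zero_or_pos w with h | h
          · exfalso; rw [h] at hP; exact hP hzeroP
          · exact h
        have h1 := hplt w hw0 hw
        rw [hposN w hw hP]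
        exact (ih (par w) h1 (by omega)).trans h1.le
  -- earlier neighbours
  have hE : ∀ w y, w < n → y < w → b y w = 1 → y = par w ∨ (y < par w ∧ b y (par w) = 1) := by
    intro w y hw hyw hb
    have hw0 : 0 < w := by omega
    obtain ⟨h1, h2, h3⟩ := hpar w hw0 hw
    have h4 := h3 y hyw (hsym _ _ hb)
    rcases Nat.lt_or_ge y (par w) with h5 | h5
    · right
      exact ⟨h5, hord.clq w y (par w) hb (hsym _ _ h2) hyw h1 (by omega)⟩
    · left; omega
  have hposE : ∀ w y, w < n → y < w → b y w = 1 → pos y ≤ pos w := by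
    intro w
    induction w using Nat.strong_induction_on with
    | _ w ih =>
      intro y hw hyw hb
      have hw0 : 0 < w := by omega
      have h1 := hplt w hw0 hw
      rcases hE w y hw hyw hb with h2 | ⟨h2, h3⟩
      · rw [h2]; exact hposle w hw
      · exact (ih (par w) h1 y (by omega) h2 h3).trans (hposle w hw)
  have hPE : ∀ w y, w < n → y < w → b y w = 1 → (∃ k, par^[k] v = w) → ∃ k, par^[k] v = y := by
    intro w
    induction w using Nat.strong_induction_on with
    | _ w ih =>
      intro y hw hyw hb hP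
      have hw0 : 0 < w := by omega
      have h1 := hplt w hw0 hw
      rcases hE w y hw hyw hb with h2 | ⟨h2, h3⟩
      · rw [h2]; exact hPpar w hP
      · exact ih (par w) h1 y (by omega) h2 h3 (hPpar w hP)
  have hRE : ∀ w y, w < n → y < w → b y w = 1 → R pos y w := by
    intro w y hw hyw hb
    have := hposE w y hw hyw hb
    unfold R; omega
  -- for neighbours the two orders agree
  have hagree : ∀ w y, w < n → y < n → b y w = 1 → (rank n pos y < rank n pos w ↔ y < w) := by
    intro w y hw hy hb
    rw [rank_lt_iff hy hw]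
    constructor
    · intro h
      rcases Nat.lt_trichotomy y w with h1 | h1 | h1
      · exact h1
      · exfalso; subst h1; exact hirr _ hb
      · exfalso
        exact R_irrefl pos y (R_trans h (hRE y w hy h1 (hsym _ _ hb)))
    · intro h
      exact hRE w y hw h hb
  have hrank0 : rank n pos 0 = 0 := by
    classical
    unfold rank
    rw [Finset.card_eq_zero, Finset.filter_eq_empty_iff]
    intro x _
    rw [hpos0]
    omega
  refine ⟨fun w hw => rank_lt_n hw, fun i j hi hj h => rank_inj hi hj h, hrank0, ?_⟩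
  intro b' U' hb' hdom' hU' hU'n
  have hlev : ∀ x, (∃ k, par^[k] v = x) → x < n := by
    rintro x ⟨k, rfl⟩
    exact (it_le hplt hpar0 k v hv).2
  refine ⟨⟨⟨?_, ?_⟩, ?_, hU'n, ?_, ?_⟩, ?_, ?_⟩
  · -- every vertex has an earlier neighbour
    intro w' hw'0 hw'
    obtain ⟨w, hw, rfl⟩ := rank_surj (pos := pos) hw'
    have hw0 : 0 < w := by
      rcases Nat.eq_zero_or_pos w with h | h
      · exfalso; rw [h, hrank0] at hw'0; exact lt_irrefl _ hw'0
      · exact h
    obtain ⟨h1, h2, h3⟩ := hpar w hw0 hw
    have hpn : par w < n := by omega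
    refine ⟨rank n pos (par w), ?_, ?_⟩
    · exact (hagree w (par w) hw hpn (hsym _ _ h2)).2 h1
    · rw [hb' _ _ hpn hw]; exact hsym _ _ h2
  · -- cliques
    intro w' y' z' h1 h2 h3 h4 h5
    obtain ⟨hy', hw'⟩ := hdom' _ _ h1
    obtain ⟨hz', -⟩ := hdom' _ _ h2
    obtain ⟨w, hw, rfl⟩ := rank_surj (pos := pos) hw'
    obtain ⟨y, hy, rfl⟩ := rank_surj (pos := pos) hy'
    obtain ⟨z, hz, rfl⟩ := rank_surj (pos := pos) hz'
    rw [hb' _ _ hy hw] at h1
    rw [hb' _ _ hz hw] at h2
    rw [hb' _ _ hy hz]
    exact hord.clq w y z h1 h2 ((hagree w y hw hy h1).1 h3) ((hagree w z hw hz h2).1 h4)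
      (fun hyz => h5 (by rw [hyz]))
  · -- the root
    have := (hU' 0 (by omega)).2 hzeroP
    rwa [hrank0] at this
  · -- the path is closed under earlier neighbours
    intro x' y' hx' hb1 hlt
    obtain ⟨hy', hx'n⟩ := hdom' _ _ hb1
    obtain ⟨x, hx, rfl⟩ := rank_surj (pos := pos) hx'n
    obtain ⟨y, hy, rfl⟩ := rank_surj (pos := pos) hy'
    rw [hb' _ _ hy hx] at hb1
    exact (hU' y hy).2 (hPE x y hx ((hagree x y hx hy hb1).1 hlt) hb1 ((hU' x hx).1 hx'))
  · -- columns
    intro x' w' hx' hlt hw'
    obtain ⟨w, hw, rfl⟩ := rank_surj (pos := pos) hw'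
    obtain ⟨x, hx, rfl⟩ := rank_surj (pos := pos) (hU'n _ hx')
    have hxP := (hU' x hx).1 hx'
    have hposx : pos x = x := hposP x hx hxP
    have hR := (rank_lt_iff hx hw).1 hlt
    have hw0 : 0 < w := by
      rcases Nat.eq_zero_or_pos w with h | h
      · exfalso
        rw [h] at hR
        unfold R at hR
        rw [hpos0] at hR
        omega
      · exact h
    obtain ⟨h1, h2, h3⟩ := hpar w hw0 hw
    have hpn : par w < n := by omega
    refine ⟨rank n pos (par w), ?_, (hagree w (par w) hw hpn (hsym _ _ h2)).2 h1, ?_⟩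
    · -- `(x, x) ≤ (pos (par w), par w)`
      by_contra hcon
      push Not at hcon
      have hR2 := (rank_lt_iff hpn hx).1 hcon
      by_cases hP : ∃ k, par^[k] v = w
      · -- both on the path
        have hposw : pos w = w := hposP w hw hP
        have hpospw : pos (par w) = par w := hposP (par w) hpn (hPpar w hP)
        have hxw : x < w := by unfold R at hR; omega
        have hpx : par w < x := by unfold R at hR2; omega
        obtain ⟨i, hi⟩ := hxP
        obtain ⟨j, hj⟩ := hP
        rcases Nat.lt_or_ge j i with hji | hji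
        · obtain ⟨m, rfl⟩ : ∃ m, i = m + 1 + j := ⟨i - 1 - j, by omega⟩
          rw [Function.iterate_add_apply, hj, Function.iterate_succ_apply] at hi
          have := (it_le hplt hpar0 m (par w) hpn).1
          omega
        · obtain ⟨m, rfl⟩ : ∃ m, j = m + i := ⟨j - i, by omega⟩
          rw [Function.iterate_add_apply, hi] at hj
          have := (it_le hplt hpar0 m x hx).1
          omega
      · have hposw : pos w = pos (par w) := hposN w hw hP
        have h4 := hposself (par w) hpn
        unfold R at hR hR2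
        omega
    · rw [hb' _ _ hpn hw]; exact hsym _ _ h2
  · exact (hU' v hv).2 ⟨0, rfl⟩
  · intro x' hx'
    obtain ⟨x, hx, rfl⟩ := rank_surj (pos := pos) (hU'n _ hx')
    have hxP := (hU' x hx).1 hx'
    have hposx : pos x = x := hposP x hx hxP
    have hposv : pos v = v := hposP v hv ⟨0, rfl⟩
    obtain ⟨k, hk⟩ := hxP
    have hxv := (it_le hplt hpar0 k v hv).1
    rw [hk] at hxv
    by_contra hcon
    push Not at hcon
    have hR := (rank_lt_iff hv hx).1 hcon
    unfold R at hR
    omega

end Pool.Agent.BDC
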