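import Pool.Agent.BDC.Targets

/-!
# BDC: elimination orders exist (M2)
-/

namespace Pool.Agent.BDC

namespace RPOx

variable {V : Type} [Fintype V]

lemma cnt_congr (G : SimpleGraph V) {num num' : V → ℕ} {k : ℕ} (x : V)
    (h : ∀ y, num' y < k ↔ num y < k) : cnt G num' x k = cnt G num x k := by
  unfold cnt
  congr 1
  ext y
  simp [h y]

/-- the state of the search after `k` steps -/
structure Inv (G : SimpleGraph V) (c : V) (k : ℕ) (S : Finset V) (num : V → ℕ) : Prop where
  card : S.card = k
  hc : c ∈ S
  c0 : num c = 0
  lt : ∀ x ∈ S, num x < k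
  out : ∀ x, x ∉ S → num x = k
  inj : ∀ x ∈ S, ∀ y ∈ S, num x = num y → x = y
  mcs : ∀ w ∈ S, w ≠ c → ∀ x, num w ≤ num x → cnt G num x (num w) ≤ cnt G num w (num w)

lemma exists_inv (G : SimpleGraph V) (c : V) :
    ∀ k, 1 ≤ k → k ≤ Fintype.card V → ∃ S num, Inv G c k S num := by
  classical
  intro k hk
  induction k, hk using Nat.le_induction with
  | base =>
    intro _
    refine ⟨{c}, fun x => if x = c then 0 else 1, ?_, ?_, ?_, ?_, ?_, ?_, ?_⟩
    · simp
    · simp
    · simp
    · intro x hx; simp at hx; simp [hx]
    · intro x hx; simp at hx; simp [hx]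
    · intro x hx y hy _; simp at hx hy; rw [hx, hy]
    · intro w hw hwc; simp at hw; exact absurd hw hwc
  | succ k hk ih =>
    intro hcard
    obtain ⟨S, num, hI⟩ := ih (by omega)
    have hne : (Finset.univ \ S).Nonempty := by
      rw [← Finset.card_pos, Finset.card_sdiff_of_subset (Finset.subset_univ S), Finset.card_univ,
        hI.card]
      omega
    obtain ⟨w0, hw0, hmax⟩ := Finset.exists_max_image (Finset.univ \ S)
      (fun x => cnt G num x k) hne
    have hw0' : w0 ∉ S := by simpa using hw0
    let num' : V → ℕ := fun x => if x ∈ S then num x else if x = w0 then k else k + 1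
    have e1 : ∀ x ∈ S, num' x = num x := fun x hx => if_pos hx
    have e2 : num' w0 = k := by
      change (if w0 ∈ S then num w0 else if w0 = w0 then k else k + 1) = k
      rw [if_neg hw0', if_pos rfl]
    have e3 : ∀ x, x ∉ S → k ≤ num' x := by
      intro x hx
      change k ≤ (if x ∈ S then num x else if x = w0 then k else k + 1)
      rw [if_neg hx]
      split_ifs <;> omega
    have e4 : ∀ x, x ∉ S → x ≠ w0 → num' x = k + 1 := by
      intro x hx hxw
      change (if x ∈ S then num x else if x = w0 then k else k + 1) = k + 1
      rw [if_neg hx, if_neg hxw]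
    have hlt : ∀ j, j ≤ k → ∀ y, num' y < j ↔ num y < j := by
      intro j hj y
      by_cases hy : y ∈ S
      · rw [e1 y hy]
      · have h1 := e3 y hy
        have h2 := hI.out y hy
        constructor <;> intro h <;> omega
    refine ⟨insert w0 S, num', ?_, ?_, ?_, ?_, ?_, ?_, ?_⟩
    · rw [Finset.card_insert_of_notMem hw0', hI.card]
    · exact Finset.mem_insert_of_mem hI.hc
    · rw [e1 c hI.hc, hI.c0]
    · intro x hx
      rw [Finset.mem_insert] at hx
      rcases hx with rfl | hx
      · rw [e2]; omega
      · rw [e1 x hx]
        have := hI.lt x hx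
        omega
    · intro x hx
      rw [Finset.mem_insert, not_or] at hx
      exact e4 x hx.2 hx.1
    · intro x hx y hy hxy
      rw [Finset.mem_insert] at hx hy
      rcases hx with rfl | hx
      · rcases hy with rfl | hy
        · rfl
        · rw [e2, e1 y hy] at hxy
          have := hI.lt y hy
          omega
      · rcases hy with rfl | hy
        · rw [e2, e1 x hx] at hxy
          have := hI.lt x hx
          omega
        · rw [e1 x hx, e1 y hy] at hxy
          exact hI.inj x hx y hy hxy
    · intro w hw hwc x hwx
      rw [Finset.mem_insert] at hw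
      rcases hw with rfl | hw
      · rw [e2] at hwx ⊢
        rw [cnt_congr G x (hlt k le_rfl), cnt_congr G w (hlt k le_rfl)]
        have hx : x ∉ S := by
          intro hx
          rw [e1 x hx] at hwx
          have := hI.lt x hx
          omega
        exact hmax x (by simpa using hx)
      · have hw1 := hI.lt w hw
        rw [e1 w hw] at hwx ⊢
        rw [cnt_congr G x (hlt _ hw1.le), cnt_congr G w (hlt _ hw1.le)]
        apply hI.mcs w hw hwc x
        by_cases hx : x ∈ S
        · rwa [e1 x hx] at hwx
        · rw [hI.out x hx]; omega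

end RPOx

open RPOx

theorem p_RPO (h : T_MCS) : T_RPO := by
  classical
  intro V _ G hG hC c
  have hpos : 1 ≤ Fintype.card V := Fintype.card_pos_iff.2 ⟨c⟩
  obtain ⟨S, num, hI⟩ := exists_inv G c (Fintype.card V) hpos le_rfl
  have hS : S = Finset.univ := Finset.eq_univ_of_card S hI.card
  have hinj : Function.Injective num := by
    intro x y hxy
    exact hI.inj x (by simp [hS]) y (by simp [hS]) hxy
  refine ⟨num, h V G num c hG hC hinj ?_ ?_⟩
  · intro w hw
    have h1 : num w ≠ num c := fun e => hw (hinj e)
    have h2 := hI.c0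
    omega
  · intro w x hwc hwx
    exact hI.mcs w (by simp [hS]) hwc x hwx

end Pool.Agent.BDC
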