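import Pool.Agent.BDC.TargetsA

set_option autoImplicit false

/-!
# BDC: job SWEEP, one sweep
-/

namespace Pool.Agent.BDC

open N Prog

namespace SWEEP

variable {n : ℕ}

lemma gm_one {G : SimpleGraph (Fin n)} {i j : ℕ} :
    gm G i j = 1 ↔ ∃ (hi : i < n) (hj : j < n), G.Adj ⟨i, hi⟩ ⟨j, hj⟩ := by
  unfold gm
  split_ifs with h
  · exact ⟨fun _ => h, fun _ => rfl⟩
  · exact ⟨fun h' => h'.elim, fun h' => absurd h' h⟩

lemma gm_fin {G : SimpleGraph (Fin n)} (i j : Fin n) : gm G i j = 1 ↔ G.Adj i j := by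
  rw [gm_one]
  exact ⟨fun ⟨_, _, h⟩ => h, fun h => ⟨i.2, j.2, h⟩⟩

lemma gm_le (G : SimpleGraph (Fin n)) (i j : ℕ) : gm G i j ≤ 1 := by
  unfold gm
  split_ifs <;> omega

lemma gm_ite (G : SimpleGraph (Fin n)) (i j : Fin n) [Decidable (G.Adj i j)] :
    gm G i j = if G.Adj i j then 1 else 0 := by
  have h := gm_fin (G := G) i j
  have h2 := gm_le G i j
  split_ifs with h1
  · exact h.2 h1
  · have h3 : gm G i j ≠ 1 := fun h4 => h1 (h.1 h4)
    omega

/-- the numbers counted by the search -/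
lemma cnt_eq (G : SimpleGraph (Fin n)) (e : Fin n ≃ Fin n) (ord : ℕ → ℕ)
    (he : ∀ i : Fin n, ((e i : Fin n) : ℕ) = ord i) (x : Fin n) (k : ℕ) (hk : k ≤ n) :
    cnt G (fun v => ((e.symm v : Fin n) : ℕ)) x k = ∑ j ∈ Finset.range k, gm G (ord j) x := by
  classical
  unfold cnt
  rw [Finset.card_filter, ← Equiv.sum_comp e]
  have h1 : ∀ i : Fin n, (if G.Adj (e i) x ∧ ((e.symm (e i) : Fin n) : ℕ) < k then 1 else 0) =
      (fun j : ℕ => if j < k then gm G (ord j) x else 0) (i : ℕ) := by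
    intro i
    simp only [Equiv.symm_apply_apply]
    rw [← he i, gm_ite]
    by_cases h2 : (i : ℕ) < k
    · rw [if_pos h2]
      by_cases h3 : G.Adj (e i) x
      · rw [if_pos ⟨h3, h2⟩, if_pos h3]
      · rw [if_neg (fun h => h3 h.1), if_neg h3]
    · rw [if_neg h2, if_neg (fun h => h2 h.2)]
  rw [Finset.sum_congr rfl fun i _ => h1 i,
    Fin.sum_univ_eq_sum_range (fun j : ℕ => if j < k then gm G (ord j) x else 0) n,
    ← Finset.sum_filter]
  apply Finset.sum_congr _ fun _ _ => rfl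
  ext j
  simp only [Finset.mem_filter, Finset.mem_range]
  omega

/-- transport of an elimination order -/
lemma rpo_comap (G : SimpleGraph (Fin n)) (e : Fin n ≃ Fin n) (cur z : Fin n) (hz : e z = cur)
    (h : RPO G (fun v => ((e.symm v : Fin n) : ℕ)) cur) :
    RPO (G.comap e) (fun i => (i : ℕ)) z where
  peo :=
    { sym := fun x y hxy => hxy.symm
      inj := Fin.val_injective
      clq := fun w x y h1 h2 h3 h4 h5 => by
        have := h.peo.clq (e w) (e x) (e y) h1 h2 (by simpa using h3) (by simpa using h4)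
          (fun h6 => h5 (e.injective h6))
        exact this }
  root := fun w hw => by
    have h1 : e w ≠ cur := fun h2 => hw (e.injective (h2.trans hz.symm))
    have h3 := h.root (e w) h1
    rw [← hz] at h3
    simpa using h3
  ex := fun w hw => by
    have h1 : e w ≠ cur := fun h2 => hw (e.injective (h2.trans hz.symm))
    obtain ⟨y, h2, h3⟩ := h.ex (e w) h1
    refine ⟨e.symm y, ?_, ?_⟩
    · show G.Adj (e (e.symm y)) (e w)
      rw [Equiv.apply_symm_apply]
      exact h2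
    · simpa using h3

end SWEEP

open SWEEP in
/-- one sweep -/
theorem p_SWEEP (h1 : T_LMCS) (h2 : T_LREN) (h3 : T_LFAR) (h4 : T_MCS) : T_SWEEP := by
  intro n A σ G cur hG hC hA hcur
  have hn : 1 ≤ n := by
    have := cur.2
    omega
  obtain ⟨ord, o1, o2, o3, o4, o5, o6⟩ := h1 n A σ (gm G) cur hn cur.2 hcur hA (gm_le G)
  -- the renumbering
  have hinj : Function.Injective (fun i : Fin n => (⟨ord i, o1 i i.2⟩ : Fin n)) := by
    intro i j hij
    exact Fin.ext (o2 i j i.2 j.2 (congrArg Fin.val hij))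
  let e : Fin n ≃ Fin n :=
    Equiv.ofBijective (fun i : Fin n => (⟨ord i, o1 i i.2⟩ : Fin n))
      (Finite.injective_iff_bijective.1 hinj)
  have he : ∀ i : Fin n, ((e i : Fin n) : ℕ) = ord i := fun i => rfl
  have he0 : ∀ z : Fin n, (z : ℕ) = 0 → e z = cur := by
    intro z hz
    apply Fin.ext
    rw [he z, hz, o3]
  have hz0 : ((⟨0, hn⟩ : Fin n) : ℕ) = 0 := rfl
  -- the elimination order
  have hR : RPO G (fun v => ((e.symm v : Fin n) : ℕ)) cur := by
    apply h4 (Fin n) G _ cur hG hC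
    · intro x y hxy
      exact e.symm.injective (Fin.ext hxy)
    · intro w hw
      have h5 : e.symm cur = ⟨0, hn⟩ := by
        rw [← he0 ⟨0, hn⟩ rfl, Equiv.symm_apply_apply]
      have h6 : ((e.symm w : Fin n) : ℕ) ≠ 0 := by
        intro h7
        apply hw
        rw [← he0 (e.symm w) h7, Equiv.apply_symm_apply]
      show ((e.symm cur : Fin n) : ℕ) < ((e.symm w : Fin n) : ℕ)
      rw [h5]
      show 0 < ((e.symm w : Fin n) : ℕ)
      omega
    · intro w x hw hwx
      have hwl := (e.symm w).2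
      rw [cnt_eq G e ord he x _ hwl.le, cnt_eq G e ord he w _ hwl.le]
      have h6 : ((e.symm w : Fin n) : ℕ) ≠ 0 := by
        intro h7
        apply hw
        rw [← he0 (e.symm w) h7, Equiv.apply_symm_apply]
      have h7 : ord ((e.symm w : Fin n) : ℕ) = w := by
        rw [← he (e.symm w), Equiv.apply_symm_apply]
      have h8 := o6 ((e.symm w : Fin n) : ℕ) x (by omega) hwl x.2 (by
        intro k hk hkx
        have h9 : e ⟨k, by omega⟩ = x := Fin.ext hkx
        have h10 : e.symm x = ⟨k, by omega⟩ := by rw [← h9, Equiv.symm_apply_apply]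
        have h11 : ((e.symm x : Fin n) : ℕ) = k := congrArg Fin.val h10
        have h12 : ((e.symm w : Fin n) : ℕ) ≤ ((e.symm x : Fin n) : ℕ) := hwx
        omega)
      rw [h7] at h8
      exact h8
  -- the renumbered graph
  let G' : SimpleGraph (Fin n) := G.comap e
  have hG' : G'.Connected := (SimpleGraph.Iso.comap e G).connected_iff.2 hG
  have hgm : ∀ i j, i < n → j < n → gm G' i j = gm G (ord i) (ord j) := by
    intro i j hi hj
    have h5 : gm G' i j = 1 ↔ gm G (ord i) (ord j) = 1 := by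
      have h6 := gm_fin (G := G') ⟨i, hi⟩ ⟨j, hj⟩
      have h7 := gm_fin (G := G) (e ⟨i, hi⟩) (e ⟨j, hj⟩)
      rw [he, he] at h7
      exact h6.trans h7.symm
    have h6 := gm_le G' i j
    have h7 := gm_le G (ord i) (ord j)
    by_cases h8 : gm G' i j = 1
    · rw [h8, h5.1 h8]
    · have h9 : gm G (ord i) (ord j) ≠ 1 := fun h10 => h8 (h5.2 h10)
      omega
  have hR' : ∀ z : Fin n, (z : ℕ) = 0 → RPO G' (fun i => (i : ℕ)) z :=
    fun z hz => rpo_comap G e cur z (he0 z hz) hR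
  -- the stores
  have s1A : Has2 n (run n A cMcs σ) aA (gm G) := by
    intro i j hi hj
    rw [run_frame cMcs σ aA (by decide)]
    exact hA i j hi hj
  have s2A := h2 n A (run n A cMcs σ) (gm G) ord s1A o1 o4
  have s2A' : Has2 n (run n A cRen (run n A cMcs σ)) aA (gm G') := by
    intro i j hi hj
    rw [s2A i j hi hj, hgm i j hi hj]
  -- first neighbours
  have hex : ∀ w : ℕ, ∃ f : ℕ, 0 < w → ∀ hw : w < n, ∃ hf : f < n,
      IsFst G'.Adj (fun i => (i : ℕ)) ⟨f, hf⟩ ⟨w, hw⟩ := by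
    intro w
    by_cases h5 : 0 < w ∧ w < n
    · have h6 : (⟨w, h5.2⟩ : Fin n) ≠ ⟨0, hn⟩ := by
        intro h7
        have h8 : w = 0 := congrArg Fin.val h7
        omega
      obtain ⟨f, hf⟩ := exists_isFst ((hR' ⟨0, hn⟩ rfl).ex _ h6)
      exact ⟨f, fun _ _ => ⟨f.2, hf⟩⟩
    · exact ⟨0, fun h6 h7 => absurd ⟨h6, h7⟩ h5⟩
  choose fst hfst using hex
  let lev : ℕ → ℕ := fun w => if hw : w < n then G'.dist ⟨0, hn⟩ ⟨w, hw⟩ else 0
  have hlev : ∀ w (hw : w < n), lev w = G'.dist ⟨0, hn⟩ ⟨w, hw⟩ := fun w hw => dif_pos hw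
  -- the old vertex zero
  have hold : run n A cRen (run n A cMcs σ) aNum 0 0 = ((e.symm ⟨0, hn⟩ : Fin n) : ℕ) := by
    rw [run_frame cRen (run n A cMcs σ) aNum (by decide)]
    have h5 := o5 _ (e.symm ⟨0, hn⟩).2
    have h6 : ord ((e.symm ⟨0, hn⟩ : Fin n) : ℕ) = 0 := by
      rw [← he (e.symm ⟨0, hn⟩), Equiv.apply_symm_apply]
    rw [h6] at h5
    exact h5
  obtain ⟨f1, f2, f3⟩ := h3 n A (run n A cRen (run n A cMcs σ)) (gm G') fst lev
    ((e.symm ⟨0, hn⟩ : Fin n) : ℕ) hn s2A'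
    (by
      intro w h5 h6
      obtain ⟨hf, h7, h8⟩ := hfst w h5 h6
      refine ⟨h7.2, (gm_fin (G := G') ⟨w, h6⟩ ⟨fst w, hf⟩).2 h7.1.symm, ?_⟩
      intro j hj h9
      by_cases hjw : j < w
      · exact h8 ⟨j, hj⟩ ⟨((gm_fin (G := G') ⟨w, h6⟩ ⟨j, hj⟩).1 h9).symm, hjw⟩
      · have h10 : fst w < w := h7.2
        omega)
    (by
      rw [hlev 0 hn]
      exact SimpleGraph.dist_self)
    (by
      intro w h5 h6
      obtain ⟨hf, h7⟩ := hfst w h5 h6
      rw [hlev w h6, hlev (fst w) hf]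
      exact (hR' ⟨0, hn⟩ rfl).dist_fst hG' h7)
    hold (e.symm ⟨0, hn⟩).2
  have hrun : run n A cSweep σ = run n A cFar (run n A cRen (run n A cMcs σ)) := rfl
  refine ⟨e, G', ⟨_, f1⟩, fun i j => Iff.rfl, ?_, ?_, ?_⟩
  · intro z hz
    have hz' : z = ⟨0, hn⟩ := Fin.ext hz
    subst hz'
    refine ⟨he0 _ rfl, hR' _ rfl, ?_, ?_⟩
    · intro w
      have h5 := f2 w w.2
      rw [hlev w w.2, hlev _ f1] at h5
      exact h5
    · intro h5
      apply Fin.ext
      apply f3
      rw [hlev _ f1, hlev _ (e.symm ⟨0, hn⟩).2]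
      exact h5
  · rw [hrun]
    intro i j hi hj
    rw [run_frame cFar _ aA (by decide)]
    exact s2A' i j hi hj
  · rw [hrun]

end Pool.Agent.BDC
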