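import Pool.Agent.BDC.TargetsA

/-!
# BDC: all tables
-/

namespace Pool.Agent.BDC

open N Prog

namespace TABS

lemma has1 {n : ℕ} {σ σ' : Store} {k : ℕ} {f : ℕ → ℕ} (h : Has1 n σ k f) (e : σ' k = σ k) :
    Has1 n σ' k f := fun i hi => by rw [e]; exact h i hi

lemma has2 {n : ℕ} {σ σ' : Store} {k : ℕ} {f : ℕ → ℕ → ℕ} (h : Has2 n σ k f) (e : σ' k = σ k) :
    Has2 n σ' k f := fun i j hi hj => by rw [e]; exact h i j hi hj

lemma hasP {n : ℕ} {σ σ' : Store} {k : ℕ} {U : ℕ → Prop} (h : HasP n σ k U) (e : σ' k = σ k) :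
    HasP n σ' k U := fun i hi => by rw [e]; exact h i hi

lemma depF_lt {n : ℕ} {b d : ℕ → ℕ → ℕ} {U : ℕ → Prop} (hg : NGraph n b d) (hU : GoodN n b U)
    (w : ℕ) (hw : w < n) : depF U d w < n := by
  have hne : {k | ∃ x, U x ∧ d w x = k}.Nonempty := ⟨d w 0, 0, hU.u0, rfl⟩
  obtain ⟨x, hx, hx2⟩ := Nat.sInf_mem hne
  unfold depF
  rw [← hx2]
  exact hg.lt w x hw (hU.ult x hx)

end TABS

open TABS in
theorem p_TABS (l1 : T_LFST) (l2 : T_LPOS) (l3 : T_LDS) (l4 : T_LDIN) (l5 : T_LDEP) (l6 : T_LZ)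
    (l7 : T_LHIT) (l8 : T_LOK) (l9 : T_LIV) (t1 : T_TDS) (t2 : T_TDIN) (t3 : T_TDEP)
    (t4 : T_TCOL) (t5 : T_TZ) (t6 : T_TCT) (t7 : T_TIV) : T_TABS := by
  intro n A σ b d U hn hg hU hB hUU
  unfold part3
  simp only [run_seq]
  set σ1 := run n A cFst σ with h1
  set σ2 := run n A cPos σ1 with h2
  set σ3 := run n A cDs σ2 with h3
  set σ4 := run n A cDin σ3 with h4
  set σ5 := run n A cDep σ4 with h5
  set σ6 := run n A (cZ .c0) σ5 with h6
  set σ7 := run n A (cZ .c1) σ6 with h7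
  set σ8 := run n A cHits σ7 with h8
  set σ9 := run n A (cOk .c0) σ8 with h9
  set σ10 := run n A (cOk .c1) σ9 with h10
  set σ11 := run n A (cIv .c0) σ10 with h11
  set σ12 := run n A (cIv .c1) σ11 with h12
  have F1 : ∀ k, k ∉ mods cFst → σ1 k = σ k := fun k hk => run_frame _ _ _ hk
  have F2 : ∀ k, k ∉ mods cPos → σ2 k = σ1 k := fun k hk => run_frame _ _ _ hk
  have F3 : ∀ k, k ∉ mods cDs → σ3 k = σ2 k := fun k hk => run_frame _ _ _ hk
  have F4 : ∀ k, k ∉ mods cDin → σ4 k = σ3 k := fun k hk => run_frame _ _ _ hk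
  have F5 : ∀ k, k ∉ mods cDep → σ5 k = σ4 k := fun k hk => run_frame _ _ _ hk
  have F6 : ∀ k, k ∉ mods (cZ .c0) → σ6 k = σ5 k := fun k hk => run_frame _ _ _ hk
  have F7 : ∀ k, k ∉ mods (cZ .c1) → σ7 k = σ6 k := fun k hk => run_frame _ _ _ hk
  have F8 : ∀ k, k ∉ mods cHits → σ8 k = σ7 k := fun k hk => run_frame _ _ _ hk
  have F9 : ∀ k, k ∉ mods (cOk .c0) → σ9 k = σ8 k := fun k hk => run_frame _ _ _ hk
  have F10 : ∀ k, k ∉ mods (cOk .c1) → σ10 k = σ9 k := fun k hk => run_frame _ _ _ hk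
  have F11 : ∀ k, k ∉ mods (cIv .c0) → σ11 k = σ10 k := fun k hk => run_frame _ _ _ hk
  have F12 : ∀ k, k ∉ mods (cIv .c1) → σ12 k = σ11 k := fun k hk => run_frame _ _ _ hk
  -- the graph matrix
  have B1 := has2 hB (F1 aB (by decide))
  have B2 := has2 B1 (F2 aB (by decide))
  have B3 := has2 B2 (F3 aB (by decide))
  have B4 := has2 B3 (F4 aB (by decide))
  have B5 := has2 B4 (F5 aB (by decide))
  have B6 := has2 B5 (F6 aB (by decide))
  have B7 := has2 B6 (F7 aB (by decide))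
  have B8 := has2 B7 (F8 aB (by decide))
  have B9 := has2 B8 (F9 aB (by decide))
  have B10 := has2 B9 (F10 aB (by decide))
  have B11 := has2 B10 (F11 aB (by decide))
  -- the path
  have U1 := hasP hUU (F1 aU (by decide))
  have U2 := hasP U1 (F2 aU (by decide))
  have U3 := hasP U2 (F3 aU (by decide))
  have U4 := hasP U3 (F4 aU (by decide))
  have U5 := hasP U4 (F5 aU (by decide))
  have U6 := hasP U5 (F6 aU (by decide))
  have U7 := hasP U6 (F7 aU (by decide))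
  have U8 := hasP U7 (F8 aU (by decide))
  have U9 := hasP U8 (F9 aU (by decide))
  have U10 := hasP U9 (F10 aU (by decide))
  have U11 := hasP U10 (F11 aU (by decide))
  have U12 := hasP U11 (F12 aU (by decide))
  have hU0 := hU.u0
  -- stage 1
  obtain ⟨L1a, L1b⟩ := l1 n A σ b hn hB
  rw [← h1] at L1a L1b
  set fst : ℕ → ℕ := fun w => σ1 aFst w 0 with hfst
  set par : ℕ → ℕ := fun w => σ1 aPar w 0 with hpar
  have hex : ∀ w, 0 < w → w < n → ∃ j, j < w ∧ b w j = 1 := fun w hw0 hwn => by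
    obtain ⟨y, hy, hy2⟩ := hU.ord.ex w hw0 hwn
    exact ⟨y, hy, hg.sym _ _ hy2⟩
  have P1 : Has1 n σ1 aFst fst := fun _ _ => rfl
  have P2 := has1 P1 (F2 aFst (by decide))
  have P3 := has1 P2 (F3 aFst (by decide))
  have P4 := has1 P3 (F4 aFst (by decide))
  have P5 := has1 P4 (F5 aFst (by decide))
  have P6 := has1 P5 (F6 aFst (by decide))
  have P7 := has1 P6 (F7 aFst (by decide))
  have P8 := has1 P7 (F8 aFst (by decide))
  have P9 := has1 P8 (F9 aFst (by decide))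
  have P10 := has1 P9 (F10 aFst (by decide))
  have P11 := has1 P10 (F11 aFst (by decide))
  have R1 : Has1 n σ1 aPar par := fun _ _ => rfl
  have R2 := has1 R1 (F2 aPar (by decide))
  have R3 := has1 R2 (F3 aPar (by decide))
  -- stage 2
  obtain ⟨L2a, L2b, L2c⟩ := l2 n A σ1 b U fst hn B1 U1 hU0 P1 L1a
  rw [← h2] at L2a L2b L2c
  set pos : ℕ → ℕ := fun w => σ2 aPos w 0 with hpos
  set rt : ℕ → ℕ := fun w => σ2 aRt w 0 with hrt
  set ys : ℕ → ℕ := fun w => σ2 aYs w 0 with hys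
  have tab : Tab n b U fst par pos rt ys :=
    { hfst := fun w h0 hw => (L1b w h0 hw (hex w h0 hw)).1
      hfst0 := L1a
      hpar := fun w h0 hw => (L1b w h0 hw (hex w h0 hw)).2
      hpos := L2a
      hrt := L2b
      hys := L2c }
  have wd : World n b d U fst par pos rt ys := ⟨hg, hU, tab⟩
  have O2 : Has1 n σ2 aPos pos := fun _ _ => rfl
  have O3 := has1 O2 (F3 aPos (by decide))
  have O4 := has1 O3 (F4 aPos (by decide))
  have O5 := has1 O4 (F5 aPos (by decide))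
  have O6 := has1 O5 (F6 aPos (by decide))
  have O7 := has1 O6 (F7 aPos (by decide))
  have O8 := has1 O7 (F8 aPos (by decide))
  have O9 := has1 O8 (F9 aPos (by decide))
  have O10 := has1 O9 (F10 aPos (by decide))
  have O11 := has1 O10 (F11 aPos (by decide))
  have Y2 : Has1 n σ2 aYs ys := fun _ _ => rfl
  have Y3 := has1 Y2 (F3 aYs (by decide))
  have Y4 := has1 Y3 (F4 aYs (by decide))
  have Y5 := has1 Y4 (F5 aYs (by decide))
  have Y6 := has1 Y5 (F6 aYs (by decide))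
  have Y7 := has1 Y6 (F7 aYs (by decide))
  have Y8 := has1 Y7 (F8 aYs (by decide))
  have Y9 := has1 Y8 (F9 aYs (by decide))
  have Y10 := has1 Y9 (F10 aYs (by decide))
  have Y11 := has1 Y10 (F11 aYs (by decide))
  -- stage 3
  have D3 := l3 n A σ2 b U fst ys d hn B2 U2 hU0 P2 Y2 (t1 n b d U fst par pos rt ys wd)
  rw [← h3] at D3
  have D3' : ∀ p w, p < n → w < n → U p → σ3 aDs p w = d p w := fun p w hp hw hpU =>
    D3 p w hpU hp hw
  have dfr : ∀ {τ τ' : Store}, (∀ p w, p < n → w < n → U p → τ aDs p w = d p w) →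
      τ' aDs = τ aDs → ∀ p w, p < n → w < n → U p → τ' aDs p w = d p w :=
    fun h e p w hp hw hpU => by rw [e]; exact h p w hp hw hpU
  have D4 := dfr D3' (F4 aDs (by decide))
  have D5 := dfr D4 (F5 aDs (by decide))
  have D6 := dfr D5 (F6 aDs (by decide))
  have D7 := dfr D6 (F7 aDs (by decide))
  have D8 := dfr D7 (F8 aDs (by decide))
  have D9 := dfr D8 (F9 aDs (by decide))
  have D10 := dfr D9 (F10 aDs (by decide))
  have D11 := dfr D10 (F11 aDs (by decide))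
  have D12 := dfr D11 (F12 aDs (by decide))
  -- stage 4
  obtain ⟨N4, E4⟩ := l4 n A σ3 b fst par (dinF n b d) hn B3 P3 R3
    (t2 n b d U fst par pos rt ys wd)
  rw [← h4] at N4 E4
  have N5 := has2 N4 (F5 aDin (by decide))
  have N6 := has2 N5 (F6 aDin (by decide))
  have N7 := has2 N6 (F7 aDin (by decide))
  have N8 := has2 N7 (F8 aDin (by decide))
  have N9 := has2 N8 (F9 aDin (by decide))
  set ec : ℕ → ℕ := fun y => σ4 aEc y 0 with hec
  have C4 : Has1 n σ4 aEc ec := fun _ _ => rfl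
  have C5 := has1 C4 (F5 aEc (by decide))
  have C6 := has1 C5 (F6 aEc (by decide))
  have ecle : ∀ x, x < n → ec x ≤ n := fun x hx => by
    rcases (E4 x hx).2 with h | ⟨w, _, hw2, hw3⟩
    · change σ4 aEc x 0 ≤ n
      omega
    · change σ4 aEc x 0 ≤ n
      omega
  -- stage 5
  obtain ⟨g, recdep, isg⟩ := t3 n b d U fst par pos rt ys wd
  set dep : ℕ → ℕ := depF U d with hdep
  have hposU : ∀ w, w < n → U w → pos w = w := fun w hw hwU =>
    le_antisymm (L2a w hw).2.1 ((L2a w hw).2.2 w hwU le_rfl)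
  obtain ⟨Q5, G5, HW⟩ := l5 n A σ4 b U fst pos dep g hn B4 U4 hU0 P4 O4
    (fun w hw => ⟨(L2a w hw).1, (L2a w hw).2.1⟩) hposU recdep
  rw [← h5] at Q5 G5 HW
  have Q6 := has1 Q5 (F6 aDep (by decide))
  have Q7 := has1 Q6 (F7 aDep (by decide))
  have Q8 := has1 Q7 (F8 aDep (by decide))
  have Q9 := has1 Q8 (F9 aDep (by decide))
  have Q10 := has1 Q9 (F10 aDep (by decide))
  have Q11 := has1 Q10 (F11 aDep (by decide))
  have G6 := has1 G5 (F6 aG (by decide))
  have G7 := has1 G6 (F7 aG (by decide))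
  set h : ℕ → ℕ := fun p => σ5 aH p 0 with hh
  set wo : ℕ → ℕ := fun p => σ5 aWo p 0 with hwo
  have hle : ∀ p, p < n → U p → h p ≤ n := fun p hp hpU => by
    rcases (HW p hp hpU).1.2 with h0 | ⟨w, hw, _, hw2⟩
    · change σ5 aH p 0 ≤ n
      omega
    · change σ5 aH p 0 ≤ n
      rw [← hw2]; exact recdep.le w hw
  have wolt : ∀ p, p < n → U p → wo p < n := fun p hp hpU => by
    rcases (HW p hp hpU).2 with ⟨h0, _⟩ | ⟨h0, _⟩
    · change σ5 aWo p 0 < n
      omega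
    · exact h0
  have posn : ∀ w, w < n → pos w < n := fun w hw => lt_of_le_of_lt (L2a w hw).2.1 hw
  -- stage 6
  obtain ⟨Z6, Z6'⟩ := l6 n A σ5 U (dinF n b d) dep ec h wo 0 .c0 (Or.inl ⟨rfl, rfl⟩) hn U5 hU0
    N5 Q5 C5 ecle (fun p hp hpU => ⟨rfl, rfl, wolt p hp hpU, hle p hp hpU⟩)
  rw [← h6] at Z6 Z6'
  -- stage 7
  obtain ⟨Z7, Z7'⟩ := l6 n A σ6 U (dinF n b d) dep ec h wo 1 .c1 (Or.inr ⟨rfl, rfl⟩) hn U6 hU0
    N6 Q6 C6 ecle (fun p hp hpU => ⟨by rw [F6 aH (by decide)], by rw [F6 aWo (by decide)],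
      wolt p hp hpU, hle p hp hpU⟩)
  rw [← h7] at Z7 Z7'
  set Z : ℕ → ℕ → ℕ := fun k p => σ7 aZ k p with hZ
  have w2 : World2 n b d U fst par pos rt ys g ec h wo Z :=
    { wd := wd
      isg := isg
      hec := E4
      hh := fun p hp hpU => (HW p hp hpU).1
      hwo := fun p hp hpU => (HW p hp hpU).2
      hz := fun k p hk hp hpU => by
        have hk' : k = 0 ∨ k = 1 := by omega
        rcases hk' with rfl | rfl
        · have := Z6 p hp hpU
          rw [← Z7' 0 p (by decide)] at this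
          exact this
        · exact Z7 p hp hpU }
  have tz := t5 n b d U fst par pos rt ys g ec h wo Z w2
  have H7 : ∀ p, p < n → U p → σ7 aH p 0 = h p ∧ h p ≤ n := fun p hp hpU => by
    rw [F7 aH (by decide), F6 aH (by decide)]; exact ⟨rfl, hle p hp hpU⟩
  have hfr : ∀ {τ τ' : Store}, (∀ p, p < n → U p → τ aH p 0 = h p ∧ h p ≤ n) →
      τ' aH = τ aH → ∀ p, p < n → U p → τ' aH p 0 = h p ∧ h p ≤ n :=
    fun h e p hp hpU => by rw [e]; exact h p hp hpU
  have H8 := hfr H7 (F8 aH (by decide))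
  have H9 := hfr H8 (F9 aH (by decide))
  have H10 := hfr H9 (F10 aH (by decide))
  have H11 := hfr H10 (F11 aH (by decide))
  -- stage 8
  have L8 := l7 n A σ7 b U pos dep g h Z hn B7 U7 hU0 O7 Q7 G7 isg.lt
    (fun w hw => ⟨recdep.le w hw, posn w hw⟩) H7
    (fun k p hk hp hpU => ⟨rfl, (tz k p hk hp hpU).1⟩)
  rw [← h8] at L8
  set HR : ℕ → ℕ := fun w => σ8 aHR w 0 with hHR
  set HL : ℕ → ℕ := fun w => σ8 aHL w 0 with hHL
  have K10 : ∀ w, w < n → ¬ U w → σ10 aHR w 0 = HR w ∧ σ10 aHL w 0 = HL w := fun w _ _ => by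
    rw [F10 aHR (by decide), F10 aHL (by decide), F9 aHR (by decide), F9 aHL (by decide)]
    exact ⟨rfl, rfl⟩
  have K11 : ∀ w, w < n → ¬ U w → σ11 aHR w 0 = HR w ∧ σ11 aHL w 0 = HL w := fun w hw hwU => by
    rw [F11 aHR (by decide), F11 aHL (by decide)]
    exact K10 w hw hwU
  have posUn : ∀ w, w < n → U (pos w) ∧ pos w < n := fun w hw => ⟨(L2a w hw).1, posn w hw⟩
  -- stage 9, 10
  obtain ⟨V9, V9'⟩ := l8 n A σ8 b U pos h Z d (dinF n b d) 0 .c0 (Or.inl ⟨rfl, rfl⟩) hn B8 U8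
    O8 posUn H8 (fun p hp hpU => ⟨by rw [F8 aZ (by decide)],
      (tz 0 p (by decide) hp hpU).1⟩) D8 N8
  rw [← h9] at V9 V9'
  obtain ⟨V10, V10'⟩ := l8 n A σ9 b U pos h Z d (dinF n b d) 1 .c1 (Or.inr ⟨rfl, rfl⟩) hn B9 U9
    O9 posUn H9 (fun p hp hpU => ⟨by rw [F9 aZ (by decide), F8 aZ (by decide)],
      (tz 1 p (by decide) hp hpU).1⟩) D9 N9
  rw [← h10] at V10 V10'
  set okp : ℕ → ℕ → ℕ := fun k p => σ10 aOkp k p with hokp
  have VV : ∀ k p, k < 2 → p < n → U p → (okp k p = 1 ↔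
      ∀ w, w < n → pos w = p → OkC b U d (dinF n b d) (Z k p) (h p - k) w) := by
    intro k p hk hp hpU
    have hk' : k = 0 ∨ k = 1 := by omega
    rcases hk' with rfl | rfl
    · rw [← V9 p hp hpU, ← V10' 0 p (by decide)]
    · exact V10 p hp hpU
  have zfy : ∀ k, k < 2 → ∀ p, p < n → U p → 0 < Z k p →
      fst (Z k p) < n ∧ U (fst (Z k p)) ∧ ys (Z k p) < n ∧ U (ys (Z k p)) := by
    intro k hk p hp hpU hzp
    obtain ⟨a1, a2⟩ := tz k p hk hp hpU
    obtain ⟨a3, a4, a5, a6⟩ := a2 hzp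
    have a7 := tab.hys (Z k p) a1
    exact ⟨L1a _ a1, a5, a7.1, (a7.2 a5 (tab.hfst _ hzp a1).2.1).1⟩
  -- stage 11, 12
  obtain ⟨W11, W11'⟩ := l9 n A σ10 b U fst ys pos dep h HR HL Z okp d 0 .c0
    (Or.inl ⟨rfl, rfl⟩) hn B10 U10 P10 Y10 O10 Q10 K10 recdep.le H10
    (fun p hp hpU => ⟨by rw [F10 aZ (by decide), F9 aZ (by decide), F8 aZ (by decide)],
      (tz 0 p (by decide) hp hpU).1, rfl⟩) D10 (zfy 0 (by decide))
  rw [← h11] at W11 W11'
  obtain ⟨W12, W12'⟩ := l9 n A σ11 b U fst ys pos dep h HR HL Z okp d 1 .c1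
    (Or.inr ⟨rfl, rfl⟩) hn B11 U11 P11 Y11 O11 Q11 K11 recdep.le H11
    (fun p hp hpU => ⟨by
        rw [F11 aZ (by decide), F10 aZ (by decide), F9 aZ (by decide), F8 aZ (by decide)],
      (tz 1 p (by decide) hp hpU).1, by rw [F11 aOkp (by decide)]⟩) D11 (zfy 1 (by decide))
  rw [← h12] at W12 W12'
  have WW : ∀ k p, k < 2 → p < n → U p →
      (¬ (0 < Z k p ∧ 0 < h p - k ∧ okp k p = 1) → σ12 aRZ k p = 0) ∧
      ((0 < Z k p ∧ 0 < h p - k ∧ okp k p = 1) → σ12 aRZ k p = h p - k ∧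
        σ12 aLZ k p ≤ p ∧ p < σ12 aUZ k p ∧ σ12 aUZ k p ≤ n ∧
        (∀ w, σ12 aLZ k p ≤ w → w < p → Tst b U fst ys dep HR HL d p (Z k p) (h p - k) w) ∧
        (∀ w, p < w → w < σ12 aUZ k p →
          pos w = p ∨ Tst b U fst ys dep HR HL d p (Z k p) (h p - k) w) ∧
        (σ12 aLZ k p = 0 ∨
          ¬ Tst b U fst ys dep HR HL d p (Z k p) (h p - k) (σ12 aLZ k p - 1)) ∧
        (σ12 aUZ k p = n ∨ ¬ (pos (σ12 aUZ k p) = p ∨
            Tst b U fst ys dep HR HL d p (Z k p) (h p - k) (σ12 aUZ k p)))) := by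
    intro k p hk hp hpU
    have hk' : k = 0 ∨ k = 1 := by omega
    rcases hk' with rfl | rfl
    · obtain ⟨e1, e2, e3⟩ := W12' 0 p (by decide)
      rw [e1, e2, e3]
      exact W11 p hp hpU
    · exact W12 p hp hpU
  have tiv := t7 n b d U fst par pos rt ys g ec h wo HR HL Z w2
    (fun w hw hwU p hp => L8 w hw hwU p hp)
  refine ⟨fun k p => σ12 aLZ k p, fun k p => σ12 aUZ k p, fun k p => σ12 aRZ k p, U12, D12,
    ?_, ?_⟩
  · intro k p hk hp hpU
    refine ⟨rfl, rfl, rfl, ?_⟩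
    change 0 < σ12 aRZ k p → σ12 aLZ k p ≤ p ∧ p < σ12 aUZ k p ∧ σ12 aUZ k p ≤ n ∧
      σ12 aRZ k p ≤ n ∧ ∃ c, c < n ∧ ∀ w, σ12 aLZ k p ≤ w → w < σ12 aUZ k p →
        d c w ≤ σ12 aRZ k p
    intro hpos
    by_cases hc : 0 < Z k p ∧ 0 < h p - k ∧ okp k p = 1
    · obtain ⟨c1, c2, c3, c4, c5, c6, c7, c8⟩ := (WW k p hk hp hpU).2 hc
      have hok := (VV k p hk hp hpU).mp hc.2.2
      obtain ⟨s1, _⟩ := tiv k p hk hp hpU hc.1 hc.2.1 hok _ _ c2 c3 c4 c5 c6 c7 c8
      refine ⟨c2, c3, c4, ?_, Z k p, (tz k p hk hp hpU).1, ?_⟩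
      · rw [c1]; have := hle p hp hpU; omega
      · rw [c1]; exact s1
    · have := (WW k p hk hp hpU).1 hc
      omega
  · intro i j c q r hi hj hij hjn hic hcj hcU hqU hiq hqj hcq hr hcov
    have hcn : c < n := lt_of_lt_of_le hcj hjn
    rcases t6 n b d U fst par pos rt ys g ec h wo Z w2 i j c q r hi hj hij hjn hic hcj hcU hqU
      hiq hqj hcq hr hcov with ⟨a, ha1, ha2, ha3, ha4⟩ | ⟨k, hk, hk2, hk3, hk4⟩
    · exact Or.inl ⟨a, ha1, ha2, ha3, hjn, hr, ha4⟩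
    · set p := pos c with hp
      have hpn : p < n := posn c hcn
      have hpU : U p := (L2a c hcn).1
      have hip : i ≤ p := (L2a c hcn).2.2 i hi hic
      have hpc : p ≤ c := (L2a c hcn).2.1
      have hpj : p < j := lt_of_le_of_lt hpc hcj
      have hrk : h p - k = r := by omega
      have hrn : r < n := by
        rcases (HW p hpn hpU).1.2 with h0 | ⟨w, hw, _, hw2⟩
        · have h0' : h p = 0 := h0
          omega
        · have h0' : dep w = h p := hw2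
          have := depF_lt hg hU w hw
          rw [← hdep] at this
          omega
      obtain ⟨a1, a2⟩ := tz k p hk hpn hpU
      obtain ⟨a3, a4, a5, a6⟩ := a2 hk3
      have hok : ∀ w, w < n → pos w = p → OkC b U d (dinF n b d) (Z k p) (h p - k) w := by
        intro w hw hwp
        rw [hrk]
        refine (t4 n b d U fst par pos rt ys wd (Z k p) r w a1 hw hrn a3 a5).mpr ?_
        refine hk4 w ?_ ?_
        · have := (L2a w hw).2.1
          have e : pos w = p := hwp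
          change pos w ≤ w at this
          omega
        · rcases hj with hj | hj
          · omega
          · by_contra hcon
            push Not at hcon
            have := (L2a w hw).2.2 j hj hcon
            change j ≤ pos w at this
            omega
      have hc : 0 < Z k p ∧ 0 < h p - k ∧ okp k p = 1 :=
        ⟨hk3, by omega, (VV k p hk hpn hpU).mpr hok⟩
      obtain ⟨c1, c2, c3, c4, c5, c6, c7, c8⟩ := (WW k p hk hpn hpU).2 hc
      obtain ⟨_, s2⟩ := tiv k p hk hpn hpU hc.1 hc.2.1 hok _ _ c2 c3 c4 c5 c6 c7 c8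
      obtain ⟨s3, s4⟩ := s2 i j hi hj hip hpj hjn (by rw [hrk]; exact hk4)
      exact Or.inr ⟨p, k, hpU, hpn, hk, by omega, by rw [← hrk]; exact c1, s3, hip, hpj, s4⟩

end Pool.Agent.BDC
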