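import Pool.Agent.BDC.TargetsN

/-!
# BDC: coverage inside a column
-/

namespace Pool.Agent.BDC

namespace TCOL

variable {n : ℕ} {b d : ℕ → ℕ → ℕ}

/-- a geodesic from `z` to a vertex which is not a descendant of `z` starts downwards -/
theorem down (hg : NGraph n b d) (ho : NatOrd n b) : ∀ (m : ℕ) (z k w : ℕ), z < n → w < n →
    d z w ≤ m → ¬ Anc (Ad b) (fun i => i) z w → b z k = 1 → d k w + 1 = d z w → k < z := by
  intro m
  induction m with
  | zero => intro z k w _ _ hm _ _ hk; omega
  | succ m ih =>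
    intro z k w hz hw hm hanc hzk hk
    by_contra hcon
    have hne : z ≠ k := by
      rintro rfl
      exact hg.irr z hzk
    have hlt : z < k := by omega
    have hkn : k < n := (hg.dom _ _ hzk).2
    have h1 : Er (Ad b) (fun i => i) z k := ⟨hzk, hlt⟩
    have h2 : ¬ Anc (Ad b) (fun i => i) k w := fun h => hanc (h1.anc.trans h)
    have hkw : k ≠ w := by
      rintro rfl
      exact h2 Anc.refl
    obtain ⟨k', hk', hk2⟩ := hg.step k w hkn hw hkw
    have h3 := ih k k' w hkn hw (by omega) h2 hk' hk2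
    have h4 : z ≠ k' := by
      rintro rfl
      omega
    have h5 : b z k' = 1 := ho.clq k z k' hzk (hg.sym _ _ hk') hlt h3 h4
    have h6 := hg.tri z k' w hz (hg.dom _ _ hk').2 hw
    rw [hg.adj _ _ h5] at h6
    omega

/-- two descents: the first neighbour is as good -/
theorem two (hg : NGraph n b d) (ho : NatOrd n b) {z k k' w f : ℕ} (hw : w < n)
    (hf : b z f = 1) (hfz : f < z) (hmin : ∀ j, j < n → b z j = 1 → f ≤ j)
    (hzk : b z k = 1) (hkz : k < z) (hkk : b k k' = 1) (hk'k : k' < k)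
    (h : d k' w + 2 = d z w) : d f w + 1 ≤ d z w := by
  have hkn := (hg.dom _ _ hzk).2
  have hk'n := (hg.dom _ _ hkk).2
  have hfn := (hg.dom _ _ hf).2
  have hfk := hmin k hkn hzk
  rcases Nat.eq_or_lt_of_le hfk with h1 | h1
  · subst h1
    have h2 := hg.tri f k' w hfn hk'n hw
    rw [hg.adj _ _ hkk] at h2
    omega
  · have h2 : b f k = 1 := ho.clq z f k (hg.sym _ _ hf) (hg.sym _ _ hzk) hfz hkz (by omega)
    by_cases h3 : f = k'
    · subst h3
      omega
    · have h4 : b f k' = 1 := ho.clq k f k' h2 (hg.sym _ _ hkk) h1 hk'k h3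
      have h5 := hg.tri f k' w hfn hk'n hw
      rw [hg.adj _ _ h4] at h5
      omega

theorem dinF_anc {y w : ℕ} (hw : w < n) (h : Anc (Ad b) (fun i => i) y w) :
    dinF n b d y w = d y w := by
  unfold dinF
  exact if_pos ⟨hw, h⟩

theorem dinF_lt {y w : ℕ} (h : dinF n b d y w < n) : dinF n b d y w = d y w := by
  classical
  by_cases h1 : w < n ∧ Anc (Ad b) (fun i => i) y w
  · exact dinF_anc h1.1 h1.2
  · unfold dinF at h
    rw [if_neg h1] at h
    exact absurd h (lt_irrefl _)

end TCOL

open TCOL in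
theorem p_TCOL : T_TCOL := by
  intro n b d U fst par pos rt ys hW z r w hz hw hr hUz hUf
  obtain ⟨hg, hgood, htab⟩ := hW
  have ho := hgood.ord
  have hz0 : 0 < z := by
    rcases Nat.eq_zero_or_pos z with h | h
    · subst h
      exact absurd hgood.u0 hUz
    · exact h
  obtain ⟨hf1, hf2, hf3⟩ := htab.hfst z hz0 hz
  constructor
  · rintro ⟨-, h | ⟨y, hy, hzy, ⟨-, h⟩ | ⟨-, h⟩⟩⟩
    · rw [dinF_lt (lt_of_le_of_lt h hr)] at h
      exact h
    · have h1 := hg.tri z y w hz (hg.dom _ _ hzy).2 hw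
      rw [hg.adj _ _ hzy] at h1
      omega
    · rw [dinF_lt (h.trans hr)] at h
      have h1 := hg.tri z y w hz (hg.dom _ _ hzy).2 hw
      rw [hg.adj _ _ hzy] at h1
      omega
  · intro h
    refine ⟨hz0, ?_⟩
    by_cases hanc : Anc (Ad b) (fun i => i) z w
    · left
      rw [dinF_anc hw hanc]
      exact h
    · right
      have hzw : z ≠ w := by
        rintro rfl
        exact hanc Anc.refl
      obtain ⟨k, hk, hkw⟩ := hg.step z w hz hw hzw
      have hkz := down hg ho _ z k w hz hw le_rfl hanc hk hkw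
      have hkn := (hg.dom _ _ hk).2
      by_cases hUk : U k
      · exact ⟨k, hkz, hk, Or.inl ⟨hUk, by omega⟩⟩
      · by_cases hanc' : Anc (Ad b) (fun i => i) k w
        · refine ⟨k, hkz, hk, Or.inr ⟨hUk, ?_⟩⟩
          rw [dinF_anc hw hanc']
          omega
        · have hkw' : k ≠ w := by
            rintro rfl
            exact hanc' Anc.refl
          obtain ⟨k', hk', hk2⟩ := hg.step k w hkn hw hkw'
          have hkk := down hg ho _ k k' w hkn hw le_rfl hanc' hk' hk2
          have := two hg ho hw hf2 hf1 hf3 hk hkz hk' hkk (by omega)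
          exact ⟨fst z, hf1, hf2, Or.inl ⟨hUf, by omega⟩⟩

end Pool.Agent.BDC
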