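import Pool.Agent.BDC.TargetsN

/-!
# BDC: the candidate theorem (blueprint part T, T_TZ and T_TCT)
-/

namespace Pool.Agent.BDC

namespace TCT_

variable {n : ℕ} {b d : ℕ → ℕ → ℕ} {U : ℕ → Prop}

/-- ancestors -/
abbrev An (b : ℕ → ℕ → ℕ) (x w : ℕ) : Prop := Anc (Ad b) (fun i => i) x w

/-- earlier neighbours -/
abbrev E (b : ℕ → ℕ → ℕ) (y w : ℕ) : Prop := Er (Ad b) (fun i => i) y w

lemma peo (gr : NGraph n b d) (od : GoodN n b U) : PEO (Ad b) (fun i => i) where
  sym := fun x y h => gr.sym x y h
  inj := fun _ _ h => h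
  clq := fun w y z h1 h2 h3 h4 h5 => od.ord.clq w y z h1 h2 h3 h4 h5

/-- a geodesic from `c` to `v` leaves `S` through an edge -/
lemma exit (gr : NGraph n b d) (S : ℕ → Prop) : ∀ m c v, c < n → v < n → d c v = m → S c →
    ¬ S v → ∃ y e, S y ∧ ¬ S e ∧ b y e = 1 ∧ e < n ∧ d c e + d e v = d c v := by
  intro m
  induction m with
  | zero =>
    intro c v hc hv h hS hS'
    have := gr.eqz c v hc hv h
    subst this
    exact absurd hS hS'
  | succ m ih =>
    intro c v hc hv h hS hS'
    have hne : c ≠ v := by rintro rfl; exact hS' hS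
    obtain ⟨k, h1, h2⟩ := gr.step c v hc hv hne
    have hk := (gr.dom c k h1).2
    have h3 := gr.adj c k h1
    by_cases hSk : S k
    · obtain ⟨y, e, a1, a2, a3, a4, a5⟩ := ih k v hk hv (by omega) hSk hS'
      refine ⟨y, e, a1, a2, a3, a4, ?_⟩
      have t1 := gr.tri c k e hc hk a4
      have t2 := gr.tri c e v hc a4 hv
      omega
    · exact ⟨c, k, hS, hSk, h1, hk, by omega⟩

/-- the bottom of a geodesic -/
lemma bottom (gr : NGraph n b d) (od : GoodN n b U) : ∀ m x y, x < n → y < n → d x y = m →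
    ∃ z, z < n ∧ d x z + d z y = d x y ∧ An b z x ∧ An b z y := by
  intro m
  induction m with
  | zero =>
    intro x y hx hy h
    have := gr.eqz x y hx hy h
    subst this
    exact ⟨x, hx, by rw [gr.zero x hx], Anc.refl, Anc.refl⟩
  | succ m ih =>
    intro x y hx hy h
    have hne : x ≠ y := by rintro rfl; rw [gr.zero x hx] at h; omega
    obtain ⟨x', h1, h2⟩ := gr.step x y hx hy hne
    have hx' := (gr.dom x x' h1).2
    have h3 := gr.adj x x' h1
    obtain ⟨z, hz, h4, h5, h6⟩ := ih x' y hx' hy (by omega)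
    have key : d x z + d z y = d x y := by
      have t1 := gr.tri x x' z hx hx' hz
      have t2 := gr.tri x z y hx hz hy
      omega
    have hne' : x ≠ x' := by rintro rfl; exact gr.irr x h1
    rcases lt_or_gt_of_ne hne' with hlt | hlt
    · -- up
      have hE : E b x x' := ⟨h1, hlt⟩
      rcases le_or_gt x z with hle | hgt
      · have := (peo gr od).chain' hE.anc h5 hle
        refine ⟨x, hx, ?_, Anc.refl, this.trans h6⟩
        rw [gr.zero x hx, zero_add]
      · exact ⟨z, hz, key, (peo gr od).chain' h5 hE.anc hgt.le, h6⟩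
    · exact ⟨z, hz, key, Anc.step ⟨gr.sym _ _ h1, hlt⟩ h5, h6⟩

/-- the path is closed under ancestors -/
lemma U_anc (od : GoodN n b U) {x y : ℕ} (h : An b y x) (hx : U x) : U y := by
  induction h with
  | refl => exact hx
  | step h1 _ ih => exact ih (od.uE _ _ hx h1.1 h1.2)

/-- descendants of path vertices -/
lemma anc_of_le (od : GoodN n b U) {x : ℕ} (hx : U x) : ∀ w, w < n → x ≤ w → An b x w := by
  intro w
  induction w using Nat.strong_induction_on with
  | _ w ih =>
    intro hw hxw
    rcases hxw.eq_or_lt with rfl | hlt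
    · exact Anc.refl
    · obtain ⟨y, h1, h2, h3⟩ := od.col x w hx hlt hw
      exact Anc.step ⟨h3, h2⟩ (ih y h2 (by omega) h1)

/-- the top of the branch of `c` -/
lemma top (od : GoodN n b U) : ∀ c, ¬ U c →
    ∃ t, An b t c ∧ ¬ U t ∧ ∀ e, E b e t → U e := by
  intro c
  induction c using Nat.strong_induction_on with
  | _ c ih =>
    intro hc
    by_cases h : ∀ e, E b e c → U e
    · exact ⟨c, Anc.refl, hc, h⟩
    · push Not at h
      obtain ⟨e, he, heU⟩ := h
      obtain ⟨t, h1, h2, h3⟩ := ih e he.2 heU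
      exact ⟨t, Anc.step he h1, h2, h3⟩

lemma depF_le {w x : ℕ} (hx : U x) : depF U d w ≤ d w x := Nat.sInf_le ⟨x, hx, rfl⟩

lemma depF_mem (u0 : U 0) (w : ℕ) : ∃ x, U x ∧ d w x = depF U d w :=
  Nat.sInf_mem (s := {k | ∃ x, U x ∧ d w x = k}) ⟨_, 0, u0, rfl⟩

/-- descendants lie in the same column -/
lemma pos_anc {fst par pos rt ys : ℕ → ℕ} (W : World n b d U fst par pos rt ys) {y w : ℕ}
    (hw : w < n) (hy : ¬ U y) (h : An b y w) : ¬ U w ∧ pos w = pos y := by
  have h0 : ¬ U w := fun hUw => hy (U_anc W.od h hUw)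
  have hyw : y ≤ w := h.le
  obtain ⟨a1, a2, a3⟩ := W.tb.hpos w hw
  obtain ⟨b1, b2, b3⟩ := W.tb.hpos y (by omega)
  refine ⟨h0, le_antisymm ?_ (a3 _ b1 (by omega))⟩
  apply b3 _ a1
  by_contra hc
  have h1 := anc_of_le W.od a1 w hw a2
  have h2 := (peo W.gr W.od).chain' h h1 (by omega)
  exact hy (U_anc W.od h2 a1)

lemma dinF_anc {y w : ℕ} (h : dinF n b d y w < n) :
    w < n ∧ An b y w ∧ dinF n b d y w = d y w := by
  classical
  unfold dinF at h ⊢
  by_cases hc : w < n ∧ Anc (Ad b) (fun i => i) y w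
  · rw [if_pos hc]; exact ⟨hc.1, hc.2, rfl⟩
  · rw [if_neg hc] at h; omega

lemma dinF_of_anc {y w : ℕ} (hw : w < n) (h : An b y w) : dinF n b d y w = d y w := by
  classical
  unfold dinF
  rw [if_pos ⟨hw, h⟩]

end TCT_

open TCT_

theorem p_TZ : T_TZ := by
  intro n b d U fst par pos rt ys g ec h wo Z W k p hk hp hUp
  have hz := W.hz k p hk hp hUp
  have hwo := W.hwo p hp hUp
  rcases hz with ⟨h0, -⟩ | ⟨ho, hzn, ⟨hzU, hzo, hz1, hzk⟩, -⟩
  · rw [h0]
    exact ⟨by omega, fun h => absurd h (lt_irrefl _)⟩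
  · refine ⟨hzn, fun _ => ⟨hzU, ?_, ?_, ?_⟩⟩
    · obtain ⟨a1, a2, -⟩ := dinF_anc hzo
      have a3 := (pos_anc W.wd a1 hzU a2).2
      rcases hwo with ⟨h1, -⟩ | ⟨-, -, h1, -⟩
      · omega
      · rw [← a3, h1]
    · obtain ⟨x, hxU, hx⟩ := depF_mem (d := d) W.wd.od.u0 (Z k p)
      have hxn := W.wd.od.ult x hxU
      rw [hz1] at hx
      have hne : Z k p ≠ x := by rintro e; rw [← e] at hxU; exact hzU hxU
      obtain ⟨y, hy1, hy2⟩ := W.wd.gr.step _ x hzn hxn hne
      have hyx : y = x := W.wd.gr.eqz y x (W.wd.gr.dom _ _ hy1).2 hxn (by omega)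
      subst hyx
      have hlt : y < Z k p := by
        rcases lt_or_gt_of_ne hne with e | e
        · exact absurd (W.wd.od.uE y _ hxU hy1 e) hzU
        · exact e
      obtain ⟨f1, f2, f3⟩ := W.wd.tb.hfst (Z k p) (by omega) hzn
      have f4 := f3 y hxn hy1
      rcases f4.eq_or_lt with e | e
      · rw [e]; exact hxU
      · have := W.wd.od.ord.clq (Z k p) (fst (Z k p)) y (W.wd.gr.sym _ _ f2)
          (W.wd.gr.sym _ _ hy1) f1 hlt (by omega)
        exact W.wd.od.uE y _ hxU this e
    · intro w hw hanc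
      have e1 := dinF_of_anc (d := d) hw hanc
      have e2 := (W.hec (Z k p) hzn).1 w hw (by rw [e1]; exact W.wd.gr.lt _ _ hzn hw)
      omega

theorem p_TCT : T_TCT := by
  classical
  intro n b d U fst par pos rt ys g ec h wo Z W i j c q r hUi hj hij hjn hic hcj hUc hUq hiq hqj
    hcq hr hcov
  have gr := W.wd.gr
  have od := W.wd.od
  have P := peo gr od
  have hcn : c < n := by omega
  have hqn : q < n := by omega
  by_cases hqw : ∀ w, i ≤ w → w < j → d q w ≤ r
  · exact Or.inl ⟨q, hUq, hiq, hqj, hqw⟩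
  right
  push Not at hqw
  obtain ⟨w, hiw, hwj, hw⟩ := hqw
  have hwn : w < n := by omega
  obtain ⟨t, htc, htU, htE⟩ := top od c hUc
  have htn : t < n := lt_of_le_of_lt htc.le hcn
  have dcq := gr.adj c q hcq
  have dqc : d q c = 1 := by rw [gr.dsym q c hqn hcn]; exact dcq
  have dcw : d c w ≤ r := hcov w hiw hwj
  have dqw : d q w = r + 1 ∧ d c w = r := by
    have := gr.tri q c w hqn hcn hwn
    omega
  -- `U` is disjoint from the branch
  have tU : ∀ x, An b t x → ¬ U x := fun x hx hUx => htU (U_anc od hx hUx)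
  -- edges leaving the branch
  have tb : ∀ y e, An b t y → ¬ An b t e → b y e = 1 → E b e t := fun y e h1 h2 h3 =>
    P.boundary h1 h2 h3
  have hqt : E b q t := tb c q htc (fun hh => tU q hh hUq) hcq
  -- two vertices above the branch
  have tclq : ∀ e v, e < n → v < n → E b e t → d q v ≤ d e v + 1 := by
    intro e v he hv hE
    by_cases hqe : q = e
    · subst hqe; omega
    · have := od.ord.clq t q e hqt.1 hE.1 hqt.2 hE.2 hqe
      have h1 := gr.adj q e this
      have := gr.tri q e v hqn he hv
      omega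
  -- no vertex of `U` is on a geodesic from `c` to `w`
  have noU : ∀ x, U x → d c x + d x w ≠ d c w := by
    intro x hUx hx
    have hxn := od.ult x hUx
    obtain ⟨y, e, a1, a2, a3, a4, a5⟩ := exit gr (fun v => An b t v) _ c x hcn hxn rfl htc
      (fun hh => tU x hh hUx)
    have hE := tb y e a1 a2 a3
    have h1 := tclq e w a4 hwn hE
    have h2 : 1 ≤ d c e := by
      by_contra h0
      have := gr.eqz c e hcn a4 (by omega)
      subst this
      exact a2 htc
    have h3 := gr.tri e x w a4 hxn hwn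
    omega
  have hwU : ¬ U w := fun hh => noU w hh (by rw [gr.zero w hwn]; omega)
  have htw : An b t w := by
    by_contra hh
    obtain ⟨y, e, a1, a2, a3, a4, a5⟩ := exit gr (fun v => An b t v) _ c w hcn hwn rfl htc hh
    exact noU e (htE e (tb y e a1 a2 a3)) a5
  set p := pos c with hpdef
  have pc := W.wd.tb.hpos c hcn
  have hpU : U p := pc.1
  have hpn : p < n := od.ult p hpU
  have hpt : pos t = p := ((pos_anc W.wd hcn htU htc).2).symm
  have hpw : pos w = p := by rw [(pos_anc W.wd hwn htU htw).2, hpt]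
  -- the column is inside `[i, j)`
  have colsub : ∀ w', w' < n → pos w' = p → i ≤ w' ∧ w' < j := by
    intro w' hw' hp'
    have pw := W.wd.tb.hpos w' hw'
    rw [hp'] at pw
    have h1 : i ≤ p := pc.2.2 i hUi hic
    refine ⟨by omega, ?_⟩
    rcases hj with rfl | hUj
    · exact hw'
    · by_contra hh
      have h2 := pw.2.2 j hUj (by omega)
      omega
  have dep_w : r ≤ depF U d w := by
    obtain ⟨x, hUx, hx⟩ := depF_mem (d := d) od.u0 w
    have hxn := od.ult x hUx
    obtain ⟨y, e, a1, a2, a3, a4, a5⟩ := exit gr (fun v => An b t v) _ w x hwn hxn rfl htw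
      (fun hh => tU x hh hUx)
    have hE := tb y e a1 a2 a3
    have h1 := tclq e w a4 hwn hE
    have h2 := gr.dsym e w a4 hwn
    omega
  have dep_le : ∀ w', w' < n → pos w' = p → depF U d w' ≤ r + 1 := by
    intro w' hw' hp'
    obtain ⟨h1, h2⟩ := colsub w' hw' hp'
    have h3 := hcov w' h1 h2
    have h4 := gr.tri w' c q hw' hcn hqn
    have h5 := gr.dsym w' c hw' hcn
    have h6 := depF_le (U := U) (d := d) (w := w') hUq
    omega
  -- the height of the column
  have hH := W.hh p hpn hpU
  have hpr : r ≤ h p := dep_w.trans (hH.1 w hwn hpw)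
  have hpr' : h p ≤ r + 1 := by
    rcases hH.2 with h0 | ⟨w', h1, h2, h3⟩
    · omega
    · rw [← h3]; exact dep_le w' h1 h2
  -- Claim 2
  have claim2 : ∀ w', w' < n → pos w' = p → ¬ U w' → r ≤ depF U d w' →
      An b c w' ∨ (depF U d w' = r ∧ ∀ x, U x → b c x = 1 → d w' x = r) := by
    intro w' hw' hp' hU' hdep
    obtain ⟨h1, h2⟩ := colsub w' hw' hp'
    have h3 := hcov w' h1 h2
    obtain ⟨z, hz, h4, h5, h6⟩ := bottom gr od _ c w' hcn hw' rfl
    have hzU : ¬ U z := by
      intro hUz
      have e1 := depF_le (U := U) (d := d) (w := w') hUz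
      have e2 := gr.dsym w' z hw' hz
      have e3 := gr.eqz c z hcn hz (by omega)
      subst e3
      exact hUc hUz
    by_cases hzc : z = c
    · subst hzc; exact Or.inl h6
    · right
      have hdz : 1 ≤ d c z := by
        by_contra h0
        exact hzc (gr.eqz c z hcn hz (by omega)).symm
      have key : ∀ x, U x → b c x = 1 → d w' x ≤ r := by
        intro x hUx hx
        have hxn := od.ult x hUx
        have hne : x ≠ c := by rintro rfl; exact hUc hUx
        have hxc : x < c := by
          rcases lt_or_gt_of_ne hne with e | e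
          · exact e
          · exact absurd (od.uE x c hUx hx e) hUc
        have hE : E b x c := ⟨gr.sym _ _ hx, hxc⟩
        have hxz : x < z := by
          by_contra hh
          have := P.chain' h5 hE.anc (by omega)
          exact hzU (U_anc od this hUx)
        have hE' := P.LA h5 hE hxz
        have e1 := gr.adj x z hE'.1
        have e2 := gr.tri w' z x hw' hz hxn
        have e3 := gr.dsym w' z hw' hz
        have e4 := gr.dsym z x hz hxn
        omega
      have e1 := key q hUq hcq
      have e2 := depF_le (U := U) (d := d) (w := w') hUq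
      refine ⟨by omega, ?_⟩
      intro x hUx hx
      have e3 := key x hUx hx
      have e4 := depF_le (U := U) (d := d) (w := w') hUx
      omega
  -- the reference vertex
  obtain ⟨hon, hoU, hop, hod, hops⟩ : wo p < n ∧ ¬ U (wo p) ∧ pos (wo p) = p ∧
      depF U d (wo p) = h p ∧ ∀ w, w < n → ¬ U w → pos w = p → depF U d w = h p →
        psize n b U (g (wo p)) ≤ psize n b U (g w) := by
    rcases W.hwo p hpn hpU with ⟨-, h1⟩ | h1
    · exact absurd (h1 c hcn rfl) hUc
    · exact h1
  have claim3 : An b c (wo p) := by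
    by_contra hno
    have ho2 := (claim2 (wo p) hon hop hoU (by omega)).resolve_left hno
    have hhr : h p = r := by omega
    have hwr : depF U d w = r := le_antisymm (by rw [← hhr]; exact hH.1 w hwn hpw) dep_w
    have hcw : An b c w := by
      rcases claim2 w hwn hpw hwU dep_w with h1 | ⟨-, h1⟩
      · exact h1
      · have := h1 q hUq hcq
        have := gr.dsym w q hwn hqn
        omega
    -- `Pr w ⊆ P c`
    have hsub : ∀ x, U x → d w x = r → b c x = 1 := by
      intro x hUx hx
      have hxn := od.ult x hUx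
      obtain ⟨y, e, a1, a2, a3, a4, a5⟩ := exit gr (fun v => An b c v) _ w x hwn hxn rfl hcw
        (fun hh => hUc (U_anc od hh hUx))
      have hE : E b e c := P.boundary a1 a2 a3
      by_cases heU : U e
      · have e1 := depF_le (U := U) (d := d) (w := w) heU
        have e2 := gr.eqz e x a4 hxn (by omega)
        subst e2
        exact gr.sym _ _ hE.1
      · exfalso
        have hex : e ≠ x := by rintro rfl; exact heU hUx
        have e1 : 1 ≤ d e x := by
          by_contra h0
          exact hex (gr.eqz e x a4 hxn (by omega))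
        have hqc : E b q c := by
          refine ⟨gr.sym _ _ hcq, ?_⟩
          have hne : q ≠ c := by rintro rfl; exact hUc hUq
          rcases lt_or_gt_of_ne hne with e | e
          · exact e
          · exact absurd (od.uE q c hUq hcq e) hUc
        have hqe : e ≠ q := by rintro rfl; exact heU hUq
        have e2 := od.ord.clq c e q hE.1 hqc.1 hE.2 hqc.2 hqe
        have e3 := gr.adj e q e2
        have e4 := gr.tri w e q hwn a4 hqn
        have e5 := gr.dsym w q hwn hqn
        omega
    have h1 := hops w hwn hwU hpw (by rw [hwr, hhr])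
    have h2 : psize n b U (g w) < psize n b U (g (wo p)) := by
      unfold psize
      apply Finset.card_lt_card
      rw [Finset.ssubset_iff_of_subset]
      · refine ⟨q, ?_, ?_⟩
        · rw [Finset.mem_filter, Finset.mem_range]
          refine ⟨hqn, hUq, (W.isg.pr (wo p) q hon hoU hUq).2 ?_⟩
          rw [ho2.1]; exact ho2.2 q hUq hcq
        · rw [Finset.mem_filter, Finset.mem_range]
          rintro ⟨-, -, hh⟩
          have := (W.isg.pr w q hwn hwU hUq).1 hh
          have := gr.dsym w q hwn hqn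
          omega
      · intro x hx
        rw [Finset.mem_filter, Finset.mem_range] at hx ⊢
        obtain ⟨hxn, hUx, hx⟩ := hx
        refine ⟨hxn, hUx, (W.isg.pr (wo p) x hon hoU hUx).2 ?_⟩
        rw [ho2.1]
        apply ho2.2 x hUx
        apply hsub x hUx
        rw [(W.isg.pr w x hwn hwU hUx).1 hx, hwr]
    omega
  -- the candidate
  obtain ⟨k, hk⟩ : ∃ k, h p = r + k := ⟨h p - r, by omega⟩
  have hk2 : k < 2 := by omega
  have hQ : QZ n U (dinF n b d) (depF U d) ec k (h p) (wo p) c := by
    refine ⟨hUc, ?_, ?_, ?_⟩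
    · rw [dinF_of_anc hon claim3]; exact gr.lt _ _ hcn hon
    · have e1 := depF_le (U := U) (d := d) (w := c) hUq
      obtain ⟨x, hUx, hx⟩ := depF_mem (d := d) od.u0 c
      have hxn := od.ult x hUx
      have : d c x ≠ 0 := by
        intro h0
        have := gr.eqz c x hcn hxn h0
        subst this
        exact hUc hUx
      omega
    · rcases (W.hec c hcn).2 with h0 | ⟨w', h1, h2, h3⟩
      · omega
      · obtain ⟨-, a1, a2⟩ := dinF_anc h2
        have a3 := (pos_anc W.wd h1 hUc a1).2
        obtain ⟨a4, a5⟩ := colsub w' h1 a3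
        have := hcov w' a4 a5
        omega
  have ho0 : wo p ≠ 0 := fun h0 => hoU (by rw [h0]; exact od.u0)
  rcases W.hz k p hk2 hpn hpU with ⟨-, h1 | h1⟩ | ⟨-, hzn, hzQ, hzmin⟩
  · exact absurd h1 ho0
  · exact absurd hQ (h1 c hcn)
  · have hzU : ¬ U (Z k p) := hzQ.1
    have hz0 : 0 < Z k p := by
      rcases Nat.eq_zero_or_pos (Z k p) with e | e
      · rw [e] at hzU; exact absurd od.u0 hzU
      · exact e
    refine ⟨k, hk2, hk, hz0, ?_⟩
    have hzc : Z k p ≤ c := hzmin c hcn hQ
    obtain ⟨-, hzo, -⟩ := dinF_anc hzQ.2.1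
    have hzc' : An b (Z k p) c := P.chain' hzo claim3 hzc
    intro v hiv hvj
    have hvn : v < n := by omega
    by_cases hzv : An b (Z k p) v
    · have e1 := dinF_of_anc (d := d) hvn hzv
      have e2 := (W.hec (Z k p) hzn).1 v hvn (by rw [e1]; exact gr.lt _ _ hzn hvn)
      have e3 := hzQ.2.2.2
      omega
    · obtain ⟨y, e, a1, a2, a3, a4, a5⟩ := exit gr (fun v => An b (Z k p) v) _ c v hcn hvn rfl
        hzc' hzv
      have hE : E b e (Z k p) := P.boundary a1 a2 a3
      have e1 := gr.adj _ _ (gr.sym _ _ hE.1)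
      have e2 := gr.tri (Z k p) e v hzn a4 hvn
      have e3 : 1 ≤ d c e := by
        by_contra h0
        have := gr.eqz c e hcn a4 (by omega)
        subst this
        exact a2 hzc'
      have e4 := hcov v hiv hvj
      omega

end Pool.Agent.BDC
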