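import Pool.Agent.BDC.TargetsN

/-!
# BDC: distance recursion to descendants
-/

namespace Pool.Agent.BDC

namespace TDINx

variable {n : ℕ} {b d : ℕ → ℕ → ℕ} {U : ℕ → Prop}

lemma peo (hg : NGraph n b d) (ho : NatOrd n b) : PEO (Ad b) (fun i => i) where
  sym := hg.sym
  inj := fun _ _ h => h
  clq := fun w y z h1 h2 h3 h4 h5 => ho.clq w y z h1 h2 h3 h4 h5

lemma ne_of_adj (hg : NGraph n b d) {x y : ℕ} (h : b x y = 1) : x ≠ y := by
  rintro rfl
  exact hg.irr x h

/-- a geodesic which starts upwards goes up all the way -/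
lemma up (hg : NGraph n b d) (ho : NatOrd n b) :
    ∀ (m z k w : ℕ), w < n → d z w = m → b z k = 1 → d k w + 1 = d z w → z < k → k ≤ w := by
  intro m
  induction m with
  | zero => intro z k w _ h1 _ h2 _; omega
  | succ m ih =>
    intro z k w hw h1 hzk h2 hlt
    obtain ⟨hz, hk⟩ := hg.dom _ _ hzk
    by_cases hkw : k = w
    · exact hkw.le
    · obtain ⟨k', hkk', h3⟩ := hg.step k w hk hw hkw
      obtain ⟨_, hk'⟩ := hg.dom _ _ hkk'
      have hne := ne_of_adj hg hkk'
      by_cases hlt' : k' < k
      · exfalso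
        by_cases hzk' : z = k'
        · rw [hzk'] at h2; omega
        · have h4 := ho.clq k z k' hzk (hg.sym _ _ hkk') hlt hlt' hzk'
          have h5 := hg.adj _ _ h4
          have h6 := hg.tri z k' w hz hk' hw
          omega
      · have := ih k k' w hw (by omega) hkk' h3 (by omega)
        omega

/-- two descents -/
lemma two_desc (hg : NGraph n b d) (ho : NatOrd n b) {z k k' f : ℕ} (hzk : b z k = 1)
    (hkk' : b k k' = 1) (h1 : k < z) (h2 : k' < k) (hf : b z f = 1) (hfk : f ≤ k) :
    d f k' ≤ 1 := by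
  obtain ⟨hk, hk'⟩ := hg.dom _ _ hkk'
  rcases hfk.lt_or_eq with h | h
  · have h3 : b f k = 1 :=
      ho.clq z f k (hg.sym _ _ hf) (hg.sym _ _ hzk) (by omega) h1 h.ne
    by_cases hfk' : f = k'
    · rw [hfk', hg.zero k' hk']; omega
    · have h4 := ho.clq k f k' h3 (hg.sym _ _ hkk') h h2 hfk'
      exact (hg.adj _ _ h4).le
  · rw [h]
    exact (hg.adj _ _ hkk').le

end TDINx

open TDINx

theorem p_TDIN : T_TDIN := by
  classical
  intro n b d U fst par pos rt ys hW
  have hg := hW.gr
  have ho := hW.od.ord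
  have hP := peo hg ho
  have htb := hW.tb
  have din_anc : ∀ y w, w < n → Anc (Ad b) (fun i => i) y w → dinF n b d y w = d y w := by
    intro y w hw h
    unfold dinF
    rw [if_pos ⟨hw, h⟩]
  have din_not : ∀ y w, ¬ Anc (Ad b) (fun i => i) y w → dinF n b d y w = n := by
    intro y w h
    unfold dinF
    rw [if_neg (fun h' => h h'.2)]
  have hanc_of : ∀ y w, y < n → w < n → dinF n b d y w ≠ n → Anc (Ad b) (fun i => i) y w := by
    intro y w _ _ h
    by_contra hc
    exact h (din_not y w hc)
  have hpar : ∀ w, 0 < w → w < n → IsPar (Ad b) (fun i => i) (par w) w := by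
    intro w h0 hw
    obtain ⟨h1, h2, h3⟩ := htb.hpar w h0 hw
    exact ⟨⟨hg.sym _ _ h2, h1⟩, fun z hz => h3 z hz.2 (hg.sym _ _ hz.1)⟩
  -- ancestors in the last three cases
  have hanc : ∀ y w, y < w → w < n → ¬ (par w < y ∨ dinF n b d y (par w) = n) →
      Anc (Ad b) (fun i => i) y w := by
    intro y w h1 h2 h3
    rw [not_or] at h3
    have hp := hpar w (by omega) h2
    have hpl : par w < w := hp.1.2
    exact (hanc_of y (par w) (by omega) (by omega) h3.2).trans hp.1.anc
  have hge2 : ∀ y w, y < w → w < n → b y w ≠ 1 → 2 ≤ d y w := by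
    intro y w h1 h2 h3
    by_contra hcon
    obtain ⟨k, hk1, hk2⟩ := hg.step y w (by omega) h2 (by omega)
    obtain ⟨_, hkn⟩ := hg.dom _ _ hk1
    have : k = w := hg.eqz k w hkn h2 (by omega)
    rw [this] at hk1
    exact h3 hk1
  refine ⟨?_, ?_, ?_, ?_, ?_, ?_, ?_, ?_, ?_⟩
  · intro y w hy hw
    by_cases h : Anc (Ad b) (fun i => i) y w
    · rw [din_anc y w hw h]; exact (hg.lt y w hy hw).le
    · rw [din_not y w h]
  · intro w h0 hw; exact (htb.hfst w h0 hw).1
  · intro w h0 hw; exact (htb.hpar w h0 hw).1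
  · intro y w hy hlt
    apply din_not
    intro h
    have := h.le
    omega
  · intro y hy
    rw [din_anc y y hy Anc.refl, hg.zero y hy]
  · intro y w hlt hw hadj
    have : Er (Ad b) (fun i => i) y w := ⟨hadj, hlt⟩
    rw [din_anc y w hw this.anc, hg.adj _ _ hadj]
  · intro y w hlt hw hadj hor
    apply din_not
    intro h
    have hp := hpar w (by omega) hw
    have hpl : par w < w := hp.1.2
    have h1 := hP.anc_par hp h (by omega)
    have h2 := h1.le
    rcases hor with h3 | h3
    · omega
    · rw [din_anc y (par w) (by omega) h1] at h3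
      have := hg.lt y (par w) (by omega) (by omega)
      omega
  · intro y w hlt hw hadj hor hfst
    have hA := hanc y w hlt hw hor
    obtain ⟨f1, f2, _⟩ := htb.hfst w (by omega) hw
    have h1 : Er (Ad b) (fun i => i) (fst w) y := hP.LA hA ⟨hg.sym _ _ f2, f1⟩ hfst
    rw [din_anc y w hw hA]
    have h2 := hg.tri y (fst w) w (by omega) (by omega) hw
    have h3 := hg.adj _ _ (hg.sym _ _ h1.1)
    have h4 := hg.adj _ _ (hg.sym _ _ f2)
    have h5 := hge2 y w hlt hw hadj
    omega
  · intro y w hlt hw hadj hor hfst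
    have hA := hanc y w hlt hw hor
    obtain ⟨f1, f2, f3⟩ := htb.hfst w (by omega) hw
    have f2' := hg.sym _ _ f2
    have hyf : y < fst w := by
      have : y ≠ fst w := by
        intro h
        rw [h] at hadj
        exact hadj f2'
      omega
    have hAf : Anc (Ad b) (fun i => i) y (fst w) := by
      have hE : Er (Ad b) (fun i => i) (fst w) w := ⟨f2', f1⟩
      exact hP.chain' hA hE.anc hyf.le
    rw [din_anc y w hw hA, din_anc y (fst w) (by omega) hAf]
    have hyn : y < n := by omega
    have hfn : fst w < n := by omega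
    -- the geodesic from w to y
    have hs := hg.dsym y w hyn hw
    have hsf := hg.dsym y (fst w) hyn hfn
    have hle : d w y ≤ d (fst w) y + 1 := by
      have h1 := hg.tri w (fst w) y hw hfn hyn
      have h2 := hg.adj _ _ f2
      omega
    obtain ⟨k, hk1, hk2⟩ := hg.step w y hw hyn (by omega)
    obtain ⟨_, hkn⟩ := hg.dom _ _ hk1
    have hkw : k < w := by
      by_contra hcon
      have hne := ne_of_adj hg hk1
      have := up hg ho _ w k y hyn rfl hk1 hk2 (by omega)
      omega
    have hfk : fst w ≤ k := f3 k hkn hk1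
    obtain ⟨k', hk1', hk2'⟩ := hg.step k y hkn hyn (by omega)
    obtain ⟨_, hkn'⟩ := hg.dom _ _ hk1'
    have hkk' : k' < k := by
      by_contra hcon
      have hne := ne_of_adj hg hk1'
      have := up hg ho _ k k' y hyn rfl hk1' hk2' (by omega)
      omega
    have h6 := two_desc hg ho hk1 hk1' hkw hkk' f2 hfk
    have h7 := hg.tri (fst w) k' y hfn hkn' hyn
    omega

end Pool.Agent.BDC
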