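import Pool.Agent.BDC.TargetsN

/-!
# BDC: the distances from the vertices of the path (`T_TDS`)
-/

namespace Pool.Agent.BDC

namespace TDS

variable {n : ℕ} {b d : ℕ → ℕ → ℕ} {U : ℕ → Prop} {fst par pos rt ys : ℕ → ℕ}

lemma adj_of_one (hG : NGraph n b d) {x y : ℕ} (hx : x < n) (hy : y < n) (h : d x y = 1) :
    b x y = 1 := by
  have hne : x ≠ y := by
    rintro rfl
    rw [hG.zero x hx] at h
    omega
  obtain ⟨k, hk, hk2⟩ := hG.step x y hx hy hne
  have hkn : k < n := (hG.dom _ _ hk).2
  have : k = y := hG.eqz k y hkn hy (by omega)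
  rw [← this]; exact hk

lemma ne_of_adj (hG : NGraph n b d) {x y : ℕ} (h : b x y = 1) : x ≠ y := by
  rintro rfl
  exact hG.irr x h

lemma le_succ_of_adj (hG : NGraph n b d) {x y z : ℕ} (hz : z < n) (h : b x y = 1) :
    d x z ≤ d y z + 1 := by
  have h1 := hG.dom _ _ h
  have h2 := hG.tri x y z h1.1 h1.2 hz
  rw [hG.adj _ _ h] at h2
  omega

/-- elements of the path are ancestors of all later vertices -/
lemma anc_of_U (hO : GoodN n b U) {x : ℕ} (hx : U x) :
    ∀ w, x ≤ w → w < n → Anc (Ad b) (fun i => i) x w := by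
  intro w
  induction w using Nat.strong_induction_on with
  | _ w ih =>
    intro h1 h2
    rcases Nat.eq_or_lt_of_le h1 with h | h
    · rw [h]; exact Anc.refl
    · obtain ⟨y, hy1, hy2, hy3⟩ := hO.col x w hx h h2
      exact Anc.step ⟨hy3, hy2⟩ (ih y hy2 hy1 (by omega))

/-- (LA) for elements of the path -/
lemma la (hG : NGraph n b d) (hO : GoodN n b U) {x w y : ℕ} (hx : U x) (h1 : x ≤ w) (h2 : w < n)
    (hy : b y w = 1) (hyx : y < x) : b y x = 1 := by
  have hyw : y < w := lt_of_lt_of_le hyx h1
  have key : ∀ {x w : ℕ}, Anc (Ad b) (fun i => i) x w → ∀ y, b y w = 1 → y < w → y < x →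
      b y x = 1 := by
    intro x w hA
    induction hA with
    | refl => intro y h _ _; exact h
    | @step z w hz hx ih =>
      intro y hy hyw hyx
      have hxz : x ≤ z := hx.le
      have hyz : y ≠ z := by omega
      exact ih y (hO.ord.clq w y z hy hz.1 hyw hz.2 hyz) (by omega) hyx
  exact key (anc_of_U hO hx w h1 h2) y hy hyw hyx

/-- (b) a geodesic which starts upwards goes up all the way -/
lemma up_anc (hG : NGraph n b d) (hO : NatOrd n b) :
    ∀ (m z k w : ℕ), z < n → w < n → d z w = m → b z k = 1 → d k w + 1 = d z w → z < k →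
      Anc (Ad b) (fun i => i) z w := by
  intro m
  induction m with
  | zero =>
    intro z k w _ _ h1 _ h3 _
    omega
  | succ m ih =>
    intro z k w hz hw h1 h2 h3 h4
    have hk : k < n := (hG.dom _ _ h2).2
    by_cases hkw : k = w
    · rw [← hkw]; exact Anc.step ⟨h2, h4⟩ Anc.refl
    obtain ⟨k', hk', hd⟩ := hG.step k w hk hw hkw
    have hk'n : k' < n := (hG.dom _ _ hk').2
    rcases Nat.lt_trichotomy k' k with h | h | h
    · -- a local maximum
      exfalso
      by_cases hzk : z = k'
      · rw [hzk] at h1 h3; omega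
      · have h5 : b z k' = 1 := hO.clq k z k' h2 (hG.sym _ _ hk') h4 h hzk
        have := le_succ_of_adj hG hw h5
        omega
    · exact absurd h (ne_of_adj hG hk').symm
    · have h6 := ih k k' w hk hw (by omega) hk' hd h
      exact Anc.trans (Anc.step ⟨h2, h4⟩ Anc.refl) h6

/-- a geodesic which cannot go up goes down -/
lemma down (hG : NGraph n b d) (hO : NatOrd n b) {z w k : ℕ} (hz : z < n) (hw : w < n)
    (hA : ¬ Anc (Ad b) (fun i => i) z w) (h2 : b z k = 1) (h3 : d k w + 1 = d z w) : k < z := by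
  rcases Nat.lt_trichotomy k z with h | h | h
  · exact h
  · exact absurd h (ne_of_adj hG h2).symm
  · exact absurd (up_anc hG hO _ z k w hz hw rfl h2 h3 h) hA

/-- (c) two descents -/
lemma two_down (hG : NGraph n b d) (hO : NatOrd n b) (hT : Tab n b U fst par pos rt ys)
    {w k k' p : ℕ} (hw : w < n) (hp : p < n) (h1 : b w k = 1) (h2 : b k k' = 1)
    (d1 : d k p + 1 = d w p) (d2 : d k' p + 1 = d k p) (l1 : k < w) (l2 : k' < k) :
    d w p = d (fst w) p + 1 := by
  have hf := hT.hfst w (by omega) hw
  have hkn : k < n := by omega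
  have hfk : fst w ≤ k := hf.2.2 k hkn h1
  have hfn : fst w < n := by omega
  have hup : d w p ≤ d (fst w) p + 1 := le_succ_of_adj hG hp hf.2.1
  have hlow : d (fst w) p ≤ d k' p + 1 := by
    rcases Nat.eq_or_lt_of_le hfk with h | h
    · rw [h]; omega
    · have h3 : b (fst w) k = 1 :=
        hO.clq w (fst w) k (hG.sym _ _ hf.2.1) (hG.sym _ _ h1) hf.1 l1 (by omega)
      by_cases h4 : fst w = k'
      · rw [h4]; omega
      · have h5 : b (fst w) k' = 1 := hO.clq k (fst w) k' h3 (hG.sym _ _ h2) h l2 h4
        exact le_succ_of_adj hG hp h5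
  omega

/-- (d) monotonicity of the distances to the vertices of the path -/
lemma mono_rt (hG : NGraph n b d) (hO : GoodN n b U) (hT : Tab n b U fst par pos rt ys) :
    ∀ (m p y y' : ℕ), d p y' = m → U p → U y → U y' → y < p → y' < p → b y y' = 1 →
      rt y' ≤ rt y → d p y ≤ d p y' := by
  intro m
  induction m with
  | zero =>
    intro p y y' h1 hp hy hy' h2 h3 _ _
    have := hG.eqz p y' (hO.ult p hp) (hO.ult y' hy') h1
    omega
  | succ m ih =>
    intro p y y' h1 hp hy hy' h2 h3 hyy hrt
    have hpn := hO.ult p hp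
    have hyn := hO.ult y hy
    have hy'n := hO.ult y' hy'
    obtain ⟨c, hc, hcd⟩ := hG.step p y' hpn hy'n (by omega)
    have hcn : c < n := (hG.dom _ _ hc).2
    have hnA : ¬ Anc (Ad b) (fun i => i) p y' := by
      intro h
      have : p ≤ y' := h.le
      omega
    have hcp : c < p := down hG hO.ord hpn hy'n hnA hc hcd
    have hcp' : b c p = 1 := hG.sym _ _ hc
    have hcU : U c := hO.uE p c hp hcp' hcp
    -- if `y'` is adjacent to `p` then so is `y`
    have hone : b p y' = 1 → d p y = 1 := by
      intro h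
      have h4 := (hT.hrt y' hy'n).2.2 p hpn h3 hp (hG.sym _ _ h)
      have h5 := hT.hrt y hyn
      have h6 : rt y ≠ y := by omega
      rcases h5.2.1 with h7 | ⟨h7, h8, h9⟩
      · exact absurd h7 h6
      · have h10 : b y p = 1 := la hG hO hp (by omega : p ≤ rt y) h5.1 h9 h2
        exact hG.adj _ _ (hG.sym _ _ h10)
    by_cases hcy : c = y'
    · rw [hcy] at hc
      rw [hone hc, h1]; omega
    -- now the distance is at least two
    have hm2 : 2 ≤ d p y' := by
      have h4 : d c y' ≠ 0 := fun h => hcy (hG.eqz c y' hcn hy'n h)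
      omega
    rcases Nat.lt_trichotomy c y with h | h | h
    · -- `c < y < p`
      have h4 : b c y = 1 := la hG hO hy (by omega : y ≤ p) hpn hcp' h
      have h5 : d p y ≤ d c y + 1 := le_succ_of_adj hG hyn hc
      rw [hG.adj _ _ h4] at h5
      omega
    · rw [← h, hG.adj _ _ hc]; omega
    · -- `y < c`
      rcases Nat.lt_trichotomy c y' with h' | h' | h'
      · -- `y < c < y' < p`
        have h4 : b c y' = 1 := la hG hO hy' (by omega : y' ≤ p) hpn hcp' h'
        have h5 : b y c = 1 := hO.ord.clq y' y c hyy h4 (by omega) h' (by omega)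
        have h6 : d p y ≤ d c y + 1 := le_succ_of_adj hG hyn hc
        rw [hG.adj _ _ (hG.sym _ _ h5)] at h6
        omega
      · exact absurd h' hcy
      · have h4 := ih c y y' (by omega) hcU hy hy' h h' hyy hrt
        have h6 : d p y ≤ d c y + 1 := le_succ_of_adj hG hyn hc
        omega

end TDS

open TDS in
theorem p_TDS : T_TDS := by
  intro n b d U fst par pos rt ys hW
  obtain ⟨hG, hO, hT⟩ := hW
  have hN := hO.ord
  -- the ancestors of elements of the path are in the path
  have hAU : ∀ {x w : ℕ}, Anc (Ad b) (fun i => i) x w → U w → U x := by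
    intro x w hA
    induction hA with
    | refl => exact fun h => h
    | @step z w hz _ ih => intro hw; exact ih (hO.uE w z hw hz.1 hz.2)
  have hwpos : ∀ w, ¬ U w → 0 < w := by
    intro w hw
    rcases Nat.eq_zero_or_pos w with h | h
    · rw [h] at hw; exact absurd hO.u0 hw
    · exact h
  -- a vertex of the path adjacent to `w` (off the path) is earlier
  have hyslt : ∀ w x, w < n → ¬ U w → U x → b w x = 1 → x < w := by
    intro w x _ hw hx hb
    rcases Nat.lt_trichotomy x w with h | h | h
    · exact h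
    · exact absurd h (ne_of_adj hG hb).symm
    · exact absurd (hO.uE x w hx hb h) hw
  refine
    { le := fun p w hp hw => (hG.lt p w hp hw).le
      same := fun p _ hp => hG.zero p hp
      adj := fun p w _ _ _ _ h => hG.adj p w h
      flt := fun w h1 h2 => (hT.hfst w h1 h2).1
      ylt := ?_
      up2 := ?_
      up1 := ?_
      dnU := fun p w _ hp hw _ _ => hG.dsym p w hp (by omega)
      dn1 := ?_
      dn2 := ?_ }
  · intro w hw hU hf
    have h1 := hT.hfst w (hwpos w hU) hw
    have h2 := (hT.hys w hw).2 hf h1.2.1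
    exact hyslt w (ys w) hw hU h2.1 h2.2.1
  · -- up2
    intro p w hp hpn hwn hpw hb hf
    have h1 := hT.hfst w (by omega) hwn
    have h2 : b (fst w) p = 1 := la hG hO hp hpw.le hwn (hG.sym _ _ h1.2.1) hf
    have h3 : d p w ≤ d (fst w) w + 1 := le_succ_of_adj hG hwn (hG.sym _ _ h2)
    rw [hG.adj _ _ (hG.sym _ _ h1.2.1)] at h3
    have h4 : d p w ≠ 0 := fun h => by
      have := hG.eqz p w hpn hwn h; omega
    have h5 : d p w ≠ 1 := fun h => hb (adj_of_one hG hpn hwn h)
    omega
  · -- up1
    intro p w hp hpn hwn hpw hb hf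
    have h1 := hT.hfst w (by omega) hwn
    have hfp : fst w ≠ p := by
      intro h
      rw [h] at h1
      exact hb (hG.sym _ _ h1.2.1)
    rw [hG.dsym p w hpn hwn, hG.dsym p (fst w) hpn (by omega)]
    obtain ⟨k, hk, hkd⟩ := hG.step w p hwn hpn (by omega)
    have hkn : k < n := (hG.dom _ _ hk).2
    have hkw : k < w := down hG hN hwn hpn (fun h => by have : w ≤ p := h.le; omega) hk hkd
    have hkf : fst w ≤ k := h1.2.2 k hkn hk
    obtain ⟨k', hk', hkd'⟩ := hG.step k p hkn hpn (by omega)
    have hkk : k' < k := down hG hN hkn hpn (fun h => by have : k ≤ p := h.le; omega) hk' hkd'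
    exact two_down hG hN hT hwn hpn hk hk' hkd hkd' hkw hkk
  · -- dn1
    intro p w hp hpn hwp hb hU hf
    have hwn : w < n := by omega
    have h1 := hT.hfst w (hwpos w hU) hwn
    have h2 := (hT.hys w hwn).2 hf h1.2.1
    have hyw := hyslt w (ys w) hwn hU h2.1 h2.2.1
    have hysn : ys w < n := by omega
    have hup : d p w ≤ d p (ys w) + 1 := by
      rw [hG.dsym p w hpn hwn, hG.dsym p (ys w) hpn hysn]
      exact le_succ_of_adj hG hpn h2.2.1
    -- every neighbour on the path is at most as good as `ys w`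
    have hbest : ∀ x, U x → b w x = 1 → d p (ys w) ≤ d p x := by
      intro x hx hbx
      have hxw := hyslt w x hwn hU hx hbx
      by_cases hxy : ys w = x
      · rw [hxy]
      · have h3 : b (ys w) x = 1 :=
          hN.clq w (ys w) x (hG.sym _ _ h2.2.1) (hG.sym _ _ hbx) hyw hxw hxy
        exact mono_rt hG hO hT _ p (ys w) x rfl hp h2.1 hx (by omega) (by omega) h3
          (h2.2.2 x (by omega) hx hbx)
    have hlow : d p (ys w) + 1 ≤ d p w := by
      rw [hG.dsym p w hpn hwn]
      obtain ⟨k, hk, hkd⟩ := hG.step w p hwn hpn (by omega)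
      have hkn : k < n := (hG.dom _ _ hk).2
      have hkw : k < w := down hG hN hwn hpn (fun h => hU (hAU h hp)) hk hkd
      by_cases hkU : U k
      · have := hbest k hkU hk
        rw [hG.dsym p k hpn hkn] at this
        omega
      · obtain ⟨k', hk', hkd'⟩ := hG.step k p hkn hpn (by rintro rfl; exact hkU hp)
        have hkk : k' < k := down hG hN hkn hpn (fun h => hkU (hAU h hp)) hk' hkd'
        have h5 := two_down hG hN hT hwn hpn hk hk' hkd hkd' hkw hkk
        have := hbest (fst w) hf h1.2.1
        rw [hG.dsym p (fst w) hpn (by omega)] at this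
        omega
    omega
  · -- dn2
    intro p w hp hpn hwp hb hU hf
    have hwn : w < n := by omega
    have h1 := hT.hfst w (hwpos w hU) hwn
    rw [hG.dsym p w hpn hwn, hG.dsym p (fst w) hpn (by omega)]
    obtain ⟨k, hk, hkd⟩ := hG.step w p hwn hpn (by omega)
    have hkn : k < n := (hG.dom _ _ hk).2
    have hkw : k < w := down hG hN hwn hpn (fun h => hU (hAU h hp)) hk hkd
    have hkU : ¬ U k := by
      intro hkU
      have hfk : fst w ≤ k := h1.2.2 k hkn hk
      rcases Nat.eq_or_lt_of_le hfk with h | h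
      · rw [h] at hf; exact hf hkU
      · exact hf (hO.uE k (fst w) hkU
          (hN.clq w (fst w) k (hG.sym _ _ h1.2.1) (hG.sym _ _ hk) h1.1 hkw (by omega)) h)
    obtain ⟨k', hk', hkd'⟩ := hG.step k p hkn hpn (by rintro rfl; exact hkU hp)
    have hkk : k' < k := down hG hN hkn hpn (fun h => hkU (hAU h hp)) hk' hkd'
    exact two_down hG hN hT hwn hpn hk hk' hkd hkd' hkw hkk

end Pool.Agent.BDC
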