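import Pool.Agent.BDC.TargetsN

/-!
# BDC: the intervals computed by `cIv`
-/

namespace Pool.Agent.BDC.TIV

open Pool.Agent.BDC

variable {n : ℕ} {b d : ℕ → ℕ → ℕ} {U : ℕ → Prop} {fst par pos rt ys : ℕ → ℕ}

lemma peo (hw : World n b d U fst par pos rt ys) : PEO (Ad b) (fun i => i) where
  sym := fun x y h => hw.gr.sym x y h
  inj := fun _ _ h => h
  clq := fun w y z h1 h2 h3 h4 h5 => hw.od.ord.clq w y z h1 h2 h3 h4 h5

/-- the descendants of `x ∈ U` are the vertices `≥ x` -/
lemma anc_of_le (hw : World n b d U fst par pos rt ys) {x : ℕ} (hx : U x) :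
    ∀ (m w : ℕ), w ≤ m → x ≤ w → w < n → Anc (Ad b) (fun i => i) x w := by
  intro m
  induction m with
  | zero =>
    intro w h1 h2 _
    have : x = w := by omega
    rw [this]; exact Anc.refl
  | succ m ih =>
    intro w h1 h2 h3
    rcases Nat.eq_or_lt_of_le h2 with h4 | h4
    · rw [h4]; exact Anc.refl
    · obtain ⟨y, hy1, hy2, hy3⟩ := hw.od.col x w hx h4 h3
      exact Anc.step ⟨hy3, hy2⟩ (ih y (by omega) hy1 (by omega))

/-- adjacent vertices with the lower one off the path lie in the same column -/
lemma same_col (hw : World n b d U fst par pos rt ys) {y w : ℕ} (hy : ¬ U y) (hyw : b y w = 1)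
    (hlt : y < w) : pos y = pos w := by
  have hn : y < n ∧ w < n := hw.gr.dom y w hyw
  obtain ⟨u1, u2, u3⟩ := hw.tb.hpos w hn.2
  obtain ⟨v1, v2, v3⟩ := hw.tb.hpos y hn.1
  have h1 : pos w ≤ y := by
    by_contra hc
    have hc' : y < pos w := by omega
    have h2 : Anc (Ad b) (fun i => i) (pos w) w := anc_of_le hw u1 w w le_rfl u2 hn.2
    have h3 : Er (Ad b) (fun i => i) y (pos w) := (peo hw).LA h2 ⟨hyw, hlt⟩ hc'
    exact hy (hw.od.uE (pos w) y u1 h3.1 hc')
  have h4 : pos w ≤ pos y := v3 _ u1 h1
  have h5 : pos y ≤ pos w := u3 _ v1 (by omega)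
  omega

lemma same_col' (hw : World n b d U fst par pos rt ys) {y w : ℕ} (hy : ¬ U y) (hw' : ¬ U w)
    (hyw : b y w = 1) : pos y = pos w := by
  rcases lt_trichotomy y w with h | h | h
  · exact same_col hw hy hyw h
  · rw [h]
  · exact (same_col hw hw' (hw.gr.sym _ _ hyw) h).symm

lemma dep_le (hw : World n b d U fst par pos rt ys) {w y : ℕ} (hy : U y) (hwn : w < n) :
    depF U d w ≤ d y w := by
  rw [hw.gr.dsym y w (hw.od.ult y hy) hwn]
  exact Nat.sInf_le ⟨y, hy, rfl⟩

lemma dep_U (hw : World n b d U fst par pos rt ys) {w : ℕ} (hy : U w) : depF U d w = 0 := by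
  have h1 : w < n := hw.od.ult w hy
  have := dep_le hw hy h1
  rw [hw.gr.zero w h1] at this
  omega

lemma dep_lt (hw : World n b d U fst par pos rt ys) {w : ℕ} (hwn : w < n) : depF U d w < n := by
  have h0 : U 0 := hw.od.u0
  have h1 := dep_le hw h0 hwn
  have h2 := hw.gr.lt 0 w (hw.od.ult 0 h0) hwn
  omega

/-- heights of the columns covered by a ball around a candidate -/
lemma height_le (h2 : T_TTST) (hw : World n b d U fst par pos rt ys) {g h : ℕ → ℕ}
    (hg : IsG n b d U g) {x z r : ℕ}
    (hH : IsH n pos (depF U d) x (h x)) (hz : z < n) (hzU : ¬ U z) (hzf : U (fst z))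
    (hzx : pos z ≠ x) (hr : 1 ≤ r)
    (hcov : ∀ w, w < n → pos w = x → d z w ≤ r) : h x + 1 ≤ r := by
  have hz0 : 0 < z := by
    rcases Nat.eq_zero_or_pos z with h0 | h0
    · exact absurd (h0 ▸ hw.od.u0) hzU
    · exact h0
  obtain ⟨f1, f2, f3⟩ := hw.tb.hfst z hz0 hz
  obtain ⟨y1, y2, y3⟩ := (hw.tb.hys z hz).2 hzf f2
  rcases hH.2 with h0 | ⟨w, w1, w2, w3⟩
  · omega
  · rw [← w3]
    by_cases hwU : U w
    · rw [dep_U hw hwU]; omega
    · have hd := hcov w w1 w2
      have hne : pos w ≠ pos z := by rw [w2]; exact fun e => hzx e.symm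
      rcases (h2 n b d U fst par pos rt ys g hw hg z r w hz w1 hr hzU hzf hne).2 hd with
        c1 | c2 | c3 | c4
      · have := dep_le hw hzf w1
        omega
      · have := dep_le hw y1 w1
        omega
      · exact absurd (same_col' hw hzU hwU c3).symm hne
      · omega

end Pool.Agent.BDC.TIV

namespace Pool.Agent.BDC

open TIV

theorem p_TIV (h1 : T_TCOL) (h2 : T_TTST) (h3 : T_TZ) : T_TIV := by
  intro n b d U fst par pos rt ys g ec h wo HR HL Z hW hH k p hk hp hUp hZ hr hOk l u hlp hpu
    hun hL hR hl hu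
  have hw := hW.wd
  obtain ⟨z1, z2⟩ := h3 n b d U fst par pos rt ys g ec h wo Z hW k p hk hp hUp
  obtain ⟨zU, zp, zf, zd⟩ := z2 hZ
  obtain ⟨f1, f2, f3⟩ := hw.tb.hfst (Z k p) hZ z1
  obtain ⟨y1, y2, y3⟩ := (hw.tb.hys (Z k p) z1).2 zf f2
  have hrn : h p - k < n := by
    rcases (hW.hh p hp hUp).2 with h0 | ⟨w, w1, w2, w3⟩
    · omega
    · have := dep_lt hw w1
      omega
  have hposU : ∀ x, U x → pos x = x := by
    intro x hx
    obtain ⟨u1, u2, u3⟩ := hw.tb.hpos x (hw.od.ult x hx)
    have := u3 x hx le_rfl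
    omega
  -- in the column
  have hcol : ∀ w, w < n → pos w = p → d (Z k p) w ≤ h p - k := fun w w1 w2 =>
    (h1 n b d U fst par pos rt ys hw (Z k p) (h p - k) w z1 w1 hrn zU zf).1 (hOk w w1 w2)
  have htst : ∀ w, w < n → pos w ≠ p → (Tst b U fst ys (depF U d) HR HL d p (Z k p) (h p - k) w)
      → d (Z k p) w ≤ h p - k := by
    intro w w1 w2 ht
    refine (h2 n b d U fst par pos rt ys g hw hW.isg (Z k p) (h p - k) w z1 w1 hr zU zf
      (by rw [zp]; exact w2)).1 ?_
    rcases ht with c1 | c2 | c3 | ⟨c4, c5, c6⟩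
    · exact Or.inl c1
    · exact Or.inr (Or.inl c2)
    · exact Or.inr (Or.inr (Or.inl c3))
    · have hk' : h p - depF U d w - 1 = k := by omega
      refine Or.inr (Or.inr (Or.inr ⟨c4, ?_, c6⟩))
      rcases c5 with c5 | c5
      · obtain ⟨_, _, _, _, _, _, _, x, x1, x2, x3, x4⟩ := ((hH w w1 c4 p hp).1).1 c5
        rw [hk'] at x3
        exact ⟨x, x1, x2, x3, x4⟩
      · obtain ⟨_, _, _, _, _, _, _, x, x1, x2, x3, x4⟩ := ((hH w w1 c4 p hp).2).1 c5
        rw [hk'] at x3
        exact ⟨x, x1, x2, x3, x4⟩
  refine ⟨?_, ?_⟩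
  · intro w w1 w2
    rcases lt_trichotomy w p with hwp | hwp | hwp
    · refine htst w (by omega) ?_ (hL w w1 hwp)
      have := (hw.tb.hpos w (by omega)).2.1
      omega
    · exact hcol w (by omega) (by rw [hwp]; exact hposU p hUp)
    · by_cases hc : pos w = p
      · exact hcol w (by omega) hc
      · exact htst w (by omega) hc ((hR w hwp w2).resolve_left hc)
  · intro i j hi hj hip hpj hjn hcov
    constructor
    · by_contra hc
      have hc' : i < l := by omega
      rcases hl with hl | hl
      · omega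
      · have w1 : l - 1 < n := by omega
        have wp : l - 1 < p := by omega
        have wpos := (hw.tb.hpos (l - 1) w1).2.1
        have wd := hcov (l - 1) (by omega) (by omega)
        rcases (h2 n b d U fst par pos rt ys g hw hW.isg (Z k p) (h p - k) (l - 1) z1 w1 hr zU
          zf (by omega)).2 wd with c1 | c2 | c3 | ⟨c4, ⟨x, x1, x2, x3, x4⟩, c6⟩
        · exact hl (Or.inl c1)
        · exact hl (Or.inr (Or.inl c2))
        · exact hl (Or.inr (Or.inr (Or.inl c3)))
        · refine hl (Or.inr (Or.inr (Or.inr ⟨c4, Or.inl ?_, c6⟩)))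
          have hk' : h p - depF U d (l - 1) - 1 = k := by omega
          refine ((hH (l - 1) w1 c4 p hp).1).2 ⟨hUp, hp, wp, by omega, ?_, by omega, ?_, x, x1,
            x2, ?_, x4⟩
          · intro y hy hy1 hy2
            have hyn : y < n := by omega
            have := height_le (h := h) h2 hw hW.isg (hW.hh y hyn hy) z1 zU zf
              (by omega) hr (by
                intro w'' v1 v2
                obtain ⟨p1, p2, p3⟩ := hw.tb.hpos w'' v1
                have hv : w'' < p := by
                  by_contra hcc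
                  have := p3 p hUp (by omega)
                  omega
                exact hcov w'' (by omega) (by omega))
            omega
          · rw [hk']; exact hZ
          · rw [hk']; exact x3
    · by_contra hc
      have hc' : u < j := by omega
      rcases hu with hu | hu
      · omega
      · have w1 : u < n := by omega
        obtain ⟨q1, q2, q3⟩ := hw.tb.hpos u w1
        have hup : pos u ≠ p := fun e => hu (Or.inl e)
        have hpp : p < pos u := by
          have := q3 p hUp (by omega)
          omega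
        have wd := hcov u (by omega) (by omega)
        rcases (h2 n b d U fst par pos rt ys g hw hW.isg (Z k p) (h p - k) u z1 w1 hr zU
          zf (by omega)).2 wd with c1 | c2 | c3 | ⟨c4, ⟨x, x1, x2, x3, x4⟩, c6⟩
        · exact hu (Or.inr (Or.inl c1))
        · exact hu (Or.inr (Or.inr (Or.inl c2)))
        · exact hu (Or.inr (Or.inr (Or.inr (Or.inl c3))))
        · refine hu (Or.inr (Or.inr (Or.inr (Or.inr ⟨c4, Or.inr ?_, c6⟩))))
          have hk' : h p - depF U d u - 1 = k := by omega
          refine ((hH u w1 c4 p hp).2).2 ⟨hUp, hp, hpp, by omega, ?_, by omega, ?_, x, x1,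
            x2, ?_, x4⟩
          · intro y hy hy1 hy2
            have hyn : y < n := by omega
            have := height_le (h := h) h2 hw hW.isg (hW.hh y hyn hy) z1 zU zf
              (by omega) hr (by
                intro w'' v1 v2
                obtain ⟨p1, p2, p3⟩ := hw.tb.hpos w'' v1
                have hv : w'' < pos u := by
                  by_contra hcc
                  have := p3 (pos u) q1 (by omega)
                  omega
                exact hcov w'' (by omega) (by omega))
            omega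
          · rw [hk']; exact hZ
          · rw [hk']; exact x3

end Pool.Agent.BDC
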