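import Pool.Agent.BDC.DISJ

/-!
# BDC-TRI: three balls of a minimal cover are not pairwise adjacent
-/

namespace Pool.Agent.BDC

/-- a ball is connected -/
lemma tri_ball_cn {V : Type} {G : SimpleGraph V} (hG : G.Connected) (b : V × ℕ) :
    ∀ (k : ℕ) (w : V), G.dist b.1 w = k → InB G b w → Cn G {w | InB G b w} b.1 w := by
  intro k
  induction k with
  | zero =>
    intro w hk hw
    have hbw : b.1 = w := by
      by_contra hne
      have := dist_pos_of_ne hG hne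
      omega
    rw [← hbw]
    exact Cn.refl (by simp [InB])
  | succ k ih =>
    intro w hk hw
    have hne : w ≠ b.1 := by
      rintro rfl
      simp at hk
    obtain ⟨z, hz1, hz2⟩ := dist_step hG hne
    have h1 : G.dist b.1 z = k := by
      rw [SimpleGraph.dist_comm]
      rw [SimpleGraph.dist_comm] at hk
      omega
    have hw' : G.dist b.1 w ≤ b.2 := hw
    have hz : InB G b z := by
      change G.dist b.1 z ≤ b.2
      omega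
    exact (ih z h1 hz).trans (Cn.adj hz hw hz1.symm)

lemma tri_ball_cn' {V : Type} {G : SimpleGraph V} (hG : G.Connected) {b : V × ℕ} {w w' : V}
    (hw : InB G b w) (hw' : InB G b w') : Cn G {w | InB G b w} w w' :=
  (tri_ball_cn hG b _ w rfl hw).symm.trans (tri_ball_cn hG b _ w' rfl hw')

/-- leaving a set inside a connected set -/
lemma tri_cn_exit {V : Type*} {G : SimpleGraph V} {S : Set V} {a b : V} (h : Cn G S a b)
    (P : V → Prop) (ha : P a) (hb : ¬ P b) :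
    ∃ x y, x ∈ S ∧ y ∈ S ∧ P x ∧ ¬ P y ∧ G.Adj x y := by
  obtain ⟨h1, h2⟩ := h
  induction h2 with
  | refl => exact absurd ha hb
  | @tail b c h3 h4 ih =>
    by_cases hPb : P b
    · exact ⟨b, c, Cn.right ⟨h1, h3⟩, h4.2, hPb, hb, h4.1⟩
    · exact ih hPb

/-- if the first vertex of a ball is later than the first vertex of an adjacent ball, then the
other ball meets its earlier neighbours -/
lemma tri_ball_meets {V : Type} {G : SimpleGraph V} (hG : G.Connected) {num : V → ℕ}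
    (hn : PEO G.Adj num) {b b' : V × ℕ} (hadj : AdjB G b b') {t t' : V}
    (ht : InB G b t) (ht' : InB G b' t') (hmin' : ∀ w, InB G b' w → num t' ≤ num w)
    (hlt : num t < num t') : ∃ y, InB G b y ∧ Er G.Adj num y t' := by
  obtain ⟨y, y', hy, hy', hyy⟩ := hadj
  have hanc : Anc G.Adj num t' y' :=
    anc_of_cn hn (fun w hw => hmin' w hw.right) (tri_ball_cn' hG ht' hy')
  by_cases hyt : Anc G.Adj num t' y
  · have htt : ¬ Anc G.Adj num t' t := by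
      intro hc
      have := hc.le
      omega
    obtain ⟨x, z, hx, hz, h1, h2, h3⟩ :=
      tri_cn_exit (tri_ball_cn' hG hy ht) (fun w => Anc G.Adj num t' w) hyt htt
    exact ⟨z, hz, hn.boundary h1 h2 h3⟩
  · exact ⟨y, hy, hn.boundary hanc hyt hyy.symm⟩

/-- three balls containing the vertices of a triangle can be merged -/
lemma tri_merge (h : T_MERGE) {V : Type} [Fintype V] {G : SimpleGraph V} {C : Finset (V × ℕ)}
    (hG : G.Connected) (hC : MinCover G C) {b₁ b₂ b₃ : V × ℕ} (hb₁ : b₁ ∈ C)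
    (hb₂ : b₂ ∈ C) (hb₃ : b₃ ∈ C) (n12 : b₁ ≠ b₂) (n13 : b₁ ≠ b₃) (n23 : b₂ ≠ b₃)
    (y₁ y₂ y₃ : V) (h1 : InB G b₁ y₁) (h2 : InB G b₂ y₂) (h3 : InB G b₃ y₃)
    (a12 : G.dist y₁ y₂ ≤ 1) (a13 : G.dist y₁ y₃ ≤ 1)
    (h21 : b₂.2 ≤ b₁.2) (h31 : b₃.2 ≤ b₁.2) : False := by
  classical
  have p1 := hC.cover.pos _ hb₁
  have p2 := hC.cover.pos _ hb₂
  have p3 := hC.cover.pos _ hb₃
  have hcost : cost ({b₁, b₂, b₃} : Finset (V × ℕ)) = b₁.2 + (b₂.2 + b₃.2) := by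
    unfold cost
    rw [Finset.sum_insert (by simp [n12, n13]), Finset.sum_pair n23]
  have hcard : 2 ≤ ({b₁, b₂, b₃} : Finset (V × ℕ)).card := by
    rw [Finset.card_insert_of_notMem (by simp [n12, n13]), Finset.card_pair n23]
    omega
  have hsub : ({b₁, b₂, b₃} : Finset (V × ℕ)) ⊆ C := by
    intro x hx
    simp only [Finset.mem_insert, Finset.mem_singleton] at hx
    rcases hx with rfl | rfl | rfl <;> assumption
  obtain ⟨m, hm1, hm2⟩ := disj_move hG y₁ b₁.1 (b₁.2 - b₂.2 - b₃.2)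
  have e1 : G.dist b₁.1 y₁ ≤ b₁.2 := h1
  have e2 : G.dist b₂.1 y₂ ≤ b₂.2 := h2
  have e3 : G.dist b₃.1 y₃ ≤ b₃.2 := h3
  rw [SimpleGraph.dist_comm] at e1 e2 e3 hm1
  have t2 : G.dist m b₂.1 ≤ G.dist m y₁ + G.dist y₁ b₂.1 := hG.dist_triangle
  have t2' : G.dist y₁ b₂.1 ≤ G.dist y₁ y₂ + G.dist y₂ b₂.1 := hG.dist_triangle
  have t3 : G.dist m b₃.1 ≤ G.dist m y₁ + G.dist y₁ b₃.1 := hG.dist_triangle
  have t3' : G.dist y₁ b₃.1 ≤ G.dist y₁ y₃ + G.dist y₃ b₃.1 := hG.dist_triangle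
  refine h V G C {b₁, b₂, b₃} m hC hsub hcard ?_
  intro x hx y hy
  have hy' : G.dist x.1 y ≤ x.2 := hy
  have ht : G.dist m y ≤ G.dist m x.1 + G.dist x.1 y := hG.dist_triangle
  rw [hcost]
  simp only [Finset.mem_insert, Finset.mem_singleton] at hx
  rcases hx with rfl | rfl | rfl
  · omega
  · omega
  · omega

/-- as `tri_merge`, without the assumption on the radii -/
lemma tri_merge' (h : T_MERGE) {V : Type} [Fintype V] {G : SimpleGraph V} {C : Finset (V × ℕ)}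
    (hG : G.Connected) (hC : MinCover G C) {b₁ b₂ b₃ : V × ℕ} (hb₁ : b₁ ∈ C)
    (hb₂ : b₂ ∈ C) (hb₃ : b₃ ∈ C) (n12 : b₁ ≠ b₂) (n13 : b₁ ≠ b₃) (n23 : b₂ ≠ b₃)
    (y₁ y₂ y₃ : V) (h1 : InB G b₁ y₁) (h2 : InB G b₂ y₂) (h3 : InB G b₃ y₃)
    (a12 : G.dist y₁ y₂ ≤ 1) (a13 : G.dist y₁ y₃ ≤ 1) (a23 : G.dist y₂ y₃ ≤ 1) : False := by
  by_cases c1 : b₂.2 ≤ b₁.2 ∧ b₃.2 ≤ b₁.2
  · exact tri_merge h hG hC hb₁ hb₂ hb₃ n12 n13 n23 y₁ y₂ y₃ h1 h2 h3 a12 a13 c1.1 c1.2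
  · by_cases c2 : b₁.2 ≤ b₂.2 ∧ b₃.2 ≤ b₂.2
    · exact tri_merge h hG hC hb₂ hb₁ hb₃ n12.symm n23 n13 y₂ y₁ y₃ h2 h1 h3
        (by rw [SimpleGraph.dist_comm]; exact a12) a23 c2.1 c2.2
    · exact tri_merge h hG hC hb₃ hb₁ hb₂ n13.symm n23.symm n12 y₃ y₁ y₂ h3 h1 h2
        (by rw [SimpleGraph.dist_comm]; exact a13) (by rw [SimpleGraph.dist_comm]; exact a23)
        (by omega) (by omega)

lemma tri_adjB_symm {V : Type} {G : SimpleGraph V} {b b' : V × ℕ} (h : AdjB G b b') :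
    AdjB G b' b := by
  obtain ⟨x, y, h1, h2, h3⟩ := h
  exact ⟨y, x, h2, h1, h3.symm⟩

/-- the case where the first vertex of the third ball is the latest -/
lemma tri_aux (h : T_MERGE) (hD : T_DISJ) {V : Type} [Fintype V] {G : SimpleGraph V}
    {C : Finset (V × ℕ)} (hG : G.Connected) (hC : MinCover G C) {num : V → ℕ}
    (hn : PEO G.Adj num) {b₁ b₂ b₃ : V × ℕ} (hb₁ : b₁ ∈ C)
    (hb₂ : b₂ ∈ C) (hb₃ : b₃ ∈ C) (n12 : b₁ ≠ b₂) (n13 : b₁ ≠ b₃) (n23 : b₂ ≠ b₃)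
    (a13 : AdjB G b₁ b₃) (a23 : AdjB G b₂ b₃) {t₁ t₂ t₃ : V}
    (ht₁ : InB G b₁ t₁) (ht₂ : InB G b₂ t₂) (ht₃ : InB G b₃ t₃)
    (hm₃ : ∀ w, InB G b₃ w → num t₃ ≤ num w) (h1 : num t₁ ≤ num t₃) (h2 : num t₂ ≤ num t₃) :
    False := by
  have ne : ∀ {b t}, b ∈ C → b ≠ b₃ → InB G b t → num t ≤ num t₃ → num t < num t₃ := by
    intro b t hb hne ht hle
    refine lt_of_le_of_ne hle (fun e => ?_)
    have htt := hn.inj e
    exact hD V G C hG hC b hb b₃ hb₃ hne t ht (htt ▸ ht₃)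
  obtain ⟨y₁, hy₁, e₁⟩ := tri_ball_meets hG hn a13 ht₁ ht₃ hm₃ (ne hb₁ n13 ht₁ h1)
  obtain ⟨y₂, hy₂, e₂⟩ := tri_ball_meets hG hn a23 ht₂ ht₃ hm₃ (ne hb₂ n23 ht₂ h2)
  have hne : y₁ ≠ y₂ := by
    rintro rfl
    exact hD V G C hG hC b₁ hb₁ b₂ hb₂ n12 y₁ hy₁ hy₂
  have hadj : G.Adj y₁ y₂ := hn.clq t₃ y₁ y₂ e₁.1 e₂.1 e₁.2 e₂.2 hne
  exact tri_merge' h hG hC hb₁ hb₂ hb₃ n12 n13 n23 y₁ y₂ t₃ hy₁ hy₂ ht₃
    (SimpleGraph.dist_eq_one_iff_adj.2 hadj).le (SimpleGraph.dist_eq_one_iff_adj.2 e₁.1).le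
    (SimpleGraph.dist_eq_one_iff_adj.2 e₂.1).le

theorem p_TRI (h : T_MERGE) (hD : T_DISJ) : T_TRI := by
  classical
  intro V _ G C hG hR hC b₁ hb₁ b₂ hb₂ b₃ hb₃ n12 n13 n23 a12 a13 a23
  obtain ⟨num, hn⟩ := hR b₁.1
  have hfirst : ∀ b : V × ℕ, ∃ t, InB G b t ∧ ∀ w, InB G b w → num t ≤ num w := by
    intro b
    obtain ⟨t, ht1, ht2⟩ := Set.exists_min_image {w | InB G b w} num (Set.toFinite _)
      ⟨b.1, by simp [InB]⟩
    exact ⟨t, ht1, fun w hw => ht2 w hw⟩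
  obtain ⟨t₁, ht₁, hm₁⟩ := hfirst b₁
  obtain ⟨t₂, ht₂, hm₂⟩ := hfirst b₂
  obtain ⟨t₃, ht₃, hm₃⟩ := hfirst b₃
  by_cases c3 : num t₁ ≤ num t₃ ∧ num t₂ ≤ num t₃
  · exact tri_aux h hD hG hC hn.peo hb₁ hb₂ hb₃ n12 n13 n23 a13 a23 ht₁ ht₂ ht₃ hm₃ c3.1 c3.2
  · by_cases c2 : num t₁ ≤ num t₂ ∧ num t₃ ≤ num t₂
    · exact tri_aux h hD hG hC hn.peo hb₁ hb₃ hb₂ n13 n12 n23.symm a12 (tri_adjB_symm a23)
        ht₁ ht₃ ht₂ hm₂ c2.1 c2.2
    · exact tri_aux h hD hG hC hn.peo hb₂ hb₃ hb₁ n23 n12.symm n13.symm (tri_adjB_symm a12) (tri_adjB_symm a13)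
        ht₂ ht₃ ht₁ hm₁ (by omega) (by omega)

end Pool.Agent.BDC
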