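import Pool.Agent.BDC.TargetsN

set_option autoImplicit false

/-!
# BDC: job TTST, the coverage test outside the column
-/

namespace Pool.Agent.BDC

namespace TTST

variable {n : ℕ} {b d : ℕ → ℕ → ℕ} {U : ℕ → Prop} {fst par pos rt ys : ℕ → ℕ}

/-- ancestors -/
abbrev A (b : ℕ → ℕ → ℕ) (x w : ℕ) : Prop := Anc (Ad b) (fun i => i) x w

section
variable (W : World n b d U fst par pos rt ys)
include W

lemma peo : PEO (Ad b) (fun i => i) where
  sym := fun x y h => W.gr.sym x y h
  inj := fun _ _ h => h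
  clq := fun w y z h1 h2 h3 h4 h5 => W.od.ord.clq w y z h1 h2 h3 h4 h5

lemma la {x y w : ℕ} (hx : A b x w) (hy : b y w = 1) (hyw : y < w) (h : y < x) : b y x = 1 :=
  ((peo W).LA hx ⟨hy, hyw⟩ h).1

lemma anc_of_le {x : ℕ} (hx : U x) : ∀ w, w < n → x ≤ w → A b x w := by
  intro w
  induction w using Nat.strong_induction_on with
  | _ w ih =>
    intro hw h
    rcases h.eq_or_lt with rfl | hlt
    · exact Anc.refl
    · obtain ⟨y, h1, h2, h3⟩ := W.od.col x w hx hlt hw
      exact Anc.step ⟨h3, h2⟩ (ih y h2 (by omega) h1)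

lemma U_anc {x w : ℕ} (h : A b x w) : U w → U x := by
  induction h with
  | refl => exact fun h => h
  | step h1 _ ih => exact fun hw => ih (W.od.uE _ _ hw h1.1 h1.2)

lemma lt_of_adj {w x : ℕ} (hw : ¬ U w) (hx : U x) (h : b w x = 1) : x < w := by
  by_contra hc
  have hne : w ≠ x := by
    rintro rfl
    exact hw hx
  exact hw (W.od.uE x w hx h (by omega))

lemma pos_eq {y w : ℕ} (hw : w < n) (hy : ¬ U y) (h : A b y w) : pos w = pos y := by
  have hyw : y ≤ w := h.le
  have h1 := W.tb.hpos w hw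
  have h2 := W.tb.hpos y (by omega)
  apply le_antisymm
  · apply h2.2.2 _ h1.1
    by_contra hc
    have h3 : A b y (pos w) :=
      (peo W).chain' h (anc_of_le W h1.1 w hw h1.2.1) (by show y ≤ pos w; omega)
    exact hy (U_anc W h3 h1.1)
  · exact h1.2.2 _ h2.1 (by omega)

lemma pos_adj {y w : ℕ} (hy : ¬ U y) (hw : ¬ U w) (h : b y w = 1) : pos y = pos w := by
  have hd := W.gr.dom y w h
  rcases lt_trichotomy y w with h1 | h1 | h1
  · exact (pos_eq W hd.2 hy (Anc.step ⟨h, h1⟩ Anc.refl)).symm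
  · rw [h1]
  · exact pos_eq W hd.1 hw (Anc.step ⟨W.gr.sym _ _ h, h1⟩ Anc.refl)

/-- a step up on a geodesic is followed by steps up -/
lemma up {w : ℕ} (hw : w < n) : ∀ (m z k : ℕ), b z k = 1 → z < k → d k w + 1 = d z w →
    d k w = m → A b k w := by
  intro m
  induction m with
  | zero =>
    intro z k h1 h2 h3 h4
    rw [W.gr.eqz k w (W.gr.dom _ _ h1).2 hw h4]
    exact Anc.refl
  | succ m ih =>
    intro z k h1 h2 h3 h4
    have hk := (W.gr.dom _ _ h1).2
    have hz := (W.gr.dom _ _ h1).1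
    have hne : k ≠ w := by
      rintro rfl
      rw [W.gr.zero k hk] at h4
      omega
    obtain ⟨k', h5, h6⟩ := W.gr.step k w hk hw hne
    have hk' := (W.gr.dom _ _ h5).2
    rcases lt_trichotomy k k' with h7 | h7 | h7
    · exact Anc.trans (Anc.step ⟨h5, h7⟩ Anc.refl) (ih k k' h5 h7 h6 (by omega))
    · rw [h7] at h6; omega
    · exfalso
      by_cases h8 : z = k'
      · rw [h8] at h3; omega
      · have h9 := W.od.ord.clq k z k' h1 (W.gr.sym _ _ h5) h2 h7 h8
        have h10 := W.gr.tri z k' w hz hk' hw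
        rw [W.gr.adj _ _ h9] at h10
        omega

lemma down {z w : ℕ} (hz : z < n) (hw : w < n) (h : ¬ A b z w) :
    ∃ k, b z k = 1 ∧ k < z ∧ d k w + 1 = d z w := by
  have hne : z ≠ w := by
    rintro rfl
    exact h Anc.refl
  obtain ⟨k, h1, h2⟩ := W.gr.step z w hz hw hne
  refine ⟨k, h1, ?_, h2⟩
  by_contra hc
  have hzk : z ≠ k := by
    rintro rfl
    exact W.gr.irr _ h1
  have hlt : z < k := by omega
  exact h (Anc.trans (Anc.step ⟨h1, hlt⟩ Anc.refl) (up W hw _ z k h1 hlt h2 rfl))

/-- two descents -/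
lemma two {z k w : ℕ} (hw : w < n) (h1 : b z k = 1) (h2 : k < z)
    (h3 : d k w + 1 = d z w) (h4 : ¬ A b k w) : d (fst z) w < d z w := by
  have hz := (W.gr.dom _ _ h1).1
  have hk := (W.gr.dom _ _ h1).2
  obtain ⟨k', h5, h6, h7⟩ := down W hk hw h4
  have hk' := (W.gr.dom _ _ h5).2
  obtain ⟨h8, h9, h10⟩ := W.tb.hfst z (by omega) hz
  have hf := (W.gr.dom _ _ h9).2
  have h11 := h10 k hk h1
  rcases h11.eq_or_lt with h12 | h12
  · rw [h12]; omega
  · have h13 := W.od.ord.clq z (fst z) k (W.gr.sym _ _ h9) (W.gr.sym _ _ h1) h8 h2 (by omega)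
    by_cases h14 : fst z = k'
    · rw [h14]; omega
    · have h15 := W.od.ord.clq k (fst z) k' h13 (W.gr.sym _ _ h5) h12 h6 h14
      have h16 := W.gr.tri (fst z) k' w hf hk' hw
      rw [W.gr.adj _ _ h15] at h16
      omega

/-- monotonicity -/
lemma mono {y y' : ℕ} (hy : U y) (hy' : U y') (hyy : y = y' ∨ b y y' = 1) (hrt : rt y' ≤ rt y) :
    ∀ p, U p → y < p → y' < p → d p y ≤ d p y' := by
  intro p
  induction p using Nat.strong_induction_on with
  | _ p ih =>
    intro hp h1 h2
    have hpn := W.od.ult p hp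
    have hyn := W.od.ult y hy
    have hyn' := W.od.ult y' hy'
    have hna : ¬ A b p y' := fun h => absurd h.le (not_le.2 h2)
    obtain ⟨c, h3, h4, h5⟩ := down W hpn hyn' hna
    have hc : U c := W.od.uE p c hp (W.gr.sym _ _ h3) h4
    have hcn := W.od.ult c hc
    have hpc := W.gr.adj _ _ h3
    have hAy : A b y p := anc_of_le W hy p hpn h1.le
    have hAy' : A b y' p := anc_of_le W hy' p hpn h2.le
    -- a vertex adjacent to `c` is at distance at most two
    have h2c : ∀ v, b c v = 1 → d p v ≤ 2 := by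
      intro v hv
      have h6 := W.gr.tri p c v hpn hcn (W.gr.dom _ _ hv).2
      rw [hpc, W.gr.adj _ _ hv] at h6
      omega
    by_cases hcy : c = y
    · rw [← hcy, hpc]; omega
    rcases lt_trichotomy c y' with h6 | h6 | h6
    · -- `c < y'`
      have h7 := la W hAy' (W.gr.sym _ _ h3) h4 h6
      have h8 : d p y ≤ 2 := by
        rcases lt_or_gt_of_ne hcy with h9 | h9
        · exact h2c y (la W hAy (W.gr.sym _ _ h3) h4 h9)
        · rcases hyy with h10 | h10
          · omega
          · have h11 : b y c = 1 := la W (Anc.step ⟨h7, h6⟩ Anc.refl) h10 (by omega) h9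
            exact h2c y (W.gr.sym _ _ h11)
      have h12 := W.gr.adj _ _ h7
      omega
    · -- `c = y'`
      rw [h6] at h3
      have h7 := (W.tb.hrt y' hyn').2.2 p hpn h2 hp (W.gr.sym _ _ h3)
      obtain ⟨h8, h9, h10⟩ := W.tb.hrt y hyn
      have h11 : y < rt y ∧ U (rt y) ∧ b y (rt y) = 1 := by
        rcases h9 with h9 | h9
        · omega
        · exact h9
      have h12 : b y p = 1 :=
        la W (anc_of_le W hp (rt y) h8 (by omega)) h11.2.2 h11.1 h1
      rw [W.gr.adj _ _ (W.gr.sym _ _ h12)]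
      omega
    · -- `y' < c`
      have h7 : 1 ≤ d c y' := by
        by_contra h8
        have := W.gr.eqz c y' hcn hyn' (by omega)
        omega
      rcases lt_or_gt_of_ne hcy with h9 | h9
      · have h10 := h2c y (la W hAy (W.gr.sym _ _ h3) h4 h9)
        omega
      · have h10 := ih c h4 hc h9 h6
        have h11 := W.gr.tri p c y hpn hcn hyn
        omega

/-- the clique of a vertex of the path -/
def InP (b : ℕ → ℕ → ℕ) (x p : ℕ) : Prop := x = p ∨ (b x p = 1 ∧ x < p)

lemma inP_dist {x y p : ℕ} (hp : U p) (hx : InP b x p) (hy : InP b y p) : d x y ≤ 1 := by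
  have hpn := W.od.ult p hp
  rcases hx with rfl | ⟨h1, h2⟩
  · rcases hy with rfl | ⟨h3, h4⟩
    · rw [W.gr.zero _ hpn]; omega
    · rw [W.gr.adj _ _ (W.gr.sym _ _ h3)]
  · rcases hy with rfl | ⟨h3, h4⟩
    · rw [W.gr.adj _ _ h1]
    · by_cases h5 : x = y
      · rw [h5, W.gr.zero _ (by omega)]; omega
      · rw [W.gr.adj _ _ (W.od.ord.clq p x y h1 h3 h2 h4 h5)]

/-- an earlier neighbour `x` of `w` before or at the ancestor `p` -/
lemma inP_of {x w p : ℕ} (hA : A b p w) (h : b x w = 1) (hlt : x < w) (hle : x ≤ p) :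
    InP b x p := by
  rcases hle.eq_or_lt with h1 | h1
  · exact Or.inl h1
  · exact Or.inr ⟨la W hA h hlt h1, h1⟩

lemma anc_pos {w : ℕ} (hw : w < n) : A b (pos w) w :=
  anc_of_le W (W.tb.hpos w hw).1 w hw (W.tb.hpos w hw).2.1

/-- an element of the path which is nearest to `w` -/
lemma inP_near : ∀ (m w x : ℕ), d w x = m → w < n → ¬ U w → U x →
    (∀ x', U x' → d w x ≤ d w x') → InP b x (pos w) := by
  intro m
  induction m with
  | zero =>
    intro w x h1 hw h2 h3 _
    rw [W.gr.eqz w x hw (W.od.ult x h3) h1] at h2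
    exact absurd h3 h2
  | succ m ih =>
    intro w x h1 hw h2 h3 h4
    have hxn := W.od.ult x h3
    have hne : w ≠ x := by
      rintro rfl
      exact h2 h3
    obtain ⟨k, h5, h6⟩ := W.gr.step w x hw hxn hne
    have hk := (W.gr.dom _ _ h5).2
    by_cases hUk : U k
    · have h7 := h4 k hUk
      rw [W.gr.adj _ _ h5] at h7
      have h8 : k = x := W.gr.eqz k x hk hxn (by omega)
      rw [← h8]
      have h9 := lt_of_adj W h2 hUk h5
      exact inP_of W (anc_pos W hw) (W.gr.sym _ _ h5) h9 ((W.tb.hpos w hw).2.2 k hUk h9.le)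
    · rw [pos_adj W h2 hUk h5]
      refine ih k x (by omega) hk hUk h3 fun x' hx' => ?_
      have h7 := h4 x' hx'
      have h8 := W.gr.tri w k x' hw hk (W.od.ult x' hx')
      rw [W.gr.adj _ _ h5] at h8
      omega

lemma dep_spec (w : ℕ) : (∃ x, U x ∧ d w x = depF U d w) ∧ ∀ x, U x → depF U d w ≤ d w x := by
  constructor
  · have h : (sInf {k | ∃ x, U x ∧ d w x = k}) ∈ {k | ∃ x, U x ∧ d w x = k} :=
      Nat.sInf_mem ⟨_, 0, W.od.u0, rfl⟩
    exact h
  · intro x hx
    exact Nat.sInf_le ⟨x, hx, rfl⟩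

/-- vertices of the clique of the column of `w` are near `w` -/
lemma dist_le_dep {w y : ℕ} (hw : w < n) (h : ¬ U w) (hy : InP b y (pos w)) (hyn : y < n) :
    d y w ≤ depF U d w + 1 := by
  obtain ⟨⟨x, h1, h2⟩, h3⟩ := dep_spec W w
  have h4 := inP_near W _ w x rfl hw h h1 fun x' hx' => by rw [h2]; exact h3 x' hx'
  have h5 := inP_dist W (W.tb.hpos w hw).1 hy h4
  have hxn := W.od.ult x h1
  have h6 := W.gr.tri y x w hyn hxn hw
  rw [W.gr.dsym x w hxn hw, h2] at h6
  omega

/-- a geodesic between two columns meets the path -/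
lemma meets : ∀ (m z w : ℕ), d z w = m → z < n → w < n → ¬ U z → ¬ U w → pos w ≠ pos z →
    ∃ x, U x ∧ d z x + d x w = d z w := by
  intro m
  induction m with
  | zero =>
    intro z w h1 hz hw _ _ h4
    exact absurd (by rw [W.gr.eqz z w hz hw h1]) h4
  | succ m ih =>
    intro z w h1 hz hw h2 h3 h4
    have hne : z ≠ w := by
      rintro rfl
      exact h4 rfl
    obtain ⟨k, h5, h6⟩ := W.gr.step z w hz hw hne
    have hk := (W.gr.dom _ _ h5).2
    by_cases hUk : U k
    · refine ⟨k, hUk, ?_⟩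
      rw [W.gr.adj _ _ h5]
      omega
    · obtain ⟨x, h7, h8⟩ := ih k w (by omega) hk hw hUk h3
        (by rw [← pos_adj W h2 hUk h5]; exact h4)
      refine ⟨x, h7, ?_⟩
      have hxn := W.od.ult x h7
      have h9 := W.gr.tri z k x hz hk hxn
      have h10 := W.gr.tri z x w hz hxn hw
      rw [W.gr.adj _ _ h5] at h9
      omega

/-- a geodesic into the descendants of `p` passes an earlier neighbour of `p` -/
lemma enters {p : ℕ} : ∀ (m z w : ℕ), d z w = m → z < n → w < n → ¬ A b p z → A b p w →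
    ∃ e, b e p = 1 ∧ e < p ∧ d z e + d e w = d z w := by
  intro m
  induction m with
  | zero =>
    intro z w h1 hz hw h2 h3
    rw [W.gr.eqz z w hz hw h1] at h2
    exact absurd h3 h2
  | succ m ih =>
    intro z w h1 hz hw h2 h3
    have hne : z ≠ w := by
      rintro rfl
      exact h2 h3
    obtain ⟨k, h5, h6⟩ := W.gr.step z w hz hw hne
    have hk := (W.gr.dom _ _ h5).2
    by_cases hA : A b p k
    · have h7 := (peo W).boundary hA h2 (W.gr.sym _ _ h5)
      refine ⟨z, h7.1, h7.2, ?_⟩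
      rw [W.gr.zero z hz]
      omega
    · obtain ⟨e, h7, h8, h9⟩ := ih k w (by omega) hk hw hA h3
      refine ⟨e, h7, h8, ?_⟩
      have hen := (W.gr.dom _ _ h7).1
      have h10 := W.gr.tri z k e hz hk hen
      have h11 := W.gr.tri z e w hz hen hw
      rw [W.gr.adj _ _ h5] at h10
      omega

/-- facts about the neighbours of `z` on the path -/
lemma z_facts {z : ℕ} (hz : z < n) (hU : ¬ U z) (hf : U (fst z)) :
    (fst z < z ∧ b z (fst z) = 1 ∧ ∀ j, j < n → b z j = 1 → fst z ≤ j) ∧
    U (ys z) ∧ b z (ys z) = 1 ∧ ys z < z ∧ ∀ x, x < n → U x → b z x = 1 → rt x ≤ rt (ys z) := by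
  have h0 : z ≠ 0 := by
    rintro rfl
    exact hU W.od.u0
  have h1 := W.tb.hfst z (by omega) hz
  have h2 := (W.tb.hys z hz).2 hf h1.2.1
  exact ⟨h1, h2.1, h2.2.1, lt_of_adj W hU h2.1 h2.2.1, h2.2.2⟩

lemma caseLt {z w : ℕ} (hz : z < n) (hU : ¬ U z) (hf : U (fst z)) (hw : U w) (hlt : w < z) :
    d (fst z) w < d z w ∨ b z w = 1 := by
  by_cases h1 : b z w = 1
  · exact Or.inr h1
  left
  have hwn := W.od.ult w hw
  obtain ⟨⟨h2, h3, h4⟩, -⟩ := z_facts W hz hU hf
  have hA : ¬ A b z w := fun h => absurd h.le (not_le.2 hlt)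
  obtain ⟨k, h5, h6, h7⟩ := down W hz hwn hA
  have hk := (W.gr.dom _ _ h5).2
  rcases lt_trichotomy (fst z) w with h8 | h8 | h8
  · have h9 := la W (anc_of_le W hw z hz hlt.le) (W.gr.sym _ _ h3) h2 h8
    rw [W.gr.adj _ _ h9]
    have h10 : d k w ≠ 0 := by
      intro h11
      rw [W.gr.eqz k w hk hwn h11] at h5
      exact h1 h5
    omega
  · rw [h8] at h3
    exact absurd h3 h1
  · refine two W hwn h5 h6 h7 fun h => ?_
    have h9 : k ≤ w := h.le
    have h10 := h4 k hk h5
    omega

lemma caseGt {z w : ℕ} (hz : z < n) (hU : ¬ U z) (hf : U (fst z)) (hw : U w) (hlt : z < w) :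
    d (fst z) w < d z w ∨ d (ys z) w < d z w := by
  have hwn := W.od.ult w hw
  obtain ⟨-, h2, h3, h4, h5⟩ := z_facts W hz hU hf
  have hA : ¬ A b z w := fun h => hU (U_anc W h hw)
  obtain ⟨k, h6, h7, h8⟩ := down W hz hwn hA
  have hk := (W.gr.dom _ _ h6).2
  by_cases hUk : U k
  · right
    have h9 : ys z = k ∨ b (ys z) k = 1 := by
      by_cases h10 : ys z = k
      · exact Or.inl h10
      · exact Or.inr (W.od.ord.clq z _ _ (W.gr.sym _ _ h3) (W.gr.sym _ _ h6) h4 h7 h10)
    have h10 := mono W h2 hUk h9 (h5 k hk hUk h6) w hw (by omega) (by omega)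
    rw [W.gr.dsym (ys z) w (W.od.ult _ h2) hwn]
    rw [W.gr.dsym w k hwn hk] at h10
    omega
  · left
    exact two W hwn h6 h7 h8 fun h => hUk (U_anc W h hw)

/-- the main case: both vertices off the path -/
lemma caseOff {z w r y : ℕ} (hz : z < n) (hw : w < n) (hU : ¬ U z) (hUw : ¬ U w)
    (hp : pos w ≠ pos z) {g : ℕ → ℕ} (hg : IsG n b d U g)
    (hr : d z w ≤ r) (hy : InP b y (pos w)) (hyn : y < n) (h : ¬ d y w < r) :
    ¬ U w ∧ (∃ x, x < n ∧ U x ∧ b z x = 1 ∧ b (g w) x = 1) ∧ depF U d w + 1 = r := by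
  have h1 := dist_le_dep W hw hUw hy hyn
  obtain ⟨x, h2, h3⟩ := meets W _ z w rfl hz hw hU hUw hp
  have hxn := W.od.ult x h2
  have h4 := (dep_spec W w).2 x h2
  rw [W.gr.dsym w x hw hxn] at h4
  have hne : z ≠ x := by
    rintro rfl
    exact hU h2
  obtain ⟨k, h5, h6⟩ := W.gr.step z x hz hxn hne
  have hk := (W.gr.dom _ _ h5).2
  have h7 : k = x := W.gr.eqz k x hk hxn (by omega)
  rw [h7] at h5
  refine ⟨hUw, ⟨x, hxn, h2, h5, (hg.pr w x hw hUw h2).2 ?_⟩, by omega⟩
  rw [W.gr.dsym w x hw hxn]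
  omega

lemma backward {z w r : ℕ} (hz : z < n) (hw : w < n) (hU : ¬ U z) (hf : U (fst z))
    (hp : pos w ≠ pos z) {g : ℕ → ℕ} (hg : IsG n b d U g) (hr : d z w ≤ r) :
    d (fst z) w < r ∨ d (ys z) w < r ∨ b z w = 1 ∨
      (¬ U w ∧ (∃ x, x < n ∧ U x ∧ b z x = 1 ∧ b (g w) x = 1) ∧ depF U d w + 1 = r) := by
  obtain ⟨⟨f1, f2, f3⟩, y1, y2, y3, y4⟩ := z_facts W hz hU hf
  have hfn := W.od.ult _ hf
  have hyn := W.od.ult _ y1
  by_cases hUw : U w
  · have hne : w ≠ z := by
      rintro rfl
      exact hU hUw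
    rcases lt_or_gt_of_ne hne with h1 | h1
    · rcases caseLt W hz hU hf hUw h1 with h2 | h2
      · left; omega
      · right; right; left; exact h2
    · rcases caseGt W hz hU hf hUw h1 with h2 | h2
      · left; omega
      · right; left; omega
  · obtain ⟨p1, p2, p3⟩ := W.tb.hpos w hw
    obtain ⟨q1, q2, q3⟩ := W.tb.hpos z hz
    have hpn := W.od.ult _ p1
    have hqn := W.od.ult _ q1
    rcases lt_or_gt_of_ne hp with h1 | h1
    · -- `pos w < pos z`
      by_cases h2 : fst z ≤ pos w
      · by_cases h3 : d (fst z) w < r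
        · exact Or.inl h3
        · right; right; right
          exact caseOff W hz hw hU hUw hp hg hr
            (inP_of W (anc_of_le W p1 z hz (by omega)) (W.gr.sym _ _ f2) f1 h2) hfn h3
      · left
        have hA : ¬ A b z w := fun h => hp (pos_eq W hw hU h)
        obtain ⟨k, h5, h6, h7⟩ := down W hz hw hA
        have hk := (W.gr.dom _ _ h5).2
        have h8 := two W hw h5 h6 h7 fun h => by
          by_cases hUk : U k
          · have h9 : k ≤ w := h.le
            have h10 := p3 k hUk h9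
            have h11 := f3 k hk h5
            omega
          · exact hp ((pos_eq W hw hUk h).trans (pos_adj W hU hUk h5).symm)
        omega
    · -- `pos z < pos w`
      have h2 : z < pos w := by
        by_contra h3
        have := q3 _ p1 (by omega)
        omega
      have hyq : ys z ≤ pos z := q3 _ y1 y3.le
      by_cases h3 : pos w ≤ rt (ys z)
      · by_cases h4 : d (ys z) w < r
        · exact Or.inr (Or.inl h4)
        · right; right; right
          obtain ⟨t1, t2, t3⟩ := W.tb.hrt (ys z) hyn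
          have t4 : ys z < rt (ys z) ∧ U (rt (ys z)) ∧ b (ys z) (rt (ys z)) = 1 := by
            rcases t2 with t2 | t2
            · omega
            · exact t2
          exact caseOff W hz hw hU hUw hp hg hr
            (inP_of W (anc_of_le W p1 _ t1 h3) t4.2.2 t4.1 (by omega)) hyn h4
      · have hA1 : ¬ A b (pos w) z := fun h => absurd h.le (not_le.2 h2)
        obtain ⟨e, e1, e2, e3⟩ := enters W _ z w rfl hz hw hA1 (anc_pos W hw)
        have hUe : U e := W.od.uE _ _ p1 e1 e2
        have hen := W.od.ult e hUe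
        have hfe := W.gr.tri (fst z) e w hfn hen hw
        have hye := W.gr.tri (ys z) e w hyn hen hw
        rcases lt_or_ge (pos z) e with h4 | h4
        · have h5 : z < e := by
            by_contra h6
            have := q3 e hUe (by omega)
            omega
          rcases caseGt W hz hU hf hUe h5 with h6 | h6
          · left; omega
          · right; left; omega
        · right; left
          have h5 : b z e ≠ 1 := by
            intro h6
            have h7 := y4 e hen hUe h6
            have h8 := (W.tb.hrt e hen).2.2 (pos w) hpn e2 p1 e1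
            omega
          have h6 : InP b e (pos z) :=
            inP_of W (anc_of_le W q1 _ hpn (by omega)) e1 e2 h4
          have h7 : InP b (ys z) (pos z) :=
            inP_of W (anc_pos W hz) (W.gr.sym _ _ y2) y3 hyq
          have h8 := inP_dist W q1 h7 h6
          have h9 : 2 ≤ d z e := by
            have hne : z ≠ e := by
              rintro rfl
              exact hU hUe
            obtain ⟨k, k1, k2⟩ := W.gr.step z e hz hen hne
            have h10 : d k e ≠ 0 := by
              intro h11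
              rw [W.gr.eqz k e (W.gr.dom _ _ k1).2 hen h11] at k1
              exact h5 k1
            omega
          omega

lemma forward {z w r : ℕ} (hz : z < n) (hw : w < n) (hr : 1 ≤ r) (hU : ¬ U z) (hf : U (fst z))
    {g : ℕ → ℕ} (hg : IsG n b d U g)
    (h : d (fst z) w < r ∨ d (ys z) w < r ∨ b z w = 1 ∨
      (¬ U w ∧ (∃ x, x < n ∧ U x ∧ b z x = 1 ∧ b (g w) x = 1) ∧ depF U d w + 1 = r)) :
    d z w ≤ r := by
  obtain ⟨⟨f1, f2, f3⟩, y1, y2, y3, y4⟩ := z_facts W hz hU hf
  have key : ∀ v, b z v = 1 → d z w ≤ 1 + d v w := by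
    intro v hv
    have h1 := W.gr.tri z v w hz (W.gr.dom _ _ hv).2 hw
    rw [W.gr.adj _ _ hv] at h1
    exact h1
  rcases h with h | h | h | ⟨h1, ⟨x, h2, h3, h4, h5⟩, h6⟩
  · have := key _ f2
    omega
  · have := key _ y2
    omega
  · rw [W.gr.adj _ _ h]
    exact hr
  · have h7 := key _ h4
    have h8 := (hg.pr w x hw h1 h3).1 h5
    rw [W.gr.dsym x w h2 hw, h8] at h7
    omega

end

end TTST

open TTST in
/-- the coverage test outside the column is exact -/
theorem p_TTST : T_TTST := by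
  intro n b d U fst par pos rt ys g W hg z r w hz hw hr hU hf hp
  exact ⟨forward W hz hw hr hU hf hg, backward W hz hw hU hf hp hg⟩

end Pool.Agent.BDC
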