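import Pool.Agent.BDC.CEN

/-! # BDC: at most two components; a ball containing a diametral pair -/

set_option autoImplicit false

namespace Pool.Agent.BDC

namespace TWO_

lemma cnUniv {V : Type} {G : SimpleGraph V} (hG : G.Connected) :
    ∀ (k : ℕ) (x y : V), G.dist x y = k → Cn G Set.univ x y := by
  intro k
  induction k with
  | zero =>
    intro x y h
    rw [CEN_.eq_of_dist hG h]
    exact Cn.refl (Set.mem_univ _)
  | succ k ih =>
    intro x y h
    have hne : x ≠ y := by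
      rintro rfl
      rw [SimpleGraph.dist_self] at h
      omega
    obtain ⟨z, h1, h2⟩ := dist_step hG hne
    exact (Cn.adj (Set.mem_univ _) (Set.mem_univ _) h1).trans (ih z y (by omega))

/-- a ball is connected -/
lemma ballCn {V : Type} [Fintype V] {G : SimpleGraph V} (hG : G.Connected) (b : V × ℕ) :
    ∀ (k : ℕ) (w : V), G.dist b.1 w = k → InB G b w → Cn G {w | InB G b w} w b.1 := by
  intro k
  induction k with
  | zero =>
    intro w h hw
    have := CEN_.eq_of_dist hG h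
    rw [← this]
    have h1 : InB G b b.1 := by
      change G.dist b.1 b.1 ≤ b.2
      rw [SimpleGraph.dist_self]
      exact Nat.zero_le _
    exact Cn.refl h1
  | succ k ih =>
    intro w h hw
    have hne : w ≠ b.1 := by
      rintro h1
      rw [h1, SimpleGraph.dist_self] at h
      omega
    obtain ⟨z, h1, h2⟩ := dist_step hG hne
    rw [SimpleGraph.dist_comm, SimpleGraph.dist_comm (u := w)] at h2
    have hw' : G.dist b.1 w ≤ b.2 := hw
    have hz : InB G b z := by
      change G.dist b.1 z ≤ b.2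
      omega
    have hw0 : w ∈ {w | InB G b w} := hw
    have hz0 : z ∈ {w | InB G b w} := hz
    exact (Cn.adj hw0 hz0 h1).trans (ih z (by omega) hz)

lemma ballCn' {V : Type} [Fintype V] {G : SimpleGraph V} (hG : G.Connected) {b : V × ℕ}
    {w w' : V} (hw : InB G b w) (hw' : InB G b w') : Cn G {w | InB G b w} w w' :=
  (ballCn hG b _ w rfl hw).trans (ballCn hG b _ w' rfl hw').symm

/-- two vertices of a ball of the cover are connected outside each other ball -/
lemma ballOut {V : Type} [Fintype V] (hD : T_DISJ) {G : SimpleGraph V} (hG : G.Connected)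
    {C : Finset (V × ℕ)} (hC : MinCover G C) {b b' : V × ℕ} (hb : b ∈ C) (hb' : b' ∈ C)
    (hne : b ≠ b') {w w' : V} (hw : InB G b' w) (hw' : InB G b' w') :
    Cn G {w | ¬ InB G b w} w w' :=
  Cn.mono (fun z hz hz2 => hD _ G C hG hC b hb b' hb' hne z hz2 hz) (ballCn' hG hw hw')

/-- every component of the complement of a ball is adjacent to the ball -/
lemma reach {V : Type} [Fintype V] {G : SimpleGraph V} (hG : G.Connected) (b : V × ℕ) {x : V}
    (hx : ¬ InB G b x) : ∃ y s, Cn G {w | ¬ InB G b w} x y ∧ InB G b s ∧ G.Adj s y := by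
  obtain ⟨p, q, hp, hq, hpq, _, _⟩ := CHAIN_.exit (cnUniv hG _ x b.1 rfl)
    {w | Cn G {w | ¬ InB G b w} x w} (Cn.refl hx)
    (fun h => by
      have h1 : ¬ InB G b b.1 := Cn.right h
      apply h1
      change G.dist b.1 b.1 ≤ b.2
      rw [SimpleGraph.dist_self]
      exact Nat.zero_le _)
  refine ⟨p, q, hp, ?_, hpq.symm⟩
  by_contra hc
  exact hq (Cn.trans hp (Cn.adj (Cn.right hp) hc hpq))

end TWO_

open TWO_ in
theorem p_TWO (hD : T_DISJ) (hS : T_STAR) : T_TWO := by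
  intro V _ G C hG hR hC b hb x₁ x₂ x₃ h₁ h₂ h₃
  by_contra hc
  push Not at hc
  obtain ⟨c12, c13, c23⟩ := hc
  obtain ⟨y₁, s₁, hy₁, hs₁, ha₁⟩ := reach hG b h₁
  obtain ⟨y₂, s₂, hy₂, hs₂, ha₂⟩ := reach hG b h₂
  obtain ⟨y₃, s₃, hy₃, hs₃, ha₃⟩ := reach hG b h₃
  obtain ⟨b₁, hb₁, hb₁y⟩ := hC.cover.cov y₁
  obtain ⟨b₂, hb₂, hb₂y⟩ := hC.cover.cov y₂
  obtain ⟨b₃, hb₃, hb₃y⟩ := hC.cover.cov y₃
  have n₁ : b ≠ b₁ := by
    rintro rfl
    exact hy₁.right hb₁y
  have n₂ : b ≠ b₂ := by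
    rintro rfl
    exact hy₂.right hb₂y
  have n₃ : b ≠ b₃ := by
    rintro rfl
    exact hy₃.right hb₃y
  have key : ∀ {x x' y y' : V} {b' b'' : V × ℕ}, b' ∈ C → b ≠ b' → Cn G {w | ¬ InB G b w} x y →
      Cn G {w | ¬ InB G b w} x' y' → InB G b' y → InB G b'' y' → ¬ Cn G {w | ¬ InB G b w} x x' →
      b' ≠ b'' := by
    intro x x' y y' b' b'' hb' hne hxy hxy' hy hy' hnc he
    subst he
    exact hnc ((hxy.trans (ballOut hD hG hC hb hb' hne hy hy')).trans hxy'.symm)
  exact hS V G C hG hC b hb b₁ hb₁ b₂ hb₂ b₃ hb₃ n₁ n₂ n₃ (key hb₁ n₁ hy₁ hy₂ hb₁y hb₂y c12)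
    (key hb₁ n₁ hy₁ hy₃ hb₁y hb₃y c13) (key hb₂ n₂ hy₂ hy₃ hb₂y hb₃y c23)
    ⟨s₁, y₁, hs₁, hb₁y, ha₁⟩ ⟨s₂, y₂, hs₂, hb₂y, ha₂⟩ ⟨s₃, y₃, hs₃, hb₃y, ha₃⟩

theorem p_A1i (h0 : T_P0) : T_A1i := by
  classical
  intro V _ G C hG hR hC u v huv b hb hbu hbv
  by_contra hne
  obtain ⟨b', hb', hbb'⟩ : ∃ b' ∈ C, b' ≠ b := by
    by_contra hc
    push Not at hc
    exact hne (Finset.eq_singleton_iff_unique_mem.2 ⟨hb, hc⟩)
  have hpos := hC.cover.pos b' hb'
  have hbu' : G.dist b.1 u ≤ b.2 := hbu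
  have hbv' : G.dist b.1 v ≤ b.2 := hbv
  have htri : G.dist u v ≤ G.dist u b.1 + G.dist b.1 v := hG.dist_triangle
  rw [SimpleGraph.dist_comm (u := u) (v := b.1)] at htri
  obtain ⟨m, hm1, hm2⟩ := dist_mid hG u v (G.dist u v / 2) (Nat.div_le_self _ _)
  have hcov : IsCover G {(m, b.2 + 1)} := by
    constructor
    · intro d hd
      rw [Finset.mem_singleton] at hd
      subst hd
      change 1 ≤ b.2 + 1
      omega
    · intro w
      refine ⟨(m, b.2 + 1), Finset.mem_singleton_self _, ?_⟩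
      change G.dist m w ≤ b.2 + 1
      have h1 : G.dist u m + G.dist m v = G.dist u v := by omega
      have h2 := huv.1 w
      have h3 := huv.2 w
      rw [SimpleGraph.dist_comm (u := u) (v := w)] at h2
      rw [SimpleGraph.dist_comm (u := v) (v := w)] at h3
      rw [SimpleGraph.dist_comm (u := m) (v := w)]
      rcases h0 V G hG hR u v w m h1 with h4 | h4
      · omega
      · omega
  have hcost : b.2 + b'.2 ≤ cost C := by
    have h1 : ({b, b'} : Finset (V × ℕ)) ⊆ C := by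
      intro d hd
      rcases Finset.mem_insert.1 hd with rfl | hd
      · exact hb
      · rw [Finset.mem_singleton] at hd
        rw [hd]
        exact hb'
    have h2 : ∑ d ∈ ({b, b'} : Finset (V × ℕ)), d.2 ≤ ∑ d ∈ C, d.2 :=
      Finset.sum_le_sum_of_subset h1
    rw [Finset.sum_pair hbb'.symm] at h2
    exact h2
  have hc1 : cost ({(m, b.2 + 1)} : Finset (V × ℕ)) ≤ cost C := by
    have : cost ({(m, b.2 + 1)} : Finset (V × ℕ)) = b.2 + 1 := Finset.sum_singleton _ _
    omega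
  have h5 := hC.min _ hcov hc1
  rw [Finset.card_singleton] at h5
  have h6 : 1 < C.card := Finset.one_lt_card.2 ⟨b', hb', b, hb, hbb'⟩
  omega

end Pool.Agent.BDC
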