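import Pool.Agent.BDC.Targets

/-!
# BDC: one further ball per component (M11)
-/

namespace Pool.Agent.BDC

namespace UNIQx

variable {V : Type}

/-- balls are connected -/
lemma ball_cn {G : SimpleGraph V} (hG : G.Connected) (b : V × ℕ) :
    ∀ (k : ℕ) (w : V), G.dist b.1 w ≤ k → InB G b w → Cn G {x | InB G b x} w b.1 := by
  intro k
  induction k with
  | zero =>
    intro w hw hb
    have : w = b.1 := by
      by_contra hne
      have := dist_pos_of_ne hG (Ne.symm hne)
      omega
    rw [this]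
    rw [this] at hb
    exact Cn.refl hb
  | succ k ih =>
    intro w hw hb
    by_cases hne : w = b.1
    · rw [hne] at hb ⊢
      exact Cn.refl hb
    · obtain ⟨z, hz1, hz2⟩ := dist_step hG hne
      rw [SimpleGraph.dist_comm (u := z), SimpleGraph.dist_comm (u := w)] at hz2
      have hzb : InB G b z := by
        have : G.dist b.1 w ≤ b.2 := hb
        change G.dist b.1 z ≤ b.2
        omega
      have h1 : Cn G {x | InB G b x} w z := Cn.adj hb hzb hz1
      exact h1.trans (ih z (by omega) hzb)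

/-- a connected set which leaves the descendants of `t` contains an earlier neighbour of `t` -/
lemma exit_er {G : SimpleGraph V} {num : V → ℕ} (h : PEO G.Adj num) {S : Set V} {t a b : V}
    (hab : Cn G S a b) (ha : Anc G.Adj num t a) (hb : ¬ Anc G.Adj num t b) :
    ∃ q ∈ S, Er G.Adj num q t := by
  obtain ⟨h1, h2⟩ := hab
  by_contra hno
  push Not at hno
  apply hb
  clear hb
  induction h2 with
  | refl => exact ha
  | @tail x y _ h4 ih =>
    by_contra hc
    exact hno y h4.2 (h.boundary ih hc h4.1)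

lemma claim [Fintype V] (hD : T_DISJ) (hT : T_TRI) {G : SimpleGraph V} {C : Finset (V × ℕ)}
    (hG : G.Connected) (hR : HasRPO G) (hC : MinCover G C) {b : V × ℕ} (hb : b ∈ C)
    {num : V → ℕ} (hnum : RPO G num b.1) {z : V} {bz : V × ℕ} (hbz : bz ∈ C) (hz : InB G bz z)
    (hzb : ¬ InB G b z)
    (hmin : ∀ y, Cn G {w | ¬ InB G b w} z y → num z ≤ num y) {b' : V × ℕ} (hb' : b' ∈ C)
    (hne : b ≠ b') (hadj : AdjB G b b') {x' : V} (hx' : InB G b' x')
    (hcn : Cn G {w | ¬ InB G b w} z x') : b' = bz := by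
  classical
  have hsub : {x | InB G b' x} ⊆ {w | ¬ InB G b w} := by
    intro w hw hw2
    exact hD V G C hG hC b hb b' hb' hne w hw2 hw
  -- first vertex of the ball of b'
  obtain ⟨t, ht, htmin⟩ := Finset.exists_min_image (Finset.univ.filter fun w => InB G b' w) num
    ⟨x', by simpa using hx'⟩
  have htB : InB G b' t := by simpa using ht
  have htmin' : ∀ w, InB G b' w → num t ≤ num w := fun w hw => htmin w (by simpa using hw)
  have hin : ∀ w, InB G b' w → Cn G {x | InB G b' x} t w := fun w hw =>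
    (ball_cn hG b' _ t le_rfl htB).trans (ball_cn hG b' _ w le_rfl hw).symm
  have hzt : Cn G {w | ¬ InB G b w} z t := hcn.trans ((hin x' hx').symm.mono hsub)
  have hanc : Anc G.Adj num z t := anc_of_cn hnum.peo hmin hzt
  have htanc : ∀ w, InB G b' w → Anc G.Adj num t w := fun w hw =>
    anc_of_cn hnum.peo (fun y hy => htmin' y hy.right) (hin w hw)
  have htb : ¬ InB G b t := hsub htB
  have hEr : ∃ y, InB G b y ∧ Er G.Adj num y t := by
    obtain ⟨y, y', hy, hy', hyy⟩ := hadj
    by_cases hty : Anc G.Adj num t y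
    · have hc : ¬ Anc G.Adj num t b.1 := by
        intro hc
        have h1 := hc.le
        by_cases htc : t = b.1
        · apply htb
          rw [htc]
          change G.dist b.1 b.1 ≤ b.2
          simp
        · have := hnum.root t htc
          omega
      obtain ⟨q, hq1, hq2⟩ := exit_er hnum.peo (ball_cn hG b _ y le_rfl hy) hty hc
      exact ⟨q, hq1, hq2⟩
    · exact ⟨y, hy, hnum.peo.boundary (htanc y' hy') hty hyy.symm⟩
  obtain ⟨y, hyB, hyt⟩ := hEr
  by_cases htz : z = t
  · by_contra hne2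
    rw [htz] at hz
    exact hD V G C hG hC b' hb' bz hbz hne2 t htB hz
  · exfalso
    obtain ⟨q, hq⟩ := exists_isPar ⟨y, hyt⟩
    have h1 := hnum.peo.anc_par hq hanc htz
    have h2 := hnum.anc_mono hG h1
    have hqB : ¬ InB G b q := by
      intro h
      apply hzb
      have : G.dist b.1 q ≤ b.2 := h
      change G.dist b.1 z ≤ b.2
      omega
    obtain ⟨bs, hbs, hqs⟩ := hC.cover.cov q
    have hs1 : bs ≠ b' := by
      intro h
      rw [h] at hqs
      have := htmin' q hqs
      have := hq.1.2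
      omega
    have hs2 : b ≠ bs := by
      intro h
      rw [← h] at hqs
      exact hqB hqs
    have hyq : y ≠ q := by
      intro h
      rw [h] at hyB
      exact hqB hyB
    have hadj2 : G.Adj y q := hnum.peo.clq t y q hyt.1 hq.1.1 hyt.2 hq.1.2 hyq
    exact hT V G C hG hR hC b hb bs hbs b' hb' hs2 hne hs1 ⟨y, q, hyB, hqs, hadj2⟩
      ⟨y, t, hyB, htB, hyt.1⟩ ⟨q, t, hqs, htB, hq.1.1⟩

end UNIQx

open UNIQx

theorem p_UNIQ (hD : T_DISJ) (hT : T_TRI) : T_UNIQ := by
  classical
  intro V _ G C hG hR hC b hb b₁ hb₁ b₂ hb₂ hne1 hne2 hadj1 hadj2 x₁ x₂ hx₁ hx₂ hcn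
  obtain ⟨num, hnum⟩ := hR b.1
  obtain ⟨z, hz, hzmin⟩ := Finset.exists_min_image
    (Finset.univ.filter fun w => Cn G {w | ¬ InB G b w} x₁ w) num
    ⟨x₁, by simpa using Cn.refl hcn.left⟩
  have hz' : Cn G {w | ¬ InB G b w} x₁ z := by simpa using hz
  have hmin : ∀ y, Cn G {w | ¬ InB G b w} z y → num z ≤ num y := fun y hy =>
    hzmin y (by simpa using hz'.trans hy)
  obtain ⟨bz, hbz, hzz⟩ := hC.cover.cov z
  have hzb : ¬ InB G b z := hz'.right
  have e1 := claim hD hT hG hR hC hb hnum hbz hzz hzb hmin hb₁ hne1 hadj1 hx₁ hz'.symm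
  have e2 := claim hD hT hG hR hC hb hnum hbz hzz hzb hmin hb₂ hne2 hadj2 hx₂
    (hz'.symm.trans hcn)
  rw [e1, e2]

end Pool.Agent.BDC
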