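import Pool.Agent.BDC.ALG
import Pool.Agent.BDC.MCS
import Pool.Agent.BDC.RPO
import Pool.Agent.BDC.P0
import Pool.Agent.BDC.CL
import Pool.Agent.BDC.P1
import Pool.Agent.BDC.FAR
import Pool.Agent.BDC.COV
import Pool.Agent.BDC.DISJ
import Pool.Agent.BDC.TRI
import Pool.Agent.BDC.P1C
import Pool.Agent.BDC.UNIQ
import Pool.Agent.BDC.TWO
import Pool.Agent.BDC.A1
import Pool.Agent.BDC.A2
import Pool.Agent.BDC.CHAIN
import Pool.Agent.BDC.CEN
import Pool.Agent.BDC.LMCS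
import Pool.Agent.BDC.LFAR
import Pool.Agent.BDC.LPATH
import Pool.Agent.BDC.LRANK
import Pool.Agent.BDC.LPOS
import Pool.Agent.BDC.LDS
import Pool.Agent.BDC.LDIN
import Pool.Agent.BDC.LDEP
import Pool.Agent.BDC.LZ
import Pool.Agent.BDC.LHIT
import Pool.Agent.BDC.LOK
import Pool.Agent.BDC.LIV
import Pool.Agent.BDC.LDP
import Pool.Agent.BDC.CE
import Pool.Agent.BDC.CC
import Pool.Agent.BDC.COMP
import Pool.Agent.BDC.TDS
import Pool.Agent.BDC.TDIN
import Pool.Agent.BDC.TDEP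
import Pool.Agent.BDC.TCOL
import Pool.Agent.BDC.TTST
import Pool.Agent.BDC.TCT
import Pool.Agent.BDC.TIV
import Pool.Agent.BDC.REORD
import Pool.Agent.BDC.BR
import Pool.Agent.BDC.SWEEP
import Pool.Agent.BDC.PREP
import Pool.Agent.BDC.TABS

/-!
# BDC: all pieces together
-/

namespace Pool.Agent.BDC

theorem alg : T_ALG := by
  have hM : T_MERGE := p_MERGE
  have hD : T_DISJ := p_DISJ hM
  have h0 : T_P0 := p_P0
  have hCL : T_CL := p_CL
  have h1 : T_P1 := p_P1 h0 hCL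
  have hP : T_P1C := p_P1C hM hD h1
  have hT : T_TRI := p_TRI hM hD
  have hS : T_STAR := p_STAR hM
  have hU : T_UNIQ := p_UNIQ hD hT
  have hTw : T_TWO := p_TWO hD hS
  have hi : T_A1i := p_A1i h0
  have hii : T_A1ii := p_A1ii hD hTw hi hM hP
  have h2 : T_A2 := p_A2 hD hi hii hM hU hCL p_L3
  have hR : T_RPO := p_RPO p_MCS
  have hSW : T_SWEEP := p_SWEEP p_LMCS p_LREN p_LFAR p_MCS
  have hTABS : T_TABS := p_TABS p_LFST p_LPOS p_LDS p_LDIN p_LDEP p_LZ p_LHIT p_LOK p_LIV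
    p_TDS p_TDIN p_TDEP p_TCOL p_TZ p_TCT (p_TIV p_TCOL p_TTST p_TZ)
  exact p_ALG p_BR (p_SWEEPS hSW (p_FAR h0) hR) (p_PREP p_LPATH p_LRANK p_REORD) hTABS p_LDP
    (p_CHAIN hD hU hTw hi hii h2 hP p_L3) (p_CEN h0 hCL hD hP) p_COV hR

theorem comp : T_COMP := p_COMP (p_CC p_CE p_CB)

set_option maxRecDepth 100000 in
lemma ids_program : ∀ k ∈ idsC Prog.program, k < 56 := by
  have h : (idsC Prog.program).all (fun k => decide (k < 56)) = true := by rfl
  intro k hk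
  exact of_decide_eq_true (List.all_eq_true.1 h k hk)

end Pool.Agent.BDC
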