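import Pool.Agent.BDC.Lang

/-!
# BDC: the program

Scalars (loop variables and temporaries) and arrays are numbered as follows.
-/

namespace Pool.Agent.BDC

open N

namespace Prog

-- scalars
@[simp] abbrev vCur := 0
@[simp] abbrev vI := 1
@[simp] abbrev vJ := 2
@[simp] abbrev vX := 3
@[simp] abbrev vY := 4
@[simp] abbrev vW := 5
@[simp] abbrev vM := 6
@[simp] abbrev vP := 7
@[simp] abbrev vZ := 8
@[simp] abbrev vR := 9
@[simp] abbrev vL := 10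
@[simp] abbrev vU := 11
@[simp] abbrev vQ := 12
@[simp] abbrev vT := 13
-- arrays
@[simp] abbrev aA := 20
@[simp] abbrev aB := 21
@[simp] abbrev aVis := 22
@[simp] abbrev aWt := 23
@[simp] abbrev aOrd := 24
@[simp] abbrev aNum := 25
@[simp] abbrev aF1 := 26
@[simp] abbrev aLev := 27
@[simp] abbrev aPar1 := 28
@[simp] abbrev aOnp := 29
@[simp] abbrev aPos1 := 30
@[simp] abbrev aRk := 31
@[simp] abbrev aU := 32
@[simp] abbrev aFst := 33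
@[simp] abbrev aPar := 34
@[simp] abbrev aPos := 35
@[simp] abbrev aRt := 36
@[simp] abbrev aYs := 37
@[simp] abbrev aDs := 38
@[simp] abbrev aDin := 39
@[simp] abbrev aEc := 40
@[simp] abbrev aDep := 41
@[simp] abbrev aG := 42
@[simp] abbrev aPs := 43
@[simp] abbrev aH := 44
@[simp] abbrev aWo := 45
@[simp] abbrev aZ := 46
@[simp] abbrev aHR := 47
@[simp] abbrev aHL := 48
@[simp] abbrev aOk := 49
@[simp] abbrev aOkp := 50
@[simp] abbrev aLZ := 51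
@[simp] abbrev aUZ := 52
@[simp] abbrev aRZ := 53
@[simp] abbrev aS := 54
@[simp] abbrev aD := 55

/-- copy the input matrix to `aA`; start with vertex 0 -/
def cInit : Cm :=
  Cm.seq (.loop vI .n (.loop vJ .n (w2 aA (s vI) (s vJ) (.inp (s vI) (s vJ)))))
  (w0 vCur .c0)

/-- maximum cardinality search of `aA` from `vCur`; results `aOrd`, `aNum` -/
def cMcs : Cm :=
  Cm.seq (.loop vX .n (Cm.seq (w1 aVis (s vX) .c0) (w1 aWt (s vX) .c0)))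
  (Cm.seq (w1 aWt (s vCur) .c1)
  (.loop vI .n (
    Cm.seq (w0 vM .c0) (Cm.seq (w0 vY .c0)
    (Cm.seq (.loop vX .n (
      whn (Bx.and (Bx.eq (r1 aVis (s vX)) .c0) (Bx.lt (s vM) (Ex.add (r1 aWt (s vX)) .c1)))
        (Cm.seq (w0 vM (Ex.add (r1 aWt (s vX)) .c1)) (w0 vY (s vX)))))
    (Cm.seq (w1 aVis (s vY) .c1) (Cm.seq (w1 aOrd (s vI) (s vY)) (Cm.seq (w1 aNum (s vY) (s vI))
    (.loop vX .n (w1 aWt (s vX) (Ex.add (r1 aWt (s vX)) (r2 aA (s vY) (s vX)))))))))))))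

/-- `aA` renumbered by `aOrd`, through `aB` -/
def cRen : Cm :=
  Cm.seq (.loop vI .n (.loop vJ .n (
    w2 aB (s vI) (s vJ) (r2 aA (r1 aOrd (s vI)) (r1 aOrd (s vJ))))))
  (.loop vI .n (.loop vJ .n (w2 aA (s vI) (s vJ) (r2 aB (s vI) (s vJ)))))

/-- first neighbours, levels; `vCur` := a vertex of largest level, the old vertex `0` preferred -/
def cFar : Cm :=
  Cm.seq (.loop vW .n (Cm.seq (w1 aF1 (s vW) .c0)
    (.loop vJ .n (Cm.seq (w0 vX (Ex.sub (Ex.sub .n .c1) (s vJ)))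
      (whn (Bx.eq (r2 aA (s vW) (s vX)) .c1) (w1 aF1 (s vW) (s vX)))))))
  (Cm.seq (w1 aLev .c0 .c0)
  (Cm.seq (.loop vW .n (whn (Bx.lt .c0 (s vW)) (w1 aLev (s vW) (Ex.add (r1 aLev (r1 aF1 (s vW))) .c1))))
  (Cm.seq (w0 vCur (r1 aNum .c0))
  (.loop vW .n (whn (Bx.lt (r1 aLev (s vCur)) (r1 aLev (s vW))) (w0 vCur (s vW)))))))

def cSweep : Cm := Cm.seq cMcs (Cm.seq cRen cFar)

/-- the path from `0` to `vCur` in the elimination tree, the columns, and the renumbering `aRk`;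
the renumbered matrix is `aB`, the renumbered path is `aU` -/
def cPath : Cm :=
  Cm.seq (.loop vW .n (Cm.seq (w1 aPar1 (s vW) .c0)
    (.loop vJ .n (whn (Bx.and (Bx.lt (s vJ) (s vW)) (Bx.eq (r2 aA (s vW) (s vJ)) .c1))
      (w1 aPar1 (s vW) (s vJ))))))
  (Cm.seq (.loop vW .n (w1 aOnp (s vW) .c0))
  (Cm.seq (w1 aOnp (s vCur) .c1)
  (Cm.seq (.loop vI .n (Cm.seq (w0 vW (Ex.sub (Ex.sub .n .c1) (s vI)))
    (whn (Bx.eq (r1 aOnp (s vW)) .c1) (w1 aOnp (r1 aPar1 (s vW)) .c1))))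
  (.loop vW .n (Cm.ite (Bx.eq (r1 aOnp (s vW)) .c1) (w1 aPos1 (s vW) (s vW))
    (w1 aPos1 (s vW) (r1 aPos1 (r1 aPar1 (s vW)))))))))

def cRank : Cm :=
  Cm.seq (.loop vW .n (Cm.seq (w1 aRk (s vW) .c0)
    (.loop vX .n (whn (Bx.or (Bx.lt (r1 aPos1 (s vX)) (r1 aPos1 (s vW)))
        (Bx.and (Bx.eq (r1 aPos1 (s vX)) (r1 aPos1 (s vW))) (Bx.lt (s vX) (s vW))))
      (w1 aRk (s vW) (Ex.add (r1 aRk (s vW)) .c1))))))
  (Cm.seq (.loop vW .n (w1 aU (r1 aRk (s vW)) (r1 aOnp (s vW))))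
  (.loop vI .n (.loop vJ .n (
    w2 aB (r1 aRk (s vI)) (r1 aRk (s vJ)) (r2 aA (s vI) (s vJ))))))

/-- first neighbour and last earlier neighbour -/
def cFst : Cm :=
  .loop vW .n (Cm.seq (w1 aFst (s vW) .c0) (Cm.seq (w1 aPar (s vW) .c0)
    (.loop vJ .n (
      Cm.seq (w0 vX (Ex.sub (Ex.sub .n .c1) (s vJ)))
      (Cm.seq (whn (Bx.eq (r2 aB (s vW) (s vX)) .c1) (w1 aFst (s vW) (s vX)))
      (whn (Bx.and (Bx.lt (s vJ) (s vW)) (Bx.eq (r2 aB (s vW) (s vJ)) .c1)) (w1 aPar (s vW) (s vJ))))))))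

/-- columns; for a path vertex its last neighbour on the path; for the others the neighbour on
the path whose last neighbour on the path is latest -/
def cPos : Cm :=
  Cm.seq (w0 vM .c0)
  (Cm.seq (.loop vW .n (Cm.seq (whn (Bx.eq (r1 aU (s vW)) .c1) (w0 vM (s vW))) (w1 aPos (s vW) (s vM))))
  (Cm.seq (.loop vW .n (Cm.seq (w1 aRt (s vW) (s vW))
    (.loop vX .n (whn (Bx.and (Bx.lt (s vW) (s vX)) (Bx.and (Bx.eq (r1 aU (s vX)) .c1) (Bx.eq (r2 aB (s vW) (s vX)) .c1)))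
      (w1 aRt (s vW) (s vX))))))
  (.loop vW .n (Cm.seq (w1 aYs (s vW) (r1 aFst (s vW)))
    (.loop vX .n (whn (Bx.and (Bx.eq (r1 aU (s vX)) .c1) (Bx.and (Bx.eq (r2 aB (s vW) (s vX)) .c1)
        (Bx.lt (r1 aRt (r1 aYs (s vW))) (r1 aRt (s vX)))))
      (w1 aYs (s vW) (s vX))))))))

/-- distances from the path vertices -/
def cDs : Cm :=
  .loop vP .n (whn (Bx.eq (r1 aU (s vP)) .c1) (
    .loop vW .n (
      Cm.ite (Bx.eq (s vW) (s vP)) (w2 aDs (s vP) (s vW) .c0) (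
      Cm.ite (Bx.eq (r2 aB (s vP) (s vW)) .c1) (w2 aDs (s vP) (s vW) .c1) (
      Cm.ite (Bx.lt (s vP) (s vW))
        (Cm.ite (Bx.lt (r1 aFst (s vW)) (s vP)) (w2 aDs (s vP) (s vW) .c2)
          (w2 aDs (s vP) (s vW) (Ex.add (r2 aDs (s vP) (r1 aFst (s vW))) .c1)))
        (Cm.ite (Bx.eq (r1 aU (s vW)) .c1) (w2 aDs (s vP) (s vW) (r2 aDs (s vW) (s vP)))
          (Cm.ite (Bx.eq (r1 aU (r1 aFst (s vW))) .c1)
            (w2 aDs (s vP) (s vW) (Ex.add (r2 aDs (s vP) (r1 aYs (s vW))) .c1))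
            (w2 aDs (s vP) (s vW) (Ex.add (r2 aDs (s vP) (r1 aFst (s vW))) .c1)))))))))

/-- distances from an ancestor to its descendants, `n` if there is no such relation -/
def cDin : Cm :=
  Cm.seq (.loop vY .n (.loop vW .n (
    Cm.ite (Bx.lt (s vW) (s vY)) (w2 aDin (s vY) (s vW) .n) (
    Cm.ite (Bx.eq (s vW) (s vY)) (w2 aDin (s vY) (s vW) .c0) (
    Cm.ite (Bx.eq (r2 aB (s vY) (s vW)) .c1) (w2 aDin (s vY) (s vW) .c1) (
    Cm.ite (Bx.or (Bx.lt (r1 aPar (s vW)) (s vY)) (Bx.eq (r2 aDin (s vY) (r1 aPar (s vW))) .n))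
      (w2 aDin (s vY) (s vW) .n) (
    Cm.ite (Bx.lt (r1 aFst (s vW)) (s vY)) (w2 aDin (s vY) (s vW) .c2)
      (w2 aDin (s vY) (s vW) (Ex.add (r2 aDin (s vY) (r1 aFst (s vW))) .c1)))))))))
  (.loop vY .n (Cm.seq (w1 aEc (s vY) .c0)
    (.loop vW .n (whn (Bx.and (Bx.lt (r2 aDin (s vY) (s vW)) .n) (Bx.lt (r1 aEc (s vY)) (r2 aDin (s vY) (s vW))))
      (w1 aEc (s vY) (r2 aDin (s vY) (s vW)))))))

/-- depth, the vertex of depth one below, the number of neighbours on the path, the height of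
the columns, the reference vertex of a column -/
def cDep : Cm :=
  Cm.seq (.loop vW .n (
    Cm.ite (Bx.eq (r1 aU (s vW)) .c1) (Cm.seq (w1 aDep (s vW) .c0) (w1 aG (s vW) (s vW))) (
    Cm.ite (Bx.eq (r1 aU (r1 aFst (s vW))) .c1) (Cm.seq (w1 aDep (s vW) .c1) (w1 aG (s vW) (s vW)))
      (Cm.seq (w1 aDep (s vW) (Ex.add (r1 aDep (r1 aFst (s vW))) .c1))
       (w1 aG (s vW) (r1 aG (r1 aFst (s vW))))))))
  (Cm.seq (.loop vW .n (Cm.seq (w1 aPs (s vW) .c0)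
    (.loop vX .n (whn (Bx.and (Bx.eq (r1 aU (s vX)) .c1) (Bx.eq (r2 aB (s vW) (s vX)) .c1))
      (w1 aPs (s vW) (Ex.add (r1 aPs (s vW)) .c1))))))
  (Cm.seq (.loop vW .n (Cm.seq (w1 aH (s vW) .c0) (w1 aWo (s vW) .c0)))
  (Cm.seq (.loop vW .n (whn (Bx.lt (r1 aH (r1 aPos (s vW))) (r1 aDep (s vW)))
    (w1 aH (r1 aPos (s vW)) (r1 aDep (s vW)))))
  (.loop vW .n (whn (Bx.and (Bx.eq (r1 aU (s vW)) .c0) (Bx.and (Bx.eq (r1 aDep (s vW)) (r1 aH (r1 aPos (s vW))))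
      (Bx.or (Bx.eq (r1 aWo (r1 aPos (s vW))) .c0)
       (Bx.lt (r1 aPs (r1 aG (s vW))) (r1 aPs (r1 aG (r1 aWo (r1 aPos (s vW)))))))))
    (w1 aWo (r1 aPos (s vW)) (s vW)))))))

/-- the candidate centre of column `p` for the radius `h p - k` -/
def cZ (k : Ex) : Cm :=
  .loop vP .n (Cm.seq (w2 aZ k (s vP) .c0)
    (whn (Bx.and (Bx.eq (r1 aU (s vP)) .c1) (Bx.lt .c0 (r1 aWo (s vP)))) (
      .loop vI .n (Cm.seq (w0 vZ (Ex.sub (Ex.sub .n .c1) (s vI)))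
        (whn (Bx.and (Bx.eq (r1 aU (s vZ)) .c0) (Bx.and (Bx.lt (r2 aDin (s vZ) (r1 aWo (s vP))) .n)
            (Bx.and (Bx.eq (r1 aDep (s vZ)) .c1) (Bx.not (Bx.lt (r1 aH (s vP)) (Ex.add (r1 aEc (s vZ)) k))))))
          (w2 aZ k (s vP) (s vZ)))))))

/-- does the candidate of the nearest higher column on the right (left) have a common neighbour
on the path with the vertex of depth one below `w`? -/
def cHit (c : Bx) (out : ℕ) (a b : Cm) : Cm :=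
  Cm.seq (.loop vW .n (Cm.seq (w1 out (s vW) .n)
    (whn (Bx.eq (r1 aU (s vW)) .c0) (
      Cm.seq (w0 vP .n)
      (Cm.seq (.loop vI .n (Cm.seq a
        (whn (Bx.and c (Bx.and (Bx.eq (r1 aU (s vX)) .c1) (Bx.lt (r1 aDep (s vW)) (r1 aH (s vX))))) (w0 vP (s vX)))))
      (whn (Bx.and (Bx.lt (s vP) .n) (Bx.not (Bx.lt (Ex.add (r1 aDep (s vW)) .c2) (r1 aH (s vP))))) (
        Cm.seq (w0 vZ (r2 aZ (Ex.sub (Ex.sub (r1 aH (s vP)) (r1 aDep (s vW))) .c1) (s vP)))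
        (whn (Bx.lt .c0 (s vZ)) (
          .loop vX .n (whn (Bx.and (Bx.eq (r1 aU (s vX)) .c1) (Bx.and (Bx.eq (r2 aB (s vZ) (s vX)) .c1)
              (Bx.eq (r2 aB (r1 aG (s vW)) (s vX)) .c1)))
            (w1 out (s vW) (s vP)))))))))))) b

def cHits : Cm :=
  Cm.seq (cHit (Bx.lt (s vW) (s vX)) aHR (w0 vX (Ex.sub (Ex.sub .n .c1) (s vI))) .skip)
  (cHit (Bx.lt (s vX) (r1 aPos (s vW))) aHL (w0 vX (s vI)) .skip)

/-- is column `p` within distance `h p - k` of the candidate? -/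
def cOk (k : Ex) : Cm :=
  Cm.seq (.loop vW .n (Cm.seq (w2 aOk k (s vW) .c0)
    (Cm.seq (w0 vZ (r2 aZ k (r1 aPos (s vW)))) (Cm.seq (w0 vR (Ex.sub (r1 aH (r1 aPos (s vW))) k))
    (whn (Bx.lt .c0 (s vZ)) (
      Cm.seq (whn (Bx.not (Bx.lt (s vR) (r2 aDin (s vZ) (s vW)))) (w2 aOk k (s vW) .c1))
      (.loop vY .n (whn (Bx.and (Bx.lt (s vY) (s vZ)) (Bx.and (Bx.eq (r2 aB (s vZ) (s vY)) .c1)
          (Bx.or (Bx.and (Bx.eq (r1 aU (s vY)) .c1) (Bx.lt (r2 aDs (s vY) (s vW)) (s vR)))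
           (Bx.and (Bx.eq (r1 aU (s vY)) .c0) (Bx.lt (r2 aDin (s vY) (s vW)) (s vR))))))
        (w2 aOk k (s vW) .c1)))))))))
  (Cm.seq (.loop vW .n (w2 aOkp k (s vW) .c1))
  (.loop vW .n (whn (Bx.eq (r2 aOk k (s vW)) .c0) (w2 aOkp k (r1 aPos (s vW)) .c0))))

/-- the test for a vertex `w` outside the column `vP` against the candidate `vZ`, radius `vR` -/
def tb (w : Ex) : Bx :=
  Bx.or (Bx.lt (r2 aDs (r1 aFst (s vZ)) w) (s vR)) (Bx.or (Bx.lt (r2 aDs (r1 aYs (s vZ)) w) (s vR))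
    (Bx.or (Bx.eq (r2 aB (s vZ) w) .c1)
      (Bx.and (Bx.eq (r1 aU w) .c0) (Bx.and (Bx.or (Bx.eq (r1 aHR w) (s vP)) (Bx.eq (r1 aHL w) (s vP))) (Bx.eq (Ex.add (r1 aDep w) .c1) (s vR))))))

/-- the interval covered by the candidate of column `p`, radius `h p - k` -/
def cIv (k : Ex) : Cm :=
  .loop vP .n (Cm.seq (w2 aRZ k (s vP) .c0)
    (Cm.seq (w0 vZ (r2 aZ k (s vP))) (Cm.seq (w0 vR (Ex.sub (r1 aH (s vP)) k))
    (whn (Bx.and (Bx.eq (r1 aU (s vP)) .c1) (Bx.and (Bx.lt .c0 (s vZ)) (Bx.and (Bx.lt .c0 (s vR)) (Bx.eq (r2 aOkp k (s vP)) .c1)))) (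
      Cm.seq (w0 vL (s vP)) (Cm.seq (w0 vU (Ex.add (s vP) .c1))
      (Cm.seq (.loop vI .n (
        Cm.seq (whn (Bx.and (Bx.lt .c0 (s vL)) (tb (Ex.sub (s vL) .c1))) (w0 vL (Ex.sub (s vL) .c1)))
        (whn (Bx.and (Bx.lt (s vU) .n) (Bx.or (Bx.eq (r1 aPos (s vU)) (s vP)) (tb (s vU)))) (w0 vU (Ex.add (s vU) .c1)))))
      (Cm.seq (w2 aLZ k (s vP) (s vL)) (Cm.seq (w2 aUZ k (s vP) (s vU)) (w2 aRZ k (s vP) (s vR)))))))))))

/-- one step of the dynamic program: record the interval `[vL, vU)` with cost `e` -/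
def cRec (l u e : Ex) : Cm :=
  whn (Bx.lt (Ex.add (r1 aD l) e) (r1 aS u)) (w1 aS u (Ex.add (r1 aD l) e))

/-- the dynamic program -/
def cDp : Cm :=
  Cm.seq (.loop vJ (Ex.add .n .c1) (Cm.seq (w1 aS (s vJ) .n) (w1 aD (s vJ) .n)))
  (Cm.seq (w1 aS .c0 .c0) (Cm.seq (w1 aD .c0 .c0)
  (.loop vP .n (whn (Bx.eq (r1 aU (s vP)) .c1) (
    Cm.seq (w0 vL (s vP)) (Cm.seq (w0 vU (Ex.add (s vP) .c1)) (Cm.seq (w0 vQ .c1)
    (Cm.seq (.loop vT (Ex.add .n .n) (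
      Cm.ite (Bx.and (Bx.lt .c0 (s vL)) (Bx.not (Bx.lt (s vQ) (r2 aDs (s vP) (Ex.sub (s vL) .c1)))))
        (w0 vL (Ex.sub (s vL) .c1))
        (Cm.ite (Bx.and (Bx.lt (s vU) .n) (Bx.not (Bx.lt (s vQ) (r2 aDs (s vP) (s vU)))))
          (w0 vU (Ex.add (s vU) .c1))
          (Cm.seq (cRec (s vL) (s vU) (s vQ)) (w0 vQ (Ex.add (s vQ) .c1))))))
    (Cm.seq (whn (Bx.lt .c0 (r2 aRZ .c0 (s vP))) (
      cRec (r2 aLZ .c0 (s vP)) (r2 aUZ .c0 (s vP)) (r2 aRZ .c0 (s vP))))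
    (Cm.seq (whn (Bx.lt .c0 (r2 aRZ .c1 (s vP))) (
      cRec (r2 aLZ .c1 (s vP)) (r2 aUZ .c1 (s vP)) (r2 aRZ .c1 (s vP))))
    (Cm.seq (w0 vM .n)
    (.loop vI (Ex.add .n .c1) (
      Cm.seq (w0 vJ (Ex.sub .n (s vI)))
      (Cm.seq (whn (Bx.lt (r1 aS (s vJ)) (s vM)) (w0 vM (r1 aS (s vJ))))
      (w1 aD (s vJ) (s vM))))))))))))))))

def program : Cm :=
  Cm.seq cInit (Cm.seq cSweep (Cm.seq cSweep (Cm.seq cSweep (Cm.seq cSweep (Cm.seq cSweep (Cm.seq cSweep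
  (Cm.seq cPath (Cm.seq cRank (Cm.seq cFst (Cm.seq cPos (Cm.seq cDs (Cm.seq cDin (Cm.seq cDep (Cm.seq (cZ .c0) (Cm.seq (cZ .c1) (Cm.seq cHits
  (Cm.seq (cOk .c0) (Cm.seq (cOk .c1) (Cm.seq (cIv .c0) (Cm.seq (cIv .c1) (Cm.seq cDp (w0 vM (r1 aS .n)))))))))))))))))))))))

end Prog

end Pool.Agent.BDC
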