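import Pool.Agent.BDC.TargetsA
import Pool.Agent.BDC.INIT

/-!
# BDC: six sweeps (job BDC-SWEEPS)
-/

namespace Pool.Agent.BDC

open N Prog

namespace SWx

variable {n : ℕ}

/-- `e` carries `G'` to `G` -/
def IsoE (G' G : SimpleGraph (Fin n)) (e : Fin n ≃ Fin n) : Prop :=
  ∀ i j, G'.Adj i j ↔ G.Adj (e i) (e j)

/-- the graph isomorphism -/
def toIso {G' G : SimpleGraph (Fin n)} {e : Fin n ≃ Fin n} (h : IsoE G' G e) : G' ≃g G :=
  ⟨e, fun {a b} => (h a b).symm⟩

lemma dist_le_hom {G' G : SimpleGraph (Fin n)} (f : G' →g G) (hc : G'.Connected) (x y : Fin n) :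
    G.dist (f x) (f y) ≤ G'.dist x y := by
  obtain ⟨p, hp⟩ := hc.exists_walk_length_eq_dist x y
  rw [← hp, ← SimpleGraph.Walk.length_map f p]
  exact SimpleGraph.dist_le _

lemma conn {G' G : SimpleGraph (Fin n)} {e : Fin n ≃ Fin n} (h : IsoE G' G e)
    (hc : G.Connected) : G'.Connected :=
  (SimpleGraph.Iso.connected_iff (toIso h)).2 hc

lemma dist_eq {G' G : SimpleGraph (Fin n)} {e : Fin n ≃ Fin n} (h : IsoE G' G e)
    (hc : G.Connected) (x y : Fin n) : G'.dist x y = G.dist (e x) (e y) := by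
  apply le_antisymm
  · have := dist_le_hom (toIso h).symm.toHom hc (e x) (e y)
    have e1 : (toIso h).symm.toHom (e x) = x := e.symm_apply_apply x
    have e2 : (toIso h).symm.toHom (e y) = y := e.symm_apply_apply y
    rwa [e1, e2] at this
  · exact dist_le_hom (toIso h).toHom (conn h hc) x y

lemma chordal {G' G : SimpleGraph (Fin n)} {e : Fin n ≃ Fin n} (h : IsoE G' G e)
    (hc : Chordal G) : Chordal G' := by
  intro v c hcyc hlen
  have hinj : Function.Injective (toIso h).toHom := e.injective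
  have h1 : (c.map (toIso h).toHom).IsCycle := hcyc.map hinj
  obtain ⟨x, hx, y, hy, hxy, hne⟩ := hc _ (c.map (toIso h).toHom) h1
    (by rw [SimpleGraph.Walk.length_map]; exact hlen)
  rw [SimpleGraph.Walk.support_map, List.mem_map] at hx hy
  obtain ⟨x', hx', rfl⟩ := hx
  obtain ⟨y', hy', rfl⟩ := hy
  refine ⟨x', hx', y', hy', (h x' y').2 hxy, ?_⟩
  intro hmem
  apply hne
  rw [SimpleGraph.Walk.edges_map, List.mem_map]
  exact ⟨s(x', y'), hmem, rfl⟩

/-- the state after `k` sweeps -/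
lemma steps (h1 : T_SWEEP) (A : ℕ → ℕ → ℕ) (G : SimpleGraph (Fin n)) (hG : G.Connected)
    (hch : Chordal G) (c0 : Fin n) (σ : Store) (hA : Has2 n σ aA (gm G)) (hcur : σ vCur 0 0 = c0) :
    ∀ k : ℕ, ∃ (a : ℕ → Fin n) (e : Fin n ≃ Fin n) (G' : SimpleGraph (Fin n)) (f : Fin n),
      IsoE G' G e ∧ Has2 n ((run n A cSweep)^[k] σ) aA (gm G') ∧
      (run n A cSweep)^[k] σ vCur 0 0 = f ∧ e f = a k ∧
      (1 ≤ k → ∀ z : Fin n, (z : ℕ) = 0 → e z = a (k - 1) ∧ RPO G' (fun i => (i : ℕ)) z) ∧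
      (∀ j, j < k → ∀ w, G.dist (a j) w ≤ G.dist (a j) (a (j + 1))) ∧
      (∀ j, j + 1 < k → G.dist (a (j + 1)) (a (j + 2)) ≤ G.dist (a (j + 1)) (a j) →
        a (j + 2) = a j) := by
  intro k
  induction k with
  | zero =>
    exact ⟨fun _ => c0, Equiv.refl _, G, c0, fun _ _ => Iff.rfl, hA, hcur, rfl, by omega,
      fun j hj => by omega, fun j hj => by omega⟩
  | succ k ih =>
    obtain ⟨a, e, G', f, hiso, hA', hcur', hf, hz, hecc, hback⟩ := ih
    obtain ⟨e', G'', f', hiso', hroot, hA'', hcur''⟩ :=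
      h1 n A ((run n A cSweep)^[k] σ) G' f (conn hiso hG) (chordal hiso hch) hA' hcur'
    have hiso2 : IsoE G'' G (e'.trans e) := fun i j => (hiso' i j).trans (hiso _ _)
    have hpos : 0 < n := lt_of_le_of_lt (Nat.zero_le _) c0.2
    let z : Fin n := ⟨0, hpos⟩
    obtain ⟨hr1, hr2, hr3, hr4⟩ := hroot z rfl
    have hzk : (e'.trans e) z = a k := by
      change e (e' z) = a k
      rw [hr1, hf]
    let a' : ℕ → Fin n := fun j => if j ≤ k then a j else (e'.trans e) f'
    have ha1 : ∀ j, j ≤ k → a' j = a j := fun j hj => if_pos hj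
    have ha2 : a' (k + 1) = (e'.trans e) f' := if_neg (by omega)
    refine ⟨a', e'.trans e, G'', f', hiso2, ?_, ?_, ?_, ?_, ?_, ?_⟩
    · rw [Function.iterate_succ_apply']; exact hA''
    · rw [Function.iterate_succ_apply']; exact hcur''
    · rw [ha2]
    · intro _ z' hz'
      have : z' = z := Fin.ext hz'
      subst this
      refine ⟨?_, hr2⟩
      rw [Nat.add_sub_cancel, ha1 k le_rfl]
      exact hzk
    · intro j hj w
      by_cases hjk : j < k
      · rw [ha1 j (by omega), ha1 (j + 1) (by omega)]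
        exact hecc j hjk w
      · have hj' : j = k := by omega
        subst hj'
        rw [ha2, ha1 j le_rfl, ← hzk]
        have := hr3 ((e'.trans e).symm w)
        rw [dist_eq hiso2 hG, dist_eq hiso2 hG, Equiv.apply_symm_apply] at this
        exact this
    · intro j hj
      by_cases hjk : j + 1 < k
      · rw [ha1 j (by omega), ha1 (j + 1) (by omega), ha1 (j + 2) (by omega)]
        exact hback j hjk
      · have hj' : k = j + 1 := by omega
        subst hj'
        intro hle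
        rw [ha1 j (by omega), ha1 (j + 1) le_rfl, ha2, ← hzk] at hle
        rw [ha1 j (by omega), ha2]
        have hold : (e'.trans e) (e'.symm z) = a j := by
          change e (e' (e'.symm z)) = a j
          rw [Equiv.apply_symm_apply]
          exact (hz (by omega) z rfl).1
        rw [← hold] at hle ⊢
        rw [← dist_eq hiso2 hG, ← dist_eq hiso2 hG] at hle
        rw [hr4 hle]

end SWx

open SWx

theorem p_SWEEPS (h1 : T_SWEEP) (h2 : T_FAR) (h3 : T_RPO) : T_SWEEPS := by
  intro n G hn hG hch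
  have hpos : 0 < n := by omega
  obtain ⟨hi1, hi2⟩ := l_init n (gm G) zst
  obtain ⟨a, e, G', f, hiso, hA', hcur', hf, hz, hecc, hback⟩ :=
    steps h1 (gm G) G hG hch ⟨0, hpos⟩ (run n (gm G) cInit zst)
      (fun i j hi hj => hi1 i j hi hj) hi2 6
  have hmut : Mut G (a 5) (a 6) := by
    apply h2 (Fin n) G hG (h3 (Fin n) G hG hch) a
    · intro k hk w
      exact hecc k (by omega) w
    · intro k hk hle
      exact hback k (by omega) hle
  refine ⟨e, G', f, hiso, ?_, hA', hcur'⟩
  intro z hz0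
  obtain ⟨hz1, hz2⟩ := hz (by omega) z hz0
  refine ⟨hz2, ?_⟩
  have hz1' : e z = a 5 := hz1
  constructor
  · intro w
    rw [dist_eq hiso hG, dist_eq hiso hG, hz1', hf]
    exact hmut.1 _
  · intro w
    rw [dist_eq hiso hG, dist_eq hiso hG z f, hz1', hf]
    exact hmut.2 _

end Pool.Agent.BDC
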