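import Pool.Agent.BDC.TargetsN

/-!
# BDC: the depth recursion
-/

namespace Pool.Agent.BDC

namespace TDEP

variable {n : ℕ} {b d : ℕ → ℕ → ℕ} {U : ℕ → Prop}

lemma d_le {k w : ℕ} (hg : NGraph n b d) (h : b w k = 1) (x : ℕ) (hx : x < n) :
    d w x ≤ d k x + 1 := by
  have h1 := hg.dom _ _ h
  have h2 := hg.tri w k x h1.1 h1.2 hx
  have h3 := hg.adj _ _ h
  omega

/-- a geodesic starting upwards stays upwards -/
lemma up (hg : NGraph n b d) (ho : NatOrd n b) : ∀ (l z k w : ℕ), w < n → d z w = l →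
    b z k = 1 → z < k → d k w + 1 = d z w → Anc (Ad b) (fun i => i) z w := by
  intro l
  induction l with
  | zero =>
    intro z k w _ hl _ _ hd
    omega
  | succ l ih =>
    intro z k w hw hl hzk hlt hd
    have hdom := hg.dom _ _ hzk
    by_cases hkw : k = w
    · subst hkw
      exact Er.anc ⟨hzk, hlt⟩
    · obtain ⟨k', h1, h2⟩ := hg.step k w hdom.2 hw hkw
      have hne : k' ≠ k := by
        rintro rfl
        exact hg.irr _ h1
      rcases lt_or_gt_of_ne hne with h3 | h3
      · exfalso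
        have hzk' : z ≠ k' := by
          rintro rfl
          omega
        have h4 : b z k' = 1 := ho.clq k z k' hzk (hg.sym _ _ h1) hlt h3 hzk'
        have h5 := d_le hg h4 w hw
        omega
      · have h4 := ih k k' w hw (by omega) h1 h3 h2
        have h5 : Er (Ad b) (fun i => i) z k := ⟨hzk, hlt⟩
        exact h5.anc.trans h4

lemma U_anc (ho : GoodN n b U) {x y : ℕ} (h : Anc (Ad b) (fun i => i) x y) : U y → U x := by
  induction h with
  | refl => exact id
  | step h1 _ ih =>
    intro hw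
    exact ih (ho.uE _ _ hw h1.1 h1.2)

lemma depF_le {w x : ℕ} (hx : U x) : depF U d w ≤ d w x := Nat.sInf_le ⟨x, hx, rfl⟩

lemma depF_mem (w : ℕ) (h : ∃ x, U x) : ∃ x, U x ∧ d w x = depF U d w := by
  have : (({k | ∃ x, U x ∧ d w x = k} : Set ℕ)).Nonempty := by
    obtain ⟨x, hx⟩ := h
    exact ⟨d w x, x, hx, rfl⟩
  exact Nat.sInf_mem this

lemma depF_step (hg : NGraph n b d) (ho : GoodN n b U) {w k : ℕ} (h : b w k = 1) :
    depF U d w ≤ depF U d k + 1 := by
  obtain ⟨x, hx, h1⟩ := depF_mem (U := U) (d := d) k ⟨0, ho.u0⟩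
  have h2 := d_le hg h x (ho.ult _ hx)
  have h3 := depF_le (U := U) (d := d) (w := w) hx
  omega

/-- the first step of a shortest path to `U` goes down -/
lemma down (hg : NGraph n b d) (ho : GoodN n b U) {w x : ℕ} (hw : w < n) (hU : ¬ U w)
    (hx : U x) (hd : d w x = depF U d w) :
    ∃ k, b w k = 1 ∧ k < w ∧ d k x + 1 = d w x ∧ d k x = depF U d k := by
  have hwx : w ≠ x := by rintro rfl; exact hU hx
  obtain ⟨k, h1, h2⟩ := hg.step w x hw (ho.ult _ hx) hwx
  have hne : k ≠ w := by
    rintro rfl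
    exact hg.irr _ h1
  refine ⟨k, h1, ?_, h2, ?_⟩
  · rcases lt_or_gt_of_ne hne with h3 | h3
    · exact h3
    · exact absurd (U_anc ho (up hg ho.ord (d w x) w k x (ho.ult _ hx) rfl h1 h3 h2) hx) hU
  · have h3 := depF_step hg ho h1
    have h4 := depF_le (U := U) (d := d) (w := k) hx
    omega

lemma fst_U {fst par pos rt ys : ℕ → ℕ} (hW : World n b d U fst par pos rt ys) {w k : ℕ}
    (hw : w < n) (hk : b w k = 1) (hkw : k < w) (hU : U k) : U (fst w) := by
  obtain ⟨h1, h2, h3⟩ := hW.tb.hfst w (by omega) hw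
  have h4 := h3 k (hW.gr.dom _ _ hk).2 hk
  by_cases he : fst w = k
  · rw [he]; exact hU
  · have h5 : b (fst w) k = 1 :=
      hW.od.ord.clq w (fst w) k (hW.gr.sym _ _ h2) (hW.gr.sym _ _ hk) h1 hkw he
    exact hW.od.uE k (fst w) hU h5 (by omega)

lemma two {fst par pos rt ys : ℕ → ℕ} (hW : World n b d U fst par pos rt ys) {w x : ℕ}
    (hw : w < n) (hU : ¬ U w) (hf : ¬ U (fst w)) (hx : U x) (hd : d w x = depF U d w) :
    d (fst w) x + 1 ≤ d w x := by
  have hg := hW.gr
  have ho := hW.od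
  have hxn := ho.ult _ hx
  obtain ⟨k, h1, h2, h3, h4⟩ := down hg ho hw hU hx hd
  have hkU : ¬ U k := fun h => hf (fst_U hW hw h1 h2 h)
  have hkn := (hg.dom _ _ h1).2
  obtain ⟨k', h5, h6, h7, h8⟩ := down hg ho hkn hkU hx h4
  obtain ⟨f1, f2, f3⟩ := hW.tb.hfst w (by omega) hw
  by_cases hfk : fst w = k
  · rw [hfk]; omega
  · have h9 : b (fst w) k = 1 :=
      ho.ord.clq w (fst w) k (hg.sym _ _ f2) (hg.sym _ _ h1) f1 h2 hfk
    have h10 : fst w < k := lt_of_le_of_ne (f3 k hkn h1) hfk
    by_cases hfk' : fst w = k'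
    · rw [hfk']; omega
    · have h11 : b (fst w) k' = 1 := ho.ord.clq k (fst w) k' h9 (hg.sym _ _ h5) h10 h6 hfk'
      have h12 := d_le hg h11 x hxn
      omega

lemma stp {fst par pos rt ys : ℕ → ℕ} (hW : World n b d U fst par pos rt ys) {w : ℕ}
    (hw : w < n) (hU : ¬ U w) (hf : ¬ U (fst w)) : depF U d w = depF U d (fst w) + 1 := by
  obtain ⟨x, hx, h1⟩ := depF_mem (U := U) (d := d) w ⟨0, hW.od.u0⟩
  have h2 := two hW hw hU hf hx h1
  have h3 := depF_le (U := U) (d := d) (w := fst w) hx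
  have hw0 : 0 < w := by
    rcases Nat.eq_zero_or_pos w with h | h
    · exact absurd (h ▸ hW.od.u0) hU
    · exact h
  have h4 := depF_step hW.gr hW.od (hW.tb.hfst w hw0 hw).2.1
  omega

lemma one {fst par pos rt ys : ℕ → ℕ} (hW : World n b d U fst par pos rt ys) {w : ℕ}
    (hw : w < n) (hU : ¬ U w) (hf : U (fst w)) : depF U d w = 1 := by
  have hw0 : 0 < w := by
    rcases Nat.eq_zero_or_pos w with h | h
    · exact absurd (h ▸ hW.od.u0) hU
    · exact h
  have h1 := hW.gr.adj _ _ (hW.tb.hfst w hw0 hw).2.1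
  have h2 := depF_le (U := U) (d := d) (w := w) hf
  obtain ⟨x, hx, h3⟩ := depF_mem (U := U) (d := d) w ⟨0, hW.od.u0⟩
  have h4 : depF U d w ≠ 0 := by
    intro h
    rw [h] at h3
    have := hW.gr.eqz _ _ hw (hW.od.ult _ hx) h3
    exact hU (this ▸ hx)
  omega

open Classical in
/-- the vertex next to the path -/
noncomputable def gf (U : ℕ → Prop) (fst : ℕ → ℕ) (w : ℕ) : ℕ :=
  if h : ¬ U w ∧ ¬ U (fst w) ∧ fst w < w then gf U fst (fst w) else w
termination_by w
decreasing_by exact h.2.2

lemma gf_stp {fst : ℕ → ℕ} {w : ℕ} (h1 : ¬ U w) (h2 : ¬ U (fst w)) (h3 : fst w < w) :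
    gf U fst w = gf U fst (fst w) := by
  rw [gf, dif_pos ⟨h1, h2, h3⟩]

lemma gf_onU {fst : ℕ → ℕ} {w : ℕ} (h1 : U w) : gf U fst w = w := by
  rw [gf, dif_neg (fun h => h.1 h1)]

lemma gf_one {fst : ℕ → ℕ} {w : ℕ} (h1 : U (fst w)) : gf U fst w = w := by
  rw [gf, dif_neg (fun h => h.2.1 h1)]

end TDEP

open TDEP in
theorem p_TDEP : T_TDEP := by
  intro n b d U fst par pos rt ys hW
  have hg := hW.gr
  have ho := hW.od
  have hpos : ∀ w, ¬ U w → 0 < w := by
    intro w hU
    rcases Nat.eq_zero_or_pos w with h | h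
    · exact absurd (h ▸ ho.u0) hU
    · exact h
  have hflt : ∀ w, 0 < w → w < n → fst w < w := fun w h0 hw => (hW.tb.hfst w h0 hw).1
  refine ⟨gf U fst, ⟨?_, hflt, ?_, ?_, ?_⟩, ?_⟩
  · intro w hw
    have h1 := depF_le (U := U) (d := d) (w := w) ho.u0
    have h2 := hg.lt w 0 hw (ho.ult _ ho.u0)
    omega
  · intro w hw hU
    refine ⟨?_, gf_onU hU⟩
    have h1 := depF_le (U := U) (d := d) (w := w) hU
    rw [hg.zero w hw] at h1
    omega
  · intro w hw hU hf
    exact ⟨one hW hw hU hf, gf_one hf⟩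
  · intro w hw hU hf
    exact ⟨stp hW hw hU hf, gf_stp hU hf (hflt w (hpos w hU) hw)⟩
  · -- induction principle
    have key : ∀ (P : ℕ → Prop), (∀ w, w < n → U w → P w) →
        (∀ w, w < n → ¬ U w → U (fst w) → P w) →
        (∀ w, w < n → ¬ U w → ¬ U (fst w) → P (fst w) → P w) → ∀ w, w < n → P w := by
      intro P h1 h2 h3 w
      induction w using Nat.strong_induction_on with
      | _ w ih =>
        intro hw
        by_cases hU : U w
        · exact h1 w hw hU
        · by_cases hf : U (fst w)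
          · exact h2 w hw hU hf
          · have h4 := hflt w (hpos w hU) hw
            exact h3 w hw hU hf (ih _ h4 (by omega))
    refine ⟨?_, ?_, ?_, ?_, ?_⟩
    · apply key
      · intro w hw hU; rw [gf_onU hU]; exact hw
      · intro w hw hU hf; rw [gf_one hf]; exact hw
      · intro w hw hU hf h
        rw [gf_stp hU hf (hflt w (hpos w hU) hw)]; exact h
    · have := key (fun w => ¬ U w → ¬ U (gf U fst w)) ?_ ?_ ?_
      · exact this
      · intro w hw hU h; exact absurd hU h
      · intro w hw hU hf h; rw [gf_one hf]; exact hU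
      · intro w hw hU hf h _
        rw [gf_stp hU hf (hflt w (hpos w hU) hw)]; exact h hf
    · apply key
      · intro w hw hU; rw [gf_onU hU]; exact Anc.refl
      · intro w hw hU hf; rw [gf_one hf]; exact Anc.refl
      · intro w hw hU hf h
        have h0 := hW.tb.hfst w (hpos w hU) hw
        rw [gf_stp hU hf h0.1]
        exact Anc.step ⟨hg.sym _ _ h0.2.1, h0.1⟩ h
    · have := key (fun w => ¬ U w → depF U d (gf U fst w) = 1) ?_ ?_ ?_
      · exact this
      · intro w hw hU h; exact absurd hU h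
      · intro w hw hU hf h; rw [gf_one hf]; exact one hW hw hU hf
      · intro w hw hU hf h _
        rw [gf_stp hU hf (hflt w (hpos w hU) hw)]; exact h hf
    · have := key (fun w => ¬ U w → ∀ x, U x → (b (gf U fst w) x = 1 ↔ d w x = depF U d w))
        ?_ ?_ ?_
      · intro w x hw hU hx
        exact this w hw hU x hx
      · intro w hw hU h; exact absurd hU h
      · intro w hw hU hf _ x hx
        rw [gf_one hf, one hW hw hU hf]
        constructor
        · exact hg.adj _ _
        · intro h1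
          have hwx : w ≠ x := by rintro rfl; exact hU hx
          obtain ⟨k, h2, h3⟩ := hg.step w x hw (ho.ult _ hx) hwx
          have h4 : d k x = 0 := by omega
          have h5 := hg.eqz k x (hg.dom _ _ h2).2 (ho.ult _ hx) h4
          rw [← h5]; exact h2
      · intro w hw hU hf h _ x hx
        have h0 := hW.tb.hfst w (hpos w hU) hw
        rw [gf_stp hU hf h0.1, h hf x hx]
        have h1 := stp hW hw hU hf
        have h2 := d_le hg h0.2.1 x (ho.ult _ hx)
        have h3 := depF_le (U := U) (d := d) (w := w) hx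
        have h4 := depF_le (U := U) (d := d) (w := fst w) hx
        constructor
        · intro h5; omega
        · intro h5
          have h6 := two hW hw hU hf hx h5
          omega

end Pool.Agent.BDC
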