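import Pool.Agent.BDC.Basic

/-!
# BDC: targets of the metric part

See the blueprint (table `docs`, name `BDC`) for the proofs.
-/

namespace Pool.Agent.BDC

/-- every vertex is the root of an elimination order -/
def HasRPO {V : Type} (G : SimpleGraph V) : Prop := ∀ c, ∃ num : V → ℕ, RPO G num c

/-- the number of neighbours of `x` numbered below `k` -/
noncomputable def cnt {V : Type} [Fintype V] (G : SimpleGraph V) (num : V → ℕ) (x : V) (k : ℕ) :
    ℕ := by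
  classical exact (Finset.univ.filter fun y => G.Adj y x ∧ num y < k).card

/-- maximum cardinality search -/
def T_MCS : Prop :=
  ∀ (V : Type) [Fintype V] (G : SimpleGraph V) (num : V → ℕ) (c : V), G.Connected → Chordal G →
    Function.Injective num → (∀ w, w ≠ c → num c < num w) →
    (∀ w x, w ≠ c → num w ≤ num x → cnt G num x (num w) ≤ cnt G num w (num w)) →
    RPO G num c

def T_RPO : Prop :=
  ∀ (V : Type) [Fintype V] (G : SimpleGraph V), G.Connected → Chordal G → HasRPO G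

/-! ## Metric properties -/

def T_P0 : Prop :=
  ∀ (V : Type) [Fintype V] (G : SimpleGraph V), G.Connected → HasRPO G →
    ∀ x y c z, G.dist x z + G.dist z y = G.dist x y →
      G.dist c z + G.dist x z ≤ G.dist c x + 1 ∨ G.dist c z + G.dist z y ≤ G.dist c y + 1

def T_CL : Prop :=
  ∀ (V : Type) [Fintype V] (G : SimpleGraph V), G.Connected → HasRPO G →
    ∀ (c : V) (k : ℕ) (K : Set V), K.Nonempty → (∀ x ∈ K, ∀ y ∈ K, x ≠ y → G.Adj x y) →
      (∀ x ∈ K, G.dist c x = k + 1) → ∃ y, G.dist c y = k ∧ ∀ x ∈ K, G.Adj y x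

/-- the boundary of a component of the complement of a ball -/
def T_L3 : Prop :=
  ∀ (V : Type) [Fintype V] (G : SimpleGraph V), G.Connected → HasRPO G →
    ∀ (c : V) (r : ℕ) (x y y' w w' : V), Cn G {v | r < G.dist c v} x w →
      Cn G {v | r < G.dist c v} x w' → G.dist c y ≤ r → G.dist c y' ≤ r →
      G.Adj y w → G.Adj y' w' → G.dist c y = r ∧ (y = y' ∨ G.Adj y y')

def T_P1 : Prop :=
  ∀ (V : Type) [Fintype V] (G : SimpleGraph V), G.Connected → HasRPO G →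
    ∀ (c cm cp : V) (r rm rp : ℕ), 1 ≤ r → 1 ≤ rm → 1 ≤ rp →
      G.dist c cm = r + rm + 1 → G.dist c cp = r + rp + 1 →
      G.dist cm cp ≤ rm + 2 * r + rp →
      ∃ m, G.dist m cm ≤ r + rp ∧ G.dist m cp ≤ r + rm ∧ G.dist m c ≤ rm + rp

/-- `u` and `v` are mutually distant -/
def Mut {V : Type} (G : SimpleGraph V) (u v : V) : Prop :=
  (∀ w, G.dist u w ≤ G.dist u v) ∧ (∀ w, G.dist v w ≤ G.dist u v)

/-- after six sweeps -/
def T_FAR : Prop :=
  ∀ (V : Type) [Fintype V] (G : SimpleGraph V), G.Connected → HasRPO G →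
    ∀ a : ℕ → V, (∀ k ≤ 5, ∀ w, G.dist (a k) w ≤ G.dist (a k) (a (k + 1))) →
      (∀ k ≤ 4, G.dist (a (k + 1)) (a (k + 2)) ≤ G.dist (a (k + 1)) (a k) → a (k + 2) = a k) →
      Mut G (a 5) (a 6)

/-! ## Covers by balls -/

section Cover

variable {V : Type} [Fintype V]

/-- `w` lies in the ball `b` (centre `b.1`, radius `b.2`) -/
def InB (G : SimpleGraph V) (b : V × ℕ) (w : V) : Prop := G.dist b.1 w ≤ b.2

/-- the balls are joined by an edge -/
def AdjB (G : SimpleGraph V) (b b' : V × ℕ) : Prop :=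
  ∃ x y, InB G b x ∧ InB G b' y ∧ G.Adj x y

/-- a cover of the graph by balls of positive radius -/
structure IsCover (G : SimpleGraph V) (C : Finset (V × ℕ)) : Prop where
  pos : ∀ b ∈ C, 1 ≤ b.2
  cov : ∀ w, ∃ b ∈ C, InB G b w

/-- the sum of the radii -/
def cost (C : Finset (V × ℕ)) : ℕ := ∑ b ∈ C, b.2

/-- an optimal cover with the least number of balls -/
structure MinCover (G : SimpleGraph V) (C : Finset (V × ℕ)) : Prop where
  cover : IsCover G C
  cost_eq : cost C = gammaB G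
  min : ∀ C' : Finset (V × ℕ), IsCover G C' → cost C' ≤ cost C → C.card ≤ C'.card

end Cover

def T_COV : Prop :=
  ∀ (V : Type) [Fintype V] (G : SimpleGraph V), G.Connected → Nontrivial V →
    (∀ C, IsCover G C → gammaB G ≤ cost C) ∧ ∃ C, MinCover G C

/-- in a minimal cover no two or more balls can be replaced by one -/
def T_MERGE : Prop :=
  ∀ (V : Type) [Fintype V] (G : SimpleGraph V) (C T : Finset (V × ℕ)) (m : V), MinCover G C →
    T ⊆ C → 2 ≤ T.card → (∀ b ∈ T, ∀ w, InB G b w → G.dist m w ≤ cost T) → False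

def T_DISJ : Prop :=
  ∀ (V : Type) [Fintype V] (G : SimpleGraph V) (C : Finset (V × ℕ)), G.Connected →
    MinCover G C → ∀ b ∈ C, ∀ b' ∈ C, b ≠ b' → ∀ w, InB G b w → InB G b' w → False

def T_TRI : Prop :=
  ∀ (V : Type) [Fintype V] (G : SimpleGraph V) (C : Finset (V × ℕ)), G.Connected → HasRPO G →
    MinCover G C → ∀ b₁ ∈ C, ∀ b₂ ∈ C, ∀ b₃ ∈ C, b₁ ≠ b₂ → b₁ ≠ b₃ → b₂ ≠ b₃ →
      AdjB G b₁ b₂ → AdjB G b₁ b₃ → AdjB G b₂ b₃ → False

def T_STAR : Prop :=
  ∀ (V : Type) [Fintype V] (G : SimpleGraph V) (C : Finset (V × ℕ)), G.Connected →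
    MinCover G C → ∀ b ∈ C, ∀ b₁ ∈ C, ∀ b₂ ∈ C, ∀ b₃ ∈ C, b ≠ b₁ → b ≠ b₂ → b ≠ b₃ →
      b₁ ≠ b₂ → b₁ ≠ b₃ → b₂ ≠ b₃ → AdjB G b b₁ → AdjB G b b₂ → AdjB G b b₃ → False

/-- a ball between two others has their contact points far apart -/
def T_P1C : Prop :=
  ∀ (V : Type) [Fintype V] (G : SimpleGraph V) (C : Finset (V × ℕ)), G.Connected → HasRPO G →
    MinCover G C → ∀ b ∈ C, ∀ b₁ ∈ C, ∀ b₂ ∈ C, b ≠ b₁ → b ≠ b₂ → b₁ ≠ b₂ →
      ∀ x y x' y', InB G b x → InB G b y → InB G b₁ x' → InB G b₂ y' → G.Adj x x' →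
        G.Adj y y' → 2 * b.2 ≤ G.dist x y + 1

/-- a component of the complement of a ball of the cover touches only one further ball -/
def T_UNIQ : Prop :=
  ∀ (V : Type) [Fintype V] (G : SimpleGraph V) (C : Finset (V × ℕ)), G.Connected → HasRPO G →
    MinCover G C → ∀ b ∈ C, ∀ b₁ ∈ C, ∀ b₂ ∈ C, b ≠ b₁ → b ≠ b₂ → AdjB G b b₁ → AdjB G b b₂ →
      ∀ x₁ x₂, InB G b₁ x₁ → InB G b₂ x₂ → Cn G {w | ¬ InB G b w} x₁ x₂ → b₁ = b₂

/-- the complement of a ball of the cover has at most two components -/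
def T_TWO : Prop :=
  ∀ (V : Type) [Fintype V] (G : SimpleGraph V) (C : Finset (V × ℕ)), G.Connected → HasRPO G →
    MinCover G C → ∀ b ∈ C, ∀ x₁ x₂ x₃, ¬ InB G b x₁ → ¬ InB G b x₂ → ¬ InB G b x₃ →
      Cn G {w | ¬ InB G b w} x₁ x₂ ∨ Cn G {w | ¬ InB G b w} x₁ x₃ ∨
        Cn G {w | ¬ InB G b w} x₂ x₃

def T_A1i : Prop :=
  ∀ (V : Type) [Fintype V] (G : SimpleGraph V) (C : Finset (V × ℕ)), G.Connected → HasRPO G →
    MinCover G C → ∀ u v, Mut G u v → ∀ b ∈ C, InB G b u → InB G b v → C = {b}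

def T_A1ii : Prop :=
  ∀ (V : Type) [Fintype V] (G : SimpleGraph V) (C : Finset (V × ℕ)), G.Connected → HasRPO G →
    MinCover G C → ∀ u v, Mut G u v → ∀ b ∈ C, InB G b u → ∀ x y, ¬ InB G b x → ¬ InB G b y →
      Cn G {w | ¬ InB G b w} x y

def T_A2 : Prop :=
  ∀ (V : Type) [Fintype V] (G : SimpleGraph V) (C : Finset (V × ℕ)), G.Connected → HasRPO G →
    MinCover G C → ∀ u v, Mut G u v → ∀ b ∈ C, InB G b u → ∀ y, ¬ InB G b y → ¬ G.Adj u y

/-! ## The chain of balls -/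

/-- The natural order on `Fin n` is an elimination order rooted at `0`, `U` is a path in the
elimination tree starting at `0`, and the descendants of `x ∈ U` are the vertices `≥ x`. -/
structure Good {n : ℕ} (G : SimpleGraph (Fin n)) (U : Fin n → Prop) : Prop where
  ex : ∀ w : Fin n, 0 < (w : ℕ) → ∃ y : Fin n, y < w ∧ G.Adj y w
  clq : ∀ w y z : Fin n, G.Adj y w → G.Adj z w → y < w → z < w → y ≠ z → G.Adj y z
  u0 : ∀ w : Fin n, (w : ℕ) = 0 → U w
  uE : ∀ x y : Fin n, U x → G.Adj y x → y < x → U y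
  col : ∀ x w : Fin n, U x → x < w → ∃ y : Fin n, x ≤ y ∧ y < w ∧ G.Adj y w

/-- `Chain P j c`: a chain of pieces from `0` to `j` of total cost `c`, where `P l j r` says that
`l, …, j - 1` is a piece of cost `r`. -/
inductive Chain (P : ℕ → ℕ → ℕ → Prop) : ℕ → ℕ → Prop
  | nil : Chain P 0 0
  | cons {l j c r : ℕ} : Chain P l c → P l j r → Chain P j (c + r)

/-- the ball `b` of the cover is the set of vertices `l, …, j - 1` -/
structure BPiece {n : ℕ} (G : SimpleGraph (Fin n)) (U : Fin n → Prop)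
    (C : Finset (Fin n × ℕ)) (b : Fin n × ℕ) (l j : ℕ) : Prop where
  mem : b ∈ C
  lt : l < j
  le : j ≤ n
  ball : ∀ w : Fin n, InB G b w ↔ l ≤ (w : ℕ) ∧ (w : ℕ) < j
  ul : ∃ h : l < n, U ⟨l, h⟩
  uj : j = n ∨ ∃ h : j < n, U ⟨j, h⟩
  sep : ∀ x y : Fin n, (x : ℕ) < l → j ≤ (y : ℕ) → ¬ G.Adj x y

/-- the setting for the chain -/
structure Setting {n : ℕ} (G : SimpleGraph (Fin n)) (U : Fin n → Prop) (u v : Fin n) : Prop where
  conn : G.Connected
  rpo : HasRPO G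
  good : Good G U
  hu : (u : ℕ) = 0
  uv : U v
  max : ∀ x, U x → x ≤ v
  mutd : Mut G u v

def T_CHAIN : Prop :=
  ∀ (n : ℕ), 2 ≤ n → ∀ (G : SimpleGraph (Fin n)) (U : Fin n → Prop) (u v : Fin n),
    Setting G U u v → ∀ C, MinCover G C →
      Chain (fun l j r => ∃ b, b.2 = r ∧ BPiece G U C b l j) n (gammaB G)

/-- the centres can be chosen on the path or next to it -/
def T_CEN : Prop :=
  ∀ (n : ℕ), 2 ≤ n → ∀ (G : SimpleGraph (Fin n)) (U : Fin n → Prop) (u v : Fin n),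
    Setting G U u v → ∀ C, MinCover G C → ∀ (b : Fin n × ℕ) (l j : ℕ), BPiece G U C b l j →
      ∃ c : Fin n, l ≤ (c : ℕ) ∧ (c : ℕ) < j ∧
        (∀ w : Fin n, l ≤ (w : ℕ) → (w : ℕ) < j → G.dist c w ≤ b.2) ∧
        (U c ∨ ∃ q : Fin n, U q ∧ l ≤ (q : ℕ) ∧ (q : ℕ) < j ∧ G.Adj c q)

end Pool.Agent.BDC
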