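import Pool.Agent.BDC.TargetsN
import Pool.Agent.BDC.Comp

/-!
# BDC: targets of the assembly
-/

namespace Pool.Agent.BDC

open N Prog

/-- the adjacency matrix, extended by zero -/
noncomputable def gm {n : ℕ} (G : SimpleGraph (Fin n)) (i j : ℕ) : ℕ := by
  classical exact if ∃ (hi : i < n) (hj : j < n), G.Adj ⟨i, hi⟩ ⟨j, hj⟩ then 1 else 0

/-- the distance function, extended by zero -/
noncomputable def gd {n : ℕ} (G : SimpleGraph (Fin n)) (i j : ℕ) : ℕ :=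
  if h : i < n ∧ j < n then G.dist ⟨i, h.1⟩ ⟨j, h.2⟩ else 0

/-- bridge between the two descriptions of a graph -/
def T_BR : Prop :=
  ∀ (n : ℕ) (G : SimpleGraph (Fin n)), G.Connected →
    NGraph n (gm G) (gd G) ∧ (∀ i j : Fin n, gd G i j = G.dist i j) ∧
    (∀ i j : Fin n, gm G i j = 1 ↔ G.Adj i j)

/-- one sweep -/
def T_SWEEP : Prop :=
  ∀ (n : ℕ) (A : ℕ → ℕ → ℕ) (σ : Store) (G : SimpleGraph (Fin n)) (cur : Fin n),
    G.Connected → Chordal G → Has2 n σ aA (gm G) → σ vCur 0 0 = cur →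
    ∃ (e : Fin n ≃ Fin n) (G' : SimpleGraph (Fin n)) (f : Fin n),
      (∀ i j, G'.Adj i j ↔ G.Adj (e i) (e j)) ∧
      (∀ z : Fin n, (z : ℕ) = 0 → e z = cur ∧ RPO G' (fun i => (i : ℕ)) z ∧
        (∀ w, G'.dist z w ≤ G'.dist z f) ∧
        (G'.dist z f ≤ G'.dist z (e.symm z) → f = e.symm z)) ∧
      Has2 n (run n A cSweep σ) aA (gm G') ∧ run n A cSweep σ vCur 0 0 = f

/-- the first part of the program -/
def part1 : Cm := Cm.seq cInit (Cm.seq cSweep (Cm.seq cSweep (Cm.seq cSweep (Cm.seq cSweep (Cm.seq cSweep cSweep)))))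

/-- after six sweeps -/
def T_SWEEPS : Prop :=
  ∀ (n : ℕ) (G : SimpleGraph (Fin n)), 2 ≤ n → G.Connected → Chordal G →
    ∃ (e : Fin n ≃ Fin n) (G' : SimpleGraph (Fin n)) (f : Fin n),
      (∀ i j, G'.Adj i j ↔ G.Adj (e i) (e j)) ∧
      (∀ z : Fin n, (z : ℕ) = 0 → RPO G' (fun i => (i : ℕ)) z ∧ Mut G' z f) ∧
      Has2 n (run n (gm G) part1 zst) aA (gm G') ∧ run n (gm G) part1 zst vCur 0 0 = f

/-- path and renumbering -/
def T_PREP : Prop :=
  ∀ (n : ℕ) (A : ℕ → ℕ → ℕ) (σ : Store) (G : SimpleGraph (Fin n)) (u f : Fin n),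
    G.Connected → HasRPO G → (u : ℕ) = 0 → RPO G (fun i => (i : ℕ)) u → Mut G u f →
    Has2 n σ aA (gm G) → σ vCur 0 0 = f →
    ∃ (e : Fin n ≃ Fin n) (G' : SimpleGraph (Fin n)) (U : Fin n → Prop) (v : Fin n),
      (∀ i j, G'.Adj i j ↔ G.Adj (e i) (e j)) ∧ Setting G' U u v ∧
      Has2 n (run n A (Cm.seq cPath cRank) σ) aB (gm G') ∧
      HasP n (run n A (Cm.seq cPath cRank) σ) aU (fun x => ∃ h : x < n, U ⟨x, h⟩)

/-- the last part of the program -/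
def part3 : Cm :=
  Cm.seq cFst (Cm.seq cPos (Cm.seq cDs (Cm.seq cDin (Cm.seq cDep (Cm.seq (cZ .c0) (Cm.seq (cZ .c1) (Cm.seq cHits
  (Cm.seq (cOk .c0) (Cm.seq (cOk .c1) (Cm.seq (cIv .c0) (cIv .c1)))))))))))

/-- the tables and the intervals: what the dynamic program needs -/
def T_TABS : Prop :=
  ∀ (n : ℕ) (A : ℕ → ℕ → ℕ) (σ : Store) (b d : ℕ → ℕ → ℕ) (U : ℕ → Prop), 1 ≤ n →
    NGraph n b d → GoodN n b U → Has2 n σ aB b → HasP n σ aU U →
    ∃ LZ UZ RZ : ℕ → ℕ → ℕ,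
      HasP n (run n A part3 σ) aU U ∧
      (∀ p w, p < n → w < n → U p → run n A part3 σ aDs p w = d p w) ∧
      (∀ k p, k < 2 → p < n → U p → run n A part3 σ aLZ k p = LZ k p ∧
        run n A part3 σ aUZ k p = UZ k p ∧ run n A part3 σ aRZ k p = RZ k p ∧
        (0 < RZ k p → LZ k p ≤ p ∧ p < UZ k p ∧ UZ k p ≤ n ∧ RZ k p ≤ n ∧
          ∃ c, c < n ∧ ∀ w, LZ k p ≤ w → w < UZ k p → d c w ≤ RZ k p)) ∧
      -- every piece with a centre next to the path is a sub-piece of an available piece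
      (∀ i j c q r, U i → (j = n ∨ U j) → i < j → j ≤ n → i ≤ c → c < j → ¬ U c → U q → i ≤ q →
        q < j → b c q = 1 → 1 ≤ r → (∀ w, i ≤ w → w < j → d c w ≤ r) →
        Sub n U d LZ UZ RZ i j r)

/-- the result of the program -/
def T_ALG : Prop :=
  ∀ (n : ℕ) (G : SimpleGraph (Fin n)), 2 ≤ n → G.Connected → Chordal G →
    run n (gm G) program zst vM 0 0 = gammaB G

end Pool.Agent.BDC
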