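import Pool.Agent.BDC.LBase

/-!
# BDC: targets of the loop part

Every target describes the effect of one stage of the program.  `b`, `a` are 0/1 matrices (the
adjacency matrices), `U` is the set of path vertices, the other functions are the contents of
arrays computed before.
-/

namespace Pool.Agent.BDC

open N Prog

/-- array `k` of `σ` (one-dimensional) contains `f` on `[0, n)` -/
def Has1 (n : ℕ) (σ : Store) (k : ℕ) (f : ℕ → ℕ) : Prop := ∀ i, i < n → σ k i 0 = f i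

/-- array `k` of `σ` (two-dimensional) contains `f` on `[0, n) × [0, n)` -/
def Has2 (n : ℕ) (σ : Store) (k : ℕ) (f : ℕ → ℕ → ℕ) : Prop :=
  ∀ i j, i < n → j < n → σ k i j = f i j

/-- array `k` of `σ` is the characteristic function of `U` on `[0, n)` -/
def HasP (n : ℕ) (σ : Store) (k : ℕ) (U : ℕ → Prop) : Prop :=
  ∀ i, i < n → (U i → σ k i 0 = 1) ∧ (¬ U i → σ k i 0 = 0)

/-! ## The sweeps -/

def T_LMCS : Prop :=
  ∀ (n : ℕ) (A : ℕ → ℕ → ℕ) (σ : Store) (a : ℕ → ℕ → ℕ) (cur : ℕ), 1 ≤ n → cur < n →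
    σ vCur 0 0 = cur → Has2 n σ aA a → (∀ i j, a i j ≤ 1) →
    ∃ ord : ℕ → ℕ, (∀ i, i < n → ord i < n) ∧
      (∀ i j, i < n → j < n → ord i = ord j → i = j) ∧ ord 0 = cur ∧
      Has1 n (run n A cMcs σ) aOrd ord ∧
      (∀ i, i < n → run n A cMcs σ aNum (ord i) 0 = i) ∧
      (∀ i x, 1 ≤ i → i < n → x < n → (∀ k, k < i → ord k ≠ x) →
        ∑ k ∈ Finset.range i, a (ord k) x ≤ ∑ k ∈ Finset.range i, a (ord k) (ord i))

def T_LREN : Prop :=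
  ∀ (n : ℕ) (A : ℕ → ℕ → ℕ) (σ : Store) (a : ℕ → ℕ → ℕ) (ord : ℕ → ℕ),
    Has2 n σ aA a → (∀ i, i < n → ord i < n) → Has1 n σ aOrd ord →
    Has2 n (run n A cRen σ) aA (fun i j => a (ord i) (ord j))

def T_LFAR : Prop :=
  ∀ (n : ℕ) (A : ℕ → ℕ → ℕ) (σ : Store) (a : ℕ → ℕ → ℕ) (fst lev : ℕ → ℕ) (old : ℕ),
    1 ≤ n → Has2 n σ aA a →
    (∀ w, 0 < w → w < n → fst w < w ∧ a w (fst w) = 1 ∧ ∀ j, j < n → a w j = 1 → fst w ≤ j) →
    lev 0 = 0 → (∀ w, 0 < w → w < n → lev w = lev (fst w) + 1) →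
    σ aNum 0 0 = old → old < n →
    run n A cFar σ vCur 0 0 < n ∧
    (∀ w, w < n → lev w ≤ lev (run n A cFar σ vCur 0 0)) ∧
    (lev (run n A cFar σ vCur 0 0) ≤ lev old → run n A cFar σ vCur 0 0 = old)

/-! ## The path and the renumbering -/

def T_LPATH : Prop :=
  ∀ (n : ℕ) (A : ℕ → ℕ → ℕ) (σ : Store) (a : ℕ → ℕ → ℕ) (par pos : ℕ → ℕ) (v : ℕ),
    1 ≤ n → v < n → σ vCur 0 0 = v → Has2 n σ aA a →
    (∀ w, 0 < w → w < n → par w < w ∧ a w (par w) = 1 ∧ ∀ j, j < w → a w j = 1 → j ≤ par w) →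
    par 0 = 0 →
    (∀ w, w < n → (∃ k, par^[k] v = w) → pos w = w) →
    (∀ w, w < n → (¬ ∃ k, par^[k] v = w) → pos w = pos (par w)) →
    HasP n (run n A cPath σ) aOnp (fun w => ∃ k, par^[k] v = w) ∧
    Has1 n (run n A cPath σ) aPos1 pos

/-- the rank of `w` in the order by `(pos w, w)` -/
noncomputable def rank (n : ℕ) (pos : ℕ → ℕ) (w : ℕ) : ℕ :=
  ((Finset.range n).filter fun x => pos x < pos w ∨ (pos x = pos w ∧ x < w)).card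

def T_LRANK : Prop :=
  ∀ (n : ℕ) (A : ℕ → ℕ → ℕ) (σ : Store) (a : ℕ → ℕ → ℕ) (pos o : ℕ → ℕ),
    Has2 n σ aA a → Has1 n σ aPos1 pos → Has1 n σ aOnp o →
    (∀ i j, i < n → j < n → rank n pos i = rank n pos j → i = j) →
    (∀ w, w < n → run n A cRank σ aU (rank n pos w) 0 = o w) ∧
    (∀ i j, i < n → j < n → run n A cRank σ aB (rank n pos i) (rank n pos j) = a i j)

/-! ## Tables -/

def T_LFST : Prop :=
  ∀ (n : ℕ) (A : ℕ → ℕ → ℕ) (σ : Store) (b : ℕ → ℕ → ℕ), 1 ≤ n → Has2 n σ aB b →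
    (∀ w, w < n → run n A cFst σ aFst w 0 < n) ∧
    ∀ w, 0 < w → w < n → (∃ j, j < w ∧ b w j = 1) →
      (run n A cFst σ aFst w 0 < w ∧ b w (run n A cFst σ aFst w 0) = 1 ∧
        ∀ j, j < n → b w j = 1 → run n A cFst σ aFst w 0 ≤ j) ∧
      (run n A cFst σ aPar w 0 < w ∧ b w (run n A cFst σ aPar w 0) = 1 ∧
        ∀ j, j < w → b w j = 1 → j ≤ run n A cFst σ aPar w 0)

def T_LPOS : Prop :=
  ∀ (n : ℕ) (A : ℕ → ℕ → ℕ) (σ : Store) (b : ℕ → ℕ → ℕ) (U : ℕ → Prop) (fst : ℕ → ℕ), 1 ≤ n →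
    Has2 n σ aB b → HasP n σ aU U → U 0 → Has1 n σ aFst fst → (∀ w, w < n → fst w < n) →
    -- columns
    (∀ w, w < n → U (run n A cPos σ aPos w 0) ∧ run n A cPos σ aPos w 0 ≤ w ∧
      ∀ x, U x → x ≤ w → x ≤ run n A cPos σ aPos w 0) ∧
    -- last neighbour on the path
    (∀ w, w < n → run n A cPos σ aRt w 0 < n ∧
      (run n A cPos σ aRt w 0 = w ∨ (w < run n A cPos σ aRt w 0 ∧ U (run n A cPos σ aRt w 0) ∧
        b w (run n A cPos σ aRt w 0) = 1)) ∧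
      ∀ x, x < n → w < x → U x → b w x = 1 → x ≤ run n A cPos σ aRt w 0) ∧
    -- the best neighbour on the path
    (∀ w, w < n → run n A cPos σ aYs w 0 < n ∧
      (U (fst w) → b w (fst w) = 1 →
        U (run n A cPos σ aYs w 0) ∧ b w (run n A cPos σ aYs w 0) = 1 ∧
        ∀ x, x < n → U x → b w x = 1 →
          run n A cPos σ aRt x 0 ≤ run n A cPos σ aRt (run n A cPos σ aYs w 0) 0))

/-- the recursion for the distances from path vertices -/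
structure RecDs (n : ℕ) (b : ℕ → ℕ → ℕ) (U : ℕ → Prop) (fst ys : ℕ → ℕ) (d : ℕ → ℕ → ℕ) :
    Prop where
  le : ∀ p w, p < n → w < n → d p w ≤ n
  same : ∀ p, U p → p < n → d p p = 0
  adj : ∀ p w, U p → p < n → w < n → w ≠ p → b p w = 1 → d p w = 1
  flt : ∀ w, 0 < w → w < n → fst w < w
  ylt : ∀ w, w < n → ¬ U w → U (fst w) → ys w < w
  up2 : ∀ p w, U p → p < n → w < n → p < w → b p w ≠ 1 → fst w < p → d p w = 2
  up1 : ∀ p w, U p → p < n → w < n → p < w → b p w ≠ 1 → ¬ fst w < p →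
    d p w = d p (fst w) + 1
  dnU : ∀ p w, U p → p < n → w < p → b p w ≠ 1 → U w → d p w = d w p
  dn1 : ∀ p w, U p → p < n → w < p → b p w ≠ 1 → ¬ U w → U (fst w) → d p w = d p (ys w) + 1
  dn2 : ∀ p w, U p → p < n → w < p → b p w ≠ 1 → ¬ U w → ¬ U (fst w) →
    d p w = d p (fst w) + 1

def T_LDS : Prop :=
  ∀ (n : ℕ) (A : ℕ → ℕ → ℕ) (σ : Store) (b : ℕ → ℕ → ℕ) (U : ℕ → Prop) (fst ys : ℕ → ℕ)
    (d : ℕ → ℕ → ℕ), 1 ≤ n → Has2 n σ aB b → HasP n σ aU U → U 0 → Has1 n σ aFst fst →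
    Has1 n σ aYs ys → RecDs n b U fst ys d →
    ∀ p w, U p → p < n → w < n → run n A cDs σ aDs p w = d p w

/-- the recursion for the distances to descendants -/
structure RecDin (n : ℕ) (b : ℕ → ℕ → ℕ) (fst par : ℕ → ℕ) (din : ℕ → ℕ → ℕ) : Prop where
  le : ∀ y w, y < n → w < n → din y w ≤ n
  flt : ∀ w, 0 < w → w < n → fst w < w
  plt : ∀ w, 0 < w → w < n → par w < w
  lt : ∀ y w, y < n → w < y → din y w = n
  same : ∀ y, y < n → din y y = 0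
  adj : ∀ y w, y < w → w < n → b y w = 1 → din y w = 1
  out : ∀ y w, y < w → w < n → b y w ≠ 1 → (par w < y ∨ din y (par w) = n) → din y w = n
  two : ∀ y w, y < w → w < n → b y w ≠ 1 → ¬ (par w < y ∨ din y (par w) = n) → fst w < y →
    din y w = 2
  stp : ∀ y w, y < w → w < n → b y w ≠ 1 → ¬ (par w < y ∨ din y (par w) = n) → ¬ fst w < y →
    din y w = din y (fst w) + 1

def T_LDIN : Prop :=
  ∀ (n : ℕ) (A : ℕ → ℕ → ℕ) (σ : Store) (b : ℕ → ℕ → ℕ) (fst par : ℕ → ℕ) (din : ℕ → ℕ → ℕ),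
    1 ≤ n → Has2 n σ aB b → Has1 n σ aFst fst → Has1 n σ aPar par →
    RecDin n b fst par din →
    Has2 n (run n A cDin σ) aDin din ∧
    (∀ y, y < n → (∀ w, w < n → din y w < n → din y w ≤ run n A cDin σ aEc y 0) ∧
      (run n A cDin σ aEc y 0 = 0 ∨
        ∃ w, w < n ∧ din y w < n ∧ run n A cDin σ aEc y 0 = din y w))

/-- the number of neighbours on the path -/
noncomputable def psize (n : ℕ) (b : ℕ → ℕ → ℕ) (U : ℕ → Prop) (w : ℕ) : ℕ := by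
  classical exact ((Finset.range n).filter fun x => U x ∧ b w x = 1).card

/-- the recursion for depth and `g` -/
structure RecDep (n : ℕ) (U : ℕ → Prop) (fst dep g : ℕ → ℕ) : Prop where
  le : ∀ w, w < n → dep w ≤ n
  flt : ∀ w, 0 < w → w < n → fst w < w
  onU : ∀ w, w < n → U w → dep w = 0 ∧ g w = w
  one : ∀ w, w < n → ¬ U w → U (fst w) → dep w = 1 ∧ g w = w
  stp : ∀ w, w < n → ¬ U w → ¬ U (fst w) → dep w = dep (fst w) + 1 ∧ g w = g (fst w)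

/-- `h p` is the height of column `p` -/
def IsH (n : ℕ) (pos dep : ℕ → ℕ) (p k : ℕ) : Prop :=
  (∀ w, w < n → pos w = p → dep w ≤ k) ∧ (k = 0 ∨ ∃ w, w < n ∧ pos w = p ∧ dep w = k)

/-- `o` is the reference vertex of column `p` (`0` if there is none) -/
def IsWo (n : ℕ) (b : ℕ → ℕ → ℕ) (U : ℕ → Prop) (pos dep g : ℕ → ℕ) (p k o : ℕ) : Prop :=
  (o = 0 ∧ ∀ w, w < n → pos w = p → U w) ∨
  (o < n ∧ ¬ U o ∧ pos o = p ∧ dep o = k ∧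
    ∀ w, w < n → ¬ U w → pos w = p → dep w = k → psize n b U (g o) ≤ psize n b U (g w))

def T_LDEP : Prop :=
  ∀ (n : ℕ) (A : ℕ → ℕ → ℕ) (σ : Store) (b : ℕ → ℕ → ℕ) (U : ℕ → Prop)
    (fst pos dep g : ℕ → ℕ), 1 ≤ n → Has2 n σ aB b → HasP n σ aU U → U 0 →
    Has1 n σ aFst fst → Has1 n σ aPos pos → (∀ w, w < n → U (pos w) ∧ pos w ≤ w) →
    (∀ w, w < n → U w → pos w = w) → RecDep n U fst dep g →
    Has1 n (run n A cDep σ) aDep dep ∧ Has1 n (run n A cDep σ) aG g ∧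
    ∀ p, p < n → U p → IsH n pos dep p (run n A cDep σ aH p 0) ∧
      IsWo n b U pos dep g p (run n A cDep σ aH p 0) (run n A cDep σ aWo p 0)

/-- the property of the candidate centre -/
def QZ (n : ℕ) (U : ℕ → Prop) (din : ℕ → ℕ → ℕ) (dep ec : ℕ → ℕ) (k hp o x : ℕ) : Prop :=
  ¬ U x ∧ din x o < n ∧ dep x = 1 ∧ ec x + k ≤ hp

/-- `z` is the least vertex with the property, `0` if there is none -/
def IsZ (n : ℕ) (U : ℕ → Prop) (din : ℕ → ℕ → ℕ) (dep ec : ℕ → ℕ) (k hp o z : ℕ) : Prop :=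
  (z = 0 ∧ (o = 0 ∨ ∀ x, x < n → ¬ QZ n U din dep ec k hp o x)) ∨
  (0 < o ∧ z < n ∧ QZ n U din dep ec k hp o z ∧ ∀ x, x < n → QZ n U din dep ec k hp o x → z ≤ x)

def T_LZ : Prop :=
  ∀ (n : ℕ) (A : ℕ → ℕ → ℕ) (σ : Store) (U : ℕ → Prop) (din : ℕ → ℕ → ℕ)
    (dep ec h wo : ℕ → ℕ) (k : ℕ) (kE : Ex), (k = 0 ∧ kE = .c0) ∨ (k = 1 ∧ kE = .c1) →
    1 ≤ n → HasP n σ aU U → U 0 → Has2 n σ aDin din → Has1 n σ aDep dep → Has1 n σ aEc ec →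
    (∀ x, x < n → ec x ≤ n) →
    (∀ p, p < n → U p → σ aH p 0 = h p ∧ σ aWo p 0 = wo p ∧ wo p < n ∧ h p ≤ n) →
    (∀ p, p < n → U p → IsZ n U din dep ec k (h p) (wo p) (run n A (cZ kE) σ aZ k p)) ∧
    ∀ k' p, k' ≠ k → run n A (cZ kE) σ aZ k' p = σ aZ k' p

/-- `w` is hit by the candidate of the nearest higher column on the right -/
def HitR (n : ℕ) (b : ℕ → ℕ → ℕ) (U : ℕ → Prop) (dep g h : ℕ → ℕ) (Z : ℕ → ℕ → ℕ)
    (w p : ℕ) : Prop :=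
  U p ∧ p < n ∧ w < p ∧ dep w < h p ∧ (∀ x, U x → w < x → x < p → h x ≤ dep w) ∧
    h p ≤ dep w + 2 ∧ 0 < Z (h p - dep w - 1) p ∧
    ∃ x, x < n ∧ U x ∧ b (Z (h p - dep w - 1) p) x = 1 ∧ b (g w) x = 1

/-- `w` is hit by the candidate of the nearest higher column on the left -/
def HitL (n : ℕ) (b : ℕ → ℕ → ℕ) (U : ℕ → Prop) (pos dep g h : ℕ → ℕ) (Z : ℕ → ℕ → ℕ)
    (w p : ℕ) : Prop :=
  U p ∧ p < n ∧ p < pos w ∧ dep w < h p ∧ (∀ x, U x → x < pos w → p < x → h x ≤ dep w) ∧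
    h p ≤ dep w + 2 ∧ 0 < Z (h p - dep w - 1) p ∧
    ∃ x, x < n ∧ U x ∧ b (Z (h p - dep w - 1) p) x = 1 ∧ b (g w) x = 1

def T_LHIT : Prop :=
  ∀ (n : ℕ) (A : ℕ → ℕ → ℕ) (σ : Store) (b : ℕ → ℕ → ℕ) (U : ℕ → Prop)
    (pos dep g h : ℕ → ℕ) (Z : ℕ → ℕ → ℕ), 1 ≤ n → Has2 n σ aB b → HasP n σ aU U → U 0 →
    Has1 n σ aPos pos → Has1 n σ aDep dep → Has1 n σ aG g → (∀ w, w < n → g w < n) →
    (∀ w, w < n → dep w ≤ n ∧ pos w < n) → (∀ p, p < n → U p → σ aH p 0 = h p ∧ h p ≤ n) →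
    (∀ k p, k < 2 → p < n → U p → σ aZ k p = Z k p ∧ Z k p < n) →
    ∀ w, w < n → ¬ U w → ∀ p, p < n →
      (run n A cHits σ aHR w 0 = p ↔ HitR n b U dep g h Z w p) ∧
      (run n A cHits σ aHL w 0 = p ↔ HitL n b U pos dep g h Z w p)

/-- the coverage condition inside a column: `z` candidate, `r` radius -/
def OkC (b : ℕ → ℕ → ℕ) (U : ℕ → Prop) (ds din : ℕ → ℕ → ℕ) (z r w : ℕ) : Prop :=
  0 < z ∧ (din z w ≤ r ∨
    ∃ y, y < z ∧ b z y = 1 ∧ ((U y ∧ ds y w < r) ∨ (¬ U y ∧ din y w < r)))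

def T_LOK : Prop :=
  ∀ (n : ℕ) (A : ℕ → ℕ → ℕ) (σ : Store) (b : ℕ → ℕ → ℕ) (U : ℕ → Prop)
    (pos h : ℕ → ℕ) (Z ds din : ℕ → ℕ → ℕ) (k : ℕ) (kE : Ex),
    (k = 0 ∧ kE = .c0) ∨ (k = 1 ∧ kE = .c1) → 1 ≤ n → Has2 n σ aB b → HasP n σ aU U →
    Has1 n σ aPos pos → (∀ w, w < n → U (pos w) ∧ pos w < n) →
    (∀ p, p < n → U p → σ aH p 0 = h p ∧ h p ≤ n) →
    (∀ p, p < n → U p → σ aZ k p = Z k p ∧ Z k p < n) →
    (∀ p w, p < n → w < n → U p → σ aDs p w = ds p w) → Has2 n σ aDin din →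
    (∀ p, p < n → U p → (run n A (cOk kE) σ aOkp k p = 1 ↔
      ∀ w, w < n → pos w = p → OkC b U ds din (Z k p) (h p - k) w)) ∧
    ∀ k' p, k' ≠ k → run n A (cOk kE) σ aOkp k' p = σ aOkp k' p

/-- the coverage test outside the column `p` -/
def Tst (b : ℕ → ℕ → ℕ) (U : ℕ → Prop) (fst ys dep HR HL : ℕ → ℕ) (ds : ℕ → ℕ → ℕ)
    (p z r w : ℕ) : Prop :=
  ds (fst z) w < r ∨ ds (ys z) w < r ∨ b z w = 1 ∨
    (¬ U w ∧ (HR w = p ∨ HL w = p) ∧ dep w + 1 = r)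

def T_LIV : Prop :=
  ∀ (n : ℕ) (A : ℕ → ℕ → ℕ) (σ : Store) (b : ℕ → ℕ → ℕ) (U : ℕ → Prop)
    (fst ys pos dep h HR HL : ℕ → ℕ) (Z okp ds : ℕ → ℕ → ℕ) (k : ℕ) (kE : Ex),
    (k = 0 ∧ kE = .c0) ∨ (k = 1 ∧ kE = .c1) → 1 ≤ n → Has2 n σ aB b → HasP n σ aU U →
    Has1 n σ aFst fst → Has1 n σ aYs ys → Has1 n σ aPos pos → Has1 n σ aDep dep →
    (∀ w, w < n → ¬ U w → σ aHR w 0 = HR w ∧ σ aHL w 0 = HL w) →
    (∀ w, w < n → dep w ≤ n) →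
    (∀ p, p < n → U p → σ aH p 0 = h p ∧ h p ≤ n) →
    (∀ p, p < n → U p → σ aZ k p = Z k p ∧ Z k p < n ∧ σ aOkp k p = okp k p) →
    (∀ p w, p < n → w < n → U p → σ aDs p w = ds p w) →
    -- the candidates have their first and best neighbours on the path
    (∀ p, p < n → U p → 0 < Z k p →
      fst (Z k p) < n ∧ U (fst (Z k p)) ∧ ys (Z k p) < n ∧ U (ys (Z k p))) →
    (∀ p, p < n → U p →
      (¬ (0 < Z k p ∧ 0 < h p - k ∧ okp k p = 1) → run n A (cIv kE) σ aRZ k p = 0) ∧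
      ((0 < Z k p ∧ 0 < h p - k ∧ okp k p = 1) → run n A (cIv kE) σ aRZ k p = h p - k ∧
        run n A (cIv kE) σ aLZ k p ≤ p ∧ p < run n A (cIv kE) σ aUZ k p ∧
        run n A (cIv kE) σ aUZ k p ≤ n ∧
        (∀ w, run n A (cIv kE) σ aLZ k p ≤ w → w < p →
          Tst b U fst ys dep HR HL ds p (Z k p) (h p - k) w) ∧
        (∀ w, p < w → w < run n A (cIv kE) σ aUZ k p →
          pos w = p ∨ Tst b U fst ys dep HR HL ds p (Z k p) (h p - k) w) ∧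
        (run n A (cIv kE) σ aLZ k p = 0 ∨
          ¬ Tst b U fst ys dep HR HL ds p (Z k p) (h p - k) (run n A (cIv kE) σ aLZ k p - 1)) ∧
        (run n A (cIv kE) σ aUZ k p = n ∨
          ¬ (pos (run n A (cIv kE) σ aUZ k p) = p ∨
            Tst b U fst ys dep HR HL ds p (Z k p) (h p - k) (run n A (cIv kE) σ aUZ k p))))) ∧
    ∀ k' p, k' ≠ k → run n A (cIv kE) σ aRZ k' p = σ aRZ k' p ∧
      run n A (cIv kE) σ aLZ k' p = σ aLZ k' p ∧ run n A (cIv kE) σ aUZ k' p = σ aUZ k' p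

/-! ## The dynamic program -/

/-- a piece available to the dynamic program, exactly as recorded -/
def Cov (n : ℕ) (U : ℕ → Prop) (ds LZ UZ RZ : ℕ → ℕ → ℕ) (l u r : ℕ) : Prop :=
  (∃ p, U p ∧ l ≤ p ∧ p < u ∧ u ≤ n ∧ 1 ≤ r ∧ ∀ w, l ≤ w → w < u → ds p w ≤ r) ∨
  (∃ p k, U p ∧ p < n ∧ k < 2 ∧ 0 < r ∧ RZ k p = r ∧ LZ k p = l ∧ UZ k p = u)

/-- `CC P j c`: `[0, j)` is covered by pieces of total cost `c` -/
inductive CC (P : ℕ → ℕ → ℕ → Prop) : ℕ → ℕ → Prop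
  | zero : CC P 0 0
  | cons {l u j c r : ℕ} : CC P l c → P l u r → j ≤ u → CC P j (c + r)

/-- a sub-piece of an available piece -/
def Sub (n : ℕ) (U : ℕ → Prop) (ds LZ UZ RZ : ℕ → ℕ → ℕ) (l j r : ℕ) : Prop :=
  (∃ p, U p ∧ l ≤ p ∧ p < j ∧ j ≤ n ∧ 1 ≤ r ∧ ∀ w, l ≤ w → w < j → ds p w ≤ r) ∨
  (∃ p k, U p ∧ p < n ∧ k < 2 ∧ 0 < r ∧ RZ k p = r ∧ LZ k p ≤ l ∧ l ≤ p ∧ p < j ∧ j ≤ UZ k p)

/-- chains of sub-pieces -/
inductive SC (P : ℕ → ℕ → ℕ → Prop) : ℕ → ℕ → Prop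
  | zero : SC P 0 0
  | cons {l j c r : ℕ} : SC P l c → P l j r → SC P j (c + r)

def T_LDP : Prop :=
  ∀ (n : ℕ) (A : ℕ → ℕ → ℕ) (σ : Store) (U : ℕ → Prop) (ds LZ UZ RZ : ℕ → ℕ → ℕ), 1 ≤ n →
    HasP n σ aU U → U 0 → (∀ x, U x → x < n) →
    (∀ p w, p < n → w < n → U p → σ aDs p w = ds p w ∧ ds p w < n) →
    (∀ p, U p → ds p p = 0) →
    (∀ k p, k < 2 → p < n → U p → σ aLZ k p = LZ k p ∧ σ aUZ k p = UZ k p ∧ σ aRZ k p = RZ k p ∧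
      (0 < RZ k p → LZ k p ≤ p ∧ p < UZ k p ∧ UZ k p ≤ n ∧ RZ k p ≤ n)) →
    (run n A cDp σ aS n 0 = n ∨
      CC (Cov n U ds LZ UZ RZ) n (run n A cDp σ aS n 0)) ∧
    ∀ c, SC (Sub n U ds LZ UZ RZ) n c → run n A cDp σ aS n 0 ≤ c

end Pool.Agent.BDC
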