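import Pool.Agent.BDC.TargetsL
import Pool.Agent.BDC.Targets

/-!
# BDC: targets on the tables (elementary graph theory on `[0, n)`)

The graph is given by a 0/1 matrix `b` on the natural numbers and its distance function `d`.
-/

namespace Pool.Agent.BDC

/-- adjacency given by a matrix -/
abbrev Ad (b : ℕ → ℕ → ℕ) (i j : ℕ) : Prop := b i j = 1

/-- a connected graph on `[0, n)` with its distance function -/
structure NGraph (n : ℕ) (b d : ℕ → ℕ → ℕ) : Prop where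
  dom : ∀ i j, b i j = 1 → i < n ∧ j < n
  le1 : ∀ i j, b i j ≤ 1
  irr : ∀ i, b i i ≠ 1
  sym : ∀ i j, b i j = 1 → b j i = 1
  zero : ∀ i, i < n → d i i = 0
  eqz : ∀ i j, i < n → j < n → d i j = 0 → i = j
  dsym : ∀ i j, i < n → j < n → d i j = d j i
  tri : ∀ i j k, i < n → j < n → k < n → d i k ≤ d i j + d j k
  adj : ∀ i j, b i j = 1 → d i j = 1
  step : ∀ i j, i < n → j < n → i ≠ j → ∃ k, b i k = 1 ∧ d k j + 1 = d i j
  lt : ∀ i j, i < n → j < n → d i j < n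

/-- the natural order is an elimination order rooted at `0` -/
structure NatOrd (n : ℕ) (b : ℕ → ℕ → ℕ) : Prop where
  ex : ∀ w, 0 < w → w < n → ∃ y, y < w ∧ b y w = 1
  clq : ∀ w y z, b y w = 1 → b z w = 1 → y < w → z < w → y ≠ z → b y z = 1

/-- moreover `U` is a path of the elimination tree starting at `0` and the descendants of `x ∈ U`
are the vertices `≥ x` -/
structure GoodN (n : ℕ) (b : ℕ → ℕ → ℕ) (U : ℕ → Prop) : Prop where
  ord : NatOrd n b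
  u0 : U 0
  ult : ∀ x, U x → x < n
  uE : ∀ x y, U x → b y x = 1 → y < x → U y
  col : ∀ x w, U x → x < w → w < n → ∃ y, x ≤ y ∧ y < w ∧ b y w = 1

/-- the contents of the arrays `aFst, aPar, aPos, aRt, aYs` -/
structure Tab (n : ℕ) (b : ℕ → ℕ → ℕ) (U : ℕ → Prop) (fst par pos rt ys : ℕ → ℕ) : Prop where
  hfst : ∀ w, 0 < w → w < n → fst w < w ∧ b w (fst w) = 1 ∧ ∀ j, j < n → b w j = 1 → fst w ≤ j
  hfst0 : ∀ w, w < n → fst w < n
  hpar : ∀ w, 0 < w → w < n → par w < w ∧ b w (par w) = 1 ∧ ∀ j, j < w → b w j = 1 → j ≤ par w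
  hpos : ∀ w, w < n → U (pos w) ∧ pos w ≤ w ∧ ∀ x, U x → x ≤ w → x ≤ pos w
  hrt : ∀ w, w < n → rt w < n ∧ (rt w = w ∨ (w < rt w ∧ U (rt w) ∧ b w (rt w) = 1)) ∧
    ∀ x, x < n → w < x → U x → b w x = 1 → x ≤ rt w
  hys : ∀ w, w < n → ys w < n ∧ (U (fst w) → b w (fst w) = 1 → U (ys w) ∧ b w (ys w) = 1 ∧
    ∀ x, x < n → U x → b w x = 1 → rt x ≤ rt (ys w))

/-- the setting -/
structure World (n : ℕ) (b d : ℕ → ℕ → ℕ) (U : ℕ → Prop) (fst par pos rt ys : ℕ → ℕ) :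
    Prop where
  gr : NGraph n b d
  od : GoodN n b U
  tb : Tab n b U fst par pos rt ys

/-- distances to descendants -/
noncomputable def dinF (n : ℕ) (b d : ℕ → ℕ → ℕ) (y w : ℕ) : ℕ := by
  classical exact if w < n ∧ Anc (Ad b) (fun i => i) y w then d y w else n

/-- distance to the path -/
noncomputable def depF (U : ℕ → Prop) (d : ℕ → ℕ → ℕ) (w : ℕ) : ℕ :=
  sInf {k | ∃ x, U x ∧ d w x = k}

def T_TDS : Prop :=
  ∀ (n : ℕ) (b d : ℕ → ℕ → ℕ) (U : ℕ → Prop) (fst par pos rt ys : ℕ → ℕ),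
    World n b d U fst par pos rt ys → RecDs n b U fst ys d

def T_TDIN : Prop :=
  ∀ (n : ℕ) (b d : ℕ → ℕ → ℕ) (U : ℕ → Prop) (fst par pos rt ys : ℕ → ℕ),
    World n b d U fst par pos rt ys → RecDin n b fst par (dinF n b d)

/-- the properties of `g` -/
structure IsG (n : ℕ) (b d : ℕ → ℕ → ℕ) (U : ℕ → Prop) (g : ℕ → ℕ) : Prop where
  lt : ∀ w, w < n → g w < n
  off : ∀ w, w < n → ¬ U w → ¬ U (g w)
  anc : ∀ w, w < n → Anc (Ad b) (fun i => i) (g w) w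
  one : ∀ w, w < n → ¬ U w → depF U d (g w) = 1
  pr : ∀ w x, w < n → ¬ U w → U x → (b (g w) x = 1 ↔ d w x = depF U d w)

def T_TDEP : Prop :=
  ∀ (n : ℕ) (b d : ℕ → ℕ → ℕ) (U : ℕ → Prop) (fst par pos rt ys : ℕ → ℕ),
    World n b d U fst par pos rt ys →
    ∃ g : ℕ → ℕ, RecDep n U fst (depF U d) g ∧ IsG n b d U g

/-- exactness of the coverage condition inside a column (in fact for all vertices) -/
def T_TCOL : Prop :=
  ∀ (n : ℕ) (b d : ℕ → ℕ → ℕ) (U : ℕ → Prop) (fst par pos rt ys : ℕ → ℕ),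
    World n b d U fst par pos rt ys → ∀ z r w, z < n → w < n → r < n → ¬ U z → U (fst z) →
      (OkC b U d (dinF n b d) z r w ↔ d z w ≤ r)

/-- exactness of the coverage test outside the column -/
def T_TTST : Prop :=
  ∀ (n : ℕ) (b d : ℕ → ℕ → ℕ) (U : ℕ → Prop) (fst par pos rt ys g : ℕ → ℕ),
    World n b d U fst par pos rt ys → IsG n b d U g →
    ∀ z r w, z < n → w < n → 1 ≤ r → ¬ U z → U (fst z) → pos w ≠ pos z →
      ((d (fst z) w < r ∨ d (ys z) w < r ∨ b z w = 1 ∨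
        (¬ U w ∧ (∃ x, x < n ∧ U x ∧ b z x = 1 ∧ b (g w) x = 1) ∧ depF U d w + 1 = r)) ↔
      d z w ≤ r)

/-- the further tables -/
structure World2 (n : ℕ) (b d : ℕ → ℕ → ℕ) (U : ℕ → Prop)
    (fst par pos rt ys g ec h wo : ℕ → ℕ) (Z : ℕ → ℕ → ℕ) : Prop where
  wd : World n b d U fst par pos rt ys
  isg : IsG n b d U g
  hec : ∀ y, y < n → (∀ w, w < n → dinF n b d y w < n → dinF n b d y w ≤ ec y) ∧
    (ec y = 0 ∨ ∃ w, w < n ∧ dinF n b d y w < n ∧ ec y = dinF n b d y w)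
  hh : ∀ p, p < n → U p → IsH n pos (depF U d) p (h p)
  hwo : ∀ p, p < n → U p → IsWo n b U pos (depF U d) g p (h p) (wo p)
  hz : ∀ k p, k < 2 → p < n → U p →
    IsZ n U (dinF n b d) (depF U d) ec k (h p) (wo p) (Z k p)

/-- candidates are off the path, in their column, next to the path -/
def T_TZ : Prop :=
  ∀ (n : ℕ) (b d : ℕ → ℕ → ℕ) (U : ℕ → Prop) (fst par pos rt ys g ec h wo : ℕ → ℕ)
    (Z : ℕ → ℕ → ℕ), World2 n b d U fst par pos rt ys g ec h wo Z →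
    ∀ k p, k < 2 → p < n → U p → Z k p < n ∧
      (0 < Z k p → ¬ U (Z k p) ∧ pos (Z k p) = p ∧ U (fst (Z k p)) ∧
        (∀ w, w < n → Anc (Ad b) (fun i => i) (Z k p) w → d (Z k p) w + k ≤ h p))

/-- the candidate theorem -/
def T_TCT : Prop :=
  ∀ (n : ℕ) (b d : ℕ → ℕ → ℕ) (U : ℕ → Prop) (fst par pos rt ys g ec h wo : ℕ → ℕ)
    (Z : ℕ → ℕ → ℕ), World2 n b d U fst par pos rt ys g ec h wo Z →
    ∀ i j c q r, U i → (j = n ∨ U j) → i < j → j ≤ n → i ≤ c → c < j → ¬ U c → U q → i ≤ q →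
      q < j → b c q = 1 → 1 ≤ r → (∀ w, i ≤ w → w < j → d c w ≤ r) →
      (∃ a, U a ∧ i ≤ a ∧ a < j ∧ ∀ w, i ≤ w → w < j → d a w ≤ r) ∨
      (∃ k, k < 2 ∧ h (pos c) = r + k ∧ 0 < Z k (pos c) ∧
        ∀ w, i ≤ w → w < j → d (Z k (pos c)) w ≤ r)

/-- the intervals computed by `cIv` -/
def T_TIV : Prop :=
  ∀ (n : ℕ) (b d : ℕ → ℕ → ℕ) (U : ℕ → Prop) (fst par pos rt ys g ec h wo HR HL : ℕ → ℕ)
    (Z : ℕ → ℕ → ℕ), World2 n b d U fst par pos rt ys g ec h wo Z →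
    (∀ w, w < n → ¬ U w → ∀ p, p < n →
      (HR w = p ↔ HitR n b U (depF U d) g h Z w p) ∧
      (HL w = p ↔ HitL n b U pos (depF U d) g h Z w p)) →
    ∀ k p, k < 2 → p < n → U p → 0 < Z k p → 0 < h p - k →
      (∀ w, w < n → pos w = p → OkC b U d (dinF n b d) (Z k p) (h p - k) w) →
      ∀ l u, l ≤ p → p < u → u ≤ n →
      (∀ w, l ≤ w → w < p → Tst b U fst ys (depF U d) HR HL d p (Z k p) (h p - k) w) →
      (∀ w, p < w → w < u →
        pos w = p ∨ Tst b U fst ys (depF U d) HR HL d p (Z k p) (h p - k) w) →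
      (l = 0 ∨ ¬ Tst b U fst ys (depF U d) HR HL d p (Z k p) (h p - k) (l - 1)) →
      (u = n ∨ ¬ (pos u = p ∨ Tst b U fst ys (depF U d) HR HL d p (Z k p) (h p - k) u)) →
      (∀ w, l ≤ w → w < u → d (Z k p) w ≤ h p - k) ∧
      ∀ i j, U i → (j = n ∨ U j) → i ≤ p → p < j → j ≤ n →
        (∀ w, i ≤ w → w < j → d (Z k p) w ≤ h p - k) → l ≤ i ∧ j ≤ u

/-- the renumbering by `(pos, ·)` of a natural elimination order -/
def T_REORD : Prop :=
  ∀ (n : ℕ) (b : ℕ → ℕ → ℕ) (par pos : ℕ → ℕ) (v : ℕ), 1 ≤ n → v < n →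
    (∀ i j, b i j = 1 → i < n ∧ j < n) → (∀ i, b i i ≠ 1) → (∀ i j, b i j = 1 → b j i = 1) →
    NatOrd n b →
    (∀ w, 0 < w → w < n → par w < w ∧ b w (par w) = 1 ∧ ∀ j, j < w → b w j = 1 → j ≤ par w) →
    par 0 = 0 →
    (∀ w, w < n → (∃ k, par^[k] v = w) → pos w = w) →
    (∀ w, w < n → (¬ ∃ k, par^[k] v = w) → pos w = pos (par w)) →
    (∀ w, w < n → rank n pos w < n) ∧
    (∀ i j, i < n → j < n → rank n pos i = rank n pos j → i = j) ∧
    rank n pos 0 = 0 ∧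
    ∀ (b' : ℕ → ℕ → ℕ) (U' : ℕ → Prop),
      (∀ i j, i < n → j < n → b' (rank n pos i) (rank n pos j) = b i j) →
      (∀ i j, b' i j = 1 → i < n ∧ j < n) →
      (∀ w, w < n → (U' (rank n pos w) ↔ ∃ k, par^[k] v = w)) → (∀ x, U' x → x < n) →
      GoodN n b' U' ∧ U' (rank n pos v) ∧ ∀ x, U' x → x ≤ rank n pos v

end Pool.Agent.BDC
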